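import Pool.Agent.Lib.SH.DefP
import Pool.Agent.Lib.SH.Mid9b

/-!
# SH-PrinMidA: one scale implies the principle at the numbers 2p, for every set B of primes (helper10)
-/

set_option autoImplicit false

open Finset

namespace Pool.Agent.Lib.SH

open Pool.Agent.Lib.MT Pool.Agent.Lib.SG

/-- the scales -/
private theorem prinmid_Y (X J X₁ : ℕ) (δ₀ : ℝ) (hδ₀ : δ₀ = (2 / 3 : ℝ) ^ J) (h1 : 2 * ((X₁ : ℝ) + 10) ≤ δ₀ * X)
    (h2 : 4 / δ₀ ^ 2 ≤ (X : ℝ)) (hX : 1 ≤ X) : ∀ j ∈ range (J + 1),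
    δ₀ / 2 * X ≤ (⌊(X : ℝ) * (2 / 3 : ℝ) ^ j⌋₊ : ℕ) ∧ ((⌊(X : ℝ) * (2 / 3 : ℝ) ^ j⌋₊ : ℕ) : ℝ) ≤ X * (2 / 3 : ℝ) ^ j ∧
    ⌊(X : ℝ) * (2 / 3 : ℝ) ^ j⌋₊ ≤ X ∧ X₁ ≤ ⌊(X : ℝ) * (2 / 3 : ℝ) ^ j⌋₊ ∧
    Real.log X / 2 ≤ Real.log (⌊(X : ℝ) * (2 / 3 : ℝ) ^ j⌋₊ : ℕ) ∧
    Real.log (⌊(X : ℝ) * (2 / 3 : ℝ) ^ j⌋₊ : ℕ) ≤ Real.log X := by
  intro j hj
  rw [mem_range] at hj
  have hδ₀0 : 0 < δ₀ := by
    rw [hδ₀]
    positivity
  have hX0 : (0 : ℝ) < X := by exact_mod_cast hX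
  have a1 : δ₀ * X ≤ X * (2 / 3 : ℝ) ^ j := by
    rw [hδ₀, mul_comm]
    apply mul_le_mul_of_nonneg_left _ hX0.le
    exact pow_le_pow_of_le_one (by norm_num) (by norm_num) (by omega)
  have a2 : (X : ℝ) * (2 / 3 : ℝ) ^ j ≤ X :=
    mul_le_of_le_one_right hX0.le (pow_le_one₀ (by norm_num) (by norm_num))
  have a3 : ((⌊(X : ℝ) * (2 / 3 : ℝ) ^ j⌋₊ : ℕ) : ℝ) ≤ X * (2 / 3 : ℝ) ^ j := Nat.floor_le (by positivity)
  have a4 := Nat.lt_floor_add_one ((X : ℝ) * (2 / 3 : ℝ) ^ j)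
  have a5 : δ₀ / 2 * X = δ₀ * X / 2 := by ring
  have hX₁0 : (0 : ℝ) ≤ X₁ := Nat.cast_nonneg _
  have b1 : δ₀ / 2 * X ≤ (⌊(X : ℝ) * (2 / 3 : ℝ) ^ j⌋₊ : ℕ) := by linarith
  have b2 : ((⌊(X : ℝ) * (2 / 3 : ℝ) ^ j⌋₊ : ℕ) : ℝ) ≤ X := a3.trans a2
  have b3 : (X₁ : ℝ) ≤ (⌊(X : ℝ) * (2 / 3 : ℝ) ^ j⌋₊ : ℕ) := by linarith
  have hsq : Real.sqrt X ≤ δ₀ / 2 * X := by
    rw [div_le_iff₀ (by positivity)] at h2
    rw [Real.sqrt_le_left (by positivity)]
    nlinarith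
  have hs0 : 0 < Real.sqrt X := Real.sqrt_pos.2 hX0
  refine ⟨b1, a3, by exact_mod_cast b2, by exact_mod_cast b3, ?_, Real.log_le_log ?_ b2⟩
  · rw [← Real.log_sqrt hX0.le]
    exact Real.log_le_log hs0 (hsq.trans b1)
  · linarith

private theorem prinmid_geom (n : ℕ) : ∑ j ∈ range n, (2 / 3 : ℝ) ^ j ≤ 3 := by
  have h : ∑ j ∈ range n, (2 / 3 : ℝ) ^ j = 3 - 3 * (2 / 3) ^ n := by
    induction n with
    | zero => simp
    | succ n ih =>
      rw [sum_range_succ, ih, pow_succ]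
      ring
  rw [h]
  have : (0 : ℝ) < 3 * (2 / 3) ^ n := by positivity
  linarith

/-- the primes `p ≤ X`, not very small, such that `2p - n` is prime -/
private theorem prinmid_f : ∃ C : ℝ, 1 ≤ C ∧ ∀ J D : ℕ, ∃ X₀ : ℕ, ∀ X : ℕ, X₀ ≤ X → ∀ y z n : ℕ,
    (X : ℝ) * (2 / 3 : ℝ) ^ J ≤ y → Real.log X / 2 ≤ z → (z : ℝ) ≤ (Real.log X) ^ D → 1 ≤ n → Rg z n →
    (((Ioc y X).filter fun p => p.Prime ∧ n < 2 * p ∧ (2 * p - n).Prime).card : ℝ) ≤
      C * X / (Real.log X) ^ 2 := by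
  obtain ⟨C₀, hC₀, hmid⟩ := mid9b
  refine ⟨12 * C₀, by linarith, fun J D => ?_⟩
  obtain ⟨X₁, hmid⟩ := hmid (2 * D)
  obtain ⟨δ₀, hδ₀⟩ : ∃ δ₀ : ℝ, δ₀ = (2 / 3 : ℝ) ^ J := ⟨_, rfl⟩
  have hδ₀0 : 0 < δ₀ := by
    rw [hδ₀]
    positivity
  obtain ⟨X₃, hlog⟩ := Filter.eventually_atTop.mp (RNum6_log.eventually_ge_atTop 4)
  obtain ⟨X₄, hX₄⟩ : ∃ X₄ : ℕ, (2 * (X₁ + 10)) / δ₀ ≤ (X₄ : ℝ) := exists_nat_ge _
  obtain ⟨X₅, hX₅⟩ : ∃ X₅ : ℕ, 4 / δ₀ ^ 2 ≤ (X₅ : ℝ) := exists_nat_ge _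
  refine ⟨X₃ + X₄ + X₅ + 1, fun X hX y z n hy hz1 hz2 hn hR => ?_⟩
  have hL := hlog X (by omega)
  have hX1 : 1 ≤ X := by omega
  have hX0 : (0 : ℝ) < X := by exact_mod_cast hX1
  have hL0 : 0 < Real.log X := by linarith
  have hδX : 2 * ((X₁ : ℝ) + 10) ≤ δ₀ * X := by
    rw [div_le_iff₀ hδ₀0] at hX₄
    have h2 : (X₄ : ℝ) ≤ X := by exact_mod_cast (show X₄ ≤ X by omega)
    nlinarith
  have h4X : 4 / δ₀ ^ 2 ≤ (X : ℝ) := hX₅.trans (by exact_mod_cast (show X₅ ≤ X by omega))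
  have hYs := prinmid_Y X J X₁ δ₀ hδ₀ hδX h4X hX1
  have hX₁0 : (0 : ℝ) ≤ X₁ := Nat.cast_nonneg _
  have hcov : (Ioc y X).filter (fun p => p.Prime ∧ n < 2 * p ∧ (2 * p - n).Prime) ⊆
      (range (J + 1)).biUnion fun j => (Ioc ⌊(X : ℝ) * (2 / 3 : ℝ) ^ j⌋₊ (2 * ⌊(X : ℝ) * (2 / 3 : ℝ) ^ j⌋₊)).filter
        (fun p => p.Prime ∧ n < 2 * p ∧ (2 * p - n).Prime) := by
    intro p hp
    rw [mem_filter, mem_Ioc] at hp
    obtain ⟨j, hj, hjp⟩ := prinall_scale X y J p (by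
      rw [← hδ₀]
      linarith) hy hp.1.1 (by omega)
    rw [mem_biUnion]
    refine ⟨j, hj, ?_⟩
    rw [mem_filter]
    exact ⟨hjp, hp.2⟩
  have h1 : (((Ioc y X).filter fun p => p.Prime ∧ n < 2 * p ∧ (2 * p - n).Prime).card : ℝ) ≤
      ∑ j ∈ range (J + 1), (((Ioc ⌊(X : ℝ) * (2 / 3 : ℝ) ^ j⌋₊ (2 * ⌊(X : ℝ) * (2 / 3 : ℝ) ^ j⌋₊)).filter
        (fun p => p.Prime ∧ n < 2 * p ∧ (2 * p - n).Prime)).card : ℝ) := by
    exact_mod_cast (card_le_card hcov).trans card_biUnion_le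
  refine h1.trans ?_
  have h2 : ∀ j ∈ range (J + 1), (((Ioc ⌊(X : ℝ) * (2 / 3 : ℝ) ^ j⌋₊ (2 * ⌊(X : ℝ) * (2 / 3 : ℝ) ^ j⌋₊)).filter
        (fun p => p.Prime ∧ n < 2 * p ∧ (2 * p - n).Prime)).card : ℝ) ≤
      4 * C₀ * X / (Real.log X) ^ 2 * (2 / 3 : ℝ) ^ j := by
    intro j hj
    obtain ⟨-, b2, -, b4, b5, b6⟩ := hYs j hj
    obtain ⟨Y, hY⟩ : ∃ Y : ℕ, Y = ⌊(X : ℝ) * (2 / 3 : ℝ) ^ j⌋₊ := ⟨_, rfl⟩
    rw [← hY] at b2 b4 b5 b6 ⊢
    have c1 := hmid Y b4 z n (by linarith) (by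
      refine hz2.trans ?_
      rw [pow_mul]
      apply pow_le_pow_left₀ hL0.le
      nlinarith) hn hR
    refine c1.trans ?_
    have c2 : (Real.log X / 2) ^ 2 ≤ (Real.log Y) ^ 2 := pow_le_pow_left₀ (by positivity) b5 2
    calc C₀ * Y / (Real.log Y) ^ 2 ≤ C₀ * (X * (2 / 3 : ℝ) ^ j) / (Real.log X / 2) ^ 2 := by
          apply div_le_div₀ (by positivity) (by gcongr) (by positivity) c2
      _ = _ := by
          field_simp
          ring
  refine (sum_le_sum h2).trans ?_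
  rw [← mul_sum]
  calc 4 * C₀ * X / (Real.log X) ^ 2 * ∑ j ∈ range (J + 1), (2 / 3 : ℝ) ^ j ≤
        4 * C₀ * X / (Real.log X) ^ 2 * 3 := mul_le_mul_of_nonneg_left (prinmid_geom _) (by positivity)
    _ = _ := by ring

private theorem prinmid_inj : Function.Injective (fun p : ℕ => 2 * p) := fun a b hab => by
  have : 2 * a = 2 * b := hab
  omega

/-- the correlation with a set of primes -/
private theorem prinmid_cr (X y n : ℕ) (E B : Finset ℕ) (hE : ∀ p ∈ E, y < p ∧ p ≤ X ∧ p.Prime)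
    (hB : ∀ b ∈ B, b.Prime) : cr (E.image fun p => 2 * p) B n ≤
      (((Ioc y X).filter fun p => p.Prime ∧ n < 2 * p ∧ (2 * p - n).Prime).card : ℝ) := by
  have h1 : cr (E.image fun p => 2 * p) B n ≤ ∑ p ∈ E, (if n < 2 * p ∧ (2 * p - n).Prime then (1 : ℝ) else 0) := by
    unfold cr
    rw [sum_image (fun a _ b _ hab => prinmid_inj hab)]
    refine sum_le_sum fun p _ => ?_
    by_cases h : n < 2 * p ∧ (2 * p - n).Prime
    · rw [if_pos h]
      have h2 : ∀ b ∈ B, (if 2 * p = b + n then (1 : ℝ) else 0) = if b = 2 * p - n then 1 else 0 := by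
        intro b _
        refine if_congr ?_ rfl rfl
        omega
      rw [sum_congr rfl h2, sum_ite_eq']
      split_ifs
      · exact le_rfl
      · exact zero_le_one
    · rw [if_neg h]
      refine le_of_eq (sum_eq_zero fun b hb => ?_)
      rw [if_neg]
      intro h3
      apply h
      have h4 := (hB b hb)
      have h5 := h4.pos
      have h6 : 2 * p - n = b := by omega
      exact ⟨by omega, by rw [h6]; exact h4⟩
  refine h1.trans ?_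
  rw [sum_boole]
  have h2 : (E.filter fun p => n < 2 * p ∧ (2 * p - n).Prime).card ≤
      ((Ioc y X).filter fun p => p.Prime ∧ n < 2 * p ∧ (2 * p - n).Prime).card := by
    refine card_le_card fun p hp => ?_
    rw [mem_filter] at hp
    have h3 := hE p hp.1
    rw [mem_filter, mem_Ioc]
    exact ⟨⟨h3.1, h3.2.1⟩, h3.2.2, hp.2⟩
  exact_mod_cast h2

/-- pairs with a small difference -/
private theorem prinmid_small (X y z Y : ℕ) (F : ℝ) (hF0 : 0 ≤ F) (E B : Finset ℕ)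
    (hE : ∀ p ∈ E, y < p ∧ p ≤ X ∧ p.Prime) (hB : ∀ b ∈ B, b.Prime ∧ b ≤ 2 * X)
    (hF : ∀ q : ℕ, q.Prime → z < q →
      (((Ioc y X).filter fun p => p.Prime ∧ q < 2 * p ∧ (2 * p - q).Prime).card : ℝ) ≤ F) :
    ∑ N ∈ E.image (fun p => 2 * p), ∑ b ∈ B, (if b ≤ N ∧ N - b ≤ Y ∧ (N - b).Prime then (1 : ℝ) else 0) ≤
      ((Icc 1 Y).filter Nat.Prime).card * F + z * (2 * X) := by
  classical
  obtain ⟨S, hS⟩ : ∃ S : Finset ℕ, S = (Icc 1 Y).filter Nat.Prime := ⟨_, rfl⟩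
  have h1 := cr_sum (E.image fun p => 2 * p) B S (fun _ => 1)
  simp only [one_mul] at h1
  have h2 : ∑ N ∈ E.image (fun p => 2 * p), ∑ b ∈ B, (if b ≤ N ∧ N - b ≤ Y ∧ (N - b).Prime then (1 : ℝ) else 0) =
      ∑ n ∈ S, cr (E.image fun p => 2 * p) B n := by
    rw [h1]
    refine sum_congr rfl fun N _ => sum_congr rfl fun b _ => ?_
    refine if_congr ?_ rfl rfl
    rw [hS, mem_filter, mem_Icc]
    constructor
    · rintro ⟨a1, a2, a3⟩
      exact ⟨a1, ⟨a3.pos, a2⟩, a3⟩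
    · rintro ⟨a1, ⟨a2, a3⟩, a4⟩
      exact ⟨a1, a3, a4⟩
  rw [h2, ← hS]
  have hBX : (B.card : ℝ) ≤ 2 * X := by
    have h3 : B.card ≤ (Icc 1 (2 * X)).card := card_le_card fun b hb => by
      have h4 := hB b hb
      rw [mem_Icc]
      exact ⟨h4.1.pos, h4.2⟩
    rw [Nat.card_Icc, Nat.add_sub_cancel] at h3
    exact_mod_cast h3
  have h3 : ∀ n ∈ S, cr (E.image fun p => 2 * p) B n ≤ F + if n ≤ z then (2 * X : ℝ) else 0 := by
    intro n hn
    rw [hS, mem_filter] at hn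
    by_cases h4 : n ≤ z
    · rw [if_pos h4]
      have h5 := (cr_le (E.image fun p => 2 * p) B n).trans hBX
      linarith
    · rw [if_neg h4, add_zero]
      exact (prinmid_cr X y n E B hE (fun b hb => (hB b hb).1)).trans (hF n hn.2 (by omega))
  refine (sum_le_sum h3).trans ?_
  rw [sum_add_distrib, sum_const, nsmul_eq_mul, ← sum_filter, sum_const, nsmul_eq_mul]
  have h4 : (S.filter fun n => n ≤ z).card ≤ z := by
    have h5 : (S.filter fun n => n ≤ z).card ≤ (Icc 1 z).card := card_le_card fun n hn => by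
      rw [mem_filter, hS, mem_filter, mem_Icc] at hn
      rw [mem_Icc]
      exact ⟨hn.1.1.1, hn.2⟩
    rwa [Nat.card_Icc, Nat.add_sub_cancel] at h5
  have h5 : ((S.filter fun n => n ≤ z).card : ℝ) ≤ z := by exact_mod_cast h4
  have h6 : ((S.filter fun n => n ≤ z).card : ℝ) * (2 * X) ≤ z * (2 * X) :=
    mul_le_mul_of_nonneg_right h5 (by positivity)
  linarith

open Classical in
theorem prin_mid_of (m : ℕ)
    (hprin9r : ∃ κ₀ : ℝ, 0 < κ₀ ∧ κ₀ ≤ 1 ∧ ∃ D : ℕ, 2 ≤ D ∧ ∀ κ δ : ℝ, 0 < κ → 0 < δ →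
    ∃ c η : ℝ, 0 < c ∧ 0 < η ∧ ∃ X₀ : ℕ, ∀ X : ℕ, X₀ ≤ X → ∀ H : ℕ, (H : ℝ) ≤ κ₀ * Real.log X →
    κ * Real.log X ≤ H → ∀ A : Set ℕ, ((Mis m H X A).card : ℝ) ≤ η * X → ∀ (E B : Finset ℕ) (M : ℝ), 0 < M →
    Real.sqrt (E.card * B.card) ≤ M * (Real.log X) ^ 3 →
    (∀ n ∈ Ioc X (3 * X), Rg (zX D X) n → cr E B n ≤ M) →
    δ * M * X ≤ Real.log X * prs E B X (2 * X) Set.univ →
    c * M * X ≤ Real.log X * prs E B X (3 * X) A) :
    ∃ κ₀ : ℝ, 0 < κ₀ ∧ ∀ κ δ ε : ℝ, 0 < κ → κ ≤ κ₀ → 0 < δ → 0 < ε →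
    ∃ c η : ℝ, 0 < c ∧ 0 < η ∧ ∃ X₀ : ℕ, ∀ X : ℕ, X₀ ≤ X → ∀ A : Set ℕ,
    ((Miss m ⌊κ * Real.log X⌋₊ (2 * X) A).card : ℝ) ≤ η * X → ∀ B : Finset ℕ, (∀ b ∈ B, b.Prime) →
    (((Icc 1 X).filter (fun p => p.Prime ∧ δ * X / (Real.log X) ^ 2 ≤ pr1 B Set.univ (2 * p) ∧
      (pr1 B A (2 * p) : ℝ) < c * pr1 B Set.univ (2 * p))).card : ℝ) ≤ ε * X / Real.log X := by
  obtain ⟨κ₀, hκ₀, hκ₀1, D, hD, hpr⟩ := hprin9r
  obtain ⟨C, hC, hf⟩ := prinmid_f
  refine ⟨κ₀ / 2, by positivity, fun κ δ ε hκ0 hκκ hδ hε => ?_⟩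
  have hC0 : 0 < C := by linarith
  -- the scales
  obtain ⟨ε₁, hε₁⟩ : ∃ ε₁ : ℝ, ε₁ = min (min (ε / 8) (ε * δ / (64 * C))) 1 := ⟨_, rfl⟩
  have hε₁0 : 0 < ε₁ := by
    rw [hε₁]
    exact lt_min (lt_min (by positivity) (by positivity)) one_pos
  have hε₁1 : ε₁ ≤ ε / 8 := by
    rw [hε₁]
    exact (min_le_left _ _).trans (min_le_left _ _)
  have hε₁2 : ε₁ ≤ ε * δ / (64 * C) := by
    rw [hε₁]
    exact (min_le_left _ _).trans (min_le_right _ _)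
  have hε₁3 : ε₁ ≤ 1 := by
    rw [hε₁]
    exact min_le_right _ _
  obtain ⟨J, hJ⟩ := exists_pow_lt_of_lt_one (show 0 < ε₁ / 2 by positivity) (show (2 / 3 : ℝ) < 1 by norm_num)
  obtain ⟨δ₀, hδ₀⟩ : ∃ δ₀ : ℝ, δ₀ = (2 / 3 : ℝ) ^ J := ⟨_, rfl⟩
  rw [← hδ₀] at hJ
  have hδ₀0 : 0 < δ₀ := by
    rw [hδ₀]
    positivity
  obtain ⟨δ', hδ'⟩ : ∃ δ' : ℝ, δ' = ε * δ / (16 * C * (J + 1)) := ⟨_, rfl⟩
  have hδ'0 : 0 < δ' := by
    rw [hδ']
    positivity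
  obtain ⟨c₁, η₁, hc₁, hη₁, X₁, hone⟩ := hpr (κ / 2) δ' (by positivity) hδ'0
  obtain ⟨X₂, hpi⟩ := prinall_pi
  obtain ⟨X₃, hlog⟩ := Filter.eventually_atTop.mp (RNum6_log.eventually_ge_atTop (16 + 4 / κ))
  obtain ⟨X₄, hX₄⟩ : ∃ X₄ : ℕ, (2 * (X₁ + X₂ + 10)) / δ₀ ≤ (X₄ : ℝ) := exists_nat_ge _
  obtain ⟨X₅, hX₅⟩ : ∃ X₅ : ℕ, 4 / δ₀ ^ 2 ≤ (X₅ : ℝ) := exists_nat_ge _
  obtain ⟨X₆, hf⟩ := hf J D
  obtain ⟨β, hβ⟩ : ∃ β : ℝ, β = min (ε * δ / 16) 1 := ⟨_, rfl⟩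
  have hβ0 : 0 < β := by
    rw [hβ]
    exact lt_min (by positivity) one_pos
  have hβ1 : β ≤ ε * δ / 16 := by
    rw [hβ]
    exact min_le_left _ _
  have hβ2 : β ≤ 1 := by
    rw [hβ]
    exact min_le_right _ _
  obtain ⟨X₇, hpow⟩ := Filter.eventually_atTop.mp (RNum6_pow (2 / β) 1 one_pos (D + 3))
  refine ⟨c₁ * δ₀ / 10, η₁ * (δ₀ / 2), by positivity, by positivity, X₂ + X₃ + X₄ + X₅ + X₆ + X₇ + 1,
    fun X hX A hA B₀ hB₀ => ?_⟩
  have hL := hlog X (by omega)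
  have h4κ : 0 < 4 / κ := by positivity
  have hX1 : 1 ≤ X := by omega
  have hXX : (1 : ℝ) ≤ X := by exact_mod_cast hX1
  have hX0 : (0 : ℝ) < X := by linarith
  have hL0 : 0 < Real.log X := by linarith
  have hX₁0 : (0 : ℝ) ≤ X₁ := Nat.cast_nonneg _
  have hX₂0 : (0 : ℝ) ≤ X₂ := Nat.cast_nonneg _
  have hδX : 2 * (((X₁ + X₂ : ℕ) : ℝ) + 10) ≤ δ₀ * X := by
    rw [div_le_iff₀ hδ₀0] at hX₄
    have h2 : (X₄ : ℝ) ≤ X := by exact_mod_cast (show X₄ ≤ X by omega)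
    push_cast
    nlinarith
  have h4X : 4 / δ₀ ^ 2 ≤ (X : ℝ) := hX₅.trans (by exact_mod_cast (show X₅ ≤ X by omega))
  have hYs := prinmid_Y X J (X₁ + X₂) δ₀ hδ₀ hδX h4X hX1
  have hpw : 2 * (Real.log X) ^ (D + 3) ≤ β * X := by
    have h1 := hpow X (by omega)
    rw [Real.rpow_one] at h1
    have h2 : 2 / β * (Real.log X) ^ (D + 3) * β ≤ X * β := mul_le_mul_of_nonneg_right h1 hβ0.le
    have h3 : 2 / β * (Real.log X) ^ (D + 3) * β = 2 * (Real.log X) ^ (D + 3) := by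
      field_simp
    linarith
  obtain ⟨y, hy⟩ : ∃ y : ℕ, y = ⌊ε₁ * X⌋₊ := ⟨_, rfl⟩
  have hy1 : (y : ℝ) ≤ ε₁ * X := by
    rw [hy]
    exact Nat.floor_le (by positivity)
  have hy2 : ε₁ * X < y + 1 := by
    rw [hy]
    exact Nat.lt_floor_add_one _
  have hδε : δ₀ * X ≤ ε₁ / 2 * X := mul_le_mul_of_nonneg_right hJ.le hX0.le
  have hδX' : 2 * ((X₁ : ℝ) + X₂ + 10) ≤ δ₀ * X := by
    have := hδX
    push_cast at this
    exact this
  have hδy : δ₀ * X ≤ y := by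
    have : ε₁ / 2 * X = ε₁ * X / 2 := by ring
    linarith
  have hJy : (X : ℝ) * (2 / 3 : ℝ) ^ J ≤ y := by
    rw [← hδ₀, mul_comm]
    exact hδy
  have hlogy : Real.log X / 2 ≤ Real.log y := by
    have h1 := hYs J (by rw [mem_range]; omega)
    obtain ⟨b1, b2, -, -, b5, -⟩ := h1
    refine b5.trans (Real.log_le_log ?_ (b2.trans hJy))
    have : 0 < δ₀ / 2 * X := by positivity
    linarith
  have hpiy : (((Icc 1 y).filter Nat.Prime).card : ℝ) ≤ 4 * ε₁ * X / Real.log X := by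
    have g1 := (hpi y (by
      have : (X₂ : ℝ) ≤ y := by linarith
      exact_mod_cast this)).2
    rw [le_div_iff₀ hL0]
    have g2 : (((Icc 1 y).filter Nat.Prime).card : ℝ) * (Real.log X / 2) ≤
        (((Icc 1 y).filter Nat.Prime).card : ℝ) * Real.log y := mul_le_mul_of_nonneg_left hlogy (Nat.cast_nonneg _)
    linarith
  -- the exceptional set
  obtain ⟨B, hB⟩ : ∃ B : Finset ℕ, B = B₀.filter (fun b => b ≤ 2 * X) := ⟨_, rfl⟩
  have hBm : ∀ b ∈ B, b.Prime ∧ b ≤ 2 * X := by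
    intro b hb
    rw [hB, mem_filter] at hb
    exact ⟨hB₀ b hb.1, hb.2⟩
  have hBB : ∀ (A : Set ℕ) (N : ℕ), N ≤ 2 * X → pr1 B A N = pr1 B₀ A N := by
    intro A N hN
    unfold pr1
    rw [hB, filter_filter]
    congr 1
    refine filter_congr fun b _ => ?_
    constructor
    · intro h
      exact h.2
    · intro h
      exact ⟨by omega, h⟩
  by_contra hcon
  push Not at hcon
  obtain ⟨E, hE⟩ : ∃ E : Finset ℕ, E = (Icc 1 X).filter (fun p => y < p ∧ p.Prime ∧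
      δ * X / (Real.log X) ^ 2 ≤ pr1 B Set.univ (2 * p) ∧
      (pr1 B A (2 * p) : ℝ) < c₁ * δ₀ / 10 * pr1 B Set.univ (2 * p)) := ⟨_, rfl⟩
  have hEm : ∀ p ∈ E, (y < p ∧ p ≤ X ∧ p.Prime) ∧ δ * X / (Real.log X) ^ 2 ≤ pr1 B Set.univ (2 * p) ∧
      (pr1 B A (2 * p) : ℝ) < c₁ * δ₀ / 10 * pr1 B Set.univ (2 * p) := by
    intro p hp
    rw [hE, mem_filter, mem_Icc] at hp
    exact ⟨⟨hp.2.1, hp.1.2, hp.2.2.1⟩, hp.2.2.2⟩
  have hEc : ε / 2 * X / Real.log X < E.card := by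
    have h1 : (Icc 1 X).filter (fun p => p.Prime ∧ δ * X / (Real.log X) ^ 2 ≤ pr1 B₀ Set.univ (2 * p) ∧
      (pr1 B₀ A (2 * p) : ℝ) < c₁ * δ₀ / 10 * pr1 B₀ Set.univ (2 * p)) ⊆ (Icc 1 y).filter Nat.Prime ∪ E := by
      intro p hp
      rw [mem_filter, mem_Icc] at hp
      rw [mem_union]
      by_cases h2 : p ≤ y
      · left
        rw [mem_filter, mem_Icc]
        exact ⟨⟨hp.1.1, h2⟩, hp.2.1⟩
      · right
        rw [hE, mem_filter, mem_Icc, hBB _ _ (by omega), hBB _ _ (by omega)]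
        exact ⟨hp.1, by omega, hp.2⟩
    have h2 := (card_le_card h1).trans (card_union_le _ _)
    have h3 : ((((Icc 1 X).filter (fun p => p.Prime ∧ δ * X / (Real.log X) ^ 2 ≤ pr1 B₀ Set.univ (2 * p) ∧
      (pr1 B₀ A (2 * p) : ℝ) < c₁ * δ₀ / 10 * pr1 B₀ Set.univ (2 * p))).card : ℕ) : ℝ) ≤
      ((Icc 1 y).filter Nat.Prime).card + E.card := by exact_mod_cast h2
    have h4 : 4 * ε₁ * X / Real.log X ≤ ε / 2 * X / Real.log X := by
      gcongr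
      linarith
    have h5 : ε * X / Real.log X = ε / 2 * X / Real.log X + ε / 2 * X / Real.log X := by ring
    linarith
  have hEn : E.Nonempty := by
    rw [← card_pos]
    have : (0 : ℝ) < E.card := lt_of_le_of_lt (by positivity) hEc
    exact_mod_cast this
  have hEX : (E.card : ℝ) ≤ X := by
    have h1 : E.card ≤ X := by
      rw [hE]
      refine (card_filter_le _ _).trans ?_
      rw [Nat.card_Icc, Nat.add_sub_cancel]
    exact_mod_cast h1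
  have hBX : (B.card : ℝ) ≤ 2 * X := by
    have h3 : B.card ≤ (Icc 1 (2 * X)).card := card_le_card fun b hb => by
      have h4 := hBm b hb
      rw [mem_Icc]
      exact ⟨h4.1.pos, h4.2⟩
    rw [Nat.card_Icc, Nat.add_sub_cancel] at h3
    exact_mod_cast h3
  obtain ⟨T, hT⟩ : ∃ T : Finset ℕ, T = E.image (fun p => 2 * p) := ⟨_, rfl⟩
  have hTc : T.card = E.card := by
    rw [hT]
    exact card_image_of_injective _ prinmid_inj
  have hTs : ∀ f : ℕ → ℝ, ∑ s ∈ T, f s = ∑ p ∈ E, f (2 * p) := by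
    intro f
    rw [hT, sum_image (fun a _ b _ hab => prinmid_inj hab)]
  have hTm : ∀ N ∈ T, N ≤ 2 * X := by
    intro N hN
    rw [hT, mem_image] at hN
    obtain ⟨p, hp, rfl⟩ := hN
    have := (hEm p hp).1.2.1
    omega
  obtain ⟨M, hM⟩ : ∃ M : ℝ, M = C * X / (Real.log X) ^ 2 := ⟨_, rfl⟩
  have hM0 : 0 < M := by
    rw [hM]
    positivity
  -- the sieve bound
  obtain ⟨z, hz⟩ : ∃ z : ℕ, z = zX D X := ⟨_, rfl⟩
  have hz1 : (z : ℝ) ≤ (Real.log X) ^ D := by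
    rw [hz]
    exact Nat.floor_le (by positivity)
  have hz2 : Real.log X / 2 ≤ z := by
    have h1 : (Real.log X) ^ D < z + 1 := by
      rw [hz]
      exact Nat.lt_floor_add_one _
    have h2 : (Real.log X) ^ 1 ≤ (Real.log X) ^ D := pow_le_pow_right₀ (by linarith) (by omega)
    rw [pow_one] at h2
    linarith
  have hFq : ∀ q : ℕ, q.Prime → z < q →
      (((Ioc y X).filter fun p => p.Prime ∧ q < 2 * p ∧ (2 * p - q).Prime).card : ℝ) ≤ M := by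
    intro q hq hzq
    rw [hM]
    refine hf X (by omega) y z q hJy hz2 hz1 hq.pos ?_
    intro r hr hrq
    unfold PP at hr
    rw [mem_filter, mem_range] at hr
    have h1 := (Nat.prime_dvd_prime_iff_eq hr.2.1 hq).1 hrq
    omega
  have hzX : (z : ℝ) * (2 * X) ≤ β * X ^ 2 / (Real.log X) ^ 3 := by
    rw [le_div_iff₀ (by positivity)]
    calc (z : ℝ) * (2 * X) * (Real.log X) ^ 3 ≤ (Real.log X) ^ D * (2 * X) * (Real.log X) ^ 3 := by gcongr
      _ = X * (2 * (Real.log X) ^ (D + 3)) := by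
          rw [pow_add]
          ring
      _ ≤ X * (β * X) := by gcongr
      _ = _ := by ring
  have hsmall : ∀ Y : ℕ, ∑ N ∈ T, ∑ b ∈ B, (if b ≤ N ∧ N - b ≤ Y ∧ (N - b).Prime then (1 : ℝ) else 0) ≤
      ((Icc 1 Y).filter Nat.Prime).card * M + z * (2 * X) := by
    intro Y
    rw [hT]
    exact prinmid_small X y z Y M hM0.le E B (fun p hp => (hEm p hp).1) hBm hFq
  -- an upper bound for all pairs
  have hupp : ∑ N ∈ T, (pr1 B Set.univ N : ℝ) ≤ 5 * C * X ^ 2 / (Real.log X) ^ 3 := by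
    have g1 := (hpi (2 * X) (by omega)).2
    have g2 : Real.log X ≤ Real.log ((2 * X : ℕ) : ℝ) := by
      apply Real.log_le_log hX0
      push_cast
      linarith
    have g3 : (((Icc 1 (2 * X)).filter Nat.Prime).card : ℝ) ≤ 4 * X / Real.log X := by
      rw [le_div_iff₀ hL0]
      refine (mul_le_mul_of_nonneg_left g2 (Nat.cast_nonneg _)).trans (g1.trans (le_of_eq ?_))
      push_cast
      ring
    have g4 : ∑ N ∈ T, (pr1 B Set.univ N : ℝ) ≤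
        ∑ N ∈ T, ∑ b ∈ B, (if b ≤ N ∧ N - b ≤ 2 * X ∧ (N - b).Prime then (1 : ℝ) else 0) := by
      refine sum_le_sum fun N hN => ?_
      have hN2 := hTm N hN
      unfold pr1
      rw [sum_boole]
      have g5 : (B.filter fun b => b ≤ N ∧ N - b ∈ (Set.univ : Set ℕ) ∧ (N - b).Prime).card ≤
          (B.filter fun b => b ≤ N ∧ N - b ≤ 2 * X ∧ (N - b).Prime).card := by
        refine card_le_card fun b hb => ?_
        rw [mem_filter] at hb ⊢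
        exact ⟨hb.1, hb.2.1, by omega, hb.2.2.2⟩
      have g6 : ((B.filter fun b => b ≤ N ∧ N - b ∈ (Set.univ : Set ℕ) ∧ (N - b).Prime).card : ℝ) ≤
          ((B.filter fun b => b ≤ N ∧ N - b ≤ 2 * X ∧ (N - b).Prime).card : ℝ) := by exact_mod_cast g5
      refine le_trans (le_of_eq ?_) g6
      congr!
    refine (g4.trans (hsmall (2 * X))).trans ?_
    have g7 : (((Icc 1 (2 * X)).filter Nat.Prime).card : ℝ) * M ≤ 4 * X / Real.log X * M := by gcongr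
    have g8 : 4 * X / Real.log X * M = 4 * C * X ^ 2 / (Real.log X) ^ 3 := by
      rw [hM]
      field_simp
    have g9 : β * X ^ 2 / (Real.log X) ^ 3 ≤ C * X ^ 2 / (Real.log X) ^ 3 := by
      gcongr
      linarith
    have g10 : 5 * C * X ^ 2 / (Real.log X) ^ 3 = 4 * C * X ^ 2 / (Real.log X) ^ 3 + C * X ^ 2 / (Real.log X) ^ 3 := by
      ring
    linarith
  obtain ⟨Y, hY⟩ : ∃ Y : ℕ → ℕ, Y = fun j => ⌊(X : ℝ) * (2 / 3 : ℝ) ^ j⌋₊ := ⟨_, rfl⟩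
  have hYx : ∀ j, Y j = ⌊(X : ℝ) * (2 / 3 : ℝ) ^ j⌋₊ := fun j => by rw [hY]
  -- the claim for one scale
  have hscale : ∀ j ∈ range (J + 1), Real.log (Y j) * prs T B (Y j) (2 * Y j) Set.univ < δ' * M * Y j := by
    intro j hj
    by_contra hc
    push Not at hc
    obtain ⟨a1, a2, a3, a4, b1, b2⟩ := hYs j hj
    rw [← hYx j] at a1 a2 a3 a4 b1 b2
    have f1 : ((⌊κ * Real.log X⌋₊ : ℕ) : ℝ) ≤ κ * Real.log X := Nat.floor_le (by positivity)
    have f2 := Nat.lt_floor_add_one (κ * Real.log X)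
    have f3 : 2 ≤ κ * Real.log X := by
      have : 4 / κ ≤ Real.log X := by linarith
      rw [div_le_iff₀ hκ0] at this
      linarith
    have f4 : κ * Real.log X ≤ κ₀ / 2 * Real.log X := mul_le_mul_of_nonneg_right hκκ hL0.le
    have f5 : κ₀ * (Real.log X / 2) ≤ κ₀ * Real.log (Y j) := mul_le_mul_of_nonneg_left b1 hκ₀.le
    have f6 : κ / 2 * Real.log (Y j) ≤ κ / 2 * Real.log X := mul_le_mul_of_nonneg_left b2 (by positivity)
    have hMis : ((Mis m ⌊κ * Real.log X⌋₊ (Y j) A).card : ℝ) ≤ η₁ * Y j := by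
      have e1 : (Mis m ⌊κ * Real.log X⌋₊ (Y j) A).card ≤ (Miss m ⌊κ * Real.log X⌋₊ (2 * X) A).card := by
        refine card_le_card fun x hx => ?_
        unfold Mis at hx
        unfold Miss
        have h1 := (@Finset.mem_filter _ _ (_) _ _).mp hx
        rw [mem_Ioc] at h1
        refine (@Finset.mem_filter _ _ (_) _ _).mpr ⟨?_, h1.2⟩
        rw [mem_Icc]
        omega
      have e2 : ((Mis m ⌊κ * Real.log X⌋₊ (Y j) A).card : ℝ) ≤
          (Miss m ⌊κ * Real.log X⌋₊ (2 * X) A).card := by exact_mod_cast e1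
      refine e2.trans (hA.trans ?_)
      rw [mul_assoc]
      exact mul_le_mul_of_nonneg_left a1 hη₁.le
    have hEB : Real.sqrt (T.card * B.card) ≤ M * (Real.log (Y j)) ^ 3 := by
      have g1 : Real.sqrt (T.card * B.card) ≤ 2 * X := by
        rw [Real.sqrt_le_left (by positivity), hTc]
        calc (E.card : ℝ) * B.card ≤ X * (2 * X) := by gcongr
          _ ≤ (2 * X) ^ 2 := by nlinarith
      refine g1.trans ?_
      have g2 : (Real.log X / 2) ^ 3 ≤ (Real.log (Y j)) ^ 3 := pow_le_pow_left₀ (by positivity) b1 3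
      calc (2 : ℝ) * X = 2 * X * 1 := by ring
        _ ≤ 2 * X * (Real.log X / 16 * C) := by
            have : 1 ≤ Real.log X / 16 * C := by nlinarith
            gcongr
        _ = M * (Real.log X / 2) ^ 3 := by
            rw [hM]
            field_simp
            ring
        _ ≤ _ := by gcongr
    have hcr : ∀ n ∈ Ioc (Y j) (3 * Y j), Rg (zX D (Y j)) n → cr T B n ≤ M := by
      intro n hn hR
      rw [mem_Ioc] at hn
      rw [hT, hM]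
      refine (prinmid_cr X y n E B (fun p hp => (hEm p hp).1) (fun b hb => (hBm b hb).1)).trans ?_
      have hlY0 : 0 ≤ Real.log (Y j) := by linarith
      have g1 : ((zX D (Y j) : ℕ) : ℝ) ≤ (Real.log (Y j)) ^ D := Nat.floor_le (by positivity)
      have g2 : (Real.log (Y j)) ^ D < (zX D (Y j) : ℕ) + 1 := Nat.lt_floor_add_one _
      have g3 : (Real.log (Y j)) ^ 2 ≤ (Real.log (Y j)) ^ D := pow_le_pow_right₀ (by linarith) (by omega)
      have g4 : (Real.log X / 2) ^ 2 ≤ (Real.log (Y j)) ^ 2 := pow_le_pow_left₀ (by positivity) b1 2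
      refine hf X (by omega) y (zX D (Y j)) n hJy ?_ (g1.trans (pow_le_pow_left₀ hlY0 b2 D)) (by omega) hR
      nlinarith
    have h1 := hone (Y j) (by omega) ⌊κ * Real.log X⌋₊ (by linarith) (by linarith) A hMis T B M hM0 hEB hcr hc
    -- upper bound
    have h2 : prs T B (Y j) (3 * Y j) A ≤ ∑ N ∈ T, (pr1 B A N : ℝ) := by
      unfold prs pr1
      refine sum_le_sum fun N _ => ?_
      rw [sum_boole]
      have h3 : (B.filter fun b => b ≤ N ∧ N - b ∈ Ioc (Y j) (3 * Y j) ∧ N - b ∈ A ∧ (N - b).Prime).card ≤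
          (B.filter fun b => b ≤ N ∧ N - b ∈ A ∧ (N - b).Prime).card := by
        refine card_le_card fun b hb => ?_
        rw [mem_filter] at hb ⊢
        exact ⟨hb.1, hb.2.1, hb.2.2.2⟩
      exact_mod_cast h3
    have h3 : ∑ N ∈ T, (pr1 B A N : ℝ) < c₁ * δ₀ / 10 * ∑ N ∈ T, (pr1 B Set.univ N : ℝ) := by
      rw [mul_sum, hTs, hTs]
      exact sum_lt_sum_of_nonempty hEn fun p hp => (hEm p hp).2.2
    have h4 : c₁ * δ₀ / 10 * ∑ N ∈ T, (pr1 B Set.univ N : ℝ) ≤ c₁ * δ₀ / 10 * (5 * C * X ^ 2 / (Real.log X) ^ 3) :=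
      mul_le_mul_of_nonneg_left hupp (by positivity)
    have h5 : 0 ≤ prs T B (Y j) (3 * Y j) A := by
      unfold prs
      refine sum_nonneg fun N _ => sum_nonneg fun b _ => ?_
      split_ifs
      · exact zero_le_one
      · exact le_rfl
    have h6 : c₁ * M * Y j < c₁ * M * (δ₀ / 2 * X) := by
      calc c₁ * M * Y j ≤ Real.log (Y j) * prs T B (Y j) (3 * Y j) A := h1
        _ ≤ Real.log X * prs T B (Y j) (3 * Y j) A := mul_le_mul_of_nonneg_right b2 h5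
        _ < Real.log X * (c₁ * δ₀ / 10 * (5 * C * X ^ 2 / (Real.log X) ^ 3)) := by
            apply mul_lt_mul_of_pos_left _ hL0
            linarith
        _ = c₁ * M * (δ₀ / 2 * X) := by
            rw [hM]
            field_simp
            ring
    have h7 : c₁ * M * (δ₀ / 2 * X) ≤ c₁ * M * Y j := mul_le_mul_of_nonneg_left a1 (by positivity)
    linarith
  -- total
  have htot : ε * δ / 2 * X ^ 2 / (Real.log X) ^ 3 < ∑ N ∈ T, (pr1 B Set.univ N : ℝ) := by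
    rw [hTs]
    calc ε * δ / 2 * X ^ 2 / (Real.log X) ^ 3 = ε / 2 * X / Real.log X * (δ * X / (Real.log X) ^ 2) := by
          field_simp
      _ < E.card * (δ * X / (Real.log X) ^ 2) := by
          apply mul_lt_mul_of_pos_right hEc
          positivity
      _ = ∑ p ∈ E, δ * X / (Real.log X) ^ 2 := by rw [sum_const, nsmul_eq_mul]
      _ ≤ _ := sum_le_sum fun p hp => (hEm p hp).2.1
  have hsplit : ∑ N ∈ T, (pr1 B Set.univ N : ℝ) ≤
      (((Icc 1 y).filter Nat.Prime).card * M + z * (2 * X)) +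
      ∑ j ∈ range (J + 1), prs T B (Y j) (2 * Y j) Set.univ := by
    refine le_trans ?_ (add_le_add (hsmall y) le_rfl)
    have hcov : ∀ n : ℕ, y < n → n ≤ 2 * X → ∃ j ∈ range (J + 1), n ∈ Ioc (Y j) (2 * Y j) := by
      intro n hn hn2
      obtain ⟨j, hj, hjm⟩ := prinall_scale X y J n (by
        rw [← hδ₀]
        linarith) hJy hn hn2
      rw [← hYx j] at hjm
      exact ⟨j, hj, hjm⟩
    have hcomm : ∑ j ∈ range (J + 1), prs T B (Y j) (2 * Y j) Set.univ =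
        ∑ N ∈ T, ∑ b ∈ B, ∑ j ∈ range (J + 1), (if b ≤ N ∧ N - b ∈ Ioc (Y j) (2 * Y j) ∧
          N - b ∈ (Set.univ : Set ℕ) ∧ (N - b).Prime then (1 : ℝ) else 0) := by
      unfold prs
      rw [sum_comm]
      refine sum_congr rfl fun N _ => ?_
      rw [sum_comm]
      refine sum_congr rfl fun b _ => sum_congr rfl fun j _ => ?_
      congr!
    rw [hcomm, ← sum_add_distrib]
    refine sum_le_sum fun N hN => ?_
    rw [← sum_add_distrib]
    have hcf : (pr1 B Set.univ N : ℝ) =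
        ∑ b ∈ B, (if b ≤ N ∧ N - b ∈ (Set.univ : Set ℕ) ∧ (N - b).Prime then (1 : ℝ) else 0) := by
      unfold pr1
      rw [sum_boole]
      congr!
    rw [hcf]
    exact sum_le_sum fun b _ => prinall_pt X y J N b Y hcov (hTm N hN)
  have hscale2 : ∀ j ∈ range (J + 1), prs T B (Y j) (2 * Y j) Set.univ ≤ 2 * δ' * M * X / Real.log X := by
    intro j hj
    have a1 := hscale j hj
    obtain ⟨-, -, a3, -, b1, b2⟩ := hYs j hj
    rw [← hYx j] at a3 b1 b2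
    have a2 : (Y j : ℝ) ≤ X := by exact_mod_cast a3
    have h5 : 0 ≤ prs T B (Y j) (2 * Y j) Set.univ := by
      unfold prs
      refine sum_nonneg fun N _ => sum_nonneg fun b _ => ?_
      split_ifs
      · exact zero_le_one
      · exact le_rfl
    rw [le_div_iff₀ hL0]
    have h6 : prs T B (Y j) (2 * Y j) Set.univ * (Real.log X / 2) ≤
        prs T B (Y j) (2 * Y j) Set.univ * Real.log (Y j) := mul_le_mul_of_nonneg_left b1 h5
    have h7 : δ' * M * Y j ≤ δ' * M * X := mul_le_mul_of_nonneg_left a2 (by positivity)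
    linarith
  have hsum : ∑ j ∈ range (J + 1), prs T B (Y j) (2 * Y j) Set.univ ≤ ε * δ / 8 * X ^ 2 / (Real.log X) ^ 3 := by
    refine (sum_le_sum hscale2).trans (le_of_eq ?_)
    rw [sum_const, card_range, nsmul_eq_mul, hδ', hM]
    push_cast
    field_simp
    ring
  have hsm : (((Icc 1 y).filter Nat.Prime).card : ℝ) * M ≤ ε * δ / 16 * X ^ 2 / (Real.log X) ^ 3 := by
    calc (((Icc 1 y).filter Nat.Prime).card : ℝ) * M ≤ 4 * ε₁ * X / Real.log X * M := by gcongr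
      _ ≤ 4 * (ε * δ / (64 * C)) * X / Real.log X * M := by gcongr
      _ = _ := by
          rw [hM]
          field_simp
          ring
  have hβX : β * X ^ 2 / (Real.log X) ^ 3 ≤ ε * δ / 16 * X ^ 2 / (Real.log X) ^ 3 := by gcongr
  have hpos : 0 < ε * δ * X ^ 2 / (Real.log X) ^ 3 := by positivity
  have e1 : ε * δ / 2 * X ^ 2 / (Real.log X) ^ 3 = 8 / 16 * (ε * δ * X ^ 2 / (Real.log X) ^ 3) := by ring
  have e2 : ε * δ / 8 * X ^ 2 / (Real.log X) ^ 3 = 2 / 16 * (ε * δ * X ^ 2 / (Real.log X) ^ 3) := by ring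
  have e3 : ε * δ / 16 * X ^ 2 / (Real.log X) ^ 3 = 1 / 16 * (ε * δ * X ^ 2 / (Real.log X) ^ 3) := by ring
  linarith

end Pool.Agent.Lib.SH
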