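import Pool.Agent.Lib.SH.One8

/-!
# SH-All8: all scales, exceptional set X/(log X)^A for every A (helper10)
-/

set_option autoImplicit false

open Finset

namespace Pool.Agent.Lib.SH

open Pool.Agent.Lib.SG

open Pool.Agent.Lib.MT

private theorem all8_scale (X : ℝ) (hX : 0 < X) (ε : ℝ) (J : ℕ) (hJ : (2 / 3 : ℝ) ^ (J + 1) ≤ ε / 3) (n : ℝ)
    (hn : ε * X / 2 ≤ n) (hnX : n ≤ X) :
    ∃ j ≤ J, 11 / 10 * (X * (2 / 3 : ℝ) ^ (j + 1)) ≤ n ∧ n ≤ 19 / 10 * (X * (2 / 3 : ℝ) ^ (j + 1)) := by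
  classical
  have hex : ∃ j : ℕ, 11 / 10 * (X * (2 / 3 : ℝ) ^ (j + 1)) ≤ n := by
    refine ⟨J, ?_⟩
    have : X * (2 / 3 : ℝ) ^ (J + 1) ≤ X * (ε / 3) := mul_le_mul_of_nonneg_left hJ hX.le
    have h0 : 0 < X * (2 / 3 : ℝ) ^ (J + 1) := by positivity
    linarith
  have hJ' : 11 / 10 * (X * (2 / 3 : ℝ) ^ (J + 1)) ≤ n := by
    have : X * (2 / 3 : ℝ) ^ (J + 1) ≤ X * (ε / 3) := mul_le_mul_of_nonneg_left hJ hX.le
    have h0 : 0 < X * (2 / 3 : ℝ) ^ (J + 1) := by positivity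
    linarith
  refine ⟨Nat.find hex, Nat.find_min' hex hJ', Nat.find_spec hex, ?_⟩
  rcases Nat.eq_zero_or_pos (Nat.find hex) with h | h
  · rw [h]
    norm_num
    linarith
  · have h1 := Nat.find_min hex (Nat.sub_lt h one_pos)
    push Not at h1
    have h2 : Nat.find hex - 1 + 1 = Nat.find hex := Nat.sub_add_cancel h
    rw [h2] at h1
    rw [pow_succ]
    have h0 : 0 < X * (2 / 3 : ℝ) ^ (Nat.find hex) := by positivity
    linarith

private theorem all8_Y (t : ℝ) (ht : 1000 ≤ t) (Y n : ℕ) (hY : Y = ⌊t⌋₊) (h1 : 11 / 10 * t ≤ n)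
    (h2 : (n : ℝ) ≤ 19 / 10 * t) :
    2 * n < 8 * Y ∧ 2 * Y + Y / 8 ≤ 2 * n ∧ 2 * n + Y / 8 ≤ 4 * Y := by
  have a1 : (Y : ℝ) ≤ t := by
    rw [hY]
    exact Nat.floor_le (by linarith)
  have a2 : t < Y + 1 := by
    rw [hY]
    exact Nat.lt_floor_add_one _
  have b1 : (22 * (Y : ℝ)) ≤ 20 * n := by linarith
  have b2 : (20 * (n : ℝ)) ≤ 38 * Y + 38 := by linarith
  have b3 : 22 * Y ≤ 20 * n := by exact_mod_cast b1
  have b4 : 20 * n ≤ 38 * Y + 38 := by exact_mod_cast b2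
  have b5 : (999 : ℝ) ≤ Y := by linarith
  have b6 : 999 ≤ Y := by exact_mod_cast b5
  omega

private theorem all8_geom (n : ℕ) : ∑ j ∈ range n, (2 / 3 : ℝ) ^ (j + 1) ≤ 2 := by
  have h : ∑ j ∈ range n, (2 / 3 : ℝ) ^ (j + 1) = 2 - 2 * (2 / 3) ^ n := by
    induction n with
    | zero => simp
    | succ n ih =>
      rw [sum_range_succ, ih, pow_succ]
      ring
  rw [h]
  have : (0 : ℝ) < 2 * (2 / 3) ^ n := by positivity
  linarith

private theorem all8_J (ε : ℝ) (hε : 0 < ε) (hε1 : ε ≤ 1) :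
    ∃ J : ℕ, (2 / 3 : ℝ) ^ (J + 1) ≤ ε / 3 ∧ 2 * ε / 9 ≤ (2 / 3 : ℝ) ^ (J + 1) := by
  classical
  have hex : ∃ J : ℕ, (2 / 3 : ℝ) ^ J ≤ ε / 3 := by
    obtain ⟨J, hJ⟩ := exists_pow_lt_of_lt_one (show 0 < ε / 3 by positivity) (show (2 / 3 : ℝ) < 1 by norm_num)
    exact ⟨J, hJ.le⟩
  have h0 : 0 < Nat.find hex := by
    rw [Nat.find_pos]
    rw [pow_zero]
    linarith
  have h1 := Nat.find_min hex (Nat.sub_lt h0 one_pos)
  push Not at h1
  refine ⟨Nat.find hex - 1, ?_, ?_⟩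
  · rw [Nat.sub_add_cancel h0]
    exact Nat.find_spec hex
  · rw [pow_succ]
    linarith

/-- the numerical facts for large X -/
private theorem all8_num (A X₁ : ℕ) : ∃ X₀ : ℕ, ∀ X : ℕ, X₀ ≤ X →
    18 ≤ Real.log X ∧ (2 : ℝ) ^ (A + 2) ≤ Real.log X ∧
    Real.sqrt X + X₁ + 1001 ≤ 2 * (1 / (Real.log X) ^ (A + 1)) / 9 * X := by
  have hl := RNum6_log
  obtain ⟨X₂, h2⟩ := Filter.eventually_atTop.1 (hl.eventually_ge_atTop (max 18 ((2 : ℝ) ^ (A + 2))))
  obtain ⟨X₃, h3⟩ := Filter.eventually_atTop.1 (RNum6_pow 9 (1 / 2) (by norm_num) (A + 1))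
  obtain ⟨X₄, h4⟩ : ∃ X₄ : ℕ, (((X₁ : ℝ) + 1001) ^ 2) ≤ (X₄ : ℝ) := exists_nat_ge _
  refine ⟨max (max X₂ X₃) (max X₄ 3), fun X hX => ?_⟩
  simp only [max_le_iff] at hX
  obtain ⟨⟨hX2, hX3⟩, hX4, hX5⟩ := hX
  have a2 := h2 X hX2
  rw [max_le_iff] at a2
  have a3 := h3 X hX3
  rw [← Real.sqrt_eq_rpow] at a3
  have a4 : (((X₁ : ℝ) + 1001) ^ 2) ≤ (X : ℝ) := h4.trans (by exact_mod_cast hX4)
  have hXR : (3 : ℝ) ≤ X := by exact_mod_cast hX5
  have hX0 : (0 : ℝ) < X := by linarith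
  have hL0 : 0 < Real.log X := by linarith
  refine ⟨a2.1, a2.2, ?_⟩
  have hs : (X₁ : ℝ) + 1001 ≤ Real.sqrt X := by
    apply Real.le_sqrt_of_sq_le
    exact a4
  have hs0 : 0 < Real.sqrt X := Real.sqrt_pos.2 hX0
  have hss : Real.sqrt X * Real.sqrt X = X := Real.mul_self_sqrt hX0.le
  have c2 : 2 * (1 / (Real.log X) ^ (A + 1)) / 9 * X = 2 * X / (9 * (Real.log X) ^ (A + 1)) := by
    field_simp
  rw [c2, le_div_iff₀ (by positivity)]
  calc (Real.sqrt X + X₁ + 1001) * (9 * (Real.log X) ^ (A + 1))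
      ≤ (2 * Real.sqrt X) * Real.sqrt X := by
        apply mul_le_mul (by linarith) a3 (by positivity) (by positivity)
    _ = 2 * (Real.sqrt X * Real.sqrt X) := by ring
    _ = 2 * X := by rw [hss]

private theorem all8_log (X Y : ℝ) (hX : 0 < X) (hY : Real.sqrt X ≤ Y) :
    Real.log X / 2 ≤ Real.log Y := by
  have hs0 : 0 < Real.sqrt X := Real.sqrt_pos.2 hX
  rw [← Real.log_sqrt hX.le]
  exact Real.log_le_log hs0 hY

open Classical in
theorem all8 (m : ℕ) (hm : 1 ≤ m) : ∃ H : ℕ, ∀ A₀ : ℕ, ∃ C X₀ : ℕ, ∀ X : ℕ, X₀ ≤ X →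
    ∀ A B : Set ℕ, Hit m H (2 * X) A → Hit m H (2 * X) B →
    (((Icc 1 X).filter (fun n => (rep A B (2 * n) : ℝ) < X / (Real.log X) ^ C)).card : ℝ) ≤
      X / (Real.log X) ^ A₀ := by
  obtain ⟨H, h1⟩ := one8 m hm
  refine ⟨H, fun A₀ => ?_⟩
  obtain ⟨C, X₁, h1'⟩ := h1 (A₀ + 2)
  obtain ⟨X₀, hnum⟩ := all8_num A₀ X₁
  refine ⟨C + A₀ + 2, max X₀ 3, fun X hX A B hA hB => ?_⟩
  rw [max_le_iff] at hX
  obtain ⟨hL18, hL2, hsq⟩ := hnum X hX.1
  have hX1 := hX.2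
  have hXX : (3 : ℝ) ≤ X := by exact_mod_cast hX1
  have hX0 : (0 : ℝ) < X := by linarith
  have hlog0 : 0 < Real.log X := by linarith
  have hlog1 : 1 ≤ Real.log X := by linarith
  obtain ⟨ε, hε⟩ : ∃ ε : ℝ, ε = 1 / (Real.log X) ^ (A₀ + 1) := ⟨_, rfl⟩
  rw [← hε] at hsq
  have hε0 : 0 < ε := by
    rw [hε]
    positivity
  have hε1 : ε ≤ 1 := by
    rw [hε, div_le_one (by positivity)]
    exact one_le_pow₀ hlog1
  obtain ⟨J, hJ, hJ2⟩ := all8_J ε hε0 hε1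
  obtain ⟨δ, hδ⟩ : ∃ δ : ℝ, δ = (2 / 3 : ℝ) ^ (J + 1) := ⟨_, rfl⟩
  have hδ0 : 0 < δ := by
    rw [hδ]
    positivity
  have hδl : 2 * ε / 9 ≤ δ := by
    rw [hδ]
    exact hJ2
  have hδX : Real.sqrt X + X₁ + 1001 ≤ δ * X := hsq.trans (mul_le_mul_of_nonneg_right hδl hX0.le)
  have hs0 : 0 ≤ Real.sqrt X := Real.sqrt_nonneg _
  obtain ⟨t, ht⟩ : ∃ t : ℕ → ℝ, t = fun j => X * (2 / 3 : ℝ) ^ (j + 1) := ⟨_, rfl⟩
  have htj : ∀ j ≤ J, δ * X ≤ t j ∧ t j ≤ X := by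
    intro j hj
    rw [ht, hδ]
    simp only
    constructor
    · rw [mul_comm]
      apply mul_le_mul_of_nonneg_left _ hX0.le
      exact pow_le_pow_of_le_one (by norm_num) (by norm_num) (by omega)
    · exact mul_le_of_le_one_right hX0.le (pow_le_one₀ (by norm_num) (by norm_num))
  obtain ⟨Y, hY⟩ : ∃ Y : ℕ → ℕ, Y = fun j => ⌊t j⌋₊ := ⟨_, rfl⟩
  have hYj : ∀ j ≤ J, (Y j : ℝ) ≤ t j ∧ t j < Y j + 1 := by
    intro j hj
    have h0 : 0 ≤ t j := by
      have := (htj j hj).1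
      have h0 : 0 < δ * X := by positivity
      linarith
    rw [hY]
    exact ⟨Nat.floor_le h0, Nat.lt_floor_add_one _⟩
  obtain ⟨E, hE⟩ : ∃ E : ℕ → Finset ℕ, E = fun j => (range (8 * Y j)).filter (fun s => Even s ∧
      2 * Y j + Y j / 8 ≤ s ∧ s + Y j / 8 ≤ 4 * Y j ∧
      (rep A B s : ℝ) < Y j / (Real.log (Y j)) ^ C) := ⟨_, rfl⟩
  have hYX : ∀ j ≤ J, Y j ≤ X := by
    intro j hj
    have : (Y j : ℝ) ≤ X := ((hYj j hj).1).trans (htj j hj).2
    exact_mod_cast this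
  have hX₁0 : (0 : ℝ) ≤ X₁ := Nat.cast_nonneg _
  have hEj : ∀ j ≤ J, ((E j).card : ℝ) ≤ ε * t j := by
    intro j hj
    have a2' := (hYj j hj).2
    have a3' := (htj j hj).1
    have a1 : X₁ ≤ Y j := by
      have : (X₁ : ℝ) ≤ Y j := by linarith
      exact_mod_cast this
    have a2 : Y j ≤ X := hYX j hj
    have a4 := all8_log X (Y j) hX0 (by linarith)
    have a3 := h1' (Y j) a1 A B (fun x hx h => hA x (by omega) h)
      (fun x hx h => hB x (by omega) h)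
    rw [hE]
    refine a3.trans ?_
    have htj0 : 0 ≤ t j := by
      have h0 : 0 < δ * X := by positivity
      linarith
    have a5 : (Real.log X / 2) ^ (A₀ + 2) ≤ (Real.log (Y j)) ^ (A₀ + 2) :=
      pow_le_pow_left₀ (by linarith) a4 _
    have a6 : (Real.log X) ^ (A₀ + 1) ≤ (Real.log X / 2) ^ (A₀ + 2) := by
      rw [div_pow, le_div_iff₀ (by positivity)]
      calc (Real.log X) ^ (A₀ + 1) * 2 ^ (A₀ + 2) ≤ (Real.log X) ^ (A₀ + 1) * Real.log X := by gcongr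
        _ = (Real.log X) ^ (A₀ + 2) := by rw [← pow_succ]
    calc (Y j : ℝ) / (Real.log (Y j)) ^ (A₀ + 2) ≤ t j / (Real.log X) ^ (A₀ + 1) := by
          apply div_le_div₀ htj0 (hYj j hj).1 (by positivity) (a6.trans a5)
      _ = ε * t j := by
          rw [hε, one_div_mul_eq_div]
  -- covering
  have hcov : (Icc 1 X).filter (fun n => (rep A B (2 * n) : ℝ) < X / (Real.log X) ^ (C + A₀ + 2)) ⊆
      Icc 1 ⌊ε * X / 2⌋₊ ∪ (range (J + 1)).biUnion (fun j => (E j).image (fun s => s / 2)) := by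
    intro n hn
    rw [mem_filter, mem_Icc] at hn
    obtain ⟨⟨hn1, hnX⟩, hrep⟩ := hn
    rw [mem_union]
    by_cases hc : (n : ℝ) ≤ ε * X / 2
    · left
      rw [mem_Icc]
      exact ⟨hn1, Nat.le_floor hc⟩
    · right
      push Not at hc
      obtain ⟨j, hj, b1, b2⟩ := all8_scale X hX0 ε J hJ n hc.le (by exact_mod_cast hnX)
      rw [mem_biUnion]
      refine ⟨j, by rw [mem_range]; omega, ?_⟩
      rw [mem_image]
      refine ⟨2 * n, ?_, by omega⟩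
      have htd : t j = X * (2 / 3 : ℝ) ^ (j + 1) := by rw [ht]
      rw [← htd] at b1 b2
      have b3 : 1000 ≤ t j := by
        have a3 := (htj j hj).1
        linarith
      obtain ⟨c1, c2, c3⟩ := all8_Y (t j) b3 (Y j) n (by rw [hY]) b1 b2
      rw [hE]
      simp only [mem_filter, mem_range]
      refine ⟨c1, even_two_mul n, c2, c3, ?_⟩
      refine hrep.trans_le ?_
      have d1 : δ / 2 * X ≤ Y j := by
        have a2 := (hYj j hj).2
        have a3 := (htj j hj).1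
        have h0 : 0 < δ * X := by positivity
        have h1 : δ / 2 * X = δ * X / 2 := by ring
        linarith
      have d2 : 1000 ≤ (Y j : ℝ) + 1 := by
        have a2 := (hYj j hj).2
        linarith
      have d3 : (Y j : ℝ) ≤ X := by exact_mod_cast hYX j hj
      have d4 : 0 < Real.log (Y j) := Real.log_pos (by linarith)
      have d5 : Real.log (Y j) ≤ Real.log X := Real.log_le_log (by linarith) d3
      have d6 : 1 ≤ δ / 2 * (Real.log X) ^ (A₀ + 2) := by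
        have e1 : ε * (Real.log X) ^ (A₀ + 2) = Real.log X := by
          rw [hε, pow_succ (Real.log X) (A₀ + 1)]
          field_simp
        have e2 : 2 * ε / 9 / 2 * (Real.log X) ^ (A₀ + 2) ≤ δ / 2 * (Real.log X) ^ (A₀ + 2) := by
          gcongr
        have e3 : 2 * ε / 9 / 2 * (Real.log X) ^ (A₀ + 2) = ε * (Real.log X) ^ (A₀ + 2) / 9 := by ring
        rw [e1] at e3
        linarith
      have d7 : (Real.log (Y j)) ^ C ≤ (Real.log X) ^ C := pow_le_pow_left₀ d4.le d5 C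
      calc X / (Real.log X) ^ (C + A₀ + 2) ≤ (δ / 2 * X) / (Real.log X) ^ C := by
            rw [div_le_div_iff₀ (by positivity) (by positivity)]
            calc X * (Real.log X) ^ C = X * (Real.log X) ^ C * 1 := by ring
              _ ≤ X * (Real.log X) ^ C * (δ / 2 * (Real.log X) ^ (A₀ + 2)) := by gcongr
              _ = δ / 2 * X * (Real.log X) ^ (C + A₀ + 2) := by
                rw [show C + A₀ + 2 = C + (A₀ + 2) by ring, pow_add]
                ring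
        _ ≤ Y j / (Real.log (Y j)) ^ C := by gcongr
  have hfin := card_le_card hcov
  have hfin2 : (((Icc 1 X).filter (fun n => (rep A B (2 * n) : ℝ) < X / (Real.log X) ^ (C + A₀ + 2))).card : ℝ) ≤
      ((Icc 1 ⌊ε * X / 2⌋₊).card : ℝ) + ∑ j ∈ range (J + 1), ((E j).card : ℝ) := by
    have e1 : (Icc 1 ⌊ε * X / 2⌋₊ ∪ (range (J + 1)).biUnion (fun j => (E j).image (fun s => s / 2))).card ≤
        (Icc 1 ⌊ε * X / 2⌋₊).card + ∑ j ∈ range (J + 1), (E j).card := by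
      refine (card_union_le _ _).trans ?_
      apply Nat.add_le_add_left
      refine card_biUnion_le.trans ?_
      exact sum_le_sum fun j _ => card_image_le
    exact_mod_cast hfin.trans e1
  refine hfin2.trans ?_
  rw [Nat.card_Icc, Nat.add_sub_cancel]
  have f1 : ((⌊ε * X / 2⌋₊ : ℕ) : ℝ) ≤ ε * X / 2 := Nat.floor_le (by positivity)
  have f2 : ∑ j ∈ range (J + 1), ((E j).card : ℝ) ≤ ∑ j ∈ range (J + 1), ε * t j :=
    sum_le_sum fun j hj => hEj j (by rw [mem_range] at hj; omega)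
  have f3 : ∑ j ∈ range (J + 1), ε * t j ≤ ε * X * 2 := by
    calc ∑ j ∈ range (J + 1), ε * t j = ε * X * ∑ j ∈ range (J + 1), (2 / 3 : ℝ) ^ (j + 1) := by
          rw [mul_sum, ht]
          refine sum_congr rfl fun j _ => ?_
          ring
      _ ≤ ε * X * 2 := mul_le_mul_of_nonneg_left (all8_geom _) (by positivity)
  have f4 : 5 / 2 * (ε * X) ≤ X / (Real.log X) ^ A₀ := by
    have e1 : ε = 1 / (Real.log X) ^ A₀ * (1 / Real.log X) := by
      rw [hε, pow_succ, one_div_mul_one_div]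
    have e2 : 1 / Real.log X ≤ 2 / 5 := by
      rw [div_le_div_iff₀ hlog0 (by norm_num)]
      linarith
    calc 5 / 2 * (ε * X) = (5 / 2 * (1 / Real.log X)) * (X / (Real.log X) ^ A₀) := by
          rw [e1]
          ring
      _ ≤ (5 / 2 * (2 / 5)) * (X / (Real.log X) ^ A₀) := by gcongr
      _ = X / (Real.log X) ^ A₀ := by ring
  linarith

end Pool.Agent.Lib.SH
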