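import Pool.Agent.Lib.SH.Wn8

/-!
# SH-Wn2: correlations of two sets (helper10)

`cr E B n`: the number of pairs `N ∈ E`, `b ∈ B` with `N = b + n`.
-/

set_option autoImplicit false

open Finset

namespace Pool.Agent.Lib.SH

open Pool.Agent.Lib.MT Pool.Agent.Lib.SG

noncomputable def cr (E B : Finset ℕ) (n : ℕ) : ℝ := ∑ N ∈ E, ∑ b ∈ B, if N = b + n then (1 : ℝ) else 0

theorem cr_nonneg (E B : Finset ℕ) (n : ℕ) : 0 ≤ cr E B n := by
  unfold cr
  refine sum_nonneg fun N _ => sum_nonneg fun b _ => ?_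
  split_ifs
  · exact zero_le_one
  · exact le_rfl

theorem cr_le (E B : Finset ℕ) (n : ℕ) : cr E B n ≤ B.card := by
  unfold cr
  rw [sum_comm, card_eq_sum_ones]
  push_cast
  refine sum_le_sum fun b _ => ?_
  rw [sum_ite_eq']
  split_ifs
  · exact le_rfl
  · exact zero_le_one

/-- sums against a correlation -/
theorem cr_sum (E B S : Finset ℕ) (f : ℕ → ℝ) :
    ∑ n ∈ S, f n * cr E B n = ∑ N ∈ E, ∑ b ∈ B, if b ≤ N ∧ N - b ∈ S then f (N - b) else 0 := by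
  unfold cr
  have h1 : ∀ n ∈ S, f n * ∑ N ∈ E, ∑ b ∈ B, (if N = b + n then (1 : ℝ) else 0) =
      ∑ N ∈ E, ∑ b ∈ B, (if N = b + n then f n else 0) := by
    intro n _
    rw [mul_sum]
    refine sum_congr rfl fun N _ => ?_
    rw [mul_sum]
    refine sum_congr rfl fun b _ => ?_
    rw [mul_ite, mul_one, mul_zero]
  rw [sum_congr rfl h1, sum_comm]
  refine sum_congr rfl fun N _ => ?_
  rw [sum_comm]
  refine sum_congr rfl fun b _ => ?_
  by_cases h : b ≤ N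
  · have h2 : ∀ n ∈ S, (if N = b + n then f n else 0) = if n = N - b then f n else 0 := by
      intro n _
      refine if_congr ?_ rfl rfl
      omega
    rw [sum_congr rfl h2, sum_ite_eq']
    refine if_congr ?_ rfl rfl
    exact ⟨fun h3 => ⟨h, h3⟩, fun h3 => h3.2⟩
  · rw [if_neg (fun h3 => h h3.1)]
    refine sum_eq_zero fun n _ => ?_
    rw [if_neg]
    omega

private theorem wn2_conj (x : ℝ) : (starRingEnd ℂ) (GT.e x) = GT.e (-x) := by
  unfold GT.e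
  rw [← Complex.exp_conj]
  congr 1
  simp only [map_mul, Complex.conj_I, Complex.conj_ofReal, map_ofNat]
  push_cast
  ring

/-- correlations of two sets -/
theorem wn_cr (X M : ℕ) (E B : Finset ℕ) (hE : ∀ N ∈ E, N ≤ M) (hB : ∀ b ∈ B, b ≤ M) :
    Wn X (Real.sqrt (E.card * B.card)) (cr E B) := by
  obtain ⟨Y, hY⟩ : ∃ Y : ℕ, Y = M + X + 1 := ⟨_, rfl⟩
  have hY1 : 1 ≤ Y := by omega
  have hYR : (0 : ℝ) < 8 * Y := by
    have : (1 : ℝ) ≤ Y := by exact_mod_cast hY1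
    linarith
  have hYc : (8 * (Y : ℂ)) ≠ 0 := by
    have : ((8 * Y : ℝ) : ℂ) ≠ 0 := by
      rw [Complex.ofReal_ne_zero]
      exact hYR.ne'
    push_cast at this
    exact this
  have hEs : E ⊆ range (8 * Y) := by
    intro N hN
    have := hE N hN
    rw [mem_range]
    omega
  have hBs : B ⊆ range (8 * Y) := by
    intro b hb
    have := hB b hb
    rw [mem_range]
    omega
  have hfour : ∀ n : ℕ, n ≤ 3 * X → (cr E B n : ℂ) = ∑ ξ ∈ range (8 * Y),
      ((starRingEnd ℂ) (∑ N ∈ E, GT.e ((ξ : ℝ) / (8 * Y) * N)) *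
        (∑ b ∈ B, GT.e ((ξ : ℝ) / (8 * Y) * b)) / (8 * Y)) * GT.e ((ξ : ℝ) / (8 * Y) * n) := by
    intro n hn
    have h1 : ∀ N ∈ E, ∀ b ∈ B, ((if N = b + n then (1 : ℝ) else 0 : ℝ) : ℂ) =
        ∑ ξ ∈ range (8 * Y), GT.e ((ξ : ℝ) * (((b : ℤ) + n - N : ℤ) : ℝ) / ((8 * Y : ℕ) : ℝ)) / (8 * Y) := by
      intro N hN b hb
      have hN' := hE N hN
      have hb' := hB b hb
      rw [← sum_div, orth (8 * Y) (by omega) ((b : ℤ) + n - N) (by
        rw [abs_lt]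
        constructor
        · push_cast
          omega
        · push_cast
          omega)]
      by_cases h2 : N = b + n
      · rw [if_pos h2, if_pos (by omega)]
        push_cast
        exact (div_self hYc).symm
      · rw [if_neg h2, if_neg (by omega)]
        simp
    have h2 : (cr E B n : ℂ) =
        ∑ N ∈ E, ∑ b ∈ B, ∑ ξ ∈ range (8 * Y),
          GT.e ((ξ : ℝ) * (((b : ℤ) + n - N : ℤ) : ℝ) / ((8 * Y : ℕ) : ℝ)) / (8 * Y) := by
      unfold cr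
      rw [Complex.ofReal_sum]
      refine sum_congr rfl fun N hN => ?_
      rw [Complex.ofReal_sum]
      exact sum_congr rfl fun b hb => h1 N hN b hb
    rw [h2]
    rw [sum_congr rfl fun N _ => sum_comm, sum_comm]
    refine sum_congr rfl fun ξ _ => ?_
    rw [map_sum, sum_mul, sum_div, sum_mul]
    refine sum_congr rfl fun N _ => ?_
    rw [mul_sum, sum_div, sum_mul]
    refine sum_congr rfl fun b _ => ?_
    rw [wn2_conj, div_mul_eq_mul_div]
    congr 1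
    rw [← GT.e_add, ← GT.e_add]
    congr 1
    push_cast
    field_simp
    ring
  refine wn_of_trig X (cr E B) (range (8 * Y)) _ (fun ξ => (ξ : ℝ) / (8 * Y)) hfour _ ?_
  have h1 : ∀ ξ ∈ range (8 * Y), ‖(starRingEnd ℂ) (∑ N ∈ E, GT.e ((ξ : ℝ) / (8 * Y) * N)) *
        (∑ b ∈ B, GT.e ((ξ : ℝ) / (8 * Y) * b)) / (8 * Y)‖ =
      (‖∑ N ∈ E, GT.e ((ξ : ℝ) / (8 * Y) * N)‖ * ‖∑ b ∈ B, GT.e ((ξ : ℝ) / (8 * Y) * b)‖) / (8 * Y) := by
    intro ξ _
    rw [norm_div, norm_mul, RCLike.norm_conj]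
    congr 1
    rw [show (8 * (Y : ℂ)) = ((8 * Y : ℝ) : ℂ) by push_cast; ring, Complex.norm_real, Real.norm_eq_abs,
      abs_of_pos hYR]
  rw [sum_congr rfl h1, ← sum_div, div_le_iff₀ hYR]
  have h2 := Finset.sum_mul_sq_le_sq_mul_sq (range (8 * Y)) (fun ξ => ‖∑ N ∈ E, GT.e ((ξ : ℝ) / (8 * Y) * N)‖)
    (fun ξ => ‖∑ b ∈ B, GT.e ((ξ : ℝ) / (8 * Y) * b)‖)
  rw [cor_norm Y hY1 E hEs, cor_norm Y hY1 B hBs] at h2
  have h4 : (∑ ξ ∈ range (8 * Y), ‖∑ N ∈ E, GT.e ((ξ : ℝ) / (8 * Y) * N)‖ *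
      ‖∑ b ∈ B, GT.e ((ξ : ℝ) / (8 * Y) * b)‖) ^ 2 ≤ (8 * Y) ^ 2 * (E.card * B.card) := by
    refine h2.trans (le_of_eq ?_)
    ring
  have h5 := Real.sqrt_le_sqrt h4
  rw [Real.sqrt_sq (by positivity), Real.sqrt_mul (by positivity), Real.sqrt_sq hYR.le] at h5
  linarith

end Pool.Agent.Lib.SH
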