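import Pool.Agent.Lib.SH.Def9
import Pool.Agent.Lib.SH.Wn2
import Pool.Agent.Lib.SG.RNum6

/-!
# SH-DefP: definitions and small lemmas for the principles (helper10; moved here from All9, Prin9 and PrinAll)
-/

set_option autoImplicit false

open Finset

namespace Pool.Agent.Lib.SH

open Pool.Agent.Lib.MT Pool.Agent.Lib.SG

open Classical in
/-- the `x ≤ Y` with at least `m` primes in `(x, x + H]` but none in `A` -/
noncomputable def Miss (m H Y : ℕ) (A : Set ℕ) : Finset ℕ :=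
  (Icc 1 Y).filter fun x => m ≤ ((Ioc x (x + H)).filter Nat.Prime).card ∧
    ¬ ∃ p ∈ A, p.Prime ∧ x < p ∧ p ≤ x + H

open Classical in
/-- the number of pairs `N ∈ E`, `b ∈ B` such that `N - b` is a prime of `A` in `(X, Y]` -/
noncomputable def prs (E B : Finset ℕ) (X Y : ℕ) (A : Set ℕ) : ℝ :=
  ∑ N ∈ E, ∑ b ∈ B, if b ≤ N ∧ N - b ∈ Ioc X Y ∧ N - b ∈ A ∧ (N - b).Prime then (1 : ℝ) else 0

open Classical in
/-- the number of `b ∈ B` such that `N - b` is a prime of `A` -/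
noncomputable def pr1 (B : Finset ℕ) (A : Set ℕ) (N : ℕ) : ℕ :=
  (B.filter fun b => b ≤ N ∧ N - b ∈ A ∧ (N - b).Prime).card

theorem prinall_pi : ∃ X₀ : ℕ, ∀ X : ℕ, X₀ ≤ X → 1 ≤ Real.log X ∧
    (((Icc 1 X).filter Nat.Prime).card : ℝ) * Real.log X ≤ 2 * X := by
  have h1 := Chebyshev.eventually_primeCounting_le (show (0 : ℝ) < 1 / 2 by norm_num)
  obtain ⟨x₀, h2⟩ := Filter.eventually_atTop.mp h1
  obtain ⟨X₁, h3⟩ := Filter.eventually_atTop.mp (RNum6_log.eventually_ge_atTop 1)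
  refine ⟨max ⌈x₀⌉₊ X₁, fun X hX => ?_⟩
  rw [max_le_iff] at hX
  have a1 := h3 X hX.2
  have a2 := h2 (X : ℝ) ((Nat.le_ceil x₀).trans (by exact_mod_cast hX.1))
  rw [Nat.floor_natCast] at a2
  have h6 : Real.log 4 ≤ 3 / 2 := by
    have e1 : Real.log 4 = 2 * Real.log 2 := by
      rw [show (4 : ℝ) = 2 ^ 2 by norm_num, Real.log_pow]
      norm_num
    rw [e1]
    have := Real.log_two_lt_d9
    linarith
  refine ⟨a1, ?_⟩
  rw [le_div_iff₀ (by linarith)] at a2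
  have h7 : ((Icc 1 X).filter Nat.Prime).card ≤ Nat.primeCounting X := by
    rw [Nat.primeCounting, Nat.primeCounting', Nat.count_eq_card_filter_range]
    refine card_le_card fun p hp => ?_
    rw [mem_filter, mem_Icc] at hp
    rw [mem_filter, mem_range]
    exact ⟨by omega, hp.2⟩
  have h8 : (((Icc 1 X).filter Nat.Prime).card : ℝ) * Real.log X ≤ (Nat.primeCounting X : ℝ) * Real.log X :=
    mul_le_mul_of_nonneg_right (by exact_mod_cast h7) (by linarith)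
  have h9 : (Real.log 4 + 1 / 2) * (X : ℝ) ≤ 2 * X := by
    apply mul_le_mul_of_nonneg_right _ (Nat.cast_nonneg _)
    linarith
  linarith

/-- a real scale `t j = X (2/3)^j` -/
theorem prinall_scale (X y J n : ℕ) (hX : 6 ≤ (X : ℝ) * (2 / 3 : ℝ) ^ J)
    (hJ : (X : ℝ) * (2 / 3 : ℝ) ^ J ≤ y) (hn : y < n) (hnX : n ≤ 2 * X) :
    ∃ j ∈ range (J + 1), n ∈ Ioc ⌊(X : ℝ) * (2 / 3 : ℝ) ^ j⌋₊ (2 * ⌊(X : ℝ) * (2 / 3 : ℝ) ^ j⌋₊) := by
  classical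
  have hex : ∃ j : ℕ, ⌊(X : ℝ) * (2 / 3 : ℝ) ^ j⌋₊ < n := by
    refine ⟨J, lt_of_le_of_lt ?_ hn⟩
    have h1 := Nat.floor_le_floor hJ
    rwa [Nat.floor_natCast] at h1
  have hJ' : ⌊(X : ℝ) * (2 / 3 : ℝ) ^ J⌋₊ < n := by
    refine lt_of_le_of_lt ?_ hn
    have h1 := Nat.floor_le_floor hJ
    rwa [Nat.floor_natCast] at h1
  have hle := Nat.find_min' hex hJ'
  refine ⟨Nat.find hex, by rw [mem_range]; omega, ?_⟩
  rw [mem_Ioc]
  refine ⟨Nat.find_spec hex, ?_⟩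
  rcases Nat.eq_zero_or_pos (Nat.find hex) with h | h
  · rw [h, pow_zero, mul_one, Nat.floor_natCast]
    exact hnX
  · have h1 := Nat.find_min hex (Nat.sub_lt h one_pos)
    push Not at h1
    obtain ⟨i, hi⟩ : ∃ i, Nat.find hex = i + 1 := ⟨Nat.find hex - 1, by omega⟩
    rw [hi] at h1 hle ⊢
    rw [Nat.add_sub_cancel] at h1
    have hX0 : (0 : ℝ) ≤ X := Nat.cast_nonneg X
    have h2 : (n : ℝ) ≤ X * (2 / 3 : ℝ) ^ i := by
      have h3 : ((⌊(X : ℝ) * (2 / 3 : ℝ) ^ i⌋₊ : ℕ) : ℝ) ≤ X * (2 / 3 : ℝ) ^ i := Nat.floor_le (by positivity)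
      have h4 : (n : ℝ) ≤ (⌊(X : ℝ) * (2 / 3 : ℝ) ^ i⌋₊ : ℕ) := by exact_mod_cast h1
      linarith
    have h5 : (X : ℝ) * (2 / 3 : ℝ) ^ (i + 1) < ⌊(X : ℝ) * (2 / 3 : ℝ) ^ (i + 1)⌋₊ + 1 := Nat.lt_floor_add_one _
    have h6 : 6 ≤ (X : ℝ) * (2 / 3 : ℝ) ^ i := by
      refine hX.trans ?_
      apply mul_le_mul_of_nonneg_left _ hX0
      exact pow_le_pow_of_le_one (by norm_num) (by norm_num) (by omega)
    have h7 : (n : ℝ) < 2 * (⌊(X : ℝ) * (2 / 3 : ℝ) ^ (i + 1)⌋₊ : ℕ) + 1 := by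
      rw [pow_succ] at h5 ⊢
      linarith
    have h8 : n < 2 * ⌊(X : ℝ) * (2 / 3 : ℝ) ^ (i + 1)⌋₊ + 1 := by exact_mod_cast h7
    omega

open Classical in
/-- a pair with a prime difference is counted in one of the scales, or its difference is small -/
theorem prinall_pt (X y J N b : ℕ) (Y : ℕ → ℕ)
    (hcov : ∀ n : ℕ, y < n → n ≤ 2 * X → ∃ j ∈ range (J + 1), n ∈ Ioc (Y j) (2 * Y j)) (hNX : N ≤ 2 * X) :
    (if b ≤ N ∧ N - b ∈ (Set.univ : Set ℕ) ∧ (N - b).Prime then (1 : ℝ) else 0) ≤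
      (if b ≤ N ∧ N - b ≤ y ∧ (N - b).Prime then (1 : ℝ) else 0) +
      ∑ j ∈ range (J + 1), (if b ≤ N ∧ N - b ∈ Ioc (Y j) (2 * Y j) ∧
          N - b ∈ (Set.univ : Set ℕ) ∧ (N - b).Prime then (1 : ℝ) else 0) := by
  obtain ⟨f, hf⟩ : ∃ f : ℕ → ℝ, f = fun j => if b ≤ N ∧ N - b ∈ Ioc (Y j) (2 * Y j) ∧
          N - b ∈ (Set.univ : Set ℕ) ∧ (N - b).Prime then (1 : ℝ) else 0 := ⟨_, rfl⟩
  have hf0 : ∀ j ∈ range (J + 1), 0 ≤ f j := by
    intro j _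
    rw [hf]
    dsimp only
    split_ifs
    · exact zero_le_one
    · exact le_rfl
  have hs : (∑ j ∈ range (J + 1), (if b ≤ N ∧ N - b ∈ Ioc (Y j) (2 * Y j) ∧
          N - b ∈ (Set.univ : Set ℕ) ∧ (N - b).Prime then (1 : ℝ) else 0)) = ∑ j ∈ range (J + 1), f j := by
    rw [hf]
  rw [hs]
  have hn0 : 0 ≤ ∑ j ∈ range (J + 1), f j := sum_nonneg hf0
  have hg0 : (0 : ℝ) ≤ if b ≤ N ∧ N - b ≤ y ∧ (N - b).Prime then (1 : ℝ) else 0 := by
    split_ifs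
    · exact zero_le_one
    · exact le_rfl
  by_cases h1 : b ≤ N ∧ N - b ∈ (Set.univ : Set ℕ) ∧ (N - b).Prime
  · rw [if_pos h1]
    by_cases h2 : N - b ≤ y
    · rw [if_pos ⟨h1.1, h2, h1.2.2⟩]
      linarith
    · obtain ⟨j, hj, hjm⟩ := hcov (N - b) (by omega) (by omega)
      have h4 : f j ≤ ∑ j ∈ range (J + 1), f j := single_le_sum hf0 hj
      have h5 : f j = 1 := by
        rw [hf]
        exact if_pos ⟨h1.1, hjm, Set.mem_univ _, h1.2.2⟩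
      linarith
  · rw [if_neg h1]
    linarith

end Pool.Agent.Lib.SH
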