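import Pool.Agent.Lib.SH.Bin9
import Pool.Agent.Lib.SH.DefP

/-!
# SH-All9: all scales, the right order of magnitude (helper10)
-/

set_option autoImplicit false

open Finset

namespace Pool.Agent.Lib.SH

open Pool.Agent.Lib.MT Pool.Agent.Lib.SG

private theorem all9_scale (X : ℝ) (hX : 0 < X) (ε : ℝ) (J : ℕ) (hJ : (2 / 3 : ℝ) ^ (J + 1) ≤ ε / 3) (n : ℝ)
    (hn : ε * X / 2 ≤ n) (hnX : n ≤ X) :
    ∃ j ≤ J, 11 / 10 * (X * (2 / 3 : ℝ) ^ (j + 1)) ≤ n ∧ n ≤ 19 / 10 * (X * (2 / 3 : ℝ) ^ (j + 1)) := by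
  classical
  have hex : ∃ j : ℕ, 11 / 10 * (X * (2 / 3 : ℝ) ^ (j + 1)) ≤ n := by
    refine ⟨J, ?_⟩
    have : X * (2 / 3 : ℝ) ^ (J + 1) ≤ X * (ε / 3) := mul_le_mul_of_nonneg_left hJ hX.le
    have h0 : 0 < X * (2 / 3 : ℝ) ^ (J + 1) := by positivity
    linarith
  have hJ' : 11 / 10 * (X * (2 / 3 : ℝ) ^ (J + 1)) ≤ n := by
    have : X * (2 / 3 : ℝ) ^ (J + 1) ≤ X * (ε / 3) := mul_le_mul_of_nonneg_left hJ hX.le
    have h0 : 0 < X * (2 / 3 : ℝ) ^ (J + 1) := by positivity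
    linarith
  refine ⟨Nat.find hex, Nat.find_min' hex hJ', Nat.find_spec hex, ?_⟩
  rcases Nat.eq_zero_or_pos (Nat.find hex) with h | h
  · rw [h]
    norm_num
    linarith
  · have h1 := Nat.find_min hex (Nat.sub_lt h one_pos)
    push Not at h1
    have h2 : Nat.find hex - 1 + 1 = Nat.find hex := Nat.sub_add_cancel h
    rw [h2] at h1
    rw [pow_succ]
    have h0 : 0 < X * (2 / 3 : ℝ) ^ (Nat.find hex) := by positivity
    linarith

private theorem all9_Y (t : ℝ) (ht : 1000 ≤ t) (Y n : ℕ) (hY : Y = ⌊t⌋₊) (h1 : 11 / 10 * t ≤ n)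
    (h2 : (n : ℝ) ≤ 19 / 10 * t) :
    2 * n < 8 * Y ∧ 2 * Y + Y / 8 ≤ 2 * n ∧ 2 * n + Y / 8 ≤ 4 * Y := by
  have a1 : (Y : ℝ) ≤ t := by
    rw [hY]
    exact Nat.floor_le (by linarith)
  have a2 : t < Y + 1 := by
    rw [hY]
    exact Nat.lt_floor_add_one _
  have b1 : (22 * (Y : ℝ)) ≤ 20 * n := by linarith
  have b2 : (20 * (n : ℝ)) ≤ 38 * Y + 38 := by linarith
  have b3 : 22 * Y ≤ 20 * n := by exact_mod_cast b1
  have b4 : 20 * n ≤ 38 * Y + 38 := by exact_mod_cast b2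
  have b5 : (999 : ℝ) ≤ Y := by linarith
  have b6 : 999 ≤ Y := by exact_mod_cast b5
  omega

private theorem all9_geom (n : ℕ) : ∑ j ∈ range n, (2 / 3 : ℝ) ^ (j + 1) ≤ 2 := by
  have h : ∑ j ∈ range n, (2 / 3 : ℝ) ^ (j + 1) = 2 - 2 * (2 / 3) ^ n := by
    induction n with
    | zero => simp
    | succ n ih =>
      rw [sum_range_succ, ih, pow_succ]
      ring
  rw [h]
  have : (0 : ℝ) < 2 * (2 / 3) ^ n := by positivity
  linarith

private theorem all9_J (ε : ℝ) (hε : 0 < ε) (hε1 : ε ≤ 1) :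
    ∃ J : ℕ, (2 / 3 : ℝ) ^ (J + 1) ≤ ε / 3 ∧ 2 * ε / 9 ≤ (2 / 3 : ℝ) ^ (J + 1) := by
  classical
  have hex : ∃ J : ℕ, (2 / 3 : ℝ) ^ J ≤ ε / 3 := by
    obtain ⟨J, hJ⟩ := exists_pow_lt_of_lt_one (show 0 < ε / 3 by positivity) (show (2 / 3 : ℝ) < 1 by norm_num)
    exact ⟨J, hJ.le⟩
  have h0 : 0 < Nat.find hex := by
    rw [Nat.find_pos]
    rw [pow_zero]
    linarith
  have h1 := Nat.find_min hex (Nat.sub_lt h0 one_pos)
  push Not at h1
  refine ⟨Nat.find hex - 1, ?_, ?_⟩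
  · rw [Nat.sub_add_cancel h0]
    exact Nat.find_spec hex
  · rw [pow_succ]
    linarith

private theorem all9_log (X Y : ℝ) (hX : 0 < X) (hY : Real.sqrt X ≤ Y) :
    Real.log X / 2 ≤ Real.log Y := by
  have hs0 : 0 < Real.sqrt X := Real.sqrt_pos.2 hX
  rw [← Real.log_sqrt hX.le]
  exact Real.log_le_log hs0 hY


open Classical in
private theorem all9_miss (m H X Y : ℕ) (A : Set ℕ) (h : 2 * X ≤ Y) : (Mis m H X A).card ≤ (Miss m H Y A).card := by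
  refine card_le_card fun x hx => ?_
  unfold Mis at hx
  unfold Miss
  rw [mem_filter, mem_Ioc] at hx
  rw [mem_filter, mem_Icc]
  exact ⟨by omega, hx.2⟩

open Classical in
theorem all9 (m : ℕ) (hm : 1 ≤ m) : ∃ κ₀ : ℝ, 0 < κ₀ ∧ ∀ κ ε : ℝ, 0 < κ → κ ≤ κ₀ → 0 < ε →
    ∃ c η : ℝ, 0 < c ∧ 0 < η ∧ ∃ X₀ : ℕ, ∀ X : ℕ, X₀ ≤ X → ∀ A B : Set ℕ, ((Miss m ⌊κ * Real.log X⌋₊ (2 * X) A).card : ℝ) ≤ η * X →
    ((Miss m ⌊κ * Real.log X⌋₊ (2 * X) B).card : ℝ) ≤ η * X →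
    (((Icc 1 X).filter (fun n => (rep A B (2 * n) : ℝ) < c * X / (Real.log X) ^ 2)).card : ℝ) ≤ ε * X := by
  obtain ⟨κ₀, hκ₀, hκ₀1, hb⟩ := bin9 m hm
  refine ⟨κ₀ / 2, by positivity, fun κ ε₀ hκ0 hκκ hε₀ => ?_⟩
  obtain ⟨ε, hε⟩ : ∃ ε : ℝ, ε = min ε₀ 1 := ⟨_, rfl⟩
  have hε0 : 0 < ε := by
    rw [hε]
    exact lt_min hε₀ one_pos
  have hε1 : ε ≤ 1 := by
    rw [hε]
    exact min_le_right _ _
  have hεε : ε ≤ ε₀ := by
    rw [hε]
    exact min_le_left _ _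
  obtain ⟨J, hJ, hJ2⟩ := all9_J ε hε0 hε1
  obtain ⟨δ, hδ⟩ : ∃ δ : ℝ, δ = (2 / 3 : ℝ) ^ (J + 1) := ⟨_, rfl⟩
  have hδ0 : 0 < δ := by
    rw [hδ]
    positivity
  have hδ1 : δ ≤ 1 := by
    rw [hδ]
    exact pow_le_one₀ (by norm_num) (by norm_num)
  obtain ⟨c₁, η₁, hc₁, hη₁, X₁, h1⟩ := hb (κ / 2) (ε / 4) (by positivity) (by positivity)
  obtain ⟨X₂, hlog⟩ := Filter.eventually_atTop.mp (RNum6_log.eventually_ge_atTop (18 + 4 / κ))
  obtain ⟨X₃, hX₃⟩ : ∃ X₃ : ℕ, (2 * (X₁ + 1001)) / δ ≤ (X₃ : ℝ) := exists_nat_ge _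
  obtain ⟨X₄, hX₄⟩ : ∃ X₄ : ℕ, 4 / δ ^ 2 ≤ (X₄ : ℝ) := exists_nat_ge _
  refine ⟨c₁ * (δ / 2), η₁ * (δ / 2), by positivity, by positivity, X₂ + X₃ + X₄ + 3, fun X hX A B hA hB => ?_⟩
  have hL := hlog X (by omega)
  have h4κ : 0 < 4 / κ := by positivity
  have hXX : (3 : ℝ) ≤ X := by exact_mod_cast (show 3 ≤ X by omega)
  have hX0 : (0 : ℝ) < X := by linarith
  have hlog0 : 0 < Real.log X := by linarith
  have hδX : 2 * ((X₁ : ℝ) + 1001) ≤ δ * X := by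
    rw [div_le_iff₀ hδ0] at hX₃
    have h2 : (X₃ : ℝ) ≤ X := by exact_mod_cast (show X₃ ≤ X by omega)
    nlinarith
  have hsq : Real.sqrt X ≤ δ / 2 * X := by
    have h2 : (X₄ : ℝ) ≤ X := by exact_mod_cast (show X₄ ≤ X by omega)
    have h3 : 4 / δ ^ 2 ≤ X := hX₄.trans h2
    rw [div_le_iff₀ (by positivity)] at h3
    rw [Real.sqrt_le_left (by positivity)]
    nlinarith
  obtain ⟨t, ht⟩ : ∃ t : ℕ → ℝ, t = fun j => X * (2 / 3 : ℝ) ^ (j + 1) := ⟨_, rfl⟩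
  have htj : ∀ j ≤ J, δ * X ≤ t j ∧ t j ≤ X := by
    intro j hj
    rw [ht, hδ]
    simp only
    constructor
    · rw [mul_comm]
      apply mul_le_mul_of_nonneg_left _ hX0.le
      exact pow_le_pow_of_le_one (by norm_num) (by norm_num) (by omega)
    · exact mul_le_of_le_one_right hX0.le (pow_le_one₀ (by norm_num) (by norm_num))
  obtain ⟨Y, hY⟩ : ∃ Y : ℕ → ℕ, Y = fun j => ⌊t j⌋₊ := ⟨_, rfl⟩
  have hYj : ∀ j ≤ J, (Y j : ℝ) ≤ t j ∧ t j < Y j + 1 := by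
    intro j hj
    have h0 : 0 ≤ t j := by
      have := (htj j hj).1
      have h0 : 0 < δ * X := by positivity
      linarith
    rw [hY]
    exact ⟨Nat.floor_le h0, Nat.lt_floor_add_one _⟩
  have hX₁0 : (0 : ℝ) ≤ X₁ := Nat.cast_nonneg _
  have hYd : ∀ j ≤ J, δ / 2 * X ≤ Y j := by
    intro j hj
    have a2 := (hYj j hj).2
    have a3 := (htj j hj).1
    have h1 : δ / 2 * X = δ * X / 2 := by ring
    linarith
  obtain ⟨E, hE⟩ : ∃ E : ℕ → Finset ℕ, E = fun j => (range (8 * Y j)).filter (fun s => Even s ∧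
      2 * Y j + Y j / 8 ≤ s ∧ s + Y j / 8 ≤ 4 * Y j ∧
      (rep A B s : ℝ) < c₁ * Y j / (Real.log (Y j)) ^ 2) := ⟨_, rfl⟩
  have hYX : ∀ j ≤ J, Y j ≤ X := by
    intro j hj
    have : (Y j : ℝ) ≤ X := ((hYj j hj).1).trans (htj j hj).2
    exact_mod_cast this
  have hYl : ∀ j ≤ J, Real.log X / 2 ≤ Real.log (Y j) ∧ Real.log (Y j) ≤ Real.log X := by
    intro j hj
    have a1 := hYd j hj
    refine ⟨all9_log X (Y j) hX0 (hsq.trans a1), Real.log_le_log ?_ (by exact_mod_cast hYX j hj)⟩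
    have : 0 < δ / 2 * X := by positivity
    linarith
  have hEj : ∀ j ≤ J, ((E j).card : ℝ) ≤ ε / 4 * t j := by
    intro j hj
    have a2' := (hYj j hj).2
    have a3' := (htj j hj).1
    have a1 : X₁ ≤ Y j := by
      have : (X₁ : ℝ) ≤ Y j := by linarith
      exact_mod_cast this
    have a2 : Y j ≤ X := hYX j hj
    have a4 := hYl j hj
    have f1 : ((⌊κ * Real.log X⌋₊ : ℕ) : ℝ) ≤ κ * Real.log X := Nat.floor_le (by positivity)
    have f2 := Nat.lt_floor_add_one (κ * Real.log X)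
    have f3 : 2 ≤ κ * Real.log X := by
      have : 4 / κ ≤ Real.log X := by linarith
      rw [div_le_iff₀ hκ0] at this
      linarith
    have f4 : κ * Real.log X ≤ κ₀ / 2 * Real.log X := mul_le_mul_of_nonneg_right hκκ hlog0.le
    have f5 : κ₀ * (Real.log X / 2) ≤ κ₀ * Real.log (Y j) := mul_le_mul_of_nonneg_left a4.1 hκ₀.le
    have f6 : κ / 2 * Real.log (Y j) ≤ κ / 2 * Real.log X := mul_le_mul_of_nonneg_left a4.2 (by positivity)
    have a3 := h1 (Y j) a1 ⌊κ * Real.log X⌋₊ (by linarith) (by linarith) A B (by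
      have e1 : ((Mis m ⌊κ * Real.log X⌋₊ (Y j) A).card : ℝ) ≤
          (Miss m ⌊κ * Real.log X⌋₊ (2 * X) A).card := by
        exact_mod_cast all9_miss m _ (Y j) (2 * X) A (by omega)
      refine e1.trans (hA.trans ?_)
      rw [mul_assoc]
      exact mul_le_mul_of_nonneg_left (hYd j hj) hη₁.le) (by
      have e1 : ((Mis m ⌊κ * Real.log X⌋₊ (Y j) B).card : ℝ) ≤
          (Miss m ⌊κ * Real.log X⌋₊ (2 * X) B).card := by
        exact_mod_cast all9_miss m _ (Y j) (2 * X) B (by omega)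
      refine e1.trans (hB.trans ?_)
      rw [mul_assoc]
      exact mul_le_mul_of_nonneg_left (hYd j hj) hη₁.le)
    rw [hE]
    refine a3.trans ?_
    exact mul_le_mul_of_nonneg_left (hYj j hj).1 (by positivity)
  -- covering
  have hcov : (Icc 1 X).filter (fun n => (rep A B (2 * n) : ℝ) < c₁ * (δ / 2) * X / (Real.log X) ^ 2) ⊆
      Icc 1 ⌊ε * X / 2⌋₊ ∪ (range (J + 1)).biUnion (fun j => (E j).image (fun s => s / 2)) := by
    intro n hn
    rw [mem_filter, mem_Icc] at hn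
    obtain ⟨⟨hn1, hnX⟩, hrep⟩ := hn
    rw [mem_union]
    by_cases hc : (n : ℝ) ≤ ε * X / 2
    · left
      rw [mem_Icc]
      exact ⟨hn1, Nat.le_floor hc⟩
    · right
      push Not at hc
      obtain ⟨j, hj, b1, b2⟩ := all9_scale X hX0 ε J hJ n hc.le (by exact_mod_cast hnX)
      rw [mem_biUnion]
      refine ⟨j, by rw [mem_range]; omega, ?_⟩
      rw [mem_image]
      refine ⟨2 * n, ?_, by omega⟩
      have htd : t j = X * (2 / 3 : ℝ) ^ (j + 1) := by rw [ht]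
      rw [← htd] at b1 b2
      have b3 : 1000 ≤ t j := by
        have a3 := (htj j hj).1
        linarith
      obtain ⟨c1, c2, c3⟩ := all9_Y (t j) b3 (Y j) n (by rw [hY]) b1 b2
      rw [hE]
      simp only [mem_filter, mem_range]
      refine ⟨c1, even_two_mul n, c2, c3, ?_⟩
      refine hrep.trans_le ?_
      have d4 := hYl j hj
      have d5 : 0 < Real.log (Y j) := by linarith
      rw [mul_assoc]
      have d6 := hYd j hj
      apply div_le_div₀ (by positivity) (by gcongr) (by positivity)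
      exact pow_le_pow_left₀ d5.le d4.2 2
  have hfin := card_le_card hcov
  have hfin2 : (((Icc 1 X).filter (fun n => (rep A B (2 * n) : ℝ) < c₁ * (δ / 2) * X / (Real.log X) ^ 2)).card : ℝ) ≤
      ((Icc 1 ⌊ε * X / 2⌋₊).card : ℝ) + ∑ j ∈ range (J + 1), ((E j).card : ℝ) := by
    have e1 : (Icc 1 ⌊ε * X / 2⌋₊ ∪ (range (J + 1)).biUnion (fun j => (E j).image (fun s => s / 2))).card ≤
        (Icc 1 ⌊ε * X / 2⌋₊).card + ∑ j ∈ range (J + 1), (E j).card := by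
      refine (card_union_le _ _).trans ?_
      apply Nat.add_le_add_left
      refine card_biUnion_le.trans ?_
      exact sum_le_sum fun j _ => card_image_le
    exact_mod_cast hfin.trans e1
  refine hfin2.trans ?_
  rw [Nat.card_Icc, Nat.add_sub_cancel]
  have f1 : ((⌊ε * X / 2⌋₊ : ℕ) : ℝ) ≤ ε * X / 2 := Nat.floor_le (by positivity)
  have f2 : ∑ j ∈ range (J + 1), ((E j).card : ℝ) ≤ ∑ j ∈ range (J + 1), ε / 4 * t j :=
    sum_le_sum fun j hj => hEj j (by rw [mem_range] at hj; omega)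
  have f3 : ∑ j ∈ range (J + 1), ε / 4 * t j ≤ ε / 4 * X * 2 := by
    calc ∑ j ∈ range (J + 1), ε / 4 * t j = ε / 4 * X * ∑ j ∈ range (J + 1), (2 / 3 : ℝ) ^ (j + 1) := by
          rw [mul_sum, ht]
          refine sum_congr rfl fun j _ => ?_
          ring
      _ ≤ ε / 4 * X * 2 := mul_le_mul_of_nonneg_left (all9_geom _) (by positivity)
  have f4 : ε * X ≤ ε₀ * X := mul_le_mul_of_nonneg_right hεε hX0.le
  linarith

end Pool.Agent.Lib.SH
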