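import Pool.Agent.Lib.SH.BT9
import Pool.Agent.Lib.SG.Mumass7

/-!
# SH-Avg9 (45 minutes): the average of the singular series

PROOF. `z = zX B X`. For injective `t`, `Og K t` is `Nice K` (card `≤ s ≤ K`; empty for `p ≤ 2K`; entries `< p`), so by `mumass7 K B` (`z ≥ 2`): `∑ SG.mu (Og K t) z X ≥ X/2`, i.e.
`V1 (Og K t) z * X/2 ≤ #Pre (Og K t) z X` (`V1 > 0`: `num_V1 K`). `x ∈ Pre (Og K t) z X` implies for all `j`: no prime `p ∈ PP (2K) z` divides `x + t j` (`x % p ∈ Om t p`).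
Sum over `t ∈ Ij s H`: `∑_t #Pre (Og K t) z X ≤ ∑_{x ∈ (X,2X]} (Nt (2K) z H x)^s ≤ X (C kap z log X)^s` by `bt9 (2K) B` with `Y = log X`
(`Ij s H ⊆ piFinset`, and the number of `t ∈ piFinset` with all `t j` in a set `N` is `(#N)^s`). Constant `2 C^s`.
-/

set_option autoImplicit false

open Finset

namespace Pool.Agent.Lib.SH

open Pool.Agent.Lib.MT Pool.Agent.Lib.SG

private theorem Avg9_mem {k : ℕ} (h : Fin k → ℕ) (p c : ℕ) :
    c ∈ Om h p ↔ c < p ∧ ∃ i, p ∣ c + h i := by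
  unfold Om
  rw [mem_filter, mem_range]

private theorem Avg9_nice (K s : ℕ) (hs : s ≤ K) (t : Fin s → ℕ) : Nice K (Og K t) := by
  classical
  have hcard : ∀ p, (Om t p).card ≤ s := by
    intro p
    have hsub : Om t p ⊆ (univ : Finset (Fin s)).biUnion (fun i =>
        ((range p).filter (fun c => p ∣ c + t i))) := by
      intro c hc
      obtain ⟨hcp, i, hi⟩ := (Avg9_mem t p c).1 hc
      rw [mem_biUnion]
      exact ⟨i, mem_univ _, by rw [mem_filter, mem_range]; exact ⟨hcp, hi⟩⟩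
    refine (card_le_card hsub).trans ?_
    refine (card_biUnion_le_card_mul univ _ 1 ?_).trans (by simp)
    intro i _
    rw [card_le_one]
    intro a ha b hb
    rw [mem_filter, mem_range] at ha hb
    have hab : a + t i ≡ b + t i [MOD p] :=
      ((Nat.modEq_zero_iff_dvd.mpr ha.2).trans (Nat.modEq_zero_iff_dvd.mpr hb.2).symm)
    exact Nat.ModEq.eq_of_lt_of_lt (Nat.ModEq.add_right_cancel' _ hab) ha.1 hb.1
  refine ⟨fun p => ?_, fun p hp => ?_, fun p c hc => ?_⟩
  · unfold Og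
    split_ifs with h
    · simp
    · exact (hcard p).trans hs
  · unfold Og
    rw [if_pos hp]
    simp
  · unfold Og at hc
    split_ifs at hc with h
    · simp at hc
    · exact ((Avg9_mem t p c).1 hc).1

private theorem Avg9_sum (Ω : ℕ → Finset ℕ) (z X : ℕ) :
    ∑ x ∈ Ioc X (2 * X), SG.mu Ω z X x = (V1 Ω z)⁻¹ * ((Pre Ω z X).card : ℝ) := by
  classical
  unfold SG.mu
  rw [← sum_filter]
  have e : (Ioc X (2 * X)).filter (fun x => x ∈ Pre Ω z X) = Pre Ω z X := by
    ext x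
    rw [mem_filter]
    refine ⟨fun h => h.2, fun h => ⟨?_, h⟩⟩
    unfold Pre at h
    exact (mem_filter.1 h).1
  rw [e, sum_const, nsmul_eq_mul, mul_comm]

open Classical in
private noncomputable def Avg9_N (K z H x : ℕ) : Finset ℕ :=
  (Icc 1 H).filter fun t => ∀ p ∈ PP (2 * K) z, ¬ p ∣ x + t

private theorem Avg9_pre {K s z H X : ℕ} (t : Fin s → ℕ) (ht : t ∈ Ij s H) {x : ℕ}
    (hx : x ∈ Pre (Og K t) z X) : ∀ j, t j ∈ Avg9_N K z H x := by
  classical
  intro j
  unfold Avg9_N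
  unfold Ij at ht
  rw [mem_filter, Fintype.mem_piFinset] at ht
  rw [mem_filter]
  refine ⟨ht.1 j, fun p hp hd => ?_⟩
  unfold Pre at hx
  rw [mem_filter] at hx
  unfold PP at hp
  rw [mem_filter, mem_range] at hp
  have h1 : p ∈ PP 0 z := by
    unfold PP
    rw [mem_filter, mem_range]
    exact ⟨hp.1, hp.2.1, hp.2.1.pos⟩
  refine hx.2 p h1 ?_
  unfold Og
  rw [if_neg (by have := hp.2.2; omega), Avg9_mem]
  refine ⟨Nat.mod_lt _ hp.2.1.pos, j, ?_⟩
  rw [Nat.dvd_iff_mod_eq_zero] at hd ⊢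
  rw [← hd, Nat.mod_add_mod]

private theorem Avg9_count (K s z H X : ℕ) :
    ∑ t ∈ Ij s H, ((Pre (Og K t) z X).card : ℝ) ≤
      ∑ x ∈ Ioc X (2 * X), (Nt (2 * K) z H x : ℝ) ^ s := by
  classical
  have h1 : ∀ t ∈ Ij s H, (Pre (Og K t) z X).card ≤
      ∑ x ∈ Ioc X (2 * X), if ∀ j, t j ∈ Avg9_N K z H x then 1 else 0 := by
    intro t ht
    rw [← card_filter]
    refine card_le_card fun x hx => ?_
    rw [mem_filter]
    refine ⟨?_, Avg9_pre t ht hx⟩
    unfold Pre at hx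
    exact (mem_filter.1 hx).1
  have h2 : ∑ t ∈ Ij s H, (Pre (Og K t) z X).card ≤
      ∑ x ∈ Ioc X (2 * X), (Nt (2 * K) z H x) ^ s := by
    refine (sum_le_sum h1).trans ?_
    rw [sum_comm]
    refine sum_le_sum fun x _ => ?_
    rw [← card_filter]
    have h3 : (Ij s H).filter (fun t => ∀ j, t j ∈ Avg9_N K z H x) ⊆
        Fintype.piFinset (fun _ : Fin s => Avg9_N K z H x) := by
      intro t ht
      rw [mem_filter] at ht
      rw [Fintype.mem_piFinset]
      exact ht.2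
    refine (card_le_card h3).trans ?_
    rw [Fintype.card_piFinset, prod_const, card_univ, Fintype.card_fin]
    refine le_of_eq ?_
    unfold Avg9_N Nt
    rfl
  exact_mod_cast h2

theorem avg9 (K s B : ℕ) (hs : s ≤ K) (hB : 1 ≤ B) : ∃ C : ℝ, 0 < C ∧ ∃ X₀ : ℕ, ∀ X : ℕ, X₀ ≤ X → ∀ H : ℕ,
    (H : ℝ) ≤ Real.log X →
    ∑ t ∈ Ij s H, V1 (Og K t) (zX B X) ≤ C * (kap (zX B X) * Real.log X) ^ s := by
  obtain ⟨C, hC, X₁, h1⟩ := bt9 (2 * K) B hB
  obtain ⟨X₂, h2⟩ := mumass7 K B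
  obtain ⟨C', hC', h3⟩ := num_V1 K
  have htend : Filter.Tendsto (fun X : ℕ => Real.log (X : ℝ)) Filter.atTop Filter.atTop :=
    Real.tendsto_log_atTop.comp tendsto_natCast_atTop_atTop
  obtain ⟨X₃, h4⟩ := Filter.eventually_atTop.1
    (htend.eventually (Filter.eventually_ge_atTop (2 : ℝ)))
  refine ⟨2 * C ^ s, by positivity, max X₁ (max X₂ (max X₃ 1)), fun X hX H hH => ?_⟩
  have hXa : X₁ ≤ X := (le_max_left _ _).trans hX
  have hXb : X₂ ≤ X := ((le_max_left _ _).trans (le_max_right _ _)).trans hX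
  have hXc : X₃ ≤ X := (((le_max_left _ _).trans (le_max_right _ _)).trans (le_max_right _ _)).trans hX
  have hXd : 1 ≤ X := (((le_max_right _ _).trans (le_max_right _ _)).trans (le_max_right _ _)).trans hX
  have hX0 : (0 : ℝ) < X := by exact_mod_cast hXd
  have hL : (2 : ℝ) ≤ Real.log X := h4 X hXc
  have hzB : (zX B X : ℝ) ≤ (Real.log X) ^ B := by
    unfold zX
    exact Nat.floor_le (by positivity)
  have hz2 : 2 ≤ zX B X := by
    unfold zX
    apply Nat.le_floor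
    push_cast
    calc (2 : ℝ) ≤ Real.log X := hL
      _ = (Real.log X) ^ 1 := (pow_one _).symm
      _ ≤ (Real.log X) ^ B := pow_le_pow_right₀ (by linarith) hB
  -- lower bound for the presieve
  have h5 : ∀ t ∈ Ij s H, V1 (Og K t) (zX B X) * (X / 2) ≤ ((Pre (Og K t) (zX B X) X).card : ℝ) := by
    intro t _
    have hn := Avg9_nice K s hs t
    have h6 := h2 X (zX B X) hXb hz2 hzB (Og K t) hn
    have h7 := (h3 (Og K t) hn (zX B X) hz2).1
    rw [Avg9_sum] at h6
    have h8 : (X : ℝ) / Real.log X ≤ X / 2 := by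
      apply div_le_div_of_nonneg_left hX0.le (by norm_num) hL
    have h9 : (X : ℝ) / 2 ≤ (V1 (Og K t) (zX B X))⁻¹ * ((Pre (Og K t) (zX B X) X).card : ℝ) := by
      have := (abs_le.1 h6).1
      linarith
    calc V1 (Og K t) (zX B X) * (X / 2)
        ≤ V1 (Og K t) (zX B X) * ((V1 (Og K t) (zX B X))⁻¹ * ((Pre (Og K t) (zX B X) X).card : ℝ)) :=
          mul_le_mul_of_nonneg_left h9 h7.le
      _ = _ := by rw [← mul_assoc, mul_inv_cancel₀ h7.ne', one_mul]
  have h10 : ∑ x ∈ Ioc X (2 * X), (Nt (2 * K) (zX B X) H x : ℝ) ^ s ≤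
      X * (C * kap (zX B X) * Real.log X) ^ s := by
    have h11 : ∀ x ∈ Ioc X (2 * X), (Nt (2 * K) (zX B X) H x : ℝ) ^ s ≤
        (C * kap (zX B X) * Real.log X) ^ s := by
      intro x _
      refine pow_le_pow_left₀ (by positivity) ?_ s
      refine h1 X hXa x H (Real.log X) hH ?_ le_rfl
      calc (Real.log X) ^ (1 / 2 : ℝ) ≤ (Real.log X) ^ (1 : ℝ) :=
            Real.rpow_le_rpow_of_exponent_le (by linarith) (by norm_num)
        _ = _ := Real.rpow_one _
    refine (sum_le_sum h11).trans (le_of_eq ?_)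
    rw [sum_const, Nat.card_Ioc, nsmul_eq_mul]
    congr 2
    omega
  have h12 : (∑ t ∈ Ij s H, V1 (Og K t) (zX B X)) * (X / 2) ≤
      X * (C * kap (zX B X) * Real.log X) ^ s := by
    rw [sum_mul]
    exact (sum_le_sum h5).trans ((Avg9_count K s (zX B X) H X).trans h10)
  have h13 : X * (C * kap (zX B X) * Real.log X) ^ s =
      (2 * C ^ s * (kap (zX B X) * Real.log X) ^ s) * (X / 2) := by
    rw [mul_assoc C, mul_pow]
    ring
  rw [h13] at h12
  exact le_of_mul_le_mul_right h12 (by positivity)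

end Pool.Agent.Lib.SH
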