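import Pool.Agent.Lib.SH.Def9
import Pool.Agent.Lib.MP_7b7e48_nt.GT.RoughCount
import Pool.Agent.Lib.SG.Num

/-!
# SH-BT9 (60 minutes): few numbers without prime factors in (K, z] in short intervals

PROOF. `z = zX B X` is at least `log X - 1`... (`B ≥ 1`) and at most `(log X)^B`. Let `K₀` be the constant of `GT.fund_lemma`, `y = ⌊Y^(1/(2K₀))⌋`
(so `y^(K₀) ≤ Y^(1/2)`, `y ≤ z` since `Y ≤ log X`; `y ≥ 2` for `X` large since `Y ≥ (log X)^(1/2)`), `P` = the primes `p` with `K < p ≤ y`, `Ω p = {0}` (card 1).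
`fund_lemma` with `b = 1`, start `x + 1`, length `⌊Y⌋` (or `H`: the count is monotone in `H`, so take `L = ⌊Y⌋₊ ≥ H`):
`Nt K z H x ≤ (1 + K₀/2) Y ∏_{K < p ≤ y} (1 - 1/p) + Y^(1/2)`, because `P ⊆ PP K z`.
`∏_{K < p ≤ y} (1 - 1/p) = V y/∏_{p ≤ K} (1 - 1/p) ≤ 2^(K+1) V y ≤ 2^(K+1)/log y` (every factor `1 - 1/p ≥ 1/2`; `GT.V_le`).
`log y ≥ log(Y^(1/(2K₀))/2) ≥ (1/(8K₀)) log log X` for `X` large. `1/kap z ≤ C log z ≤ C B log log X` (`num_kap` in SG/Num or `GT.V_inv_le`; `kap z = GT.V z`: `PP 0 z = pr z`).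
Finally `Y^(1/2) ≤ Y/log log X` (`Y ≥ (log X)^(1/2)`). If `K ≥ y`: not possible for `X` large.
-/

set_option autoImplicit false

open Finset

namespace Pool.Agent.Lib.SH

open Pool.Agent.Lib.MT Pool.Agent.Lib.SG

private theorem BT9_prod (K y : ℕ) :
    ∏ p ∈ PP K y, (1 - 1 / (p : ℝ)) ≤ 2 ^ (K + 1) * GT.V y := by
  have e0 : PP K y = (GT.pr y).filter (fun p => K < p) := by
    ext p
    unfold PP GT.pr
    simp only [mem_filter, mem_range]
    tauto
  have e1 : GT.V y = (∏ p ∈ (GT.pr y).filter (fun p => K < p), (1 - 1 / (p : ℝ))) *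
      ∏ p ∈ (GT.pr y).filter (fun p => ¬ K < p), (1 - 1 / (p : ℝ)) := by
    unfold GT.V
    rw [prod_filter_mul_prod_filter_not]
  have hge : ∀ p ∈ GT.pr y, (1 : ℝ) / 2 ≤ 1 - 1 / (p : ℝ) := by
    intro p hp
    have h2 : (2 : ℝ) ≤ p := by exact_mod_cast (mem_filter.1 hp).2.two_le
    have : 1 / (p : ℝ) ≤ 1 / 2 := one_div_le_one_div_of_le (by norm_num) h2
    linarith
  have h1 : ((1 : ℝ) / 2) ^ (K + 1) ≤
      ∏ p ∈ (GT.pr y).filter (fun p => ¬ K < p), (1 - 1 / (p : ℝ)) := by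
    have hc : ((GT.pr y).filter (fun p => ¬ K < p)).card ≤ K + 1 := by
      have hsub : (GT.pr y).filter (fun p => ¬ K < p) ⊆ range (K + 1) := by
        intro p hp
        rw [mem_filter] at hp
        rw [mem_range]
        omega
      exact (card_le_card hsub).trans (by simp)
    calc ((1 : ℝ) / 2) ^ (K + 1) ≤ ((1 : ℝ) / 2) ^ ((GT.pr y).filter (fun p => ¬ K < p)).card :=
          pow_le_pow_of_le_one (by norm_num) (by norm_num) hc
      _ = ∏ p ∈ (GT.pr y).filter (fun p => ¬ K < p), ((1 : ℝ) / 2) := by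
          rw [prod_const]
      _ ≤ _ := prod_le_prod (fun p _ => by norm_num) (fun p hp => hge p (mem_filter.1 hp).1)
  have h2 : 0 ≤ ∏ p ∈ (GT.pr y).filter (fun p => K < p), (1 - 1 / (p : ℝ)) :=
    prod_nonneg fun p hp => by
      have := hge p (mem_filter.1 hp).1
      linarith
  rw [e0, e1]
  have h3 := mul_le_mul_of_nonneg_left h1 h2
  have h4 : (2 : ℝ) ^ (K + 1) * (1 / 2) ^ (K + 1) = 1 := by
    rw [← mul_pow]
    norm_num
  have h5 : (0 : ℝ) < 2 ^ (K + 1) := by positivity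
  calc ∏ p ∈ (GT.pr y).filter (fun p => K < p), (1 - 1 / (p : ℝ))
      = 2 ^ (K + 1) * ((∏ p ∈ (GT.pr y).filter (fun p => K < p), (1 - 1 / (p : ℝ))) *
        (1 / 2) ^ (K + 1)) := by
          rw [mul_left_comm, h4, mul_one]
    _ ≤ _ := mul_le_mul_of_nonneg_left h3 h5.le

private theorem BT9_count (K : ℕ) : ∃ C : ℝ, 0 < C ∧ ∃ L₀ : ℕ, 2 ≤ L₀ ∧ ∀ L : ℕ, L₀ ≤ L →
    ∀ z : ℕ, L ≤ z → ∀ x : ℕ, (Nt K z L x : ℝ) ≤ C * L / Real.log L := by
  classical
  obtain ⟨K₀, hK₀, hfl⟩ := GT.fund_lemma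
  have hKr : (1 : ℝ) ≤ K₀ := by exact_mod_cast hK₀
  refine ⟨(1 + K₀ / 2) * 2 ^ (K + 1) * (4 * K₀) + 2, by positivity, 2 ^ (2 * K₀), ?_, ?_⟩
  · calc 2 = 2 ^ 1 := by norm_num
      _ ≤ 2 ^ (2 * K₀) := Nat.pow_le_pow_right (by norm_num) (by omega)
  intro L hL z hLz x
  have hL2 : 2 ≤ L := by
    refine le_trans ?_ hL
    calc 2 = 2 ^ 1 := by norm_num
      _ ≤ 2 ^ (2 * K₀) := Nat.pow_le_pow_right (by norm_num) (by omega)
  have hLr : (2 : ℝ) ≤ L := by exact_mod_cast hL2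
  have hL0 : (0 : ℝ) < L := by linarith
  have hlL : 0 < Real.log L := Real.log_pos (by linarith)
  rw [le_div_iff₀ hlL]
  obtain ⟨y, hy⟩ : ∃ y : ℕ, y = ⌊(L : ℝ) ^ (1 / (2 * K₀) : ℝ)⌋₊ := ⟨_, rfl⟩
  have hexp : (0 : ℝ) < 1 / (2 * K₀) := by positivity
  have hyle : (y : ℝ) ≤ (L : ℝ) ^ (1 / (2 * K₀) : ℝ) := by
    rw [hy]
    exact Nat.floor_le (by positivity)
  have hylt : (L : ℝ) ^ (1 / (2 * K₀) : ℝ) < y + 1 := by
    rw [hy]
    exact Nat.lt_floor_add_one _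
  have hy2 : 2 ≤ y := by
    rw [hy]
    apply Nat.le_floor
    have h1 : ((2 : ℝ) ^ (2 * K₀)) ≤ L := by exact_mod_cast hL
    calc ((2 : ℕ) : ℝ) = ((2 : ℝ) ^ (2 * K₀)) ^ (1 / (2 * K₀) : ℝ) := by
          rw [← Real.rpow_natCast, ← Real.rpow_mul (by norm_num)]
          push_cast
          rw [mul_one_div_cancel (by positivity), Real.rpow_one]
      _ ≤ _ := Real.rpow_le_rpow (by positivity) h1 hexp.le
  have hyr : (2 : ℝ) ≤ y := by exact_mod_cast hy2
  have hlogy : Real.log L / (2 * K₀) ≤ Real.log ((y : ℝ) + 1) := by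
    have : Real.log ((L : ℝ) ^ (1 / (2 * K₀) : ℝ)) ≤ Real.log ((y : ℝ) + 1) :=
      Real.log_le_log (by positivity) hylt.le
    rw [Real.log_rpow hL0] at this
    calc Real.log L / (2 * K₀) = 1 / (2 * K₀) * Real.log L := by ring
      _ ≤ _ := this
  have hyL : y ≤ L := by
    have h1 : (L : ℝ) ^ (1 / (2 * K₀) : ℝ) ≤ (L : ℝ) ^ (1 : ℝ) := by
      refine Real.rpow_le_rpow_of_exponent_le (by linarith) ?_
      rw [div_le_one (by positivity)]
      linarith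
    rw [Real.rpow_one] at h1
    exact_mod_cast hyle.trans h1
  have hP : ∀ r ∈ PP K y, r.Prime ∧ r ≤ y := by
    intro r hr
    unfold PP at hr
    rw [mem_filter, mem_range] at hr
    exact ⟨hr.2.1, by omega⟩
  have h1 := hfl 1 le_rfl y hy2 (PP K y) hP (fun _ => {0}) (by
    intro r hr
    have h2 := (hP r hr).1.two_le
    refine ⟨by simp, by simp only [card_singleton]; omega, ?_⟩
    intro x hx
    rw [mem_singleton] at hx
    omega) (x + 1) L
  have hcard : Nt K z L x ≤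
      ((Finset.range L).filter (fun k => ∀ r ∈ PP K y, (x + 1 + k) % r ∉ ({0} : Finset ℕ))).card := by
    unfold Nt
    refine Finset.card_le_card_of_injOn (fun n => n - 1) ?_ ?_
    · intro n hn
      rw [mem_coe, mem_filter, mem_Icc] at hn
      rw [mem_coe, mem_filter, mem_range]
      refine ⟨by change n - 1 < L; omega, fun r hr => ?_⟩
      have e : x + 1 + (n - 1) = x + n := by omega
      change (x + 1 + (n - 1)) % r ∉ ({0} : Finset ℕ)
      rw [e, mem_singleton]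
      intro h0
      refine hn.2 r ?_ (Nat.dvd_of_mod_eq_zero h0)
      unfold PP at hr ⊢
      rw [mem_filter, mem_range] at hr ⊢
      exact ⟨by omega, hr.2⟩
    · intro a ha b hb hab
      rw [mem_coe, mem_filter, mem_Icc] at ha hb
      have hab' : a - 1 = b - 1 := hab
      omega
  have hcard' : (Nt K z L x : ℝ) ≤
      (((Finset.range L).filter (fun k => ∀ r ∈ PP K y, (x + 1 + k) % r ∉ ({0} : Finset ℕ))).card : ℝ) := by
    exact_mod_cast hcard
  have hprod : ∏ r ∈ PP K y, (1 - ((({0} : Finset ℕ)).card : ℝ) / r) =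
      ∏ p ∈ PP K y, (1 - 1 / (p : ℝ)) := by
    refine Finset.prod_congr rfl fun r _ => ?_
    simp
  rw [hprod] at h1
  have h2 := (abs_le.mp h1).2
  obtain ⟨W, hW⟩ : ∃ W : ℝ, W = ∏ p ∈ PP K y, (1 - 1 / (p : ℝ)) := ⟨_, rfl⟩
  rw [← hW] at h2
  have hW1 : W ≤ 2 ^ (K + 1) * (1 / Real.log y) := by
    rw [hW]
    exact (BT9_prod K y).trans (mul_le_mul_of_nonneg_left (GT.V_le y hy2) (by positivity))
  have hly : 0 < Real.log y := Real.log_pos (by linarith)
  have hlog4 : Real.log L ≤ 4 * K₀ * Real.log y := by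
    have h3 : Real.log ((y : ℝ) + 1) ≤ 2 * Real.log y := by
      have h4 : (y : ℝ) + 1 ≤ (y : ℝ) ^ 2 := by nlinarith
      calc Real.log ((y : ℝ) + 1) ≤ Real.log ((y : ℝ) ^ 2) := Real.log_le_log (by positivity) h4
        _ = 2 * Real.log y := by rw [Real.log_pow]; push_cast; ring
    have h4 := hlogy.trans h3
    rw [div_le_iff₀ (by positivity)] at h4
    nlinarith
  have hWlog : W * Real.log L ≤ 2 ^ (K + 1) * (4 * K₀) := by
    calc W * Real.log L ≤ (2 ^ (K + 1) * (1 / Real.log y)) * (4 * K₀ * Real.log y) :=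
          mul_le_mul hW1 hlog4 hlL.le (by positivity)
      _ = 2 ^ (K + 1) * (4 * K₀) := by field_simp
  have hpow : (y : ℝ) ^ (K₀ * 1) ≤ Real.sqrt L := by
    rw [mul_one]
    calc (y : ℝ) ^ K₀ ≤ ((L : ℝ) ^ (1 / (2 * K₀) : ℝ)) ^ K₀ := by gcongr
      _ = Real.sqrt L := by
        rw [← Real.rpow_natCast, ← Real.rpow_mul hL0.le, Real.sqrt_eq_rpow]
        congr 1
        field_simp
  have hsqrt : Real.sqrt L * Real.log L ≤ 2 * L := by
    have h5 := GT.log_le_two_sqrt L (by linarith)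
    have h6 := Real.mul_self_sqrt hL0.le
    calc Real.sqrt L * Real.log L ≤ Real.sqrt L * (2 * Real.sqrt L) :=
          mul_le_mul_of_nonneg_left h5 (Real.sqrt_nonneg _)
      _ = 2 * (Real.sqrt L * Real.sqrt L) := by ring
      _ = 2 * L := by rw [h6]
  have h7 : (Nt K z L x : ℝ) ≤ (1 + K₀ / 2) * (L * W) + Real.sqrt L := by
    have h8 : (K₀ : ℝ) * (1 / 2) ^ 1 * (L * W) = (K₀ / 2) * (L * W) := by ring
    rw [h8] at h2
    linarith
  have h9 : (Nt K z L x : ℝ) * Real.log L ≤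
      ((1 + K₀ / 2) * (L * W) + Real.sqrt L) * Real.log L :=
    mul_le_mul_of_nonneg_right h7 hlL.le
  have h10 : ((1 + (K₀ : ℝ) / 2) * (L * W) + Real.sqrt L) * Real.log L =
      (1 + K₀ / 2) * L * (W * Real.log L) + Real.sqrt L * Real.log L := by ring
  have h11 : (1 + (K₀ : ℝ) / 2) * L * (W * Real.log L) ≤
      (1 + K₀ / 2) * L * (2 ^ (K + 1) * (4 * K₀)) :=
    mul_le_mul_of_nonneg_left hWlog (by positivity)
  have h12 : ((1 + (K₀ : ℝ) / 2) * 2 ^ (K + 1) * (4 * K₀) + 2) * L =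
      (1 + K₀ / 2) * L * (2 ^ (K + 1) * (4 * K₀)) + 2 * L := by ring
  rw [h12]
  linarith

theorem bt9 (K B : ℕ) (hB : 1 ≤ B) : ∃ C : ℝ, 0 < C ∧ ∃ X₀ : ℕ, ∀ X : ℕ, X₀ ≤ X → ∀ (x H : ℕ) (Y : ℝ),
    (H : ℝ) ≤ Y → (Real.log X) ^ (1 / 2 : ℝ) ≤ Y → Y ≤ Real.log X →
    (Nt K (zX B X) H x : ℝ) ≤ C * kap (zX B X) * Y := by
  classical
  obtain ⟨C₁, hC₁, L₀, hL₀, hcnt⟩ := BT9_count K
  obtain ⟨C₂, hC₂, hkap⟩ := num_kap
  have hBr : (1 : ℝ) ≤ B := by exact_mod_cast hB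
  -- `X` large: `log X` tends to infinity
  have htend : Filter.Tendsto (fun X : ℕ => Real.log (X : ℝ)) Filter.atTop Filter.atTop :=
    Real.tendsto_log_atTop.comp tendsto_natCast_atTop_atTop
  have hev := (htend.eventually_ge_atTop (max ((L₀ + 1 : ℝ) ^ 2) 256))
  obtain ⟨X₀, hX₀⟩ := Filter.eventually_atTop.1 hev
  refine ⟨4 * C₁ * C₂ * B, by positivity, X₀, ?_⟩
  intro X hX x H Y hHY hY1 hY2
  have hX1 := hX₀ X hX
  obtain ⟨l, hl⟩ : ∃ l : ℝ, l = Real.log X := ⟨_, rfl⟩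
  rw [← hl] at hX1 hY1 hY2
  have hl1 : ((L₀ : ℝ) + 1) ^ 2 ≤ l := (le_max_left _ _).trans hX1
  have hl2 : (256 : ℝ) ≤ l := (le_max_right _ _).trans hX1
  have hl0 : 0 < l := by linarith
  have hsq : l ^ (1 / 2 : ℝ) = Real.sqrt l := (Real.sqrt_eq_rpow l).symm
  rw [hsq] at hY1
  have hs1 : (L₀ : ℝ) + 1 ≤ Real.sqrt l := by
    apply Real.le_sqrt_of_sq_le hl1
  have hs2 : (16 : ℝ) ≤ Real.sqrt l := by
    apply Real.le_sqrt_of_sq_le
    norm_num
    exact hl2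
  obtain ⟨L, hL⟩ : ∃ L : ℕ, L = ⌊Y⌋₊ := ⟨_, rfl⟩
  have hY0 : 0 ≤ Y := by linarith
  have hLY : (L : ℝ) ≤ Y := by
    rw [hL]
    exact Nat.floor_le hY0
  have hYL : Y < L + 1 := by
    rw [hL]
    exact Nat.lt_floor_add_one _
  have hL0L : L₀ ≤ L := by
    have : (L₀ : ℝ) < L + 1 := by linarith
    have h2 : L₀ < L + 1 := by exact_mod_cast this
    omega
  have hHL : H ≤ L := by
    rw [hL]
    exact Nat.le_floor hHY
  have hzdef : zX B X = ⌊l ^ B⌋₊ := by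
    rw [hl]
    rfl
  have hlB : l ≤ l ^ B := by
    calc l = l ^ 1 := (pow_one l).symm
      _ ≤ l ^ B := pow_le_pow_right₀ (by linarith) hB
  have hLz : L ≤ zX B X := by
    rw [hzdef, hL]
    exact Nat.floor_le_floor (hY2.trans hlB)
  have h1 : (Nt K (zX B X) H x : ℝ) ≤ Nt K (zX B X) L x := by
    have : Nt K (zX B X) H x ≤ Nt K (zX B X) L x := by
      unfold Nt
      apply card_le_card
      intro t ht
      rw [mem_filter, mem_Icc] at ht ⊢
      exact ⟨⟨ht.1.1, by omega⟩, ht.2⟩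
    exact_mod_cast this
  have h2 := hcnt L hL0L (zX B X) hLz x
  have hL2 : (2 : ℝ) ≤ L := by exact_mod_cast hL₀.trans hL0L
  have hlL : 0 < Real.log L := Real.log_pos (by linarith)
  have hll : 0 < Real.log l := Real.log_pos (by linarith)
  -- `log L ≥ (1/4) log l`
  have h3 : (1 / 4) * Real.log l ≤ Real.log L := by
    have f1 : Real.sqrt (Real.sqrt l) ≤ L := by
      have g1 : Real.sqrt l ≤ L + 1 := by linarith
      have g2 : 4 ≤ Real.sqrt (Real.sqrt l) := by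
        apply Real.le_sqrt_of_sq_le
        linarith
      have g3 := Real.mul_self_sqrt (Real.sqrt_nonneg l)
      nlinarith
    have f2 := Real.log_le_log (by positivity) f1
    rw [Real.log_sqrt (Real.sqrt_nonneg l), Real.log_sqrt hl0.le] at f2
    linarith
  have hz2 : 2 ≤ zX B X := (hL₀.trans hL0L).trans hLz
  have hk := (hkap (zX B X) hz2).2
  have hkpos := kap_pos (zX B X)
  have hzlog : Real.log (zX B X) ≤ B * Real.log l := by
    have f1 : ((zX B X : ℕ) : ℝ) ≤ l ^ B := by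
      rw [hzdef]
      exact Nat.floor_le (by positivity)
    have f2 : (0 : ℝ) < ((zX B X : ℕ) : ℝ) := by
      have : (2 : ℝ) ≤ ((zX B X : ℕ) : ℝ) := by exact_mod_cast hz2
      linarith
    have f3 := Real.log_le_log f2 f1
    rwa [Real.log_pow] at f3
  have h4 : 1 ≤ kap (zX B X) * (C₂ * (B * Real.log l)) := by
    have f1 : (kap (zX B X))⁻¹ ≤ C₂ * (B * Real.log l) :=
      hk.trans (mul_le_mul_of_nonneg_left hzlog (by linarith))
    have f2 := mul_le_mul_of_nonneg_left f1 hkpos.le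
    rwa [mul_inv_cancel₀ hkpos.ne'] at f2
  calc (Nt K (zX B X) H x : ℝ) ≤ C₁ * L / Real.log L := h1.trans h2
    _ ≤ C₁ * Y / ((1 / 4) * Real.log l) := by
        apply div_le_div₀ (by positivity) _ (by positivity) h3
        exact mul_le_mul_of_nonneg_left hLY hC₁.le
    _ = (4 * C₁ * Y / Real.log l) * 1 := by
        field_simp
    _ ≤ (4 * C₁ * Y / Real.log l) * (kap (zX B X) * (C₂ * (B * Real.log l))) :=
        mul_le_mul_of_nonneg_left h4 (by positivity)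
    _ = 4 * C₁ * C₂ * B * kap (zX B X) * Y := by
        field_simp

end Pool.Agent.Lib.SH
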