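import Pool.Agent.Lib.SH.Stp8
import Pool.Agent.Lib.SG.Swp7
import Pool.Agent.Lib.SG.Per

/-!
# SH-Bad8: the two applications of the cluster inequality (helper10)
-/

set_option autoImplicit false

open Finset

namespace Pool.Agent.Lib.SH

open Pool.Agent.Lib.MT Pool.Agent.Lib.SG

private theorem bad8_supp {k : ℕ} (A : Set ℕ) (h : Fin k → ℕ) (w : ℕ → ℝ) (n : ℕ)
    (hn : am A h w n ≠ 0) : n ∈ A ∧ n.Prime := by
  by_contra hc
  apply hn
  unfold am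
  refine sum_eq_zero fun i _ => ?_
  rw [if_neg]
  rintro ⟨_, h2, h3⟩
  exact hc ⟨h2, h3⟩

theorem ups8 {k : ℕ} (X c a : ℕ) (hX : 1 ≤ X) (hlog : 1 ≤ Real.log X) (E : Finset ℕ)
    (hE : E ⊆ range (8 * X)) (A B : Set ℕ) (hrep : ∀ s ∈ E, (rep A B s : ℝ) ≤ X / (Real.log X) ^ (2 * c + 2 * a))
    (h h' : Fin k → ℕ) (hh : ∀ i, h i ≤ X) (hh' : ∀ i, h' i ≤ X) (w w' : ℕ → ℝ) (hw0 : ∀ x, 0 ≤ w x)
    (hw0' : ∀ x, 0 ≤ w' x) (hw : ∀ x, x ∉ Ioc X (2 * X) → w x = 0) (hw' : ∀ x, x ∉ Ioc X (2 * X) → w' x = 0)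
    (hl : ∑ x ∈ Ioc X (2 * X), (w x) ^ 2 ≤ X * (Real.log X) ^ c)
    (hl' : ∑ x ∈ Ioc X (2 * X), (w' x) ^ 2 ≤ X * (Real.log X) ^ c) :
    ∑ n ∈ Ioc X (3 * X), am A h w n * cor E (am B h' w') n ≤ 3 * k ^ 2 * X ^ 2 / (Real.log X) ^ a := by
  obtain ⟨-, a2, -, -, a5⟩ := am_supp A h w X hh hw hw0
  obtain ⟨b1, b2, -, -, b5⟩ := am_supp B h' w' X hh' hw' hw0'
  have h0 := ups X E A B (am A h w) (am B h' w') a2 b2 (bad8_supp A h w) (bad8_supp B h' w') b1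
  have hXR : (1 : ℝ) ≤ X := by exact_mod_cast hX
  obtain ⟨L, hL⟩ : ∃ L : ℝ, L = Real.log X := ⟨_, rfl⟩
  rw [← hL] at hrep hl hl' hlog ⊢
  have hL0 : 0 < L := by linarith
  have hk0 : (0 : ℝ) ≤ k := Nat.cast_nonneg k
  have h1 : ∑ s ∈ E, (rep A B s : ℝ) ≤ 8 * X * (X / L ^ (2 * c + 2 * a)) := by
    calc ∑ s ∈ E, (rep A B s : ℝ) ≤ ∑ _s ∈ E, X / L ^ (2 * c + 2 * a) := sum_le_sum hrep
      _ = E.card * (X / L ^ (2 * c + 2 * a)) := by rw [sum_const, nsmul_eq_mul]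
      _ ≤ 8 * X * (X / L ^ (2 * c + 2 * a)) := by
          refine mul_le_mul_of_nonneg_right ?_ (by positivity)
          have h2 := card_le_card hE
          rw [card_range] at h2
          exact_mod_cast h2
  have h2 : ∑ n ∈ Ioc X (3 * X), (am A h w n) ^ 2 ≤ k ^ 2 * (X * L ^ c) :=
    a5.trans (mul_le_mul_of_nonneg_left hl (by positivity))
  have h3 : ∑ n ∈ Ioc X (3 * X), (am B h' w' n) ^ 2 ≤ k ^ 2 * (X * L ^ c) :=
    b5.trans (mul_le_mul_of_nonneg_left hl' (by positivity))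
  have h4 : (∑ n ∈ Ioc X (3 * X), am A h w n * cor E (am B h' w') n) ^ 2 ≤
      (3 * k ^ 2 * X ^ 2 / L ^ a) ^ 2 := by
    refine h0.trans ?_
    calc _ ≤ (8 * X * (X / L ^ (2 * c + 2 * a))) * ((k ^ 2 * (X * L ^ c)) * (k ^ 2 * (X * L ^ c))) := by
          refine mul_le_mul h1 (mul_le_mul h2 h3 (sum_nonneg fun _ _ => sq_nonneg _) (by positivity))
            (mul_nonneg (sum_nonneg fun _ _ => sq_nonneg _) (sum_nonneg fun _ _ => sq_nonneg _))
            (by positivity)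
      _ = 8 * k ^ 4 * X ^ 4 / (L ^ a) ^ 2 := by
          have e1 : L ^ (2 * c + 2 * a) = (L ^ c) ^ 2 * (L ^ a) ^ 2 := by
            rw [pow_add, ← pow_mul, ← pow_mul, mul_comm c 2, mul_comm a 2]
          rw [e1]
          field_simp
      _ ≤ (3 * k ^ 2 * X ^ 2 / L ^ a) ^ 2 := by
          rw [div_pow]
          apply div_le_div_of_nonneg_right _ (by positivity)
          have : 0 ≤ (k : ℝ) ^ 4 * X ^ 4 := by positivity
          nlinarith
  exact le_of_sq_le_sq h4 (by positivity)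

theorem bad8 {m k H z X c a : ℕ} (hm : 1 ≤ m) (hk : 1 ≤ k) (hX : 1 ≤ X) (hHX : H ≤ X)
    (hlog : 1 ≤ Real.log X) (Ω : ℕ → Finset ℕ) (h : Fin k → ℕ)
    (hinj : Function.Injective h) (hh : ∀ i, 1 ≤ h i ∧ h i ≤ H) (w : ℕ → ℝ) (v : Fin k → ℕ → ℝ)
    (u : ℕ → ℕ → ℝ) (M : ℝ) (M' : Fin k → ℝ) (M'' : ℕ → ℝ) (κ : ℝ) (hκ : 0 ≤ κ)
    (hκ1 : (m + k * H) * κ ≤ 1) (hW : Wh m k H z X c a Ω h w v u M M' M'' κ)
    (A : Set ℕ) (hA : Hit m H (2 * X) A) (hρ : ∀ x, 0 ≤ SG.mu Ω z X x)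
    (E : Finset ℕ) (W : ℕ → ℝ) (hW0 : ∀ n, 0 ≤ W n)
    (hWs : ∀ n, n ∉ Ioc X (3 * X) → W n = 0)
    (U : ℝ) (hU : 0 < U) (hWU : ∑ j ∈ Ioc X (3 * X), W j ≤ U) (Q : ℝ) (hQ : 0 ≤ Q)
    (hWn : Wn X Q (cor E W)) :
    ∑ x ∈ Ioc X (2 * X), SG.mu Ω z X x * ∏ i, (cor E W (x + h i) / U) ≤
      k / U * ∑ n ∈ Ioc X (3 * X), am A h w n * cor E W n +
        (k + m + k * H) * ((Q / U) ^ k * (X / (Real.log X) ^ a)) := by
  classical
  have hφ0 : ∀ n, 0 ≤ cor E W n / U := fun n => div_nonneg (cor_le X E W hW0 hWs n).1 hU.le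
  have hφ1 : ∀ n, cor E W n / U ≤ 1 := fun n =>
    (div_le_one hU).2 ((cor_le X E W hW0 hWs n).2.trans hWU)
  have hhX : ∀ i, h i ≤ X := fun i => (hh i).2.trans hHX
  have hWn' : Wn X (Q / U) (fun n => cor E W n / U) := by
    have h1 := wn_smul X Q U⁻¹ (inv_nonneg.2 hU.le) _ hWn
    have h2 : (fun n => U⁻¹ * cor E W n) = fun n => cor E W n / U := by
      funext n
      rw [div_eq_inv_mul]
    rw [h2, ← div_eq_inv_mul] at h1
    exact h1
  have main := stp8 hm hk Ω h hinj hh w v u M M' M'' κ hκ hκ1 hW A hA hρ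
    (fun x => ∏ i, (cor E W (x + h i) / U)) (fun x => prod_nonneg fun _ _ => hφ0 _) ((Q / U) ^ k)
    (by positivity) (by linarith) (by
      intro D δ hD
      have h1 := wn_prod X (Q / U) (fun n => cor E W n / U) hWn' (univ : Finset (Fin k)) h hhX D δ hD
      rw [card_univ, Fintype.card_fin] at h1
      exact wn_sum X _ _ h1)
  refine main.trans ?_
  -- the part on the primes of `A`
  have hws : ∀ x, x ∉ Ioc X (2 * X) → w x = 0 := by
    intro x hx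
    refine hW.ws x fun h1 => hx ?_
    unfold Pre at h1
    exact (mem_filter.1 h1).1
  have hfa : ∀ i x, 0 ≤ fa A h w i x := by
    intro i x
    unfold fa
    split_ifs
    · exact hW.w0 x
    · exact le_refl _
  have h1 : ∀ i : Fin k, ∑ x ∈ Ioc X (2 * X), fa A h w i x * ∏ j, (cor E W (x + h j) / U) ≤
      1 / U * ∑ x ∈ Ioc X (2 * X), fa A h w i x * cor E W (x + h i) := by
    intro i
    rw [mul_sum]
    refine sum_le_sum fun x _ => ?_
    have h3 : ∏ j, (cor E W (x + h j) / U) ≤ cor E W (x + h i) / U := by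
      rw [← mul_prod_erase univ _ (mem_univ i)]
      calc cor E W (x + h i) / U * ∏ j ∈ univ.erase i, (cor E W (x + h j) / U) ≤
            cor E W (x + h i) / U * 1 :=
            mul_le_mul_of_nonneg_left (prod_le_one (fun _ _ => hφ0 _) fun _ _ => hφ1 _) (hφ0 _)
        _ = _ := mul_one _
    calc fa A h w i x * ∏ j, (cor E W (x + h j) / U) ≤
          fa A h w i x * (cor E W (x + h i) / U) :=
          mul_le_mul_of_nonneg_left h3 (hfa i x)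
      _ = _ := by ring
  have h2 : ∑ i, ∑ x ∈ Ioc X (2 * X), fa A h w i x * ∏ j, (cor E W (x + h j) / U) ≤
      1 / U * ∑ n ∈ Ioc X (3 * X), am A h w n * cor E W n := by
    refine (sum_le_sum fun i _ => h1 i).trans (le_of_eq ?_)
    rw [(am_supp A h w X hhX hws hW.w0).2.2.1 (cor E W), ← mul_sum]
  have hk0 : (0 : ℝ) ≤ k := Nat.cast_nonneg k
  have h3 := mul_le_mul_of_nonneg_left h2 hk0
  have h4 : (k : ℝ) * (1 / U * ∑ n ∈ Ioc X (3 * X), am A h w n * cor E W n) =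
      k / U * ∑ n ∈ Ioc X (3 * X), am A h w n * cor E W n := by ring
  linarith

theorem goo8 {m k H z X c a : ℕ} (hm : 1 ≤ m) (hk : 1 ≤ k) (hX : 1 ≤ X)
    (hlog : 1 ≤ Real.log X) (Ω : ℕ → Finset ℕ) (h h' : Fin k → ℕ) (H₀ : ℕ) (hhh : ∀ i, h' i + h i = H₀)
    (hH₀ : H₀ ≤ X) (hinj : Function.Injective h') (hh' : ∀ i, 1 ≤ h' i ∧ h' i ≤ H) (w : ℕ → ℝ)
    (v : Fin k → ℕ → ℝ) (u : ℕ → ℕ → ℝ) (M : ℝ) (M' : Fin k → ℝ) (M'' : ℕ → ℝ) (κ : ℝ) (hκ : 0 ≤ κ)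
    (hκ1 : (m + k * H) * κ ≤ 1) (hW : Wh m k H z X c a Ω h' w v u M M' M'' κ)
    (B : Set ℕ) (hB : Hit m H (2 * X) B) (hρ : ∀ x, 0 ≤ SG.mu Ω z X x)
    (hρ2 : ∑ x ∈ Ioc X (2 * X), (SG.mu Ω z X x) ^ 2 ≤ X * Real.log X)
    (f : ℕ → ℝ) (hf : ∀ x, 0 ≤ f x ∧ f x ≤ SG.mu Ω z X x)
    (E : Finset ℕ) (hE : E ⊆ range (8 * X)) (W : ℕ → ℝ) (hWW : ∀ n, am B h' w n ≤ W n)
    (τ : ℝ) (hτ : ∀ x, f x ≠ 0 → ∀ i, cor E W (x + h i) ≤ τ * X) :
    ∑ x ∈ Ioc X (2 * X), SG.mu Ω z X x * cor E f (x + H₀) ≤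
      k ^ 2 * τ * X * ∑ x ∈ Ioc X (2 * X), f x +
        (k + m + k * H) * (3 * X * Real.log X * (X / (Real.log X) ^ a)) := by
  classical
  have hXR : (1 : ℝ) ≤ X := by exact_mod_cast hX
  have hX0 : (0 : ℝ) < X := by linarith
  have hk0 : (0 : ℝ) ≤ k := Nat.cast_nonneg k
  have hρs : ∀ x, x ∉ Ioc X (2 * X) → SG.mu Ω z X x = 0 := by
    intro x hx
    unfold SG.mu
    rw [if_neg]
    exact fun hx' => hx (mem_filter.1 hx').1
  have hws : ∀ x, x ∉ Ioc X (2 * X) → w x = 0 := by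
    intro x hx
    exact hW.ws x fun hx' => hx (mem_filter.1 hx').1
  have hfs : ∀ x, x ∉ Ioc X (2 * X) → f x = 0 := by
    intro x hx
    have h1 := (hf x).2
    rw [hρs x hx] at h1
    exact le_antisymm h1 (hf x).1
  have hfs3 : ∀ x, x ∉ Ioc X (3 * X) → f x = 0 := by
    intro x hx
    apply hfs
    rw [mem_Ioc] at hx ⊢
    omega
  have hf2 : ∑ n ∈ Ioc X (3 * X), (f n) ^ 2 ≤ X * Real.log X := by
    have h3 : ∑ x ∈ Ioc X (3 * X), (f x) ^ 2 = ∑ x ∈ Ioc X (2 * X), (f x) ^ 2 := by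
      symm
      refine sum_subset ?_ fun x _ hx => by rw [hfs x hx]; norm_num
      intro x hx
      rw [mem_Ioc] at hx ⊢
      omega
    rw [h3]
    refine le_trans (sum_le_sum fun x _ => ?_) hρ2
    exact pow_le_pow_left₀ (hf x).1 (hf x).2 2
  have hWn := wn_cor X hX E hE f hfs3 (X * Real.log X) hf2
  have hWn' : Wn X (3 * X * Real.log X) (cor E f) := by
    refine wn_mono X _ _ ?_ _ hWn
    have h1 : (E.card : ℝ) ≤ 8 * X := by
      have := card_le_card hE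
      rw [card_range] at this
      exact_mod_cast this
    have h2 : (E.card : ℝ) * (X * Real.log X) ≤ (3 * X * Real.log X) ^ 2 := by
      calc (E.card : ℝ) * (X * Real.log X) ≤ 8 * X * (X * Real.log X) := by gcongr
        _ = 8 * X ^ 2 * (Real.log X * 1) := by ring
        _ ≤ 9 * X ^ 2 * (Real.log X * Real.log X) := by
            gcongr
            norm_num
        _ = (3 * X * Real.log X) ^ 2 := by ring
    have h3 := Real.sqrt_le_sqrt h2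
    rwa [Real.sqrt_sq (by positivity)] at h3
  have hcor0 : ∀ n, 0 ≤ cor E f n := fun n => (cor_le X E f (fun x => (hf x).1) hfs3 n).1
  have hst := stp8 hm hk Ω h' hinj hh' w v u M M' M'' κ hκ hκ1 hW B hB hρ
    (fun x => cor E f (x + H₀)) (fun x => hcor0 _) (3 * X * Real.log X)
    (by positivity) (by linarith) (by
      intro D δ hD
      exact wn_sum X _ _ (hWn' H₀ D δ hH₀ hD))
  refine hst.trans ?_
  have hin : ∀ i, ∑ x ∈ Ioc X (2 * X), fa B h' w i x * cor E f (x + H₀) ≤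
      τ * X * ∑ x ∈ Ioc X (2 * X), f x := by
    intro i
    refine (swp7 X H₀ E B h h' hhh w f hW.w0 (fun x => (hf x).1) hws hfs i).trans ?_
    rw [mul_sum]
    refine sum_le_sum fun x _ => ?_
    by_cases hx : f x = 0
    · rw [hx]
      simp
    · rw [mul_comm (τ * X)]
      apply mul_le_mul_of_nonneg_left _ (hf x).1
      refine le_trans ?_ (hτ x hx i)
      unfold cor
      refine sum_le_sum fun s _ => ?_
      split_ifs
      · exact hWW _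
      · exact le_rfl
  have hin2 : ∑ i, ∑ x ∈ Ioc X (2 * X), fa B h' w i x * cor E f (x + H₀) ≤
      k * (τ * X * ∑ x ∈ Ioc X (2 * X), f x) := by
    refine (sum_le_sum fun i _ => hin i).trans (le_of_eq ?_)
    rw [sum_const, card_univ, Fintype.card_fin, nsmul_eq_mul]
  have e2 := mul_le_mul_of_nonneg_left hin2 hk0
  have e3 : (k : ℝ) * (k * (τ * X * ∑ x ∈ Ioc X (2 * X), f x)) =
      k ^ 2 * τ * X * ∑ x ∈ Ioc X (2 * X), f x := by ring
  linarith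

end Pool.Agent.Lib.SH
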