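import Pool.Agent.Lib.SH.Tup9
import Pool.Agent.Lib.SG.Sing7
import Pool.Agent.Lib.SG.RNum6

/-!
# SH-Sng9: sums of two rough numbers in (X, 2X] (helper10)
-/

set_option autoImplicit false

open Finset

namespace Pool.Agent.Lib.SH

open Pool.Agent.Lib.MT Pool.Agent.Lib.SG

/-- the normalised rough numbers in `(X, 2X]` -/
noncomputable def rI (z X n : ℕ) : ℝ := if n ∈ Ioc X (2 * X) then rz z n else 0

private theorem sng9_fac : (2 * 1).factorial = 2 := by decide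

private theorem sng9_card (p : ℕ) (hp : 0 < p) : (Om (gt 1) p).card = 1 := by
  refine le_antisymm (tup9_cardOm (gt 1) p) ?_
  rw [Nat.one_le_iff_ne_zero, ← Nat.pos_iff_ne_zero, card_pos]
  obtain ⟨a, ha⟩ : ∃ a, a = gt 1 0 := ⟨_, rfl⟩
  refine ⟨(p - a % p) % p, (tup9_memOm _ _ _).2 ⟨Nat.mod_lt _ hp, 0, ?_⟩⟩
  rw [← ha]
  have h1 : (p - a % p) % p + a ≡ (p - a % p) + a % p [MOD p] :=
    Nat.ModEq.add (Nat.mod_modEq _ _) (Nat.mod_modEq a p).symm
  have h2 : (p - a % p) + a % p = p := Nat.sub_add_cancel (Nat.mod_lt _ hp).le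
  rw [h2] at h1
  have h3 : p ≡ 0 [MOD p] := by
    rw [Nat.modEq_zero_iff_dvd]
  exact Nat.modEq_zero_iff_dvd.mp (h1.trans h3)

private theorem sng9_V (z : ℕ) : V1 (Om (gt 1)) z = kap z := by
  unfold V1 kap
  refine prod_congr rfl fun p hp => ?_
  have hp0 : 0 < p := (mem_filter.mp hp).2.1.pos
  rw [sng9_card p hp0, Nat.cast_one]

private theorem sng9_gt (i : Fin 1) : gt 1 i = 2 := by
  unfold gt
  rw [sng9_fac]
  have : (i : ℕ) = 0 := by omega
  rw [this]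

private theorem sng9_mu (z X x : ℕ) : SG.mu (Om (gt 1)) z X x = if x ∈ Ioc X (2 * X) then rz z (x + 2) else 0 := by
  unfold SG.mu
  rw [sng9_V]
  by_cases h1 : x ∈ Ioc X (2 * X)
  · rw [if_pos h1]
    unfold rz
    by_cases h2 : ∀ p ∈ PP 0 z, ¬ p ∣ x + 2
    · rw [if_pos h2, if_pos]
      rw [tup9_pre]
      refine ⟨h1, fun i => ?_⟩
      rw [sng9_gt]
      exact h2
    · rw [if_neg h2, if_neg]
      rw [tup9_pre]
      rintro ⟨-, h3⟩
      have h4 := h3 0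
      rw [sng9_gt] at h4
      exact h2 h4
  · rw [if_neg h1, if_neg]
    rw [tup9_pre]
    exact fun h => h1 h.1

theorem sng9_rz (z n : ℕ) : 0 ≤ rz z n ∧ rz z n ≤ (kap z)⁻¹ := by
  have h : 0 < (kap z)⁻¹ := inv_pos.2 (kap_pos z)
  unfold rz
  split_ifs
  · exact ⟨h.le, le_rfl⟩
  · exact ⟨le_rfl, h.le⟩

theorem sng9 : ∃ c₀ : ℝ, 0 < c₀ ∧ ∀ B : ℕ, ∃ X₀ : ℕ, ∀ X z : ℕ, X₀ ≤ X → 2 ≤ z →
    (z : ℝ) ≤ (Real.log X) ^ B → ∀ s : ℕ, Even s → 2 * X + X / 8 ≤ s → s + X / 8 ≤ 4 * X →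
    c₀ * X ≤ ∑ n ∈ Ioc X (2 * X), rz z n * (if n ≤ s then rI z X (s - n) else 0) := by
  obtain ⟨c₀, hc₀, hs⟩ := sing7 1 le_rfl
  refine ⟨c₀ / 2, by positivity, fun B => ?_⟩
  obtain ⟨X₁, h1⟩ := hs B
  obtain ⟨X₂, h2⟩ := kap_low B
  have h3 := RNum6_log.eventually_ge_atTop 1
  have h4 := RNum6_pow (8 / c₀) 1 one_pos 2
  obtain ⟨X₃, h5⟩ := Filter.eventually_atTop.mp (h3.and h4)
  refine ⟨max (max X₁ X₂) (max X₃ 100), fun X z hX hz hzB s hev hs1 hs2 => ?_⟩
  simp only [max_le_iff] at hX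
  obtain ⟨⟨hX1, hX2⟩, hX3, hX4⟩ := hX
  have g1 := h1 X z hX1 hz hzB s hev hs1 hs2
  have g2 := h2 X z hX2 hzB
  obtain ⟨g3, g4⟩ := h5 X hX3
  rw [Real.rpow_one] at g4
  have hL0 : 0 < Real.log X := by linarith
  have hκ := kap_pos z
  obtain ⟨M, hM⟩ : ∃ M : ℝ, M = (kap z)⁻¹ := ⟨_, rfl⟩
  have hM0 : 0 ≤ M := by
    rw [hM]
    positivity
  have hML : M ≤ Real.log X := by
    rw [hM, inv_le_comm₀ hκ hL0, ← one_div]
    refine le_trans ?_ g2
    refine one_div_le_one_div_of_le (Real.rpow_pos_of_pos hL0 _) ?_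
    calc (Real.log X) ^ (1 / 2 : ℝ) ≤ (Real.log X) ^ (1 : ℝ) :=
          Real.rpow_le_rpow_of_exponent_le g3 (by norm_num)
      _ = _ := Real.rpow_one _
  have hrM : ∀ n, rz z n ≤ M := fun n => by
    rw [hM]
    exact (sng9_rz z n).2
  have hr0 : ∀ n, 0 ≤ rz z n := fun n => (sng9_rz z n).1
  have e4 : (1 + 1) * (2 * 1).factorial = 4 := by rw [sng9_fac]
  rw [e4] at g1
  obtain ⟨G, hG⟩ : ∃ G : ℕ → ℝ, G = fun n => if n ∈ Ioc X (2 * X) then
    rz z n * (if n ≤ s then rI z X (s - n) else 0) else 0 := ⟨_, rfl⟩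
  have hGx : ∀ n, G n = if n ∈ Ioc X (2 * X) then
    rz z n * (if n ≤ s then rI z X (s - n) else 0) else 0 := fun n => by rw [hG]
  have hG0 : ∀ n, 0 ≤ G n := fun n => by
    rw [hGx]
    split_ifs
    · refine mul_nonneg (hr0 _) ?_
      unfold rI
      split_ifs
      · exact hr0 _
      · exact le_rfl
    · rw [mul_zero]
    · exact le_rfl
  obtain ⟨Q, hQ⟩ : ∃ Q : Finset ℕ, Q = {2 * X - 1, 2 * X, s - 4 - (2 * X - 1), s - 4 - 2 * X} := ⟨_, rfl⟩
  have hpt : ∀ x ∈ Ioc X (2 * X), SG.mu (Om (gt 1)) z X x *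
      (if x + 4 ≤ s then SG.mu (Om (gt 1)) z X (s - (x + 4)) else 0) ≤
      G (x + 2) + (if x ∈ Q then M ^ 2 else 0) := by
    intro x hx
    have hx' := mem_Ioc.mp hx
    have hq0 : (0 : ℝ) ≤ if x ∈ Q then M ^ 2 else 0 := by
      split_ifs
      · positivity
      · exact le_rfl
    rw [sng9_mu, if_pos hx, sng9_mu]
    by_cases c1 : x + 4 ≤ s
    · rw [if_pos c1]
      by_cases c2 : s - (x + 4) ∈ Ioc X (2 * X)
      · rw [if_pos c2]
        have c2' := mem_Ioc.mp c2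
        by_cases c3 : x ∈ Q
        · rw [if_pos c3]
          have : rz z (x + 2) * rz z (s - (x + 4) + 2) ≤ M * M :=
            mul_le_mul (hrM _) (hrM _) (hr0 _) hM0
          have h6 := hG0 (x + 2)
          nlinarith
        · rw [if_neg c3, add_zero, hGx]
          have c4 : x ≠ 2 * X - 1 ∧ x ≠ 2 * X ∧ x ≠ s - 4 - (2 * X - 1) ∧ x ≠ s - 4 - 2 * X := by
            rw [hQ] at c3
            simp only [mem_insert, mem_singleton, not_or] at c3
            exact c3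
          have c5 : x + 2 ∈ Ioc X (2 * X) := by
            rw [mem_Ioc]
            omega
          have c6 : s - (x + 2) ∈ Ioc X (2 * X) := by
            rw [mem_Ioc]
            omega
          rw [if_pos c5, if_pos (by omega)]
          unfold rI
          rw [if_pos c6, show s - (x + 4) + 2 = s - (x + 2) by omega]
      · rw [if_neg c2, mul_zero]
        linarith [hG0 (x + 2)]
    · rw [if_neg c1, mul_zero]
      linarith [hG0 (x + 2)]
  have hsum1 : ∑ x ∈ Ioc X (2 * X), G (x + 2) ≤ ∑ n ∈ Ioc X (2 * X), G n := by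
    have e1 : ∑ x ∈ Ioc X (2 * X), G (x + 2) = ∑ n ∈ (Ioc X (2 * X)).image (fun x => x + 2), G n := by
      rw [sum_image (fun a _ b _ hab => Nat.add_right_cancel hab)]
    rw [e1]
    have e2 : ∑ n ∈ (Ioc X (2 * X)).image (fun x => x + 2), G n =
        ∑ n ∈ ((Ioc X (2 * X)).image (fun x => x + 2)).filter (fun n => n ∈ Ioc X (2 * X)), G n := by
      rw [sum_filter]
      refine sum_congr rfl fun n _ => ?_
      split_ifs with h6
      · rfl
      · rw [hGx, if_neg h6]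
    rw [e2]
    refine sum_le_sum_of_subset_of_nonneg ?_ fun n _ _ => hG0 n
    intro n hn
    exact (mem_filter.mp hn).2
  have hsum2 : ∑ x ∈ Ioc X (2 * X), (if x ∈ Q then M ^ 2 else 0) ≤ 4 * M ^ 2 := by
    rw [← sum_filter, sum_const, nsmul_eq_mul]
    refine mul_le_mul_of_nonneg_right ?_ (by positivity)
    have h6 : ((Ioc X (2 * X)).filter (fun x => x ∈ Q)).card ≤ 4 := by
      refine (card_le_card (t := Q) ?_).trans ?_
      · intro x hx
        exact (mem_filter.mp hx).2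
      · rw [hQ]
        exact card_le_four
    exact_mod_cast h6
  have hsum3 : ∑ n ∈ Ioc X (2 * X), G n =
      ∑ n ∈ Ioc X (2 * X), rz z n * (if n ≤ s then rI z X (s - n) else 0) := by
    refine sum_congr rfl fun n hn => ?_
    rw [hGx, if_pos hn]
  have hfin := (g1.trans (sum_le_sum hpt))
  rw [sum_add_distrib] at hfin
  rw [← hsum3]
  have g5 : 4 * M ^ 2 ≤ c₀ / 2 * X := by
    have g6 : M ^ 2 ≤ (Real.log X) ^ 2 := pow_le_pow_left₀ hM0 hML 2
    rw [div_mul_eq_mul_div, div_le_iff₀ hc₀] at g4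
    nlinarith
  linarith

end Pool.Agent.Lib.SH
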