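import Pool.Agent.Lib.SH.Core9
import Pool.Agent.Lib.SH.Sng9
import Pool.Agent.Lib.SG.Mumass7
import Pool.Agent.Lib.SG.Swp7
import Pool.Agent.Lib.SG.Per

/-!
# SH-Bin9: one scale, the binary problem (helper10)
-/

set_option autoImplicit false

open Finset

namespace Pool.Agent.Lib.SH

open Pool.Agent.Lib.MT Pool.Agent.Lib.SG

private def bin9_Om (p : ℕ) : Finset ℕ := if p = 0 then ∅ else {0}

private theorem bin9_nice : Nice 1 bin9_Om := by
  refine ⟨fun p => ?_, fun p _ => ?_, fun p c hc => ?_⟩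
  · unfold bin9_Om
    split_ifs <;> simp
  · unfold bin9_Om
    split_ifs <;> simp
  · unfold bin9_Om at hc
    split_ifs at hc with h
    · simp at hc
    · rw [mem_singleton] at hc
      omega

private theorem bin9_mu (z X x : ℕ) (hx : x ∈ Ioc X (2 * X)) : SG.mu bin9_Om z X x = rz z x := by
  have hV : V1 bin9_Om z = kap z := by
    unfold V1 kap
    refine prod_congr rfl fun p hp => ?_
    have hp0 : p ≠ 0 := (mem_filter.mp hp).2.1.ne_zero
    unfold bin9_Om
    rw [if_neg hp0, card_singleton, Nat.cast_one]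
  unfold SG.mu rz
  rw [hV]
  refine if_congr ?_ rfl rfl
  unfold Pre
  rw [mem_filter]
  constructor
  · rintro ⟨-, h1⟩ p hp hd
    have hp0 : p ≠ 0 := (mem_filter.mp hp).2.1.ne_zero
    refine h1 p hp ?_
    unfold bin9_Om
    rw [if_neg hp0, mem_singleton]
    exact Nat.mod_eq_zero_of_dvd hd
  · intro h1
    refine ⟨hx, fun p hp hm => ?_⟩
    have hp0 : p ≠ 0 := (mem_filter.mp hp).2.1.ne_zero
    unfold bin9_Om at hm
    rw [if_neg hp0, mem_singleton] at hm
    exact h1 p hp (Nat.dvd_of_mod_eq_zero hm)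

/-- the mass of the rough numbers -/
private theorem bin9_mass (B : ℕ) : ∃ X₀ : ℕ, ∀ X z : ℕ, X₀ ≤ X → 2 ≤ z → (z : ℝ) ≤ (Real.log X) ^ B →
    ∑ n ∈ Ioc X (2 * X), rz z n ≤ 2 * X := by
  obtain ⟨X₁, h1⟩ := mumass7 1 B
  obtain ⟨X₂, h2⟩ := Filter.eventually_atTop.mp (RNum6_log.eventually_ge_atTop 1)
  refine ⟨max X₁ X₂, fun X z hX hz hzB => ?_⟩
  rw [max_le_iff] at hX
  have h3 := h1 X z hX.1 hz hzB bin9_Om bin9_nice
  have h4 := h2 X hX.2
  rw [sum_congr rfl fun n hn => bin9_mu z X n hn, abs_le] at h3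
  have h5 : (X : ℝ) / Real.log X ≤ X := div_le_self (Nat.cast_nonneg _) h4
  linarith [h3.2]

/-- Chebyshev -/
private theorem bin9_cheb (X : ℕ) (hX : 1 ≤ X) (hL : 0 < Real.log X) :
    (((Ioc X (3 * X)).filter Nat.Prime).card : ℝ) ≤ 5 * X / Real.log X := by
  have h1 := Chebyshev.theta_le_log4_mul_x (x := ((3 * X : ℕ) : ℝ)) (Nat.cast_nonneg _)
  rw [Chebyshev.theta_eq_sum_Icc, Nat.floor_natCast] at h1
  have hX0 : (0 : ℝ) < X := by exact_mod_cast hX
  have h2 : ∑ p ∈ (Ioc X (3 * X)).filter Nat.Prime, Real.log X ≤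
      ∑ p ∈ (Icc 0 (3 * X)).filter Nat.Prime, Real.log p := by
    refine (sum_le_sum (g := fun p : ℕ => Real.log p) ?_).trans (sum_le_sum_of_subset_of_nonneg ?_ ?_)
    · intro p hp
      rw [mem_filter, mem_Ioc] at hp
      exact Real.log_le_log hX0 (by exact_mod_cast hp.1.1.le)
    · intro p hp
      rw [mem_filter, mem_Ioc] at hp
      rw [mem_filter, mem_Icc]
      exact ⟨by omega, hp.2⟩
    · intro p hp _
      rw [mem_filter] at hp
      exact Real.log_nonneg (by exact_mod_cast hp.2.one_lt.le)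
  rw [sum_const, nsmul_eq_mul] at h2
  rw [le_div_iff₀ hL]
  have h3 : Real.log 4 ≤ 3 / 2 := by
    have e1 : Real.log 4 = 2 * Real.log 2 := by
      rw [show (4 : ℝ) = 2 ^ 2 by norm_num, Real.log_pow]
      norm_num
    rw [e1]
    have := Real.log_two_lt_d9
    linarith
  have h4 : Real.log 4 * ((3 * X : ℕ) : ℝ) ≤ 5 * X := by
    push_cast
    nlinarith
  linarith

open Classical in
private theorem bin9_rep (X : ℕ) (A B : Set ℕ) (s : ℕ) :
    ∑ q ∈ (Ioc X (3 * X)).filter (fun q => q ∈ B ∧ q.Prime),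
      (if q ≤ s then (if s - q ∈ (Ioc X (3 * X)).filter (fun n => n ∈ A ∧ n.Prime) then (1 : ℝ) else 0) else 0) ≤
      rep A B s := by
  have h1 : ∀ q ∈ (Ioc X (3 * X)).filter (fun q => q ∈ B ∧ q.Prime),
      (if q ≤ s then (if s - q ∈ (Ioc X (3 * X)).filter (fun n => n ∈ A ∧ n.Prime) then (1 : ℝ) else 0) else 0) =
      if q ≤ s ∧ s - q ∈ (Ioc X (3 * X)).filter (fun n => n ∈ A ∧ n.Prime) then (1 : ℝ) else 0 := by
    intro q _
    split_ifs <;> tauto
  rw [sum_congr rfl h1, sum_boole]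
  have h2 : (((Ioc X (3 * X)).filter (fun q => q ∈ B ∧ q.Prime)).filter (fun q => q ≤ s ∧
      s - q ∈ (Ioc X (3 * X)).filter (fun n => n ∈ A ∧ n.Prime))).card ≤ rep A B s := by
    unfold rep
    refine card_le_card_of_injOn (fun q => s - q) ?_ ?_
    · intro q hq
      rw [mem_coe, mem_filter, mem_filter, mem_filter] at hq
      rw [mem_coe, mem_filter, mem_range]
      refine ⟨by show s - q < s + 1; omega, hq.2.2.2.1, hq.2.2.2.2, ?_⟩
      have e1 : s - (s - q) = q := by omega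
      rw [e1]
      exact hq.1.2
    · intro q hq q' hq' hqq
      rw [mem_coe, mem_filter] at hq hq'
      simp only at hqq
      omega
  exact_mod_cast h2

open Classical in
/-- one scale, relative to a set of sums -/
theorem bin9r (m : ℕ) (hm : 1 ≤ m) : ∃ κ₀ : ℝ, 0 < κ₀ ∧ κ₀ ≤ 1 ∧ ∃ D : ℕ, 2 ≤ D ∧ ∀ κ C ε : ℝ, 0 < κ → 1 ≤ C →
    0 < ε → ∃ c η : ℝ, 0 < c ∧ 0 < η ∧ ∃ X₀ : ℕ, ∀ X : ℕ, X₀ ≤ X → ∀ H : ℕ, (H : ℝ) ≤ κ₀ * Real.log X →
    κ * Real.log X ≤ H → ∀ A B : Set ℕ, ((Mis m H X A).card : ℝ) ≤ η * X →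
    ((Mis m H X B).card : ℝ) ≤ η * X → ∀ (T : Finset ℕ) (L : ℝ), 1 ≤ L → L ≤ Real.log X →
    (∀ s ∈ T, Even s ∧ 2 * X + X / 8 ≤ s ∧ s + X / 8 ≤ 4 * X) → (T.card : ℝ) ≤ C * X / L →
    (∀ n ∈ Ioc X (3 * X), Rg (zX D X) n →
      ∑ s ∈ T, (if n ≤ s then rI (zX D X) X (s - n) else 0) ≤ C * X / L) →
    (∀ n ∈ Ioc X (3 * X), Rg (zX D X) n →
      ((T.filter fun s => n < s ∧ s - n ∈ Ioc X (3 * X) ∧ (s - n).Prime).card : ℝ) ≤ C * X / (L * Real.log X)) →
    ((T.filter fun s => (rep A B s : ℝ) < c * X / (Real.log X) ^ 2).card : ℝ) ≤ ε * X / L := by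
  obtain ⟨D, hD, hcore⟩ := core9 m 2 hm
  obtain ⟨κ₀, hκ₀, hκ₀1, hcore⟩ := hcore D le_rfl
  obtain ⟨c₀, hc₀, hsng⟩ := sng9
  obtain ⟨X₁, hsng⟩ := hsng D
  obtain ⟨X₂, hmass⟩ := bin9_mass D
  obtain ⟨X₃, hkl⟩ := kap_low D
  refine ⟨κ₀, hκ₀, hκ₀1, D, hD, fun κ C ε hκ0 hC hε => ?_⟩
  have hC0 : 0 < C := by linarith
  obtain ⟨c₁, η₁, hc₁, hη₁, X₄, hco1⟩ := hcore κ (c₀ * ε / C) hκ0 (by positivity)
  obtain ⟨c₂, η₂, hc₂, hη₂, X₅, hco2⟩ := hcore κ c₁ hκ0 hc₁
  obtain ⟨X₆, hlog⟩ := Filter.eventually_atTop.mp (RNum6_log.eventually_ge_atTop 9)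
  refine ⟨c₂ / 2, min η₁ η₂, by positivity, lt_min hη₁ hη₂, X₁ + X₂ + X₃ + X₄ + X₅ + X₆ + 1,
    fun X hX H hH1 hH2 A B hA hB T L hL1 hLX hT hTc hTa hTb => ?_⟩
  have hL := hlog X (by omega)
  have hX1 : 1 ≤ X := by omega
  have hXR : (1 : ℝ) ≤ X := by exact_mod_cast hX1
  have hX0 : (0 : ℝ) < X := by linarith
  have hL0 : 0 < Real.log X := by linarith
  have hLp : 0 < L := by linarith
  obtain ⟨z, hz⟩ : ∃ z, z = zX D X := ⟨_, rfl⟩
  rw [← hz] at hTa hTb
  have hzD : (z : ℝ) ≤ (Real.log X) ^ D := by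
    rw [hz]
    exact Nat.floor_le (by positivity)
  have hz2 : 2 ≤ z := by
    rw [hz]
    unfold zX
    refine Nat.le_floor ?_
    calc ((2 : ℕ) : ℝ) ≤ Real.log X := by
          push_cast
          linarith
      _ = (Real.log X) ^ 1 := (pow_one _).symm
      _ ≤ (Real.log X) ^ D := pow_le_pow_right₀ (by linarith) (by omega)
  have hMk : (kap z)⁻¹ ≤ Real.log X := by
    rw [inv_le_comm₀ (kap_pos z) hL0, ← one_div]
    refine le_trans ?_ (hkl X z (by omega) hzD)
    refine one_div_le_one_div_of_le (Real.rpow_pos_of_pos hL0 _) ?_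
    calc (Real.log X) ^ (1 / 2 : ℝ) ≤ (Real.log X) ^ (1 : ℝ) :=
          Real.rpow_le_rpow_of_exponent_le (by linarith) (by norm_num)
      _ = _ := Real.rpow_one _
  have hmz := hmass X z (by omega) hz2 hzD
  obtain ⟨E, hE⟩ : ∃ E : Finset ℕ, E = T.filter fun s => (rep A B s : ℝ) < c₂ / 2 * X / (Real.log X) ^ 2 :=
    ⟨_, rfl⟩
  rw [← hE]
  by_contra hcon
  push Not at hcon
  have hET : E ⊆ T := by
    rw [hE]
    exact filter_subset _ _
  have hEsub : E ⊆ range (8 * X) := by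
    intro s hs
    have h1 := hT s (hET hs)
    rw [mem_range]
    omega
  have hEc : (E.card : ℝ) ≤ C * X / L := by
    have h1 : (E.card : ℝ) ≤ T.card := by exact_mod_cast card_le_card hET
    exact h1.trans hTc
  have hcorT : ∀ (f : ℕ → ℝ), (∀ n, 0 ≤ f n) → ∀ n, 0 ≤ cor E f n ∧
      cor E f n ≤ ∑ s ∈ T, (if n ≤ s then f (s - n) else 0) := by
    intro f hf n
    have h0 : ∀ s, 0 ≤ (if n ≤ s then f (s - n) else 0) := fun s => by
      split_ifs
      · exact hf _
      · exact le_rfl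
    unfold cor
    exact ⟨sum_nonneg fun s _ => h0 s, sum_le_sum_of_subset_of_nonneg hET fun s _ _ => h0 s⟩
  -- r
  obtain ⟨r, hr⟩ : ∃ r : ℕ → ℝ, r = rI z X := ⟨_, rfl⟩
  have hrx : ∀ n, r n = if n ∈ Ioc X (2 * X) then rz z n else 0 := fun n => by
    rw [hr]
    rfl
  have hr0 : ∀ n, 0 ≤ r n := fun n => by
    rw [hrx]
    split_ifs
    · exact (sng9_rz z n).1
    · exact le_rfl
  have hrs : ∀ n, n ∉ Ioc X (2 * X) → r n = 0 := fun n hn => by
    rw [hrx, if_neg hn]
  have h23 : Ioc X (2 * X) ⊆ Ioc X (3 * X) := Ioc_subset_Ioc_right (by omega)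
  have hrs3 : ∀ n, n ∉ Ioc X (3 * X) → r n = 0 := fun n hn => hrs n fun h => hn (h23 h)
  have hrsum : ∑ n ∈ Ioc X (3 * X), r n = ∑ n ∈ Ioc X (2 * X), rz z n := by
    rw [← sum_subset h23 fun n _ hn => hrs n hn]
    exact sum_congr rfl fun n hn => by rw [hrx, if_pos hn]
  have hrsq : ∑ n ∈ Ioc X (3 * X), (r n) ^ 2 ≤ Real.log X * (2 * X) := by
    calc ∑ n ∈ Ioc X (3 * X), (r n) ^ 2 ≤ ∑ n ∈ Ioc X (3 * X), Real.log X * r n := by
          refine sum_le_sum fun n _ => ?_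
          rw [sq]
          refine mul_le_mul_of_nonneg_right ?_ (hr0 n)
          rw [hrx]
          split_ifs
          · exact (sng9_rz z n).2.trans hMk
          · exact hL0.le
      _ = Real.log X * ∑ n ∈ Ioc X (3 * X), r n := by rw [mul_sum]
      _ ≤ _ := by
          rw [hrsum]
          exact mul_le_mul_of_nonneg_left hmz hL0.le
  have hL3 : 9 * Real.log X ≤ (Real.log X) ^ 2 := by nlinarith
  -- the first application
  obtain ⟨φ, hφ⟩ : ∃ φ : ℕ → ℝ, φ = fun n => L / (C * X) * cor E r n := ⟨_, rfl⟩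
  have hφx : ∀ n, φ n = L / (C * X) * cor E r n := fun n => by rw [hφ]
  have hφ0 : ∀ n, 0 ≤ φ n := fun n => by
    rw [hφx]
    exact mul_nonneg (by positivity) (hcorT r hr0 n).1
  have hφ1 : ∀ n ∈ Ioc X (3 * X), Rg z n → φ n ≤ 1 := fun n hn hnz => by
    rw [hφx]
    have h1 := (hcorT r hr0 n).2
    rw [hr] at h1
    have h2 := h1.trans (hTa n hn hnz)
    rw [← hr] at h2
    calc L / (C * X) * cor E r n ≤ L / (C * X) * (C * X / L) := by gcongr
      _ = 1 := by field_simp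
  have hφW : Wn X ((Real.log X) ^ 2) φ := by
    rw [hφ]
    refine wn_mono X _ _ ?_ _ (wn_smul X _ (L / (C * X)) (by positivity) _
      (wn_cor X hX1 E hEsub r hrs3 _ hrsq))
    have a1 : (E.card : ℝ) * (Real.log X * (2 * X)) ≤ (C * X / L * (Real.log X) ^ 2) ^ 2 := by
      have b1 : 2 ≤ C / L * (Real.log X) ^ 3 := by
        have b2 : 1 / Real.log X ≤ C / L := div_le_div₀ hC0.le hC hLp hLX
        calc (2 : ℝ) ≤ (Real.log X) ^ 2 := by nlinarith
          _ = 1 / Real.log X * (Real.log X) ^ 3 := by field_simp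
          _ ≤ _ := by gcongr
      calc (E.card : ℝ) * (Real.log X * (2 * X)) ≤ C * X / L * (Real.log X * (2 * X)) := by gcongr
        _ = C / L * X ^ 2 * Real.log X * 2 := by ring
        _ ≤ C / L * X ^ 2 * Real.log X * (C / L * (Real.log X) ^ 3) := by gcongr
        _ = _ := by ring
    have a3 := Real.sqrt_le_sqrt a1
    rw [Real.sqrt_sq (by positivity)] at a3
    calc L / (C * X) * Real.sqrt (E.card * (Real.log X * (2 * X))) ≤
          L / (C * X) * (C * X / L * (Real.log X) ^ 2) := by gcongr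
      _ = (Real.log X) ^ 2 := by field_simp
  have hsum1 : c₀ * ε / C * X ≤ ∑ n ∈ Ioc X (2 * X), rz z n * φ n := by
    have a1 : ∑ n ∈ Ioc X (2 * X), rz z n * φ n =
        L / (C * X) * ∑ s ∈ E, ∑ n ∈ Ioc X (2 * X), rz z n * (if n ≤ s then r (s - n) else 0) := by
      rw [sum_comm, mul_sum]
      refine sum_congr rfl fun n _ => ?_
      rw [hφx]
      unfold cor
      rw [mul_left_comm, mul_sum]
    rw [a1]
    have a2 : c₀ * X * E.card ≤ ∑ s ∈ E, ∑ n ∈ Ioc X (2 * X), rz z n * (if n ≤ s then r (s - n) else 0) := by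
      calc c₀ * X * E.card = ∑ s ∈ E, c₀ * X := by
            rw [sum_const, nsmul_eq_mul]
            ring
        _ ≤ _ := by
            refine sum_le_sum fun s hs => ?_
            have h1 := hT s (hET hs)
            rw [hr]
            exact hsng X z (by omega) hz2 hzD s h1.1 h1.2.1 h1.2.2
    calc c₀ * ε / C * X = L / (C * X) * (c₀ * X * (ε * X / L)) := by
          field_simp
      _ ≤ L / (C * X) * (c₀ * X * E.card) := by gcongr
      _ ≤ _ := by gcongr
  obtain ⟨A', hA'⟩ : ∃ A' : Finset ℕ, A' = (Ioc X (3 * X)).filter (fun n => n ∈ A ∧ n.Prime) := ⟨_, rfl⟩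
  have hg1 := hco1 X (by omega) H hH1 hH2 A (hA.trans (by gcongr; exact min_le_left _ _)) φ hφ0
    (fun n hn hnz => hφ1 n hn (by rw [hz]; exact hnz)) hφW (by rw [← hz]; exact hsum1)
  rw [← hA'] at hg1
  -- u
  obtain ⟨u, hu⟩ : ∃ u : ℕ → ℝ, u = fun n => if n ∈ A' then 1 else 0 := ⟨_, rfl⟩
  have hux : ∀ n, u n = if n ∈ A' then 1 else 0 := fun n => by rw [hu]
  have hu0 : ∀ n, 0 ≤ u n := fun n => by
    rw [hux]
    split_ifs
    · exact zero_le_one
    · exact le_rfl
  have hA'3 : A' ⊆ Ioc X (3 * X) := by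
    rw [hA']
    exact filter_subset _ _
  have hus : ∀ n, n ∉ Ioc X (3 * X) → u n = 0 := fun n hn => by
    rw [hux, if_neg fun h => hn (hA'3 h)]
  have husum : ∑ n ∈ Ioc X (3 * X), u n ≤ 5 * X / Real.log X := by
    refine le_trans ?_ (bin9_cheb X hX1 hL0)
    rw [sum_congr rfl fun n _ => hux n, sum_boole]
    have : ((Ioc X (3 * X)).filter (fun n => n ∈ A')).card ≤ ((Ioc X (3 * X)).filter Nat.Prime).card := by
      refine card_le_card fun n hn => ?_
      rw [hA'] at hn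
      simp only [mem_filter] at hn ⊢
      exact ⟨hn.1, hn.2.2.2⟩
    exact_mod_cast this
  have husq : ∑ n ∈ Ioc X (3 * X), (u n) ^ 2 ≤ 5 * X / Real.log X := by
    refine le_trans (le_of_eq ?_) husum
    refine sum_congr rfl fun n _ => ?_
    rw [hux]
    split_ifs <;> norm_num
  -- the second application
  obtain ⟨φ', hφ'⟩ : ∃ φ' : ℕ → ℝ, φ' = fun n => L * Real.log X / (C * X) * cor E u n := ⟨_, rfl⟩
  have hφ'x : ∀ n, φ' n = L * Real.log X / (C * X) * cor E u n := fun n => by rw [hφ']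
  have hφ'0 : ∀ n, 0 ≤ φ' n := fun n => by
    rw [hφ'x]
    exact mul_nonneg (by positivity) (hcorT u hu0 n).1
  have hφ'1 : ∀ n ∈ Ioc X (3 * X), Rg z n → φ' n ≤ 1 := fun n hn hnz => by
    rw [hφ'x]
    have a1 : cor E u n ≤ C * X / (L * Real.log X) := by
      refine ((hcorT u hu0 n).2).trans (le_trans ?_ (hTb n hn hnz))
      rw [card_filter]
      push_cast
      refine sum_le_sum fun s _ => ?_
      by_cases c1 : n ≤ s
      · rw [if_pos c1, hux]
        by_cases c2 : s - n ∈ A'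
        · rw [if_pos c2, if_pos]
          rw [hA', mem_filter] at c2
          have c3 := c2.2.2.pos
          exact ⟨by omega, c2.1, c2.2.2⟩
        · rw [if_neg c2]
          split_ifs
          · exact zero_le_one
          · exact le_rfl
      · rw [if_neg c1]
        split_ifs
        · exact zero_le_one
        · exact le_rfl
    calc L * Real.log X / (C * X) * cor E u n ≤ L * Real.log X / (C * X) * (C * X / (L * Real.log X)) := by
          gcongr
      _ = 1 := by field_simp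
  have hφ'W : Wn X ((Real.log X) ^ 2) φ' := by
    rw [hφ']
    refine wn_mono X _ _ ?_ _ (wn_smul X _ (L * Real.log X / (C * X)) (by positivity) _
      (wn_cor X hX1 E hEsub u hus _ husq))
    have a1 : (E.card : ℝ) * (5 * X / Real.log X) ≤ (C * X / L * Real.log X) ^ 2 := by
      have b1 : 5 ≤ C / L * (Real.log X) ^ 3 := by
        have b2 : 1 / Real.log X ≤ C / L := div_le_div₀ hC0.le hC hLp hLX
        calc (5 : ℝ) ≤ (Real.log X) ^ 2 := by nlinarith
          _ = 1 / Real.log X * (Real.log X) ^ 3 := by field_simp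
          _ ≤ _ := by gcongr
      calc (E.card : ℝ) * (5 * X / Real.log X) ≤ C * X / L * (5 * X / Real.log X) := by gcongr
        _ = C / L * X ^ 2 / Real.log X * 5 := by ring
        _ ≤ C / L * X ^ 2 / Real.log X * (C / L * (Real.log X) ^ 3) := by gcongr
        _ = _ := by field_simp
    have a3 := Real.sqrt_le_sqrt a1
    rw [Real.sqrt_sq (by positivity)] at a3
    calc L * Real.log X / (C * X) * Real.sqrt (E.card * (5 * X / Real.log X)) ≤
          L * Real.log X / (C * X) * (C * X / L * Real.log X) := by gcongr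
      _ = (Real.log X) ^ 2 := by field_simp
  have hsum2 : c₁ * X ≤ ∑ n ∈ Ioc X (2 * X), rz z n * φ' n := by
    have a1 : ∑ n ∈ Ioc X (2 * X), rz z n * φ' n =
        L * Real.log X / (C * X) * ∑ n ∈ Ioc X (2 * X), r n * cor E u n := by
      rw [mul_sum]
      refine sum_congr rfl fun n hn => ?_
      rw [hφ'x, hrx, if_pos hn]
      ring
    have a2 : ∑ n ∈ A', φ n = L / (C * X) * ∑ n ∈ Ioc X (3 * X), u n * cor E r n := by
      rw [mul_sum, ← sum_subset hA'3]
      · refine sum_congr rfl fun n hn => ?_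
        rw [hφx, hux, if_pos hn, one_mul]
      · intro n _ hn
        rw [hux, if_neg hn, zero_mul, mul_zero]
    rw [a2, ← cor_symm X E r u hrs hus] at hg1
    rw [a1]
    obtain ⟨S, hS⟩ : ∃ S : ℝ, S = ∑ n ∈ Ioc X (2 * X), r n * cor E u n := ⟨_, rfl⟩
    rw [← hS] at hg1 ⊢
    calc c₁ * X = Real.log X * (c₁ * X / Real.log X) := by
          field_simp
      _ ≤ Real.log X * (L / (C * X) * S) := by gcongr
      _ = _ := by ring
  have hg2 := hco2 X (by omega) H hH1 hH2 B (hB.trans (by gcongr; exact min_le_right _ _)) φ' hφ'0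
    (fun n hn hnz => hφ'1 n hn (by rw [hz]; exact hnz)) hφ'W (by rw [← hz]; exact hsum2)
  -- the end
  have hend : ∑ q ∈ (Ioc X (3 * X)).filter (fun q => q ∈ B ∧ q.Prime), cor E u q ≤
      C * X / L * (c₂ / 2 * X / (Real.log X) ^ 2) := by
    have a1 : ∑ q ∈ (Ioc X (3 * X)).filter (fun q => q ∈ B ∧ q.Prime), cor E u q =
        ∑ s ∈ E, ∑ q ∈ (Ioc X (3 * X)).filter (fun q => q ∈ B ∧ q.Prime), (if q ≤ s then u (s - q) else 0) := by
      rw [sum_comm]
      rfl
    rw [a1]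
    calc ∑ s ∈ E, ∑ q ∈ (Ioc X (3 * X)).filter (fun q => q ∈ B ∧ q.Prime), (if q ≤ s then u (s - q) else 0) ≤
        ∑ s ∈ E, c₂ / 2 * X / (Real.log X) ^ 2 := by
          refine sum_le_sum fun s hs => ?_
          rw [hE, mem_filter] at hs
          refine le_trans (le_of_eq ?_) ((bin9_rep X A B s).trans hs.2.le)
          refine sum_congr rfl fun q _ => ?_
          rw [hux, hA']
      _ = E.card * (c₂ / 2 * X / (Real.log X) ^ 2) := by rw [sum_const, nsmul_eq_mul]
      _ ≤ _ := by gcongr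
  have hfin : c₂ * X / Real.log X ≤ c₂ / 2 * X / Real.log X := by
    refine hg2.trans ?_
    rw [sum_congr rfl fun n _ => hφ'x n, ← mul_sum]
    calc L * Real.log X / (C * X) * ∑ q ∈ (Ioc X (3 * X)).filter (fun q => q ∈ B ∧ q.Prime), cor E u q ≤
        L * Real.log X / (C * X) * (C * X / L * (c₂ / 2 * X / (Real.log X) ^ 2)) := by gcongr
      _ = _ := by
          field_simp
  rw [div_le_div_iff_of_pos_right hL0] at hfin
  have : 0 < c₂ * X := by positivity
  linarith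

open Classical in
/-- one scale -/
theorem bin9 (m : ℕ) (hm : 1 ≤ m) : ∃ κ₀ : ℝ, 0 < κ₀ ∧ κ₀ ≤ 1 ∧ ∀ κ ε : ℝ, 0 < κ → 0 < ε →
    ∃ c η : ℝ, 0 < c ∧ 0 < η ∧
    ∃ X₀ : ℕ, ∀ X : ℕ, X₀ ≤ X → ∀ H : ℕ, (H : ℝ) ≤ κ₀ * Real.log X → κ * Real.log X ≤ H →
    ∀ A B : Set ℕ, ((Mis m H X A).card : ℝ) ≤ η * X → ((Mis m H X B).card : ℝ) ≤ η * X →
    (((range (8 * X)).filter (fun s => Even s ∧ 2 * X + X / 8 ≤ s ∧ s + X / 8 ≤ 4 * X ∧
      (rep A B s : ℝ) < c * X / (Real.log X) ^ 2)).card : ℝ) ≤ ε * X := by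
  obtain ⟨κ₀, hκ₀, hκ₀1, D, hD, hbin⟩ := bin9r m hm
  obtain ⟨X₂, hmass⟩ := bin9_mass D
  refine ⟨κ₀, hκ₀, hκ₀1, fun κ ε hκ0 hε => ?_⟩
  obtain ⟨c, η, hc, hη, X₁, hb⟩ := hbin κ 8 ε hκ0 (by norm_num) hε
  obtain ⟨X₆, hlog⟩ := Filter.eventually_atTop.mp (RNum6_log.eventually_ge_atTop 9)
  refine ⟨c, η, hc, hη, X₁ + X₂ + X₆ + 1, fun X hX H hH1 hH2 A B hA hB => ?_⟩
  have hL := hlog X (by omega)
  have hX1 : 1 ≤ X := by omega
  have hXR : (1 : ℝ) ≤ X := by exact_mod_cast hX1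
  have hL0 : 0 < Real.log X := by linarith
  obtain ⟨z, hz⟩ : ∃ z, z = zX D X := ⟨_, rfl⟩
  have hzD : (z : ℝ) ≤ (Real.log X) ^ D := by
    rw [hz]
    exact Nat.floor_le (by positivity)
  have hz2 : 2 ≤ z := by
    rw [hz]
    unfold zX
    refine Nat.le_floor ?_
    calc ((2 : ℕ) : ℝ) ≤ Real.log X := by
          push_cast
          linarith
      _ = (Real.log X) ^ 1 := (pow_one _).symm
      _ ≤ (Real.log X) ^ D := pow_le_pow_right₀ (by linarith) (by omega)
  have hmz := hmass X z (by omega) hz2 hzD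
  obtain ⟨T, hT⟩ : ∃ T : Finset ℕ, T = (range (8 * X)).filter (fun s => Even s ∧ 2 * X + X / 8 ≤ s ∧
    s + X / 8 ≤ 4 * X) := ⟨_, rfl⟩
  have h23 : Ioc X (2 * X) ⊆ Ioc X (3 * X) := Ioc_subset_Ioc_right (by omega)
  have hgen : ∀ f : ℕ → ℝ, (∀ n, 0 ≤ f n) → (∀ n, n ∉ Ioc X (3 * X) → f n = 0) → ∀ n,
      ∑ s ∈ T, (if n ≤ s then f (s - n) else 0) ≤ ∑ l ∈ Ioc X (3 * X), f l := by
    intro f hf0 hfs n
    have h1 := (cor_le X T f hf0 hfs n).2
    unfold cor at h1
    exact h1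
  have hfin := hb X (by omega) H hH1 hH2 A B hA hB T 1 le_rfl (by linarith) (by
      intro s hs
      rw [hT, mem_filter] at hs
      exact hs.2) (by
      have h1 : T.card ≤ 8 * X := by
        rw [hT]
        exact (card_le_card (filter_subset _ _)).trans (by rw [card_range])
      rw [div_one]
      exact_mod_cast h1) (by
      intro n hn _
      refine (hgen (rI (zX D X) X) (fun n => ?_) (fun n hn => ?_) n).trans ?_
      · unfold rI
        split_ifs
        · exact (sng9_rz _ n).1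
        · exact le_rfl
      · unfold rI
        rw [if_neg fun h => hn (h23 h)]
      · rw [← hz, div_one]
        have e1 : ∑ n ∈ Ioc X (3 * X), rI z X n = ∑ n ∈ Ioc X (2 * X), rz z n := by
          rw [← sum_subset h23 fun n _ hn => by unfold rI; rw [if_neg hn]]
          exact sum_congr rfl fun n hn => by unfold rI; rw [if_pos hn]
        rw [e1]
        linarith) (by
      intro n hn _
      rw [one_mul]
      have h1 := hgen (fun l => if l ∈ (Ioc X (3 * X)).filter Nat.Prime then (1 : ℝ) else 0) (fun n => by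
        split_ifs
        · exact zero_le_one
        · exact le_rfl) (fun n hn => if_neg fun h => hn (mem_filter.mp h).1) n
      have h2 := bin9_cheb X hX1 hL0
      have h3 : ∑ l ∈ Ioc X (3 * X), (if l ∈ (Ioc X (3 * X)).filter Nat.Prime then (1 : ℝ) else 0) =
          (((Ioc X (3 * X)).filter Nat.Prime).card : ℝ) := by
        rw [sum_boole]
        congr 2
        ext l
        simp only [mem_filter]
        tauto
      rw [h3] at h1
      refine le_trans ?_ (h1.trans (h2.trans ?_))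
      · rw [card_filter]
        push_cast
        refine sum_le_sum fun s _ => ?_
        by_cases c1 : n < s ∧ s - n ∈ Ioc X (3 * X) ∧ (s - n).Prime
        · rw [if_pos c1, if_pos c1.1.le, if_pos (mem_filter.mpr c1.2)]
        · rw [if_neg c1]
          split_ifs
          · exact zero_le_one
          · exact le_rfl
          · exact le_rfl
      · gcongr
        norm_num)
  rw [div_one] at hfin
  refine le_trans ?_ hfin
  have h1 : ((range (8 * X)).filter (fun s => Even s ∧ 2 * X + X / 8 ≤ s ∧ s + X / 8 ≤ 4 * X ∧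
      (rep A B s : ℝ) < c * X / (Real.log X) ^ 2)).card ≤
      (T.filter fun s => (rep A B s : ℝ) < c * X / (Real.log X) ^ 2).card := by
    refine card_le_card fun s hs => ?_
    rw [hT]
    simp only [mem_filter] at hs ⊢
    tauto
  exact_mod_cast h1

end Pool.Agent.Lib.SH
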