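import Pool.Agent.Lib.SH.Def9
import Pool.Agent.Lib.SG.Num

/-!
# SH-Tup9: facts on the tuples (helper10)
-/

set_option autoImplicit false

open Finset

namespace Pool.Agent.Lib.SH

open Pool.Agent.Lib.MT Pool.Agent.Lib.SG

theorem tup9_mem {k F H : ℕ} {h : Fin k → ℕ} (hh : h ∈ Tp k F H) :
    Function.Injective h ∧ (∀ i, 1 ≤ h i ∧ h i ≤ H) ∧ ∀ i, F ∣ h i := by
  unfold Tp at hh
  rw [mem_filter, Fintype.mem_piFinset] at hh
  refine ⟨hh.2, fun i => ?_, fun i => ?_⟩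
  · exact mem_Icc.mp (mem_filter.mp (hh.1 i)).1
  · exact (mem_filter.mp (hh.1 i)).2

theorem tup9_sub (k F H : ℕ) : Tp k F H ⊆ Fintype.piFinset fun _ : Fin k => Icc 1 H := by
  intro h hh
  have h1 := (tup9_mem hh).2.1
  rw [Fintype.mem_piFinset]
  exact fun i => mem_Icc.mpr (h1 i)

theorem tup9_ij (k F H : ℕ) : Tp k F H ⊆ Ij k H := by
  intro h hh
  have h1 := tup9_mem hh
  unfold Ij
  rw [mem_filter, Fintype.mem_piFinset]
  exact ⟨fun i => mem_Icc.mpr (h1.2.1 i), h1.1⟩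

theorem tup9_card (k F H : ℕ) : ((Tp k F H).card : ℝ) ≤ (H : ℝ) ^ k := by
  have h1 := card_le_card (tup9_sub k F H)
  rw [Fintype.card_piFinset] at h1
  simp only [Nat.card_Icc, Nat.add_sub_cancel, prod_const, card_univ, Fintype.card_fin] at h1
  exact_mod_cast h1

theorem tup9_memOm {k : ℕ} (h : Fin k → ℕ) (p c : ℕ) : c ∈ Om h p ↔ c < p ∧ ∃ i, p ∣ c + h i := by
  unfold Om
  rw [mem_filter, mem_range]

/-- the residue of `x` is excluded exactly if `p` divides some `x + h i` -/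
theorem tup9_mod {k : ℕ} (h : Fin k → ℕ) (p x : ℕ) (hp : 0 < p) : x % p ∈ Om h p ↔ ∃ i, p ∣ x + h i := by
  rw [tup9_memOm]
  have key : ∀ i, (p ∣ x % p + h i ↔ p ∣ x + h i) := by
    intro i
    have h1 : x % p + h i ≡ x + h i [MOD p] := Nat.ModEq.add_right _ (Nat.mod_modEq x p)
    constructor
    · intro h2
      exact Nat.modEq_zero_iff_dvd.mp (h1.symm.trans (Nat.modEq_zero_iff_dvd.mpr h2))
    · intro h2
      exact Nat.modEq_zero_iff_dvd.mp (h1.trans (Nat.modEq_zero_iff_dvd.mpr h2))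
  constructor
  · rintro ⟨_, i, hi⟩
    exact ⟨i, (key i).1 hi⟩
  · rintro ⟨i, hi⟩
    exact ⟨Nat.mod_lt _ hp, i, (key i).2 hi⟩

theorem tup9_cov {k : ℕ} (h : Fin k → ℕ) : Cov (Om h) h := by
  intro p hp i x hx
  exact (tup9_mod h p x hp.pos).2 ⟨i, hx⟩

theorem tup9_cardOm {k : ℕ} (h : Fin k → ℕ) (p : ℕ) : (Om h p).card ≤ k := by
  classical
  have hsub : Om h p ⊆ (univ : Finset (Fin k)).biUnion (fun i =>
      ((range p).filter (fun c => p ∣ c + h i))) := by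
    intro c hc
    obtain ⟨hcp, i, hi⟩ := (tup9_memOm h p c).1 hc
    rw [mem_biUnion]
    exact ⟨i, mem_univ _, by rw [mem_filter, mem_range]; exact ⟨hcp, hi⟩⟩
  refine (card_le_card hsub).trans ?_
  refine (card_biUnion_le_card_mul univ _ 1 ?_).trans (by simp)
  intro i _
  rw [card_le_one]
  intro a ha b hb
  rw [mem_filter, mem_range] at ha hb
  have hab : a + h i ≡ b + h i [MOD p] :=
    ((Nat.modEq_zero_iff_dvd.mpr ha.2).trans (Nat.modEq_zero_iff_dvd.mpr hb.2).symm)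
  exact Nat.ModEq.eq_of_lt_of_lt (Nat.ModEq.add_right_cancel' _ hab) ha.1 hb.1

theorem tup9_nice {k K F H : ℕ} (hkK : k ≤ K) (hF : F = (2 * K).factorial) {h : Fin k → ℕ} (hh : h ∈ Tp k F H) :
    Nice K (Om h) := by
  refine ⟨fun p => (tup9_cardOm h p).trans hkK, fun p hp => ?_, fun p c hc => ((tup9_memOm h p c).1 hc).1⟩
  rcases Nat.eq_zero_or_pos p with h0 | h0
  · subst h0
    unfold Om
    simp
  · have hsub : Om h p ⊆ {0} := by
      intro c hc
      obtain ⟨hcp, i, hi⟩ := (tup9_memOm h p c).1 hc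
      have hd : p ∣ h i := ((Nat.dvd_factorial h0 hp).trans (hF ▸ dvd_rfl)).trans ((tup9_mem hh).2.2 i)
      have hd2 : p ∣ c := (Nat.dvd_add_left hd).1 hi
      rw [mem_singleton]
      exact Nat.eq_zero_of_dvd_of_lt hd2 hcp
    exact (card_le_card hsub).trans (by simp)

theorem tup9_pre {k : ℕ} (h : Fin k → ℕ) (z X x : ℕ) :
    x ∈ Pre (Om h) z X ↔ x ∈ Ioc X (2 * X) ∧ ∀ i, Rg z (x + h i) := by
  unfold Pre
  rw [mem_filter]
  refine and_congr_right fun _ => ?_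
  unfold Rg
  constructor
  · intro h1 i p hp hd
    have hp0 : 0 < p := (mem_filter.mp hp).2.1.pos
    exact h1 p hp ((tup9_mod h p x hp0).2 ⟨i, hd⟩)
  · intro h1 p hp hm
    have hp0 : 0 < p := (mem_filter.mp hp).2.1.pos
    obtain ⟨i, hi⟩ := (tup9_mod h p x hp0).1 hm
    exact h1 i p hp hi

open Classical in
/-- the product of the `rz` -/
theorem tup9_prod {k : ℕ} (h : Fin k → ℕ) (z X x : ℕ) (hx : x ∈ Ioc X (2 * X)) (φ : ℕ → ℝ) :
    ∏ i, (rz z (x + h i) * φ (x + h i)) =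
      if x ∈ Pre (Om h) z X then (kap z ^ k)⁻¹ * ∏ i, φ (x + h i) else 0 := by
  rw [prod_mul_distrib]
  split_ifs with h1
  · rw [tup9_pre] at h1
    have h2 : ∀ i ∈ (univ : Finset (Fin k)), rz z (x + h i) = (kap z)⁻¹ := by
      intro i _
      have h3 := h1.2 i
      unfold Rg at h3
      unfold rz
      rw [if_pos h3]
    rw [prod_congr rfl h2, prod_const, card_univ, Fintype.card_fin, inv_pow]
  · rw [tup9_pre] at h1
    have h2 : ∃ i, ¬ Rg z (x + h i) := by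
      by_contra hcon
      push Not at hcon
      exact h1 ⟨hx, hcon⟩
    obtain ⟨i, hi⟩ := h2
    have h3 : rz z (x + h i) = 0 := by
      unfold rz
      rw [if_neg]
      exact hi
    rw [prod_eq_zero (mem_univ i) h3, zero_mul]

/-- one distinguished coordinate -/
theorem tup9_one {k : ℕ} (H : ℕ) (T : Finset (Fin k → ℕ)) (hT : T ⊆ Fintype.piFinset fun _ : Fin k => Icc 1 H)
    (M : Finset ℕ) (g r : ℕ → ℝ) (hg : ∀ n, 0 ≤ g n) (hr : ∀ n, 0 ≤ r n) (i : Fin k) :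
    ∑ h ∈ T, ∑ x ∈ M, g (x + h i) * ∏ j ∈ univ.erase i, r (x + h j) ≤
      ∑ x ∈ M, (∑ t ∈ Icc 1 H, g (x + t)) * (∑ t ∈ Icc 1 H, r (x + t)) ^ (k - 1) := by
  classical
  have h1 : ∀ x, (∑ t ∈ Icc 1 H, g (x + t)) * (∑ t ∈ Icc 1 H, r (x + t)) ^ (k - 1) =
      ∑ h ∈ Fintype.piFinset fun _ : Fin k => Icc 1 H, g (x + h i) * ∏ j ∈ univ.erase i, r (x + h j) := by
    intro x
    have e1 : ∀ h : Fin k → ℕ, g (x + h i) * ∏ j ∈ univ.erase i, r (x + h j) =
        ∏ j, (fun (j : Fin k) (t : ℕ) => if j = i then g (x + t) else r (x + t)) j (h j) := by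
      intro h
      rw [← mul_prod_erase univ _ (mem_univ i)]
      simp only [if_true]
      congr 1
      refine prod_congr rfl fun j hj => ?_
      rw [if_neg (ne_of_mem_erase hj)]
    have e3 := prod_univ_sum (fun _ : Fin k => Icc 1 H) (fun (j : Fin k) (t : ℕ) =>
      if j = i then g (x + t) else r (x + t))
    rw [sum_congr rfl fun h _ => e1 h]
    simp only
    rw [← e3, ← mul_prod_erase univ _ (mem_univ i)]
    simp only [if_true]
    congr 1
    have e2 : ∀ j ∈ univ.erase i, (∑ t ∈ Icc 1 H, (fun (j : Fin k) (t : ℕ) =>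
        if j = i then g (x + t) else r (x + t)) j t) = ∑ t ∈ Icc 1 H, r (x + t) := by
      intro j hj
      simp only
      rw [sum_congr rfl]
      intro t _
      rw [if_neg (ne_of_mem_erase hj)]
    rw [prod_congr rfl e2, prod_const, card_erase_of_mem (mem_univ i), card_univ, Fintype.card_fin]
  rw [sum_congr rfl fun x _ => h1 x, sum_comm (s := M)]
  refine sum_le_sum_of_subset_of_nonneg hT fun h _ _ => sum_nonneg fun x _ => ?_
  exact mul_nonneg (hg _) (prod_nonneg fun j _ => hr _)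

/-- all coordinates -/
theorem tup9_all {k : ℕ} (H : ℕ) (T : Finset (Fin k → ℕ)) (hT : T ⊆ Fintype.piFinset fun _ : Fin k => Icc 1 H)
    (M : Finset ℕ) (r : ℕ → ℝ) (hr : ∀ n, 0 ≤ r n) :
    ∑ h ∈ T, ∑ x ∈ M, ∏ j, r (x + h j) ≤ ∑ x ∈ M, (∑ t ∈ Icc 1 H, r (x + t)) ^ k := by
  classical
  have h1 : ∀ x, (∑ t ∈ Icc 1 H, r (x + t)) ^ k =
      ∑ h ∈ Fintype.piFinset fun _ : Fin k => Icc 1 H, ∏ j, r (x + h j) := by
    intro x
    have e1 : ∏ _j : Fin k, (∑ t ∈ Icc 1 H, r (x + t)) = (∑ t ∈ Icc 1 H, r (x + t)) ^ k := by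
      rw [prod_const, card_univ, Fintype.card_fin]
    rw [← e1]
    exact prod_univ_sum (fun _ : Fin k => Icc 1 H) (fun _ t => r (x + t))
  rw [sum_congr rfl fun x _ => h1 x, sum_comm (s := M)]
  exact sum_le_sum_of_subset_of_nonneg hT fun h _ _ => sum_nonneg fun x _ => prod_nonneg fun j _ => hr _

end Pool.Agent.Lib.SH
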