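import Pool.Agent.Lib.SH.Def9
import Pool.Agent.Lib.SH.Tup9
import Pool.Agent.Lib.SG.Pclose7
import Pool.Agent.Lib.SG.Mumass7
import Pool.Agent.Lib.SG.RNum6

/-!
# SH-Clp9: the primes and the rough numbers have close exponential sums (helper10)
-/

set_option autoImplicit false

open Finset

namespace Pool.Agent.Lib.SH

open Pool.Agent.Lib.MT Pool.Agent.Lib.SG

private def clp9_Om (p : ℕ) : Finset ℕ := if p = 0 then ∅ else {0}

private theorem clp9_nice : Nice 1 clp9_Om := by
  refine ⟨fun p => ?_, fun p _ => ?_, fun p c hc => ?_⟩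
  · unfold clp9_Om
    split_ifs <;> simp
  · unfold clp9_Om
    split_ifs <;> simp
  · unfold clp9_Om at hc
    split_ifs at hc with h
    · simp at hc
    · rw [mem_singleton] at hc
      omega

private theorem clp9_cov : Cov clp9_Om (fun _ : Fin 1 => 0) := by
  intro p hp _ x hx
  unfold clp9_Om
  rw [if_neg hp.ne_zero, mem_singleton]
  exact Nat.mod_eq_zero_of_dvd hx

private theorem clp9_pre (z X x : ℕ) : x ∈ Pre clp9_Om z X ↔ x ∈ Ioc X (2 * X) ∧ Rg z x := by
  unfold Pre Rg
  rw [mem_filter]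
  refine and_congr_right fun _ => forall_congr' fun p => ?_
  constructor
  · intro h1 hp hd
    have hp0 : p ≠ 0 := (mem_filter.mp hp).2.1.ne_zero
    refine h1 hp ?_
    unfold clp9_Om
    rw [if_neg hp0, mem_singleton]
    exact Nat.mod_eq_zero_of_dvd hd
  · intro h1 hp hm
    have hp0 : p ≠ 0 := (mem_filter.mp hp).2.1.ne_zero
    unfold clp9_Om at hm
    rw [if_neg hp0, mem_singleton] at hm
    exact h1 hp (Nat.dvd_of_mod_eq_zero hm)

private theorem clp9_V (z : ℕ) : V1 clp9_Om z = kap z := by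
  unfold V1 kap
  refine prod_congr rfl fun p hp => ?_
  have hp0 : p ≠ 0 := (mem_filter.mp hp).2.1.ne_zero
  unfold clp9_Om
  rw [if_neg hp0, card_singleton, Nat.cast_one]

private theorem clp9_empty (z : ℕ) : IsEmpty {p : ℕ // p ∈ PP z 1} := by
  refine ⟨fun p => ?_⟩
  have h := mem_filter.mp p.2
  have h1 := mem_range.mp h.1
  have h2 := h.2.1.two_le
  omega

open Classical in
private theorem clp9_FF (z x : ℕ) : FF (fun _ : Fin 1 => 0) (fun _ : Col (PP z 1) (Fin 1) => (1 : ℝ)) x = 1 := by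
  have hE := clp9_empty z
  unfold FF
  rw [filter_true_of_mem]
  · rw [sum_const, nsmul_eq_mul, mul_one, card_univ, Fintype.card_pi]
    simp
  · intro σ _ p
    exact hE.elim p

private theorem clp9_tot (z : ℕ) (σ : Col (PP z 1) (Fin 1)) : tot σ = 1 := by
  have hE := clp9_empty z
  unfold tot
  exact prod_of_isEmpty _

/-- the primes and the rough numbers have close exponential sums -/
theorem clp9 (A : ℕ) : ∃ B₀ : ℕ, ∀ B : ℕ, B₀ ≤ B → ∃ X₀ : ℕ, ∀ X : ℕ, X₀ ≤ X → ∃ G : ℝ, G ≤ 24 ∧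
    ∀ α : ℝ, ‖ES BV.th X α - (G : ℂ) * ES (rz (zX B X)) X α‖ ≤ X / (Real.log X) ^ A := by
  obtain ⟨B₀, hB₀⟩ := pclose7 1 1 (A + 1)
  refine ⟨B₀ + 1, fun B hB => ?_⟩
  obtain ⟨X₁, h1⟩ := hB₀ B (by omega)
  obtain ⟨X₂, h2⟩ := mumass7 1 B
  obtain ⟨X₃, h3⟩ := Filter.eventually_atTop.mp (RNum6_log.eventually_ge_atTop 3)
  have h4 := RNum6_pow 1 1 one_pos B
  obtain ⟨X₄, h4⟩ := Filter.eventually_atTop.mp h4
  refine ⟨X₁ + X₂ + X₃ + X₄ + 1, fun X hX => ?_⟩
  have hL := h3 X (by omega)
  have hzX' := h4 X (by omega)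
  rw [one_mul, Real.rpow_one] at hzX'
  have hX1 : (1 : ℝ) ≤ X := by exact_mod_cast (show 1 ≤ X by omega)
  have hX0 : (0 : ℝ) < X := by linarith
  obtain ⟨z, hz⟩ : ∃ z, z = zX B X := ⟨_, rfl⟩
  have hzB : (z : ℝ) ≤ (Real.log X) ^ B := by
    rw [hz]
    exact Nat.floor_le (by positivity)
  have hzB' : (Real.log X) ^ B < z + 1 := by
    rw [hz]
    exact Nat.lt_floor_add_one _
  have hpow : (Real.log X) ^ B₀ * Real.log X ≤ (Real.log X) ^ B := by
    rw [← pow_succ]
    exact pow_le_pow_right₀ (by linarith) hB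
  have hp1 : 1 ≤ (Real.log X) ^ B₀ := one_le_pow₀ (by linarith)
  have hz3 : (Real.log X) ^ B₀ + 1 ≤ z := by
    have : (Real.log X) ^ B₀ * 3 ≤ (Real.log X) ^ B₀ * Real.log X := by gcongr
    linarith
  have hz2 : 2 ≤ z := by
    have : (2 : ℝ) ≤ z := by linarith
    exact_mod_cast this
  have hzX : z ≤ X := by exact_mod_cast hzB.trans hzX'
  have hE := clp9_empty z
  obtain ⟨G, hG⟩ := h1 X z 1 (by omega) (by linarith) hzB (by
      rw [Nat.cast_one]
      exact Real.one_le_rpow hX1 (by norm_num)) (fun _ : Fin 1 => 0)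
    (fun a b _ => Subsingleton.elim a b) (fun _ => Nat.zero_le _) clp9_Om clp9_nice clp9_cov
    (fun _ => 1) (fun σ => by
      rw [abs_one, prod_of_isEmpty]) (fun σ _ => (clp9_tot z σ).le) 0
  have hκ := kap_pos z
  have e1 : ∀ α : ℝ, ∑ x ∈ Pre clp9_Om z X, ((((FF (fun _ : Fin 1 => 0)
      (fun _ : Col (PP z 1) (Fin 1) => (1 : ℝ)) x) ^ 2 * BV.th (x + (fun _ : Fin 1 => 0) 0) : ℝ)) : ℂ) *
      GT.e (α * x) = ES BV.th X α := by
    intro α
    have hsub : Pre clp9_Om z X ⊆ Ioc X (2 * X) := fun x hx => ((clp9_pre z X x).1 hx).1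
    unfold ES
    rw [← sum_subset hsub]
    · refine sum_congr rfl fun x _ => ?_
      rw [clp9_FF, one_pow, one_mul, add_zero]
    · intro x hx hx2
      have h5 : BV.th x = 0 := by
        unfold BV.th
        rw [if_neg]
        intro hp
        apply hx2
        rw [clp9_pre]
        refine ⟨hx, fun q hq hd => ?_⟩
        have hq1 := mem_filter.mp hq
        have hq2 := mem_range.mp hq1.1
        have hx3 := mem_Ioc.mp hx
        have h6 := (Nat.prime_dvd_prime_iff_eq hq1.2.1 hp).mp hd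
        omega
      rw [h5, Complex.ofReal_zero, zero_mul]
  have e2 : ∀ α : ℝ, ((G * kap z : ℝ) : ℂ) * ES (rz z) X α =
      (G : ℂ) * ∑ x ∈ Pre clp9_Om z X, GT.e (α * x) := by
    intro α
    have hsub : Pre clp9_Om z X ⊆ Ioc X (2 * X) := fun x hx => ((clp9_pre z X x).1 hx).1
    unfold ES
    rw [← sum_subset hsub]
    · push_cast
      rw [mul_assoc]
      congr 1
      rw [mul_sum]
      refine sum_congr rfl fun x hx => ?_
      have h5 := ((clp9_pre z X x).1 hx).2
      have h6 : rz z x = (kap z)⁻¹ := by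
        unfold rz
        unfold Rg at h5
        rw [if_pos h5]
      rw [h6]
      have h7 : ((kap z : ℝ) : ℂ) ≠ 0 := by
        rw [Complex.ofReal_ne_zero]
        exact hκ.ne'
      push_cast
      field_simp
    · intro x hx hx2
      have h6 : rz z x = 0 := by
        unfold rz
        rw [if_neg]
        intro h7
        exact hx2 ((clp9_pre z X x).2 ⟨hx, h7⟩)
      rw [h6, Complex.ofReal_zero, zero_mul]
  have hmain : ∀ α : ℝ, ‖ES BV.th X α - ((G * kap z : ℝ) : ℂ) * ES (rz z) X α‖ ≤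
      X / (Real.log X) ^ (A + 1) := by
    intro α
    rw [e2, ← e1]
    exact hG α
  refine ⟨G * kap z, ?_, fun α => ?_⟩
  · -- the masses
    have h5 := hmain 0
    have e3 : ∀ f : ℕ → ℝ, ES f X 0 = ((∑ x ∈ Ioc X (2 * X), f x : ℝ) : ℂ) := by
      intro f
      unfold ES
      push_cast
      refine sum_congr rfl fun x _ => ?_
      unfold GT.e
      simp
    rw [e3, e3, ← Complex.ofReal_mul, ← Complex.ofReal_sub, Complex.norm_real, Real.norm_eq_abs, abs_le] at h5
    have h6 := h2 X z (by omega) hz2 hzB clp9_Om clp9_nice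
    have e4 : ∑ x ∈ Ioc X (2 * X), SG.mu clp9_Om z X x = ∑ x ∈ Ioc X (2 * X), rz z x := by
      refine sum_congr rfl fun x hx => ?_
      unfold SG.mu rz
      rw [clp9_V]
      refine if_congr ?_ rfl rfl
      rw [clp9_pre]
      exact ⟨fun h => h.2, fun h => ⟨hx, h⟩⟩
    rw [e4, abs_le] at h6
    have h7 : (X : ℝ) / Real.log X ≤ X / 3 := by
      apply div_le_div_of_nonneg_left hX0.le (by norm_num) hL
    have h8 : X / 2 ≤ ∑ x ∈ Ioc X (2 * X), rz z x := by linarith [h6.1]
    have h9 : (X : ℝ) / (Real.log X) ^ (A + 1) ≤ X :=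
      div_le_self hX0.le (one_le_pow₀ (by linarith))
    have h10 : ∑ x ∈ Ioc X (2 * X), BV.th x ≤ 5 * X := by
      have t1 := Chebyshev.theta_le_log4_mul_x (x := ((2 * X : ℕ) : ℝ)) (Nat.cast_nonneg _)
      rw [Chebyshev.theta_eq_sum_Icc, Nat.floor_natCast] at t1
      have t2 : ∑ x ∈ Ioc X (2 * X), BV.th x ≤ ∑ p ∈ (Icc 0 (2 * X)).filter Nat.Prime, Real.log p := by
        unfold BV.th
        rw [← sum_filter]
        refine sum_le_sum_of_subset_of_nonneg ?_ ?_
        · intro p hp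
          rw [mem_filter, mem_Ioc] at hp
          rw [mem_filter, mem_Icc]
          exact ⟨by omega, hp.2⟩
        · intro p hp _
          rw [mem_filter] at hp
          exact Real.log_nonneg (by exact_mod_cast hp.2.one_lt.le)
      have t3 : Real.log 4 ≤ 3 / 2 := by
        have e1 : Real.log 4 = 2 * Real.log 2 := by
          rw [show (4 : ℝ) = 2 ^ 2 by norm_num, Real.log_pow]
          norm_num
        rw [e1]
        have := Real.log_two_lt_d9
        linarith
      have t4 : Real.log 4 * ((2 * X : ℕ) : ℝ) ≤ 5 * X := by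
        push_cast
        nlinarith
      linarith
    by_contra hcon
    push Not at hcon
    have h11 : 24 * (X / 2) ≤ G * kap z * ∑ x ∈ Ioc X (2 * X), rz z x := by
      apply mul_le_mul hcon.le h8 (by positivity) (by linarith)
    linarith [h5.1]
  · rw [← hz]
    refine (hmain α).trans ?_
    apply div_le_div_of_nonneg_left hX0.le (by positivity)
    exact pow_le_pow_right₀ (by linarith) (Nat.le_succ A)

end Pool.Agent.Lib.SH
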