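import Pool.Agent.Lib.SH.Dsh9
import Pool.Agent.Lib.MT.Part
import Pool.Agent.Lib.MT.GSum

/-!
# SH-Col9 (60 minutes): sums over colourings with one factor in a short interval

PROOF. `Σ_ρ G((part i ρ)_i) ≤ Σ_{s ∈ (P.powerset)^ι} G s` for `G ≥ 0` (the parts determine `ρ`: proof of `col_sum_le` in MT/Part.lean). `prt i ρ = pr (part i ρ)`, `tot ρ = ∏ prt i ρ`.
(`col9a`) So the sum is at most `∏_i ∑_s F i s`: `Finset.prod_univ_sum`.
(`col9b`) `w s := g (pr s)²/pr s ≤ 1/pr s`, `T(s) = ∏ pr (s i)`. If `R/q < T(s) ≤ R` then some `pr (s i) > Y₀` (otherwise `T ≤ Y₀^card ≤ R/q`). For this `i`: with the other coordinates fixed and `t = ∏_{j ≠ i} pr (s j)` the sum over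
`s i` of `1/pr (s i)` with `(R/t)/q < pr (s i) ≤ R/t`, `Y₀ < pr (s i)` is `≤ C kap z log q` by `dsh9` (`y = R/t`). To fix the other coordinates: for `G ≥ 0` on functions
`∑_s G s = (#P.powerset)⁻¹ ∑_s ∑_{a ∈ P.powerset} G (update s i a)` or use `Fintype.piFinset`/`Function.update`/`Finset.sum_sigma'`; the sum over the others is `(BB P g)^(card - 1)`.
-/

set_option autoImplicit false

open Finset

namespace Pool.Agent.Lib.SH

open Pool.Agent.Lib.MT Pool.Agent.Lib.SG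

theorem col9a {P : Finset ℕ} {ι : Type} [Fintype ι] [DecidableEq ι] (F : ι → Finset ℕ → ℝ) (hF : ∀ i s, 0 ≤ F i s) :
    ∑ ρ : Col P ι, ∏ i, F i (part i ρ) ≤ ∏ i, ∑ s ∈ P.powerset, F i s := by
  classical
  have hinj : ∀ ρ ρ' : Col P ι, (fun i => part i ρ) = (fun i => part i ρ') → ρ = ρ' := by
    intro ρ ρ' h
    funext p
    ext i
    have h1 : (p : ℕ) ∈ part i ρ ↔ (p : ℕ) ∈ part i ρ' := by rw [congrFun h i]
    rw [mem_part, mem_part] at h1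
    constructor
    · intro h2
      exact (h1.mp ⟨p.2, h2⟩).2
    · intro h2
      exact (h1.mpr ⟨p.2, h2⟩).2
  rw [prod_univ_sum]
  have h2 : ∑ ρ : Col P ι, ∏ i, F i (part i ρ) =
      ∑ s ∈ (univ : Finset (Col P ι)).image (fun ρ => fun i => part i ρ), ∏ i, F i (s i) := by
    rw [sum_image]
    intro a _ b _ h
    exact hinj a b h
  rw [h2]
  refine sum_le_sum_of_subset_of_nonneg ?_ fun s _ _ => prod_nonneg fun i _ => hF i _
  intro s hs
  rw [mem_image] at hs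
  obtain ⟨ρ, _, rfl⟩ := hs
  rw [Fintype.mem_piFinset]
  intro i
  rw [mem_powerset]
  exact part_subset i ρ

/-- colourings and functions -/
private theorem col9_fun {P : Finset ℕ} {ι : Type} [Fintype ι] [DecidableEq ι]
    (G : (ι → Finset ℕ) → ℝ) (hG : ∀ s, 0 ≤ G s) :
    ∑ ρ : Col P ι, G (fun i => part i ρ) ≤
      ∑ s : ι → {s // s ∈ P.powerset}, G (fun i => (s i : Finset ℕ)) := by
  classical
  let Φ : Col P ι → (ι → {s // s ∈ P.powerset}) :=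
    fun ρ i => ⟨part i ρ, mem_powerset.2 (part_subset i ρ)⟩
  have hinj : Function.Injective Φ := by
    intro ρ ρ' h
    funext p
    ext i
    have h0 : part i ρ = part i ρ' := congrArg Subtype.val (congrFun h i)
    have h1 : (p : ℕ) ∈ part i ρ ↔ (p : ℕ) ∈ part i ρ' := by rw [h0]
    rw [mem_part, mem_part] at h1
    constructor
    · intro h2
      exact (h1.mp ⟨p.2, h2⟩).2
    · intro h2
      exact (h1.mpr ⟨p.2, h2⟩).2
  have h2 : ∑ ρ : Col P ι, G (fun i => part i ρ) =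
      ∑ s ∈ (univ : Finset (Col P ι)).image Φ, G (fun i => (s i : Finset ℕ)) := by
    rw [sum_image (fun a _ b _ h => hinj h)]
  rw [h2]
  exact sum_le_sum_of_subset_of_nonneg (subset_univ _) fun s _ _ => hG _

private theorem col9_split {β M : Type} [CommMonoid M] {ι : Type} [Fintype ι] [DecidableEq ι]
    (i : ι) (F : β → M) (a : β) (r : {j // j ≠ i} → β) :
    ∏ j, F ((Equiv.funSplitAt i β).symm (a, r) j) = F a * ∏ j : {j // j ≠ i}, F (r j) := by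
  rw [Fintype.prod_eq_mul_prod_subtype_ne _ i]
  congr 1
  · simp [Equiv.funSplitAt, Equiv.piSplitAt]
  · refine prod_congr rfl fun j _ => ?_
    have := j.2
    simp [Equiv.funSplitAt, Equiv.piSplitAt, this]

private theorem col9_pr_pos {z R : ℕ} (s : {s // s ∈ (PP z R).powerset}) : 0 < MT.pr (s : Finset ℕ) := by
  unfold MT.pr
  refine prod_pos fun p hp => ?_
  have h1 := mem_powerset.1 s.2 hp
  unfold PP at h1
  exact (mem_filter.1 h1).2.1.pos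

/-- the bound with one fixed large coordinate -/
private theorem col9_fix {z R q : ℕ} {ι : Type} [Fintype ι] [DecidableEq ι] (i : ι) {Y₀ D : ℝ}
    (hD0 : 0 ≤ D) {g : ℕ → ℝ} (hg0 : ∀ n, 0 ≤ g n) (hg1 : ∀ n, g n ≤ 1)
    (hD : ∀ y : ℝ, ∑ s ∈ (PP z R).powerset.filter
      (fun s => y / q < (MT.pr s : ℝ) ∧ (MT.pr s : ℝ) ≤ y ∧ Y₀ < (MT.pr s : ℝ)), 1 / (MT.pr s : ℝ) ≤ D)
    (U : ℝ) :
    ∑ s : ι → {s // s ∈ (PP z R).powerset},
      (if U / q < ((∏ j, MT.pr (s j : Finset ℕ) : ℕ) : ℝ) ∧ ((∏ j, MT.pr (s j : Finset ℕ) : ℕ) : ℝ) ≤ U ∧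
        Y₀ < (MT.pr (s i : Finset ℕ) : ℝ) then
          ∏ j, (g (MT.pr (s j : Finset ℕ)) ^ 2 / (MT.pr (s j : Finset ℕ) : ℝ)) else 0) ≤
      D * BB (PP z R) g ^ (Fintype.card ι - 1) := by
  classical
  let β := {s // s ∈ (PP z R).powerset}
  rw [← (Equiv.funSplitAt i β).symm.sum_comp, Fintype.sum_prod_type_right]
  have hBB : BB (PP z R) g = ∑ a : β, g (MT.pr (a : Finset ℕ)) ^ 2 / (MT.pr (a : Finset ℕ) : ℝ) := by
    unfold BB
    rw [← sum_coe_sort]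
  have hcard : Fintype.card ι - 1 = Fintype.card {j // j ≠ i} := by
    rw [Fintype.card_subtype_compl, Fintype.card_subtype_eq]
  have hpow : BB (PP z R) g ^ (Fintype.card ι - 1) = ∑ r : {j // j ≠ i} → β,
      ∏ j, (g (MT.pr (r j : Finset ℕ)) ^ 2 / (MT.pr (r j : Finset ℕ) : ℝ)) := by
    have e := Finset.prod_univ_sum (fun _ : {j // j ≠ i} => (univ : Finset β))
      (fun _ a => g (MT.pr (a : Finset ℕ)) ^ 2 / (MT.pr (a : Finset ℕ) : ℝ))
    rw [prod_const, card_univ, Fintype.piFinset_univ] at e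
    rw [hcard, hBB]
    exact e
  rw [hpow, mul_sum]
  refine sum_le_sum fun r _ => ?_
  obtain ⟨W, hW⟩ : ∃ W : ℝ, W = ∏ j : {j // j ≠ i},
    (g (MT.pr (r j : Finset ℕ)) ^ 2 / (MT.pr (r j : Finset ℕ) : ℝ)) := ⟨_, rfl⟩
  obtain ⟨t, ht⟩ : ∃ t : ℕ, t = ∏ j : {j // j ≠ i}, MT.pr (r j : Finset ℕ) := ⟨_, rfl⟩
  have hW0 : 0 ≤ W := by
    rw [hW]
    exact prod_nonneg fun j _ => div_nonneg (sq_nonneg _) (Nat.cast_nonneg _)
  have ht0 : (0 : ℝ) < t := by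
    rw [ht]
    exact_mod_cast prod_pos fun j _ => col9_pr_pos (r j)
  have hT : ∀ a : β, (∏ j, MT.pr ((Equiv.funSplitAt i β).symm (a, r) j : Finset ℕ)) =
      MT.pr (a : Finset ℕ) * t := by
    intro a
    rw [ht]
    exact col9_split i (fun x : β => MT.pr (x : Finset ℕ)) a r
  have hw : ∀ a : β, (∏ j, (g (MT.pr ((Equiv.funSplitAt i β).symm (a, r) j : Finset ℕ)) ^ 2 /
      (MT.pr ((Equiv.funSplitAt i β).symm (a, r) j : Finset ℕ) : ℝ))) =
      (g (MT.pr (a : Finset ℕ)) ^ 2 / (MT.pr (a : Finset ℕ) : ℝ)) * W := by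
    intro a
    rw [hW]
    exact col9_split i (fun x : β => g (MT.pr (x : Finset ℕ)) ^ 2 / (MT.pr (x : Finset ℕ) : ℝ)) a r
  have hi : ∀ a : β, ((Equiv.funSplitAt i β).symm (a, r) i) = a := by
    intro a
    simp [Equiv.funSplitAt, Equiv.piSplitAt]
  rw [← hW]
  have hstep : ∀ a : β, (if U / q < ((∏ j, MT.pr ((Equiv.funSplitAt i β).symm (a, r) j : Finset ℕ) : ℕ) : ℝ) ∧
      ((∏ j, MT.pr ((Equiv.funSplitAt i β).symm (a, r) j : Finset ℕ) : ℕ) : ℝ) ≤ U ∧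
        Y₀ < (MT.pr ((Equiv.funSplitAt i β).symm (a, r) i : Finset ℕ) : ℝ) then
          ∏ j, (g (MT.pr ((Equiv.funSplitAt i β).symm (a, r) j : Finset ℕ)) ^ 2 /
            (MT.pr ((Equiv.funSplitAt i β).symm (a, r) j : Finset ℕ) : ℝ)) else 0) ≤
      W * (if (U / t) / q < (MT.pr (a : Finset ℕ) : ℝ) ∧ (MT.pr (a : Finset ℕ) : ℝ) ≤ U / t ∧
        Y₀ < (MT.pr (a : Finset ℕ) : ℝ) then 1 / (MT.pr (a : Finset ℕ) : ℝ) else 0) := by
    intro a
    rw [hT, hw, hi]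
    have ha0 : (0 : ℝ) < MT.pr (a : Finset ℕ) := by exact_mod_cast col9_pr_pos a
    have hwa : g (MT.pr (a : Finset ℕ)) ^ 2 / (MT.pr (a : Finset ℕ) : ℝ) ≤
        1 / (MT.pr (a : Finset ℕ) : ℝ) := by
      apply div_le_div_of_nonneg_right _ ha0.le
      exact pow_le_one₀ (hg0 _) (hg1 _)
    split_ifs with h1 h2 h2
    · rw [mul_comm]
      exact mul_le_mul_of_nonneg_left hwa hW0
    · exfalso
      apply h2
      push_cast at h1
      obtain ⟨h3, h4, h5⟩ := h1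
      refine ⟨?_, ?_, h5⟩
      · rw [div_right_comm, div_lt_iff₀ ht0]
        exact h3
      · rw [le_div_iff₀ ht0]
        exact h4
    · exact mul_nonneg hW0 (by positivity)
    · rw [mul_zero]
  refine (sum_le_sum fun a _ => hstep a).trans ?_
  rw [← mul_sum, mul_comm D W]
  refine mul_le_mul_of_nonneg_left ?_ hW0
  refine le_trans (le_of_eq ?_) (hD (U / t))
  rw [sum_filter]
  exact sum_coe_sort (PP z R).powerset (fun a => if (U / t) / q < (MT.pr a : ℝ) ∧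
    (MT.pr a : ℝ) ≤ U / t ∧ Y₀ < (MT.pr a : ℝ) then 1 / (MT.pr a : ℝ) else 0)

private theorem col9_kap (z : ℕ) : 0 ≤ kap z := by
  unfold kap
  refine prod_nonneg fun p hp => ?_
  unfold PP at hp
  have h1 : (1 : ℝ) ≤ p := by exact_mod_cast (mem_filter.1 hp).2.1.one_lt.le
  have h2 : 1 / (p : ℝ) ≤ 1 := by
    rw [div_le_one (by linarith)]
    exact h1
  linarith

theorem col9b : ∃ C : ℝ, 0 < C ∧ ∀ (ι : Type) [Fintype ι] [DecidableEq ι] [Nonempty ι] (z R q : ℕ), 2 ≤ z → 2 ≤ q → ∀ Y₀ : ℝ,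
    (z : ℝ) ≤ Y₀ → Y₀ ^ Fintype.card ι ≤ (R : ℝ) / q → ∀ g : ℕ → ℝ, (∀ n, 0 ≤ g n) → (∀ n, g n ≤ 1) →
    ∑ ρ ∈ univ.filter (fun ρ : Col (PP z R) ι => (R : ℝ) / q < tot ρ ∧ tot ρ ≤ R),
      (∏ i, g (prt i ρ) ^ 2) / (tot ρ : ℝ) ≤
      Fintype.card ι * (C * kap z * Real.log q) * BB (PP z R) g ^ (Fintype.card ι - 1) := by
  classical
  obtain ⟨C, hC, hdsh⟩ := dsh9
  refine ⟨C, hC, ?_⟩
  intro ι _ _ _ z R q hz hq Y₀ hY₀ hY g hg0 hg1
  have hq1 : (1 : ℝ) ≤ q := by exact_mod_cast (by omega : 1 ≤ q)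
  have hD0 : 0 ≤ C * kap z * Real.log q :=
    mul_nonneg (mul_nonneg hC.le (col9_kap z)) (Real.log_nonneg hq1)
  have hz0 : (0 : ℝ) ≤ z := Nat.cast_nonneg _
  have hY0 : 0 ≤ Y₀ := hz0.trans hY₀
  have hfix := fun i : ι => col9_fix (z := z) (R := R) (q := q) i (Y₀ := Y₀) hD0 hg0 hg1
    (fun y => hdsh z R q hz hq y Y₀ hY₀) (R : ℝ)
  have hterm : ∀ ρ : Col (PP z R) ι, (∏ i, g (prt i ρ) ^ 2) / (tot ρ : ℝ) =
      ∏ i, (g (MT.pr (part i ρ)) ^ 2 / (MT.pr (part i ρ) : ℝ)) := by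
    intro ρ
    rw [tot_eq, prod_div_distrib]
    push_cast
    simp only [prt_eq]
  have htot : ∀ ρ : Col (PP z R) ι, tot ρ = ∏ j, MT.pr (part j ρ) := by
    intro ρ
    rw [tot_eq]
    simp only [prt_eq]
  have hn0 : ∀ ρ : Col (PP z R) ι, 0 ≤ ∏ i, (g (MT.pr (part i ρ)) ^ 2 / (MT.pr (part i ρ) : ℝ)) :=
    fun ρ => prod_nonneg fun j _ => div_nonneg (sq_nonneg _) (Nat.cast_nonneg _)
  have h1 : ∑ ρ ∈ univ.filter (fun ρ : Col (PP z R) ι => (R : ℝ) / q < tot ρ ∧ tot ρ ≤ R),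
      (∏ i, g (prt i ρ) ^ 2) / (tot ρ : ℝ) ≤
      ∑ ρ : Col (PP z R) ι, ∑ i, (if (R : ℝ) / q < ((∏ j, MT.pr (part j ρ) : ℕ) : ℝ) ∧
        ((∏ j, MT.pr (part j ρ) : ℕ) : ℝ) ≤ R ∧ Y₀ < (MT.pr (part i ρ) : ℝ) then
          ∏ j, (g (MT.pr (part j ρ)) ^ 2 / (MT.pr (part j ρ) : ℝ)) else 0) := by
    rw [sum_filter]
    refine sum_le_sum fun ρ _ => ?_
    by_cases hρ : (R : ℝ) / q < tot ρ ∧ tot ρ ≤ R
    · rw [if_pos hρ, hterm]
      obtain ⟨h2, h3⟩ := hρ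
      have hex : ∃ i, Y₀ < (MT.pr (part i ρ) : ℝ) := by
        by_contra hcon
        push Not at hcon
        have h4 : (tot ρ : ℝ) ≤ Y₀ ^ Fintype.card ι := by
          rw [htot]
          push_cast
          calc ∏ j, (MT.pr (part j ρ) : ℝ) ≤ ∏ _j : ι, Y₀ :=
                prod_le_prod (fun j _ => Nat.cast_nonneg _) fun j _ => hcon j
            _ = Y₀ ^ Fintype.card ι := by rw [prod_const, card_univ]
        linarith
      obtain ⟨i, hi⟩ := hex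
      have hcond : (R : ℝ) / q < ((∏ j, MT.pr (part j ρ) : ℕ) : ℝ) ∧
          ((∏ j, MT.pr (part j ρ) : ℕ) : ℝ) ≤ R ∧ Y₀ < (MT.pr (part i ρ) : ℝ) := by
        rw [← htot]
        exact ⟨h2, by exact_mod_cast h3, hi⟩
      refine le_trans (le_of_eq ?_) (single_le_sum (f := fun i => (if (R : ℝ) / q <
        ((∏ j, MT.pr (part j ρ) : ℕ) : ℝ) ∧ ((∏ j, MT.pr (part j ρ) : ℕ) : ℝ) ≤ R ∧
          Y₀ < (MT.pr (part i ρ) : ℝ) then
          ∏ j, (g (MT.pr (part j ρ)) ^ 2 / (MT.pr (part j ρ) : ℝ)) else 0)) ?_ (mem_univ i))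
      · exact (if_pos hcond).symm
      · intro j _
        split_ifs
        · exact hn0 ρ
        · exact le_rfl
    · rw [if_neg hρ]
      refine sum_nonneg fun j _ => ?_
      split_ifs
      · exact hn0 ρ
      · exact le_rfl
  refine h1.trans ?_
  rw [sum_comm]
  have h5 : ∀ i : ι, ∑ ρ : Col (PP z R) ι, (if (R : ℝ) / q < ((∏ j, MT.pr (part j ρ) : ℕ) : ℝ) ∧
        ((∏ j, MT.pr (part j ρ) : ℕ) : ℝ) ≤ R ∧ Y₀ < (MT.pr (part i ρ) : ℝ) then
          ∏ j, (g (MT.pr (part j ρ)) ^ 2 / (MT.pr (part j ρ) : ℝ)) else 0) ≤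
      (C * kap z * Real.log q) * BB (PP z R) g ^ (Fintype.card ι - 1) := by
    intro i
    refine le_trans (col9_fun (P := PP z R) (fun s : ι → Finset ℕ =>
      (if (R : ℝ) / q < ((∏ j, MT.pr (s j) : ℕ) : ℝ) ∧
        ((∏ j, MT.pr (s j) : ℕ) : ℝ) ≤ R ∧ Y₀ < (MT.pr (s i) : ℝ) then
          ∏ j, (g (MT.pr (s j)) ^ 2 / (MT.pr (s j) : ℝ)) else 0)) ?_) (hfix i)
    intro s
    split_ifs
    · exact prod_nonneg fun j _ => div_nonneg (sq_nonneg _) (Nat.cast_nonneg _)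
    · exact le_rfl
  refine (sum_le_sum fun i _ => h5 i).trans (le_of_eq ?_)
  rw [sum_const, card_univ, nsmul_eq_mul]
  ring

end Pool.Agent.Lib.SH
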