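import Pool.Agent.Lib.SH.Def9

/-!
# SH-Main9 (45 minutes): many tuples (power mean)

PROOF. `T` = multiples of `F` in `[1, H]`, `#T = ⌊H/F⌋ ≥ H/(2F)` as `H ≥ 2F`... (`H/F ≥ 1`). `S x = ∑_{t ∈ T} f (x + t)`.
`∑_{x ∈ (X,2X]} f (x + t) ≥ ∑_{n ∈ (X, 2X]} f n - H M ≥ δX/2`: `x + t` runs through `(X + t, 2X + t]`, the missing `n ∈ (X, X + t]` have `f n ≤ M`; the new ones are `≥ 0`.
So `∑_x S x ≥ (H/(2F)) (δX/2)` and `∑_x (S x)^k ≥ X ((∑_x S x)/X)^k ≥ X (δH/(4F))^k` (`inner_le_nnorm_mul_nnorm`/`inv_pow_mul_sum..`: Mathlib `inner_mul_le_norm_mul_norm`.. e.g. `Real.pow_arith_mean_le_arith_mean_pow` or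
`inner`-free: `sum_div_card_le..`, `inv_mul_sum_pow_le`..: `Finset.inner..`; use `inner` you like: (∑ a)^k ≤ n^(k-1) ∑ a^k is `inner_le`= `Finset.pow_sum_div_card_le_sum_pow`... `(∑ i ∈ s, f i) ^ (n + 1) / #s ^ n ≤ ∑ i ∈ s, f i ^ (n + 1)`).
`(S x)^k = ∑_{h ∈ T^k} ∏ f (x + h i)` (`Finset.prod_univ_sum`/`Finset.sum_pow'`, `Fintype.piFinset`). Not injective `h`: at most `k² H^(k-1)` (choose `i ≠ j` with `h i = h j`), each contributes at most `X M^k`:
total `≤ k² H^(k-1) X M^k ≤ X (δH/(8F))^k` by `hnum`. Finally `(1/4)^k - (1/8)^k ≥ (1/8)^k`.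
-/

set_option autoImplicit false

open Finset

namespace Pool.Agent.Lib.SH

private theorem main9_card (F H : ℕ) (hF : 1 ≤ F) (hHF : F ≤ H) :
    (H : ℝ) / (2 * F) ≤ (((Icc 1 H).filter fun t => F ∣ t).card : ℝ) := by
  have h1 : H / F ≤ ((Icc 1 H).filter fun t => F ∣ t).card := by
    have h2 : ((Icc 1 (H / F)).image fun j => F * j) ⊆ (Icc 1 H).filter fun t => F ∣ t := by
      intro t ht
      obtain ⟨j, hj, rfl⟩ := mem_image.1 ht
      rw [mem_Icc] at hj
      rw [mem_filter, mem_Icc]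
      refine ⟨⟨Nat.mul_pos hF hj.1, ?_⟩, Dvd.intro _ rfl⟩
      calc F * j ≤ F * (H / F) := Nat.mul_le_mul_left _ hj.2
        _ ≤ H := Nat.mul_div_le H F
    have h3 := card_le_card h2
    rw [card_image_of_injective _ (fun a b hab => Nat.eq_of_mul_eq_mul_left hF hab),
      Nat.card_Icc] at h3
    simpa using h3
  have h4 : 1 ≤ H / F := (Nat.one_le_div_iff hF).2 hHF
  have h5 : H ≤ 2 * F * (H / F) := by
    have h6 := Nat.lt_mul_div_succ H hF
    nlinarith
  have hF0 : (0 : ℝ) < F := by exact_mod_cast hF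
  have h7 : (H : ℝ) ≤ 2 * F * ((H / F : ℕ) : ℝ) := by exact_mod_cast h5
  rw [div_le_iff₀ (by positivity)]
  have h8 : ((H / F : ℕ) : ℝ) ≤ (((Icc 1 H).filter fun t => F ∣ t).card : ℝ) := by
    exact_mod_cast h1
  nlinarith

private theorem main9_noninj (n H : ℕ) (T : Finset ℕ) (hT : T ⊆ Icc 1 H)
    (B : Finset (Fin (n + 1) → ℕ))
    (hB : ∀ h ∈ B, (∀ i, h i ∈ T) ∧ ¬ Function.Injective h) :
    (B.card : ℝ) ≤ ((n + 1 : ℕ) : ℝ) ^ 2 * (H : ℝ) ^ n := by
  classical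
  let P : Fin (n + 1) × Fin (n + 1) → Finset (Fin (n + 1) → ℕ) := fun q =>
    B.filter fun h => q.1 ≠ q.2 ∧ h q.1 = h q.2
  have h1 : B ⊆ (univ : Finset (Fin (n + 1) × Fin (n + 1))).biUnion P := by
    intro h hh
    have h2 := (hB h hh).2
    rw [Function.Injective] at h2
    push Not at h2
    obtain ⟨i, j, hij, hne⟩ := h2
    exact mem_biUnion.2 ⟨(i, j), mem_univ _, mem_filter.2 ⟨hh, hne, hij⟩⟩
  have hTc : T.card ≤ H := by
    have := card_le_card hT
    simpa using this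
  have h3 : ∀ q, (P q).card ≤ H ^ n := by
    rintro ⟨i, j⟩
    by_cases hij : i = j
    · have : P (i, j) = ∅ := by
        apply filter_eq_empty_iff.2
        intro h _ hh
        exact hh.1 hij
      rw [this]
      simp
    · have h4 : Set.InjOn (fun (h : Fin (n + 1) → ℕ) (l : Fin n) => h (j.succAbove l))
          (P (i, j) : Set (Fin (n + 1) → ℕ)) := by
        intro h hh h' hh' he
        have hh1 := (mem_filter.1 (mem_coe.1 hh)).2.2
        have hh1' := (mem_filter.1 (mem_coe.1 hh')).2.2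
        have h5 : ∀ l, l ≠ j → h l = h' l := by
          intro l hl
          obtain ⟨l', rfl⟩ := Fin.exists_succAbove_eq hl
          exact congrFun he l'
        funext l
        by_cases hl : l = j
        · subst hl
          change h i = h l at hh1
          change h' i = h' l at hh1'
          rw [← hh1, ← hh1']
          exact h5 i hij
        · exact h5 l hl
      have h6 : (P (i, j)).card ≤ (Fintype.piFinset fun _ : Fin n => T).card := by
        apply card_le_card_of_injOn _ _ h4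
        intro h hh
        have hh1 := (mem_filter.1 (mem_coe.1 hh)).1
        exact mem_coe.2 (Fintype.mem_piFinset.2 fun l => (hB h hh1).1 _)
      refine h6.trans ?_
      rw [Fintype.card_piFinset, prod_const, card_univ, Fintype.card_fin]
      exact Nat.pow_le_pow_left hTc n
  have h7 : B.card ≤ (n + 1) ^ 2 * H ^ n := by
    calc B.card ≤ ((univ : Finset (Fin (n + 1) × Fin (n + 1))).biUnion P).card := card_le_card h1
      _ ≤ ∑ q ∈ (univ : Finset (Fin (n + 1) × Fin (n + 1))), (P q).card := card_biUnion_le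
      _ ≤ ∑ q ∈ (univ : Finset (Fin (n + 1) × Fin (n + 1))), H ^ n := sum_le_sum fun q _ => h3 q
      _ = (n + 1) ^ 2 * H ^ n := by
          rw [sum_const, card_univ, Fintype.card_prod, Fintype.card_fin, smul_eq_mul, sq]
  exact_mod_cast h7

private theorem main9_shift (X H t : ℕ) (ht : t ≤ H) (hHX : H ≤ X) (f : ℕ → ℝ) (M δ : ℝ)
    (hf0 : ∀ n, 0 ≤ f n) (hfM : ∀ n ∈ Ioc X (3 * X), f n ≤ M) (hM : 0 ≤ M)
    (hsum : δ * X ≤ ∑ n ∈ Ioc X (2 * X), f n) (hHM : 2 * H * M ≤ δ * X) :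
    δ * X / 2 ≤ ∑ x ∈ Ioc X (2 * X), f (x + t) := by
  have h1 : ∑ x ∈ Ioc X (2 * X), f (x + t) = ∑ n ∈ Ioc (X + t) (2 * X + t), f n := by
    rw [← map_add_right_Ioc X (2 * X) t, sum_map]
    rfl
  have h2 : Ioc X (2 * X) ⊆ Ioc X (X + t) ∪ Ioc (X + t) (2 * X + t) := by
    intro n hn
    rw [mem_Ioc] at hn
    rw [mem_union, mem_Ioc, mem_Ioc]
    omega
  have h3 : ∑ n ∈ Ioc X (2 * X), f n ≤
      ∑ n ∈ Ioc X (X + t), f n + ∑ n ∈ Ioc (X + t) (2 * X + t), f n := by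
    calc ∑ n ∈ Ioc X (2 * X), f n ≤ ∑ n ∈ Ioc X (X + t) ∪ Ioc (X + t) (2 * X + t), f n :=
          sum_le_sum_of_subset_of_nonneg h2 fun n _ _ => hf0 n
      _ ≤ _ := by
          have h4 := sum_union_inter (s₁ := Ioc X (X + t)) (s₂ := Ioc (X + t) (2 * X + t)) (f := f)
          have h5 : 0 ≤ ∑ n ∈ Ioc X (X + t) ∩ Ioc (X + t) (2 * X + t), f n :=
            sum_nonneg fun n _ => hf0 n
          linarith
  have h6 : ∑ n ∈ Ioc X (X + t), f n ≤ H * M := by
    calc ∑ n ∈ Ioc X (X + t), f n ≤ ∑ n ∈ Ioc X (X + t), M := by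
          apply sum_le_sum
          intro n hn
          rw [mem_Ioc] at hn
          exact hfM n (mem_Ioc.2 ⟨hn.1, by omega⟩)
      _ = t * M := by
          rw [sum_const, Nat.card_Ioc, nsmul_eq_mul]
          congr 2
          omega
      _ ≤ H * M := by
          have : (t : ℝ) ≤ H := by exact_mod_cast ht
          nlinarith
  rw [h1]
  linarith

theorem main9 (k F H X : ℕ) (hk : 1 ≤ k) (hF : 1 ≤ F) (hX : 1 ≤ X) (hHF : 2 * F ≤ H) (hHX : H ≤ X) (f : ℕ → ℝ) (M δ : ℝ)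
    (hf0 : ∀ n, 0 ≤ f n) (hfM : ∀ n ∈ Ioc X (3 * X), f n ≤ M) (hδ : 0 < δ) (hM : 0 ≤ M)
    (hsum : δ * X ≤ ∑ n ∈ Ioc X (2 * X), f n) (hHM : 2 * H * M ≤ δ * X)
    (hnum : (k : ℝ) ^ 2 * M ^ k * (8 * F) ^ k ≤ H * δ ^ k) :
    X * (δ * H / (8 * F)) ^ k ≤ ∑ h ∈ Tp k F H, ∑ x ∈ Ioc X (2 * X), ∏ i, f (x + h i) := by
  classical
  obtain ⟨n, rfl⟩ : ∃ n, k = n + 1 := ⟨k - 1, by omega⟩
  set T : Finset ℕ := (Icc 1 H).filter fun t => F ∣ t with hTdef
  have hTH : ∀ t ∈ T, 1 ≤ t ∧ t ≤ H := fun t ht => mem_Icc.1 (mem_filter.1 ht).1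
  have hX0 : (0 : ℝ) < X := by exact_mod_cast hX
  have hF0 : (0 : ℝ) < F := by exact_mod_cast hF
  have hH0 : (0 : ℝ) < H := by
    have : 0 < H := by omega
    exact_mod_cast this
  set S : ℕ → ℝ := fun x => ∑ t ∈ T, f (x + t) with hS
  have hS0 : ∀ x, 0 ≤ S x := fun x => sum_nonneg fun t _ => hf0 _
  have hTc : (H : ℝ) / (2 * F) ≤ (T.card : ℝ) := main9_card F H hF (by omega)
  have hsumS : δ * H / (4 * F) * X ≤ ∑ x ∈ Ioc X (2 * X), S x := by
    rw [hS, sum_comm]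
    calc δ * H / (4 * F) * X = (H : ℝ) / (2 * F) * (δ * X / 2) := by
          field_simp
          ring
      _ ≤ T.card * (δ * X / 2) := mul_le_mul_of_nonneg_right hTc (by positivity)
      _ = ∑ t ∈ T, (δ * X / 2) := by rw [sum_const, nsmul_eq_mul]
      _ ≤ ∑ t ∈ T, ∑ x ∈ Ioc X (2 * X), f (x + t) := by
          apply sum_le_sum
          intro t ht
          exact main9_shift X H t (hTH t ht).2 hHX f M δ hf0 hfM hM hsum hHM
  have hcardX : (Ioc X (2 * X)).card = X := by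
    rw [Nat.card_Ioc]
    omega
  have hpow : X * (δ * H / (4 * F)) ^ (n + 1) ≤ ∑ x ∈ Ioc X (2 * X), S x ^ (n + 1) := by
    have h1 := pow_sum_div_card_le_sum_pow (s := Ioc X (2 * X)) (f := S) (fun x _ => hS0 x) n
    rw [hcardX] at h1
    refine le_trans ?_ h1
    rw [le_div_iff₀ (by positivity)]
    calc X * (δ * H / (4 * F)) ^ (n + 1) * (X : ℝ) ^ n = (δ * H / (4 * F) * X) ^ (n + 1) := by
          rw [mul_pow]
          ring
      _ ≤ (∑ x ∈ Ioc X (2 * X), S x) ^ (n + 1) :=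
          pow_le_pow_left₀ (by positivity) hsumS _
  have hexp : ∑ x ∈ Ioc X (2 * X), S x ^ (n + 1) =
      ∑ h ∈ Fintype.piFinset fun _ : Fin (n + 1) => T, ∑ x ∈ Ioc X (2 * X), ∏ i, f (x + h i) := by
    rw [sum_comm]
    apply sum_congr rfl
    intro x _
    have h1 : S x ^ (n + 1) = ∏ _i : Fin (n + 1), S x := by
      rw [prod_const, card_univ, Fintype.card_fin]
    rw [h1, hS]
    exact prod_univ_sum (fun _ : Fin (n + 1) => T) fun _ t => f (x + t)
  have hTp : Tp (n + 1) F H = (Fintype.piFinset fun _ : Fin (n + 1) => T).filter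
      fun t => Function.Injective t := by
    unfold Tp
    rw [hTdef]
  have hsplit := sum_filter_add_sum_filter_not (Fintype.piFinset fun _ : Fin (n + 1) => T)
    (fun t => Function.Injective t) (fun h => ∑ x ∈ Ioc X (2 * X), ∏ i, f (x + h i))
  rw [← hTp, ← hexp] at hsplit
  set B := (Fintype.piFinset fun _ : Fin (n + 1) => T).filter fun t => ¬ Function.Injective t
    with hBdef
  have hBc : (B.card : ℝ) ≤ ((n + 1 : ℕ) : ℝ) ^ 2 * (H : ℝ) ^ n := by
    apply main9_noninj n H T (filter_subset _ _) B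
    intro h hh
    rw [hBdef, mem_filter] at hh
    exact ⟨fun i => Fintype.mem_piFinset.1 hh.1 i, hh.2⟩
  have hnon : ∑ h ∈ B, ∑ x ∈ Ioc X (2 * X), ∏ i, f (x + h i) ≤
      X * (δ * H / (8 * F)) ^ (n + 1) := by
    calc ∑ h ∈ B, ∑ x ∈ Ioc X (2 * X), ∏ i, f (x + h i)
        ≤ ∑ h ∈ B, ∑ x ∈ Ioc X (2 * X), M ^ (n + 1) := by
          apply sum_le_sum
          intro h hh
          apply sum_le_sum
          intro x hx
          rw [hBdef, mem_filter] at hh
          have h1 : ∀ i, f (x + h i) ≤ M := by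
            intro i
            have h2 := hTH _ (Fintype.mem_piFinset.1 hh.1 i)
            rw [mem_Ioc] at hx
            exact hfM _ (mem_Ioc.2 ⟨by omega, by omega⟩)
          calc ∏ i, f (x + h i) ≤ ∏ _i : Fin (n + 1), M :=
                prod_le_prod (fun i _ => hf0 _) fun i _ => h1 i
            _ = M ^ (n + 1) := by rw [prod_const, card_univ, Fintype.card_fin]
      _ = B.card * (X * M ^ (n + 1)) := by
          rw [sum_const, sum_const, hcardX, nsmul_eq_mul, nsmul_eq_mul]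
      _ ≤ ((n + 1 : ℕ) : ℝ) ^ 2 * (H : ℝ) ^ n * (X * M ^ (n + 1)) :=
          mul_le_mul_of_nonneg_right hBc (by positivity)
      _ = X * (H ^ n * (((n + 1 : ℕ) : ℝ) ^ 2 * M ^ (n + 1))) := by ring
      _ ≤ X * (δ * H / (8 * F)) ^ (n + 1) := by
          apply mul_le_mul_of_nonneg_left _ hX0.le
          rw [div_pow, le_div_iff₀ (by positivity)]
          calc (H : ℝ) ^ n * (((n + 1 : ℕ) : ℝ) ^ 2 * M ^ (n + 1)) * (8 * F) ^ (n + 1)
              = H ^ n * (((n + 1 : ℕ) : ℝ) ^ 2 * M ^ (n + 1) * (8 * F) ^ (n + 1)) := by ring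
            _ ≤ H ^ n * (H * δ ^ (n + 1)) := mul_le_mul_of_nonneg_left hnum (by positivity)
            _ = (δ * H) ^ (n + 1) := by
                rw [mul_pow]
                ring
  have hfin : 2 * (δ * H / (8 * F)) ^ (n + 1) ≤ (δ * H / (4 * F)) ^ (n + 1) := by
    have h1 : δ * H / (4 * F) = 2 * (δ * H / (8 * F)) := by
      field_simp
      ring
    rw [h1, mul_pow]
    apply mul_le_mul_of_nonneg_right _ (by positivity)
    calc (2 : ℝ) = 2 ^ 1 := by norm_num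
      _ ≤ 2 ^ (n + 1) := pow_le_pow_right₀ (by norm_num) (by omega)
  have hfin2 : X * (2 * (δ * H / (8 * F)) ^ (n + 1)) ≤ X * (δ * H / (4 * F)) ^ (n + 1) :=
    mul_le_mul_of_nonneg_left hfin hX0.le
  linarith

end Pool.Agent.Lib.SH
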