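import Pool.Agent.Lib.SH.Def9
import Pool.Agent.Lib.MTR.FL
import Pool.Agent.Lib.MP_092512_nt.P3.B5
import Pool.Agent.Lib.MP_7b7e48_nt.GT.RoughCount
import Pool.Agent.Lib.SG.Num
import Pool.Agent.Lib.SG.RNum6

/-!
# SH-Rgh9 (90 minutes): the number of x with all x + t_j without prime factors up to X^θ (upper bound sieve)

PROOF. Let `s'` be the constant of `MTR.fl K`, `θ' = min θ (1/(8 s'))`, `y = ⌊X^θ'⌋` (`Rg ⌊X^θ⌋ n → Rg y n`), `z = zX B X ≤ y` for `X` large, `Q` = the primes `q` with `4K < q ≤ y`.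
`fl K` gives `D, cp`; `x` with all `x + t j` free of primes of `Q` satisfies `x % q ∉ Om t q` for `q ∈ Q`, so the count is `≤ ∑_x Lm D cp (Om t) x = ∑_d cp d * #{x : ∀ q ∈ d, x % q ∈ Om t q}`,
and by CRT `#{x ∈ (X, 2X] : ∀ q ∈ d, x % q ∈ Om t q} = X ∏_{q ∈ d} (#(Om t q)/q) + O(∏_{q ∈ d} #(Om t q))` (for every residue vector: `X/∏q + O(1)`; there should be a lemma in MT/Crt.lean or MTR; `∏ #(Om t q) ≤ ∏ q ≤ y^s'`).
`#D ≤ y^s'` (the products are distinct, `≤ y^s'`; or `#D ≤ ∑_{d} 1`, use `Finset.card_le_card_of_injOn` to `Icc 1 (y^s')`). Error `≤ y^s' (2 + 2 log y) y^s' ≤ X^(1/2)`.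
Main term: `g q = #(Om t q)/q ≤ K/q ≤ 2K/q`: `≤ 2 X ∏_{q ∈ Q} (1 - #(Om t q)/q)`.
`∏_{4K < q ≤ z} (1 - #(Om t q)/q) ≤ 2^(4K) V1 (Og K t) z`: `V1 (Og K t) z = ∏_{2K < q ≤ z} (1 - #(Om t q)/q)` and for `2K < q ≤ 4K` the factor is `≥ 1 - K/q ≥ 1/2`.
For `q > z ≥ log X - 1`... (`B ≥ 1`; `q ≥ z + 1 > log X ≥ t j`) the `t j` are distinct modulo `q`, `#(Om t q) = s`, and `1 - s/q ≤ (1 - 1/q)^s` (Bernoulli: `one_add_mul_le_pow`), so
`∏_{z < q ≤ y} (1 - s/q) ≤ (kap y/kap z)^s`, `kap y = GT.V y ≤ 1/log y ≤ 2/(θ' log X)` (`GT.V_le`; `PP 0 y = GT.pr y`).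
Together: count `≤ C X V1 (Og K t) z/(kap z log X)^s + X^(1/2)`, and `X^(1/2)` is smaller than the first term for `X` large (`V1 ≥ 1/(log X)`-power by `num_V1 K`, `kap z ≤ 1`).
-/

set_option autoImplicit false

open Finset

namespace Pool.Agent.Lib.SH

open Pool.Agent.Lib.MT Pool.Agent.Lib.SG

private theorem rgh9_cnt (d : Finset ℕ) (hd : ∀ p ∈ d, p.Prime) (Ω : ℕ → Finset ℕ)
    (hΩ : ∀ p ∈ d, ∀ c ∈ Ω p, c < p) (x : ℕ) :
    |((((Ioc x (2 * x)).filter (fun n => ∀ p ∈ d, n % p ∈ Ω p)).card : ℝ)) -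
        x * (∏ p ∈ d, ((Ω p).card : ℝ) / p)| ≤ ∏ p ∈ d, ((Ω p).card : ℝ) := by
  have h := Pool.Agent.Lib.MP_092512_nt.P3.B.count_int (k := 0) (fun _ => 0) (fun _ => 1)
    (fun i => i.elim0) (fun i => i.elim0) d hd Ω hΩ (fun p _ i => i.elim0) x
  have e : (Ioc x (2 * x)).filter (fun n => (∀ p ∈ d, n % p ∈ Ω p) ∧ ∀ i : Fin 0, 1 ∣ n + 0) =
      (Ioc x (2 * x)).filter (fun n => ∀ p ∈ d, n % p ∈ Ω p) := by
    apply filter_congr
    intro n _
    exact ⟨fun h => h.1, fun h => ⟨h, fun i => i.elim0⟩⟩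
  rw [e, Fin.prod_univ_zero, mul_one] at h
  exact h

private lemma rgh9_sieve (s' y X : ℕ) (Q : Finset ℕ) (hQ : ∀ q ∈ Q, q.Prime) (D : Finset (Finset ℕ))
    (cp : Finset ℕ → ℝ) (hD : ∀ d ∈ D, d ⊆ Q ∧ ∏ q ∈ d, q ≤ y ^ s') (M : ℝ) (hM : 0 ≤ M)
    (hcp : ∀ d ∈ D, |cp d| ≤ M) (Ω : ℕ → Finset ℕ) (hΩ : ∀ q ∈ Q, ∀ c ∈ Ω q, c < q) :
    ∑ x ∈ Ioc X (2 * X), MTR.Lm D cp Ω x ≤
      X * MTR.Gm D cp (fun q => ((Ω q).card : ℝ) / q) + M * ((y : ℝ) ^ s' * (y : ℝ) ^ s') := by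
  classical
  have hpr : ∀ d ∈ D, ∏ q ∈ d, ((Ω q).card : ℝ) ≤ (y : ℝ) ^ s' := by
    intro d hd
    have h1 : ∏ q ∈ d, ((Ω q).card : ℝ) ≤ ∏ q ∈ d, (q : ℝ) := by
      refine Finset.prod_le_prod (fun q _ => Nat.cast_nonneg _) fun q hq => ?_
      have h2 : (Ω q).card ≤ q := by
        calc (Ω q).card ≤ (range q).card :=
              card_le_card fun c hc => mem_range.2 (hΩ q ((hD d hd).1 hq) c hc)
          _ = q := card_range q
      exact_mod_cast h2
    refine h1.trans ?_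
    have h3 := (hD d hd).2
    have h4 : ((∏ q ∈ d, q : ℕ) : ℝ) ≤ ((y ^ s' : ℕ) : ℝ) := by exact_mod_cast h3
    push_cast at h4
    exact h4
  have hcard : (D.card : ℝ) ≤ (y : ℝ) ^ s' := by
    have h1 : D.card ≤ (Icc 1 (y ^ s')).card := by
      refine Finset.card_le_card_of_injOn (fun d => ∏ q ∈ d, q) ?_ ?_
      · intro d hd
        have hd' := Finset.mem_coe.1 hd
        simp only [Finset.coe_Icc, Set.mem_Icc]
        refine ⟨Nat.succ_le_of_lt (Finset.prod_pos fun q hq => (hQ q ((hD d hd').1 hq)).pos), (hD d hd').2⟩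
      · intro d hd e he hde
        have hd' := Finset.mem_coe.1 hd
        have he' := Finset.mem_coe.1 he
        simp only at hde
        rw [← Nat.primeFactors_prod (fun q hq => hQ q ((hD d hd').1 hq)), hde,
          Nat.primeFactors_prod (fun q hq => hQ q ((hD e he').1 hq))]
    rw [Nat.card_Icc, Nat.add_sub_cancel] at h1
    exact_mod_cast h1
  have h1 : ∑ x ∈ Ioc X (2 * X), MTR.Lm D cp Ω x =
      ∑ d ∈ D, cp d * (((Ioc X (2 * X)).filter (fun n => ∀ p ∈ d, n % p ∈ Ω p)).card : ℝ) := by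
    unfold MTR.Lm
    rw [Finset.sum_comm]
    refine Finset.sum_congr rfl fun d _ => ?_
    rw [← Finset.mul_sum]
    congr 1
    rw [Finset.card_eq_sum_ones, Finset.sum_filter]
    push_cast
    rfl
  have h2 : ∀ d ∈ D, cp d * (((Ioc X (2 * X)).filter (fun n => ∀ p ∈ d, n % p ∈ Ω p)).card : ℝ) ≤
      X * (cp d * ∏ q ∈ d, ((Ω q).card : ℝ) / q) + M * (y : ℝ) ^ s' := by
    intro d hd
    have h3 := rgh9_cnt d (fun p hp => hQ p ((hD d hd).1 hp)) Ω (fun p hp => hΩ p ((hD d hd).1 hp)) X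
    have h4 : cp d * ((((Ioc X (2 * X)).filter (fun n => ∀ p ∈ d, n % p ∈ Ω p)).card : ℝ) -
        X * (∏ p ∈ d, ((Ω p).card : ℝ) / p)) ≤ M * (y : ℝ) ^ s' := by
      refine (le_abs_self _).trans ?_
      rw [abs_mul]
      exact mul_le_mul (hcp d hd) (h3.trans (hpr d hd)) (abs_nonneg _) hM
    linarith
  rw [h1]
  refine (Finset.sum_le_sum h2).trans ?_
  rw [Finset.sum_add_distrib, ← Finset.mul_sum, Finset.sum_const, nsmul_eq_mul]
  have h5 : (D.card : ℝ) * (M * (y : ℝ) ^ s') ≤ M * ((y : ℝ) ^ s' * (y : ℝ) ^ s') := by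
    have h6 : 0 ≤ M * (y : ℝ) ^ s' := by positivity
    calc (D.card : ℝ) * (M * (y : ℝ) ^ s') ≤ (y : ℝ) ^ s' * (M * (y : ℝ) ^ s') :=
          mul_le_mul_of_nonneg_right hcard h6
      _ = _ := by ring
  unfold MTR.Gm
  linarith

private lemma rgh9_split (w z y : ℕ) (hwz : w ≤ z) (hzy : z ≤ y) (f : ℕ → ℝ) :
    ∏ q ∈ PP w y, f q = (∏ q ∈ PP w z, f q) * ∏ q ∈ PP z y, f q := by
  rw [← Finset.prod_filter_mul_prod_filter_not (PP w y) (fun q => q ≤ z)]
  congr 1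
  · refine Finset.prod_congr ?_ fun _ _ => rfl
    ext q
    simp only [PP, mem_filter, mem_range]
    constructor
    · rintro ⟨⟨h1, h2, h3⟩, h4⟩
      exact ⟨by omega, h2, h3⟩
    · rintro ⟨h1, h2, h3⟩
      exact ⟨⟨by omega, h2, h3⟩, by omega⟩
  · refine Finset.prod_congr ?_ fun _ _ => rfl
    ext q
    simp only [PP, mem_filter, mem_range]
    constructor
    · rintro ⟨⟨h1, h2, h3⟩, h4⟩
      exact ⟨by omega, h2, by omega⟩
    · rintro ⟨h1, h2, h3⟩
      exact ⟨⟨by omega, h2, by omega⟩, by omega⟩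

private lemma rgh9_om_le {s : ℕ} (t : Fin s → ℕ) (p : ℕ) : (Om t p).card ≤ s := by
  classical
  rcases Nat.eq_zero_or_pos p with h0 | h0
  · subst h0
    unfold Om
    simp
  have h1 : Om t p ⊆ univ.image (fun j : Fin s => (p - t j % p) % p) := by
    intro c hc
    unfold Om at hc
    rw [mem_filter, mem_range] at hc
    obtain ⟨h2, i, h3⟩ := hc
    rw [mem_image]
    refine ⟨i, mem_univ i, ?_⟩
    have h4 : t i % p < p := Nat.mod_lt _ h0
    have h5 : (c + t i % p) % p = 0 := by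
      rw [Nat.add_mod, Nat.mod_mod, ← Nat.add_mod]
      exact Nat.mod_eq_zero_of_dvd h3
    rcases Nat.eq_zero_or_pos (t i % p) with h6 | h6
    · rw [h6, Nat.sub_zero, Nat.mod_self]
      rw [h6, Nat.add_zero, Nat.mod_eq_of_lt h2] at h5
      exact h5.symm
    · have h7 : p ∣ c + t i % p := Nat.dvd_of_mod_eq_zero h5
      obtain ⟨m, hm⟩ := h7
      have h8 : m = 1 := by
        have h9 : p * m < p * 2 := by omega
        have h10 : m < 2 := Nat.lt_of_mul_lt_mul_left h9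
        rcases Nat.eq_zero_or_pos m with h11 | h11
        · rw [h11] at hm
          omega
        · omega
      rw [h8, mul_one] at hm
      rw [Nat.mod_eq_of_lt (by omega)]
      omega
  calc (Om t p).card ≤ (univ.image (fun j : Fin s => (p - t j % p) % p)).card := card_le_card h1
    _ ≤ (univ : Finset (Fin s)).card := card_image_le
    _ = s := by simp

private lemma rgh9_om_ge {s : ℕ} (t : Fin s → ℕ) (ht : Function.Injective t) (p : ℕ)
    (h1 : ∀ j, 1 ≤ t j ∧ t j < p) : s ≤ (Om t p).card := by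
  classical
  calc s = (univ : Finset (Fin s)).card := by simp
    _ ≤ (Om t p).card := by
        refine Finset.card_le_card_of_injOn (fun j => p - t j) ?_ ?_
        · intro j _
          have h2 := h1 j
          rw [Finset.mem_coe]
          unfold Om
          rw [mem_filter, mem_range]
          refine ⟨Nat.sub_lt_self h2.1 h2.2.le, j, ?_⟩
          simp only
          rw [Nat.sub_add_cancel h2.2.le]
        · intro i _ j _ hij
          have h2 := h1 i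
          have h3 := h1 j
          simp only at hij
          exact ht (by omega)

private lemma rgh9_nice (K s : ℕ) (hs : s ≤ K) (t : Fin s → ℕ) : Nice K (Og K t) := by
  refine ⟨fun p => ?_, fun p hp => ?_, fun p c hc => ?_⟩
  · unfold Og
    split_ifs
    · simp
    · exact (rgh9_om_le t p).trans hs
  · unfold Og
    rw [if_pos hp]
    simp
  · unfold Og at hc
    split_ifs at hc
    · simp at hc
    · unfold Om at hc
      rw [mem_filter, mem_range] at hc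
      exact hc.1

private lemma rgh9_main (K s z y : ℕ) (hs : s ≤ K) (hz : 4 * K ≤ z) (hzy : z ≤ y) (t : Fin s → ℕ)
    (ht : Function.Injective t) (ht1 : ∀ j, 1 ≤ t j ∧ t j ≤ z) :
    ∏ q ∈ PP (4 * K) y, (1 - ((Om t q).card : ℝ) / q) ≤
      2 ^ (4 * K + 1) * V1 (Og K t) z * (kap y / kap z) ^ s := by
  have hle : ∀ q : ℕ, ((Om t q).card : ℝ) ≤ s := fun q => by exact_mod_cast rgh9_om_le t q
  have hsK : (s : ℝ) ≤ K := by exact_mod_cast hs
  have hhalf : ∀ q : ℕ, 2 * K < q → (1 : ℝ) / 2 ≤ 1 - ((Om t q).card : ℝ) / q := by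
    intro q hq
    have hq0 : (0 : ℝ) < q := by exact_mod_cast (by omega : 0 < q)
    have hq1 : 2 * (K : ℝ) ≤ q := by exact_mod_cast hq.le
    have h1 : ((Om t q).card : ℝ) / q ≤ 1 / 2 := by
      rw [div_le_iff₀ hq0]
      have := hle q
      linarith
    linarith
  have hA0 : 0 ≤ ∏ q ∈ PP (4 * K) z, (1 - ((Om t q).card : ℝ) / q) := by
    refine Finset.prod_nonneg fun q hq => ?_
    unfold PP at hq
    rw [mem_filter] at hq
    have := hhalf q (by omega)
    linarith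
  have hA : ∏ q ∈ PP (4 * K) z, (1 - ((Om t q).card : ℝ) / q) ≤ 2 ^ (4 * K + 1) * V1 (Og K t) z := by
    unfold V1
    rw [rgh9_split 0 (4 * K) z (Nat.zero_le _) hz (fun p => 1 - ((Og K t p).card : ℝ) / p)]
    have h1 : ∏ q ∈ PP (4 * K) z, (1 - ((Og K t q).card : ℝ) / q) =
        ∏ q ∈ PP (4 * K) z, (1 - ((Om t q).card : ℝ) / q) := by
      refine Finset.prod_congr rfl fun q hq => ?_
      unfold PP at hq
      rw [mem_filter] at hq
      unfold Og
      rw [if_neg (by omega)]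
    rw [h1]
    have h2 : ((1 : ℝ) / 2) ^ (4 * K + 1) ≤ ∏ q ∈ PP 0 (4 * K), (1 - ((Og K t q).card : ℝ) / q) := by
      have h3 : ((1 : ℝ) / 2) ^ (PP 0 (4 * K)).card ≤ ∏ q ∈ PP 0 (4 * K), (1 - ((Og K t q).card : ℝ) / q) := by
        rw [← Finset.prod_const]
        refine Finset.prod_le_prod (fun _ _ => by norm_num) fun q _ => ?_
        unfold Og
        split_ifs with h4
        · simp
          norm_num
        · exact hhalf q (by omega)
      refine le_trans ?_ h3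
      refine pow_le_pow_of_le_one (by norm_num) (by norm_num) ?_
      unfold PP
      refine (card_filter_le _ _).trans ?_
      rw [card_range]
    have h5 : (1 : ℝ) = 2 ^ (4 * K + 1) * ((1 : ℝ) / 2) ^ (4 * K + 1) := by
      rw [← mul_pow]
      norm_num
    calc ∏ q ∈ PP (4 * K) z, (1 - ((Om t q).card : ℝ) / q)
        = 2 ^ (4 * K + 1) * ((1 : ℝ) / 2) ^ (4 * K + 1) * ∏ q ∈ PP (4 * K) z, (1 - ((Om t q).card : ℝ) / q) := by
          rw [← h5, one_mul]
      _ ≤ 2 ^ (4 * K + 1) * (∏ q ∈ PP 0 (4 * K), (1 - ((Og K t q).card : ℝ) / q)) *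
          ∏ q ∈ PP (4 * K) z, (1 - ((Om t q).card : ℝ) / q) := by gcongr
      _ = _ := by ring
  have hB : ∏ q ∈ PP z y, (1 - ((Om t q).card : ℝ) / q) ≤ (kap y / kap z) ^ s := by
    have h1 : kap y / kap z = ∏ q ∈ PP z y, (1 - 1 / (q : ℝ)) := by
      have h2 : kap y = kap z * ∏ q ∈ PP z y, (1 - 1 / (q : ℝ)) :=
        rgh9_split 0 z y (Nat.zero_le _) hzy (fun q => 1 - 1 / (q : ℝ))
      rw [h2, mul_div_cancel_left₀ _ (kap_pos z).ne']
    rw [h1, ← Finset.prod_pow]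
    refine Finset.prod_le_prod (fun q hq => ?_) fun q hq => ?_
    · unfold PP at hq
      rw [mem_filter] at hq
      have := hhalf q (by omega)
      linarith
    · unfold PP at hq
      rw [mem_filter] at hq
      obtain ⟨_, hqp, hqz⟩ := hq
      have h3 : s ≤ (Om t q).card := rgh9_om_ge t ht q (fun j => ⟨(ht1 j).1, lt_of_le_of_lt (ht1 j).2 hqz⟩)
      have h4 : (s : ℝ) ≤ (Om t q).card := by exact_mod_cast h3
      have hq2 : (2 : ℝ) ≤ q := by exact_mod_cast hqp.two_le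
      have h5 : 1 / (q : ℝ) ≤ 1 / 2 := one_div_le_one_div_of_le (by norm_num) hq2
      have h6 : 1 + (s : ℝ) * (-(1 / (q : ℝ))) ≤ (1 + -(1 / (q : ℝ))) ^ s :=
        one_add_mul_le_pow (by linarith) s
      have h7 : (s : ℝ) / q ≤ ((Om t q).card : ℝ) / q := by gcongr
      have h8 : (1 : ℝ) + -(1 / (q : ℝ)) = 1 - 1 / (q : ℝ) := by ring
      rw [h8] at h6
      have h9 : (s : ℝ) * (-(1 / (q : ℝ))) = -((s : ℝ) / q) := by ring
      rw [h9] at h6
      linarith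
  rw [rgh9_split (4 * K) z y hz hzy]
  have hpow : 0 ≤ (kap y / kap z) ^ s := pow_nonneg (div_nonneg (kap_pos y).le (kap_pos z).le) s
  refine (mul_le_mul_of_nonneg_left hB hA0).trans ?_
  exact mul_le_mul_of_nonneg_right hA hpow

open Classical in
theorem rgh9 (K s B : ℕ) (hs : s ≤ K) (hB : 1 ≤ B) (θ : ℝ) (hθ : 0 < θ) : ∃ C : ℝ, 0 < C ∧ ∃ X₀ : ℕ, ∀ X : ℕ,
    X₀ ≤ X → ∀ t : Fin s → ℕ, Function.Injective t → (∀ j, 1 ≤ t j ∧ (t j : ℝ) ≤ Real.log X) →
    (((Ioc X (2 * X)).filter fun x => ∀ j, Rg ⌊(X : ℝ) ^ θ⌋₊ (x + t j)).card : ℝ) ≤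
      C * X * V1 (Og K t) (zX B X) / (kap (zX B X) * Real.log X) ^ s := by
  obtain ⟨s', hs'1, hfl⟩ := MTR.fl K
  obtain ⟨CV, hCV1, hV⟩ := num_V1 K
  obtain ⟨X₁, hX₁⟩ := RNum6_loglog CV (by linarith) (2 * K) B
  have hs'r : (1 : ℝ) ≤ s' := by exact_mod_cast hs'1
  set θ' : ℝ := min θ (1 / (8 * s')) with hθ'
  have hθ'0 : 0 < θ' := lt_min hθ (by positivity)
  have hθ'1 : θ' ≤ θ := min_le_left _ _
  have hθ'2 : θ' ≤ 1 / (8 * s') := min_le_right _ _
  have hθ's : θ' * s' ≤ 1 / 8 := by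
    calc θ' * s' ≤ 1 / (8 * s') * s' := by gcongr
      _ = 1 / 8 := by field_simp
  have e1 : ∀ᶠ X : ℕ in Filter.atTop, 4 ≤ (X : ℝ) ^ θ' :=
    ((tendsto_rpow_atTop hθ'0).comp tendsto_natCast_atTop_atTop).eventually_ge_atTop 4
  have e2 := RNum6_log.eventually_ge_atTop (4 * K + 10 : ℝ)
  have e3 := RNum6_pow 2 θ' hθ'0 B
  have e4 := RNum6_log.eventually_ge_atTop (2 * Real.log 2 / θ')
  have e5 := RNum6_pow 4 (1 / 4) (by norm_num) 1
  have e6 := RNum6_pow 1 (1 / 2) (by norm_num) (s + 1)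
  obtain ⟨X₀, hX₀⟩ := Filter.eventually_atTop.mp (e1.and (e2.and (e3.and (e4.and (e5.and
    (e6.and (Filter.eventually_ge_atTop X₁)))))))
  refine ⟨2 * 2 ^ (4 * K + 1) * (2 / θ') ^ s + 1, by positivity, X₀, fun X hX t ht ht1 => ?_⟩
  obtain ⟨g1, g2, g3, g4, g5, g6, g7⟩ := hX₀ X hX
  set L : ℝ := Real.log X with hL
  have hLK : (0 : ℝ) ≤ K := Nat.cast_nonneg K
  have hL10 : 10 ≤ L := by linarith
  have hX1 : (1 : ℝ) < X := by
    by_contra hc
    push Not at hc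
    have : L ≤ 0 := by
      rw [hL]
      exact Real.log_nonpos (Nat.cast_nonneg X) hc
    linarith
  have hX0 : (0 : ℝ) < X := by linarith
  set y : ℕ := ⌊(X : ℝ) ^ θ'⌋₊ with hy
  set z : ℕ := zX B X with hz
  have hyle : (y : ℝ) ≤ (X : ℝ) ^ θ' := Nat.floor_le (by positivity)
  have hyge : (X : ℝ) ^ θ' / 2 ≤ y := by
    have h1 : (X : ℝ) ^ θ' < y + 1 := Nat.lt_floor_add_one _
    linarith
  have hy2 : 2 ≤ y := by
    have h1 : (2 : ℝ) ≤ y := by linarith
    exact_mod_cast h1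
  have hypos : (0 : ℝ) < y := by exact_mod_cast (by omega : 0 < y)
  have hzle : (z : ℝ) ≤ L ^ B := Nat.floor_le (by positivity)
  have hLB : L ≤ L ^ B := le_self_pow₀ (by linarith) (by omega)
  have hzge : L < z + 1 := lt_of_le_of_lt hLB (Nat.lt_floor_add_one _)
  have hzy : z ≤ y := by
    have h1 : (z : ℝ) ≤ y := by
      have h2 : L ^ B ≤ (X : ℝ) ^ θ' / 2 := by linarith
      linarith
    exact_mod_cast h1
  have hzK : 4 * K ≤ z := by
    have h1 : (4 * (K : ℝ) + 10 : ℝ) < z + 1 := by linarith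
    have h2 : 4 * K + 10 < z + 1 := by exact_mod_cast h1
    omega
  have hz2 : 2 ≤ z := by
    have h1 : (4 * (K : ℝ) + 10 : ℝ) < z + 1 := by linarith
    have h2 : 4 * K + 10 < z + 1 := by exact_mod_cast h1
    omega
  have htz : ∀ j, 1 ≤ t j ∧ t j ≤ z := by
    intro j
    refine ⟨(ht1 j).1, ?_⟩
    have h1 : (t j : ℝ) < z + 1 := lt_of_le_of_lt (ht1 j).2 hzge
    have h2 : t j < z + 1 := by exact_mod_cast h1
    omega
  -- the logarithm of y
  have hlogy : θ' / 2 * L ≤ Real.log y := by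
    have h1 : Real.log ((X : ℝ) ^ θ' / 2) ≤ Real.log y := Real.log_le_log (by positivity) hyge
    rw [Real.log_div (by positivity) (by norm_num), Real.log_rpow hX0] at h1
    have h2 : 2 * Real.log 2 ≤ L * θ' := by
      rw [div_le_iff₀ hθ'0] at g4
      exact g4
    rw [← hL] at h1
    linarith
  have hlogy0 : 0 < Real.log y := by
    have : 0 < θ' / 2 * L := by positivity
    linarith
  have hlogyX : Real.log y ≤ L := by
    rw [hL]
    refine Real.log_le_log hypos (hyle.trans ?_)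
    have h1 : θ' ≤ 1 := by
      have h2 : (1 : ℝ) / (8 * s') ≤ 1 := by
        rw [div_le_one (by positivity)]
        linarith
      linarith
    calc (X : ℝ) ^ θ' ≤ (X : ℝ) ^ (1 : ℝ) := Real.rpow_le_rpow_of_exponent_le hX1.le h1
      _ = X := Real.rpow_one _
  have hkapy : kap y ≤ 2 / (θ' * L) := by
    have h1 : kap y = GT.V y := by
      unfold kap GT.V PP GT.pr
      refine Finset.prod_congr ?_ fun _ _ => rfl
      ext q
      simp only [mem_filter, mem_range]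
      constructor
      · rintro ⟨h2, h3, _⟩
        exact ⟨h2, h3⟩
      · rintro ⟨h2, h3⟩
        exact ⟨h2, h3, h3.pos⟩
    rw [h1]
    refine (GT.V_le y hy2).trans ?_
    have h2 : 2 / (θ' * L) = 1 / (θ' / 2 * L) := by
      field_simp
    rw [h2]
    exact one_div_le_one_div_of_le (by positivity) hlogy
  -- the sieve
  obtain ⟨D, cp, cn, hD, hcc, hind, hg⟩ := hfl y hy2 (PP (4 * K) y) (by
    intro q hq
    unfold PP at hq
    rw [mem_filter, mem_range] at hq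
    exact ⟨hq.2.1, hq.2.2.le, by omega⟩)
  have hΩlt : ∀ q ∈ PP (4 * K) y, ∀ c ∈ Om t q, c < q := by
    intro q _ c hc
    unfold Om at hc
    rw [mem_filter, mem_range] at hc
    exact hc.1
  have hcount : (((Ioc X (2 * X)).filter fun x => ∀ j, Rg ⌊(X : ℝ) ^ θ⌋₊ (x + t j)).card : ℝ) ≤
      ∑ x ∈ Ioc X (2 * X), MTR.Lm D cp (Om t) x := by
    rw [Finset.card_eq_sum_ones, Finset.sum_filter]
    push_cast
    refine Finset.sum_le_sum fun x _ => ?_
    have h1 := (hind (Om t) x).1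
    refine le_trans ?_ h1
    split_ifs with h2 h3
    · exact le_rfl
    · exfalso
      apply h3
      intro q hq hx
      unfold Om at hx
      rw [mem_filter, mem_range] at hx
      obtain ⟨_, i, hi⟩ := hx
      have hq' := hq
      unfold PP at hq'
      rw [mem_filter, mem_range] at hq'
      have h4 : q ∈ PP 0 ⌊(X : ℝ) ^ θ⌋₊ := by
        unfold PP
        rw [mem_filter, mem_range]
        refine ⟨?_, hq'.2.1, hq'.2.1.pos⟩
        have h5 : y ≤ ⌊(X : ℝ) ^ θ⌋₊ := by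
          refine Nat.floor_le_floor ?_
          exact Real.rpow_le_rpow_of_exponent_le hX1.le hθ'1
        omega
      refine h2 i q h4 ?_
      have h6 : (x + t i) % q = (x % q + t i) % q := (Nat.mod_add_mod x q (t i)).symm
      exact Nat.dvd_of_mod_eq_zero (h6.trans (Nat.mod_eq_zero_of_dvd hi))
    · exact zero_le_one
    · exact le_rfl
  have hM0 : (0 : ℝ) ≤ 2 + 2 * Real.log y := by positivity
  have hsv := rgh9_sieve s' y X (PP (4 * K) y) (fun q hq => by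
    unfold PP at hq
    rw [mem_filter] at hq
    exact hq.2.1) D cp hD (2 + 2 * Real.log y) hM0 (fun d hd => (hcc d hd).1) (Om t) hΩlt
  have hGm := (hg (fun q => ((Om t q).card : ℝ) / q) (by
    intro q hq
    refine ⟨by positivity, ?_⟩
    have h1 : ((Om t q).card : ℝ) ≤ K := by exact_mod_cast (rgh9_om_le t q).trans hs
    have h2 : ((Om t q).card : ℝ) ≤ 2 * K := by linarith
    gcongr)).2.1
  have hmain := rgh9_main K s z y hs hzK hzy t ht htz
  have hkz := kap_pos z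
  have hkap1 : kap z ≤ 1 := by
    unfold kap
    refine Finset.prod_le_one (fun p hp => ?_) fun p hp => ?_
    · unfold PP at hp
      rw [mem_filter] at hp
      have h2 : (2 : ℝ) ≤ p := by exact_mod_cast hp.2.1.two_le
      have : 1 / (p : ℝ) ≤ 1 / 2 := one_div_le_one_div_of_le (by norm_num) h2
      linarith
    · have : 0 ≤ 1 / (p : ℝ) := by positivity
      linarith
  obtain ⟨hV0, hV1', hV2⟩ := hV (Og K t) (rgh9_nice K s hs t) z hz2
  have hVL : (V1 (Og K t) z)⁻¹ ≤ L := hV2.trans (hX₁ X z g7 hz2 hzle)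
  -- the error
  have herr : (2 + 2 * Real.log y) * ((y : ℝ) ^ s' * (y : ℝ) ^ s') ≤ (X : ℝ) ^ (1 / 2 : ℝ) := by
    have h1 : (y : ℝ) ^ s' ≤ (X : ℝ) ^ (1 / 8 : ℝ) := by
      calc (y : ℝ) ^ s' ≤ ((X : ℝ) ^ θ') ^ s' := by gcongr
        _ = (X : ℝ) ^ (θ' * s') := by rw [Real.rpow_mul hX0.le, Real.rpow_natCast]
        _ ≤ _ := Real.rpow_le_rpow_of_exponent_le hX1.le hθ's
    have h2 : 2 + 2 * Real.log y ≤ (X : ℝ) ^ (1 / 4 : ℝ) := by
      have h3 : 4 * L ^ 1 ≤ (X : ℝ) ^ (1 / 4 : ℝ) := g5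
      rw [pow_one] at h3
      linarith
    calc (2 + 2 * Real.log y) * ((y : ℝ) ^ s' * (y : ℝ) ^ s')
        ≤ (X : ℝ) ^ (1 / 4 : ℝ) * ((X : ℝ) ^ (1 / 8 : ℝ) * (X : ℝ) ^ (1 / 8 : ℝ)) := by gcongr
      _ = (X : ℝ) ^ (1 / 2 : ℝ) := by
          rw [← Real.rpow_add hX0, ← Real.rpow_add hX0]
          norm_num
  have hR : (X : ℝ) ^ (1 / 2 : ℝ) ≤ X * V1 (Og K t) z / (kap z * L) ^ s := by
    rw [le_div_iff₀ (by positivity)]
    have h1 : (kap z * L) ^ s ≤ L ^ s := by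
      refine pow_le_pow_left₀ (by positivity) ?_ s
      exact mul_le_of_le_one_left (by linarith) hkap1
    have h2 : L ^ (s + 1) ≤ (X : ℝ) ^ (1 / 2 : ℝ) := by
      have := g6
      rw [one_mul] at this
      exact this
    have h3 : 1 ≤ V1 (Og K t) z * L := by
      have h4 := mul_le_mul_of_nonneg_left hVL hV0.le
      rw [mul_inv_cancel₀ hV0.ne'] at h4
      exact h4
    have h5 : (X : ℝ) ^ (1 / 2 : ℝ) * (X : ℝ) ^ (1 / 2 : ℝ) = X := by
      rw [← Real.rpow_add hX0]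
      norm_num
    have h6 : 0 < (X : ℝ) ^ (1 / 2 : ℝ) := by positivity
    calc (X : ℝ) ^ (1 / 2 : ℝ) * (kap z * L) ^ s ≤ (X : ℝ) ^ (1 / 2 : ℝ) * L ^ s := by gcongr
      _ = (X : ℝ) ^ (1 / 2 : ℝ) * L ^ s * 1 := by ring
      _ ≤ (X : ℝ) ^ (1 / 2 : ℝ) * L ^ s * (V1 (Og K t) z * L) := by gcongr
      _ = (X : ℝ) ^ (1 / 2 : ℝ) * L ^ (s + 1) * V1 (Og K t) z := by ring
      _ ≤ (X : ℝ) ^ (1 / 2 : ℝ) * (X : ℝ) ^ (1 / 2 : ℝ) * V1 (Og K t) z := by gcongr
      _ = X * V1 (Og K t) z := by rw [h5]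
  have hmain2 : ∏ q ∈ PP (4 * K) y, (1 - ((Om t q).card : ℝ) / q) ≤
      2 ^ (4 * K + 1) * V1 (Og K t) z * ((2 / θ') ^ s / (kap z * L) ^ s) := by
    refine hmain.trans ?_
    have h1 : (kap y / kap z) ^ s ≤ (2 / θ') ^ s / (kap z * L) ^ s := by
      rw [← div_pow]
      refine pow_le_pow_left₀ (div_nonneg (kap_pos y).le (kap_pos z).le) ?_ s
      have h2 : 2 / θ' / (kap z * L) = 2 / (θ' * L) / kap z := by
        field_simp
      rw [h2]
      gcongr
    gcongr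
  calc (((Ioc X (2 * X)).filter fun x => ∀ j, Rg ⌊(X : ℝ) ^ θ⌋₊ (x + t j)).card : ℝ)
      ≤ X * MTR.Gm D cp (fun q => ((Om t q).card : ℝ) / q) +
          (2 + 2 * Real.log y) * ((y : ℝ) ^ s' * (y : ℝ) ^ s') := hcount.trans hsv
    _ ≤ X * (2 * (2 ^ (4 * K + 1) * V1 (Og K t) z * ((2 / θ') ^ s / (kap z * L) ^ s))) +
          X * V1 (Og K t) z / (kap z * L) ^ s := by
        refine add_le_add ?_ (herr.trans hR)
        refine mul_le_mul_of_nonneg_left ?_ hX0.le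
        refine hGm.trans ?_
        exact mul_le_mul_of_nonneg_left hmain2 (by norm_num)
    _ = _ := by
        field_simp

end Pool.Agent.Lib.SH
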