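import Pool.Agent.Lib.SH.Avg9
import Pool.Agent.Lib.SH.Rgh9

/-!
# SH-Mom9 (40 minutes): moments of the number of rough numbers in short intervals

PROOF. `s = 0` is trivial (`C = 1`). `s ≥ 1`: for a natural number `R`: `R^s ≤ s^s (1 + R(R-1)...(R-s+1))` (`R ≤ s`: clear; `R ≥ s`: `R - i ≥ R/s` for `i < s`),
`Nat.descFactorial`. `(Rt y H x).descFactorial s` = number of injective `t : Fin s → [1, H]` with all `x + t j` rough (embeddings: `Fintype.card_embedding_eq`, or an induction), so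
`∑_x (Rt ..)^s ≤ s^s (X + ∑_{t ∈ Ij s H} #{x : all x + t j rough}) ≤ s^s (X + C X ∑_t V1 (Og s t) z/(kap z log X)^s) ≤ s^s (1 + C C') X` by `rgh9 s s 1` and `avg9 s s 1` (`B = 1`).
-/

set_option autoImplicit false

open Finset

namespace Pool.Agent.Lib.SH

open Pool.Agent.Lib.MT Pool.Agent.Lib.SG

private theorem mom9_desc (s R : ℕ) (hs : 1 ≤ s) : R ^ s ≤ s ^ s * (1 + R.descFactorial s) := by
  rcases le_or_gt R s with h | h
  · calc R ^ s ≤ s ^ s := Nat.pow_le_pow_left h s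
      _ ≤ s ^ s * (1 + R.descFactorial s) := Nat.le_mul_of_pos_right _ (by omega)
  · have h1 : R ^ s ≤ s ^ s * R.descFactorial s := by
      rw [Nat.descFactorial_eq_prod_range]
      have e1 : s ^ s = ∏ _i ∈ range s, s := by rw [prod_const, card_range]
      have e2 : R ^ s = ∏ _i ∈ range s, R := by rw [prod_const, card_range]
      rw [e1, e2, ← prod_mul_distrib]
      refine prod_le_prod' fun i hi => ?_
      have hi' : i < s := mem_range.1 hi
      obtain ⟨a, rfl⟩ : ∃ a, s = i + 1 + a := ⟨s - (i + 1), by omega⟩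
      obtain ⟨b, rfl⟩ : ∃ b, R = i + 1 + a + b := ⟨R - (i + 1 + a), by omega⟩
      have e3 : i + 1 + a + b - i = 1 + a + b := by omega
      rw [e3]
      nlinarith [Nat.zero_le (i * a), Nat.zero_le (i * b), Nat.zero_le (a * a), Nat.zero_le (a * b)]
    exact h1.trans (Nat.mul_le_mul_left _ (by omega))

open Classical in
private theorem mom9_emb (s y H x : ℕ) :
    (Rt y H x).descFactorial s ≤ ((Ij s H).filter fun t => ∀ j, Rg y (x + t j)).card := by
  have h1 : (Rt y H x).descFactorial s =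
      Fintype.card (Fin s ↪ {t // t ∈ (Icc 1 H).filter fun t => Rg y (x + t)}) := by
    rw [Fintype.card_embedding_eq, Fintype.card_fin, Fintype.card_coe]
    rfl
  rw [h1, ← card_univ]
  refine card_le_card_of_injOn (fun e => fun j => ((e j : {t // t ∈ (Icc 1 H).filter
    fun t => Rg y (x + t)}) : ℕ)) ?_ ?_
  · intro e _
    rw [mem_coe, mem_filter]
    refine ⟨?_, ?_⟩
    · unfold Ij
      rw [mem_filter, Fintype.mem_piFinset]
      refine ⟨fun j => (mem_filter.1 (e j).2).1, ?_⟩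
      intro a b hab
      exact e.injective (Subtype.ext hab)
    · intro j
      exact (mem_filter.1 (e j).2).2
  · intro e _ e' _ h
    ext j
    exact congrFun h j

theorem mom9 (s : ℕ) (θ : ℝ) (hθ : 0 < θ) : ∃ C : ℝ, 0 < C ∧ ∃ X₀ : ℕ, ∀ X : ℕ, X₀ ≤ X → ∀ H : ℕ,
    (H : ℝ) ≤ Real.log X →
    ∑ x ∈ Ioc X (2 * X), (Rt ⌊(X : ℝ) ^ θ⌋₊ H x : ℝ) ^ s ≤ C * X := by
  classical
  have hcardI : ∀ X : ℕ, ((Ioc X (2 * X)).card : ℝ) = X := by
    intro X
    rw [Nat.card_Ioc]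
    have : 2 * X - X = X := by omega
    rw [this]
  rcases Nat.eq_zero_or_pos s with hs | hs
  · subst hs
    refine ⟨1, one_pos, 0, fun X _ H _ => ?_⟩
    simp only [pow_zero]
    rw [sum_const, nsmul_eq_mul, hcardI]
    linarith
  obtain ⟨C, hC, X₁, h1⟩ := rgh9 s s 1 le_rfl le_rfl θ hθ
  obtain ⟨C', hC', X₂, h2⟩ := avg9 s s 1 le_rfl le_rfl
  refine ⟨(s : ℝ) ^ s * (1 + C * C'), by positivity, max (max X₁ X₂) 2, fun X hX H hH => ?_⟩
  have hX1 : X₁ ≤ X := le_trans (le_trans (le_max_left _ _) (le_max_left _ _)) hX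
  have hX2 : X₂ ≤ X := le_trans (le_trans (le_max_right _ _) (le_max_left _ _)) hX
  have hX3 : 2 ≤ X := le_trans (le_max_right _ _) hX
  have hlog : 0 < Real.log X := Real.log_pos (by exact_mod_cast hX3)
  have hX0 : (0 : ℝ) ≤ X := Nat.cast_nonneg _
  obtain ⟨y, hy⟩ : ∃ y : ℕ, y = ⌊(X : ℝ) ^ θ⌋₊ := ⟨_, rfl⟩
  obtain ⟨Dn, hDn⟩ : ∃ Dn : ℝ, Dn = (kap (zX 1 X) * Real.log X) ^ s := ⟨_, rfl⟩
  have hDn0 : 0 < Dn := by
    rw [hDn]
    exact pow_pos (mul_pos (kap_pos _) hlog) s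
  have hav := h2 X hX2 H hH
  rw [← hDn] at hav
  have hrg : ∀ t ∈ Ij s H, (((Ioc X (2 * X)).filter fun x => ∀ j, Rg y (x + t j)).card : ℝ) ≤
      C * X / Dn * V1 (Og s t) (zX 1 X) := by
    intro t ht
    unfold Ij at ht
    rw [mem_filter, Fintype.mem_piFinset] at ht
    obtain ⟨ht1, ht2⟩ := ht
    have h3 := h1 X hX1 t ht2 (fun j => by
      have h4 := mem_Icc.1 (ht1 j)
      refine ⟨h4.1, ?_⟩
      have h5 : (t j : ℝ) ≤ H := by exact_mod_cast h4.2
      exact h5.trans hH)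
    rw [← hy, ← hDn] at h3
    refine le_trans (le_of_eq ?_) (h3.trans (le_of_eq ?_))
    · congr 1
    · ring
  have hdouble : ∑ x ∈ Ioc X (2 * X), (((Ij s H).filter fun t => ∀ j, Rg y (x + t j)).card : ℝ) =
      ∑ t ∈ Ij s H, (((Ioc X (2 * X)).filter fun x => ∀ j, Rg y (x + t j)).card : ℝ) := by
    simp only [card_filter]
    push_cast
    rw [sum_comm]
  have hsum : ∑ x ∈ Ioc X (2 * X), ((Rt y H x).descFactorial s : ℝ) ≤ C * C' * X := by
    calc ∑ x ∈ Ioc X (2 * X), ((Rt y H x).descFactorial s : ℝ)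
        ≤ ∑ x ∈ Ioc X (2 * X), (((Ij s H).filter fun t => ∀ j, Rg y (x + t j)).card : ℝ) :=
          sum_le_sum fun x _ => by exact_mod_cast mom9_emb s y H x
      _ = ∑ t ∈ Ij s H, (((Ioc X (2 * X)).filter fun x => ∀ j, Rg y (x + t j)).card : ℝ) := hdouble
      _ ≤ ∑ t ∈ Ij s H, C * X / Dn * V1 (Og s t) (zX 1 X) := sum_le_sum hrg
      _ = C * X / Dn * ∑ t ∈ Ij s H, V1 (Og s t) (zX 1 X) := by rw [mul_sum]
      _ ≤ C * X / Dn * (C' * Dn) := mul_le_mul_of_nonneg_left hav (by positivity)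
      _ = C * C' * X := by
          field_simp
  have hpt : ∀ x ∈ Ioc X (2 * X), (Rt y H x : ℝ) ^ s ≤
      (s : ℝ) ^ s * (1 + ((Rt y H x).descFactorial s : ℝ)) := by
    intro x _
    exact_mod_cast mom9_desc s (Rt y H x) hs
  rw [← hy]
  calc ∑ x ∈ Ioc X (2 * X), (Rt y H x : ℝ) ^ s
      ≤ ∑ x ∈ Ioc X (2 * X), (s : ℝ) ^ s * (1 + ((Rt y H x).descFactorial s : ℝ)) :=
        sum_le_sum hpt
    _ = (s : ℝ) ^ s * (X + ∑ x ∈ Ioc X (2 * X), ((Rt y H x).descFactorial s : ℝ)) := by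
        rw [← mul_sum, sum_add_distrib, sum_const, nsmul_eq_mul, mul_one, hcardI]
    _ ≤ (s : ℝ) ^ s * (X + C * C' * X) :=
        mul_le_mul_of_nonneg_left (by linarith) (by positivity)
    _ = _ := by ring

end Pool.Agent.Lib.SH
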