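import Pool.Agent.Lib.SG.RNum6

/-!
# SH-Num8: numerical facts for large X used in Rat8 (helper10)
-/

set_option autoImplicit false

open Filter Topology

namespace Pool.Agent.Lib.SH

open Pool.Agent.Lib.SG

theorem num8 (C₁ : ℝ) (hC : 1 ≤ C₁) (J k B : ℕ) (hJ : 1 ≤ J) (hk : 1 ≤ k) :
    ∃ X₀ : ℕ, ∀ X : ℕ, X₀ ≤ X → ∀ R : ℕ, R = ⌊(X : ℝ) ^ (1 / 1000 : ℝ)⌋₊ → ∀ ℓ : ℝ,
      ℓ = Real.log R / (16 * C₁ * J * k) →
      (2 ≤ R ∧ (R : ℝ) ≤ (X : ℝ) ^ (1 / 5 : ℝ) ∧ ((R * R : ℕ) : ℝ) ≤ (X : ℝ) ^ (2 / 5 : ℝ) ∧ R ≤ X) ∧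
      (Real.log (3 * X) / 2000 ≤ Real.log R ∧ 1 ≤ Real.log (3 * X) ∧ 2 ≤ Real.log X) ∧
      (2 ≤ Real.exp ℓ ∧ (Real.log X) ^ B ≤ Real.exp ℓ) ∧
      (Real.log X ≤ (X : ℝ) ^ (1 / 2 : ℝ) ∧ Real.log X ≤ X) := by
  have e1 : ∀ᶠ X : ℕ in atTop, 2 ≤ (X : ℝ) ^ (1 / 1000 : ℝ) :=
    ((tendsto_rpow_atTop (show (0 : ℝ) < 1 / 1000 by norm_num)).comp
      tendsto_natCast_atTop_atTop).eventually_ge_atTop 2
  have e2 := RNum6_log.eventually_ge_atTop 10000
  have e3 := RNum6_pow 2 (1 / (100000 * C₁ * J * k)) (by positivity) (B + 0)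
  have e3' := RNum6_pow 2 (1 / (100000 * C₁ * J * k)) (by positivity) 0
  have e4 := RNum6_pow 1 (1 / 2) (by norm_num) 1
  obtain ⟨X₀, hX₀⟩ := eventually_atTop.mp (e1.and (e2.and (e3.and (e3'.and e4))))
  refine ⟨max X₀ 3, fun X hX R hR ℓ hℓ => ?_⟩
  obtain ⟨h1, h2, h3, h3', h4⟩ := hX₀ X (le_trans (le_max_left _ _) hX)
  have hHX : 3 ≤ X := le_trans (le_max_right _ _) hX
  rw [one_mul, pow_one] at h4
  have hX3 : (3 : ℝ) ≤ X := by
    have : 3 ≤ X := by omega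
    exact_mod_cast this
  have hX0 : (0 : ℝ) < X := by linarith
  have hX1 : (1 : ℝ) ≤ X := by linarith
  have hR2 : 2 ≤ R := by
    rw [hR]
    exact Nat.le_floor (by exact_mod_cast h1)
  have hRle : (R : ℝ) ≤ (X : ℝ) ^ (1 / 1000 : ℝ) := by
    rw [hR]
    exact Nat.floor_le (by positivity)
  have hRlt : (X : ℝ) ^ (1 / 1000 : ℝ) < R + 1 := by
    rw [hR]
    exact Nat.lt_floor_add_one _
  have hRle5 : (R : ℝ) ≤ (X : ℝ) ^ (1 / 5 : ℝ) :=
    hRle.trans (Real.rpow_le_rpow_of_exponent_le hX1 (by norm_num))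
  have hR0 : (0 : ℝ) < R := by
    have : 0 < R := by omega
    exact_mod_cast this
  have hR2' : (2 : ℝ) ≤ R := by exact_mod_cast hR2
  have hl3 : Real.log (3 * X) = Real.log 3 + Real.log X := Real.log_mul (by norm_num) hX0.ne'
  have hlog3 : Real.log 3 ≤ 2 := by
    have := Real.log_le_sub_one_of_pos (show (0 : ℝ) < 3 by norm_num)
    linarith
  have hlog3' : 0 ≤ Real.log 3 := Real.log_nonneg (by norm_num)
  have hlogR : Real.log X / 1000 - 1 ≤ Real.log R := by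
    have a1 : (X : ℝ) ^ (1 / 1000 : ℝ) ≤ 2 * R := by linarith
    have a2 := Real.log_le_log (by positivity) a1
    rw [Real.log_rpow hX0, Real.log_mul (by norm_num) hR0.ne'] at a2
    have a3 := Real.log_two_lt_d9
    linarith
  have hlogR6 : Real.log X / 1500 ≤ Real.log R := by linarith
  have hCJk : (0 : ℝ) < 16 * C₁ * J * k := by
    have : (0 : ℝ) < J := by exact_mod_cast hJ
    have : (0 : ℝ) < k := by exact_mod_cast hk
    positivity
  have hℓ1 : Real.log X * (1 / (100000 * C₁ * J * k)) ≤ ℓ := by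
    rw [hℓ, mul_one_div, div_le_div_iff₀ (by linarith) hCJk]
    have a1 : 0 ≤ C₁ * J * k := by linarith
    calc Real.log X * (16 * C₁ * J * k) ≤ (1500 * Real.log R) * (16 * C₁ * J * k) := by
          apply mul_le_mul_of_nonneg_right _ hCJk.le
          linarith
      _ = Real.log R * (24000 * (C₁ * J * k)) := by ring
      _ ≤ Real.log R * (100000 * (C₁ * J * k)) := by
          apply mul_le_mul_of_nonneg_left _ (by linarith)
          linarith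
      _ = Real.log R * (100000 * C₁ * J * k) := by ring
  have hexp : (X : ℝ) ^ (1 / (100000 * C₁ * J * k)) ≤ Real.exp ℓ := by
    rw [Real.rpow_def_of_pos hX0]
    exact Real.exp_le_exp.mpr hℓ1
  refine ⟨⟨hR2, hRle5, ?_, ?_⟩, ⟨?_, ?_, by linarith⟩, ⟨?_, ?_⟩, ⟨h4, ?_⟩⟩
  · push_cast
    calc (R : ℝ) * R ≤ (X : ℝ) ^ (1 / 5 : ℝ) * (X : ℝ) ^ (1 / 5 : ℝ) := by gcongr
      _ = (X : ℝ) ^ (2 / 5 : ℝ) := by
        rw [← Real.rpow_add hX0]
        norm_num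
  · have a1 : (X : ℝ) ^ (1 / 5 : ℝ) ≤ X := by
      calc (X : ℝ) ^ (1 / 5 : ℝ) ≤ (X : ℝ) ^ (1 : ℝ) :=
            Real.rpow_le_rpow_of_exponent_le (by linarith) (by norm_num)
        _ = X := Real.rpow_one _
    exact_mod_cast hRle5.trans a1
  · rw [hl3]
    linarith
  · rw [hl3]
    linarith
  · rw [pow_zero, mul_one] at h3'
    exact h3'.trans hexp
  · rw [Nat.add_zero] at h3
    have a1 : (0 : ℝ) ≤ (Real.log X) ^ B := by
      have : 0 ≤ Real.log X := by linarith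
      positivity
    linarith
  · have := Real.log_le_sub_one_of_pos hX0
    linarith

end Pool.Agent.Lib.SH
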