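import Pool.Agent.Lib.SG.Num
import Pool.Agent.Lib.SH.Num8
import Pool.Agent.Lib.SG.Defs7
import Pool.Agent.Lib.MT.Ratio

/-!
# SH-Rat8: the Maynard-Tao weights, uniformly for all tuples with entries at most log X (helper10)
-/

set_option autoImplicit false

open Finset

namespace Pool.Agent.Lib.SH

open Pool.Agent.Lib.SG

open Pool.Agent.Lib.MT

theorem rat8_mu {P : Finset ℕ} {ι : Type} [Fintype ι] [DecidableEq ι] (σ : Col P ι) :
    |MT.mu σ| = 1 := by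
  unfold MT.mu
  rw [abs_prod]
  refine prod_eq_one fun p _ => ?_
  split_ifs
  · exact abs_one
  · rw [abs_neg, abs_one]

theorem rat8_zz {P : Finset ℕ} {ι : Type} [Fintype ι] [DecidableEq ι] (g : ℕ → ℝ)
    (hg0 : ∀ n, 0 ≤ g n) (hg1 : ∀ n, g n ≤ 1) (R : ℕ) (σ : Col P ι) : |zz g R σ| ≤ 1 := by
  unfold zz
  rw [abs_mul, rat8_mu, one_mul]
  unfold yy
  split_ifs
  · rw [abs_of_nonneg (prod_nonneg fun i _ => hg0 _)]
    exact prod_le_one (fun i _ => hg0 _) fun i _ => hg1 _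
  · rw [abs_zero]
    exact zero_le_one

theorem rat8_supp {P : Finset ℕ} {ι : Type} [Fintype ι] [DecidableEq ι] (g : ℕ → ℝ)
    (R : ℕ) (σ : Col P ι) (h : zz g R σ ≠ 0) : tot σ ≤ R := by
  by_contra hc
  apply h
  unfold zz yy
  rw [if_neg hc, mul_zero]

private theorem rat8_n1 (C J : ℝ) (hC : 1 ≤ C) (hJ : 1 ≤ J) : 16 ≤ 16 * C * J := by
  nlinarith

private theorem rat8_n3 (C J l : ℝ) (hJ : J + 1 ≤ 2 * J) (h0 : 0 ≤ C * l) :
    2 * (J + 1) * C * l * 4 ≤ l * (16 * C * J) := by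
  nlinarith

private theorem rat8_n4 (C J m l y : ℝ)
    (h : 16384000 * C ^ 2 * (m + 1) * (y / 2000) ≤ J * l) :
    512 * C * (m + 1) * y * (16 * C) ≤ J * l := by
  have e : 16384000 * C ^ 2 * (m + 1) * (y / 2000) = 512 * C * (m + 1) * y * (16 * C) := by ring
  rw [e] at h
  exact h

/-- distinct shifts are distinct modulo the large primes -/
private theorem rat8_ok (a b H z p : ℕ) (hz : H ≤ z) (hzp : z < p) (ha : a ≤ H) (hb : b ≤ H)
    (hab : a ≠ b) : ¬ a ≡ b [MOD p] := by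
  intro h
  unfold Nat.ModEq at h
  rw [Nat.mod_eq_of_lt (by omega), Nat.mod_eq_of_lt (by omega)] at h
  exact hab h

/-- one shift `t` outside the tuple -/
private theorem rat8_S3 (k K B : ℕ) : ∃ c : ℝ, 0 < c ∧ ∃ X₀ : ℕ, ∀ X z R : ℕ, X₀ ≤ X →
    16 * (k : ℝ) ^ 2 + Real.log X + 2 ≤ z → (z : ℝ) ≤ (Real.log X) ^ B →
    (R : ℝ) ≤ (X : ℝ) ^ (1 / 5 : ℝ) → ((R * R : ℕ) : ℝ) ≤ (X : ℝ) ^ (2 / 5 : ℝ) → 2 ≤ R → R ≤ X →
    Real.log X ≤ X → ∀ h : Fin k → ℕ, Function.Injective h → (∀ i, (h i : ℝ) ≤ Real.log X) →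
    ∀ Ω : ℕ → Finset ℕ, Nice K Ω →
    ∀ g : ℕ → ℝ, (∀ n, 0 ≤ g n) → (∀ n, g n ≤ 1) → (∀ a b, a ≤ b → g b ≤ g a) →
    ∀ t : ℕ, 1 ≤ t → (t : ℝ) ≤ Real.log X → (∀ i, t ≠ h i) →
    ∃ u : Col (PP z R) (Option (Fin k)) → ℝ, (∀ τ, |u τ| ≤ 1) ∧ (∀ τ, u τ ≠ 0 → tot τ ≤ R * R) ∧
      (∀ x ∈ Ioc X (2 * X), (x + t).Prime → FF (fun o : Option (Fin k) => o.elim t h) (lam u) x =
        FF h (lam (zz g R : Col (PP z R) (Fin k) → ℝ)) x) ∧
      ∑ x ∈ Pre Ω z X, (FF (fun o : Option (Fin k) => o.elim t h) (lam u) x) ^ 2 ≤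
        X * V1 Ω z * (4 * (BB (PP z R) g) ^ k / (kap z * Real.log R)) + (X : ℝ) ^ (1 - c) := by
  obtain ⟨c, hc, X₁, hS⟩ := S1_upper (Option (Fin k)) K B
  refine ⟨c, hc, X₁, fun X z R hX hz hzB hR hRR hR2 hRX hlX h hinj hhH Ω hN g hg0 hg1 hg2 t ht1 ht hti => ?_⟩
  have hP : ∀ p ∈ PP z R, p.Prime := by
    intro p hp
    unfold PP at hp
    exact (mem_filter.mp hp).2.1
  have hPz : ∀ p ∈ PP z R, z < p := by
    intro p hp
    unfold PP at hp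
    exact (mem_filter.mp hp).2.2
  have hPR : ∀ p ∈ PP z R, p ≤ R := by
    intro p hp
    unfold PP at hp
    have := (mem_filter.mp hp).1
    rw [mem_range] at this
    omega
  have hkk : (k : ℝ) ≤ (k : ℝ) ^ 2 := by
    rcases Nat.eq_zero_or_pos k with h | h
    · rw [h]
      norm_num
    · have : (1 : ℝ) ≤ k := by exact_mod_cast h
      nlinarith
  have hk0 : (0 : ℝ) ≤ k := Nat.cast_nonneg k
  have hlog0 : 0 ≤ Real.log X := Real.log_natCast_nonneg X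
  have hzk : 2 * (k + 1) ≤ z := by
    have : (2 * (k + 1 : ℕ) : ℝ) ≤ z := by
      push_cast
      nlinarith
    exact_mod_cast this
  have hz1 : 1 ≤ z := by omega
  have hle : ∀ n : ℕ, (n : ℝ) ≤ Real.log X → n < z := by
    intro n hn
    have : (n : ℝ) < z := by
      have : 0 ≤ 16 * (k : ℝ) ^ 2 := by positivity
      linarith
    exact_mod_cast this
  have hleX : ∀ n : ℕ, (n : ℝ) ≤ Real.log X → n ≤ X := by
    intro n hn
    exact_mod_cast hn.trans hlX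
  obtain ⟨u, hu1, hu2, hu3, hu4⟩ := star hP R t (by omega) h g hg0 hg1
  have h1 := hS X z R (R * R) hX (by
      rw [Fintype.card_option, Fintype.card_fin]
      omega) hzB hR hRR Ω hN.card
    (fun p _ => hN.lt p) (fun o : Option (Fin k) => o.elim t h)
    (fun o => by
      rcases o with _ | i
      · exact hleX t ht
      · exact hleX (h i) (hhH i))
    u hu1 hu2 (fun p hp i j hij => by
      have hzp := hPz p hp
      rcases i with _ | i <;> rcases j with _ | j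
      · exact absurd rfl hij
      · exact rat8_ok t (h j) (max t (h j)) z p (max_le (hle t ht).le (hle _ (hhH j)).le) hzp
          (le_max_left _ _) (le_max_right _ _) (hti j)
      · exact rat8_ok (h i) t (max t (h i)) z p (max_le (hle t ht).le (hle _ (hhH i)).le) hzp
          (le_max_right _ _) (le_max_left _ _) (hti i).symm
      · exact rat8_ok (h i) (h j) (max (h i) (h j)) z p (max_le (hle _ (hhH i)).le (hle _ (hhH j)).le) hzp
          (le_max_left _ _) (le_max_right _ _) (fun e => hij (by rw [hinj e])))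
  have h2 : ∑ τ : Col (PP z R) (Option (Fin k)), u τ ^ 2 / (tot τ : ℝ) ≤
      4 * (BB (PP z R) g) ^ k / (kap z * Real.log R) := by
    have := S3_main (ι := Fin k) z R (by rw [Fintype.card_fin]; omega) (by omega) g hg0 hg2 hR2
    rw [Fintype.card_fin] at this
    exact hu3.trans this
  have hV : 0 ≤ V1 Ω z := by
    unfold V1
    refine prod_nonneg fun p hp => ?_
    have hp' : p.Prime := by
      unfold PP at hp
      exact (mem_filter.mp hp).2.1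
    have h3 : (Ω p).card ≤ p :=
      (card_le_card (fun c hc => mem_range.2 (hN.lt p c hc))).trans (card_range p).le
    have h4 : (0 : ℝ) < p := by exact_mod_cast hp'.pos
    have h5 : ((Ω p).card : ℝ) / p ≤ 1 := by
      rw [div_le_one h4]
      exact_mod_cast h3
    linarith
  refine ⟨u, hu1, hu2, fun x hx hpr => ?_, ?_⟩
  · rw [mem_Ioc] at hx
    refine hu4 x (fun p hp hd => ?_)
    have h6 := (Nat.prime_dvd_prime_iff_eq (hP p hp) hpr).mp hd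
    have h7 := hPR p hp
    omega
  · refine h1.trans ?_
    have h4 : (X : ℝ) * V1 Ω z * ∑ τ : Col (PP z R) (Option (Fin k)), u τ ^ 2 / (tot τ : ℝ) ≤
        X * V1 Ω z * (4 * (BB (PP z R) g) ^ k / (kap z * Real.log R)) := by
      apply mul_le_mul_of_nonneg_left h2
      positivity
    linarith

private theorem rat8_V {k K : ℕ} (Ω : ℕ → Finset ℕ) (h : Fin k → ℕ) (hN : Nice K Ω)
    (hCov : Cov Ω h) (z : ℕ) (i : Fin k) : V1 Ω z = kap z * V2 Ω (h i) z := by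
  classical
  unfold V1 kap V2
  rw [← prod_mul_distrib]
  apply prod_congr rfl
  intro p hp
  have hpp : p.Prime := by
    unfold PP at hp
    exact (mem_filter.mp hp).2.1
  have hp2 : 2 ≤ p := hpp.two_le
  have hone : ((Ω p).filter (fun c => p ∣ c + h i)).card = 1 := by
    rw [card_eq_one]
    refine ⟨(p - h i % p) % p, ?_⟩
    ext c
    rw [mem_filter, mem_singleton]
    have hlt : h i % p < p := Nat.mod_lt _ hpp.pos
    have hdvd : p ∣ (p - h i % p) % p + h i := by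
      have h1 : (p - h i % p) % p + h i ≡ (p - h i % p) + h i % p [MOD p] :=
        Nat.ModEq.add (Nat.mod_modEq _ _) (Nat.mod_modEq _ _).symm
      rw [Nat.sub_add_cancel hlt.le] at h1
      exact (Nat.modEq_zero_iff_dvd.mp (h1.trans (Nat.modEq_zero_iff_dvd.mpr dvd_rfl)))
    have hmem : (p - h i % p) % p ∈ Ω p := by
      have h2 := hCov p hpp i _ hdvd
      rwa [Nat.mod_mod] at h2
    constructor
    · rintro ⟨hc, hd⟩
      have h2 : c + h i ≡ (p - h i % p) % p + h i [MOD p] :=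
        (Nat.modEq_zero_iff_dvd.mpr hd).trans (Nat.modEq_zero_iff_dvd.mpr hdvd).symm
      exact Nat.ModEq.eq_of_lt_of_lt (Nat.ModEq.add_right_cancel' _ h2) (hN.lt p c hc)
        (Nat.mod_lt _ hpp.pos)
    · rintro rfl
      exact ⟨hmem, hdvd⟩
  have hsum := card_filter_add_card_filter_not (s := Ω p) (fun c => p ∣ c + h i)
  rw [hone] at hsum
  have hsumR : (1 : ℝ) + (((Ω p).filter (fun c => ¬ p ∣ c + h i)).card : ℝ) =
      ((Ω p).card : ℝ) := by exact_mod_cast hsum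
  rw [← hsumR]
  have hp0 : (p : ℝ) ≠ 0 := by
    have : (2 : ℝ) ≤ p := by exact_mod_cast hp2
    linarith
  have hp1 : (p : ℝ) - 1 ≠ 0 := by
    have : (2 : ℝ) ≤ p := by exact_mod_cast hp2
    linarith
  field_simp
  ring

theorem rat8 (m : ℕ) (hm : 1 ≤ m) : ∃ (J k : ℕ) (C₁ : ℝ), 1 ≤ J ∧ 1 ≤ k ∧ k = 2 ^ J ∧ 1 ≤ C₁ ∧
    ∀ K B : ℕ, ∃ c : ℝ, 0 < c ∧ ∃ X₀ : ℕ, ∀ X z R : ℕ, X₀ ≤ X →
    16 * (k : ℝ) ^ 2 + Real.log X + 2 ≤ z → (z : ℝ) ≤ (Real.log X) ^ B →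
    R = ⌊(X : ℝ) ^ (1 / 1000 : ℝ)⌋₊ → ∀ ℓ : ℝ, ℓ = Real.log R / (16 * C₁ * J * k) →
    ∀ b : ℝ, b = BB (PP z R) (gg J ℓ) → 1 ≤ b ∧
    ∀ h : Fin k → ℕ, Function.Injective h → (∀ i, (h i : ℝ) ≤ Real.log X) →
    ∀ Ω : ℕ → Finset ℕ, Nice K Ω →
    ∑ x ∈ Pre Ω z X, (FF h (lam (zz (gg J ℓ) R : Col (PP z R) (Fin k) → ℝ)) x) ^ 2 ≤
      X * V1 Ω z * b ^ k + (X : ℝ) ^ (1 - c) ∧
    (Cov Ω h → ∀ i, X * V1 Ω z * b ^ k * ((m + 1) / k) * Real.log (3 * X) - X / (Real.log X) ^ 3 ≤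
      ∑ x ∈ Pre Ω z X, (FF h (lam (zz (gg J ℓ) R : Col (PP z R) (Fin k) → ℝ)) x) ^ 2 * BV.th (x + h i)) ∧
    ∀ t : ℕ, 1 ≤ t → (t : ℝ) ≤ Real.log X → (∀ i, t ≠ h i) →
      ∃ u : Col (PP z R) (Option (Fin k)) → ℝ, (∀ τ, |u τ| ≤ 1) ∧ (∀ τ, u τ ≠ 0 → tot τ ≤ R * R) ∧
        (∀ x ∈ Ioc X (2 * X), (x + t).Prime → FF (fun o : Option (Fin k) => o.elim t h) (lam u) x =
          FF h (lam (zz (gg J ℓ) R : Col (PP z R) (Fin k) → ℝ)) x) ∧
        ∑ x ∈ Pre Ω z X, (FF (fun o : Option (Fin k) => o.elim t h) (lam u) x) ^ 2 ≤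
          X * V1 Ω z * (4 * b ^ k / (kap z * Real.log R)) + (X : ℝ) ^ (1 - c) := by
  obtain ⟨C₁, hC₁, hDDu⟩ := DD_upper
  obtain ⟨J, hJ⟩ : ∃ J : ℕ, 16384000 * C₁ ^ 2 * (m + 1) ≤ (J : ℝ) := exists_nat_ge _
  have hm0 : (0 : ℝ) ≤ m := Nat.cast_nonneg m
  have hJ1 : 1 ≤ J := by
    have h1 : (1 : ℝ) ≤ J := by
      refine le_trans ?_ hJ
      have : (1 : ℝ) ≤ C₁ ^ 2 := one_le_pow₀ hC₁
      nlinarith
    exact_mod_cast h1
  have hJR : (1 : ℝ) ≤ J := by exact_mod_cast hJ1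
  obtain ⟨k, hk⟩ : ∃ k : ℕ, k = 2 ^ J := ⟨_, rfl⟩
  have hk1 : 1 ≤ k := by
    rw [hk]
    exact Nat.one_le_two_pow
  have hkR : (1 : ℝ) ≤ k := by exact_mod_cast hk1
  have hk2 : (k : ℝ) = 2 ^ J := by
    rw [hk]
    push_cast
    rfl
  refine ⟨J, k, C₁, hJ1, hk1, hk, hC₁, fun K B => ?_⟩
  obtain ⟨c₁, hc₁, X₁, hS1⟩ := S1_upper (Fin k) K B
  obtain ⟨c₃, hc₃, X₃, hS3⟩ := rat8_S3 k K B
  obtain ⟨X₂, hS2⟩ := S2_lower (Fin k) K B 3
  obtain ⟨C₂, hC₂, hV1⟩ := num_V1 K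
  obtain ⟨X₆, hθ⟩ := theta_low
  obtain ⟨c, hc0, hcc1, hcc3⟩ : ∃ c : ℝ, 0 < c ∧ c ≤ c₁ ∧ c ≤ c₃ :=
    ⟨min c₁ c₃, by positivity, min_le_left _ _, min_le_right _ _⟩
  obtain ⟨X₇, hnum⟩ := num8 C₁ hC₁ J k B hJ1 hk1
  refine ⟨c, hc0, max (max (max X₁ X₂) X₃) (max X₆ X₇),
    fun X z R hX hz hzB hR ℓ hℓ b hb => ?_⟩
  simp only [max_le_iff] at hX
  obtain ⟨⟨⟨hX1, hX2⟩, hX3⟩, hX6, hX7⟩ := hX
  obtain ⟨⟨n1, n2, n3, n4⟩, ⟨n5, n6, n7⟩, ⟨n8, n9⟩, ⟨n10, n11⟩⟩ := hnum X hX7 R hR ℓ hℓ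
  have hkk : (k : ℝ) ≤ (k : ℝ) ^ 2 := by nlinarith
  have hlog0 : 0 ≤ Real.log X := Real.log_natCast_nonneg X
  have hzk : 2 * (k + 1) ≤ z := by
    have : (2 * (k + 1 : ℕ) : ℝ) ≤ z := by
      push_cast
      nlinarith
    exact_mod_cast this
  have hz16 : 16 * k ^ 2 ≤ z := by
    have : ((16 * k ^ 2 : ℕ) : ℝ) ≤ z := by
      push_cast
      linarith
    exact_mod_cast this
  have hle : ∀ n : ℕ, (n : ℝ) ≤ Real.log X → n < z := by
    intro n hn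
    have : (n : ℝ) < z := by
      have : 0 ≤ 16 * (k : ℝ) ^ 2 := by positivity
      linarith
    exact_mod_cast this
  have hleX : ∀ n : ℕ, (n : ℝ) ≤ Real.log X → n ≤ X := by
    intro n hn
    exact_mod_cast hn.trans n11
  have hlogR : 0 < Real.log R := by linarith
  have hCJk : (0 : ℝ) < 16 * C₁ * J * k := by positivity
  have hℓ0 : 0 ≤ ℓ := by
    rw [hℓ]
    positivity
  obtain ⟨κ, hκ⟩ : ∃ κ : ℝ, κ = kap z := ⟨_, rfl⟩
  have hκ0 : 0 < κ := hκ ▸ kap_pos z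
  have hJℓ : (2 : ℝ) ^ J * ℓ = Real.log R / (16 * C₁ * J) := by
    rw [← hk2, hℓ]
    field_simp
  have hpow : ∀ j ≤ J, (2 : ℝ) ^ j * ℓ ≤ Real.log R / 16 := by
    intro j hj
    have a1 : (2 : ℝ) ^ j ≤ 2 ^ J := pow_le_pow_right₀ (by norm_num) hj
    have a2 : (2 : ℝ) ^ j * ℓ ≤ 2 ^ J * ℓ := mul_le_mul_of_nonneg_right a1 hℓ0
    refine a2.trans ?_
    rw [hJℓ]
    exact div_le_div_of_nonneg_left hlogR.le (by norm_num) (rat8_n1 C₁ J hC₁ hJR)
  have hRpos : (0 : ℝ) < R := by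
    have : 0 < R := by omega
    exact_mod_cast this
  have hexpR : ∀ j ≤ J, Real.exp (2 ^ j * ℓ) ≤ R := by
    intro j hj
    rw [← Real.exp_log hRpos, Real.exp_le_exp]
    have := hpow j hj
    linarith
  have hexp1 : ∀ j : ℕ, Real.exp ℓ ≤ Real.exp (2 ^ j * ℓ) := by
    intro j
    rw [Real.exp_le_exp]
    exact le_mul_of_one_le_left hℓ0 (one_le_pow₀ (by norm_num))
  have hDl : ∀ j ≤ J, κ / 2 * (2 ^ j * ℓ) ≤ DD (PP z R) (Real.exp (2 ^ j * ℓ)) := by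
    intro j hj
    have a1 := DD_lower z R (Real.exp (2 ^ j * ℓ)) (by
      rw [← Real.exp_zero, Real.exp_le_exp]
      positivity) (hexpR j hj)
    rwa [Real.log_exp, ← hκ] at a1
  have hDu : ∀ j ≤ J, DD (PP z R) (Real.exp (2 ^ j * ℓ)) ≤ C₁ * κ * (2 ^ j * ℓ) := by
    intro j hj
    have a1 := hDDu z R (Real.exp (2 ^ j * ℓ)) (n8.trans (hexp1 j)) ((hzB.trans n9).trans (hexp1 j))
    rwa [Real.log_exp, ← hκ] at a1
  obtain ⟨g, hg⟩ : ∃ g : ℕ → ℝ, g = gg J ℓ := ⟨_, rfl⟩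
  have hg0 : ∀ n, 0 ≤ g n := fun n => hg ▸ gg_nonneg J ℓ n
  have hg1 : ∀ n, g n ≤ 1 := fun n => hg ▸ gg_le_one J ℓ n
  have hg2 : ∀ a b, a ≤ b → g b ≤ g a := fun a b h => hg ▸ gg_anti J ℓ hℓ0 a b h
  have hAA := AA_lower J ℓ hℓ0 (PP z R) κ (fun j hj => hDl j hj.le)
  have hBBu := BB_upper J ℓ hℓ0 (PP z R) κ C₁ hκ0.le (by linarith) hDu
  have hP : ∀ p ∈ PP z R, p.Prime := by
    intro p hp
    unfold PP at hp
    exact (mem_filter.mp hp).2.1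
  have hPz : ∀ p ∈ PP z R, z < p := by
    intro p hp
    unfold PP at hp
    exact (mem_filter.mp hp).2.2
  have hBLu := BL_upper J ℓ hℓ0 (PP z R) (fun p hp => (hP p hp).one_lt.le) κ C₁ hκ0.le
    (by linarith) hDu
  have hBBl := BB_lower J ℓ hℓ0 (PP z R) κ (by
    have := hDl 0 (Nat.zero_le _)
    rwa [pow_zero, one_mul] at this)
  have hBB1 := BB_one J ℓ hℓ0 (PP z R)
  rw [← hg] at hAA hBBu hBLu hBBl hBB1
  obtain ⟨a, ha⟩ : ∃ a : ℝ, a = AA (PP z R) g := ⟨_, rfl⟩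
  rw [← hg] at hb
  rw [← ha] at hAA
  rw [← hb] at hBBu hBBl hBB1
  have hb0 : 0 < b := by linarith
  have ha0 : 0 ≤ a := le_trans (by positivity) hAA
  have hF : (Fintype.card (Fin k) : ℝ) * BL (PP z R) g ≤ BB (PP z R) g * Real.log R / 4 := by
    rw [Fintype.card_fin, ← hb]
    have a1 : (k : ℝ) * BL (PP z R) g ≤ k * ((J + 1) * C₁ * κ * ℓ ^ 2) := by gcongr
    have a2 : (k : ℝ) * ((J + 1) * C₁ * κ * ℓ ^ 2) = (κ / 2 * ℓ) * (2 * (J + 1) * C₁ * (k * ℓ)) := by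
      ring
    have a3 : (k : ℝ) * ℓ = Real.log R / (16 * C₁ * J) := by rw [hk2, hJℓ]
    have a4 : 2 * (J + 1) * C₁ * (k * ℓ) ≤ Real.log R / 4 := by
      rw [a3, ← mul_div_assoc, div_le_div_iff₀ (by positivity) (by norm_num)]
      exact rat8_n3 C₁ J (Real.log R) (by linarith) (by positivity)
    calc (k : ℝ) * BL (PP z R) g ≤ (κ / 2 * ℓ) * (2 * (J + 1) * C₁ * (k * ℓ)) := by
          rw [← a2]
          exact a1
      _ ≤ (κ / 2 * ℓ) * (Real.log R / 4) := by gcongr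
      _ ≤ b * (Real.log R / 4) := by gcongr
      _ = b * Real.log R / 4 := by ring
  have hgR : ∀ n, g n ≠ 0 → n ^ 2 ≤ R := by
    intro n hn
    rw [hg] at hn
    have a1 := gg_supp J ℓ hℓ0 n hn
    have a2 : (n : ℝ) ^ 2 ≤ R := by
      calc (n : ℝ) ^ 2 ≤ (Real.exp (2 ^ J * ℓ)) ^ 2 := by gcongr
        _ = Real.exp (2 * (2 ^ J * ℓ)) := by rw [← Real.exp_nat_mul]; norm_num
        _ ≤ Real.exp (Real.log R) := by
            rw [Real.exp_le_exp]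
            have := hpow J le_rfl
            linarith
        _ = R := Real.exp_log hRpos
    exact_mod_cast a2
  rw [← hg]
  refine ⟨hBB1, fun h hinj hhH Ω hN => ?_⟩
  -- sieve data
  obtain ⟨V, hV⟩ : ∃ V : ℝ, V = V1 Ω z := ⟨_, rfl⟩
  have hL0 : 0 < Real.log X := by linarith
  have hV0 : 0 < V := by
    rw [hV]
    exact (hV1 Ω hN z (by omega)).1
  obtain ⟨L, hLdef⟩ : ∃ L : Col (PP z R) (Fin k) → ℝ, L = lam (zz g R) := ⟨_, rfl⟩
  rw [← hLdef]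
  have hok : ∀ p ∈ PP z R, ∀ i j : Fin k, i ≠ j → ¬ h i ≡ h j [MOD p] :=
    fun p hp i j hij => rat8_ok (h i) (h j) (max (h i) (h j)) z p
      (max_le (hle _ (hhH i)).le (hle _ (hhH j)).le) (hPz p hp) (le_max_left _ _) (le_max_right _ _)
      (fun e => hij (hinj e))
  have hXX : (0 : ℝ) < X := by
    have h1 : (R : ℝ) ≤ X := by exact_mod_cast n4
    linarith
  have hX1' : (1 : ℝ) ≤ X := by
    have h1 : (R : ℝ) ≤ X := by exact_mod_cast n4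
    have h2 : (2 : ℝ) ≤ R := by exact_mod_cast n1
    linarith
  obtain ⟨F2, hF2⟩ : ∃ F2 : ℕ → ℝ, F2 = fun x => (FF h L x) ^ 2 := ⟨_, rfl⟩
  obtain ⟨T, hT⟩ : ∃ T : ℝ, T = X * V * b ^ k := ⟨_, rfl⟩
  have e3 : (X : ℝ) ^ (1 - c₁) ≤ (X : ℝ) ^ (1 - c) :=
    Real.rpow_le_rpow_of_exponent_le hX1' (by linarith)
  have e4 : (X : ℝ) ^ (1 - c₃) ≤ (X : ℝ) ^ (1 - c) :=
    Real.rpow_le_rpow_of_exponent_le hX1' (by linarith)
  -- first sum
  have hs1 : ∑ x ∈ Pre Ω z X, F2 x ≤ T + (X : ℝ) ^ (1 - c₁) := by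
    have a1 := hS1 X z R R hX1 (by rw [Fintype.card_fin]; omega) hzB n2 (by
        refine n2.trans ?_
        apply Real.rpow_le_rpow_of_exponent_le _ (by norm_num)
        exact hX1') Ω hN.card (fun p _ => hN.lt p) h
      (fun i => hleX _ (hhH i)) (zz g R) (fun σ => rat8_zz g hg0 hg1 R σ)
      (fun σ h => rat8_supp g R σ h) hok
    have a2 := S1_main (ι := Fin k) (P := PP z R) (fun p hp => (hP p hp).one_lt.le) R g hg0
    rw [Fintype.card_fin, ← hb] at a2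
    rw [← hV, ← hLdef] at a1
    rw [hF2]
    refine a1.trans ?_
    rw [hT]
    have : (X : ℝ) * V * ∑ ρ : Col (PP z R) (Fin k), zz g R ρ ^ 2 / (tot ρ : ℝ) ≤ X * V * b ^ k := by
      gcongr
    linarith
  -- second sums
  have hs2 : Cov Ω h → ∀ i : Fin k, T * ((m + 1) / k) * Real.log (3 * X) - X / (Real.log X) ^ 3 ≤
      ∑ x ∈ Pre Ω z X, BV.th (x + h i) * F2 x := by
    intro hCov i
    have a1 := hS2 X z R hX2 (by rw [Fintype.card_fin]; omega) hzB n2 Ω hN.card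
      (fun p _ => hN.lt p) h (fun i => (hhH i).trans n10) i hok
      (zz g R) (fun σ => rat8_zz g hg0 hg1 R σ) (fun σ h => rat8_supp g R σ h)
    have a2 := S2_main (ι := Fin k) z R (by rw [Fintype.card_fin]; omega) n1 i g hg0 hg2 hgR hF
    rw [Fintype.card_fin, ← ha, ← hb] at a2
    rw [← hLdef] at a1
    obtain ⟨M, hM⟩ : ∃ M : ℝ, M = ∑ ρ : Col (PP z R) (Fin k), (∏ p : {p : ℕ // p ∈ PP z R},
            Dm (q2 i p) (1 - ∑ j, q2 i p j) (ρ p)) *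
          (∑ τ : Col (PP z R) (Fin k), (∏ p : {p : ℕ // p ∈ PP z R},
            Amat (fun j => q2 i p j - 1 / ((p : ℕ) : ℝ)) (ρ p) (τ p)) * zz g R τ) ^ 2 := ⟨_, rfl⟩
    rw [← hM] at a1 a2
    have a3 : V = κ * V2 Ω (h i) z := by
      rw [hV, hκ]
      exact rat8_V Ω h hN hCov z i
    obtain ⟨v, hv⟩ : ∃ v : ℝ, v = V2 Ω (h i) z := ⟨_, rfl⟩
    rw [← hv] at a1 a3
    have hv0 : 0 < v := by
      have : 0 < κ * v := a3 ▸ hV0
      exact (pos_iff_pos_of_mul_pos this).mp hκ0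
    have a4 := hθ X (h i) hX6 ((hhH i).trans n10)
    obtain ⟨Θ, hΘ⟩ : ∃ Θ : ℝ, Θ = ∑ n ∈ Ioc (X + h i) (2 * X + h i), BV.th n := ⟨_, rfl⟩
    rw [← hΘ] at a1 a4
    rw [hF2]
    refine le_trans ?_ a1
    have hM0 : 0 ≤ 1 / 8 * a ^ 2 * b ^ (k - 1) := by positivity
    have hΘ0 : 0 ≤ Θ := by linarith
    have a5 : (X / 2) * v * (1 / 8 * a ^ 2 * b ^ (k - 1)) ≤ Θ * v * M :=
      mul_le_mul (mul_le_mul_of_nonneg_right a4 hv0.le) a2 hM0 (mul_nonneg hΘ0 hv0.le)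
    have a6 : T * ((m + 1) / k) * Real.log (3 * X) ≤ (X / 2) * v * (1 / 8 * a ^ 2 * b ^ (k - 1)) := by
      have hbk : b ^ k = b ^ (k - 1) * b := by
        rw [← pow_succ]
        congr 1
        omega
      rw [hT, a3, hbk]
      have key : 16 * κ * b * ((m + 1) / k) * Real.log (3 * X) ≤ a ^ 2 := by
        have hkℓ : (k : ℝ) * ℓ = Real.log R / (16 * C₁ * J) := by rw [hk2, hJℓ]
        have h3X : 0 < Real.log (3 * X) := by linarith
        have c1 : 16 * κ * b * ((m + 1) / k) * Real.log (3 * X) ≤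
            16 * κ * (2 * C₁ * κ * ℓ) * ((m + 1) / k) * Real.log (3 * X) := by gcongr
        have c2 : (J * κ * ℓ / 4) ^ 2 ≤ a ^ 2 := by
          apply pow_le_pow_left₀ (by positivity) hAA
        refine c1.trans (le_trans ?_ c2)
        have c3 : 512 * C₁ * (m + 1) * Real.log (3 * X) ≤ J ^ 2 * (k * ℓ) := by
          rw [hkℓ]
          have c4 : (J : ℝ) ^ 2 * (Real.log R / (16 * C₁ * J)) = J * Real.log R / (16 * C₁) := by
            field_simp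
          rw [c4, le_div_iff₀ (by positivity)]
          have c5 : 16384000 * C₁ ^ 2 * (m + 1) * (Real.log (3 * X) / 2000) ≤ J * Real.log R := by
            gcongr
          exact rat8_n4 C₁ J m (Real.log R) (Real.log (3 * X)) c5
        have hk0 : (0 : ℝ) < k := by linarith
        have c6 : 16 * κ * (2 * C₁ * κ * ℓ) * ((m + 1) / k) * Real.log (3 * X) =
            κ ^ 2 * ℓ / (16 * k) * (512 * C₁ * (m + 1) * Real.log (3 * X)) := by
          field_simp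
          ring
        have c7 : (J * κ * ℓ / 4) ^ 2 = κ ^ 2 * ℓ / (16 * k) * (J ^ 2 * (k * ℓ)) := by
          field_simp
          ring
        rw [c6, c7]
        gcongr
      calc X * (κ * v) * (b ^ (k - 1) * b) * ((m + 1) / k) * Real.log (3 * X)
          = X * v * b ^ (k - 1) / 16 * (16 * κ * b * ((m + 1) / k) * Real.log (3 * X)) := by ring
        _ ≤ X * v * b ^ (k - 1) / 16 * a ^ 2 := by gcongr
        _ = (X / 2) * v * (1 / 8 * a ^ 2 * b ^ (k - 1)) := by ring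
    linarith
  rw [← hV, ← hT]
  refine ⟨?_, fun hCov i => ?_, fun t ht1 ht hti => ?_⟩
  · rw [hF2] at hs1
    simp only at hs1
    linarith
  · have e10 := hs2 hCov i
    rw [hF2] at e10
    simp only at e10
    have e11 : ∑ x ∈ Pre Ω z X, (FF h L x) ^ 2 * BV.th (x + h i) =
        ∑ x ∈ Pre Ω z X, BV.th (x + h i) * (FF h L x) ^ 2 :=
      sum_congr rfl fun x _ => mul_comm _ _
    rw [e11]
    linarith
  · obtain ⟨u, u1, u2, u3, u4⟩ := hS3 X z R hX3 hz hzB n2 n3 n1 n4 n11 h hinj hhH Ω hN g hg0 hg1 hg2 t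
      ht1 ht hti
    rw [← hLdef] at u3
    rw [← hV, ← hb] at u4
    refine ⟨u, u1, u2, u3, u4.trans ?_⟩
    linarith

end Pool.Agent.Lib.SH
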