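import Pool.Agent.Lib.SH.Nsq9
import Pool.Agent.Lib.SH.Avg9
import Pool.Agent.Lib.MT.S1up
import Pool.Agent.Lib.Sieve.Mertens
import Pool.Agent.Lib.SH.Rat8

/-!
# SH-Non9 (75 minutes): the weights live on rough numbers

PROOF. `z = zX B X`, `R = RX X`, `b = bX ..`, `y = ⌊X^θ⌋`. Fix `h ∈ Tp k F H`: injective, `1 ≤ h i ≤ H ≤ log X`; `Ω = Om h` is `Nice K` by hypothesis `hNice`.
If `x ∈ Pre (Om h) z X` and some `x + h l` is not `Rg y`, then some prime `q ∈ PP z y` divides `x + h l` (not `≤ z`, since `x ∈ Pre (Om h)`), and `q ∈ PP z R` (`X^θ ≤ R`, `θ ≤ θ₀ < 1/1000`).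
`nal9` with `ι = Fin k`, `z := zz (gg J ℓ) R` (`rat8_zz`, `rat8_supp`): `u`, `|u| ≤ 3`, supported on `tot ≤ q R ≤ X^(2/5)`, `FF h (lam u) x = 1[q ∣ x + h l] Fs x` (`q > z ≥ log X - 1`, so `q` cannot divide `x + h l` and `x + h j`: `|h l - h j| < q`).
`S1_upper (Fin k) K B` for `u/3`: `∑_{x ∈ Pre Ω z X, q ∣ x + h l} Fs² ≤ X V1 Ω z ∑ u²/tot + 9 X^(1-c) ≤ X V1 Ω z (2/q) C b^k log q/log X + 9 X^(1-c)` by `nsq9`.
Sum over `q ∈ PP z y`, `l`: `∑_{q ≤ X^θ} log q/q ≤ θ log X + log 4` (`Sieve.sum_log_div_le`) `≤ 2 θ log X`: `≤ 4 k C θ X V1 Ω z b^k + 9 k X^(θ + 1 - c)`, `θ ≤ c/2`.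
Divide by `(kap z b)^k` and sum over `h ∈ Tp ⊆ Ij k H`: `V1 (Om h) z ≤ V1 (Og K h) z` (fewer classes), `avg9 K k B`: `∑_h V1 (Og K h) z/kap z^k ≤ C (log X)^k`. Error: `(log X)^k * (log X)^k * 9 k X^(1 - c/2) ≤ θ X (log X)^k`
(`b ≥ 1`: from `hb`; `1/kap z ≤ log X`: `kap_low B`; `#Tp ≤ H^k`).
-/

set_option autoImplicit false

open Finset

namespace Pool.Agent.Lib.SH

open Pool.Agent.Lib.MT Pool.Agent.Lib.SG

private theorem non9_large (a : ℝ) : ∃ X₀ : ℕ, ∀ X : ℕ, X₀ ≤ X → a ≤ Real.log X := by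
  have h := (Real.tendsto_log_atTop.comp tendsto_natCast_atTop_atTop).eventually
    (Filter.eventually_ge_atTop a)
  obtain ⟨X₀, h⟩ := Filter.eventually_atTop.1 h
  exact ⟨X₀, fun X hX => h X hX⟩

private theorem non9_pow (k : ℕ) (r ε : ℝ) (hr : 0 < r) (hε : 0 < ε) :
    ∃ X₀ : ℕ, ∀ X : ℕ, X₀ ≤ X → (Real.log X) ^ k ≤ ε * (X : ℝ) ^ r := by
  have h := (isLittleO_log_rpow_rpow_atTop (k : ℝ) hr).bound hε
  have h' := tendsto_natCast_atTop_atTop.eventually h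
  obtain ⟨X₀, h⟩ := Filter.eventually_atTop.1 h'
  refine ⟨X₀, fun X hX => ?_⟩
  have h1 := h X hX
  rw [Real.rpow_natCast, Real.norm_of_nonneg (Real.rpow_nonneg (Nat.cast_nonneg X) r)] at h1
  exact (le_abs_self _).trans h1

private theorem non9_FFc {P : Finset ℕ} {ι : Type} [Fintype ι] [DecidableEq ι] (h : ι → ℕ)
    (u : Col P ι → ℝ) (c : ℝ) (x : ℕ) :
    FF h (lam (fun σ => c * u σ)) x = c * FF h (lam u) x := by
  have e : lam (fun σ => c * u σ) = fun σ => c * lam u σ := by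
    funext σ
    unfold lam
    rw [mul_sum]
    exact sum_congr rfl fun τ _ => by ring
  rw [e]
  unfold FF
  rw [mul_sum]

private theorem non9_S1 (k K B : ℕ) : ∃ c : ℝ, 0 < c ∧ ∃ X₀ : ℕ,
    ∀ X z R Q : ℕ, X₀ ≤ X → k ≤ z → (z : ℝ) ≤ (Real.log X) ^ B →
    (R : ℝ) ≤ (X : ℝ) ^ (1 / 5 : ℝ) → (Q : ℝ) ≤ (X : ℝ) ^ (2 / 5 : ℝ) →
    ∀ Ω : ℕ → Finset ℕ, Nice K Ω →
    ∀ h : Fin k → ℕ, (∀ i, h i ≤ X) → (∀ p ∈ PP z R, ∀ i j, i ≠ j → ¬ h i ≡ h j [MOD p]) →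
    ∀ u : Col (PP z R) (Fin k) → ℝ, (∀ σ, |u σ| ≤ 3) → (∀ σ, u σ ≠ 0 → tot σ ≤ Q) →
    ∑ x ∈ Pre Ω z X, (FF h (lam u) x) ^ 2 ≤
      X * V1 Ω z * ∑ ρ : Col (PP z R) (Fin k), u ρ ^ 2 / (tot ρ : ℝ) + 9 * (X : ℝ) ^ (1 - c) := by
  obtain ⟨c, hc, X₀, hS⟩ := S1_upper (Fin k) K B
  refine ⟨c, hc, X₀, fun X z R Q hX hkz hz hR hQ Ω hN h hh hij u hu htot => ?_⟩
  have h1 := hS X z R Q hX (by rw [Fintype.card_fin]; exact hkz) hz hR hQ Ω hN.card
    (fun p _ => hN.lt p) h hh (fun σ => 1 / 3 * u σ)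
    (fun σ => by
      rw [abs_mul, abs_of_pos (by norm_num : (0 : ℝ) < 1 / 3)]
      have := hu σ
      linarith)
    (fun σ hσ => htot σ (fun h0 => hσ (by rw [h0, mul_zero]))) hij
  have e1 : ∑ x ∈ Pre Ω z X, (FF h (lam (fun σ => 1 / 3 * u σ)) x) ^ 2 =
      1 / 9 * ∑ x ∈ Pre Ω z X, (FF h (lam u) x) ^ 2 := by
    rw [mul_sum]
    refine sum_congr rfl fun x _ => ?_
    rw [non9_FFc]
    ring
  have e2 : ∑ ρ : Col (PP z R) (Fin k), (1 / 3 * u ρ) ^ 2 / (tot ρ : ℝ) =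
      1 / 9 * ∑ ρ : Col (PP z R) (Fin k), u ρ ^ 2 / (tot ρ : ℝ) := by
    rw [mul_sum]
    exact sum_congr rfl fun ρ _ => by ring
  rw [e1, e2] at h1
  linarith

private theorem non9_PP {z y p : ℕ} : p ∈ PP z y ↔ p ≤ y ∧ p.Prime ∧ z < p := by
  unfold PP
  rw [mem_filter, mem_range, Nat.lt_succ_iff]

private theorem non9_Om {k : ℕ} (h : Fin k → ℕ) (p : ℕ) : (Om h p).card ≤ p := by
  unfold Om
  exact (card_filter_le _ _).trans (card_range p).le

private theorem non9_Og {k : ℕ} (K : ℕ) (h : Fin k → ℕ) (p : ℕ) :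
    (Og K h p).card ≤ (Om h p).card := by
  unfold Og
  split_ifs
  · simp
  · exact le_rfl

private theorem non9_fac {n p : ℕ} (hp : p.Prime) (h : n ≤ p) : (0 : ℝ) ≤ 1 - (n : ℝ) / p := by
  have h4 : (0 : ℝ) < p := by exact_mod_cast hp.pos
  have h5 : (n : ℝ) / p ≤ 1 := by
    rw [div_le_one h4]
    exact_mod_cast h
  linarith

private theorem non9_V0 {k : ℕ} (h : Fin k → ℕ) (z : ℕ) : 0 ≤ V1 (Om h) z := by
  unfold V1
  exact prod_nonneg fun p hp => non9_fac (non9_PP.1 hp).2.1 (non9_Om h p)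

private theorem non9_Vg0 {k : ℕ} (K : ℕ) (h : Fin k → ℕ) (z : ℕ) : 0 ≤ V1 (Og K h) z := by
  unfold V1
  exact prod_nonneg fun p hp => non9_fac (non9_PP.1 hp).2.1
    ((non9_Og K h p).trans (non9_Om h p))

private theorem non9_Vle {k : ℕ} (K : ℕ) (h : Fin k → ℕ) (z : ℕ) :
    V1 (Om h) z ≤ V1 (Og K h) z := by
  unfold V1
  refine prod_le_prod (fun p hp => non9_fac (non9_PP.1 hp).2.1 (non9_Om h p)) fun p hp => ?_
  have h1 : ((Og K h p).card : ℝ) ≤ ((Om h p).card : ℝ) := by exact_mod_cast non9_Og K h p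
  have h2 : (0 : ℝ) < p := by exact_mod_cast (non9_PP.1 hp).2.1.pos
  have h3 := div_le_div_of_nonneg_right h1 h2.le
  linarith

private theorem non9_ne {k z p : ℕ} {h : Fin k → ℕ} (hinj : Function.Injective h)
    (hhz : ∀ i, h i ≤ z) (hp : z < p) {i j : Fin k} (hij : i ≠ j) : ¬ h i ≡ h j [MOD p] := by
  intro hm
  have h1 := Nat.ModEq.eq_of_lt_of_lt hm ((hhz i).trans_lt hp) ((hhz j).trans_lt hp)
  exact hij (hinj h1)

open Classical in
/-- the bound for one tuple -/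
private theorem non9_core {k X z R y : ℕ} {g : ℕ → ℝ} (hg0 : ∀ n, 0 ≤ g n) (hg1 : ∀ n, g n ≤ 1)
    (h : Fin k → ℕ) (hinj : Function.Injective h) (hhz : ∀ i, h i ≤ z) (hkz : k ≤ z)
    (hyR : y ≤ R) (hy1 : 1 ≤ y) (D E : ℝ) (hD : 0 ≤ D) (hE : 0 ≤ E)
    (hS : ∀ u : Col (PP z R) (Fin k) → ℝ, (∀ σ, |u σ| ≤ 3) → (∀ σ, u σ ≠ 0 → tot σ ≤ R * R) →
      ∑ x ∈ Pre (Om h) z X, (FF h (lam u) x) ^ 2 ≤
        X * V1 (Om h) z * ∑ ρ : Col (PP z R) (Fin k), u ρ ^ 2 / (tot ρ : ℝ) + E)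
    (hN : ∀ Q : {p : ℕ // p ∈ PP z R}, (Q : ℕ) ≤ y → ∀ l : Fin k,
      ∑ τ ∈ univ.filter (fun τ : Col (PP z R) (Fin k) => τ Q = none),
        v9 Q l (zz g R) τ ^ 2 / (tot τ : ℝ) ≤ D * Real.log (Q : ℕ)) :
    ∑ x ∈ (Pre (Om h) z X).filter (fun x => ∃ i, ¬ Rg y (x + h i)),
      (FF h (lam (zz g R : Col (PP z R) (Fin k) → ℝ)) x) ^ 2 ≤
      k * (X * V1 (Om h) z * (2 * D * (Real.log y + Real.log 4)) + y * E) := by
  set W : ℕ → ℝ := fun x => FF h (lam (zz g R : Col (PP z R) (Fin k) → ℝ)) x with hW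
  have hV := non9_V0 h z
  have step1 : ∀ x ∈ (Pre (Om h) z X).filter (fun x => ∃ i, ¬ Rg y (x + h i)),
      W x ^ 2 ≤ ∑ l : Fin k, ∑ q ∈ PP z y, (if q ∣ x + h l then W x else 0) ^ 2 := by
    intro x hx
    rw [mem_filter] at hx
    obtain ⟨hx1, i, hi⟩ := hx
    unfold Rg at hi
    push Not at hi
    obtain ⟨p, hp, hd⟩ := hi
    have hp' := non9_PP.1 hp
    have hzp : z < p := by
      by_contra hc
      have h1 : p ∈ PP 0 z := non9_PP.2 ⟨not_lt.1 hc, hp'.2.1, hp'.2.1.pos⟩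
      unfold Pre at hx1
      refine (mem_filter.1 hx1).2 p h1 ?_
      unfold Om
      rw [mem_filter, mem_range]
      refine ⟨Nat.mod_lt _ hp'.2.1.pos, i, ?_⟩
      have h2 : x % p + h i ≡ x + h i [MOD p] := (Nat.mod_modEq x p).add_right _
      exact (Nat.modEq_zero_iff_dvd.1 (h2.trans (Nat.modEq_zero_iff_dvd.2 hd)))
    have hp2 : p ∈ PP z y := non9_PP.2 ⟨hp'.1, hp'.2.1, hzp⟩
    have h3 : W x ^ 2 = (if p ∣ x + h i then W x else 0) ^ 2 := by rw [if_pos hd]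
    rw [h3]
    have h4 : (if p ∣ x + h i then W x else 0) ^ 2 ≤
        ∑ q ∈ PP z y, (if q ∣ x + h i then W x else 0) ^ 2 :=
      single_le_sum (f := fun q => (if q ∣ x + h i then W x else 0) ^ 2)
        (fun q _ => sq_nonneg _) hp2
    refine h4.trans ?_
    exact single_le_sum (f := fun l => ∑ q ∈ PP z y, (if q ∣ x + h l then W x else 0) ^ 2)
      (fun l _ => sum_nonneg fun q _ => sq_nonneg _) (mem_univ i)
  have step2 : ∀ l : Fin k, ∀ q ∈ PP z y,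
      ∑ x ∈ Pre (Om h) z X, (if q ∣ x + h l then W x else 0) ^ 2 ≤
        X * V1 (Om h) z * (2 * D) * (Real.log q / q) + E := by
    intro l q hq
    have hq' := non9_PP.1 hq
    have hqR : q ∈ PP z R := non9_PP.2 ⟨hq'.1.trans hyR, hq'.2.1, hq'.2.2⟩
    have hP : ∀ p ∈ PP z R, p.Prime := fun p hp => (non9_PP.1 hp).2.1
    obtain ⟨u, hu1, hu2, hu3, hu4⟩ := nal9 hP ⟨q, hqR⟩ (by
      rw [Fintype.card_fin]
      show k ≤ q
      omega) l (zz g R) (fun τ => rat8_zz g hg0 hg1 R τ) h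
    have h1 := hS u hu2 (fun σ hσ => by
      obtain ⟨ρ, h2, h3⟩ := hu3 σ hσ
      have h4 := rat8_supp g R ρ h2
      exact h3.trans (Nat.mul_le_mul (hq'.1.trans hyR) h4))
    have e1 : ∑ x ∈ Pre (Om h) z X, (if q ∣ x + h l then W x else 0) ^ 2 =
        ∑ x ∈ Pre (Om h) z X, (FF h (lam u) x) ^ 2 := by
      refine sum_congr rfl fun x _ => ?_
      rw [hu1 x (fun j hj h2 h3 => ?_)]
      have h4 : x + h j ≡ x + h l [MOD q] :=
        (Nat.modEq_zero_iff_dvd.2 h3).trans (Nat.modEq_zero_iff_dvd.2 h2).symm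
      exact non9_ne hinj hhz hq'.2.2 hj (Nat.ModEq.add_left_cancel' x h4)
    rw [e1]
    refine h1.trans ?_
    have hq0 : (0 : ℝ) < q := by exact_mod_cast hq'.2.1.pos
    have h5 : ∑ τ : Col (PP z R) (Fin k), u τ ^ 2 / (tot τ : ℝ) ≤
        2 * D * (Real.log q / q) := by
      refine hu4.trans ?_
      have h6 := mul_le_mul_of_nonneg_left (hN ⟨q, hqR⟩ hq'.1 l)
        (show (0 : ℝ) ≤ 2 / (q : ℝ) by positivity)
      refine h6.trans (le_of_eq ?_)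
      show 2 / (q : ℝ) * (D * Real.log q) = _
      ring
    have h7 := mul_le_mul_of_nonneg_left h5 (mul_nonneg (Nat.cast_nonneg X) hV)
    have h8 : (X : ℝ) * V1 (Om h) z * (2 * D * (Real.log q / q)) =
        X * V1 (Om h) z * (2 * D) * (Real.log q / q) := by ring
    linarith
  have step3 : ∑ q ∈ PP z y, (X * V1 (Om h) z * (2 * D) * (Real.log q / q) + E) ≤
      X * V1 (Om h) z * (2 * D * (Real.log y + Real.log 4)) + y * E := by
    rw [sum_add_distrib, ← mul_sum, sum_const, nsmul_eq_mul]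
    have h1 : ∑ q ∈ PP z y, Real.log q / q ≤ Real.log y + Real.log 4 := by
      refine le_trans ?_ (Sieve.sum_log_div_le y hy1)
      refine sum_le_sum_of_subset_of_nonneg ?_ ?_
      · intro q hq
        have hq' := non9_PP.1 hq
        rw [mem_filter, mem_Icc]
        exact ⟨⟨hq'.2.1.pos, hq'.1⟩, hq'.2.1⟩
      · intro q _ _
        exact div_nonneg (Real.log_natCast_nonneg q) (Nat.cast_nonneg q)
    have h2 : ((PP z y).card : ℝ) ≤ y := by
      have : (PP z y).card ≤ y := by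
        have h3 : PP z y ⊆ Icc 1 y := by
          intro q hq
          have hq' := non9_PP.1 hq
          rw [mem_Icc]
          exact ⟨hq'.2.1.pos, hq'.1⟩
        have h4 := card_le_card h3
        rw [Nat.card_Icc] at h4
        omega
      exact_mod_cast this
    have h3 := mul_le_mul_of_nonneg_left h1
      (mul_nonneg (mul_nonneg (Nat.cast_nonneg X) hV) (mul_nonneg (by norm_num : (0 : ℝ) ≤ 2) hD))
    have h4 := mul_le_mul_of_nonneg_right h2 hE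
    have h5 : (X : ℝ) * V1 (Om h) z * (2 * D) * (Real.log y + Real.log 4) =
        X * V1 (Om h) z * (2 * D * (Real.log y + Real.log 4)) := by ring
    linarith
  calc ∑ x ∈ (Pre (Om h) z X).filter (fun x => ∃ i, ¬ Rg y (x + h i)), W x ^ 2
      ≤ ∑ x ∈ (Pre (Om h) z X).filter (fun x => ∃ i, ¬ Rg y (x + h i)),
        ∑ l : Fin k, ∑ q ∈ PP z y, (if q ∣ x + h l then W x else 0) ^ 2 := sum_le_sum step1
    _ ≤ ∑ x ∈ Pre (Om h) z X,
        ∑ l : Fin k, ∑ q ∈ PP z y, (if q ∣ x + h l then W x else 0) ^ 2 :=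
      sum_le_sum_of_subset_of_nonneg (filter_subset _ _) fun x _ _ =>
        sum_nonneg fun l _ => sum_nonneg fun q _ => sq_nonneg _
    _ = ∑ l : Fin k, ∑ q ∈ PP z y, ∑ x ∈ Pre (Om h) z X,
        (if q ∣ x + h l then W x else 0) ^ 2 := by
      rw [sum_comm]
      exact sum_congr rfl fun l _ => sum_comm
    _ ≤ ∑ _l : Fin k, ∑ q ∈ PP z y, (X * V1 (Om h) z * (2 * D) * (Real.log q / q) + E) :=
      sum_le_sum fun l _ => sum_le_sum fun q hq => step2 l q hq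
    _ ≤ ∑ _l : Fin k, (X * V1 (Om h) z * (2 * D * (Real.log y + Real.log 4)) + y * E) :=
      sum_le_sum fun l _ => step3
    _ = k * (X * V1 (Om h) z * (2 * D * (Real.log y + Real.log 4)) + y * E) := by
      rw [sum_const, card_univ, Fintype.card_fin, nsmul_eq_mul]

private theorem non9_Tp {k F H : ℕ} {h : Fin k → ℕ} (hh : h ∈ Tp k F H) :
    Function.Injective h ∧ ∀ i, 1 ≤ h i ∧ h i ≤ H := by
  unfold Tp at hh
  rw [mem_filter, Fintype.mem_piFinset] at hh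
  refine ⟨hh.2, fun i => ?_⟩
  have h1 := hh.1 i
  rw [mem_filter, mem_Icc] at h1
  exact h1.1

private theorem non9_sub (k F H : ℕ) : Tp k F H ⊆ Ij k H := by
  intro h hh
  have h1 := non9_Tp hh
  unfold Ij
  rw [mem_filter, Fintype.mem_piFinset]
  exact ⟨fun i => mem_Icc.2 (h1.2 i), h1.1⟩

private theorem non9_card (k F H : ℕ) : (Tp k F H).card ≤ H ^ k := by
  have h1 : Tp k F H ⊆ Fintype.piFinset fun _ : Fin k => Icc 1 H := by
    intro h hh
    have h1 := non9_Tp hh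
    rw [Fintype.mem_piFinset]
    exact fun i => mem_Icc.2 (h1.2 i)
  refine (card_le_card h1).trans (le_of_eq ?_)
  rw [Fintype.card_piFinset]
  simp

open Classical in
theorem non9 (J k : ℕ) (C₁ : ℝ) (hJ : 1 ≤ J) (hk : 1 ≤ k) (hkJ : k = 2 ^ J) (hC : 1 ≤ C₁) (K B F : ℕ) (hkK : k ≤ K) (hB : 1 ≤ B)
    (hb : ∃ X₁ : ℕ, ∀ X : ℕ, X₁ ≤ X → 1 ≤ bX C₁ J k B X) : ∃ C θ₀ : ℝ, 0 < C ∧ 0 < θ₀ ∧
    ∀ θ : ℝ, 0 < θ → θ ≤ θ₀ → ∃ X₀ : ℕ, ∀ X : ℕ, X₀ ≤ X → ∀ H : ℕ, (H : ℝ) ≤ Real.log X →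
    (∀ h ∈ Tp k F H, Nice K (Om h)) →
    ∑ h ∈ Tp k F H, ∑ x ∈ (Pre (Om h) (zX B X) X).filter (fun x => ∃ i, ¬ Rg ⌊(X : ℝ) ^ θ⌋₊ (x + h i)),
      (Fs C₁ J k B X h x) ^ 2 / (kap (zX B X) * bX C₁ J k B X) ^ k ≤ C * θ * X * (Real.log X) ^ k := by
  obtain ⟨Cn, θn, hCn, hθn, hnsq⟩ := nsq9 J k C₁ hJ hk hkJ hC
  obtain ⟨X₁, hX₁⟩ := hnsq B hB
  obtain ⟨c, hc, X₂, hX₂⟩ := non9_S1 k K B
  obtain ⟨Ca, hCa, X₃, hX₃⟩ := avg9 K k B hkK hB
  obtain ⟨X₄, hX₄⟩ := kap_low B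
  obtain ⟨X₅, hX₅⟩ := num8 C₁ hC J k B hJ hk
  obtain ⟨X₆, hX₆⟩ := hb
  have hk0 : (0 : ℝ) < k := by exact_mod_cast hk
  refine ⟨4 * k * Cn * Ca + 1, min θn (min (1 / 1000) (c / 2)), by positivity,
    lt_min hθn (lt_min (by norm_num) (by positivity)), fun θ hθ hθ0 => ?_⟩
  have hθn' : θ ≤ θn := hθ0.trans (min_le_left _ _)
  have hθm : θ ≤ 1 / 1000 := hθ0.trans ((min_le_right _ _).trans (min_le_left _ _))
  have hθc : θ ≤ c / 2 := hθ0.trans ((min_le_right _ _).trans (min_le_right _ _))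
  obtain ⟨X₇, hX₇⟩ := non9_large (max (k + 1) (Real.log 4 / θ))
  obtain ⟨X₈, hX₈⟩ := non9_pow k (c / 2) (θ / (9 * k)) (by positivity) (by positivity)
  refine ⟨max X₁ (max X₂ (max X₃ (max X₄ (max X₅ (max X₆ (max X₇ X₈)))))),
    fun X hX H hH hNice => ?_⟩
  simp only [max_le_iff] at hX
  obtain ⟨g1, g2, g3, g4, g5, g6, g7, g8⟩ := hX
  obtain ⟨⟨hR2, hR5, hRR, hRX⟩, ⟨-, -, hL2⟩, -, -, hLX⟩ :=
    hX₅ X g5 (RX X) rfl (lX C₁ J k X) rfl
  set z := zX B X with hz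
  set R := RX X with hR
  set b := bX C₁ J k B X with hbd
  set L := Real.log X with hL
  set y := ⌊(X : ℝ) ^ θ⌋₊ with hy
  have hb1 : 1 ≤ b := hX₆ X g6
  have hb0 : 0 < b := by linarith
  have hL1 : 1 ≤ L := by linarith
  have hL0 : 0 < L := by linarith
  have hX1 : 1 ≤ X := by
    rcases Nat.eq_zero_or_pos X with h0 | h0
    · exfalso
      rw [h0] at hL
      rw [hL] at hL1
      simp at hL1
      linarith
    · exact h0
  have hX1' : (1 : ℝ) ≤ X := by exact_mod_cast hX1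
  have hX0 : (0 : ℝ) < X := by linarith
  have hkL : (k : ℝ) + 1 ≤ L := (le_max_left _ _).trans (hX₇ X g7)
  have h4L : Real.log 4 ≤ θ * L := by
    have h1 : Real.log 4 / θ ≤ L := (le_max_right _ _).trans (hX₇ X g7)
    rw [div_le_iff₀ hθ] at h1
    linarith
  have hLB : L ≤ L ^ B := le_self_pow₀ hL1 (by omega)
  have hzle : (z : ℝ) ≤ L ^ B := Nat.floor_le (by positivity)
  have hzlt : L ^ B < z + 1 := Nat.lt_floor_add_one _
  have hlez : ∀ n : ℕ, (n : ℝ) ≤ L → n ≤ z := by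
    intro n hn
    have h1 : (n : ℝ) < z + 1 := by linarith
    have h2 : n < z + 1 := by exact_mod_cast h1
    omega
  have hkz : k ≤ z := hlez k (by linarith)
  have hyX : (y : ℝ) ≤ (X : ℝ) ^ θ := Nat.floor_le (by positivity)
  have hXθ : 1 ≤ (X : ℝ) ^ θ := Real.one_le_rpow hX1' hθ.le
  have hy1 : 1 ≤ y := Nat.le_floor (by rw [Nat.cast_one]; exact hXθ)
  have hyR : y ≤ R := by
    refine Nat.le_floor ?_
    exact hyX.trans (Real.rpow_le_rpow_of_exponent_le hX1' hθm)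
  have hy0 : (0 : ℝ) < y := by exact_mod_cast hy1
  have hlogy : Real.log y ≤ θ * L := by
    have h1 := Real.log_le_log hy0 hyX
    rwa [Real.log_rpow hX0] at h1
  set D := Cn * b ^ k / L with hD
  have hD0 : 0 ≤ D := by positivity
  set E := 9 * (X : ℝ) ^ (1 - c) with hE
  have hE0 : 0 ≤ E := by positivity
  have hkap := kap_pos z
  have hkb : 0 < (kap z * b) ^ k := by positivity
  -- one tuple
  have hone : ∀ h ∈ Tp k F H,
      ∑ x ∈ (Pre (Om h) z X).filter (fun x => ∃ i, ¬ Rg y (x + h i)),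
        (Fs C₁ J k B X h x) ^ 2 ≤
      4 * k * Cn * θ * X * b ^ k * V1 (Om h) z + 9 * k * ((X : ℝ) ^ θ * (X : ℝ) ^ (1 - c)) := by
    intro h hh
    obtain ⟨hinj, hhH⟩ := non9_Tp hh
    have hN := hNice h hh
    have hhL : ∀ i, (h i : ℝ) ≤ L := fun i => by
      have : (h i : ℝ) ≤ H := by exact_mod_cast (hhH i).2
      exact this.trans hH
    have hhz : ∀ i, h i ≤ z := fun i => hlez _ (hhL i)
    have hhX : ∀ i, h i ≤ X := fun i => by
      have h1 : (h i : ℝ) ≤ X := (hhL i).trans hLX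
      exact_mod_cast h1
    have h1 := non9_core (X := X) (z := z) (R := R) (y := y) (g := gg J (lX C₁ J k X))
      (fun n => gg_nonneg J _ n) (fun n => gg_le_one J _ n) h hinj hhz hkz hyR hy1 D E hD0 hE0
      (fun u hu1 hu2 => hX₂ X z R (R * R) g2 hkz hzle hR5 hRR (Om h) hN h hhX
        (fun p hp i j hij => non9_ne hinj hhz (non9_PP.1 hp).2.2 hij) u hu1 hu2)
      (fun Q hQ l => by
        have hQ' : ((Q : ℕ) : ℝ) ≤ (X : ℝ) ^ θn := by
          have h2 : ((Q : ℕ) : ℝ) ≤ y := by exact_mod_cast hQ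
          exact h2.trans (hyX.trans (Real.rpow_le_rpow_of_exponent_le hX1' hθn'))
        have h2 := hX₁ X g1 Q hQ' l
        refine h2.trans (le_of_eq ?_)
        rw [hD]
        ring)
    have hV := non9_V0 h z
    refine le_trans h1 ?_
    have h2 : Real.log y + Real.log 4 ≤ 2 * θ * L := by linarith
    have h3 : (X : ℝ) * V1 (Om h) z * (2 * D * (Real.log y + Real.log 4)) ≤
        X * V1 (Om h) z * (2 * D * (2 * θ * L)) := by
      apply mul_le_mul_of_nonneg_left _ (mul_nonneg hX0.le hV)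
      exact mul_le_mul_of_nonneg_left h2 (by positivity)
    have h4 : (y : ℝ) * E ≤ (X : ℝ) ^ θ * E := mul_le_mul_of_nonneg_right hyX hE0
    have h5 : (k : ℝ) * (X * V1 (Om h) z * (2 * D * (2 * θ * L)) + (X : ℝ) ^ θ * E) =
        4 * k * Cn * θ * X * b ^ k * V1 (Om h) z +
          9 * k * ((X : ℝ) ^ θ * (X : ℝ) ^ (1 - c)) := by
      rw [hD, hE]
      field_simp
      ring
    rw [← h5]
    apply mul_le_mul_of_nonneg_left _ hk0.le
    linarith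
  -- the sum of the singular series
  have hsum : ∑ h ∈ Tp k F H, V1 (Om h) z ≤ Ca * (kap z * L) ^ k := by
    refine le_trans ?_ (hX₃ X g3 H hH)
    refine (sum_le_sum fun h _ => non9_Vle K h z).trans ?_
    exact sum_le_sum_of_subset_of_nonneg (non9_sub k F H) fun h _ _ => non9_Vg0 K h z
  have hcard : ((Tp k F H).card : ℝ) ≤ L ^ k := by
    have h1 : ((Tp k F H).card : ℝ) ≤ (H : ℝ) ^ k := by exact_mod_cast non9_card k F H
    exact h1.trans (pow_le_pow_left₀ (Nat.cast_nonneg H) hH k)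
  have hinv : 1 / (kap z * b) ^ k ≤ L ^ k := by
    have h1 : 1 / L ≤ kap z * b := by
      have h2 := hX₄ X z g4 hzle
      have h3 : 1 / L ≤ 1 / L ^ (1 / 2 : ℝ) := by
        apply one_div_le_one_div_of_le (Real.rpow_pos_of_pos hL0 _)
        calc L ^ (1 / 2 : ℝ) ≤ L ^ (1 : ℝ) :=
              Real.rpow_le_rpow_of_exponent_le hL1 (by norm_num)
          _ = L := Real.rpow_one L
      have h4 : kap z ≤ kap z * b := le_mul_of_one_le_right hkap.le hb1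
      exact h3.trans (h2.trans h4)
    have h2 : (1 / L) ^ k ≤ (kap z * b) ^ k := pow_le_pow_left₀ (by positivity) h1 k
    rw [div_pow, one_pow] at h2
    rw [div_le_iff₀ hkb]
    rw [div_le_iff₀ (by positivity)] at h2
    linarith
  have herr : 9 * (k : ℝ) * ((X : ℝ) ^ θ * (X : ℝ) ^ (1 - c)) * L ^ k ≤ θ * X := by
    have h1 := hX₈ X g8
    have h2 : (X : ℝ) ^ θ * (X : ℝ) ^ (1 - c) ≤ (X : ℝ) ^ (1 - c / 2) := by
      rw [← Real.rpow_add hX0]
      exact Real.rpow_le_rpow_of_exponent_le hX1' (by linarith)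
    have h3 : (X : ℝ) ^ (1 - c / 2) * (X : ℝ) ^ (c / 2) = X := by
      rw [← Real.rpow_add hX0, sub_add_cancel, Real.rpow_one]
    have h4 : (0 : ℝ) ≤ (X : ℝ) ^ (1 - c / 2) := by positivity
    calc 9 * (k : ℝ) * ((X : ℝ) ^ θ * (X : ℝ) ^ (1 - c)) * L ^ k
        ≤ 9 * (k : ℝ) * (X : ℝ) ^ (1 - c / 2) * (θ / (9 * k) * (X : ℝ) ^ (c / 2)) := by
          apply mul_le_mul _ h1 (by positivity) (by positivity)
          exact mul_le_mul_of_nonneg_left h2 (by positivity)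
      _ = θ * ((X : ℝ) ^ (1 - c / 2) * (X : ℝ) ^ (c / 2)) := by
          field_simp
      _ = θ * X := by rw [h3]
  calc ∑ h ∈ Tp k F H, ∑ x ∈ (Pre (Om h) z X).filter (fun x => ∃ i, ¬ Rg y (x + h i)),
        (Fs C₁ J k B X h x) ^ 2 / (kap z * b) ^ k
      = (∑ h ∈ Tp k F H, ∑ x ∈ (Pre (Om h) z X).filter (fun x => ∃ i, ¬ Rg y (x + h i)),
        (Fs C₁ J k B X h x) ^ 2) / (kap z * b) ^ k := by
        rw [sum_div]
        exact sum_congr rfl fun h _ => (sum_div _ _ _).symm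
    _ ≤ (∑ h ∈ Tp k F H, (4 * k * Cn * θ * X * b ^ k * V1 (Om h) z +
          9 * k * ((X : ℝ) ^ θ * (X : ℝ) ^ (1 - c)))) / (kap z * b) ^ k :=
        div_le_div_of_nonneg_right (sum_le_sum hone) hkb.le
    _ = (4 * k * Cn * θ * X * b ^ k * ∑ h ∈ Tp k F H, V1 (Om h) z +
          (Tp k F H).card * (9 * k * ((X : ℝ) ^ θ * (X : ℝ) ^ (1 - c)))) / (kap z * b) ^ k := by
        rw [sum_add_distrib, ← mul_sum, sum_const, nsmul_eq_mul]
    _ ≤ (4 * k * Cn * θ * X * b ^ k * (Ca * (kap z * L) ^ k) +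
          L ^ k * (9 * k * ((X : ℝ) ^ θ * (X : ℝ) ^ (1 - c)))) / (kap z * b) ^ k := by
        apply div_le_div_of_nonneg_right _ hkb.le
        apply add_le_add
        · exact mul_le_mul_of_nonneg_left hsum (by positivity)
        · exact mul_le_mul_of_nonneg_right hcard (by positivity)
    _ = 4 * k * Cn * Ca * θ * X * L ^ k +
          9 * k * ((X : ℝ) ^ θ * (X : ℝ) ^ (1 - c)) * L ^ k * (1 / (kap z * b) ^ k) := by
        have hka : kap z ^ k ≠ 0 := (pow_pos hkap k).ne'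
        have hba : b ^ k ≠ 0 := (pow_pos hb0 k).ne'
        rw [mul_pow, mul_pow]
        field_simp
    _ ≤ 4 * k * Cn * Ca * θ * X * L ^ k + θ * X * L ^ k := by
        have h1 : 9 * (k : ℝ) * ((X : ℝ) ^ θ * (X : ℝ) ^ (1 - c)) * L ^ k *
            (1 / (kap z * b) ^ k) ≤ θ * X * L ^ k :=
          mul_le_mul herr hinv (by positivity) (by positivity)
        linarith
    _ = (4 * k * Cn * Ca + 1) * θ * X * L ^ k := by ring

end Pool.Agent.Lib.SH
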