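import Pool.Agent.Lib.SH.Def9
import Pool.Agent.Lib.SH.Num8
import Pool.Agent.Lib.MT.Ratio
import Pool.Agent.Lib.SG.Num

/-!
# SH-Ptw9 (75 minutes): the weights are bounded where all x + h i are rough

PROOF. `z = zX B X`, `R = RX X`, `P = PP z R`, `g = gg J ℓ`, `L = lam (zz g R)`, `b = bX ..`, `A = AA P g`.
(1) `|L σ| ≤ A^k`: `lam z σ = ∑_τ ∏_p Amat(-1/p)(σ p)(τ p) z τ`; the product is `0` unless `τ` extends `σ` (`σ p = some i → τ p = some i`), and then its absolute value is `∏_{σ p = none, τ p ≠ none} 1/p`;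
`|zz g R τ| ≤ ∏_i g (prt i τ) ≤ ∏_i g (prt i τ')`, `τ' p = if σ p = none then τ p else none` (`prt i τ' ≤ prt i τ`, `g` decreasing). `τ ↦ τ'` is injective on the extensions of `σ`, so
`|L σ| ≤ ∑_{τ'} ∏_i g(prt i τ')/tot τ' ≤ A^k` (`col_sum_le` with `F s = g (pr s)/pr s`, `prt_eq`, `tot_eq`, as in MT/S1main).
(2) `A ≤ DD P (exp (2^J ℓ)) ≤ C₁' kap z 2^J ℓ` (`gg ≤ 1`, supported on `r ≤ exp(2^J ℓ)`: `gg_supp`; `DD_upper`) and `b ≥ (kap z/2) ℓ` (`BB_lower`, `DD_lower`, `x = exp ℓ ≤ R`), so `A ≤ 2 C₁' k b` (`k = 2^J`).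
(3) at most `(k+1)^(2k/θ)` colourings fit `x`: a fitting `σ` is `none` outside `T = {p ∈ P : ∃ i, p ∣ x + h i}`, and `#T ≤ ∑_i #{p ∈ P : p ∣ x + h i} ≤ k * (2/θ)`, since these primes are `> X^θ` (`Rg`) and their product is `≤ x + h i ≤ 3X ≤ X^2`.
(4) `(Fs x)^2 ≤ ((k+1)^(2k/θ) (2 C₁' k b)^k)^2 = C b^(2k)`, and `b ≤ 2 C₁' kap z ℓ ≤ C'' kap z log X` (`BB_upper` with `DD_upper`; `w = z ≤ exp ℓ`: `num8`), so `b^(2k) ≤ b^k (C'' kap z log X)^k`.
(The bounds for `DD` in the form needed by BB_lower/BB_upper are proved in SH/Rat8 or MT/Ratio: copy.)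
-/

set_option autoImplicit false

open Finset

namespace Pool.Agent.Lib.SH

open Pool.Agent.Lib.MT Pool.Agent.Lib.SG

private theorem Ptw9_mu {P : Finset ℕ} {ι : Type} [Fintype ι] [DecidableEq ι] (σ : Col P ι) :
    |MT.mu σ| = 1 := by
  unfold MT.mu
  rw [abs_prod]
  refine prod_eq_one fun p _ => ?_
  split_ifs
  · exact abs_one
  · rw [abs_neg, abs_one]

private theorem Ptw9_zz {P : Finset ℕ} {ι : Type} [Fintype ι] [DecidableEq ι] (g : ℕ → ℝ)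
    (hg0 : ∀ n, 0 ≤ g n) (R : ℕ) (σ : Col P ι) : |zz g R σ| ≤ ∏ i, g (prt i σ) := by
  unfold zz
  rw [abs_mul, Ptw9_mu, one_mul]
  unfold yy
  split_ifs
  · rw [abs_of_nonneg (prod_nonneg fun i _ => hg0 _)]
  · rw [abs_zero]
    exact prod_nonneg fun i _ => hg0 _

private theorem Ptw9_lam {P : Finset ℕ} {ι : Type} [Fintype ι] [DecidableEq ι] (hP : ∀ p ∈ P, 1 ≤ p)
    (g : ℕ → ℝ) (hg0 : ∀ n, 0 ≤ g n) (hg2 : ∀ a b, a ≤ b → g b ≤ g a) (R : ℕ) (σ : Col P ι) :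
    |lam (zz g R) σ| ≤ (AA P g) ^ Fintype.card ι := by
  classical
  obtain ⟨T, hT⟩ : ∃ T : Col P ι → Col P ι, T = fun τ p => if σ p = none then τ p else none := ⟨_, rfl⟩
  have hTn : ∀ τ p, σ p = none → T τ p = τ p := by
    intro τ p h
    rw [hT]
    exact if_pos h
  have hTs : ∀ τ p, σ p ≠ none → T τ p = none := by
    intro τ p h
    rw [hT]
    exact if_neg h
  have hF : ∀ s : Finset ℕ, 0 ≤ g (pr s) / (pr s : ℝ) := fun s => div_nonneg (hg0 _) (Nat.cast_nonneg _)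
  have hFe : ∀ ρ : Col P ι, ∏ i, (g (pr (part i ρ)) / (pr (part i ρ) : ℝ)) =
      (∏ i, g (prt i ρ)) * (tot ρ : ℝ)⁻¹ := by
    intro ρ
    rw [prod_div_distrib, tot_eq, Nat.cast_prod, div_eq_mul_inv]
    simp only [prt_eq]
  have h1 : ∀ τ : Col P ι,
      |(∏ p : {p : ℕ // p ∈ P}, Amat (fun _ => -(1 / ((p : ℕ) : ℝ))) (σ p) (τ p)) * zz g R τ| ≤
      if (∀ p i, σ p = some i → τ p = some i) then
        ∏ i, (g (pr (part i (T τ))) / (pr (part i (T τ)) : ℝ)) else 0 := by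
    intro τ
    rw [abs_mul, abs_prod]
    split_ifs with hE
    · rw [hFe, mul_comm]
      have e1 : (∏ p : {p : ℕ // p ∈ P}, |Amat (fun _ => -(1 / ((p : ℕ) : ℝ))) (σ p) (τ p)|) =
          (tot (T τ) : ℝ)⁻¹ := by
        unfold tot
        rw [Nat.cast_prod, ← prod_inv_distrib]
        refine prod_congr rfl fun p _ => ?_
        rcases hσ : σ p with _ | i
        · rw [hTn τ p hσ]
          rcases hτ : τ p with _ | j
          · simp [Amat]
          · simp [Amat]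
        · rw [hTs τ p (by rw [hσ]; simp), hE p i hσ]
          simp [Amat]
      rw [e1]
      refine mul_le_mul_of_nonneg_right ?_ (by positivity)
      refine (Ptw9_zz g hg0 R τ).trans (prod_le_prod (fun i _ => hg0 _) fun i _ => hg2 _ _ ?_)
      unfold prt
      refine prod_le_prod' fun p _ => ?_
      have hp1 : 1 ≤ (p : ℕ) := hP p p.2
      rcases hσ : σ p with _ | j
      · rw [hTn τ p hσ]
      · rw [hTs τ p (by rw [hσ]; simp)]
        rw [if_neg (by simp)]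
        split_ifs
        · exact hp1
        · exact le_rfl
    · push Not at hE
      obtain ⟨p, i, h2, h3⟩ := hE
      have e1 : (∏ p : {p : ℕ // p ∈ P}, |Amat (fun _ => -(1 / ((p : ℕ) : ℝ))) (σ p) (τ p)|) = 0 := by
        refine prod_eq_zero (mem_univ p) ?_
        rw [h2]
        rcases hτ : τ p with _ | j
        · simp [Amat]
        · have hij : i ≠ j := by
            intro h
            apply h3
            rw [hτ, h]
          simp [Amat, hij]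
      rw [e1, zero_mul]
  unfold lam
  refine (abs_sum_le_sum_abs _ _).trans ((sum_le_sum fun τ _ => h1 τ).trans ?_)
  rw [← sum_filter]
  have hinj : Set.InjOn T (univ.filter fun τ : Col P ι => ∀ p i, σ p = some i → τ p = some i) := by
    intro a ha b hb hab
    rw [mem_coe, mem_filter] at ha hb
    funext p
    rcases hσ : σ p with _ | i
    · rw [← hTn a p hσ, ← hTn b p hσ, hab]
    · rw [ha.2 p i hσ, hb.2 p i hσ]
  rw [← sum_image (f := fun ρ : Col P ι => ∏ i, (g (pr (part i ρ)) / (pr (part i ρ) : ℝ)))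
    (g := T) (s := univ.filter fun τ : Col P ι => ∀ p i, σ p = some i → τ p = some i) hinj]
  refine (sum_le_sum_of_subset_of_nonneg (subset_univ _) fun ρ _ _ =>
    prod_nonneg fun i _ => hF _).trans ?_
  unfold AA
  exact col_sum_le (fun s => g (pr s) / (pr s : ℝ)) hF

open Classical in
private theorem Ptw9_fit {P : Finset ℕ} {ι : Type} [Fintype ι] [DecidableEq ι] (h : ι → ℕ) (x N : ℕ)
    (hN : ∀ T : Finset {p : ℕ // p ∈ P}, (∀ p ∈ T, ∃ i, (p : ℕ) ∣ x + h i) → T.card ≤ N) :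
    (univ.filter fun σ : Col P ι => Fit h x σ).card ≤ (Fintype.card ι + 1) ^ N := by
  have h1 : (univ.filter fun σ : Col P ι => Fit h x σ) ⊆
      Fintype.piFinset (fun p : {p : ℕ // p ∈ P} =>
        if (∃ i, (p : ℕ) ∣ x + h i) then (univ : Finset (Option ι)) else {none}) := by
    intro σ hσ
    rw [mem_filter] at hσ
    rw [Fintype.mem_piFinset]
    intro p
    split_ifs with hp
    · exact mem_univ _
    · rw [mem_singleton]
      rcases hc : σ p with _ | i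
      · rfl
      · exact absurd ⟨i, hσ.2 p i hc⟩ hp
  refine (card_le_card h1).trans (le_trans (le_of_eq ?_) (Nat.pow_le_pow_right (Nat.succ_pos _)
    (hN (univ.filter fun p : {p : ℕ // p ∈ P} => ∃ i, (p : ℕ) ∣ x + h i)
      fun p hp => (mem_filter.mp hp).2)))
  rw [Fintype.card_piFinset]
  have h2 : ∀ p : {p : ℕ // p ∈ P}, (if (∃ i, (p : ℕ) ∣ x + h i) then
      (univ : Finset (Option ι)) else {none}).card =
      if (∃ i, (p : ℕ) ∣ x + h i) then Fintype.card ι + 1 else 1 := by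
    intro p
    split_ifs
    · rw [card_univ, Fintype.card_option]
    · exact card_singleton _
  rw [prod_congr rfl fun p _ => h2 p, prod_ite, prod_const, prod_const_one, mul_one]

private theorem Ptw9_big (θ : ℝ) (hθ : 0 < θ) (X : ℕ) (hX : 3 ≤ X) (n : ℕ) (hn0 : 0 < n) (hn : n ≤ 3 * X)
    (T : Finset ℕ) (hT : ∀ p ∈ T, p.Prime ∧ p ∣ n ∧ ⌊(X : ℝ) ^ θ⌋₊ < p) : T.card ≤ ⌊2 / θ⌋₊ := by
  have hX3 : (3 : ℝ) ≤ X := by exact_mod_cast hX
  have hX0 : (0 : ℝ) < X := by linarith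
  have h1 : ∏ p ∈ T, p ≤ n := Nat.le_of_dvd hn0 (by
    refine Finset.prod_primes_dvd n (fun p hp => (hT p hp).1.prime) fun p hp => (hT p hp).2.1)
  have h2 : ((X : ℝ) ^ θ) ^ T.card ≤ ∏ p ∈ T, (p : ℝ) := by
    rw [← prod_const]
    refine prod_le_prod (fun p _ => by positivity) fun p hp => ?_
    exact ((Nat.floor_lt (by positivity)).mp (hT p hp).2.2).le
  have h3 : ∏ p ∈ T, (p : ℝ) ≤ n := by
    rw [← Nat.cast_prod]
    exact_mod_cast h1
  have h4 : (n : ℝ) ≤ 3 * X := by exact_mod_cast hn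
  have h5 : (3 : ℝ) * X ≤ (X : ℝ) ^ (2 : ℝ) := by
    rw [Real.rpow_two]
    nlinarith
  have h6 : (X : ℝ) ^ (θ * (T.card : ℝ)) ≤ (X : ℝ) ^ (2 : ℝ) := by
    rw [Real.rpow_mul_natCast hX0.le]
    linarith
  rw [Real.rpow_le_rpow_left_iff (by linarith)] at h6
  apply Nat.le_floor
  rw [le_div_iff₀ hθ]
  linarith

private theorem Ptw9_alg (b κ l c k : ℝ) (hb : 0 ≤ b)
    (h : b ≤ 2 * c * κ * l) : (2 * c * k * b) ^ 2 ≤ (8 * c ^ 3 * k ^ 2) * (κ * b * l) := by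
  have h1 : b * b ≤ b * (2 * c * κ * l) := mul_le_mul_of_nonneg_left h hb
  have h2 : 0 ≤ 4 * c ^ 2 * k ^ 2 := by positivity
  have h3 := mul_le_mul_of_nonneg_left h1 h2
  nlinarith

private theorem Ptw9_n1 (C J : ℝ) (hC : 1 ≤ C) (hJ : 1 ≤ J) : 16 ≤ 16 * C * J := by
  nlinarith

theorem ptw9 (J k : ℕ) (C₁ : ℝ) (hJ : 1 ≤ J) (hk : 1 ≤ k) (hkJ : k = 2 ^ J) (hC : 1 ≤ C₁) (B : ℕ) (hB : 1 ≤ B)
    (θ : ℝ) (hθ : 0 < θ) : ∃ C : ℝ, 0 < C ∧ ∃ X₀ : ℕ, ∀ X : ℕ, X₀ ≤ X →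
    ∀ h : Fin k → ℕ, (∀ i, (h i : ℝ) ≤ Real.log X) → ∀ x ∈ Ioc X (2 * X),
    (∀ i, Rg ⌊(X : ℝ) ^ θ⌋₊ (x + h i)) →
    (Fs C₁ J k B X h x) ^ 2 ≤ C * (kap (zX B X) * bX C₁ J k B X) ^ k * (Real.log X) ^ k := by
  classical
  have _ := hB
  obtain ⟨C₂, hC₂, hDDu⟩ := DD_upper
  obtain ⟨X₁, hnum⟩ := num8 C₁ hC J k B hJ hk
  obtain ⟨D, hD⟩ : ∃ D : ℕ, D = ⌊2 / θ⌋₊ := ⟨_, rfl⟩
  have hJR : (1 : ℝ) ≤ J := by exact_mod_cast hJ
  have hkR : (1 : ℝ) ≤ k := by exact_mod_cast hk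
  have hk2 : (k : ℝ) = 2 ^ J := by
    rw [hkJ]
    push_cast
    rfl
  refine ⟨(((k : ℝ) + 1) ^ (k * D)) ^ 2 * (8 * C₂ ^ 3 * (k : ℝ) ^ 2) ^ k, by positivity, max X₁ 3,
    fun X hX h hh x hx hrg => ?_⟩
  obtain ⟨R, hR⟩ : ∃ R : ℕ, R = ⌊(X : ℝ) ^ (1 / 1000 : ℝ)⌋₊ := ⟨_, rfl⟩
  obtain ⟨ℓ, hℓ⟩ : ∃ ℓ : ℝ, ℓ = Real.log R / (16 * C₁ * J * k) := ⟨_, rfl⟩
  obtain ⟨⟨n1, n2, n3, n4⟩, ⟨n5, n6, n7⟩, ⟨n8, n9⟩, n10, n11⟩ :=
    hnum X (le_trans (le_max_left _ _) hX) R hR ℓ hℓ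
  have hX3 : 3 ≤ X := le_trans (le_max_right _ _) hX
  obtain ⟨z, hz⟩ : ∃ z : ℕ, z = zX B X := ⟨_, rfl⟩
  have hRX : RX X = R := by
    unfold RX
    exact hR.symm
  have hlX : lX C₁ J k X = ℓ := by
    unfold lX
    rw [hRX]
    exact hℓ.symm
  have hzB : (z : ℝ) ≤ (Real.log X) ^ B := by
    rw [hz]
    unfold zX
    exact Nat.floor_le (by positivity)
  have hlogR : 0 < Real.log R := by linarith
  have hCJk : (0 : ℝ) < 16 * C₁ * J * k := by positivity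
  have hℓ0 : 0 ≤ ℓ := by
    rw [hℓ]
    positivity
  obtain ⟨κ, hκ⟩ : ∃ κ : ℝ, κ = kap z := ⟨_, rfl⟩
  have hκ0 : 0 < κ := hκ ▸ kap_pos z
  have hJℓ : (2 : ℝ) ^ J * ℓ = Real.log R / (16 * C₁ * J) := by
    rw [← hk2, hℓ]
    field_simp
  have hpow : ∀ j ≤ J, (2 : ℝ) ^ j * ℓ ≤ Real.log R / 16 := by
    intro j hj
    have a1 : (2 : ℝ) ^ j ≤ 2 ^ J := pow_le_pow_right₀ (by norm_num) hj
    have a2 : (2 : ℝ) ^ j * ℓ ≤ 2 ^ J * ℓ := mul_le_mul_of_nonneg_right a1 hℓ0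
    refine a2.trans ?_
    rw [hJℓ]
    exact div_le_div_of_nonneg_left hlogR.le (by norm_num) (Ptw9_n1 C₁ J hC hJR)
  have hRpos : (0 : ℝ) < R := by
    have : 0 < R := by omega
    exact_mod_cast this
  have hexpR : ∀ j ≤ J, Real.exp (2 ^ j * ℓ) ≤ R := by
    intro j hj
    rw [← Real.exp_log hRpos, Real.exp_le_exp]
    have := hpow j hj
    linarith
  have hexp1 : ∀ j : ℕ, Real.exp ℓ ≤ Real.exp (2 ^ j * ℓ) := by
    intro j
    rw [Real.exp_le_exp]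
    exact le_mul_of_one_le_left hℓ0 (one_le_pow₀ (by norm_num))
  have hDl : ∀ j ≤ J, κ / 2 * (2 ^ j * ℓ) ≤ DD (PP z R) (Real.exp (2 ^ j * ℓ)) := by
    intro j hj
    have a1 := DD_lower z R (Real.exp (2 ^ j * ℓ)) (by
      rw [← Real.exp_zero, Real.exp_le_exp]
      positivity) (hexpR j hj)
    rwa [Real.log_exp, ← hκ] at a1
  have hDu : ∀ j ≤ J, DD (PP z R) (Real.exp (2 ^ j * ℓ)) ≤ C₂ * κ * (2 ^ j * ℓ) := by
    intro j _
    have a1 := hDDu z R (Real.exp (2 ^ j * ℓ)) (n8.trans (hexp1 j)) ((hzB.trans n9).trans (hexp1 j))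
    rwa [Real.log_exp, ← hκ] at a1
  obtain ⟨g, hg⟩ : ∃ g : ℕ → ℝ, g = gg J ℓ := ⟨_, rfl⟩
  have hg0 : ∀ n, 0 ≤ g n := fun n => hg ▸ gg_nonneg J ℓ n
  have hg1 : ∀ n, g n ≤ 1 := fun n => hg ▸ gg_le_one J ℓ n
  have hg2 : ∀ a b, a ≤ b → g b ≤ g a := fun a b h => hg ▸ gg_anti J ℓ hℓ0 a b h
  have hg3 : ∀ n, g n ≠ 0 → (n : ℝ) ≤ Real.exp (2 ^ J * ℓ) := fun n hn => by
    rw [hg] at hn
    exact gg_supp J ℓ hℓ0 n hn
  have hBBu := BB_upper J ℓ hℓ0 (PP z R) κ C₂ hκ0.le (by linarith) hDu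
  have hBBl := BB_lower J ℓ hℓ0 (PP z R) κ (by
    have := hDl 0 (Nat.zero_le _)
    rwa [pow_zero, one_mul] at this)
  rw [← hg] at hBBu hBBl
  obtain ⟨b, hb⟩ : ∃ b : ℝ, b = BB (PP z R) g := ⟨_, rfl⟩
  have hbX : bX C₁ J k B X = b := by
    unfold bX
    rw [hRX, hlX, ← hz, ← hg]
    exact hb.symm
  rw [← hb] at hBBu hBBl
  have hb0 : 0 ≤ b := le_trans (by positivity) hBBl
  have hP : ∀ p ∈ PP z R, p.Prime := by
    intro p hp
    unfold PP at hp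
    exact (mem_filter.mp hp).2.1
  -- the bound for A
  have hA0 : 0 ≤ AA (PP z R) g := by
    unfold AA
    exact sum_nonneg fun s _ => div_nonneg (hg0 _) (Nat.cast_nonneg _)
  have hAD : AA (PP z R) g ≤ DD (PP z R) (Real.exp (2 ^ J * ℓ)) := by
    unfold AA DD
    rw [sum_filter]
    refine sum_le_sum fun s _ => ?_
    split_ifs with hs
    · exact div_le_div_of_nonneg_right (hg1 _) (Nat.cast_nonneg _)
    · have : g (pr s) = 0 := by
        by_contra hne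
        exact hs (hg3 _ hne)
      rw [this, zero_div]
  have hAb : AA (PP z R) g ≤ 2 * C₂ * k * b := by
    have a1 := hAD.trans (hDu J le_rfl)
    have a2 : C₂ * κ * (2 ^ J * ℓ) = (2 * C₂ * k) * (κ / 2 * ℓ) := by
      rw [← hk2]
      ring
    have a3 : (2 * C₂ * k) * (κ / 2 * ℓ) ≤ (2 * C₂ * k) * b :=
      mul_le_mul_of_nonneg_left hBBl (by positivity)
    linarith
  -- the sum
  have hL0 : 0 < Real.log X := by linarith
  have hlX2 : ℓ ≤ Real.log X := by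
    have a0 : (2 : ℝ) ^ 0 * ℓ ≤ Real.log R / 16 := hpow 0 (Nat.zero_le _)
    rw [pow_zero, one_mul] at a0
    have a1 : Real.log R ≤ Real.log X := Real.log_le_log hRpos (by exact_mod_cast n4)
    linarith
  have hbl : b ≤ 2 * C₂ * κ * Real.log X := by
    refine hBBu.trans (mul_le_mul_of_nonneg_left hlX2 (by positivity))
  have hcount : ((univ.filter fun σ : Col (PP z R) (Fin k) => Fit h x σ).card : ℝ) ≤
      ((k : ℝ) + 1) ^ (k * D) := by
    have a2 : ∀ T : Finset {p : ℕ // p ∈ PP z R}, (∀ p ∈ T, ∃ i, (p : ℕ) ∣ x + h i) →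
        T.card ≤ k * D := by
      intro T hT
      have b1 : T ⊆ (univ : Finset (Fin k)).biUnion fun i =>
            univ.filter fun p : {p : ℕ // p ∈ PP z R} => (p : ℕ) ∣ x + h i := by
        intro p hp
        obtain ⟨i, hi⟩ := hT p hp
        rw [mem_biUnion]
        exact ⟨i, mem_univ _, mem_filter.mpr ⟨mem_univ _, hi⟩⟩
      refine (card_le_card b1).trans (card_biUnion_le.trans ?_)
      have b2 : ∀ i ∈ (univ : Finset (Fin k)),
          (univ.filter fun p : {p : ℕ // p ∈ PP z R} => (p : ℕ) ∣ x + h i).card ≤ D := by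
        intro i _
        rw [← card_image_of_injective (univ.filter fun p : {p : ℕ // p ∈ PP z R} => (p : ℕ) ∣ x + h i)
          Subtype.val_injective, hD]
        rw [mem_Ioc] at hx
        have c1 : (h i : ℝ) ≤ X := (hh i).trans n11
        have c2 : h i ≤ X := by exact_mod_cast c1
        refine Ptw9_big θ hθ X hX3 (x + h i) (by omega) (by omega) _ fun p hp => ?_
        rw [mem_image] at hp
        obtain ⟨q, hq, rfl⟩ := hp
        rw [mem_filter] at hq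
        refine ⟨hP q q.2, hq.2, ?_⟩
        by_contra hlt
        refine hrg i q ?_ hq.2
        unfold PP
        rw [mem_filter, mem_range]
        exact ⟨by omega, hP q q.2, (hP q q.2).pos⟩
      refine (sum_le_card_nsmul _ _ _ b2).trans (le_of_eq ?_)
      rw [card_univ, Fintype.card_fin, smul_eq_mul]
    have a1 := Ptw9_fit (P := PP z R) h x (k * D) a2
    rw [Fintype.card_fin] at a1
    exact_mod_cast a1
  have hFs : |Fs C₁ J k B X h x| ≤ ((k : ℝ) + 1) ^ (k * D) * (2 * C₂ * k * b) ^ k := by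
    unfold Fs
    rw [hRX, hlX, ← hz, ← hg]
    unfold FF
    refine (abs_sum_le_sum_abs _ _).trans ?_
    have a1 : ∀ σ ∈ univ.filter (fun σ : Col (PP z R) (Fin k) => Fit h x σ),
        |lam (zz g R) σ| ≤ (2 * C₂ * k * b) ^ k := by
      intro σ _
      have b1 := Ptw9_lam (fun p hp => (hP p hp).one_lt.le) g hg0 hg2 R σ
      rw [Fintype.card_fin] at b1
      exact b1.trans (pow_le_pow_left₀ hA0 hAb k)
    refine (sum_le_card_nsmul _ _ _ a1).trans ?_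
    rw [nsmul_eq_mul]
    exact mul_le_mul_of_nonneg_right hcount (by positivity)
  rw [← hz, ← hκ, hbX, ← sq_abs]
  have hfin : (((k : ℝ) + 1) ^ (k * D) * (2 * C₂ * k * b) ^ k) ^ 2 ≤
      (((k : ℝ) + 1) ^ (k * D)) ^ 2 * (8 * C₂ ^ 3 * (k : ℝ) ^ 2) ^ k * (κ * b) ^ k * (Real.log X) ^ k := by
    have a1 := Ptw9_alg b κ (Real.log X) C₂ k hb0 hbl
    have a2 : ((2 * C₂ * k * b) ^ 2) ^ k ≤ ((8 * C₂ ^ 3 * (k : ℝ) ^ 2) * (κ * b * Real.log X)) ^ k :=
      pow_le_pow_left₀ (sq_nonneg _) a1 k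
    calc (((k : ℝ) + 1) ^ (k * D) * (2 * C₂ * k * b) ^ k) ^ 2 =
          (((k : ℝ) + 1) ^ (k * D)) ^ 2 * ((2 * C₂ * k * b) ^ 2) ^ k := by
          rw [mul_pow, pow_right_comm (2 * C₂ * k * b) k 2]
      _ ≤ (((k : ℝ) + 1) ^ (k * D)) ^ 2 * ((8 * C₂ ^ 3 * (k : ℝ) ^ 2) * (κ * b * Real.log X)) ^ k :=
          mul_le_mul_of_nonneg_left a2 (sq_nonneg _)
      _ = _ := by
          rw [mul_pow (8 * C₂ ^ 3 * (k : ℝ) ^ 2), mul_pow (κ * b)]
          ring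
  exact (pow_le_pow_left₀ (abs_nonneg _) hFs 2).trans hfin

end Pool.Agent.Lib.SH
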