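import Pool.Agent.Lib.SH.Wn8
import Pool.Agent.Lib.SG.Clus
import Pool.Agent.Lib.SG.Amft

/-!
# SH-Stp8: the cluster inequality with a relative error for the other primes (helper10)
-/

set_option autoImplicit false

open Finset

namespace Pool.Agent.Lib.SH

open Pool.Agent.Lib.MT Pool.Agent.Lib.SG

/-- a closeness in exponential sums tested against `ψ` -/
theorem stp8_test (X : ℕ) (f ρ ψ : ℕ → ℝ) (M Q δ : ℝ)
    (hQ : ∀ (D : ℕ → ℝ) (δ : ℝ), (∀ α : ℝ, ‖ES D X α‖ ≤ δ) → |∑ x ∈ Ioc X (2 * X), D x * ψ x| ≤ Q * δ)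
    (h : ∀ α : ℝ, ‖ES f X α - (M : ℂ) * ES ρ X α‖ ≤ δ) :
    |∑ x ∈ Ioc X (2 * X), f x * ψ x - M * ∑ x ∈ Ioc X (2 * X), ρ x * ψ x| ≤ Q * δ := by
  have h1 := hQ (fun x => f x - M * ρ x) δ (by
    intro α
    have e1 : ES (fun x => f x - M * ρ x) X α = ES f X α - (M : ℂ) * ES ρ X α := by
      unfold ES
      rw [mul_sum, ← sum_sub_distrib]
      refine sum_congr rfl fun x _ => ?_
      push_cast
      ring
    rw [e1]
    exact h α)
  have h2 : ∑ x ∈ Ioc X (2 * X), (f x - M * ρ x) * ψ x =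
      ∑ x ∈ Ioc X (2 * X), f x * ψ x - M * ∑ x ∈ Ioc X (2 * X), ρ x * ψ x := by
    rw [mul_sum, ← sum_sub_distrib]
    exact sum_congr rfl fun x _ => by ring
  rw [← h2]
  exact h1

theorem stp8 {m k H z X c a : ℕ} (hm : 1 ≤ m) (hk : 1 ≤ k) (Ω : ℕ → Finset ℕ) (h : Fin k → ℕ)
    (hinj : Function.Injective h) (hh : ∀ i, 1 ≤ h i ∧ h i ≤ H) (w : ℕ → ℝ) (v : Fin k → ℕ → ℝ)
    (u : ℕ → ℕ → ℝ) (M : ℝ) (M' : Fin k → ℝ) (M'' : ℕ → ℝ) (κ : ℝ) (hκ : 0 ≤ κ)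
    (hκ1 : (m + k * H) * κ ≤ 1) (hW : Wh m k H z X c a Ω h w v u M M' M'' κ)
    (A : Set ℕ) (hA : Hit m H (2 * X) A) (hρ : ∀ x, 0 ≤ SG.mu Ω z X x) (ψ : ℕ → ℝ) (hψ : ∀ x, 0 ≤ ψ x)
    (Q : ℝ) (hQ0 : 0 ≤ Q) (hlog : 0 ≤ Real.log X)
    (hQ : ∀ (D : ℕ → ℝ) (δ : ℝ), (∀ α : ℝ, ‖ES D X α‖ ≤ δ) → |∑ x ∈ Ioc X (2 * X), D x * ψ x| ≤ Q * δ) :
    ∑ x ∈ Ioc X (2 * X), SG.mu Ω z X x * ψ x ≤
      k * ∑ i, ∑ x ∈ Ioc X (2 * X), fa A h w i x * ψ x +
        (k + m + k * H) * (Q * (X / (Real.log X) ^ a)) := by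
  classical
  have hk0 : (0 : ℝ) < k := by exact_mod_cast hk
  have hk1 : (1 : ℝ) ≤ k := by exact_mod_cast hk
  have hm1 : (1 : ℝ) ≤ m := by exact_mod_cast hm
  obtain ⟨Th, hTh⟩ : ∃ Th : Finset ℕ, Th = (Icc 1 H).filter (fun t => ∀ i, t ≠ h i) := ⟨_, rfl⟩
  have hThm : ∀ t ∈ Th, 1 ≤ t ∧ t ≤ H ∧ ∀ i, t ≠ h i := by
    intro t ht
    rw [hTh, mem_filter, mem_Icc] at ht
    exact ⟨ht.1.1, ht.1.2, ht.2⟩
  have hThc : (Th.card : ℝ) ≤ H := by
    have := card_filter_le (Icc 1 H) (fun t => ∀ i, t ≠ h i)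
    rw [Nat.card_Icc, Nat.add_sub_cancel] at this
    rw [hTh]
    exact_mod_cast this
  obtain ⟨S, hS⟩ : ∃ S : ℝ, S = ∑ x ∈ Ioc X (2 * X), SG.mu Ω z X x * ψ x := ⟨_, rfl⟩
  have hS0 : 0 ≤ S := by
    rw [hS]
    exact sum_nonneg fun x _ => mul_nonneg (hρ x) (hψ x)
  obtain ⟨δ, hδ⟩ : ∃ δ : ℝ, δ = Q * (X / (Real.log X) ^ a) := ⟨_, rfl⟩
  have hδ0 : 0 ≤ δ := by
    rw [hδ]
    positivity
  -- the clusters, pointwise
  have h6 : ∀ x ∈ Ioc X (2 * X),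
      ((∑ i, v i x) * ψ x - (m - 1) * (w x * ψ x)) - k * ∑ t ∈ Th, u t x * ψ x ≤
      k * ∑ i, fa A h w i x * ψ x := by
    intro x hx
    have hc := clus hm h hinj hh A hA x hx
    obtain ⟨g, hg⟩ : ∃ g : ℝ, g = ((univ.filter (fun i : Fin k => (x + h i).Prime)).card : ℝ) := ⟨_, rfl⟩
    obtain ⟨b, hb⟩ : ∃ b : ℝ,
      b = (((Icc 1 H).filter (fun t => (∀ i, t ≠ h i) ∧ (x + t).Prime)).card : ℝ) := ⟨_, rfl⟩
    obtain ⟨a', ha'⟩ : ∃ a' : ℝ,
      a' = ((univ.filter (fun i : Fin k => x + h i ∈ A ∧ (x + h i).Prime)).card : ℝ) := ⟨_, rfl⟩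
    have hc' : g - (m - 1) - k * b ≤ k * a' := by
      rw [hg, hb, ha']
      convert hc using 2
    have e1 : ∑ i, fa A h w i x * ψ x = a' * (w x * ψ x) := by
      rw [← Finset.sum_mul]
      have : ∑ i, fa A h w i x = a' * w x := by
        unfold fa
        rw [← Finset.sum_filter, Finset.sum_const, nsmul_eq_mul, ha']
      rw [this]
      ring
    have e2 : ∑ i, v i x ≤ g * w x := by
      have : ∀ i, v i x ≤ if (x + h i).Prime then w x else 0 := by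
        intro i
        split_ifs with hp
        · exact hW.vw i x
        · by_contra hcon
          exact hp (hW.vp i x (fun h0 => hcon (h0 ▸ le_refl _)))
      calc ∑ i, v i x ≤ ∑ i, (if (x + h i).Prime then w x else 0) :=
            Finset.sum_le_sum fun i _ => this i
        _ = g * w x := by rw [← Finset.sum_filter, Finset.sum_const, nsmul_eq_mul, hg]
    rw [e1]
    have hwφ : 0 ≤ w x * ψ x := mul_nonneg (hW.w0 x) (hψ x)
    have e3 : (g - (m - 1) - k * b) * (w x * ψ x) ≤ (k * a') * (w x * ψ x) :=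
      mul_le_mul_of_nonneg_right hc' hwφ
    have e4 : (∑ i, v i x) * ψ x ≤ g * (w x * ψ x) := by
      calc (∑ i, v i x) * ψ x ≤ (g * w x) * ψ x := mul_le_mul_of_nonneg_right e2 (hψ x)
        _ = g * (w x * ψ x) := by ring
    have e5 : b * (w x * ψ x) ≤ ∑ t ∈ Th, u t x * ψ x := by
      have f1 : (Icc 1 H).filter (fun t => (∀ i, t ≠ h i) ∧ (x + t).Prime) =
          Th.filter (fun t => (x + t).Prime) := by
        rw [hTh, filter_filter]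
      rw [hb, f1, ← nsmul_eq_mul, ← Finset.sum_const, sum_filter]
      refine sum_le_sum fun t ht => ?_
      obtain ⟨t1, t2, t3⟩ := hThm t ht
      split_ifs with hp
      · exact mul_le_mul_of_nonneg_right (hW.uw t t1 t2 t3 x hx hp) (hψ x)
      · exact mul_nonneg (hW.u0 t x) (hψ x)
    have e6 : k * (b * (w x * ψ x)) ≤ k * ∑ t ∈ Th, u t x * ψ x :=
      mul_le_mul_of_nonneg_left e5 hk0.le
    linarith
  have h7 := Finset.sum_le_sum h6
  rw [Finset.sum_sub_distrib, ← Finset.mul_sum, ← Finset.mul_sum, Finset.sum_sub_distrib,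
    ← Finset.mul_sum] at h7
  have h8 : ∑ x ∈ Ioc X (2 * X), ∑ i, fa A h w i x * ψ x =
      ∑ i, ∑ x ∈ Ioc X (2 * X), fa A h w i x * ψ x := Finset.sum_comm
  rw [h8] at h7
  -- the tests
  have hw := stp8_test X w (SG.mu Ω z X) ψ M Q _ hQ hW.clw
  have hv := fun i => stp8_test X (v i) (SG.mu Ω z X) ψ (M' i) Q _ hQ (hW.clv i)
  have hu := fun t (ht : t ∈ Th) => stp8_test X (u t) (SG.mu Ω z X) ψ (M'' t) Q _ hQ
    (hW.clu t (hThm t ht).1 (hThm t ht).2.1 (hThm t ht).2.2).2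
  rw [← hδ, ← hS] at hw
  simp only [← hδ, ← hS] at hv hu
  have g1 : ∑ x ∈ Ioc X (2 * X), (∑ i, v i x) * ψ x = ∑ i, ∑ x ∈ Ioc X (2 * X), v i x * ψ x := by
    rw [sum_comm]
    exact sum_congr rfl fun x _ => by rw [sum_mul]
  have g2 : (∑ i, M' i) * S - k * δ ≤ ∑ x ∈ Ioc X (2 * X), (∑ i, v i x) * ψ x := by
    rw [g1]
    have : ∑ i : Fin k, (M' i * S - δ) ≤ ∑ i, ∑ x ∈ Ioc X (2 * X), v i x * ψ x := by
      refine sum_le_sum fun i _ => ?_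
      have := (abs_le.1 (hv i)).1
      linarith
    rw [sum_sub_distrib, ← sum_mul, sum_const, card_univ, Fintype.card_fin, nsmul_eq_mul] at this
    exact this
  have g3 : ∑ x ∈ Ioc X (2 * X), w x * ψ x ≤ M * S + δ := by
    have := (abs_le.1 hw).2
    linarith
  have g4 : ∑ x ∈ Ioc X (2 * X), ∑ t ∈ Th, u t x * ψ x ≤ H * (κ * S + δ) := by
    rw [sum_comm]
    have f1 : ∀ t ∈ Th, ∑ x ∈ Ioc X (2 * X), u t x * ψ x ≤ κ * S + δ := by
      intro t ht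
      have f2 := (abs_le.1 (hu t ht)).2
      have f3 := (hW.clu t (hThm t ht).1 (hThm t ht).2.1 (hThm t ht).2.2).1
      have f4 : M'' t * S ≤ κ * S := mul_le_mul_of_nonneg_right f3 hS0
      linarith
    refine (sum_le_sum f1).trans ?_
    rw [sum_const, nsmul_eq_mul]
    apply mul_le_mul_of_nonneg_right hThc
    positivity
  have hM1 := hW.M1
  have hM2 := hW.M'2
  rw [← hS, ← hδ]
  have g5 : S ≤ ((∑ i, M' i) - (m - 1) * M - k * H * κ) * S := by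
    have f1 : (1 : ℝ) ≤ (∑ i, M' i) - (m - 1) * M - k * H * κ := by
      have f2 : ((m : ℝ) - 1) * M ≤ (m - 1) * (1 + κ) := mul_le_mul_of_nonneg_left hM1 (by linarith)
      nlinarith
    calc S = 1 * S := (one_mul S).symm
      _ ≤ _ := mul_le_mul_of_nonneg_right f1 hS0
  have g6 : ((m : ℝ) - 1) * ∑ x ∈ Ioc X (2 * X), w x * ψ x ≤ (m - 1) * (M * S + δ) :=
    mul_le_mul_of_nonneg_left g3 (by linarith)
  have g7 : (k : ℝ) * ∑ x ∈ Ioc X (2 * X), ∑ t ∈ Th, u t x * ψ x ≤ k * (H * (κ * S + δ)) :=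
    mul_le_mul_of_nonneg_left g4 hk0.le
  have g8 : ((∑ i, M' i) - (m - 1) * M - k * H * κ) * S =
      ((∑ i, M' i) * S - k * δ) - (m - 1) * (M * S + δ) - k * (H * (κ * S + δ)) +
        (k + (m - 1) + k * H) * δ := by ring
  have g9 : ((k : ℝ) + (m - 1) + k * H) * δ ≤ (k + m + k * H) * δ := by
    apply mul_le_mul_of_nonneg_right _ hδ0
    linarith
  linarith

end Pool.Agent.Lib.SH
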