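import Pool.Agent.Lib.SH.Def9
import Pool.Agent.Lib.SH.Rat8
import Pool.Agent.Lib.SH.Wcl8
import Pool.Agent.Lib.SG.Mumass7
import Pool.Agent.Lib.MT.Moment

/-!
# SH-Uts9 (90 minutes): the weights on which x + t is prime, t not in the tuple

PROOF. `z = zX B X`, `R = RX X`, `b = bX ..`, `V = V1 Ω z`. Put `Ω' p := if p.Prime then (if p ≤ 2K then Ω p else Ω p ∪ (range p).filter (p ∣ · + t)) else ∅`
(for a prime `p > 2K` one has `p > 2K + 2`, since `2K + 1` is not prime and `2K + 2` is even). `Nice (K + 1) Ω'`: card at most `K + 1`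
(`(range p).filter (p ∣ · + t)` has at most one element: `c ≡ -t`), at most `1` for `p ≤ 2K + 2` (primes `≤ 2K`), entries `< p`.
`hR.main (K + 1) B` for `Ω'` and this `t` gives `c > 0`, `y` (called `u` there) with `|y| ≤ 1`, support `≤ R*R`, `FF h' (lam y) x = Fs x` if `x + t` is prime
(`h' = fun o => o.elim t h`) and `∑_{Pre Ω'} FF² ≤ X V1 Ω' z (4 b^k/(kap z log R)) + X^(1-c)`.
Put `u x := if x ∈ Pre Ω' z X then (FF h' (lam y) x)^2/(V b^k) else 0`. MAJORANT: if `x ∈ (X, 2X]`, `x + t` prime and `x ∈ Pre Ω z X`, then `x ∈ Pre Ω' z X`, because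
the prime `x + t > z` is not divisible by a prime `p ≤ z` (`x % p ∈ Ω' p` new means `p ∣ x % p + t`, i.e. `p ∣ x + t`). So `wt x ≤ u x` (equality), and `wt x = 0` outside `Pre Ω z X`.
CLOSENESS: `wcl8 (Option (Fin k)) (k + 1) (K + 1)` exactly as `hclg` in SH/Wts8 (with `Ω'`; `X/T` there is `1/(V b^k) ≤ log X` by `num_V1`, `b ≥ 1`):
`‖ES u X α - G * ES (SG.mu Ω' z X) X α‖ ≤ X/(log X)^(a+2)` with some `G`; by `wts8_ratio` (copy it) `G` may be replaced by `G' = (∑ u)/(∑ SG.mu Ω' z X)`, error `2 X/(log X)^(a+2) ≤ X/(log X)^a`.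
`∑ u ≤ (V1 Ω' z/V) X (4/(kap z log R)) + log X * X^(1-c)`, `∑ SG.mu Ω' z X ≥ X (1 - 1/log X)` (`mumass7 (K + 1) B`), so
`G' ≤ (9/2) (V1 Ω' z/V)/(kap z log R) + 2 log X * X^(-c) ≤ 5 (V1 Ω' z/V)/(kap z log R)` for `X` large, because `V1 Ω' z ≥ 1/log X` (`num_V1 (K+1)` and `RNum6_loglog` as in SH/Wts8),
`V ≤ 1`, `kap z ≤ 1`, `log R ≤ log X`. `log R ≥ log (3X)/2000` (`num8`), so `G' ≤ 10000 (V1 Ω' z/V)/(kap z log X)`.
TEST: `stp8_test`-like (SH/Stp8): `∑ u ψ ≤ G' ∑ SG.mu Ω' z X x ψ x + Q X/(log X)^a`, and `V1 Ω' z * SG.mu Ω' z X x = 1_{Pre Ω'}(x) ≤ V * SG.mu Ω z X x * 1[∀ p ∈ PP (2K+2) z, ¬ p ∣ x + t]`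
(`Pre Ω' ⊆ Pre Ω`; if `p ∣ x + t`, `p > 2K + 2` prime `≤ z`, then `x % p ∈ Ω' p`).
-/

set_option autoImplicit false

open Finset

namespace Pool.Agent.Lib.SH

open Pool.Agent.Lib.MT Pool.Agent.Lib.SG

private theorem uts9_pre (Ω : ℕ → Finset ℕ) (z X : ℕ) (f : ℕ → ℝ) (α : ℝ) (g : ℕ → ℝ)
    (hf : ∀ x ∈ Pre Ω z X, f x = g x) (hf0 : ∀ x, x ∉ Pre Ω z X → f x = 0) :
    ES f X α = ∑ x ∈ Pre Ω z X, (g x : ℂ) * GT.e (α * x) := by
  classical
  unfold ES
  have hsub : Pre Ω z X ⊆ Ioc X (2 * X) := filter_subset _ _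
  rw [← sum_subset hsub (fun x _ hx => by rw [hf0 x hx]; simp)]
  exact sum_congr rfl fun x hx => by rw [hf x hx]

private theorem uts9_e0 (x : ℕ) : GT.e ((0 : ℝ) * x) = 1 := by
  unfold GT.e
  simp

private theorem uts9_zero (f : ℕ → ℝ) (X : ℕ) :
    ES f X 0 = ((∑ x ∈ Ioc X (2 * X), f x : ℝ) : ℂ) := by
  unfold ES
  push_cast
  exact sum_congr rfl fun x _ => by rw [uts9_e0, mul_one]

private theorem uts9_norm (f : ℕ → ℝ) (hf : ∀ x, 0 ≤ f x) (X : ℕ) (α : ℝ) :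
    ‖ES f X α‖ ≤ ∑ x ∈ Ioc X (2 * X), f x := by
  unfold ES
  refine (norm_sum_le _ _).trans (le_of_eq (sum_congr rfl fun x _ => ?_))
  rw [norm_mul, SW.norm_e', mul_one, Complex.norm_real, Real.norm_of_nonneg (hf x)]

/-- the constant may be replaced by the quotient of the masses -/
private theorem uts9_ratio (f ρ : ℕ → ℝ) (X : ℕ) (G η : ℝ) (hρ : ∀ x, 0 ≤ ρ x)
    (hS : 0 < ∑ x ∈ Ioc X (2 * X), ρ x) (h : ∀ α : ℝ, ‖ES f X α - G * ES ρ X α‖ ≤ η) (α : ℝ) :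
    ‖ES f X α - (((∑ x ∈ Ioc X (2 * X), f x) / ∑ x ∈ Ioc X (2 * X), ρ x : ℝ) : ℂ) * ES ρ X α‖ ≤
      2 * η := by
  obtain ⟨S, hSd⟩ : ∃ S : ℝ, S = ∑ x ∈ Ioc X (2 * X), ρ x := ⟨_, rfl⟩
  obtain ⟨F, hFd⟩ : ∃ F : ℝ, F = ∑ x ∈ Ioc X (2 * X), f x := ⟨_, rfl⟩
  rw [← hSd, ← hFd]
  rw [← hSd] at hS
  have h0 := h 0
  rw [uts9_zero, uts9_zero, ← hSd, ← hFd] at h0
  have h1 : |F - G * S| ≤ η := by
    have : ((F : ℂ) - (G : ℂ) * (S : ℂ)) = ((F - G * S : ℝ) : ℂ) := by push_cast; ring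
    rw [this, Complex.norm_real] at h0
    exact h0
  have h2 : ES f X α - ((F / S : ℝ) : ℂ) * ES ρ X α =
      (ES f X α - G * ES ρ X α) + ((G - F / S : ℝ) : ℂ) * ES ρ X α := by
    push_cast
    ring
  rw [h2]
  refine (norm_add_le _ _).trans ?_
  have h3 : ‖((G - F / S : ℝ) : ℂ) * ES ρ X α‖ ≤ η := by
    rw [norm_mul, Complex.norm_real]
    calc ‖G - F / S‖ * ‖ES ρ X α‖ ≤ ‖G - F / S‖ * S := by
          apply mul_le_mul_of_nonneg_left _ (norm_nonneg _)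
          rw [hSd]
          exact uts9_norm ρ hρ X α
      _ = |(G - F / S) * S| := by
          rw [abs_mul, abs_of_pos hS, Real.norm_eq_abs]
      _ = |F - G * S| := by
          rw [sub_mul, div_mul_cancel₀ _ hS.ne', abs_sub_comm]
      _ ≤ η := h1
  have h4 := h α
  linarith

private theorem uts9_test (X : ℕ) (f ρ ψ : ℕ → ℝ) (M Q δ : ℝ)
    (hQ : ∀ (D : ℕ → ℝ) (δ : ℝ), (∀ α : ℝ, ‖ES D X α‖ ≤ δ) → |∑ x ∈ Ioc X (2 * X), D x * ψ x| ≤ Q * δ)
    (h : ∀ α : ℝ, ‖ES f X α - (M : ℂ) * ES ρ X α‖ ≤ δ) :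
    |∑ x ∈ Ioc X (2 * X), f x * ψ x - M * ∑ x ∈ Ioc X (2 * X), ρ x * ψ x| ≤ Q * δ := by
  have h1 := hQ (fun x => f x - M * ρ x) δ (by
    intro α
    have e1 : ES (fun x => f x - M * ρ x) X α = ES f X α - (M : ℂ) * ES ρ X α := by
      unfold ES
      rw [mul_sum, ← sum_sub_distrib]
      refine sum_congr rfl fun x _ => ?_
      push_cast
      ring
    rw [e1]
    exact h α)
  have h2 : ∑ x ∈ Ioc X (2 * X), (f x - M * ρ x) * ψ x =
      ∑ x ∈ Ioc X (2 * X), f x * ψ x - M * ∑ x ∈ Ioc X (2 * X), ρ x * ψ x := by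
    rw [mul_sum, ← sum_sub_distrib]
    exact sum_congr rfl fun x _ => by ring
  rw [← h2]
  exact h1

/-- the presieve with the classes of `-t` -/
private def uts9_Om (K t : ℕ) (Ω : ℕ → Finset ℕ) (p : ℕ) : Finset ℕ :=
  if p.Prime then (if p ≤ 2 * K then Ω p else Ω p ∪ (range p).filter (fun c => p ∣ c + t)) else ∅

private theorem uts9_one (p t : ℕ) : ((range p).filter (fun c => p ∣ c + t)).card ≤ 1 := by
  rw [card_le_one]
  intro a ha b hb
  rw [mem_filter, mem_range] at ha hb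
  have h1 : a + t ≡ b + t [MOD p] :=
    ((Nat.modEq_zero_iff_dvd).mpr ha.2).trans ((Nat.modEq_zero_iff_dvd).mpr hb.2).symm
  have h2 : a ≡ b [MOD p] := Nat.ModEq.add_right_cancel' t h1
  unfold Nat.ModEq at h2
  rwa [Nat.mod_eq_of_lt ha.1, Nat.mod_eq_of_lt hb.1] at h2

private theorem uts9_nice (K t : ℕ) (hK : ¬ (2 * K + 1).Prime) (Ω : ℕ → Finset ℕ) (hN : Nice K Ω) :
    Nice (K + 1) (uts9_Om K t Ω) := by
  have hcard : ∀ p, (uts9_Om K t Ω p).card ≤ K + 1 := by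
    intro p
    unfold uts9_Om
    split_ifs
    · exact (hN.card p).trans (Nat.le_succ K)
    · exact (card_union_le _ _).trans (add_le_add (hN.card p) (uts9_one p t))
    · simp
  refine ⟨hcard, fun p hp => ?_, fun p c hc => ?_⟩
  · by_cases h0 : K = 0
    · have := hcard p
      omega
    · unfold uts9_Om
      split_ifs with h1 h2
      · exact hN.small p h2
      · exfalso
        have h3 : p = 2 * K + 1 ∨ p = 2 * (K + 1) := by omega
        rcases h3 with h3 | h3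
        · rw [h3] at h1
          exact hK h1
        · rw [h3] at h1
          have h4 := (Nat.prime_dvd_prime_iff_eq Nat.prime_two h1).1 (dvd_mul_right 2 (K + 1))
          omega
      · simp
  · unfold uts9_Om at hc
    split_ifs at hc with h1 h2
    · exact hN.lt p c hc
    · rw [mem_union] at hc
      rcases hc with hc | hc
      · exact hN.lt p c hc
      · rw [mem_filter, mem_range] at hc
        exact hc.1
    · simp at hc

private theorem uts9_dvd (x p t : ℕ) : p ∣ x % p + t ↔ p ∣ x + t := by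
  rw [Nat.dvd_iff_mod_eq_zero, Nat.dvd_iff_mod_eq_zero, Nat.mod_add_mod]

private theorem uts9_sub (K t z X : ℕ) (Ω : ℕ → Finset ℕ) (x : ℕ) (hx : x ∈ Pre (uts9_Om K t Ω) z X) :
    x ∈ Pre Ω z X ∧ ∀ p ∈ PP (2 * K + 2) z, ¬ p ∣ x + t := by
  unfold Pre at hx ⊢
  rw [mem_filter] at hx ⊢
  refine ⟨⟨hx.1, fun p hp hc => ?_⟩, fun p hp hd => ?_⟩
  · have h1 := hx.2 p hp
    have hp' : p.Prime := by
      unfold PP at hp
      exact (mem_filter.1 hp).2.1
    apply h1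
    unfold uts9_Om
    rw [if_pos hp']
    split_ifs
    · exact hc
    · exact mem_union_left _ hc
  · unfold PP at hp
    rw [mem_filter, mem_range] at hp
    have h1 := hx.2 p (by
      unfold PP
      rw [mem_filter, mem_range]
      exact ⟨hp.1, hp.2.1, hp.2.1.pos⟩)
    apply h1
    unfold uts9_Om
    rw [if_pos hp.2.1, if_neg (by omega)]
    refine mem_union_right _ ?_
    rw [mem_filter, mem_range]
    exact ⟨Nat.mod_lt _ hp.2.1.pos, (uts9_dvd x p t).2 hd⟩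

private theorem uts9_mem (K t z X : ℕ) (Ω : ℕ → Finset ℕ) (x : ℕ) (hzX : z ≤ X) (hx : x ∈ Pre Ω z X)
    (hpr : (x + t).Prime) : x ∈ Pre (uts9_Om K t Ω) z X := by
  unfold Pre at hx ⊢
  rw [mem_filter] at hx ⊢
  refine ⟨hx.1, fun p hp hc => ?_⟩
  have hp' := hp
  unfold PP at hp'
  rw [mem_filter, mem_range] at hp'
  unfold uts9_Om at hc
  rw [if_pos hp'.2.1] at hc
  split_ifs at hc with h1
  · exact hx.2 p hp hc
  · rw [mem_union] at hc
    rcases hc with hc | hc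
    · exact hx.2 p hp hc
    · rw [mem_filter] at hc
      have h2 := (uts9_dvd x p t).1 hc.2
      have h3 := (Nat.prime_dvd_prime_iff_eq hp'.2.1 hpr).1 h2
      have h4 := mem_Ioc.1 hx.1
      omega

/-- the quotient of the masses -/
private theorem uts9_num (X L V V' T b' κ R E S F : ℝ) (hX : 0 < X) (hL : 10 ≤ L) (hV0 : 0 < V) (hV1 : V ≤ 1)
    (hV' : 1 / L ≤ V') (hκ0 : 0 < κ) (hκ1 : κ ≤ 1) (hb : 1 ≤ b') (hT : T = V * b') (hR : L / 2000 ≤ R)
    (hE : L ^ 3 * E ≤ X) (hE0 : 0 ≤ E) (hTL : 1 / T ≤ L) (hS : X * (1 - 1 / L) ≤ S)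
    (hF : F ≤ 1 / T * (X * V' * (4 * b' / (κ * R)) + E)) :
    F / S ≤ 10000 / (κ * L) * (V' / V) := by
  have hL0 : 0 < L := by linarith
  have hV'0 : 0 < V' := lt_of_lt_of_le (by positivity) hV'
  have hR0 : 0 < R := by
    have : 0 < L / 2000 := by positivity
    linarith
  have hb0 : 0 < b' := by linarith
  have hT0 : 0 < T := by
    rw [hT]
    positivity
  have hL1 : 1 / L ≤ 1 / 10 := one_div_le_one_div_of_le (by norm_num) hL
  have hS1 : 9 / 10 * X ≤ S := by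
    refine le_trans ?_ hS
    have : X * (9 / 10) ≤ X * (1 - 1 / L) := by
      apply mul_le_mul_of_nonneg_left _ hX.le
      linarith
    linarith
  have hS0 : 0 < S := by
    have : 0 < 9 / 10 * X := by positivity
    linarith
  obtain ⟨ρ, hρ⟩ : ∃ ρ : ℝ, ρ = V' / (V * κ * L) := ⟨_, rfl⟩
  have hρ0 : 0 < ρ := by
    rw [hρ]
    positivity
  have h1 : 1 / T * (X * V' * (4 * b' / (κ * R))) ≤ 8000 * ρ * X := by
    have e1 : 1 / T * (X * V' * (4 * b' / (κ * R))) = 4 * X * V' / (V * κ) * (1 / R) := by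
      rw [hT]
      field_simp
    have e2 : 1 / R ≤ 2000 / L := by
      rw [div_le_div_iff₀ hR0 hL0]
      linarith
    have e3 : 4 * X * V' / (V * κ) * (2000 / L) = 8000 * ρ * X := by
      rw [hρ]
      field_simp
      norm_num
    rw [e1, ← e3]
    exact mul_le_mul_of_nonneg_left e2 (by positivity)
  have h2 : 1 / T * E ≤ ρ * X := by
    have e1 : L * E ≤ X / L ^ 2 := by
      rw [le_div_iff₀ (by positivity)]
      calc L * E * L ^ 2 = L ^ 3 * E := by ring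
        _ ≤ X := hE
    have e2 : 1 / L ^ 2 ≤ ρ := by
      rw [hρ, le_div_iff₀ (by positivity)]
      have e3 : V * κ ≤ 1 := mul_le_one₀ hV1 hκ0.le hκ1
      calc 1 / L ^ 2 * (V * κ * L) = (V * κ) * (1 / L) := by field_simp
        _ ≤ 1 * (1 / L) := by
            apply mul_le_mul_of_nonneg_right e3
            positivity
        _ ≤ V' := by linarith
    calc 1 / T * E ≤ L * E := mul_le_mul_of_nonneg_right hTL hE0
      _ ≤ X / L ^ 2 := e1
      _ = 1 / L ^ 2 * X := by ring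
      _ ≤ ρ * X := mul_le_mul_of_nonneg_right e2 hX.le
  have h3 : F ≤ 8001 * ρ * X := by
    rw [mul_add] at hF
    linarith
  have h4 : 10000 / (κ * L) * (V' / V) = 10000 * ρ := by
    rw [hρ]
    field_simp
  rw [h4, div_le_iff₀ hS0]
  have h5 : 10000 * ρ * (9 / 10 * X) ≤ 10000 * ρ * S := mul_le_mul_of_nonneg_left hS1 (by positivity)
  have h6 : 0 < ρ * X := by positivity
  nlinarith

open Classical in
theorem uts9 (m J k : ℕ) (C₁ : ℝ) (hR : RatP m J k C₁) (K a : ℕ) (hK : ¬ (2 * K + 1).Prime) : ∃ B₀ : ℕ, 2 ≤ B₀ ∧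
    ∀ B : ℕ, B₀ ≤ B → ∃ X₀ : ℕ, ∀ X : ℕ, X₀ ≤ X → ∀ h : Fin k → ℕ, Function.Injective h →
    (∀ i, 1 ≤ h i ∧ (h i : ℝ) ≤ Real.log X) → ∀ Ω : ℕ → Finset ℕ, Nice K Ω →
    ∀ t : ℕ, 1 ≤ t → (t : ℝ) ≤ Real.log X → (∀ i, t ≠ h i) → ∃ u : ℕ → ℝ, (∀ x, 0 ≤ u x) ∧
      (∀ x ∈ Ioc X (2 * X), (x + t).Prime → wt C₁ J k B X Ω h x ≤ u x) ∧
      ∀ ψ : ℕ → ℝ, (∀ x, 0 ≤ ψ x) → ∀ Q : ℝ, 0 ≤ Q → Tst X Q ψ →
        ∑ x ∈ Ioc X (2 * X), u x * ψ x ≤ 10000 / (kap (zX B X) * Real.log X) *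
          ∑ x ∈ Ioc X (2 * X), (if ∀ p ∈ PP (2 * K + 2) (zX B X), ¬ p ∣ x + t then
            SG.mu Ω (zX B X) X x * ψ x else 0) + Q * (X / (Real.log X) ^ a) := by
  obtain ⟨D', hWc'⟩ := wcl8 (Option (Fin k)) (k + 1) (K + 1) (by rw [Fintype.card_option, Fintype.card_fin])
  refine ⟨D' + a + 5, by omega, fun B hB => ?_⟩
  obtain ⟨c, hc, X₁, h1⟩ := hR.main (K + 1) B (by omega)
  obtain ⟨X₂, h2⟩ := hWc' B
  obtain ⟨X₄, h4⟩ := mumass7 (K + 1) B
  obtain ⟨X₇, h7⟩ := num8 C₁ hR.C1 J k B hR.J1 hR.k1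
  obtain ⟨C₂, hC₂, hV1⟩ := num_V1 (K + 1)
  obtain ⟨C₃, hC₃, hV3⟩ := num_V1 K
  obtain ⟨X₈, h8⟩ := RNum6_loglog C₂ (by linarith) (2 * (K + 1)) B
  obtain ⟨X₉, h9⟩ := RNum6_loglog C₃ (by linarith) (2 * K) B
  have e1 := RNum6_log.eventually_ge_atTop (10 : ℝ)
  have e2 := RNum6_pow 1 c hc 3
  have e3 := RNum6_pow 1 1 one_pos B
  obtain ⟨X₀, h0⟩ := Filter.eventually_atTop.mp (e1.and (e2.and e3))
  refine ⟨max (max (max X₁ X₂) (max X₄ X₇)) (max (max X₈ X₉) X₀), fun X hX h hinj hh Ω hN t ht1 htl hti => ?_⟩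
  simp only [max_le_iff] at hX
  obtain ⟨⟨⟨hX1, hX2⟩, hX4, hX7⟩, ⟨hX8, hX9⟩, hX0'⟩ := hX
  obtain ⟨hL10, hLc, hLB⟩ := h0 X hX0'
  rw [one_mul] at hLc hLB
  rw [Real.rpow_one] at hLB
  set L : ℝ := Real.log X with hL
  have hlog1 : 1 ≤ L := by linarith
  have hlog0 : 0 < L := by linarith
  set z : ℕ := zX B X with hz
  have hzB : (z : ℝ) ≤ L ^ B := Nat.floor_le (by positivity)
  have hzlow : L ^ (B - 1) ≤ z := by
    have a1 : L ^ B < z + 1 := Nat.lt_floor_add_one _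
    have a2 : L ^ B = L ^ (B - 1) * L := by
      rw [← pow_succ]
      congr 1
      omega
    have a3 : 1 ≤ L ^ (B - 1) := one_le_pow₀ hlog1
    nlinarith
  have hzlog : L ≤ z := by
    refine le_trans ?_ hzlow
    calc L = L ^ 1 := (pow_one _).symm
      _ ≤ L ^ (B - 1) := pow_le_pow_right₀ hlog1 (by omega)
  have hz2 : 2 ≤ z := by
    have : (2 : ℝ) ≤ z := by linarith
    exact_mod_cast this
  have hz0 : (0 : ℝ) < z := by linarith
  have hzX : z ≤ X := by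
    have : (z : ℝ) ≤ X := hzB.trans hLB
    exact_mod_cast this
  have hX0 : (0 : ℝ) < X := by
    have : (0 : ℝ) < L ^ B := by positivity
    linarith
  set R : ℕ := RX X with hRd
  have hRle : (R : ℝ) ≤ (X : ℝ) ^ (1 / 1000 : ℝ) := Nat.floor_le (by positivity)
  have hX1r : (1 : ℝ) ≤ X := by
    have : 1 ≤ X := by omega
    exact_mod_cast this
  have hQR : ((R * R : ℕ) : ℝ) ≤ (X : ℝ) ^ (1 / 500 : ℝ) := by
    push_cast
    calc (R : ℝ) * R ≤ (X : ℝ) ^ (1 / 1000 : ℝ) * (X : ℝ) ^ (1 / 1000 : ℝ) := by gcongr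
      _ = (X : ℝ) ^ (1 / 500 : ℝ) := by
        rw [← Real.rpow_add hX0]
        norm_num
  obtain ⟨_, ⟨n5, _, _⟩, _, _⟩ := h7 X hX7 R rfl _ rfl
  have hRL : L / 2000 ≤ Real.log R := by
    have : L ≤ Real.log (3 * X) := Real.log_le_log hX0 (by linarith)
    linarith
  obtain ⟨hb1, hr⟩ := h1 X hX1
  set b : ℝ := bX C₁ J k B X with hbd
  have hN' := uts9_nice K t hK Ω hN
  set Ω' : ℕ → Finset ℕ := uts9_Om K t Ω with hΩ'
  obtain ⟨_, _, q3⟩ := hr h hinj (fun i => (hh i).2) Ω' hN'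
  obtain ⟨y, y1, y2, y3, y4⟩ := q3 t ht1 htl hti
  obtain ⟨hV'0, _, hV'2⟩ := hV1 Ω' hN' z hz2
  obtain ⟨hV0, hVi, hV2⟩ := hV3 Ω hN z hz2
  have hV'l : 1 / L ≤ V1 Ω' z := by
    rw [one_div]
    exact inv_le_of_inv_le₀ hV'0 (hV'2.trans (h8 X z hX8 hz2 hzB))
  have hVl : 1 / L ≤ V1 Ω z := by
    rw [one_div]
    exact inv_le_of_inv_le₀ hV0 (hV2.trans (h9 X z hX9 hz2 hzB))
  have hVle : V1 Ω z ≤ 1 := by
    rwa [one_le_inv₀ hV0] at hVi
  have hb0 : 0 < b ^ k := by positivity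
  have hbk : 1 ≤ b ^ k := one_le_pow₀ hb1
  obtain ⟨T, hTd⟩ : ∃ T : ℝ, T = V1 Ω z * b ^ k := ⟨_, rfl⟩
  have hT0 : 0 < T := by
    rw [hTd]
    positivity
  have hTL : 1 / T ≤ L := by
    have a1 : 1 / L ≤ T := by
      rw [hTd]
      calc 1 / L = 1 / L * 1 := (mul_one _).symm
        _ ≤ V1 Ω z * b ^ k := mul_le_mul hVl hbk zero_le_one hV0.le
    rw [div_le_iff₀ hT0]
    rw [div_le_iff₀ hlog0] at a1
    linarith
  have hT1 : 0 < 1 / T := by positivity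
  have hkz : 0 < kap z := kap_pos z
  have hkap1 : kap z ≤ 1 := by
    unfold kap
    refine Finset.prod_le_one (fun p hp => ?_) fun p hp => ?_
    · unfold PP at hp
      rw [mem_filter] at hp
      have h2 : (2 : ℝ) ≤ p := by exact_mod_cast hp.2.1.two_le
      have : 1 / (p : ℝ) ≤ 1 / 2 := one_div_le_one_div_of_le (by norm_num) h2
      linarith
    · have : 0 ≤ 1 / (p : ℝ) := by positivity
      linarith
  -- the tuple
  obtain ⟨h', hh'⟩ : ∃ h' : Option (Fin k) → ℕ, h' = fun o => o.elim t h := ⟨_, rfl⟩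
  rw [← hh'] at y3 y4
  have hinj' : Function.Injective h' := by
    intro p q hpq
    rw [hh'] at hpq
    rcases p with _ | p <;> rcases q with _ | q
    · rfl
    · exact absurd hpq (hti q)
    · exact absurd hpq.symm (hti p)
    · exact congrArg some (hinj hpq)
  have hhz' : ∀ o, h' o ≤ z := by
    intro o
    rw [hh']
    rcases o with _ | i
    · show t ≤ z
      have : (t : ℝ) ≤ z := htl.trans hzlog
      exact_mod_cast this
    · show h i ≤ z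
      have : (h i : ℝ) ≤ z := (hh i).2.trans hzlog
      exact_mod_cast this
  have hP1 : ∀ p ∈ PP z R, 1 ≤ p := by
    intro p hp
    unfold PP at hp
    exact (mem_filter.mp hp).2.1.one_lt.le
  obtain ⟨g, hg⟩ : ∃ g : ℕ → ℝ, g = fun x => if x ∈ Pre Ω' z X then
      (FF h' (lam y) x) ^ 2 * (1 / T) else 0 := ⟨_, rfl⟩
  have hg0 : ∀ x, 0 ≤ g x := by
    intro x
    rw [hg]
    simp only
    split_ifs
    · positivity
    · exact le_rfl
  have hgp : ∀ x ∈ Pre Ω' z X, g x = (FF h' (lam y) x) ^ 2 * (1 / T) := by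
    intro x hx
    rw [hg]
    simp only
    rw [if_pos hx]
  have hgs : ∀ x, x ∉ Pre Ω' z X → g x = 0 := by
    intro x hx
    rw [hg]
    simp only
    rw [if_neg hx]
  have hsub : Pre Ω' z X ⊆ Ioc X (2 * X) := filter_subset _ _
  -- the mass of mu
  obtain ⟨S, hS⟩ : ∃ S : ℝ, S = ∑ x ∈ Ioc X (2 * X), SG.mu Ω' z X x := ⟨_, rfl⟩
  have hSm := h4 X z hX4 hz2 hzB Ω' hN'
  rw [← hS, abs_le] at hSm
  have hSl : X * (1 - 1 / L) ≤ S := by
    have a1 : (X : ℝ) * (1 - 1 / L) = X - X / L := by ring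
    rw [a1]
    linarith [hSm.1]
  have hS0 : 0 < S := by
    have a1 : 1 / L ≤ 1 / 10 := one_div_le_one_div_of_le (by norm_num) hL10
    have a2 : 0 < (X : ℝ) * (1 - 1 / L) := mul_pos hX0 (by linarith)
    linarith
  have hmu0 : ∀ x, 0 ≤ SG.mu Ω' z X x := by
    intro x
    unfold SG.mu
    split_ifs
    · exact inv_nonneg.2 hV'0.le
    · exact le_rfl
  have hmuES : ∀ α : ℝ, ES (SG.mu Ω' z X) X α =
      (((V1 Ω' z)⁻¹ : ℝ) : ℂ) * ∑ x ∈ Pre Ω' z X, GT.e (α * x) := by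
    intro α
    rw [uts9_pre Ω' z X (SG.mu Ω' z X) α (fun _ => (V1 Ω' z)⁻¹)
      (fun x hx => by unfold SG.mu; rw [if_pos hx]) (fun x hx => by unfold SG.mu; rw [if_neg hx]), mul_sum]
  have hsume : ∀ α : ℝ, ∑ x ∈ Pre Ω' z X, GT.e (α * x) =
      ((V1 Ω' z : ℝ) : ℂ) * ES (SG.mu Ω' z X) X α := by
    intro α
    rw [hmuES, ← mul_assoc, ← Complex.ofReal_mul, mul_inv_cancel₀ hV'0.ne', Complex.ofReal_one, one_mul]
  have hη : 2 * (X / L ^ (a + 2)) ≤ X / L ^ a := by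
    have a1 : L ^ (a + 2) = L ^ a * L ^ 2 := pow_add _ _ _
    have a2 : 2 ≤ L ^ 2 := by nlinarith
    rw [a1, ← mul_div_assoc, div_le_div_iff₀ (by positivity) (by positivity)]
    have a3 : 0 < L ^ a := by positivity
    calc 2 * X * L ^ a = X * (L ^ a * 2) := by ring
      _ ≤ X * (L ^ a * L ^ 2) := by gcongr
  have hclg : ∀ α : ℝ, ‖ES g X α - (((1 / T) * Qf (q1 (ι := Option (Fin k))) (lam y) * V1 Ω' z : ℝ) : ℂ) *
      ES (SG.mu Ω' z X) X α‖ ≤ X / L ^ (a + 2) := by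
    intro α
    have a1 := h2 X z R (R * R) hX2 hz2 hzB hRle hQR h' hinj' hhz' Ω' hN' (lam y) (by
      intro σ
      have := abs_lam_le y y1 σ
      rwa [Fintype.card_option, Fintype.card_fin] at this) (by
      intro σ hσ
      obtain ⟨τ, hτ1, hτ2⟩ := lam_ext y σ hσ
      exact (tot_le_of_ext hP1 σ τ hτ2).trans (y2 τ hτ1)) α
    rw [hsume] at a1
    have a2 : ES g X α = ((1 / T : ℝ) : ℂ) *
        ∑ x ∈ Pre Ω' z X, (((FF h' (lam y) x) ^ 2 : ℝ) : ℂ) * GT.e (α * x) := by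
      rw [uts9_pre Ω' z X g α (fun x => (FF h' (lam y) x) ^ 2 * (1 / T)) hgp hgs, mul_sum]
      refine sum_congr rfl fun x _ => ?_
      push_cast
      ring
    have a3 : ES g X α - (((1 / T) * Qf (q1 (ι := Option (Fin k))) (lam y) * V1 Ω' z : ℝ) : ℂ) *
        ES (SG.mu Ω' z X) X α = ((1 / T : ℝ) : ℂ) *
        (∑ x ∈ Pre Ω' z X, (((FF h' (lam y) x) ^ 2 : ℝ) : ℂ) * GT.e (α * x) -
        ((Qf (q1 (ι := Option (Fin k))) (lam y) : ℝ) : ℂ) *
          (((V1 Ω' z : ℝ) : ℂ) * ES (SG.mu Ω' z X) X α)) := by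
      rw [a2]
      push_cast
      ring
    rw [a3, norm_mul, Complex.norm_real, Real.norm_of_nonneg hT1.le]
    calc 1 / T * _ ≤ L * (X * L ^ D' / z) :=
          mul_le_mul hTL a1 (norm_nonneg _) hlog0.le
      _ = X * (L ^ (D' + 1) / z) := by
          rw [pow_succ]
          ring
      _ ≤ X * (1 / L ^ (a + 2)) := by
          apply mul_le_mul_of_nonneg_left _ hX0.le
          rw [div_le_div_iff₀ hz0 (by positivity), one_mul, ← pow_add]
          exact le_trans (pow_le_pow_right₀ hlog1 (by omega)) hzlow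
      _ = X / L ^ (a + 2) := by ring
  obtain ⟨G, hG⟩ : ∃ G : ℝ, G = (∑ x ∈ Ioc X (2 * X), g x) / S := ⟨_, rfl⟩
  have hGle : G ≤ 10000 / (kap z * L) * (V1 Ω' z / V1 Ω z) := by
    rw [hG]
    refine uts9_num X L (V1 Ω z) (V1 Ω' z) T (b ^ k) (kap z) (Real.log R) ((X : ℝ) ^ (1 - c)) S _
      hX0 hL10 hV0 hVle hV'l hkz hkap1 hbk hTd hRL ?_ (by positivity) hTL hSl ?_
    · calc L ^ 3 * (X : ℝ) ^ (1 - c) ≤ (X : ℝ) ^ c * (X : ℝ) ^ (1 - c) := by gcongr
        _ = X := by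
            rw [← Real.rpow_add hX0]
            norm_num
    · have a1 : ∑ x ∈ Ioc X (2 * X), g x = (1 / T) * ∑ x ∈ Pre Ω' z X, (FF h' (lam y) x) ^ 2 := by
        rw [← sum_subset hsub (fun x _ hx => hgs x hx), mul_sum]
        exact sum_congr rfl fun x hx => by rw [hgp x hx]; ring
      rw [a1]
      exact mul_le_mul_of_nonneg_left y4 hT1.le
  refine ⟨g, hg0, fun x hx hpr => ?_, fun ψ hψ Q hQ hT => ?_⟩
  · unfold wt
    split_ifs with hxP
    · have hxP' := uts9_mem K t z X Ω x hzX hxP hpr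
      rw [hgp x hxP', y3 x hx hpr, hTd]
      exact le_of_eq (by rw [div_eq_mul_one_div])
    · exact hg0 x
  · have a1 := uts9_test X g (SG.mu Ω' z X) ψ G Q (X / L ^ a) hT (fun α => by
      have := uts9_ratio g (SG.mu Ω' z X) X _ _ hmu0 (by rw [← hS]; exact hS0) hclg α
      rw [← hS, ← hG] at this
      exact this.trans hη)
    have a2 : ∑ x ∈ Ioc X (2 * X), g x * ψ x ≤
        G * ∑ x ∈ Ioc X (2 * X), SG.mu Ω' z X x * ψ x + Q * (X / L ^ a) := by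
      have := (abs_le.1 a1).2
      linarith
    refine a2.trans (add_le_add ?_ le_rfl)
    have a3 : 0 ≤ ∑ x ∈ Ioc X (2 * X), SG.mu Ω' z X x * ψ x :=
      sum_nonneg fun x _ => mul_nonneg (hmu0 x) (hψ x)
    refine (mul_le_mul_of_nonneg_right hGle a3).trans ?_
    rw [mul_assoc]
    refine mul_le_mul_of_nonneg_left ?_ (by positivity)
    rw [mul_sum]
    refine sum_le_sum fun x _ => ?_
    have hmu00 : 0 ≤ SG.mu Ω z X x := by
      unfold SG.mu
      split_ifs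
      · exact inv_nonneg.2 hV0.le
      · exact le_rfl
    by_cases hxP : x ∈ Pre Ω' z X
    · obtain ⟨hxa, hxb⟩ := uts9_sub K t z X Ω x hxP
      rw [if_pos hxb]
      refine le_of_eq ?_
      unfold SG.mu
      rw [if_pos hxP, if_pos hxa, ← mul_assoc]
      congr 1
      field_simp
    · have e5 : SG.mu Ω' z X x = 0 := by
        unfold SG.mu
        rw [if_neg hxP]
      rw [e5, zero_mul, mul_zero]
      split_ifs
      · exact mul_nonneg hmu00 (hψ x)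
      · exact le_rfl

end Pool.Agent.Lib.SH
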