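import Pool.Agent.Lib.SH.Wts9
import Pool.Agent.Lib.SH.Uts9
import Pool.Agent.Lib.SH.BT9
import Pool.Agent.Lib.SG.Clus
import Pool.Agent.Lib.SH.Stp8

/-!
# SH-Stp9 (60 minutes): the cluster inequality, H up to a constant times log X

PROOF. As `stp8` in SH/Stp8.lean. `B₀` = maximum of those of `wts9` (`K`, `a`), `uts9` (`K`, `a`), `2`; `C` from `bt9 (2K + 2) B`; `κ = min 1 (1/(20000 k C))`... (so that
`k * 10000 * C * κ ≤ 1/2`). Given `X`, `H ≤ κ log X`, `h`, `Ω`: `w = wt ..`, `v i x = w x * (BV.th (x + h i)/log (3X))`, `M`, `M'` from wts9, `u t` from uts9 for `t ∈ Th = (Icc 1 H).filter (∀ i, t ≠ h i)`.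
Pointwise for `x ∈ (X, 2X]`, `g` = number of prime `x + h i`, `b` = number of prime `x + t`, `t ∈ Th`, `a'` = number of `i` with `x + h i ∈ A` prime:
`g - (m - 1) - k b ≤ k a' + k 1[x ∈ Mis m H X A]`: if `g + b < m` the left side is `≤ 0`; otherwise `(x, x + H]` contains at least `m` primes (the `x + h i` and `x + t`, all different);
if `x ∉ Mis`, some prime `x + s ∈ A`, `1 ≤ s ≤ H`: either `s = h i`, so `a' ≥ 1` and `g ≤ k`, or `s ∈ Th`, so `b ≥ 1`; if `x ∈ Mis`, `g ≤ k` (and `m ≥ 1`). (SG/Clus.lean proves it under `Hit`; here `A` replaced by ... reprove.)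
Multiply by `w x ψ x ≥ 0`, sum: with `S = ∑ mu ψ`, `δ = Q X/(log X)^a`: `(∑ M') S - k δ - (m-1)(M S + δ) - k ∑_t ∑_x u t x ψ x ≤ k ∑_i ∑ fa ψ + k ∑_{Mis} w ψ`.
`∑_{t ∈ Th} ∑_x u t x ψ x ≤ (10000/(kap z log X)) ∑_x mu x ψ x * Nt (2K+2) z H x + H δ ≤ 10000 C κ S + H δ` by `bt9` with `Y = κ log X` (`≥ (log X)^(1/2)` for `X` large).
`∑ M' - (m-1) M - 1/2 ≥ m + 1 - 1/8 - (m - 1) - 1/8 - 1/2 ≥ 1` (as `(m - 1)/(8(m+1)) ≤ 1/8`).
`BV.th n ≤ log n` on primes, `0` otherwise (`BV.th_le`), so `∑_i v i x ≤ g w x` (`x + h i ≤ 3X`).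
-/

set_option autoImplicit false

open Finset

namespace Pool.Agent.Lib.SH

open Pool.Agent.Lib.MT Pool.Agent.Lib.SG

open Classical in
private theorem Stp9_clus {m k H X : ℕ} (hm : 1 ≤ m) (h : Fin k → ℕ) (hinj : Function.Injective h)
    (hh : ∀ i, 1 ≤ h i ∧ h i ≤ H) (A : Set ℕ) (x : ℕ) (hx : x ∈ Ioc X (2 * X)) :
    ((univ.filter (fun i : Fin k => (x + h i).Prime)).card : ℝ) - (m - 1) -
        k * (((Icc 1 H).filter (fun t => (∀ i, t ≠ h i) ∧ (x + t).Prime)).card : ℝ) ≤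
      k * ((univ.filter (fun i : Fin k => x + h i ∈ A ∧ (x + h i).Prime)).card : ℝ) +
        k * (if x ∈ Mis m H X A then 1 else 0) := by
  obtain ⟨a, ha⟩ : ∃ a, a = (univ.filter (fun i : Fin k => (x + h i).Prime)).card := ⟨_, rfl⟩
  obtain ⟨b, hb⟩ : ∃ b, b = ((Icc 1 H).filter (fun t => (∀ i, t ≠ h i) ∧ (x + t).Prime)).card := ⟨_, rfl⟩
  obtain ⟨c, hc⟩ : ∃ c, c = (univ.filter (fun i : Fin k => x + h i ∈ A ∧ (x + h i).Prime)).card := ⟨_, rfl⟩
  rw [← ha, ← hb, ← hc]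
  have hak : a ≤ k := by
    rw [ha]
    refine (Finset.card_filter_le _ _).trans (le_of_eq ?_)
    simp
  have hak' : (a : ℝ) ≤ k := by exact_mod_cast hak
  have hm' : (1 : ℝ) ≤ m := by exact_mod_cast hm
  have h3 : (0 : ℝ) ≤ k * b := by positivity
  have h4 : (0 : ℝ) ≤ k * c := by positivity
  by_cases hM : x ∈ Mis m H X A
  · rw [if_pos hM]
    linarith
  rw [if_neg hM]
  by_cases hma : m ≤ a
  · have h1 : m ≤ ((Ioc x (x + H)).filter Nat.Prime).card := by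
      refine hma.trans ?_
      rw [ha]
      refine Finset.card_le_card_of_injOn (fun i => x + h i) ?_ ?_
      · intro i hi
        rw [Finset.mem_coe, Finset.mem_filter] at hi
        rw [Finset.mem_coe, Finset.mem_filter, Finset.mem_Ioc]
        have := hh i
        show (x < x + h i ∧ x + h i ≤ x + H) ∧ (x + h i).Prime
        exact ⟨⟨by omega, by omega⟩, hi.2⟩
      · intro i _ j _ hij
        apply hinj
        simp only at hij
        omega
    have hex : ∃ p ∈ A, p.Prime ∧ x < p ∧ p ≤ x + H := by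
      by_contra hcon
      apply hM
      unfold Mis
      rw [mem_filter]
      exact ⟨hx, h1, hcon⟩
    obtain ⟨p, hpA, hp, hxp, hpH⟩ := hex
    have h2 : 1 ≤ b + c := by
      by_cases h3 : ∃ i, p = x + h i
      · obtain ⟨i, hi⟩ := h3
        have : 1 ≤ c := by
          rw [hc, Nat.one_le_iff_ne_zero, Finset.card_ne_zero]
          refine ⟨i, ?_⟩
          rw [Finset.mem_filter]
          exact ⟨Finset.mem_univ _, by rw [← hi]; exact hpA, by rw [← hi]; exact hp⟩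
        omega
      · have : 1 ≤ b := by
          rw [hb, Nat.one_le_iff_ne_zero, Finset.card_ne_zero]
          refine ⟨p - x, ?_⟩
          rw [Finset.mem_filter, Finset.mem_Icc]
          refine ⟨⟨by omega, by omega⟩, ?_, ?_⟩
          · intro i hi
            exact h3 ⟨i, by omega⟩
          · rw [show x + (p - x) = p by omega]
            exact hp
        omega
    have h2' : (1 : ℝ) ≤ b + c := by exact_mod_cast h2
    have hk0 : (0 : ℝ) ≤ k := by positivity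
    have h5 : (k : ℝ) * 1 ≤ k * (b + c) := mul_le_mul_of_nonneg_left h2' hk0
    nlinarith
  · have h1 : (a : ℝ) ≤ m - 1 := by
      have : a + 1 ≤ m := by omega
      have : ((a + 1 : ℕ) : ℝ) ≤ m := by exact_mod_cast this
      push_cast at this
      linarith
    linarith

/-- the cluster inequality from the closeness of the weights and the bound for the other primes -/
private theorem Stp9_main {m k H z X : ℕ} (hm : 1 ≤ m) (hk : 1 ≤ k) (Ω : ℕ → Finset ℕ)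
    (h : Fin k → ℕ) (hinj : Function.Injective h) (hh : ∀ i, 1 ≤ h i ∧ h i ≤ H) (w : ℕ → ℝ)
    (hw0 : ∀ x, 0 ≤ w x) (hX : 1 ≤ X) (hHX : H ≤ X)
    (M : ℝ) (M' : Fin k → ℝ) (hM1 : M ≤ 1 + 1 / (8 * (m + 1)))
    (hM2 : (m : ℝ) + 1 - 1 / (8 * (m + 1)) ≤ ∑ i, M' i)
    (A : Set ℕ) (hρ : ∀ x, 0 ≤ SG.mu Ω z X x) (ψ : ℕ → ℝ) (hψ : ∀ x, 0 ≤ ψ x) (Q : ℝ) (hQ0 : 0 ≤ Q)
    (δ₀ : ℝ) (hδ₀ : 0 ≤ δ₀) (hQ : Tst X Q ψ)
    (hclw : ∀ α : ℝ, ‖ES w X α - M * ES (SG.mu Ω z X) X α‖ ≤ δ₀)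
    (hclv : ∀ i, ∀ α : ℝ, ‖ES (fun x => w x * (BV.th (x + h i) / Real.log (3 * X))) X α -
        M' i * ES (SG.mu Ω z X) X α‖ ≤ δ₀)
    (hb : (k : ℝ) * ∑ t ∈ (Icc 1 H).filter (fun t => ∀ i, t ≠ h i),
      ∑ x ∈ Ioc X (2 * X), (if (x + t).Prime then w x * ψ x else 0) ≤
        1 / 2 * ∑ x ∈ Ioc X (2 * X), SG.mu Ω z X x * ψ x + k * (H * (Q * δ₀))) :
    ∑ x ∈ Ioc X (2 * X), SG.mu Ω z X x * ψ x ≤
      k * ∑ i, ∑ x ∈ Ioc X (2 * X), fa A h w i x * ψ x + k * ∑ x ∈ Mis m H X A, w x * ψ x +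
        (k + m + k * H) * (Q * δ₀) := by
  classical
  have hk0 : (0 : ℝ) < k := by exact_mod_cast hk
  have hm1 : (1 : ℝ) ≤ m := by exact_mod_cast hm
  obtain ⟨Th, hTh⟩ : ∃ Th : Finset ℕ, Th = (Icc 1 H).filter (fun t => ∀ i, t ≠ h i) := ⟨_, rfl⟩
  obtain ⟨S, hS⟩ : ∃ S : ℝ, S = ∑ x ∈ Ioc X (2 * X), SG.mu Ω z X x * ψ x := ⟨_, rfl⟩
  have hS0 : 0 ≤ S := by
    rw [hS]
    exact sum_nonneg fun x _ => mul_nonneg (hρ x) (hψ x)
  obtain ⟨δ, hδ⟩ : ∃ δ : ℝ, δ = Q * δ₀ := ⟨_, rfl⟩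
  have hδ0 : 0 ≤ δ := by
    rw [hδ]
    positivity
  rw [← hTh, ← hS, ← hδ] at hb
  obtain ⟨v, hv⟩ : ∃ v : Fin k → ℕ → ℝ, v = fun i x => w x * (BV.th (x + h i) / Real.log (3 * X)) :=
    ⟨_, rfl⟩
  have hXr : (1 : ℝ) ≤ X := by exact_mod_cast hX
  have hl3 : 0 < Real.log (3 * X) := Real.log_pos (by linarith)
  -- the clusters, pointwise
  have h6 : ∀ x ∈ Ioc X (2 * X),
      ((∑ i, v i x) * ψ x - (m - 1) * (w x * ψ x)) -
        k * ∑ t ∈ Th, (if (x + t).Prime then w x * ψ x else 0) ≤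
      k * ∑ i, fa A h w i x * ψ x + k * (if x ∈ Mis m H X A then w x * ψ x else 0) := by
    intro x hx
    have hc := Stp9_clus hm h hinj hh A x hx
    have hx' := mem_Ioc.1 hx
    obtain ⟨g, hg⟩ : ∃ g : ℝ, g = ((univ.filter (fun i : Fin k => (x + h i).Prime)).card : ℝ) := ⟨_, rfl⟩
    obtain ⟨b, hb⟩ : ∃ b : ℝ,
      b = (((Icc 1 H).filter (fun t => (∀ i, t ≠ h i) ∧ (x + t).Prime)).card : ℝ) := ⟨_, rfl⟩
    obtain ⟨a', ha'⟩ : ∃ a' : ℝ,
      a' = ((univ.filter (fun i : Fin k => x + h i ∈ A ∧ (x + h i).Prime)).card : ℝ) := ⟨_, rfl⟩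
    obtain ⟨e, he⟩ : ∃ e : ℝ, e = (if x ∈ Mis m H X A then (1 : ℝ) else 0) := ⟨_, rfl⟩
    have hc' : g - (m - 1) - k * b ≤ k * a' + k * e := by
      rw [hg, hb, ha', he]
      convert hc using 2
    have e1 : ∑ i, fa A h w i x * ψ x = a' * (w x * ψ x) := by
      rw [← Finset.sum_mul]
      have : ∑ i, fa A h w i x = a' * w x := by
        unfold fa
        rw [← Finset.sum_filter, Finset.sum_const, nsmul_eq_mul, ha']
      rw [this]
      ring
    have e2 : ∑ i, v i x ≤ g * w x := by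
      have : ∀ i, v i x ≤ if (x + h i).Prime then w x else 0 := by
        intro i
        rw [hv]
        show w x * (BV.th (x + h i) / Real.log (3 * X)) ≤ _
        unfold BV.th
        split_ifs with hp
        · have f1 : Real.log ((x + h i : ℕ) : ℝ) ≤ Real.log (3 * X) := by
            apply Real.log_le_log
            · exact_mod_cast hp.pos
            · have := (hh i).2
              have h5 : x + h i ≤ 3 * X := by omega
              exact_mod_cast h5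
          have f2 : Real.log ((x + h i : ℕ) : ℝ) / Real.log (3 * X) ≤ 1 := by
            rw [div_le_one hl3]
            exact f1
          calc w x * (Real.log ((x + h i : ℕ) : ℝ) / Real.log (3 * X)) ≤ w x * 1 :=
                mul_le_mul_of_nonneg_left f2 (hw0 x)
            _ = w x := mul_one _
        · rw [zero_div, mul_zero]
      calc ∑ i, v i x ≤ ∑ i, (if (x + h i).Prime then w x else 0) :=
            Finset.sum_le_sum fun i _ => this i
        _ = g * w x := by rw [← Finset.sum_filter, Finset.sum_const, nsmul_eq_mul, hg]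
    rw [e1]
    have hwφ : 0 ≤ w x * ψ x := mul_nonneg (hw0 x) (hψ x)
    have e3 : (g - (m - 1) - k * b) * (w x * ψ x) ≤ (k * a' + k * e) * (w x * ψ x) :=
      mul_le_mul_of_nonneg_right hc' hwφ
    have e4 : (∑ i, v i x) * ψ x ≤ g * (w x * ψ x) := by
      calc (∑ i, v i x) * ψ x ≤ (g * w x) * ψ x := mul_le_mul_of_nonneg_right e2 (hψ x)
        _ = g * (w x * ψ x) := by ring
    have e5 : b * (w x * ψ x) = ∑ t ∈ Th, (if (x + t).Prime then w x * ψ x else 0) := by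
      have f1 : (Icc 1 H).filter (fun t => (∀ i, t ≠ h i) ∧ (x + t).Prime) =
          Th.filter (fun t => (x + t).Prime) := by
        rw [hTh, filter_filter]
      rw [hb, f1, ← nsmul_eq_mul, ← Finset.sum_const, sum_filter]
    have e7 : (if x ∈ Mis m H X A then w x * ψ x else 0) = e * (w x * ψ x) := by
      rw [he]
      split_ifs
      · rw [one_mul]
      · rw [zero_mul]
    rw [← e5, e7]
    linarith
  have h7 := Finset.sum_le_sum h6
  rw [Finset.sum_sub_distrib, ← Finset.mul_sum, Finset.sum_add_distrib, ← Finset.mul_sum,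
    ← Finset.mul_sum, Finset.sum_sub_distrib, ← Finset.mul_sum] at h7
  have h8 : ∑ x ∈ Ioc X (2 * X), ∑ i, fa A h w i x * ψ x =
      ∑ i, ∑ x ∈ Ioc X (2 * X), fa A h w i x * ψ x := Finset.sum_comm
  have h9 : ∑ x ∈ Ioc X (2 * X), (if x ∈ Mis m H X A then w x * ψ x else 0) =
      ∑ x ∈ Mis m H X A, w x * ψ x := by
    rw [← Finset.sum_filter]
    apply Finset.sum_congr _ fun _ _ => rfl
    ext x
    rw [mem_filter]
    constructor
    · exact fun hx => hx.2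
    · intro hx
      refine ⟨?_, hx⟩
      unfold Mis at hx
      exact (mem_filter.1 hx).1
  have h10 : ∑ x ∈ Ioc X (2 * X), ∑ t ∈ Th, (if (x + t).Prime then w x * ψ x else 0) =
      ∑ t ∈ Th, ∑ x ∈ Ioc X (2 * X), (if (x + t).Prime then w x * ψ x else 0) := Finset.sum_comm
  rw [h8, h9, h10] at h7
  -- the tests
  have hw := stp8_test X w (SG.mu Ω z X) ψ M Q _ hQ hclw
  have hv' := fun i => stp8_test X (v i) (SG.mu Ω z X) ψ (M' i) Q δ₀ hQ (by
    rw [hv]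
    exact hclv i)
  rw [← hδ, ← hS] at hw
  simp only [← hδ, ← hS] at hv'
  have g1 : ∑ x ∈ Ioc X (2 * X), (∑ i, v i x) * ψ x = ∑ i, ∑ x ∈ Ioc X (2 * X), v i x * ψ x := by
    rw [sum_comm]
    exact sum_congr rfl fun x _ => by rw [sum_mul]
  have g2 : (∑ i, M' i) * S - k * δ ≤ ∑ x ∈ Ioc X (2 * X), (∑ i, v i x) * ψ x := by
    rw [g1]
    have : ∑ i : Fin k, (M' i * S - δ) ≤ ∑ i, ∑ x ∈ Ioc X (2 * X), v i x * ψ x := by
      refine sum_le_sum fun i _ => ?_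
      have := (abs_le.1 (hv' i)).1
      linarith
    rw [sum_sub_distrib, ← sum_mul, sum_const, card_univ, Fintype.card_fin, nsmul_eq_mul] at this
    exact this
  have g3 : ∑ x ∈ Ioc X (2 * X), w x * ψ x ≤ M * S + δ := by
    have := (abs_le.1 hw).2
    linarith
  rw [← hS, ← hδ]
  obtain ⟨r, hr⟩ : ∃ r : ℝ, r = 1 / (8 * ((m : ℝ) + 1)) := ⟨_, rfl⟩
  have hr0 : 0 < r := by
    rw [hr]
    positivity
  have hr1 : (m + 1) * r = 1 / 8 := by
    rw [hr]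
    field_simp
  rw [← hr] at hM1 hM2
  have g5 : S ≤ ((∑ i, M' i) - (m - 1) * M - 1 / 2) * S := by
    have f1 : (1 : ℝ) ≤ (∑ i, M' i) - (m - 1) * M - 1 / 2 := by
      have f2 : ((m : ℝ) - 1) * M ≤ (m - 1) * (1 + r) := mul_le_mul_of_nonneg_left hM1 (by linarith)
      nlinarith
    calc S = 1 * S := (one_mul S).symm
      _ ≤ _ := mul_le_mul_of_nonneg_right f1 hS0
  have g6 : ((m : ℝ) - 1) * ∑ x ∈ Ioc X (2 * X), w x * ψ x ≤ (m - 1) * (M * S + δ) :=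
    mul_le_mul_of_nonneg_left g3 (by linarith)
  have g8 : ((∑ i, M' i) - (m - 1) * M - 1 / 2) * S =
      ((∑ i, M' i) * S - k * δ) - (m - 1) * (M * S + δ) - (1 / 2 * S + k * (H * δ)) +
        (k + (m - 1) + k * H) * δ := by ring
  have g9 : ((k : ℝ) + (m - 1) + k * H) * δ ≤ (k + m + k * H) * δ := by
    apply mul_le_mul_of_nonneg_right _ hδ0
    linarith
  linarith

theorem wk9 (m J k : ℕ) (C₁ : ℝ) (hm : 1 ≤ m) (hR : RatP m J k C₁) : ∃ c : ℕ, ∀ K a : ℕ, ¬ (2 * K + 1).Prime →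
    ∃ B₀ : ℕ, 2 ≤ B₀ ∧ ∀ B : ℕ, B₀ ≤ B → ∃ κ : ℝ, 0 < κ ∧ κ ≤ 1 ∧ ∃ X₀ : ℕ, ∀ X : ℕ, X₀ ≤ X →
    ∀ H : ℕ, (H : ℝ) ≤ κ * Real.log X → ∀ h : Fin k → ℕ, Function.Injective h → (∀ i, 1 ≤ h i ∧ h i ≤ H) →
    ∀ Ω : ℕ → Finset ℕ, Nice K Ω → Cov Ω h →
    Wk m k H (zX B X) X c a Ω h (wt C₁ J k B X Ω h) := by
  classical
  obtain ⟨c, hc⟩ := wts9 m J k C₁ hm hR
  refine ⟨c, fun K a hK => ?_⟩
  obtain ⟨B₁, hB₁, hW⟩ := hc K a
  obtain ⟨B₂, hB₂, hU⟩ := uts9 m J k C₁ hR K a hK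
  refine ⟨max B₁ B₂, hB₁.trans (le_max_left _ _), fun B hB => ?_⟩
  have hB1 : B₁ ≤ B := (le_max_left _ _).trans hB
  have hB2 : B₂ ≤ B := (le_max_right _ _).trans hB
  obtain ⟨X₁, hX₁⟩ := hW B hB1
  obtain ⟨X₂, hX₂⟩ := hU B hB2
  obtain ⟨C, hC, X₃, hX₃⟩ := bt9 (2 * K + 2) B (by omega)
  obtain ⟨c₄, hc₄, X₄, hX₄⟩ := hR.main K B (by omega)
  obtain ⟨C₅, hC₅, hV⟩ := num_V1 K
  have hk0 : (0 : ℝ) < k := by exact_mod_cast hR.k1
  obtain ⟨κ, hκ⟩ : ∃ κ : ℝ, κ = min 1 (1 / (20000 * k * C)) := ⟨_, rfl⟩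
  have hκ0 : 0 < κ := by
    rw [hκ]
    exact lt_min one_pos (by positivity)
  have hκ1 : κ ≤ 1 := by
    rw [hκ]
    exact min_le_left _ _
  have hκ2 : κ ≤ 1 / (20000 * k * C) := by
    rw [hκ]
    exact min_le_right _ _
  have hκ3 : k * (10000 * C * κ) ≤ 1 / 2 := by
    rw [le_div_iff₀ (by positivity)] at hκ2
    linarith
  have htend : Filter.Tendsto (fun X : ℕ => Real.log (X : ℝ)) Filter.atTop Filter.atTop :=
    Real.tendsto_log_atTop.comp tendsto_natCast_atTop_atTop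
  obtain ⟨X₆, hX₆⟩ := Filter.eventually_atTop.1 (htend.eventually_ge_atTop (max (1 / κ ^ 2) 4))
  refine ⟨κ, hκ0, hκ1, max (max X₁ X₂) (max (max X₃ X₄) (max X₆ 1)), ?_⟩
  intro X hX H hH h hinj hh Ω hΩ hCov
  have hXa : X₁ ≤ X := ((le_max_left _ _).trans (le_max_left _ _)).trans hX
  have hXb : X₂ ≤ X := ((le_max_right _ _).trans (le_max_left _ _)).trans hX
  have hXc : X₃ ≤ X := (((le_max_left _ _).trans (le_max_left _ _)).trans (le_max_right _ _)).trans hX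
  have hXd : X₄ ≤ X := (((le_max_right _ _).trans (le_max_left _ _)).trans (le_max_right _ _)).trans hX
  have hXe : X₆ ≤ X := (((le_max_left _ _).trans (le_max_right _ _)).trans (le_max_right _ _)).trans hX
  have hXf : 1 ≤ X := (((le_max_right _ _).trans (le_max_right _ _)).trans (le_max_right _ _)).trans hX
  have hXr : (1 : ℝ) ≤ X := by exact_mod_cast hXf
  have hl := hX₆ X hXe
  have hl1 : 1 / κ ^ 2 ≤ Real.log X := (le_max_left _ _).trans hl
  have hl4 : (4 : ℝ) ≤ Real.log X := (le_max_right _ _).trans hl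
  have hl0 : 0 < Real.log X := by linarith
  have hHl : (H : ℝ) ≤ Real.log X := hH.trans (by nlinarith)
  have hlX : Real.log X ≤ X := (Real.log_le_sub_one_of_pos (by linarith)).trans (by linarith)
  have hHX : H ≤ X := by exact_mod_cast hHl.trans hlX
  have hhl : ∀ i, 1 ≤ h i ∧ (h i : ℝ) ≤ Real.log X := fun i =>
    ⟨(hh i).1, le_trans (by exact_mod_cast (hh i).2) hHl⟩
  obtain ⟨hw2, hw1, M, M', hM0, hM1, hM'0, hM2, hclw, hclv⟩ := hX₁ X hXa h hinj hhl Ω hΩ hCov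
  obtain ⟨w, hw⟩ : ∃ w : ℕ → ℝ, w = wt C₁ J k B X Ω h := ⟨_, rfl⟩
  rw [← hw] at hw2 hw1 hclw
  rw [← hw]
  have hz2 : 2 ≤ zX B X := by
    unfold zX
    apply Nat.le_floor
    push_cast
    calc (2 : ℝ) ≤ Real.log X := by linarith
      _ = (Real.log X) ^ 1 := (pow_one _).symm
      _ ≤ (Real.log X) ^ B := pow_le_pow_right₀ (by linarith) (by omega)
  obtain ⟨z, hz⟩ : ∃ z : ℕ, z = zX B X := ⟨_, rfl⟩
  have hVpos : 0 < V1 Ω (zX B X) := (hV Ω hΩ _ hz2).1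
  have hbpos : 1 ≤ bX C₁ J k B X := (hX₄ X hXd).1
  have hw0 : ∀ x, 0 ≤ w x := by
    intro x
    rw [hw]
    unfold wt
    split_ifs
    · exact div_nonneg (sq_nonneg _) (mul_nonneg hVpos.le (pow_nonneg (by linarith) _))
    · exact le_refl _
  have hρ : ∀ x, 0 ≤ SG.mu Ω (zX B X) X x := by
    intro x
    unfold SG.mu
    split_ifs
    · exact inv_nonneg.2 hVpos.le
    · exact le_refl _
  refine ⟨hw0, ?_, hw2, hw1, ?_⟩
  · intro x hx
    rw [hw]
    unfold wt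
    rw [if_neg hx]
  intro A ψ hψ Q hQ0 hQ
  have hδ₀ : (0 : ℝ) ≤ X / (Real.log X) ^ a := by positivity
  refine Stp9_main hm hR.k1 Ω h hinj hh w hw0 hXf hHX M M' hM1 hM2 A hρ ψ hψ Q hQ0 _ hδ₀ hQ hclw
    (fun i => by
      have := hclv i
      rw [← hw] at this
      exact this) ?_
  -- the other primes
  obtain ⟨Th, hTh⟩ : ∃ Th : Finset ℕ, Th = (Icc 1 H).filter (fun t => ∀ i, t ≠ h i) := ⟨_, rfl⟩
  have hThm : ∀ t ∈ Th, 1 ≤ t ∧ t ≤ H ∧ ∀ i, t ≠ h i := by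
    intro t ht
    rw [hTh, mem_filter, mem_Icc] at ht
    exact ⟨ht.1.1, ht.1.2, ht.2⟩
  have hThc : (Th.card : ℝ) ≤ H := by
    have := card_filter_le (Icc 1 H) (fun t => ∀ i, t ≠ h i)
    rw [Nat.card_Icc, Nat.add_sub_cancel] at this
    rw [hTh]
    exact_mod_cast this
  rw [← hTh]
  obtain ⟨S, hS⟩ : ∃ S : ℝ, S = ∑ x ∈ Ioc X (2 * X), SG.mu Ω (zX B X) X x * ψ x := ⟨_, rfl⟩
  have hS0 : 0 ≤ S := by
    rw [hS]
    exact sum_nonneg fun x _ => mul_nonneg (hρ x) (hψ x)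
  obtain ⟨δ, hδ⟩ : ∃ δ : ℝ, δ = Q * (X / (Real.log X) ^ a) := ⟨_, rfl⟩
  have hδ0 : 0 ≤ δ := by
    rw [hδ]
    exact mul_nonneg hQ0 hδ₀
  rw [← hS, ← hδ]
  have hkp : 0 < kap (zX B X) := kap_pos _
  obtain ⟨G, hG⟩ : ∃ G : ℝ, G = 10000 / (kap (zX B X) * Real.log X) := ⟨_, rfl⟩
  have hG0 : 0 ≤ G := by
    rw [hG]
    positivity
  have f1 : ∀ t ∈ Th, ∑ x ∈ Ioc X (2 * X), (if (x + t).Prime then w x * ψ x else 0) ≤
      G * ∑ x ∈ Ioc X (2 * X), (if ∀ p ∈ PP (2 * K + 2) (zX B X), ¬ p ∣ x + t then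
            SG.mu Ω (zX B X) X x * ψ x else 0) + δ := by
    intro t ht
    obtain ⟨t1, t2, t3⟩ := hThm t ht
    have t4 : (t : ℝ) ≤ Real.log X := le_trans (by exact_mod_cast t2) hHl
    obtain ⟨u, hu0, hu1, hu2⟩ := hX₂ X hXb h hinj hhl Ω hΩ t t1 t4 t3
    have h5 := hu2 ψ hψ Q hQ0 hQ
    rw [← hG, ← hδ] at h5
    refine le_trans (sum_le_sum fun x hx => ?_) (le_trans h5 (le_of_eq ?_))
    · split_ifs with hp
      · rw [hw]
        exact mul_le_mul_of_nonneg_right (hu1 x hx hp) (hψ x)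
      · exact mul_nonneg (hu0 x) (hψ x)
    · congr 2
  have hκl : (Real.log X) ^ (1 / 2 : ℝ) ≤ κ * Real.log X := by
    rw [← Real.sqrt_eq_rpow]
    have h1 : 1 / κ ≤ Real.sqrt (Real.log X) := by
      apply Real.le_sqrt_of_sq_le
      rw [div_pow, one_pow]
      exact hl1
    have h2 := Real.mul_self_sqrt hl0.le
    rw [div_le_iff₀ hκ0] at h1
    have h3 : 0 ≤ Real.sqrt (Real.log X) := Real.sqrt_nonneg _
    calc Real.sqrt (Real.log X) = 1 * Real.sqrt (Real.log X) := (one_mul _).symm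
      _ ≤ (Real.sqrt (Real.log X) * κ) * Real.sqrt (Real.log X) :=
          mul_le_mul_of_nonneg_right h1 h3
      _ = κ * (Real.sqrt (Real.log X) * Real.sqrt (Real.log X)) := by ring
      _ = κ * Real.log X := by rw [h2]
  have hκl2 : κ * Real.log X ≤ Real.log X := by nlinarith
  have f2 : ∑ t ∈ Th, ∑ x ∈ Ioc X (2 * X), (if ∀ p ∈ PP (2 * K + 2) (zX B X), ¬ p ∣ x + t then
            SG.mu Ω (zX B X) X x * ψ x else 0) ≤ (C * kap (zX B X) * (κ * Real.log X)) * S := by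
    rw [sum_comm, hS, mul_sum]
    refine sum_le_sum fun x hx => ?_
    rw [← sum_filter, sum_const, nsmul_eq_mul]
    apply mul_le_mul_of_nonneg_right _ (mul_nonneg (hρ x) (hψ x))
    refine le_trans ?_ (hX₃ X hXc x H (κ * Real.log X) hH hκl hκl2)
    have hsub : Th.filter (fun t => ∀ p ∈ PP (2 * K + 2) (zX B X), ¬ p ∣ x + t) ⊆
        (Icc 1 H).filter (fun t => ∀ p ∈ PP (2 * K + 2) (zX B X), ¬ p ∣ x + t) := by
      apply filter_subset_filter
      rw [hTh]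
      exact filter_subset _ _
    have h6 := card_le_card hsub
    have h7 : ((Icc 1 H).filter (fun t => ∀ p ∈ PP (2 * K + 2) (zX B X), ¬ p ∣ x + t)).card =
        Nt (2 * K + 2) (zX B X) H x := by
      unfold Nt
      congr 1
    rw [h7] at h6
    exact_mod_cast h6
  have f3 : ∑ t ∈ Th, ∑ x ∈ Ioc X (2 * X), (if (x + t).Prime then w x * ψ x else 0) ≤
      G * ((C * kap (zX B X) * (κ * Real.log X)) * S) + H * δ := by
    refine (sum_le_sum f1).trans ?_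
    rw [sum_add_distrib, ← mul_sum, sum_const, nsmul_eq_mul]
    exact add_le_add (mul_le_mul_of_nonneg_left f2 hG0) (mul_le_mul_of_nonneg_right hThc hδ0)
  have f4 : G * ((C * kap (zX B X) * (κ * Real.log X)) * S) = (10000 * C * κ) * S := by
    rw [hG]
    field_simp
  rw [f4] at f3
  have f5 := mul_le_mul_of_nonneg_left f3 hk0.le
  have f6 : (k * (10000 * C * κ)) * S ≤ 1 / 2 * S := mul_le_mul_of_nonneg_right hκ3 hS0
  calc (k : ℝ) * ∑ t ∈ Th, ∑ x ∈ Ioc X (2 * X), (if (x + t).Prime then w x * ψ x else 0)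
      ≤ k * ((10000 * C * κ) * S + H * δ) := f5
    _ = (k * (10000 * C * κ)) * S + k * (H * δ) := by ring
    _ ≤ 1 / 2 * S + k * (H * δ) := by linarith

end Pool.Agent.Lib.SH
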