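import Pool.Agent.Lib.SH.Def8

/-!
# SH-Wn8: test functions (helper10)
-/

set_option autoImplicit false

open Finset

namespace Pool.Agent.Lib.SH

open Pool.Agent.Lib.MT Pool.Agent.Lib.SG

private theorem wn8_ES0 (D : ℕ → ℝ) (X : ℕ) : ES D X 0 = ((∑ x ∈ Ioc X (2 * X), D x : ℝ) : ℂ) := by
  unfold ES
  push_cast
  refine sum_congr rfl fun x _ => ?_
  unfold GT.e
  simp

/-- a sum as an exponential sum -/
theorem wn_sum (X : ℕ) (D : ℕ → ℝ) (δ : ℝ) (h : ∀ α : ℝ, ‖ES D X α‖ ≤ δ) :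
    |∑ x ∈ Ioc X (2 * X), D x| ≤ δ := by
  have h0 := h 0
  rw [wn8_ES0, Complex.norm_real, Real.norm_eq_abs] at h0
  exact h0

theorem wn_smul (X : ℕ) (Q a : ℝ) (ha : 0 ≤ a) (φ : ℕ → ℝ) (h : Wn X Q φ) : Wn X (a * Q) (fun n => a * φ n) := by
  intro t D δ ht hD α
  have h1 : ES (fun x => D x * (a * φ (x + t))) X α = (a : ℂ) * ES (fun x => D x * φ (x + t)) X α := by
    unfold ES
    rw [mul_sum]
    refine sum_congr rfl fun x _ => ?_
    push_cast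
    ring
  show ‖ES (fun x => D x * (a * φ (x + t))) X α‖ ≤ a * Q * δ
  rw [h1, norm_mul, Complex.norm_real, Real.norm_of_nonneg ha, mul_assoc]
  exact mul_le_mul_of_nonneg_left (h t D δ ht hD α) ha

theorem wn_mono (X : ℕ) (Q Q' : ℝ) (hQ : Q ≤ Q') (φ : ℕ → ℝ) (h : Wn X Q φ) : Wn X Q' φ := by
  intro t D δ ht hD α
  refine (h t D δ ht hD α).trans ?_
  exact mul_le_mul_of_nonneg_right hQ ((norm_nonneg _).trans (hD 0))

theorem wn_prod {ι : Type*} (X : ℕ) (Q : ℝ) (φ : ℕ → ℝ) (h : Wn X Q φ) (S : Finset ι)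
    (s : ι → ℕ) (hs : ∀ i, s i ≤ X) (D : ℕ → ℝ) (δ : ℝ) (hD : ∀ α : ℝ, ‖ES D X α‖ ≤ δ) (α : ℝ) :
    ‖ES (fun x => D x * ∏ i ∈ S, φ (x + s i)) X α‖ ≤ Q ^ S.card * δ := by
  classical
  induction S using Finset.induction_on generalizing α with
  | empty =>
    simp only [prod_empty, mul_one, card_empty, pow_zero, one_mul]
    exact hD α
  | insert i S hi ih =>
    have h1 := h (s i) (fun x => D x * ∏ j ∈ S, φ (x + s j)) _ (hs i) ih α
    rw [card_insert_of_notMem hi, pow_succ]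
    have h2 : (fun x => D x * ∏ j ∈ insert i S, φ (x + s j)) =
        fun x => D x * (∏ j ∈ S, φ (x + s j)) * φ (x + s i) := by
      funext x
      rw [prod_insert hi]
      ring
    rw [h2]
    refine h1.trans (le_of_eq ?_)
    ring

/-- trigonometric polynomials -/
theorem wn_of_trig {ι : Type*} (X : ℕ) (φ : ℕ → ℝ) (S : Finset ι) (c : ι → ℂ) (θ : ι → ℝ)
    (hφ : ∀ n : ℕ, n ≤ 3 * X → (φ n : ℂ) = ∑ j ∈ S, c j * GT.e (θ j * n)) (Q : ℝ) (hQ : ∑ j ∈ S, ‖c j‖ ≤ Q) :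
    Wn X Q φ := by
  intro t D δ ht hD α
  have h1 : ES (fun x => D x * φ (x + t)) X α =
      ∑ j ∈ S, c j * GT.e (θ j * t) * ES D X (α + θ j) := by
    unfold ES
    simp only [mul_sum]
    rw [sum_comm]
    refine sum_congr rfl fun x hx => ?_
    rw [mem_Ioc] at hx
    push_cast
    rw [hφ (x + t) (by omega), mul_sum, sum_mul]
    refine sum_congr rfl fun j _ => ?_
    have e1 : GT.e (θ j * ((x + t : ℕ) : ℝ)) = GT.e (θ j * t) * GT.e (θ j * x) := by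
      rw [← GT.e_add]
      congr 1
      push_cast
      ring
    have e2 : GT.e ((α + θ j) * x) = GT.e (α * x) * GT.e (θ j * x) := by
      rw [← GT.e_add]
      congr 1
      ring
    rw [e1, e2]
    ring
  rw [h1]
  refine (norm_sum_le _ _).trans ?_
  have h2 : ∀ j ∈ S, ‖c j * GT.e (θ j * t) * ES D X (α + θ j)‖ ≤ ‖c j‖ * δ := by
    intro j _
    rw [norm_mul, norm_mul, GT.norm_e, mul_one]
    exact mul_le_mul_of_nonneg_left (hD _) (norm_nonneg _)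
  refine (sum_le_sum h2).trans ?_
  rw [← sum_mul]
  exact mul_le_mul_of_nonneg_right hQ ((norm_nonneg _).trans (hD 0))

private theorem wn8_val {N s r : ℕ} (hs : s < N) (hr : r < N) :
    (s + N - r) % N = if r ≤ s then s - r else s + N - r := by
  by_cases h : r ≤ s
  · rw [if_pos h]
    have : s + N - r = (s - r) + N := by omega
    rw [this, Nat.add_mod_right, Nat.mod_eq_of_lt (by omega)]
  · rw [if_neg h]
    exact Nat.mod_eq_of_lt (by omega)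

private theorem wn8_lt {N s r : ℕ} (hs : s < N) (hr : r < N) : (s + N - r) % N < N :=
  Nat.mod_lt _ (by omega)

private theorem wn8_inj {N s s' r : ℕ} (hs : s < N) (hs' : s' < N) (hr : r < N)
    (h : (s + N - r) % N = (s' + N - r) % N) : s = s' := by
  rw [wn8_val hs hr, wn8_val hs' hr] at h
  split_ifs at h <;> omega

private theorem wn8_conj (x : ℝ) : (starRingEnd ℂ) (GT.e x) = GT.e (-x) := by
  unfold GT.e
  rw [← Complex.exp_conj]
  congr 1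
  simp only [map_mul, Complex.conj_I, Complex.conj_ofReal, map_ofNat]
  push_cast
  ring

/-- inversion -/
private theorem wn8_inv (X : ℕ) (hX : 1 ≤ X) (W : ℕ → ℝ) (hW : ∀ n, n ∉ Ioc X (3 * X) → W n = 0)
    (j : ℕ) (hj : j < 8 * X) : (W j : ℂ) * (8 * X) =
      ∑ ξ ∈ range (8 * X), FT W X ((ξ : ℝ) / (8 * X)) * GT.e (-((ξ : ℝ) / (8 * X) * j)) := by
  have h1 : ∀ ξ ∈ range (8 * X), FT W X ((ξ : ℝ) / (8 * X)) * GT.e (-((ξ : ℝ) / (8 * X) * j)) =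
      ∑ m ∈ range (4 * X), (W m : ℂ) *
        GT.e ((ξ : ℝ) * (((m : ℤ) - (j : ℤ) : ℤ) : ℝ) / ((8 * X : ℕ) : ℝ)) := by
    intro ξ _
    unfold FT
    rw [sum_mul]
    refine sum_congr rfl fun m _ => ?_
    rw [mul_assoc, ← GT.e_add]
    congr 2
    push_cast
    ring
  rw [sum_congr rfl h1, sum_comm]
  have h2 : ∀ m ∈ range (4 * X), (∑ ξ ∈ range (8 * X), (W m : ℂ) *
        GT.e ((ξ : ℝ) * (((m : ℤ) - (j : ℤ) : ℤ) : ℝ) / ((8 * X : ℕ) : ℝ))) =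
      if m = j then (W m : ℂ) * (8 * X) else 0 := by
    intro m hm
    have hm' := mem_range.1 hm
    rw [← mul_sum, orth (8 * X) (by omega) ((m : ℤ) - (j : ℤ)) (by
      rw [abs_lt]; constructor <;> push_cast <;> omega)]
    by_cases h3 : m = j
    · rw [if_pos h3, if_pos (by omega)]
      push_cast
      rfl
    · rw [if_neg h3, if_neg (by omega), mul_zero]
  rw [sum_congr rfl h2, sum_ite_eq']
  by_cases h4 : j ∈ range (4 * X)
  · rw [if_pos h4]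
  · rw [if_neg h4, hW j (by rw [mem_range] at h4; rw [mem_Ioc]; omega)]
    simp

private theorem wn8_phase (X : ℕ) (hX : 1 ≤ X) (ξ s n : ℕ) (hs : s < 8 * X) :
    GT.e (-((ξ : ℝ) / (8 * X) * (((s + 8 * X - n % (8 * X)) % (8 * X) : ℕ) : ℝ))) =
      GT.e (-((ξ : ℝ) / (8 * X) * s)) * GT.e ((ξ : ℝ) / (8 * X) * n) := by
  have hX' : (8 * (X : ℝ)) ≠ 0 := by
    have : (1 : ℝ) ≤ X := by exact_mod_cast hX
    positivity
  have hr : n % (8 * X) < 8 * X := Nat.mod_lt _ (by omega)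
  rw [← GT.e_add, wn8_val hs hr]
  have hn : (n : ℝ) = ((n % (8 * X) : ℕ) : ℝ) + 8 * X * ((n / (8 * X) : ℕ) : ℝ) := by
    have h1 := Nat.mod_add_div n (8 * X)
    have h2 : ((n % (8 * X) + 8 * X * (n / (8 * X)) : ℕ) : ℝ) = (n : ℝ) := by rw [h1]
    rw [← h2]
    push_cast
    ring
  rw [hn]
  generalize n / (8 * X) = q
  generalize n % (8 * X) = ρ at hr
  by_cases h : ρ ≤ s
  · rw [if_pos h, Nat.cast_sub h]
    have h3 : -((ξ : ℝ) / (8 * X) * s) + (ξ : ℝ) / (8 * X) * ((ρ : ℝ) + 8 * X * q) =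
        -((ξ : ℝ) / (8 * X) * ((s : ℝ) - (ρ : ℝ))) + (((ξ * q : ℕ) : ℤ) : ℝ) := by
      push_cast
      field_simp
      ring
    rw [h3, GT.e_add_int]
  · rw [if_neg h, Nat.cast_sub (by omega)]
    have h3 : -((ξ : ℝ) / (8 * X) * s) + (ξ : ℝ) / (8 * X) * ((ρ : ℝ) + 8 * X * q) =
        -((ξ : ℝ) / (8 * X) * (((s + 8 * X : ℕ) : ℝ) - (ρ : ℝ))) + (((ξ * q + ξ : ℕ) : ℤ) : ℝ) := by
      push_cast
      field_simp
      ring
    rw [h3, GT.e_add_int]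

/-- Fourier expansion of `ph` -/
private theorem wn8_fourier (X : ℕ) (hX : 1 ≤ X) (E : Finset ℕ) (hE : E ⊆ range (8 * X)) (W : ℕ → ℝ)
    (hW : ∀ n, n ∉ Ioc X (3 * X) → W n = 0) (n : ℕ) : (ph X E W n : ℂ) * (8 * X) =
      ∑ ξ ∈ range (8 * X), FT W X ((ξ : ℝ) / (8 * X)) *
        (starRingEnd ℂ) (∑ s ∈ E, GT.e ((ξ : ℝ) / (8 * X) * s)) * GT.e ((ξ : ℝ) / (8 * X) * n) := by
  have hr : n % (8 * X) < 8 * X := Nat.mod_lt _ (by omega)
  have h1 : (ph X E W n : ℂ) * (8 * X) = ∑ s ∈ E, ∑ ξ ∈ range (8 * X),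
      FT W X ((ξ : ℝ) / (8 * X)) *
        (GT.e (-((ξ : ℝ) / (8 * X) * s)) * GT.e ((ξ : ℝ) / (8 * X) * n)) := by
    unfold ph
    rw [Complex.ofReal_sum, sum_mul]
    refine sum_congr rfl fun s hs => ?_
    have hs' := mem_range.1 (hE hs)
    rw [wn8_inv X hX W hW _ (wn8_lt hs' hr)]
    exact sum_congr rfl fun ξ _ => by rw [wn8_phase X hX ξ s n hs']
  rw [h1, sum_comm]
  refine sum_congr rfl fun ξ _ => ?_
  rw [map_sum, mul_sum, sum_mul]
  refine sum_congr rfl fun s _ => ?_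
  rw [wn8_conj]
  ring

/-- correlations with a set -/
theorem wn_cor (X : ℕ) (hX : 1 ≤ X) (E : Finset ℕ) (hE : E ⊆ range (8 * X)) (u : ℕ → ℝ)
    (hu : ∀ n, n ∉ Ioc X (3 * X) → u n = 0) (S : ℝ) (hS : ∑ n ∈ Ioc X (3 * X), (u n) ^ 2 ≤ S) :
    Wn X (Real.sqrt (E.card * S)) (cor E u) := by
  have hX1 : (1 : ℝ) ≤ X := by exact_mod_cast hX
  have hN : (0 : ℝ) < 8 * X := by linarith
  have hNc : (8 * (X : ℂ)) ≠ 0 := by
    have : ((8 * X : ℝ) : ℂ) ≠ 0 := by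
      rw [Complex.ofReal_ne_zero]
      exact hN.ne'
    push_cast at this
    exact this
  have hfour : ∀ n : ℕ, n ≤ 3 * X → (cor E u n : ℂ) = ∑ ξ ∈ range (8 * X),
      (FT u X ((ξ : ℝ) / (8 * X)) * (starRingEnd ℂ) (∑ s ∈ E, GT.e ((ξ : ℝ) / (8 * X) * s)) / (8 * X)) *
        GT.e ((ξ : ℝ) / (8 * X) * n) := by
    intro n hn
    rw [← ph_cor X hX E hE u hu n (by omega)]
    have h1 := wn8_fourier X hX E hE u hu n
    rw [← eq_div_iff hNc] at h1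
    rw [h1, sum_div]
    refine sum_congr rfl fun ξ _ => ?_
    ring
  refine wn_of_trig X (cor E u) (range (8 * X)) _ (fun ξ => (ξ : ℝ) / (8 * X)) hfour _ ?_
  have h1 : ∀ ξ ∈ range (8 * X), ‖FT u X ((ξ : ℝ) / (8 * X)) *
      (starRingEnd ℂ) (∑ s ∈ E, GT.e ((ξ : ℝ) / (8 * X) * s)) / (8 * X)‖ =
      (‖FT u X ((ξ : ℝ) / (8 * X))‖ * ‖∑ s ∈ E, GT.e ((ξ : ℝ) / (8 * X) * s)‖) / (8 * X) := by
    intro ξ _
    rw [norm_div, norm_mul, RCLike.norm_conj]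
    congr 1
    rw [show (8 * (X : ℂ)) = ((8 * X : ℝ) : ℂ) by push_cast; ring, Complex.norm_real, Real.norm_eq_abs,
      abs_of_pos hN]
  rw [sum_congr rfl h1, ← sum_div, div_le_iff₀ hN]
  have h2 := Finset.sum_mul_sq_le_sq_mul_sq (range (8 * X)) (fun ξ => ‖FT u X ((ξ : ℝ) / (8 * X))‖)
    (fun ξ => ‖∑ s ∈ E, GT.e ((ξ : ℝ) / (8 * X) * s)‖)
  rw [pars X hX, cor_norm X hX E hE] at h2
  have h3 : ∑ n ∈ range (4 * X), (u n) ^ 2 = ∑ n ∈ Ioc X (3 * X), (u n) ^ 2 := by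
    symm
    apply sum_subset
    · intro x hx
      rw [mem_Ioc] at hx
      rw [mem_range]
      omega
    · intro x _ hx
      rw [hu x hx]
      ring
  rw [h3] at h2
  have hS0 : 0 ≤ S := (sum_nonneg fun _ _ => sq_nonneg _).trans hS
  have h4 : (∑ ξ ∈ range (8 * X), ‖FT u X ((ξ : ℝ) / (8 * X))‖ *
      ‖∑ s ∈ E, GT.e ((ξ : ℝ) / (8 * X) * s)‖) ^ 2 ≤ (8 * X) ^ 2 * (E.card * S) := by
    refine h2.trans ?_
    calc (8 * X * ∑ n ∈ Ioc X (3 * X), (u n) ^ 2) * (8 * X * (E.card : ℝ))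
        = (8 * X) ^ 2 * (E.card * ∑ n ∈ Ioc X (3 * X), (u n) ^ 2) := by ring
      _ ≤ (8 * X) ^ 2 * (E.card * S) := by gcongr
  have h5 := Real.sqrt_le_sqrt h4
  rw [Real.sqrt_sq (by positivity), Real.sqrt_mul (by positivity), Real.sqrt_sq hN.le] at h5
  linarith

end Pool.Agent.Lib.SH
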