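import Pool.Agent.Lib.SH.Rat9
import Pool.Agent.Lib.SH.Stp9
import Pool.Agent.Lib.SH.Main9
import Pool.Agent.Lib.SH.Mom9
import Pool.Agent.Lib.SH.Ptw9
import Pool.Agent.Lib.SH.Non9
import Pool.Agent.Lib.SH.Tup9
import Pool.Agent.Lib.SH.Wn8

/-!
# SH-Core9: a set which meets the clusters of length a small multiple of log X has a positive share of every structured weight (helper10)
-/

set_option autoImplicit false

open Finset

namespace Pool.Agent.Lib.SH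

open Pool.Agent.Lib.MT Pool.Agent.Lib.SG

/-- the final numbers -/
private theorem core9_num (c₁ X L S U V k Cp Cm1 Cm2 N E : ℝ) (hc₁ : 0 < c₁) (hX : 0 < X) (hL : 0 < L) (hk : 1 ≤ k)
    (hCp : 0 < Cp) (hCm1 : 0 < Cm1) (hCm2 : 0 < Cm2) (hU0 : 0 ≤ U) (hV0 : 0 ≤ V)
    (hU : U ^ 2 ≤ L * S * (Cm1 * X)) (hV : V ^ 2 ≤ ((c₁ / (4 * k * Cp)) ^ 2 / Cm2 * X) * (Cm2 * X))
    (hN : N ≤ c₁ / 4 * X) (hE : E ≤ c₁ / 8 * X) (h : c₁ * X ≤ N + k ^ 2 * Cp * U + k * Cp * V + E) :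
    (3 * c₁ / (8 * k ^ 2 * Cp)) ^ 2 / Cm1 * X / L ≤ S := by
  have hk0 : 0 < k := by linarith
  have hV1 : V ≤ c₁ / (4 * k * Cp) * X := by
    have h1 : V ^ 2 ≤ (c₁ / (4 * k * Cp) * X) ^ 2 := by
      refine hV.trans (le_of_eq ?_)
      field_simp
    exact le_of_sq_le_sq h1 (by positivity)
  have hV2 : k * Cp * V ≤ c₁ / 4 * X := by
    calc k * Cp * V ≤ k * Cp * (c₁ / (4 * k * Cp) * X) := by gcongr
      _ = c₁ / 4 * X := by field_simp
  have hU1 : 3 * c₁ / 8 * X ≤ k ^ 2 * Cp * U := by linarith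
  have hU2 : 3 * c₁ / (8 * k ^ 2 * Cp) * X ≤ U := by
    have e1 : 3 * c₁ / (8 * k ^ 2 * Cp) * X = (3 * c₁ / 8 * X) / (k ^ 2 * Cp) := by field_simp
    rw [e1, div_le_iff₀ (by positivity)]
    linarith
  have hU3 : (3 * c₁ / (8 * k ^ 2 * Cp) * X) ^ 2 ≤ L * S * (Cm1 * X) :=
    (pow_le_pow_left₀ (by positivity) hU2 2).trans hU
  rw [div_le_iff₀ hL]
  have e2 : (3 * c₁ / (8 * k ^ 2 * Cp)) ^ 2 / Cm1 * X * (Cm1 * X) = (3 * c₁ / (8 * k ^ 2 * Cp) * X) ^ 2 := by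
    field_simp
  have e3 : (3 * c₁ / (8 * k ^ 2 * Cp)) ^ 2 / Cm1 * X * (Cm1 * X) ≤ S * L * (Cm1 * X) := by
    rw [e2]
    linarith
  exact le_of_mul_le_mul_right e3 (by positivity)

/-- Cauchy -/
private theorem core9_cauchy (M : Finset ℕ) (a R : ℕ → ℝ) (n : ℕ) (ha : ∀ x, 0 ≤ a x) (haR : ∀ x ∈ M, a x ≤ R x)
    (hR : ∀ x, 0 ≤ R x) :
    (∑ x ∈ M, a x * R x ^ n) ^ 2 ≤ (∑ x ∈ M, a x) * ∑ x ∈ M, R x ^ (2 * n + 1) := by
  have h1 := sum_mul_sq_le_sq_mul_sq M (fun x => Real.sqrt (a x)) (fun x => Real.sqrt (a x) * R x ^ n)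
  have e1 : ∑ x ∈ M, Real.sqrt (a x) * (Real.sqrt (a x) * R x ^ n) = ∑ x ∈ M, a x * R x ^ n := by
    refine sum_congr rfl fun x _ => ?_
    rw [← mul_assoc, Real.mul_self_sqrt (ha x)]
  have e2 : ∑ x ∈ M, Real.sqrt (a x) ^ 2 = ∑ x ∈ M, a x := sum_congr rfl fun x _ => Real.sq_sqrt (ha x)
  have e3 : ∑ x ∈ M, (Real.sqrt (a x) * R x ^ n) ^ 2 ≤ ∑ x ∈ M, R x ^ (2 * n + 1) := by
    refine sum_le_sum fun x hx => ?_
    rw [mul_pow, Real.sq_sqrt (ha x), ← pow_mul]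
    calc a x * R x ^ (n * 2) ≤ R x * R x ^ (n * 2) :=
          mul_le_mul_of_nonneg_right (haR x hx) (pow_nonneg (hR x) _)
      _ = R x ^ (2 * n + 1) := by
          rw [pow_succ, mul_comm n 2]
          ring
  rw [e1, e2] at h1
  exact h1.trans (mul_le_mul_of_nonneg_left e3 (sum_nonneg fun x _ => ha x))

private theorem core9_cauchy2 (M N : Finset ℕ) (hMN : M ⊆ N) (R : ℕ → ℝ) (n : ℕ) (hR : ∀ x, 0 ≤ R x) :
    (∑ x ∈ M, R x ^ n) ^ 2 ≤ M.card * ∑ x ∈ N, R x ^ (2 * n) := by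
  have h1 := sum_mul_sq_le_sq_mul_sq M (fun _ => (1 : ℝ)) (fun x => R x ^ n)
  have e1 : ∑ x ∈ M, (1 : ℝ) * R x ^ n = ∑ x ∈ M, R x ^ n := sum_congr rfl fun x _ => one_mul _
  have e2 : ∑ x ∈ M, (1 : ℝ) ^ 2 = M.card := by
    rw [sum_congr rfl fun x _ => one_pow 2, sum_const, nsmul_eq_mul, mul_one]
  have e3 : ∑ x ∈ M, (R x ^ n) ^ 2 ≤ ∑ x ∈ N, R x ^ (2 * n) := by
    calc ∑ x ∈ M, (R x ^ n) ^ 2 = ∑ x ∈ M, R x ^ (2 * n) := by
          refine sum_congr rfl fun x _ => ?_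
          rw [← pow_mul, mul_comm n 2]
      _ ≤ _ := sum_le_sum_of_subset_of_nonneg hMN fun x _ _ => pow_nonneg (hR x) _
  rw [e1, e2] at h1
  exact h1.trans (mul_le_mul_of_nonneg_left e3 (Nat.cast_nonneg _))

/-- sums of shifts -/
private theorem core9_shift (X H : ℕ) (hHX : H ≤ X) (g : ℕ → ℝ) (hg : ∀ n, 0 ≤ g n) :
    ∑ x ∈ Ioc X (2 * X), ∑ t ∈ Icc 1 H, g (x + t) ≤ H * ∑ n ∈ Ioc X (3 * X), g n := by
  rw [sum_comm]
  have h1 : ∀ t ∈ Icc 1 H, ∑ x ∈ Ioc X (2 * X), g (x + t) ≤ ∑ n ∈ Ioc X (3 * X), g n := by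
    intro t ht
    rw [mem_Icc] at ht
    have e1 : ∑ x ∈ Ioc X (2 * X), g (x + t) = ∑ n ∈ (Ioc X (2 * X)).image (fun x => x + t), g n := by
      rw [sum_image (fun a _ b _ hab => Nat.add_right_cancel hab)]
    rw [e1]
    refine sum_le_sum_of_subset_of_nonneg ?_ fun n _ _ => hg n
    intro n hn
    rw [mem_image] at hn
    obtain ⟨x, hx, rfl⟩ := hn
    rw [mem_Ioc] at hx ⊢
    omega
  calc ∑ t ∈ Icc 1 H, ∑ x ∈ Ioc X (2 * X), g (x + t) ≤ ∑ t ∈ Icc 1 H, ∑ n ∈ Ioc X (3 * X), g n :=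
        sum_le_sum h1
    _ = H * ∑ n ∈ Ioc X (3 * X), g n := by
        rw [sum_const, Nat.card_Icc, Nat.add_sub_cancel, nsmul_eq_mul]

open Classical in
/-- one tuple -/
private theorem core9_one {m J k H B X c a q : ℕ} {C₁ : ℝ} (h : Fin k → ℕ) (hk : 1 ≤ k)
    (hV0 : 0 < V1 (Om h) (zX B X)) (hV1 : V1 (Om h) (zX B X) ≤ 1)
    (hκ : 0 < kap (zX B X)) (hb : 1 ≤ bX C₁ J k B X) (hlog : 1 ≤ Real.log X)
    (hκL : 1 / Real.log X ≤ kap (zX B X))
    (hW : Wk m k H (zX B X) X c a (Om h) h (wt C₁ J k B X (Om h) h)) (hhX : ∀ i, h i ≤ X)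
    (A : Set ℕ) (φ : ℕ → ℝ) (hφ0 : ∀ n, 0 ≤ φ n) (hφ1 : ∀ n ∈ Ioc X (3 * X), Rg (zX B X) n → φ n ≤ 1)
    (hWn : Wn X ((Real.log X) ^ q) φ) (y : ℕ) (P : ℝ) (hP0 : 0 ≤ P)
    (hP : ∀ x ∈ Ioc X (2 * X), (∀ i, Rg y (x + h i)) →
      (Fs C₁ J k B X h x) ^ 2 ≤ P * (kap (zX B X) * bX C₁ J k B X) ^ k) :
    ∑ x ∈ Ioc X (2 * X), ∏ i, (rz (zX B X) (x + h i) * φ (x + h i)) ≤
      (k ^ 2 + k) * ∑ x ∈ (Pre (Om h) (zX B X) X).filter (fun x => ∃ i, ¬ Rg y (x + h i)),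
        (Fs C₁ J k B X h x) ^ 2 / (kap (zX B X) * bX C₁ J k B X) ^ k +
      k * P * ∑ i, ∑ x ∈ Ioc X (2 * X), (if x + h i ∈ A ∧ (x + h i).Prime then φ (x + h i) else 0) *
        ∏ j ∈ univ.erase i, (if Rg y (x + h j) then (1 : ℝ) else 0) +
      k * P * ∑ x ∈ Mis m H X A, ∏ j, (if Rg y (x + h j) then (1 : ℝ) else 0) +
      (Real.log X) ^ k * ((k + m + k * H) * (((Real.log X) ^ q) ^ k * (X / (Real.log X) ^ a))) := by
  obtain ⟨z, hz⟩ : ∃ z, z = zX B X := ⟨_, rfl⟩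
  obtain ⟨b, hbd⟩ : ∃ b, b = bX C₁ J k B X := ⟨_, rfl⟩
  obtain ⟨α, hα⟩ : ∃ α : ℝ, α = V1 (Om h) z / kap z ^ k := ⟨_, rfl⟩
  rw [← hz] at hV0 hV1 hκ hκL hW hφ1 hP ⊢
  rw [← hbd] at hb hP ⊢
  have hkR : (1 : ℝ) ≤ k := by exact_mod_cast hk
  have hα0 : 0 ≤ α := by
    rw [hα]
    positivity
  have hαL : α ≤ (Real.log X) ^ k := by
    rw [hα, div_le_iff₀ (by positivity)]
    have h1 : 1 ≤ Real.log X * kap z := by
      rw [div_le_iff₀ (by linarith)] at hκL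
      linarith
    calc V1 (Om h) z ≤ 1 := hV1
      _ ≤ (Real.log X * kap z) ^ k := one_le_pow₀ h1
      _ = _ := mul_pow _ _ _
  obtain ⟨ψ, hψ⟩ : ∃ ψ : ℕ → ℝ, ψ = fun x => ∏ i, φ (x + h i) := ⟨_, rfl⟩
  have hψx : ∀ x, ψ x = ∏ i, φ (x + h i) := fun x => by rw [hψ]
  have hψ0 : ∀ x, 0 ≤ ψ x := fun x => by
    rw [hψx]
    exact prod_nonneg fun i _ => hφ0 _
  have hTst : Tst X (((Real.log X) ^ q) ^ k) ψ := by
    intro D δ hD
    have h1 := wn_prod X ((Real.log X) ^ q) φ hWn (univ : Finset (Fin k)) h hhX D δ hD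
    rw [card_univ, Fintype.card_fin] at h1
    have h2 := wn_sum X _ _ h1
    rw [hψ]
    exact h2
  have hmain := hW.main A ψ hψ0 _ (by positivity) hTst
  -- ω
  obtain ⟨ω, hω⟩ : ∃ ω : ℕ → ℝ, ω = fun x => if x ∈ Pre (Om h) z X then
      (Fs C₁ J k B X h x) ^ 2 / (kap z * b) ^ k else 0 := ⟨_, rfl⟩
  have hb0 : 0 < b := by linarith
  have hwω : ∀ x, α * wt C₁ J k B X (Om h) h x = ω x := by
    intro x
    rw [hω]
    unfold wt
    rw [← hz, ← hbd]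
    simp only
    split_ifs with h1
    · rw [hα, mul_pow]
      field_simp
    · rw [mul_zero]
  have hω0 : ∀ x, 0 ≤ ω x := fun x => by
    rw [← hwω]
    exact mul_nonneg hα0 (hW.w0 x)
  -- the left side
  have hL : α * ∑ x ∈ Ioc X (2 * X), SG.mu (Om h) z X x * ψ x =
      ∑ x ∈ Ioc X (2 * X), ∏ i, (rz z (x + h i) * φ (x + h i)) := by
    rw [mul_sum]
    refine sum_congr rfl fun x hx => ?_
    rw [tup9_prod h z X x hx φ, ← hψx]
    unfold SG.mu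
    split_ifs with h1
    · rw [hα]
      field_simp
    · rw [zero_mul, mul_zero]
  have hψ1 : ∀ x, x ∈ Pre (Om h) z X → ∀ i, φ (x + h i) ≤ 1 := by
    intro x hx i
    rw [tup9_pre] at hx
    refine hφ1 _ ?_ (hx.2 i)
    have h1 := mem_Ioc.mp hx.1
    have h2 := hhX i
    rw [mem_Ioc]
    omega
  have hψle : ∀ x, x ∈ Pre (Om h) z X → ∀ i, ψ x ≤ φ (x + h i) := by
    intro x hx i
    rw [hψx, ← mul_prod_erase univ _ (mem_univ i)]
    calc φ (x + h i) * ∏ j ∈ univ.erase i, φ (x + h j) ≤ φ (x + h i) * 1 := by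
          refine mul_le_mul_of_nonneg_left ?_ (hφ0 _)
          exact prod_le_one (fun j _ => hφ0 _) fun j _ => hψ1 x hx j
      _ = _ := mul_one _
  have hψ11 : ∀ x, x ∈ Pre (Om h) z X → ψ x ≤ 1 := by
    intro x hx
    exact (hψle x hx ⟨0, by omega⟩).trans (hψ1 x hx _)
  -- the part which is not rough
  obtain ⟨N, hN⟩ : ∃ N : ℕ → ℝ, N = fun x => if x ∈ Pre (Om h) z X ∧ ∃ i, ¬ Rg y (x + h i) then ω x else 0 :=
    ⟨_, rfl⟩
  have hNx : ∀ x, N x = if x ∈ Pre (Om h) z X ∧ ∃ i, ¬ Rg y (x + h i) then ω x else 0 := fun x => by rw [hN]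
  have hN0 : ∀ x, 0 ≤ N x := fun x => by
    rw [hNx]
    split_ifs
    · exact hω0 x
    · exact le_rfl
  have hNsum : ∑ x ∈ Ioc X (2 * X), N x =
      ∑ x ∈ (Pre (Om h) z X).filter (fun x => ∃ i, ¬ Rg y (x + h i)),
        (Fs C₁ J k B X h x) ^ 2 / (kap z * b) ^ k := by
    have hsub : (Pre (Om h) z X).filter (fun x => ∃ i, ¬ Rg y (x + h i)) ⊆ Ioc X (2 * X) :=
      (filter_subset _ _).trans (filter_subset _ _)
    rw [← sum_subset hsub]
    · refine sum_congr rfl fun x hx => ?_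
      rw [mem_filter] at hx
      rw [hNx, if_pos hx, hω]
      simp only
      rw [if_pos hx.1]
    · intro x _ hx
      rw [mem_filter] at hx
      rw [hNx, if_neg hx]
  -- rough points
  have hωP : ∀ x, (∀ i, Rg y (x + h i)) → x ∈ Pre (Om h) z X → ω x ≤ P := by
    intro x hx hxP
    rw [hω]
    simp only
    rw [if_pos hxP, div_le_iff₀ (by positivity)]
    exact hP x ((tup9_pre h z X x).1 hxP).1 hx
  have hr0 : ∀ x (j : Fin k), (0 : ℝ) ≤ if Rg y (x + h j) then (1 : ℝ) else 0 := by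
    intro x j
    split_ifs
    · exact zero_le_one
    · exact le_rfl
  have hpt1 : ∀ (i : Fin k) (x : ℕ), α * fa A h (wt C₁ J k B X (Om h) h) i x * ψ x ≤
      N x + P * ((if x + h i ∈ A ∧ (x + h i).Prime then φ (x + h i) else 0) *
        ∏ j ∈ univ.erase i, (if Rg y (x + h j) then (1 : ℝ) else 0)) := by
    intro i x
    have hg0 : (0 : ℝ) ≤ if x + h i ∈ A ∧ (x + h i).Prime then φ (x + h i) else 0 := by
      split_ifs
      · exact hφ0 _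
      · exact le_rfl
    have hR0 : 0 ≤ P * ((if x + h i ∈ A ∧ (x + h i).Prime then φ (x + h i) else 0) *
        ∏ j ∈ univ.erase i, (if Rg y (x + h j) then (1 : ℝ) else 0)) :=
      mul_nonneg hP0 (mul_nonneg hg0 (prod_nonneg fun j _ => hr0 x j))
    unfold fa
    by_cases h1 : x + h i ∈ A ∧ (x + h i).Prime
    · rw [if_pos h1, if_pos h1, hwω]
      rw [if_pos h1] at hR0
      by_cases h2 : x ∈ Pre (Om h) z X
      · by_cases h3 : ∀ j, Rg y (x + h j)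
        · have e1 : ∏ j ∈ univ.erase i, (if Rg y (x + h j) then (1 : ℝ) else 0) = 1 :=
            prod_eq_one fun j _ => if_pos (h3 j)
          rw [e1, mul_one]
          have e2 : ω x * ψ x ≤ P * φ (x + h i) :=
            mul_le_mul (hωP x h3 h2) (hψle x h2 i) (hψ0 x) hP0
          linarith [hN0 x]
        · have h4 : N x = ω x := by
            rw [hNx, if_pos ⟨h2, by push Not at h3; exact h3⟩]
          have h5 : ω x * ψ x ≤ ω x * 1 := mul_le_mul_of_nonneg_left (hψ11 x h2) (hω0 x)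
          linarith
      · have h4 : ω x = 0 := by
          rw [hω]
          simp only
          rw [if_neg h2]
        rw [h4, zero_mul]
        linarith [hN0 x]
    · rw [if_neg h1, mul_zero, zero_mul]
      linarith [hN0 x]
  have hpt2 : ∀ x : ℕ, α * (wt C₁ J k B X (Om h) h x * ψ x) ≤
      N x + P * ∏ j, (if Rg y (x + h j) then (1 : ℝ) else 0) := by
    intro x
    have hR0 : 0 ≤ P * ∏ j, (if Rg y (x + h j) then (1 : ℝ) else 0) :=
      mul_nonneg hP0 (prod_nonneg fun j _ => hr0 x j)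
    rw [← mul_assoc, hwω]
    by_cases h2 : x ∈ Pre (Om h) z X
    · by_cases h3 : ∀ j, Rg y (x + h j)
      · have e1 : ∏ j : Fin k, (if Rg y (x + h j) then (1 : ℝ) else 0) = 1 :=
          prod_eq_one fun j _ => if_pos (h3 j)
        rw [e1, mul_one]
        have e2 : ω x * ψ x ≤ P * 1 := mul_le_mul (hωP x h3 h2) (hψ11 x h2) (hψ0 x) hP0
        linarith [hN0 x]
      · have h4 : N x = ω x := by
          rw [hNx, if_pos ⟨h2, by push Not at h3; exact h3⟩]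
        have h5 : ω x * ψ x ≤ ω x * 1 := mul_le_mul_of_nonneg_left (hψ11 x h2) (hω0 x)
        linarith
    · have h4 : ω x = 0 := by
        rw [hω]
        simp only
        rw [if_neg h2]
      rw [h4, zero_mul]
      linarith [hN0 x]
  -- assemble
  have s1 := mul_le_mul_of_nonneg_left hmain hα0
  rw [hL] at s1
  refine s1.trans ?_
  have s2 : α * (k * ∑ i, ∑ x ∈ Ioc X (2 * X), fa A h (wt C₁ J k B X (Om h) h) i x * ψ x) ≤
      k * (k * ∑ x ∈ Ioc X (2 * X), N x + P * ∑ i, ∑ x ∈ Ioc X (2 * X),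
        (if x + h i ∈ A ∧ (x + h i).Prime then φ (x + h i) else 0) *
        ∏ j ∈ univ.erase i, (if Rg y (x + h j) then (1 : ℝ) else 0)) := by
    have e1 : α * (k * ∑ i, ∑ x ∈ Ioc X (2 * X), fa A h (wt C₁ J k B X (Om h) h) i x * ψ x) =
        k * ∑ i, ∑ x ∈ Ioc X (2 * X), α * fa A h (wt C₁ J k B X (Om h) h) i x * ψ x := by
      rw [mul_left_comm, mul_sum]
      congr 1
      refine sum_congr rfl fun i _ => ?_
      rw [mul_sum]
      exact sum_congr rfl fun x _ => by ring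
    rw [e1]
    refine mul_le_mul_of_nonneg_left ?_ (by linarith)
    have e2 : ∀ i ∈ (univ : Finset (Fin k)), ∑ x ∈ Ioc X (2 * X),
        α * fa A h (wt C₁ J k B X (Om h) h) i x * ψ x ≤ ∑ x ∈ Ioc X (2 * X), N x +
        P * ∑ x ∈ Ioc X (2 * X), (if x + h i ∈ A ∧ (x + h i).Prime then φ (x + h i) else 0) *
        ∏ j ∈ univ.erase i, (if Rg y (x + h j) then (1 : ℝ) else 0) := by
      intro i _
      rw [mul_sum, ← sum_add_distrib]
      exact sum_le_sum fun x _ => hpt1 i x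
    refine (sum_le_sum e2).trans (le_of_eq ?_)
    rw [sum_add_distrib, sum_const, card_univ, Fintype.card_fin, nsmul_eq_mul, ← mul_sum]
  have s3 : α * (k * ∑ x ∈ Mis m H X A, wt C₁ J k B X (Om h) h x * ψ x) ≤
      k * (∑ x ∈ Ioc X (2 * X), N x + P * ∑ x ∈ Mis m H X A,
        ∏ j, (if Rg y (x + h j) then (1 : ℝ) else 0)) := by
    rw [mul_left_comm, mul_sum]
    refine mul_le_mul_of_nonneg_left ?_ (by linarith)
    have e1 : ∑ x ∈ Mis m H X A, α * (wt C₁ J k B X (Om h) h x * ψ x) ≤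
        ∑ x ∈ Mis m H X A, N x + P * ∑ x ∈ Mis m H X A, ∏ j, (if Rg y (x + h j) then (1 : ℝ) else 0) := by
      rw [mul_sum, ← sum_add_distrib]
      exact sum_le_sum fun x _ => hpt2 x
    have e2 : ∑ x ∈ Mis m H X A, N x ≤ ∑ x ∈ Ioc X (2 * X), N x := by
      refine sum_le_sum_of_subset_of_nonneg ?_ fun x _ _ => hN0 x
      unfold Mis
      exact filter_subset _ _
    linarith
  have s4 : α * ((k + m + k * H) * (((Real.log X) ^ q) ^ k * (X / (Real.log X) ^ a))) ≤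
      (Real.log X) ^ k * ((k + m + k * H) * (((Real.log X) ^ q) ^ k * (X / (Real.log X) ^ a))) :=
    mul_le_mul_of_nonneg_right hαL (by positivity)
  rw [← hNsum]
  have e5 : ∀ a b c : ℝ, α * (a + b + c) = α * a + α * b + α * c := fun a b c => by ring
  rw [e5]
  have e6 : ((k : ℝ) ^ 2 + k) * ∑ x ∈ Ioc X (2 * X), N x =
      k * (k * ∑ x ∈ Ioc X (2 * X), N x) + k * ∑ x ∈ Ioc X (2 * X), N x := by ring
  rw [e6]
  linarith

open Filter in
/-- large X -/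
private theorem core9_big (k F m B : ℕ) (hk : 1 ≤ k) (hB : 1 ≤ B) (hF : 1 ≤ F) (δ κ c₁ : ℝ) (hδ : 0 < δ) (hκ : 0 < κ)
    (hc₁ : 0 < c₁) : ∃ X₀ : ℕ, ∀ X : ℕ, X₀ ≤ X →
    1 ≤ X ∧ 1 ≤ Real.log X ∧ 2 ≤ zX B X ∧ zX B X ≤ X ∧ 1 / Real.log X ≤ kap (zX B X) ∧ Real.log X ≤ X ∧
    2 * F ≤ κ / 4 * Real.log X ∧ 2 * Real.log X * Real.log X ≤ δ * X ∧
    (k : ℝ) ^ 2 * ((kap (zX B X))⁻¹) ^ k * (8 * F) ^ k ≤ κ / 4 * Real.log X * δ ^ k ∧
    (2 * k + m) / (Real.log X) ^ 2 ≤ c₁ / 8 := by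
  obtain ⟨C, hC, hCk⟩ := num_kap
  obtain ⟨X₁, h1⟩ := kap_low B
  have hkR : (1 : ℝ) ≤ k := by exact_mod_cast hk
  have hFR : (1 : ℝ) ≤ F := by exact_mod_cast hF
  obtain ⟨D, hD⟩ : ∃ D : ℝ, D = 4 * (k : ℝ) ^ 2 / κ + 1 := ⟨_, rfl⟩
  have hD0 : 0 ≤ 4 * (k : ℝ) ^ 2 / κ := by positivity
  have hD1 : 1 ≤ D := by
    rw [hD]
    linarith
  have hD2 : 4 * (k : ℝ) ^ 2 / κ ≤ D := by
    rw [hD]
    linarith
  obtain ⟨X₂, h2⟩ := RNum6_loglog (C * (8 * F / δ) * D) (by positivity) k B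
  have h3 := RNum6_log.eventually_ge_atTop (2 + 8 * F / κ + 8 * (2 * k + m) / c₁)
  have h4 := RNum6_pow 1 1 one_pos B
  have h5 := RNum6_pow 1 1 one_pos 1
  have h6 := RNum6_pow (2 / δ) 1 one_pos 2
  obtain ⟨X₃, h7⟩ := eventually_atTop.mp (((h3.and h4).and h5).and h6)
  refine ⟨max (max X₁ X₂) (max X₃ 1), fun X hX => ?_⟩
  have hXa : X₁ ≤ X := le_trans (le_trans (le_max_left _ _) (le_max_left _ _)) hX
  have hXb : X₂ ≤ X := le_trans (le_trans (le_max_right _ _) (le_max_left _ _)) hX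
  have hXc : X₃ ≤ X := le_trans (le_trans (le_max_left _ _) (le_max_right _ _)) hX
  have hXd : 1 ≤ X := le_trans (le_trans (le_max_right _ _) (le_max_right _ _)) hX
  obtain ⟨⟨⟨g3, g4⟩, g5⟩, g6⟩ := h7 X hXc
  rw [Real.rpow_one] at g4 g5 g6
  rw [one_mul] at g4
  rw [pow_one, one_mul] at g5
  have p1 : 0 ≤ 8 * F / κ := by positivity
  have p2 : 0 ≤ 8 * (2 * k + m) / c₁ := by positivity
  have hL2 : 2 ≤ Real.log X := by linarith
  have hL0 : 0 < Real.log X := by linarith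
  have hz : (zX B X : ℝ) ≤ (Real.log X) ^ B := Nat.floor_le (by positivity)
  have hz2 : 2 ≤ zX B X := by
    unfold zX
    refine Nat.le_floor ?_
    calc ((2 : ℕ) : ℝ) ≤ Real.log X := by exact_mod_cast hL2
      _ = (Real.log X) ^ 1 := (pow_one _).symm
      _ ≤ (Real.log X) ^ B := pow_le_pow_right₀ (by linarith) hB
  obtain ⟨e1, e2⟩ := hCk (zX B X) hz2
  refine ⟨hXd, by linarith, hz2, ?_, ?_, g5, ?_, ?_, ?_, ?_⟩
  · exact_mod_cast hz.trans g4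
  · refine le_trans ?_ (h1 X (zX B X) hXa hz)
    refine one_div_le_one_div_of_le (Real.rpow_pos_of_pos hL0 _) ?_
    calc (Real.log X) ^ (1 / 2 : ℝ) ≤ (Real.log X) ^ (1 : ℝ) :=
          Real.rpow_le_rpow_of_exponent_le (by linarith) (by norm_num)
      _ = _ := Real.rpow_one _
  · have : 8 * F / κ ≤ Real.log X := by linarith
    rw [div_le_iff₀ hκ] at this
    linarith
  · rw [div_mul_eq_mul_div, div_le_iff₀ hδ] at g6
    nlinarith
  · have e3 := h2 X (zX B X) hXb hz2 hz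
    have e4 : (kap (zX B X))⁻¹ ^ k ≤ (C * Real.log (zX B X)) ^ k := pow_le_pow_left₀ (by linarith) e2 k
    have e5 : 4 * (k : ℝ) ^ 2 / κ ≤ D ^ k := hD2.trans (le_self_pow₀ hD1 (by omega))
    have e0 : 0 ≤ C * Real.log (zX B X) := by linarith
    have e6 : (C * Real.log (zX B X)) ^ k * (8 * F / δ) ^ k * (4 * (k : ℝ) ^ 2 / κ) ≤ Real.log X := by
      calc (C * Real.log (zX B X)) ^ k * (8 * F / δ) ^ k * (4 * (k : ℝ) ^ 2 / κ) ≤
          (C * Real.log (zX B X)) ^ k * (8 * F / δ) ^ k * D ^ k := by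
            gcongr
        _ = (C * (8 * F / δ) * D * Real.log (zX B X)) ^ k := by
            rw [← mul_pow, ← mul_pow]
            ring
        _ ≤ _ := e3
    calc (k : ℝ) ^ 2 * ((kap (zX B X))⁻¹) ^ k * (8 * F) ^ k ≤
        (k : ℝ) ^ 2 * (C * Real.log (zX B X)) ^ k * (8 * F) ^ k := by gcongr
      _ = κ / 4 * δ ^ k * ((C * Real.log (zX B X)) ^ k * (8 * F / δ) ^ k * (4 * (k : ℝ) ^ 2 / κ)) := by
          rw [div_pow]
          field_simp
      _ ≤ κ / 4 * δ ^ k * Real.log X := by gcongr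
      _ = _ := by ring
  · have e7 : 8 * (2 * k + m) / c₁ ≤ Real.log X := by linarith
    rw [div_le_iff₀ hc₁] at e7
    rw [div_le_iff₀ (by positivity)]
    nlinarith [mul_nonneg hc₁.le (sq_nonneg (Real.log X)), mul_pos hc₁ hL0]

open Classical in
/-- summation over the tuples -/
private theorem core9_tuples {m J k H B X c a q : ℕ} {C₁ : ℝ} (hk : 1 ≤ k) (T : Finset (Fin k → ℕ))
    (hT : T ⊆ Fintype.piFinset fun _ : Fin k => Icc 1 H)
    (hV0 : ∀ h ∈ T, 0 < V1 (Om h) (zX B X)) (hV1 : ∀ h ∈ T, V1 (Om h) (zX B X) ≤ 1)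
    (hκ : 0 < kap (zX B X)) (hb : 1 ≤ bX C₁ J k B X) (hlog : 1 ≤ Real.log X)
    (hκL : 1 / Real.log X ≤ kap (zX B X))
    (hW : ∀ h ∈ T, Wk m k H (zX B X) X c a (Om h) h (wt C₁ J k B X (Om h) h)) (hHX : H ≤ X)
    (A : Set ℕ) (φ : ℕ → ℝ) (hφ0 : ∀ n, 0 ≤ φ n) (hφ1 : ∀ n ∈ Ioc X (3 * X), Rg (zX B X) n → φ n ≤ 1)
    (hWn : Wn X ((Real.log X) ^ q) φ) (y : ℕ) (hyX : y ≤ X) (hzX : zX B X ≤ X) (P : ℝ) (hP0 : 0 ≤ P)
    (hP : ∀ h ∈ T, ∀ x ∈ Ioc X (2 * X), (∀ i, Rg y (x + h i)) →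
      (Fs C₁ J k B X h x) ^ 2 ≤ P * (kap (zX B X) * bX C₁ J k B X) ^ k) (N0 E0 : ℝ)
    (hN0 : (k ^ 2 + k) * ∑ h ∈ T, ∑ x ∈ (Pre (Om h) (zX B X) X).filter (fun x => ∃ i, ¬ Rg y (x + h i)),
        (Fs C₁ J k B X h x) ^ 2 / (kap (zX B X) * bX C₁ J k B X) ^ k ≤ N0)
    (hE0 : T.card * ((Real.log X) ^ k * ((k + m + k * H) * (((Real.log X) ^ q) ^ k * (X / (Real.log X) ^ a)))) ≤ E0) :
    ∃ U V : ℝ, 0 ≤ U ∧ 0 ≤ V ∧
      U ^ 2 ≤ (H * ∑ n ∈ Ioc X (3 * X), (if n ∈ A ∧ n.Prime then φ n else 0)) *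
        ∑ x ∈ Ioc X (2 * X), (Rt y H x : ℝ) ^ (2 * (k - 1) + 1) ∧
      V ^ 2 ≤ (Mis m H X A).card * ∑ x ∈ Ioc X (2 * X), (Rt y H x : ℝ) ^ (2 * k) ∧
      ∑ h ∈ T, ∑ x ∈ Ioc X (2 * X), ∏ i, (rz (zX B X) (x + h i) * φ (x + h i)) ≤
        N0 + k * P * (k * U) + k * P * V + E0 := by
  obtain ⟨g, hg⟩ : ∃ g : ℕ → ℝ, g = fun n => if n ∈ A ∧ n.Prime then φ n else 0 := ⟨_, rfl⟩
  obtain ⟨r, hr⟩ : ∃ r : ℕ → ℝ, r = fun n => if Rg y n then 1 else 0 := ⟨_, rfl⟩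
  have hgx : ∀ n, g n = if n ∈ A ∧ n.Prime then φ n else 0 := fun n => by rw [hg]
  have hrx : ∀ n, r n = if Rg y n then 1 else 0 := fun n => by rw [hr]
  have hg0 : ∀ n, 0 ≤ g n := fun n => by
    rw [hgx]
    split_ifs
    · exact hφ0 n
    · exact le_rfl
  have hr0 : ∀ n, 0 ≤ r n := fun n => by
    rw [hrx]
    split_ifs
    · exact zero_le_one
    · exact le_rfl
  have hkR : (1 : ℝ) ≤ k := by exact_mod_cast hk
  have hRt : ∀ x, ∑ t ∈ Icc 1 H, r (x + t) = (Rt y H x : ℝ) := by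
    intro x
    unfold Rt
    rw [sum_congr rfl fun t _ => hrx (x + t), sum_boole]
  obtain ⟨U, hU⟩ : ∃ U : ℝ, U = ∑ x ∈ Ioc X (2 * X), (∑ t ∈ Icc 1 H, g (x + t)) * (Rt y H x : ℝ) ^ (k - 1) := ⟨_, rfl⟩
  obtain ⟨V, hV⟩ : ∃ V : ℝ, V = ∑ x ∈ Mis m H X A, (Rt y H x : ℝ) ^ k := ⟨_, rfl⟩
  have hMsub : Mis m H X A ⊆ Ioc X (2 * X) := by
    unfold Mis
    exact filter_subset _ _
  refine ⟨U, V, ?_, ?_, ?_, ?_, ?_⟩
  · rw [hU]
    exact sum_nonneg fun x _ => mul_nonneg (sum_nonneg fun t _ => hg0 _) (by positivity)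
  · rw [hV]
    exact sum_nonneg fun x _ => by positivity
  · rw [hU]
    refine (core9_cauchy (Ioc X (2 * X)) (fun x => ∑ t ∈ Icc 1 H, g (x + t)) (fun x => (Rt y H x : ℝ)) (k - 1)
      (fun x => sum_nonneg fun t _ => hg0 _) ?_ (fun x => by positivity)).trans ?_
    · intro x hx
      rw [← hRt]
      refine sum_le_sum fun t ht => ?_
      rw [hgx, hrx]
      rw [mem_Ioc] at hx
      rw [mem_Icc] at ht
      split_ifs with h1 h2 h2
      · refine hφ1 (x + t) (mem_Ioc.mpr ⟨by omega, by omega⟩) ?_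
        intro p hp hd
        have hp1 := mem_filter.mp hp
        have hp2 := mem_range.mp hp1.1
        have h3 := (Nat.prime_dvd_prime_iff_eq hp1.2.1 h1.2).mp hd
        omega
      · exfalso
        apply h2
        intro p hp hd
        have hp1 := mem_filter.mp hp
        have hp2 := mem_range.mp hp1.1
        have h3 := (Nat.prime_dvd_prime_iff_eq hp1.2.1 h1.2).mp hd
        omega
      · exact zero_le_one
      · exact le_rfl
    · refine mul_le_mul_of_nonneg_right ?_ (sum_nonneg fun x _ => by positivity)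
      refine (core9_shift X H hHX g hg0).trans (le_of_eq ?_)
      rw [sum_congr rfl fun n _ => hgx n]
  · rw [hV]
    exact core9_cauchy2 _ _ hMsub (fun x => (Rt y H x : ℝ)) k (fun x => by positivity)
  · have hone : ∀ h ∈ T, ∑ x ∈ Ioc X (2 * X), ∏ i, (rz (zX B X) (x + h i) * φ (x + h i)) ≤
        (k ^ 2 + k) * ∑ x ∈ (Pre (Om h) (zX B X) X).filter (fun x => ∃ i, ¬ Rg y (x + h i)),
          (Fs C₁ J k B X h x) ^ 2 / (kap (zX B X) * bX C₁ J k B X) ^ k +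
        k * P * ∑ i, ∑ x ∈ Ioc X (2 * X), g (x + h i) * ∏ j ∈ univ.erase i, r (x + h j) +
        k * P * ∑ x ∈ Mis m H X A, ∏ j, r (x + h j) +
        (Real.log X) ^ k * ((k + m + k * H) * (((Real.log X) ^ q) ^ k * (X / (Real.log X) ^ a))) := by
      intro h hh
      have hhH : ∀ i, h i ≤ X := by
        intro i
        have h1 := Fintype.mem_piFinset.mp (hT hh) i
        rw [mem_Icc] at h1
        omega
      have h1 := core9_one h hk (hV0 h hh) (hV1 h hh) hκ hb hlog hκL (hW h hh) hhH A φ hφ0 hφ1 hWn y P hP0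
        (hP h hh)
      rw [hg, hr]
      exact h1
    refine (sum_le_sum hone).trans ?_
    rw [sum_add_distrib, sum_add_distrib, sum_add_distrib, ← mul_sum, ← mul_sum, ← mul_sum, sum_const, nsmul_eq_mul]
    have b1 : ∑ h ∈ T, ∑ i, ∑ x ∈ Ioc X (2 * X), g (x + h i) * ∏ j ∈ univ.erase i, r (x + h j) ≤ k * U := by
      rw [sum_comm]
      have : ∀ i ∈ (univ : Finset (Fin k)), ∑ h ∈ T, ∑ x ∈ Ioc X (2 * X), g (x + h i) *
          ∏ j ∈ univ.erase i, r (x + h j) ≤ U := by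
        intro i _
        refine (tup9_one H T hT (Ioc X (2 * X)) g r hg0 hr0 i).trans (le_of_eq ?_)
        rw [hU]
        exact sum_congr rfl fun x _ => by rw [hRt]
      refine (sum_le_sum this).trans (le_of_eq ?_)
      rw [sum_const, card_univ, Fintype.card_fin, nsmul_eq_mul]
    have b2 : ∑ h ∈ T, ∑ x ∈ Mis m H X A, ∏ j, r (x + h j) ≤ V := by
      refine (tup9_all H T hT (Mis m H X A) r hr0).trans (le_of_eq ?_)
      rw [hV]
      exact sum_congr rfl fun x _ => by rw [hRt]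
    have b3 : (k : ℝ) * P * ∑ h ∈ T, ∑ i, ∑ x ∈ Ioc X (2 * X), g (x + h i) * ∏ j ∈ univ.erase i, r (x + h j) ≤
        k * P * (k * U) := mul_le_mul_of_nonneg_left b1 (by positivity)
    have b4 : (k : ℝ) * P * ∑ h ∈ T, ∑ x ∈ Mis m H X A, ∏ j, r (x + h j) ≤ k * P * V :=
      mul_le_mul_of_nonneg_left b2 (by positivity)
    linarith

open Classical in
/-- a set which meets the clusters of length a small multiple of `log X` has a positive share of every structured weight -/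
theorem core9 (m q : ℕ) (hm : 1 ≤ m) : ∃ B₀ : ℕ, 2 ≤ B₀ ∧ ∀ B : ℕ, B₀ ≤ B → ∃ κ₀ : ℝ, 0 < κ₀ ∧ κ₀ ≤ 1 ∧
    ∀ κ δ : ℝ, 0 < κ → 0 < δ →
    ∃ c η : ℝ, 0 < c ∧ 0 < η ∧ ∃ X₀ : ℕ, ∀ X : ℕ, X₀ ≤ X → ∀ H : ℕ, (H : ℝ) ≤ κ₀ * Real.log X →
    κ * Real.log X ≤ H → ∀ A : Set ℕ, ((Mis m H X A).card : ℝ) ≤ η * X → ∀ φ : ℕ → ℝ, (∀ n, 0 ≤ φ n) →
    (∀ n ∈ Ioc X (3 * X), Rg (zX B X) n → φ n ≤ 1) → Wn X ((Real.log X) ^ q) φ →
    δ * X ≤ ∑ n ∈ Ioc X (2 * X), rz (zX B X) n * φ n →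
    c * X / Real.log X ≤ ∑ n ∈ (Ioc X (3 * X)).filter (fun n => n ∈ A ∧ n.Prime), φ n := by
  obtain ⟨J, k, C₁, hR⟩ := rat9 m hm
  obtain ⟨cw, hW⟩ := wk9 m J k C₁ hm hR
  have hk := hR.k1
  obtain ⟨K, hK⟩ : ∃ K, K = 3 * k + 1 := ⟨_, rfl⟩
  have hKp : ¬ (2 * K + 1).Prime := by
    have e : 2 * K + 1 = 3 * (2 * k + 1) := by omega
    rw [e]
    exact Nat.not_prime_mul (by omega) (by omega)
  obtain ⟨B₀, hB₀, hWB⟩ := hW K ((q + 2) * k + 3) hKp
  refine ⟨B₀, hB₀, fun B hB' => ?_⟩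
  have hB : 2 ≤ B := hB₀.trans hB'
  obtain ⟨κ₀, hκ₀, hκ₀1, X₁, hW1⟩ := hWB B hB'
  refine ⟨κ₀, hκ₀, hκ₀1, fun κ δ hκ0 hδ => ?_⟩
  obtain ⟨F, hF⟩ : ∃ F, F = (2 * K).factorial := ⟨_, rfl⟩
  have hF1 : 1 ≤ F := by
    rw [hF]
    exact Nat.one_le_iff_ne_zero.mpr (Nat.factorial_ne_zero _)
  obtain ⟨c₀, -, X₂, hmainR⟩ := hR.main K B hB
  have hb : ∃ X₁ : ℕ, ∀ X : ℕ, X₁ ≤ X → 1 ≤ bX C₁ J k B X := ⟨X₂, fun X hX => (hmainR X hX).1⟩
  obtain ⟨Cn, θ₀, hCn, hθ₀, hnon⟩ := non9 J k C₁ hR.J1 hk hR.kJ hR.C1 K B F (by omega) (by omega) hb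
  obtain ⟨c₁, hc₁⟩ : ∃ c₁ : ℝ, c₁ = (δ * κ / (8 * F)) ^ k := ⟨_, rfl⟩
  have hkR : (1 : ℝ) ≤ k := by exact_mod_cast hk
  have hFR : (1 : ℝ) ≤ F := by exact_mod_cast hF1
  have hc₁0 : 0 < c₁ := by
    rw [hc₁]
    positivity
  obtain ⟨θ, hθ⟩ : ∃ θ : ℝ, θ = min (min θ₀ 1) (c₁ / (4 * (k ^ 2 + k) * Cn)) := ⟨_, rfl⟩
  have hθ0 : 0 < θ := by
    rw [hθ]
    refine lt_min (lt_min hθ₀ one_pos) ?_
    positivity
  have hθ1 : θ ≤ θ₀ := by
    rw [hθ]
    exact (min_le_left _ _).trans (min_le_left _ _)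
  have hθ2 : θ ≤ 1 := by
    rw [hθ]
    exact (min_le_left _ _).trans (min_le_right _ _)
  have hθ3 : (k ^ 2 + k) * (Cn * θ) ≤ c₁ / 4 := by
    have h1 : θ ≤ c₁ / (4 * (k ^ 2 + k) * Cn) := by
      rw [hθ]
      exact min_le_right _ _
    rw [le_div_iff₀ (by positivity)] at h1
    linarith
  obtain ⟨X₃, hnon⟩ := hnon θ hθ0 hθ1
  obtain ⟨Cp, hCp, X₄, hptw⟩ := ptw9 J k C₁ hR.J1 hk hR.kJ hR.C1 B (by omega) θ hθ0
  obtain ⟨Cm1, hCm1, X₅, hmom1⟩ := mom9 (2 * (k - 1) + 1) θ hθ0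
  obtain ⟨Cm2, hCm2, X₆, hmom2⟩ := mom9 (2 * k) θ hθ0
  obtain ⟨X₇, hbig⟩ := core9_big k F m B hk (by omega) hF1 δ (4 * κ) c₁ hδ (by positivity) hc₁0
  obtain ⟨CV, hCV, hV1⟩ := num_V1 K
  refine ⟨(3 * c₁ / (8 * k ^ 2 * Cp)) ^ 2 / Cm1, (c₁ / (4 * k * Cp)) ^ 2 / Cm2, by positivity, by positivity,
    X₁ + X₂ + X₃ + X₄ + X₅ + X₆ + X₇, ?_⟩
  intro X hX H hH1 hH2 A hA φ hφ0 hφ1 hWn hsum
  obtain ⟨hX1, hL1, hz2, hzX, hκL, hLX, hFL, hLL, hnum, hE8⟩ := hbig X (by omega)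
  have hL0 : 0 < Real.log X := by linarith
  have hX0 : (0 : ℝ) < X := by exact_mod_cast hX1
  have hκz : 0 < kap (zX B X) := kap_pos _
  have hHL : (H : ℝ) ≤ Real.log X := by
    refine hH1.trans ?_
    nlinarith
  have e4κ : 4 * κ / 4 = κ := by ring
  rw [e4κ] at hFL hnum
  have hHX : H ≤ X := by exact_mod_cast hHL.trans hLX
  -- the tuples
  have hnice : ∀ h ∈ Tp k F H, Nice K (Om h) := fun h hh => tup9_nice (by omega) hF hh
  have hWT : ∀ h ∈ Tp k F H, Wk m k H (zX B X) X cw ((q + 2) * k + 3) (Om h) h (wt C₁ J k B X (Om h) h) := by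
    intro h hh
    obtain ⟨h1, h2, h3⟩ := tup9_mem hh
    exact hW1 X (by omega) H hH1 h h1 h2 (Om h) (hnice h hh) (tup9_cov h)
  have hmain : X * (δ * H / (8 * F)) ^ k ≤ ∑ h ∈ Tp k F H, ∑ x ∈ Ioc X (2 * X),
      ∏ i, (rz (zX B X) (x + h i) * φ (x + h i)) := by
    refine main9 k F H X hk hF1 hX1 ?_ hHX (fun n => rz (zX B X) n * φ n) (kap (zX B X))⁻¹ δ ?_ ?_ hδ
      (by positivity) hsum ?_ ?_
    · have : 2 * (F : ℝ) ≤ H := hFL.trans hH2
      exact_mod_cast this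
    · intro n
      refine mul_nonneg ?_ (hφ0 n)
      unfold rz
      split_ifs
      · positivity
      · exact le_rfl
    · intro n hn
      show rz (zX B X) n * φ n ≤ _
      unfold rz
      split_ifs with h1
      · calc (kap (zX B X))⁻¹ * φ n ≤ (kap (zX B X))⁻¹ * 1 :=
              mul_le_mul_of_nonneg_left (hφ1 n hn h1) (by positivity)
          _ = _ := mul_one _
      · rw [zero_mul]
        positivity
    · refine le_trans ?_ hLL
      have h1 : (kap (zX B X))⁻¹ ≤ Real.log X := by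
        rw [inv_le_comm₀ hκz hL0]
        rw [one_div] at hκL
        exact hκL
      gcongr
    · refine hnum.trans ?_
      exact mul_le_mul_of_nonneg_right hH2 (by positivity)
  have hlow : c₁ * X * (Real.log X) ^ k ≤ X * (δ * H / (8 * F)) ^ k := by
    have h1 : δ * κ / (8 * F) * Real.log X ≤ δ * H / (8 * F) := by
      have e1 : δ * κ / (8 * F) * Real.log X = δ * (κ * Real.log X) / (8 * F) := by
        field_simp
      rw [e1]
      gcongr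
    calc c₁ * X * (Real.log X) ^ k = X * (δ * κ / (8 * F) * Real.log X) ^ k := by
          rw [mul_pow, hc₁]
          ring
      _ ≤ _ := by gcongr
  obtain ⟨U, V, hU0, hV0, hU, hV, hUV⟩ := core9_tuples (J := J) (C₁ := C₁) (m := m) hk (Tp k F H) (tup9_sub k F H)
    (fun h hh => (hV1 (Om h) (hnice h hh) _ hz2).1) (fun h hh => by
      have h1 := hV1 (Om h) (hnice h hh) _ hz2
      exact (one_le_inv₀ h1.1).1 h1.2.1) hκz (hmainR X (by omega)).1 hL1 hκL hWT hHX A φ hφ0 hφ1 hWn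
    ⌊(X : ℝ) ^ θ⌋₊ (by
      have h1 : ((⌊(X : ℝ) ^ θ⌋₊ : ℕ) : ℝ) ≤ X := by
        refine (Nat.floor_le (by positivity)).trans ?_
        calc (X : ℝ) ^ θ ≤ (X : ℝ) ^ (1 : ℝ) :=
              Real.rpow_le_rpow_of_exponent_le (by exact_mod_cast hX1) hθ2
          _ = X := Real.rpow_one _
      exact_mod_cast h1) hzX (Cp * (Real.log X) ^ k) (by positivity) (fun h hh x hx hxy => by
      have h1 := hptw X (by omega) h (fun i => by
        have h2 := ((tup9_mem hh).2.1 i).2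
        have h3 : (h i : ℝ) ≤ H := by exact_mod_cast h2
        exact h3.trans hHL) x hx hxy
      linarith) (c₁ / 4 * X * (Real.log X) ^ k) ((2 * k + m) / (Real.log X) ^ 2 * X * (Real.log X) ^ k)
    (by
      have h1 := hnon X (by omega) H hHL hnice
      have h2 : ((k : ℝ) ^ 2 + k) * ∑ h ∈ Tp k F H, ∑ x ∈ (Pre (Om h) (zX B X) X).filter
          (fun x => ∃ i, ¬ Rg ⌊(X : ℝ) ^ θ⌋₊ (x + h i)),
          (Fs C₁ J k B X h x) ^ 2 / (kap (zX B X) * bX C₁ J k B X) ^ k ≤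
          ((k : ℝ) ^ 2 + k) * (Cn * θ * X * (Real.log X) ^ k) := mul_le_mul_of_nonneg_left h1 (by positivity)
      refine h2.trans ?_
      calc ((k : ℝ) ^ 2 + k) * (Cn * θ * X * (Real.log X) ^ k) =
          ((k ^ 2 + k) * (Cn * θ)) * (X * (Real.log X) ^ k) := by ring
        _ ≤ c₁ / 4 * (X * (Real.log X) ^ k) := mul_le_mul_of_nonneg_right hθ3 (by positivity)
        _ = _ := by ring)
    (by
      have h1 : ((Tp k F H).card : ℝ) ≤ (Real.log X) ^ k :=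
        (tup9_card k F H).trans (pow_le_pow_left₀ (by positivity) hHL k)
      have h2 : (k : ℝ) + m + k * H ≤ (2 * k + m) * Real.log X := by
        have e1 : (k : ℝ) ≤ k * Real.log X := le_mul_of_one_le_right (by positivity) hL1
        have e2 : (m : ℝ) ≤ m * Real.log X := le_mul_of_one_le_right (by positivity) hL1
        have e3 : (k : ℝ) * H ≤ k * Real.log X := by gcongr
        linarith
      calc ((Tp k F H).card : ℝ) * ((Real.log X) ^ k * (((k : ℝ) + m + k * H) * (((Real.log X) ^ q) ^ k *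
            (X / (Real.log X) ^ ((q + 2) * k + 3))))) ≤
          (Real.log X) ^ k * ((Real.log X) ^ k * (((2 * k + m) * Real.log X) * (((Real.log X) ^ q) ^ k *
            (X / (Real.log X) ^ ((q + 2) * k + 3))))) := by gcongr
        _ = (2 * k + m) / (Real.log X) ^ 2 * X := by
            have e1 : (Real.log X) ^ ((q + 2) * k + 3) = (Real.log X) ^ k * (Real.log X) ^ k * ((Real.log X) ^ q) ^ k *
                Real.log X * (Real.log X) ^ 2 := by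
              rw [← pow_mul]
              ring
            rw [e1]
            have e2 : ((Real.log X) ^ q) ^ k ≠ 0 := by positivity
            field_simp
        _ ≤ _ := le_mul_of_one_le_right (by positivity) (one_le_pow₀ hL1))
  have hLk : 0 < (Real.log X) ^ k := by positivity
  rw [sum_filter]
  refine core9_num c₁ X (Real.log X) _ U V k Cp Cm1 Cm2 (c₁ / 4 * X) ((2 * k + m) / (Real.log X) ^ 2 * X)
    hc₁0 hX0 hL0 hkR hCp hCm1 hCm2 hU0 hV0 ?_ ?_ le_rfl ?_ ?_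
  · refine hU.trans ?_
    have h1 := hmom1 X (by omega) H hHL
    have hS0 : 0 ≤ ∑ n ∈ Ioc X (3 * X), (if n ∈ A ∧ n.Prime then φ n else 0) := by
      refine sum_nonneg fun n _ => ?_
      split_ifs
      · exact hφ0 n
      · exact le_rfl
    refine mul_le_mul ?_ h1 (sum_nonneg fun x _ => by positivity) (by positivity)
    exact mul_le_mul_of_nonneg_right hHL hS0
  · refine hV.trans ?_
    have h1 := hmom2 X (by omega) H hHL
    exact mul_le_mul hA h1 (sum_nonneg fun x _ => by positivity) (by positivity)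
  · exact mul_le_mul_of_nonneg_right hE8 hX0.le
  · have h1 := (hlow.trans hmain).trans hUV
    have h2 : c₁ * X * (Real.log X) ^ k ≤ (c₁ / 4 * X + k ^ 2 * Cp * U + k * Cp * V +
        (2 * k + m) / (Real.log X) ^ 2 * X) * (Real.log X) ^ k := by
      refine h1.trans (le_of_eq ?_)
      ring
    exact le_of_mul_le_mul_right h2 hLk

end Pool.Agent.Lib.SH
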