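import Pool.Agent.Lib.SG.Defs7
import Pool.Agent.Lib.SG.Pars
import Pool.Agent.Lib.SG.Phi

/-!
# SH-Def8: definitions (helper10)

`Wn X Q φ`: multiplication by the shifts of `φ` increases exponential sums over `(X, 2X]` at most by the factor `Q`.
`Wh`: the properties of the Maynard-Tao weights which are used; `u t` is a majorant of the weights on which `x + t` is prime.
-/

set_option autoImplicit false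

open Finset

namespace Pool.Agent.Lib.SH

open Pool.Agent.Lib.MT Pool.Agent.Lib.SG

/-- multiplication by the shifts of `φ` increases exponential sums at most by the factor `Q` -/
def Wn (X : ℕ) (Q : ℝ) (φ : ℕ → ℝ) : Prop :=
  ∀ (t : ℕ) (D : ℕ → ℝ) (δ : ℝ), t ≤ X → (∀ α : ℝ, ‖ES D X α‖ ≤ δ) →
    ∀ α : ℝ, ‖ES (fun x => D x * φ (x + t)) X α‖ ≤ Q * δ

structure Wh (m k H z X c a : ℕ) (Ω : ℕ → Finset ℕ) (h : Fin k → ℕ) (w : ℕ → ℝ) (v : Fin k → ℕ → ℝ)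
    (u : ℕ → ℕ → ℝ) (M : ℝ) (M' : Fin k → ℝ) (M'' : ℕ → ℝ) (κ : ℝ) : Prop where
  w0 : ∀ x, 0 ≤ w x
  ws : ∀ x, x ∉ Pre Ω z X → w x = 0
  v0 : ∀ i x, 0 ≤ v i x
  vw : ∀ i x, v i x ≤ w x
  vp : ∀ i x, v i x ≠ 0 → (x + h i).Prime
  l2 : ∑ x ∈ Ioc X (2 * X), (w x) ^ 2 ≤ X * (Real.log X) ^ c
  M0 : 0 ≤ M
  M1 : M ≤ 1 + κ
  M'0 : ∀ i, 0 ≤ M' i
  M'2 : (m : ℝ) + 1 - κ ≤ ∑ i, M' i
  clw : ∀ α : ℝ, ‖ES w X α - M * ES (SG.mu Ω z X) X α‖ ≤ X / (Real.log X) ^ a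
  clv : ∀ i, ∀ α : ℝ, ‖ES (v i) X α - M' i * ES (SG.mu Ω z X) X α‖ ≤ X / (Real.log X) ^ a
  u0 : ∀ t x, 0 ≤ u t x
  uw : ∀ t, 1 ≤ t → t ≤ H → (∀ i, t ≠ h i) → ∀ x ∈ Ioc X (2 * X), (x + t).Prime → w x ≤ u t x
  clu : ∀ t, 1 ≤ t → t ≤ H → (∀ i, t ≠ h i) → M'' t ≤ κ ∧
    ∀ α : ℝ, ‖ES (u t) X α - M'' t * ES (SG.mu Ω z X) X α‖ ≤ X / (Real.log X) ^ a

end Pool.Agent.Lib.SH
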