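import Pool.Agent.Lib.SH.Wn8
import Pool.Agent.Lib.SH.Def8
import Pool.Agent.Lib.SG.Amft
import Pool.Agent.Lib.BV.Defs

/-!
# SH-Def9: definitions for clusters of length up to a constant times log X (helper10)

`zX`, `RX`, `lX`, `bX`: the parameters of the Maynard-Tao sieve. `Fs`: the Maynard-Tao sum. `wt`: the weights, normalised.
`RatP`: the properties of the weights proved in Rat8 (with the parameters `J`, `k`, `C₁`).
`Mis m H X A`: the `x` in `(X, 2X]` with at least `m` primes in `(x, x + H]` but none in `A`.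
`Wk`: the properties of a weight which are used. `Tp k F H`: injective tuples of multiples of `F` in `[1, H]`.
`Ij s H`: all injective tuples in `[1, H]`. `Og K t`: the classes of the `-t j`, for `p > 2K` only. `Rg y n`: no prime factor `≤ y`.
-/

set_option autoImplicit false

open Finset

namespace Pool.Agent.Lib.SH

open Pool.Agent.Lib.MT Pool.Agent.Lib.SG

noncomputable def zX (B X : ℕ) : ℕ := ⌊(Real.log X) ^ B⌋₊

noncomputable def RX (X : ℕ) : ℕ := ⌊(X : ℝ) ^ (1 / 1000 : ℝ)⌋₊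

noncomputable def lX (C₁ : ℝ) (J k X : ℕ) : ℝ := Real.log (RX X) / (16 * C₁ * J * k)

noncomputable def bX (C₁ : ℝ) (J k B X : ℕ) : ℝ := BB (PP (zX B X) (RX X)) (gg J (lX C₁ J k X))

/-- the Maynard-Tao sum -/
noncomputable def Fs (C₁ : ℝ) (J k B X : ℕ) (h : Fin k → ℕ) (x : ℕ) : ℝ :=
  FF h (lam (zz (gg J (lX C₁ J k X)) (RX X) : Col (PP (zX B X) (RX X)) (Fin k) → ℝ)) x

open Classical in
/-- the weights, with mass about `X` -/
noncomputable def wt (C₁ : ℝ) (J k B X : ℕ) (Ω : ℕ → Finset ℕ) (h : Fin k → ℕ) (x : ℕ) : ℝ :=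
  if x ∈ Pre Ω (zX B X) X then (Fs C₁ J k B X h x) ^ 2 / (V1 Ω (zX B X) * bX C₁ J k B X ^ k) else 0

/-- the parameters of the Maynard-Tao sieve -/
structure RatP (m J k : ℕ) (C₁ : ℝ) : Prop where
  J1 : 1 ≤ J
  k1 : 1 ≤ k
  kJ : k = 2 ^ J
  C1 : 1 ≤ C₁
  main : ∀ K B : ℕ, 2 ≤ B → ∃ c : ℝ, 0 < c ∧ ∃ X₀ : ℕ, ∀ X : ℕ, X₀ ≤ X →
    1 ≤ bX C₁ J k B X ∧
    ∀ h : Fin k → ℕ, Function.Injective h → (∀ i, (h i : ℝ) ≤ Real.log X) →
    ∀ Ω : ℕ → Finset ℕ, Nice K Ω →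
    ∑ x ∈ Pre Ω (zX B X) X, (Fs C₁ J k B X h x) ^ 2 ≤
      X * V1 Ω (zX B X) * bX C₁ J k B X ^ k + (X : ℝ) ^ (1 - c) ∧
    (Cov Ω h → ∀ i, X * V1 Ω (zX B X) * bX C₁ J k B X ^ k * ((m + 1) / k) * Real.log (3 * X) -
        X / (Real.log X) ^ 3 ≤
      ∑ x ∈ Pre Ω (zX B X) X, (Fs C₁ J k B X h x) ^ 2 * BV.th (x + h i)) ∧
    ∀ t : ℕ, 1 ≤ t → (t : ℝ) ≤ Real.log X → (∀ i, t ≠ h i) →
      ∃ u : Col (PP (zX B X) (RX X)) (Option (Fin k)) → ℝ, (∀ τ, |u τ| ≤ 1) ∧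
        (∀ τ, u τ ≠ 0 → tot τ ≤ RX X * RX X) ∧
        (∀ x ∈ Ioc X (2 * X), (x + t).Prime → FF (fun o : Option (Fin k) => o.elim t h) (lam u) x =
          Fs C₁ J k B X h x) ∧
        ∑ x ∈ Pre Ω (zX B X) X, (FF (fun o : Option (Fin k) => o.elim t h) (lam u) x) ^ 2 ≤
          X * V1 Ω (zX B X) * (4 * bX C₁ J k B X ^ k / (kap (zX B X) * Real.log (RX X))) +
            (X : ℝ) ^ (1 - c)

open Classical in
/-- the `x` whose cluster is missed by `A` -/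
noncomputable def Mis (m H X : ℕ) (A : Set ℕ) : Finset ℕ :=
  (Ioc X (2 * X)).filter fun x => m ≤ ((Ioc x (x + H)).filter Nat.Prime).card ∧
    ¬ ∃ p ∈ A, p.Prime ∧ x < p ∧ p ≤ x + H

/-- a test function with constant `Q` -/
def Tst (X : ℕ) (Q : ℝ) (ψ : ℕ → ℝ) : Prop :=
  ∀ (D : ℕ → ℝ) (δ : ℝ), (∀ α : ℝ, ‖ES D X α‖ ≤ δ) → |∑ x ∈ Ioc X (2 * X), D x * ψ x| ≤ Q * δ

structure Wk (m k H z X c a : ℕ) (Ω : ℕ → Finset ℕ) (h : Fin k → ℕ) (w : ℕ → ℝ) : Prop where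
  w0 : ∀ x, 0 ≤ w x
  ws : ∀ x, x ∉ Pre Ω z X → w x = 0
  l2 : ∑ x ∈ Ioc X (2 * X), (w x) ^ 2 ≤ X * (Real.log X) ^ c
  l1 : ∑ x ∈ Ioc X (2 * X), w x ≤ 2 * X
  main : ∀ (A : Set ℕ) (ψ : ℕ → ℝ), (∀ x, 0 ≤ ψ x) → ∀ Q : ℝ, 0 ≤ Q → Tst X Q ψ →
    ∑ x ∈ Ioc X (2 * X), SG.mu Ω z X x * ψ x ≤
      k * ∑ i, ∑ x ∈ Ioc X (2 * X), fa A h w i x * ψ x + k * ∑ x ∈ Mis m H X A, w x * ψ x +
        (k + m + k * H) * (Q * (X / (Real.log X) ^ a))

/-- injective tuples of multiples of `F` in `[1, H]` -/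
noncomputable def Tp (k F H : ℕ) : Finset (Fin k → ℕ) :=
  open Classical in
  (Fintype.piFinset fun _ : Fin k => (Icc 1 H).filter fun t => F ∣ t).filter fun t => Function.Injective t

/-- injective tuples in `[1, H]` -/
noncomputable def Ij (s H : ℕ) : Finset (Fin s → ℕ) :=
  open Classical in
  (Fintype.piFinset fun _ : Fin s => Icc 1 H).filter fun t => Function.Injective t

/-- the classes of the `-t j`, for `p > 2K` only -/
noncomputable def Og (K : ℕ) {s : ℕ} (t : Fin s → ℕ) (p : ℕ) : Finset ℕ := if p ≤ 2 * K then ∅ else Om t p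

/-- no prime factor `≤ y` -/
def Rg (y n : ℕ) : Prop := ∀ p ∈ PP 0 y, ¬ p ∣ n

/-- the number of `t ≤ H` such that `x + t` has no prime factor in `(K, z]` -/
noncomputable def Nt (K z H x : ℕ) : ℕ :=
  open Classical in ((Icc 1 H).filter fun t => ∀ p ∈ PP K z, ¬ p ∣ x + t).card

/-- the number of `t ≤ H` such that `x + t` has no prime factor `≤ y` -/
noncomputable def Rt (y H x : ℕ) : ℕ :=
  open Classical in ((Icc 1 H).filter fun t => Rg y (x + t)).card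

end Pool.Agent.Lib.SH
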