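import Pool.Agent.Lib.SH.Def9
import Pool.Agent.Lib.MP_7b7e48_nt.GT.RoughCount
import Pool.Agent.Lib.SG.Num

/-!
# SH-Dsh9 (45 minutes): rough numbers in multiplicatively short intervals

PROOF. `s ↦ pr s` is injective on sets of primes, its values are integers `r` whose prime factors are all `> z` (`GT.Rough z r`) with `Y < r ≤ q Y`, `Y := max (y/q) Y₀ ≥ z` (`y ≤ q Y`).
Cut `(Y, qY]` into `(2^i Y, 2^(i+1) Y]`, `0 ≤ i ≤ log q/log 2`: the sum of `1/r` over the rough `r` in one piece is at most `(1/(2^i Y)) * C (2^i Y + 1)/log z ≤ 2C/log z`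
(`GT.rough_count`: interval `(⌊2^i Y⌋, ⌊2^(i+1) Y⌋]`, length `≤ 2^i Y + 1`, and we may enlarge it to a length `≥ z`: use `L = ⌊2^i Y⌋ + 1`), so the sum is `≤ (log q/log 2 + 1) 2C/log z ≤ C' log q/log z`,
and `1/log z ≤ C'' kap z` (`GT.V_inv_le`, `kap z = GT.V z`).
-/

set_option autoImplicit false

open Finset

namespace Pool.Agent.Lib.SH

open Pool.Agent.Lib.MT Pool.Agent.Lib.SG

private theorem Dsh9_piece {C : ℝ} (hC : 0 < C) {z : ℕ} (hz : 2 ≤ z)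
    (hr : ∀ A L : ℕ, z ≤ L → (((Ioc A (A + L)).filter (GT.Rough z)).card : ℝ) ≤ C * L / Real.log z)
    {W : ℝ} (hW : (z : ℝ) ≤ W) (T : Finset ℕ)
    (hT : ∀ r ∈ T, GT.Rough z r ∧ W < (r : ℝ) ∧ (r : ℝ) ≤ 2 * W) :
    ∑ r ∈ T, 1 / (r : ℝ) ≤ 2 * C / Real.log z := by
  have hz2 : (2 : ℝ) ≤ z := by exact_mod_cast hz
  have hlz : 0 < Real.log z := Real.log_pos (by linarith)
  have hW0 : 0 < W := by linarith
  have h1 : ∑ r ∈ T, 1 / (r : ℝ) ≤ (T.card : ℝ) * (1 / W) := by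
    rw [← nsmul_eq_mul, ← sum_const]
    refine sum_le_sum fun r hr' => ?_
    exact one_div_le_one_div_of_le hW0 (hT r hr').2.1.le
  have h2 : T ⊆ (Ioc ⌊W⌋₊ (⌊W⌋₊ + (⌊W⌋₊ + 1))).filter (GT.Rough z) := by
    intro r hr'
    obtain ⟨a, b, c⟩ := hT r hr'
    rw [mem_filter, mem_Ioc]
    refine ⟨⟨(Nat.floor_lt hW0.le).2 b, ?_⟩, a⟩
    have h3 : W < ⌊W⌋₊ + 1 := Nat.lt_floor_add_one W
    have h4 : (r : ℝ) < ((⌊W⌋₊ + (⌊W⌋₊ + 1) + 1 : ℕ) : ℝ) := by
      push_cast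
      linarith
    have h5 : r < ⌊W⌋₊ + (⌊W⌋₊ + 1) + 1 := by exact_mod_cast h4
    omega
  have h6 : z ≤ ⌊W⌋₊ + 1 := by
    have : z ≤ ⌊W⌋₊ := Nat.le_floor hW
    omega
  have h7 : (T.card : ℝ) ≤ C * ((⌊W⌋₊ + 1 : ℕ) : ℝ) / Real.log z := by
    refine le_trans ?_ (hr ⌊W⌋₊ (⌊W⌋₊ + 1) h6)
    exact_mod_cast card_le_card h2
  have h8 : ((⌊W⌋₊ + 1 : ℕ) : ℝ) ≤ 2 * W := by
    push_cast
    have := Nat.floor_le hW0.le
    linarith
  refine h1.trans ?_
  calc (T.card : ℝ) * (1 / W) ≤ (C * (2 * W) / Real.log z) * (1 / W) := by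
        apply mul_le_mul_of_nonneg_right _ (by positivity)
        refine h7.trans ?_
        apply div_le_div_of_nonneg_right _ hlz.le
        exact mul_le_mul_of_nonneg_left h8 hC.le
    _ = 2 * C / Real.log z := by
        field_simp

private theorem Dsh9_sum {C : ℝ} (hC : 0 < C) {z : ℕ} (hz : 2 ≤ z)
    (hr : ∀ A L : ℕ, z ≤ L → (((Ioc A (A + L)).filter (GT.Rough z)).card : ℝ) ≤ C * L / Real.log z)
    {Y : ℝ} (hY : (z : ℝ) ≤ Y) (I : ℕ) : ∀ T : Finset ℕ,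
    (∀ r ∈ T, GT.Rough z r ∧ Y < (r : ℝ) ∧ (r : ℝ) ≤ 2 ^ I * Y) →
    ∑ r ∈ T, 1 / (r : ℝ) ≤ I * (2 * C / Real.log z) := by
  have hz2 : (2 : ℝ) ≤ z := by exact_mod_cast hz
  have hY0 : 0 < Y := by linarith
  induction I with
  | zero =>
    intro T hT
    have : T = ∅ := by
      rw [eq_empty_iff_forall_notMem]
      intro r hr'
      obtain ⟨_, b, c⟩ := hT r hr'
      rw [pow_zero, one_mul] at c
      exact absurd b (not_lt.2 c)
    subst this
    simp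
  | succ I ih =>
    intro T hT
    classical
    rw [← sum_filter_add_sum_filter_not T (fun r => (r : ℝ) ≤ 2 ^ I * Y)]
    have h1 := ih (T.filter (fun r => (r : ℝ) ≤ 2 ^ I * Y)) (fun r hr' => by
      rw [mem_filter] at hr'
      obtain ⟨a, b, c⟩ := hT r hr'.1
      exact ⟨a, b, hr'.2⟩)
    have h2 := Dsh9_piece hC hz hr (W := 2 ^ I * Y) (by
        have : (1 : ℝ) ≤ 2 ^ I := one_le_pow₀ (by norm_num)
        nlinarith) (T.filter (fun r => ¬ (r : ℝ) ≤ 2 ^ I * Y)) (fun r hr' => by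
      rw [mem_filter, not_le] at hr'
      obtain ⟨a, b, c⟩ := hT r hr'.1
      refine ⟨a, hr'.2, ?_⟩
      rw [pow_succ] at c
      linarith)
    push_cast
    linarith

private theorem Dsh9_prime {z R p : ℕ} (h : p ∈ PP z R) : p.Prime ∧ z < p := by
  unfold PP at h
  exact (mem_filter.1 h).2

private theorem Dsh9_rough {z R : ℕ} {s : Finset ℕ} (hs : s ⊆ PP z R) : GT.Rough z (MT.pr s) := by
  intro p hp hd
  unfold MT.pr at hd
  obtain ⟨r, hr, hpr⟩ := (hp.prime.dvd_finset_prod_iff _).1 hd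
  obtain ⟨h1, h2⟩ := Dsh9_prime (hs hr)
  rw [(Nat.prime_dvd_prime_iff_eq hp h1).1 hpr]
  exact h2

private theorem Dsh9_inj {z R : ℕ} {s t : Finset ℕ} (hs : s ⊆ PP z R) (ht : t ⊆ PP z R)
    (h : MT.pr s = MT.pr t) : s = t := by
  have key : ∀ u : Finset ℕ, u ⊆ PP z R → (MT.pr u).primeFactors = u := by
    intro u hu
    unfold MT.pr
    exact Nat.primeFactors_prod (fun p hp => (Dsh9_prime (hu hp)).1)
  rw [← key s hs, ← key t ht, h]

theorem dsh9 : ∃ C : ℝ, 0 < C ∧ ∀ z R q : ℕ, 2 ≤ z → 2 ≤ q → ∀ y Y₀ : ℝ, (z : ℝ) ≤ Y₀ →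
    ∑ s ∈ (PP z R).powerset.filter (fun s => y / q < (MT.pr s : ℝ) ∧ (MT.pr s : ℝ) ≤ y ∧ Y₀ < (MT.pr s : ℝ)),
      1 / (MT.pr s : ℝ) ≤ C * kap z * Real.log q := by
  classical
  obtain ⟨C, hC, h1⟩ := GT.rough_count
  obtain ⟨C', hC', h2⟩ := num_kap
  refine ⟨2 / Real.log 2 * (2 * C) * C', ?_, fun z R q hz hq y Y₀ hY => ?_⟩
  · have : 0 < Real.log 2 := Real.log_pos (by norm_num)
    have : 0 < C' := by linarith
    positivity
  have hz2 : (2 : ℝ) ≤ z := by exact_mod_cast hz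
  have hq2 : (2 : ℝ) ≤ q := by exact_mod_cast hq
  have hlz : 0 < Real.log z := Real.log_pos (by linarith)
  have hl2 : 0 < Real.log 2 := Real.log_pos (by norm_num)
  have hlq : 0 < Real.log q := Real.log_pos (by linarith)
  have hC'0 : 0 < C' := by linarith
  set S := (PP z R).powerset.filter
    (fun s => y / q < (MT.pr s : ℝ) ∧ (MT.pr s : ℝ) ≤ y ∧ Y₀ < (MT.pr s : ℝ)) with hS
  set Y : ℝ := max (y / q) Y₀ with hYdef
  have hYz : (z : ℝ) ≤ Y := hY.trans (le_max_right _ _)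
  have hY0 : 0 < Y := by linarith
  have hmem : ∀ s ∈ S, s ⊆ PP z R ∧ y / q < (MT.pr s : ℝ) ∧ (MT.pr s : ℝ) ≤ y ∧
      Y₀ < (MT.pr s : ℝ) := by
    intro s hs
    rw [hS, mem_filter, mem_powerset] at hs
    exact hs
  have e1 : ∑ s ∈ S, 1 / (MT.pr s : ℝ) = ∑ r ∈ S.image MT.pr, 1 / (r : ℝ) := by
    rw [sum_image]
    intro s hs t ht h
    exact Dsh9_inj (hmem s hs).1 (hmem t ht).1 h
  rw [e1]
  have hq1 : (q : ℝ) ≤ 2 ^ (Nat.clog 2 q) := by
    exact_mod_cast Nat.le_pow_clog (by norm_num) q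
  have e2 := Dsh9_sum hC hz (h1 z hz) hYz (Nat.clog 2 q) (S.image MT.pr) (by
    intro r hr
    obtain ⟨s, hs, rfl⟩ := mem_image.1 hr
    obtain ⟨a, b, c, d⟩ := hmem s hs
    refine ⟨Dsh9_rough a, max_lt b d, c.trans ?_⟩
    have h3 : y ≤ q * Y := by
      have h4 : y / q ≤ Y := le_max_left _ _
      rw [div_le_iff₀ (by linarith)] at h4
      linarith
    exact h3.trans (mul_le_mul_of_nonneg_right hq1 hY0.le))
  refine e2.trans ?_
  have h5 : (Nat.clog 2 q : ℝ) ≤ 2 / Real.log 2 * Real.log q := by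
    have h6 : 2 ^ (Nat.clog 2 q - 1) < q := Nat.pow_pred_clog_lt_self (by norm_num) (by omega)
    have h7 : (2 : ℝ) ^ (Nat.clog 2 q - 1) ≤ q := by exact_mod_cast h6.le
    have h8 : 1 ≤ Nat.clog 2 q := Nat.clog_pos (by norm_num) (by omega)
    have h9 := Real.log_le_log (by positivity) h7
    rw [Real.log_pow, Nat.cast_sub h8] at h9
    have h10 : Real.log 2 ≤ Real.log q := Real.log_le_log (by norm_num) hq2
    have h11 : (Nat.clog 2 q : ℝ) * Real.log 2 ≤ 2 * Real.log q := by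
      push_cast at h9
      linarith
    rw [div_mul_eq_mul_div, le_div_iff₀ hl2]
    exact h11
  have h12 : 1 / Real.log z ≤ C' * kap z := by
    obtain ⟨a, b⟩ := h2 z hz
    have hk : 0 < kap z := by
      by_contra hcon
      have : (kap z)⁻¹ ≤ 0 := inv_nonpos.2 (not_lt.1 hcon)
      linarith
    rw [div_le_iff₀ hlz]
    have := mul_le_mul_of_nonneg_left b hk.le
    rw [mul_inv_cancel₀ hk.ne'] at this
    linarith
  calc (Nat.clog 2 q : ℝ) * (2 * C / Real.log z)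
      = (Nat.clog 2 q : ℝ) * ((2 * C) * (1 / Real.log z)) := by ring
    _ ≤ (2 / Real.log 2 * Real.log q) * ((2 * C) * (C' * kap z)) := by
        apply mul_le_mul h5 _ (by positivity) (by positivity)
        exact mul_le_mul_of_nonneg_left h12 (by positivity)
    _ = 2 / Real.log 2 * (2 * C) * C' * kap z * Real.log q := by ring

end Pool.Agent.Lib.SH
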