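import Pool.Agent.Lib.SH.Def9
import Pool.Agent.Lib.MTR.FL
import Pool.Agent.Lib.MP_092512_nt.P3.B5
import Pool.Agent.Lib.MP_7b7e48_nt.GT.RoughCount
import Pool.Agent.Lib.SG.Num
import Pool.Agent.Lib.SG.RNum6

/-!
# SH-Mid9 (75 minutes): upper bounds for the primes p such that 2p - n is rough, or prime

PROOF. As in SH/Rgh9.lean (copy its private lemmas rgh9_cnt, rgh9_sieve, rgh9_split with the prefix mid9_), `K = 2`, `s'` the constant of `MTR.fl 2`, `y = ⌊X^(1/(8 s'))⌋`, `z = zX B X ≤ y`,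
`Q = PP 8 y`. For a prime `q > 8` put `Ω q = {0} ∪ {c < q : q ∣ 2 c + (q - n % q)}` (i.e. `2c ≡ n`), at most 2 classes (`q` odd), if `q ≤ w`, and `Ω q = {0}` if `q > w`, where
`w = z` for the first bound and `w = y` for the second. A prime `p ∈ (X, 2X]` with `2p - n` free of primes `≤ z` (resp. prime and `> X ≥ y`) satisfies `p % q ∉ Ω q` for all `q ∈ Q`.
Count `≤ 2X ∏_{q ∈ Q} (1 - #(Ω q)/q) + X^(1/2)`. For `q ≤ z` (`Rg z n`: `q ∤ n`) the two classes are different, `1 - 2/q ≤ (1 - 1/q)^2`;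
for `q > z` with `q ∤ n` the same; for `q > z`, `q ∣ n`: `1 - 1/q ≤ (1 - 1/q)^2 (1 + 2/q)` (as `q ≥ 2`), and `∏_{q ∣ n, z < q} (1 + 2/q) ≤ exp (2 ω/z)`, where `ω = #{q ∣ n} ≤ log (3X)/log 2`, `z ≥ log X - 1`: at most a constant.
So the first product is `≤ C kap z * kap y` (constant: the primes `≤ 8`), the second `≤ C (kap y)^2`; `kap y = GT.V y ≤ 1/log y ≤ 2 * 8 s'/log X` (see Rgh9). `X^(1/2) ≤ X/(log X)^2 ≤ kap z X/log X` for `X` large (`kap_low B`).
-/

set_option autoImplicit false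

open Finset

namespace Pool.Agent.Lib.SH

open Pool.Agent.Lib.MT Pool.Agent.Lib.SG

private theorem mid9_cnt (d : Finset ℕ) (hd : ∀ p ∈ d, p.Prime) (Ω : ℕ → Finset ℕ)
    (hΩ : ∀ p ∈ d, ∀ c ∈ Ω p, c < p) (x : ℕ) :
    |((((Ioc x (2 * x)).filter (fun n => ∀ p ∈ d, n % p ∈ Ω p)).card : ℝ)) -
        x * (∏ p ∈ d, ((Ω p).card : ℝ) / p)| ≤ ∏ p ∈ d, ((Ω p).card : ℝ) := by
  have h := Pool.Agent.Lib.MP_092512_nt.P3.B.count_int (k := 0) (fun _ => 0) (fun _ => 1)
    (fun i => i.elim0) (fun i => i.elim0) d hd Ω hΩ (fun p _ i => i.elim0) x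
  have e : (Ioc x (2 * x)).filter (fun n => (∀ p ∈ d, n % p ∈ Ω p) ∧ ∀ i : Fin 0, 1 ∣ n + 0) =
      (Ioc x (2 * x)).filter (fun n => ∀ p ∈ d, n % p ∈ Ω p) := by
    apply filter_congr
    intro n _
    exact ⟨fun h => h.1, fun h => ⟨h, fun i => i.elim0⟩⟩
  rw [e, Fin.prod_univ_zero, mul_one] at h
  exact h

private lemma mid9_sieve (s' y X : ℕ) (Q : Finset ℕ) (hQ : ∀ q ∈ Q, q.Prime) (D : Finset (Finset ℕ))
    (cp : Finset ℕ → ℝ) (hD : ∀ d ∈ D, d ⊆ Q ∧ ∏ q ∈ d, q ≤ y ^ s') (M : ℝ) (hM : 0 ≤ M)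
    (hcp : ∀ d ∈ D, |cp d| ≤ M) (Ω : ℕ → Finset ℕ) (hΩ : ∀ q ∈ Q, ∀ c ∈ Ω q, c < q) :
    ∑ x ∈ Ioc X (2 * X), MTR.Lm D cp Ω x ≤
      X * MTR.Gm D cp (fun q => ((Ω q).card : ℝ) / q) + M * ((y : ℝ) ^ s' * (y : ℝ) ^ s') := by
  classical
  have hpr : ∀ d ∈ D, ∏ q ∈ d, ((Ω q).card : ℝ) ≤ (y : ℝ) ^ s' := by
    intro d hd
    have h1 : ∏ q ∈ d, ((Ω q).card : ℝ) ≤ ∏ q ∈ d, (q : ℝ) := by
      refine Finset.prod_le_prod (fun q _ => Nat.cast_nonneg _) fun q hq => ?_
      have h2 : (Ω q).card ≤ q := by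
        calc (Ω q).card ≤ (range q).card :=
              card_le_card fun c hc => mem_range.2 (hΩ q ((hD d hd).1 hq) c hc)
          _ = q := card_range q
      exact_mod_cast h2
    refine h1.trans ?_
    have h3 := (hD d hd).2
    have h4 : ((∏ q ∈ d, q : ℕ) : ℝ) ≤ ((y ^ s' : ℕ) : ℝ) := by exact_mod_cast h3
    push_cast at h4
    exact h4
  have hcard : (D.card : ℝ) ≤ (y : ℝ) ^ s' := by
    have h1 : D.card ≤ (Icc 1 (y ^ s')).card := by
      refine Finset.card_le_card_of_injOn (fun d => ∏ q ∈ d, q) ?_ ?_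
      · intro d hd
        have hd' := Finset.mem_coe.1 hd
        simp only [Finset.coe_Icc, Set.mem_Icc]
        refine ⟨Nat.succ_le_of_lt (Finset.prod_pos fun q hq => (hQ q ((hD d hd').1 hq)).pos), (hD d hd').2⟩
      · intro d hd e he hde
        have hd' := Finset.mem_coe.1 hd
        have he' := Finset.mem_coe.1 he
        simp only at hde
        rw [← Nat.primeFactors_prod (fun q hq => hQ q ((hD d hd').1 hq)), hde,
          Nat.primeFactors_prod (fun q hq => hQ q ((hD e he').1 hq))]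
    rw [Nat.card_Icc, Nat.add_sub_cancel] at h1
    exact_mod_cast h1
  have h1 : ∑ x ∈ Ioc X (2 * X), MTR.Lm D cp Ω x =
      ∑ d ∈ D, cp d * (((Ioc X (2 * X)).filter (fun n => ∀ p ∈ d, n % p ∈ Ω p)).card : ℝ) := by
    unfold MTR.Lm
    rw [Finset.sum_comm]
    refine Finset.sum_congr rfl fun d _ => ?_
    rw [← Finset.mul_sum]
    congr 1
    rw [Finset.card_eq_sum_ones, Finset.sum_filter]
    push_cast
    rfl
  have h2 : ∀ d ∈ D, cp d * (((Ioc X (2 * X)).filter (fun n => ∀ p ∈ d, n % p ∈ Ω p)).card : ℝ) ≤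
      X * (cp d * ∏ q ∈ d, ((Ω q).card : ℝ) / q) + M * (y : ℝ) ^ s' := by
    intro d hd
    have h3 := mid9_cnt d (fun p hp => hQ p ((hD d hd).1 hp)) Ω (fun p hp => hΩ p ((hD d hd).1 hp)) X
    have h4 : cp d * ((((Ioc X (2 * X)).filter (fun n => ∀ p ∈ d, n % p ∈ Ω p)).card : ℝ) -
        X * (∏ p ∈ d, ((Ω p).card : ℝ) / p)) ≤ M * (y : ℝ) ^ s' := by
      refine (le_abs_self _).trans ?_
      rw [abs_mul]
      exact mul_le_mul (hcp d hd) (h3.trans (hpr d hd)) (abs_nonneg _) hM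
    linarith
  rw [h1]
  refine (Finset.sum_le_sum h2).trans ?_
  rw [Finset.sum_add_distrib, ← Finset.mul_sum, Finset.sum_const, nsmul_eq_mul]
  have h5 : (D.card : ℝ) * (M * (y : ℝ) ^ s') ≤ M * ((y : ℝ) ^ s' * (y : ℝ) ^ s') := by
    have h6 : 0 ≤ M * (y : ℝ) ^ s' := by positivity
    calc (D.card : ℝ) * (M * (y : ℝ) ^ s') ≤ (y : ℝ) ^ s' * (M * (y : ℝ) ^ s') :=
          mul_le_mul_of_nonneg_right hcard h6
      _ = _ := by ring
  unfold MTR.Gm
  linarith

private lemma mid9_split (w z y : ℕ) (hwz : w ≤ z) (hzy : z ≤ y) (f : ℕ → ℝ) :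
    ∏ q ∈ PP w y, f q = (∏ q ∈ PP w z, f q) * ∏ q ∈ PP z y, f q := by
  rw [← Finset.prod_filter_mul_prod_filter_not (PP w y) (fun q => q ≤ z)]
  congr 1
  · refine Finset.prod_congr ?_ fun _ _ => rfl
    ext q
    simp only [PP, mem_filter, mem_range]
    constructor
    · rintro ⟨⟨h1, h2, h3⟩, h4⟩
      exact ⟨by omega, h2, h3⟩
    · rintro ⟨h1, h2, h3⟩
      exact ⟨⟨by omega, h2, h3⟩, by omega⟩
  · refine Finset.prod_congr ?_ fun _ _ => rfl
    ext q
    simp only [PP, mem_filter, mem_range]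
    constructor
    · rintro ⟨⟨h1, h2, h3⟩, h4⟩
      exact ⟨by omega, h2, by omega⟩
    · rintro ⟨h1, h2, h3⟩
      exact ⟨⟨by omega, h2, by omega⟩, by omega⟩

/-- the classes excluded for `q` -/
private def mid9_om (n w q : ℕ) : Finset ℕ :=
  (range q).filter fun c => c = 0 ∨ (q ≤ w ∧ (2 * c) % q = n % q)

private lemma mid9_om_lt (n w q c : ℕ) (hc : c ∈ mid9_om n w q) : c < q := by
  unfold mid9_om at hc
  rw [mem_filter, mem_range] at hc
  exact hc.1

private lemma mid9_half (q m : ℕ) (hq : q % 2 = 1) :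
    (2 * ((m * ((q + 1) / 2)) % q)) % q = m % q := by
  have h1 : 2 * ((q + 1) / 2) = q + 1 := by omega
  have h2 : (2 * ((m * ((q + 1) / 2)) % q)) % q = (2 * (m * ((q + 1) / 2))) % q := by
    rw [Nat.mul_mod, Nat.mod_mod, ← Nat.mul_mod]
  rw [h2]
  have h3 : 2 * (m * ((q + 1) / 2)) = m + q * m := by
    calc 2 * (m * ((q + 1) / 2)) = m * (2 * ((q + 1) / 2)) := by ring
      _ = m + q * m := by rw [h1]; ring
  rw [h3, Nat.add_mul_mod_self_left]

private lemma mid9_om_le (n w q : ℕ) (hq : q % 2 = 1) : (mid9_om n w q).card ≤ 2 := by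
  have h1 : mid9_om n w q ⊆ {0, ((n % q) * ((q + 1) / 2)) % q} := by
    intro c hc
    unfold mid9_om at hc
    rw [mem_filter, mem_range] at hc
    obtain ⟨h2, h3 | ⟨-, h3⟩⟩ := hc
    · rw [h3]
      exact mem_insert_self _ _
    · refine mem_insert_of_mem (mem_singleton.2 ?_)
      have h4 : 2 * ((q + 1) / 2) = q + 1 := by omega
      have h5 : (2 * c) * ((q + 1) / 2) = c + q * c := by
        calc (2 * c) * ((q + 1) / 2) = c * (2 * ((q + 1) / 2)) := by ring
          _ = c + q * c := by rw [h4]; ring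
      have h6 : ((2 * c) * ((q + 1) / 2)) % q = c := by
        rw [h5, Nat.add_mul_mod_self_left, Nat.mod_eq_of_lt h2]
      rw [← h3, Nat.mod_mul_mod, h6]
  exact (card_le_card h1).trans card_le_two

private lemma mid9_om_one (n w q : ℕ) (hq : 0 < q) : 1 ≤ (mid9_om n w q).card := by
  refine Finset.card_pos.2 ⟨0, ?_⟩
  unfold mid9_om
  rw [mem_filter, mem_range]
  exact ⟨hq, Or.inl rfl⟩

private lemma mid9_om_two (n w q : ℕ) (hq : q % 2 = 1) (hw : q ≤ w) (hn : ¬ q ∣ n) :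
    2 ≤ (mid9_om n w q).card := by
  have hq0 : 0 < q := by omega
  have h1 : ({0, (n * ((q + 1) / 2)) % q} : Finset ℕ) ⊆ mid9_om n w q := by
    intro c hc
    unfold mid9_om
    rw [mem_filter, mem_range]
    rw [mem_insert, mem_singleton] at hc
    rcases hc with rfl | rfl
    · exact ⟨hq0, Or.inl rfl⟩
    · exact ⟨Nat.mod_lt _ hq0, Or.inr ⟨hw, mid9_half q n hq⟩⟩
  have h2 : (0 : ℕ) ≠ (n * ((q + 1) / 2)) % q := by
    intro h3
    apply hn
    have h4 := mid9_half q n hq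
    rw [← h3, Nat.mul_zero, Nat.zero_mod] at h4
    exact Nat.dvd_of_mod_eq_zero h4.symm
  rw [← Finset.card_pair h2]
  exact card_le_card h1

private lemma mid9_kapfac (q : ℕ) (hq : 2 ≤ q) : (1 : ℝ) / 2 ≤ 1 - 1 / (q : ℝ) := by
  have hq2 : (2 : ℝ) ≤ q := by exact_mod_cast hq
  have h5 : 1 / (q : ℝ) ≤ 1 / 2 := one_div_le_one_div_of_le (by norm_num) hq2
  linarith

/-- the number of prime factors -/
private lemma mid9_omega (n z y : ℕ) (hn : 1 ≤ n) :
    ((((PP 8 y).filter fun q => q ∣ n ∧ z < q).card : ℕ) : ℝ) * Real.log 2 ≤ Real.log n := by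
  have h1 : ∏ q ∈ (PP 8 y).filter (fun q => q ∣ n ∧ z < q), q ∣ n := by
    refine Finset.prod_primes_dvd n (fun q hq => ?_) (fun q hq => ?_)
    · rw [mem_filter] at hq
      unfold PP at hq
      rw [mem_filter] at hq
      exact hq.1.2.1.prime
    · rw [mem_filter] at hq
      exact hq.2.1
  have h2 : 2 ^ ((PP 8 y).filter fun q => q ∣ n ∧ z < q).card ≤ n := by
    refine le_trans ?_ (Nat.le_of_dvd hn h1)
    rw [← Finset.prod_const]
    refine Finset.prod_le_prod (fun _ _ => Nat.zero_le _) fun q hq => ?_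
    rw [mem_filter] at hq
    unfold PP at hq
    rw [mem_filter] at hq
    exact hq.1.2.1.two_le
  have h3 : ((2 : ℝ)) ^ ((PP 8 y).filter fun q => q ∣ n ∧ z < q).card ≤ n := by exact_mod_cast h2
  have h4 := Real.log_le_log (by positivity) h3
  rwa [Real.log_pow] at h4

private lemma mid9_prod (n w z y : ℕ) (hz : 8 ≤ z) (hzw : z ≤ w) (hwy : w ≤ y) (hn : 1 ≤ n)
    (hR : Rg z n) (hE : 4 * Real.log n ≤ 16 * z) :
    ∏ q ∈ PP 8 y, (1 - ((mid9_om n w q).card : ℝ) / q) ≤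
      (kap w / kap 8) * (kap y / kap 8) * Real.exp 16 := by
  have hzr : (8 : ℝ) ≤ z := by exact_mod_cast hz
  have hz0 : (0 : ℝ) < z := by linarith
  have hmem : ∀ q ∈ PP 8 y, q.Prime ∧ 8 < q ∧ q ≤ y ∧ q % 2 = 1 := by
    intro q hq
    unfold PP at hq
    rw [mem_filter, mem_range] at hq
    refine ⟨hq.2.1, hq.2.2, by omega, ?_⟩
    rcases hq.2.1.eq_two_or_odd with h | h
    · omega
    · exact h
  have hpt : ∀ q ∈ PP 8 y, 1 - ((mid9_om n w q).card : ℝ) / q ≤
      ((if q ≤ w then 1 - 1 / (q : ℝ) else 1) * (1 - 1 / (q : ℝ))) *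
        (if q ∣ n ∧ z < q then Real.exp (2 / z) else 1) := by
    intro q hq
    obtain ⟨hqp, hq8, hqy, hq2⟩ := hmem q hq
    have hqr : (8 : ℝ) < q := by exact_mod_cast hq8
    have hq0 : (0 : ℝ) < q := by linarith
    have hfac := mid9_kapfac q (by omega)
    have hone : 1 - ((mid9_om n w q).card : ℝ) / q ≤ 1 - 1 / (q : ℝ) := by
      have h1 : (1 : ℝ) ≤ (mid9_om n w q).card := by exact_mod_cast mid9_om_one n w q (by omega)
      have h2 : 1 / (q : ℝ) ≤ ((mid9_om n w q).card : ℝ) / q := by gcongr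
      linarith
    have hexp : (1 : ℝ) ≤ Real.exp (2 / z) := Real.one_le_exp (by positivity)
    by_cases hqw : q ≤ w
    · rw [if_pos hqw]
      by_cases hqn : q ∣ n
      · have hzq : z < q := by
          by_contra h
          refine hR q ?_ hqn
          unfold PP
          rw [mem_filter, mem_range]
          exact ⟨by omega, hqp, hqp.pos⟩
        rw [if_pos ⟨hqn, hzq⟩]
        have hzq' : (z : ℝ) < q := by exact_mod_cast hzq
        have h3 : 1 + 2 / (q : ℝ) ≤ Real.exp (2 / z) := by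
          have h4 : 2 / (q : ℝ) ≤ 2 / z := by gcongr
          have h5 := Real.add_one_le_exp (2 / (z : ℝ))
          linarith
        have h6 : 1 ≤ (1 - 1 / (q : ℝ)) * (1 + 2 / (q : ℝ)) := by
          have h7 : (1 - 1 / (q : ℝ)) * (1 + 2 / (q : ℝ)) = 1 + (q - 2) / ((q : ℝ) * q) := by
            field_simp
            ring
          rw [h7]
          have h8 : 0 ≤ ((q : ℝ) - 2) / ((q : ℝ) * q) := div_nonneg (by linarith) (by positivity)
          linarith
        calc 1 - ((mid9_om n w q).card : ℝ) / q ≤ (1 - 1 / (q : ℝ)) * 1 := by rw [mul_one]; exact hone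
          _ ≤ (1 - 1 / (q : ℝ)) * ((1 - 1 / (q : ℝ)) * (1 + 2 / (q : ℝ))) := by gcongr
          _ = ((1 - 1 / (q : ℝ)) * (1 - 1 / (q : ℝ))) * (1 + 2 / (q : ℝ)) := by ring
          _ ≤ ((1 - 1 / (q : ℝ)) * (1 - 1 / (q : ℝ))) * Real.exp (2 / z) := by
              refine mul_le_mul_of_nonneg_left h3 ?_
              exact mul_nonneg (by linarith) (by linarith)
      · rw [if_neg (fun h => hqn h.1), mul_one]
        have h1 : (2 : ℝ) ≤ (mid9_om n w q).card := by exact_mod_cast mid9_om_two n w q hq2 hqw hqn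
        have h2 : 2 / (q : ℝ) ≤ ((mid9_om n w q).card : ℝ) / q := by gcongr
        have h3 : (1 - 1 / (q : ℝ)) * (1 - 1 / (q : ℝ)) = 1 - 2 / q + 1 / q * (1 / q) := by ring
        have h4 : 0 ≤ 1 / (q : ℝ) * (1 / q) := by positivity
        rw [h3]
        linarith
    · rw [if_neg hqw, one_mul]
      refine hone.trans ?_
      split_ifs
      · exact le_mul_of_one_le_right (by linarith) hexp
      · rw [mul_one]
  have h0 : ∀ q ∈ PP 8 y, 0 ≤ 1 - ((mid9_om n w q).card : ℝ) / q := by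
    intro q hq
    obtain ⟨hqp, hq8, hqy, hq2⟩ := hmem q hq
    have hqr : (8 : ℝ) < q := by exact_mod_cast hq8
    have h1 : ((mid9_om n w q).card : ℝ) ≤ 2 := by exact_mod_cast mid9_om_le n w q hq2
    have h2 : ((mid9_om n w q).card : ℝ) / q ≤ 1 := by
      rw [div_le_one (by linarith)]
      linarith
    linarith
  refine (Finset.prod_le_prod h0 hpt).trans ?_
  rw [Finset.prod_mul_distrib, Finset.prod_mul_distrib]
  have hk8 := kap_pos 8
  have hb : ∏ q ∈ PP 8 y, (1 - 1 / (q : ℝ)) = kap y / kap 8 := by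
    have h2 : kap y = kap 8 * ∏ q ∈ PP 8 y, (1 - 1 / (q : ℝ)) :=
      mid9_split 0 8 y (Nat.zero_le _) (by omega) (fun q => 1 - 1 / (q : ℝ))
    rw [h2, mul_div_cancel_left₀ _ hk8.ne']
  have ha : ∏ q ∈ PP 8 y, (if q ≤ w then 1 - 1 / (q : ℝ) else 1) = kap w / kap 8 := by
    rw [mid9_split 8 w y (by omega) hwy]
    have h3 : ∏ q ∈ PP w y, (if q ≤ w then 1 - 1 / (q : ℝ) else 1) = 1 := by
      refine Finset.prod_eq_one fun q hq => ?_
      unfold PP at hq
      rw [mem_filter] at hq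
      rw [if_neg (by omega)]
    have h4 : ∏ q ∈ PP 8 w, (if q ≤ w then 1 - 1 / (q : ℝ) else 1) =
        ∏ q ∈ PP 8 w, (1 - 1 / (q : ℝ)) := by
      refine Finset.prod_congr rfl fun q hq => ?_
      unfold PP at hq
      rw [mem_filter, mem_range] at hq
      rw [if_pos (by omega)]
    have h2 : kap w = kap 8 * ∏ q ∈ PP 8 w, (1 - 1 / (q : ℝ)) :=
      mid9_split 0 8 w (Nat.zero_le _) (by omega) (fun q => 1 - 1 / (q : ℝ))
    rw [h3, h4, mul_one, h2, mul_div_cancel_left₀ _ hk8.ne']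
  have he : ∏ q ∈ PP 8 y, (if q ∣ n ∧ z < q then Real.exp (2 / z) else 1) ≤ Real.exp 16 := by
    rw [← Finset.prod_filter, Finset.prod_const, ← Real.exp_nat_mul]
    refine Real.exp_le_exp.2 ?_
    have h5 := mid9_omega n z y hn
    have h6 : (1 : ℝ) / 2 ≤ Real.log 2 := by
      have := Real.log_two_gt_d9
      linarith
    set N : ℝ := ((((PP 8 y).filter fun q => q ∣ n ∧ z < q).card : ℕ) : ℝ) with hN
    have hN0 : 0 ≤ N := Nat.cast_nonneg _
    have h7 : N * (1 / 2) ≤ Real.log n := (mul_le_mul_of_nonneg_left h6 hN0).trans h5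
    rw [mul_div_assoc', div_le_iff₀ hz0]
    linarith
  rw [ha, hb]
  refine mul_le_mul_of_nonneg_left he ?_
  exact mul_nonneg (div_nonneg (kap_pos w).le hk8.le) (div_nonneg (kap_pos y).le hk8.le)

open Classical in
theorem mid9 (B : ℕ) (hB : 1 ≤ B) : ∃ C : ℝ, 1 ≤ C ∧ ∃ X₀ : ℕ, ∀ X : ℕ, X₀ ≤ X → ∀ n ∈ Ioc X (3 * X),
    Rg (zX B X) n →
    (((Ioc X (2 * X)).filter fun p => p.Prime ∧ n < 2 * p ∧ Rg (zX B X) (2 * p - n)).card : ℝ) ≤
      C * kap (zX B X) * X / Real.log X ∧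
    (((Ioc X (2 * X)).filter fun p => p.Prime ∧ n < 2 * p ∧ X < 2 * p - n ∧ (2 * p - n).Prime).card : ℝ) ≤
      C * X / (Real.log X) ^ 2 := by
  obtain ⟨s', hs'1, hfl⟩ := MTR.fl 2
  obtain ⟨X₁, hX₁⟩ := kap_low B
  have hs'r : (1 : ℝ) ≤ s' := by exact_mod_cast hs'1
  set θ' : ℝ := 1 / (8 * s') with hθ'
  have hθ'0 : 0 < θ' := by positivity
  have hθ's : θ' * s' = 1 / 8 := by
    rw [hθ']
    field_simp
  have hθ'1 : θ' ≤ 1 := by
    rw [hθ', div_le_one (by positivity)]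
    linarith
  have e1 : ∀ᶠ X : ℕ in Filter.atTop, 4 ≤ (X : ℝ) ^ θ' :=
    ((tendsto_rpow_atTop hθ'0).comp tendsto_natCast_atTop_atTop).eventually_ge_atTop 4
  have e2 := RNum6_log.eventually_ge_atTop (20 : ℝ)
  have e3 := RNum6_pow 2 θ' hθ'0 B
  have e4 := RNum6_log.eventually_ge_atTop (2 * Real.log 2 / θ')
  have e5 := RNum6_pow 4 (1 / 4) (by norm_num) 1
  have e6 := RNum6_pow 1 (1 / 2) (by norm_num) 2
  obtain ⟨X₀, hX₀⟩ := Filter.eventually_atTop.mp (e1.and (e2.and (e3.and (e4.and (e5.and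
    (e6.and (Filter.eventually_ge_atTop X₁)))))))
  have hk8 := kap_pos 8
  set A : ℝ := 2 * Real.exp 16 / (kap 8) ^ 2 * (2 / θ') ^ 2 with hA
  have hA0 : 0 ≤ A := by positivity
  refine ⟨A + 1, by linarith, X₀, fun X hX n hn hRn => ?_⟩
  obtain ⟨g1, g2, g3, g4, g5, g6, g7⟩ := hX₀ X hX
  set L : ℝ := Real.log X with hL
  have hL10 : 10 ≤ L := by linarith
  have hX1 : (1 : ℝ) < X := by
    by_contra hc
    push Not at hc
    have : L ≤ 0 := by
      rw [hL]
      exact Real.log_nonpos (Nat.cast_nonneg X) hc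
    linarith
  have hX0 : (0 : ℝ) < X := by linarith
  set y : ℕ := ⌊(X : ℝ) ^ θ'⌋₊ with hy
  set z : ℕ := zX B X with hz
  have hyle : (y : ℝ) ≤ (X : ℝ) ^ θ' := Nat.floor_le (by positivity)
  have hyX : y ≤ X := by
    have h1 : (X : ℝ) ^ θ' ≤ X := by
      calc (X : ℝ) ^ θ' ≤ (X : ℝ) ^ (1 : ℝ) := Real.rpow_le_rpow_of_exponent_le hX1.le hθ'1
        _ = X := Real.rpow_one _
    exact_mod_cast hyle.trans h1
  have hyge : (X : ℝ) ^ θ' / 2 ≤ y := by
    have h1 : (X : ℝ) ^ θ' < y + 1 := Nat.lt_floor_add_one _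
    linarith
  have hy2 : 2 ≤ y := by
    have h1 : (2 : ℝ) ≤ y := by linarith
    exact_mod_cast h1
  have hypos : (0 : ℝ) < y := by exact_mod_cast (by omega : 0 < y)
  have hzle : (z : ℝ) ≤ L ^ B := Nat.floor_le (by positivity)
  have hLB : L ≤ L ^ B := le_self_pow₀ (by linarith) (by omega)
  have hzge : L < z + 1 := lt_of_le_of_lt hLB (Nat.lt_floor_add_one _)
  have hzy : z ≤ y := by
    have h1 : (z : ℝ) ≤ y := by
      have h2 : L ^ B ≤ (X : ℝ) ^ θ' / 2 := by linarith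
      linarith
    exact_mod_cast h1
  have hz8 : 8 ≤ z := by
    have h1 : (20 : ℝ) < z + 1 := by linarith
    have h2 : 20 < z + 1 := by exact_mod_cast h1
    omega
  -- the logarithm of y
  have hlogy : θ' / 2 * L ≤ Real.log y := by
    have h1 : Real.log ((X : ℝ) ^ θ' / 2) ≤ Real.log y := Real.log_le_log (by positivity) hyge
    rw [Real.log_div (by positivity) (by norm_num), Real.log_rpow hX0] at h1
    have h2 : 2 * Real.log 2 ≤ L * θ' := by
      rw [div_le_iff₀ hθ'0] at g4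
      exact g4
    rw [← hL] at h1
    linarith
  have hlogyX : Real.log y ≤ L := by
    rw [hL]
    exact Real.log_le_log hypos (by exact_mod_cast hyX)
  have hlogy0 : 0 < Real.log y := by
    have : 0 < θ' / 2 * L := by positivity
    linarith
  have hkapy : kap y ≤ 2 / (θ' * L) := by
    have h1 : kap y = GT.V y := by
      unfold kap GT.V PP GT.pr
      refine Finset.prod_congr ?_ fun _ _ => rfl
      ext q
      simp only [mem_filter, mem_range]
      constructor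
      · rintro ⟨h2, h3, _⟩
        exact ⟨h2, h3⟩
      · rintro ⟨h2, h3⟩
        exact ⟨h2, h3, h3.pos⟩
    rw [h1]
    refine (GT.V_le y hy2).trans ?_
    have h2 : 2 / (θ' * L) = 1 / (θ' / 2 * L) := by
      field_simp
    rw [h2]
    exact one_div_le_one_div_of_le (by positivity) hlogy
  -- the range of n
  rw [mem_Ioc] at hn
  have hn1 : 1 ≤ n := by omega
  have hlogn : 4 * Real.log n ≤ 16 * z := by
    have h1 : Real.log n ≤ Real.log (3 * X) := by
      refine Real.log_le_log (by exact_mod_cast hn1) ?_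
      exact_mod_cast hn.2
    rw [Real.log_mul (by norm_num) hX0.ne', ← hL] at h1
    have h2 : Real.log 3 ≤ 2 := by
      have := Real.log_le_sub_one_of_pos (show (0 : ℝ) < 3 by norm_num)
      linarith
    linarith
  -- the sieve
  obtain ⟨D, cp, cn, hD, hcc, hind, hg⟩ := hfl y hy2 (PP 8 y) (by
    intro q hq
    unfold PP at hq
    rw [mem_filter, mem_range] at hq
    exact ⟨hq.2.1, by omega, by omega⟩)
  have hodd : ∀ q ∈ PP 8 y, q % 2 = 1 := by
    intro q hq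
    unfold PP at hq
    rw [mem_filter, mem_range] at hq
    rcases hq.2.1.eq_two_or_odd with h | h
    · omega
    · exact h
  have hM0 : (0 : ℝ) ≤ 2 + 2 * Real.log y := by positivity
  have herr : (2 + 2 * Real.log y) * ((y : ℝ) ^ s' * (y : ℝ) ^ s') ≤ (X : ℝ) ^ (1 / 2 : ℝ) := by
    have h1 : (y : ℝ) ^ s' ≤ (X : ℝ) ^ (1 / 8 : ℝ) := by
      calc (y : ℝ) ^ s' ≤ ((X : ℝ) ^ θ') ^ s' := by gcongr
        _ = (X : ℝ) ^ (θ' * s') := by rw [Real.rpow_mul hX0.le, Real.rpow_natCast]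
        _ = _ := by rw [hθ's]
    have h2 : 2 + 2 * Real.log y ≤ (X : ℝ) ^ (1 / 4 : ℝ) := by
      have h3 : 4 * L ^ 1 ≤ (X : ℝ) ^ (1 / 4 : ℝ) := g5
      rw [pow_one] at h3
      linarith
    calc (2 + 2 * Real.log y) * ((y : ℝ) ^ s' * (y : ℝ) ^ s')
        ≤ (X : ℝ) ^ (1 / 4 : ℝ) * ((X : ℝ) ^ (1 / 8 : ℝ) * (X : ℝ) ^ (1 / 8 : ℝ)) := by gcongr
      _ = (X : ℝ) ^ (1 / 2 : ℝ) := by
          rw [← Real.rpow_add hX0, ← Real.rpow_add hX0]
          norm_num
  have hkey : ∀ w : ℕ, z ≤ w → w ≤ y → ∀ S : Finset ℕ, (∀ p ∈ S, p ∈ Ioc X (2 * X) ∧ p.Prime ∧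
      n < 2 * p ∧ Rg w (2 * p - n)) →
      (S.card : ℝ) ≤ X * (2 * ((kap w / kap 8) * (kap y / kap 8) * Real.exp 16)) +
        (X : ℝ) ^ (1 / 2 : ℝ) := by
    intro w hzw hwy S hS
    have hcount : (S.card : ℝ) ≤ ∑ x ∈ Ioc X (2 * X), MTR.Lm D cp (mid9_om n w) x := by
      have h1 : (S.card : ℝ) ≤ ∑ x ∈ Ioc X (2 * X),
          (if ∀ q ∈ PP 8 y, x % q ∉ mid9_om n w q then (1 : ℝ) else 0) := by
        rw [← Finset.sum_filter, ← Nat.cast_one, ← Nat.cast_sum, ← Finset.card_eq_sum_ones]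
        refine Nat.cast_le.2 (card_le_card fun p hp => ?_)
        obtain ⟨h2, h3, h4, h5⟩ := hS p hp
        rw [mem_filter]
        refine ⟨h2, fun q hq hpq => ?_⟩
        rw [mem_Ioc] at h2
        have hq2 := hodd q hq
        unfold PP at hq
        rw [mem_filter, mem_range] at hq
        unfold mid9_om at hpq
        rw [mem_filter] at hpq
        rcases hpq.2 with h6 | ⟨h6, h7⟩
        · have h8 := (Nat.prime_dvd_prime_iff_eq hq.2.1 h3).1 (Nat.dvd_of_mod_eq_zero h6)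
          omega
        · refine h5 q ?_ ?_
          · unfold PP
            rw [mem_filter, mem_range]
            exact ⟨by omega, hq.2.1, hq.2.1.pos⟩
          · have h8 : (2 * p) % q = n % q := by
              rw [← h7]
              conv_rhs => rw [Nat.mul_mod, Nat.mod_mod, ← Nat.mul_mod]
            have h9 : n ≡ 2 * p [MOD q] := h8.symm
            exact (Nat.modEq_iff_dvd' h4.le).1 h9
      exact h1.trans (Finset.sum_le_sum fun x _ => (hind (mid9_om n w) x).1)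
    have hsv := mid9_sieve s' y X (PP 8 y) (fun q hq => by
      unfold PP at hq
      rw [mem_filter] at hq
      exact hq.2.1) D cp hD (2 + 2 * Real.log y) hM0 (fun d hd => (hcc d hd).1) (mid9_om n w)
      (fun q _ c hc => mid9_om_lt n w q c hc)
    have hGm := (hg (fun q => ((mid9_om n w q).card : ℝ) / q) (by
      intro q hq
      refine ⟨by positivity, ?_⟩
      have h1 : ((mid9_om n w q).card : ℝ) ≤ 2 := by exact_mod_cast mid9_om_le n w q (hodd q hq)
      have h2 : ((mid9_om n w q).card : ℝ) ≤ 2 * ((2 : ℕ) : ℝ) := by push_cast; linarith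
      gcongr)).2.1
    have hmain := mid9_prod n w z y hz8 hzw hwy hn1 hRn hlogn
    calc (S.card : ℝ) ≤ X * MTR.Gm D cp (fun q => ((mid9_om n w q).card : ℝ) / q) +
            (2 + 2 * Real.log y) * ((y : ℝ) ^ s' * (y : ℝ) ^ s') := hcount.trans hsv
      _ ≤ _ := by
          refine add_le_add ?_ herr
          refine mul_le_mul_of_nonneg_left ?_ hX0.le
          refine hGm.trans ?_
          exact mul_le_mul_of_nonneg_left hmain (by norm_num)
  have hkz := kap_pos z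
  have hsq : (X : ℝ) ^ (1 / 2 : ℝ) * (X : ℝ) ^ (1 / 2 : ℝ) = X := by
    rw [← Real.rpow_add hX0]
    norm_num
  have hh0 : 0 < (X : ℝ) ^ (1 / 2 : ℝ) := by positivity
  have hL2 : L ^ 2 ≤ (X : ℝ) ^ (1 / 2 : ℝ) := by
    have := g6
    rw [one_mul] at this
    exact this
  have hkzL : 1 ≤ kap z * L := by
    have h1 := hX₁ X z g7 hzle
    have h2 : L ^ (1 / 2 : ℝ) ≤ L := by
      calc L ^ (1 / 2 : ℝ) ≤ L ^ (1 : ℝ) :=
            Real.rpow_le_rpow_of_exponent_le (by linarith) (by norm_num)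
        _ = L := Real.rpow_one _
    have h3 : 0 < L ^ (1 / 2 : ℝ) := Real.rpow_pos_of_pos (by linarith) _
    have h4 : 1 ≤ kap z * L ^ (1 / 2 : ℝ) := by
      rw [div_le_iff₀ h3] at h1
      exact h1
    calc (1 : ℝ) ≤ kap z * L ^ (1 / 2 : ℝ) := h4
      _ ≤ kap z * L := by gcongr
  have hT : 1 ≤ 2 / θ' := by
    rw [le_div_iff₀ hθ'0]
    linarith
  have hkapy' : kap y ≤ 2 / θ' / L := by
    rw [div_div]
    exact hkapy
  have hkapy'' : kap y ≤ (2 / θ') ^ 2 / L := by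
    refine hkapy'.trans ?_
    have : 2 / θ' ≤ (2 / θ') ^ 2 := by nlinarith
    gcongr
  have hL0 : 0 < L := by linarith
  constructor
  · refine (hkey z le_rfl hzy _ (fun p hp => by
      rw [mem_filter] at hp
      exact hp)).trans ?_
    have h1 : (X : ℝ) ^ (1 / 2 : ℝ) ≤ kap z * X / L := by
      rw [le_div_iff₀ hL0]
      calc (X : ℝ) ^ (1 / 2 : ℝ) * L ≤ (X : ℝ) ^ (1 / 2 : ℝ) * L * (kap z * L) :=
            le_mul_of_one_le_right (by positivity) hkzL
        _ = kap z * ((X : ℝ) ^ (1 / 2 : ℝ) * L ^ 2) := by ring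
        _ ≤ kap z * ((X : ℝ) ^ (1 / 2 : ℝ) * (X : ℝ) ^ (1 / 2 : ℝ)) := by gcongr
        _ = kap z * X := by rw [hsq]
    have h2 : (X : ℝ) * (2 * ((kap z / kap 8) * (kap y / kap 8) * Real.exp 16)) ≤
        A * kap z * X / L := by
      calc (X : ℝ) * (2 * ((kap z / kap 8) * (kap y / kap 8) * Real.exp 16))
          ≤ X * (2 * ((kap z / kap 8) * ((2 / θ') ^ 2 / L / kap 8) * Real.exp 16)) := by gcongr
        _ = A * kap z * X / L := by
            rw [hA]
            field_simp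
    have h3 : (A + 1) * kap z * X / L = A * kap z * X / L + kap z * X / L := by ring
    rw [h3]
    linarith
  · refine (hkey y hzy le_rfl _ (fun p hp => by
      rw [mem_filter] at hp
      refine ⟨hp.1, hp.2.1, hp.2.2.1, fun q hq hqd => ?_⟩
      unfold PP at hq
      rw [mem_filter, mem_range] at hq
      have h1 := (Nat.prime_dvd_prime_iff_eq hq.2.1 hp.2.2.2.2).1 hqd
      have h2 := hp.2.2.2.1
      omega)).trans ?_
    have h1 : (X : ℝ) ^ (1 / 2 : ℝ) ≤ X / L ^ 2 := by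
      rw [le_div_iff₀ (by positivity)]
      calc (X : ℝ) ^ (1 / 2 : ℝ) * L ^ 2 ≤ (X : ℝ) ^ (1 / 2 : ℝ) * (X : ℝ) ^ (1 / 2 : ℝ) := by gcongr
        _ = X := hsq
    have h2 : (X : ℝ) * (2 * ((kap y / kap 8) * (kap y / kap 8) * Real.exp 16)) ≤
        A * X / L ^ 2 := by
      have hky := kap_pos y
      calc (X : ℝ) * (2 * ((kap y / kap 8) * (kap y / kap 8) * Real.exp 16))
          ≤ X * (2 * ((2 / θ' / L / kap 8) * (2 / θ' / L / kap 8) * Real.exp 16)) := by gcongr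
        _ = A * X / L ^ 2 := by
            rw [hA]
            field_simp
    have h3 : (A + 1) * X / L ^ 2 = A * X / L ^ 2 + X / L ^ 2 := by ring
    rw [h3]
    linarith

end Pool.Agent.Lib.SH
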