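import Pool.Agent.Lib.SH.Def9
import Pool.Agent.Lib.MT.Inv

/-!
# SH-Nal9 (90 minutes): the sum F restricted to the x with q ∣ x + h l is again a sum of the same form

PROOF. `Q := ⟨q, hq⟩`. For `τ : Col P ι` put `v τ := z (update τ Q none) + z (update τ Q (some l)) - (1/q) ∑_j z (update τ Q (some j))` (does not depend on `τ Q`) and
`u τ := if τ Q = some l then v τ else if τ Q = none then v τ/q else 0`. (`w9 q l z` below is `v`.)
(1) `lam u σ = if σ Q = some l then lam z (update σ Q none) + lam z (update σ Q (some l)) else 0`: in `lam u σ = ∑_τ (∏_p Amat(-1/p)(σ p)(τ p)) u τ` sum over `τ Q` first (write the sum over `τ` as the sum over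
`τ` with `τ Q = none` and `o : Option ι` of `update τ Q o`); the factor at `Q`: for `σ Q = none`: `Amat none none * 1/q + Amat none (some l) * 1 = 1/q - 1/q = 0`; for `σ Q = some l`: `0 + 1`; for `σ Q = some j`, `j ≠ l`: `0`.
So `lam u σ = 1[σ Q = some l] ∑_{τ, τ Q = none} ∏_{p ≠ Q} Amat(σ p)(τ p) v τ`. In the same way `lam z (update σ Q none) = ∑_{τ, τ Q = none} ∏_{p ≠ Q} .. (z (τ) - (1/q) ∑_j z (update τ Q (some j)))`
and `lam z (update σ Q (some l)) = ∑_{τ, τ Q = none} ∏_{p ≠ Q} .. z (update τ Q (some l))`.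
(2) `FF`: if `q ∣ x + h l`, then `q ∤ x + h j` for `j ≠ l` (hypothesis), so the fitting `σ` have `σ Q ∈ {none, some l}` and `update σ Q none`, `update σ Q (some l)` fit together:
`FF h (lam z) x = ∑_{σ fits, σ Q = some l} (lam z (update σ Q none) + lam z σ) = FF h (lam u) x`. If `q ∤ x + h l` no `σ` with `σ Q = some l` fits and `FF h (lam u) x = 0`.
(3) support: `u τ ≠ 0` implies that some `z (update τ Q o) ≠ 0`, and `tot τ ≤ q tot (update τ Q o)`. `|u τ| ≤ |v τ| ≤ 3` (`|z| ≤ 1`, `card ι ≤ q`).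
(4) `∑_τ u τ²/tot τ = ∑_{τ Q = none} (v τ/q)²/tot τ + ∑_{τ Q = none} (v τ)²/(q tot τ) ≤ (2/q) ∑_{τ Q = none} v τ²/tot τ` (`tot (update τ Q (some l)) = q tot τ` if `τ Q = none`; `1/q² ≤ 1/q`).
-/

set_option autoImplicit false

open Finset

namespace Pool.Agent.Lib.SH

open Pool.Agent.Lib.MT

/-- the new variables -/
noncomputable def v9 {P : Finset ℕ} {ι : Type} [Fintype ι] [DecidableEq ι] (Q : {p : ℕ // p ∈ P}) (l : ι)
    (z : Col P ι → ℝ) (τ : Col P ι) : ℝ :=
  z (Function.update τ Q none) + z (Function.update τ Q (some l)) -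
    1 / ((Q : ℕ) : ℝ) * ∑ j, z (Function.update τ Q (some j))

private lemma nal9_split {P : Finset ℕ} {ι : Type} [Fintype ι] [DecidableEq ι] (Q : {p : ℕ // p ∈ P})
    (f : Col P ι → ℝ) :
    ∑ τ, f τ = ∑ τ ∈ univ.filter (fun τ : Col P ι => τ Q = none), ∑ o : Option ι, f (Function.update τ Q o) := by
  rw [Finset.sum_comm, ← Finset.sum_fiberwise (s := (univ : Finset (Col P ι))) (g := fun τ => τ Q)]
  refine Finset.sum_congr rfl fun o _ => ?_
  refine Finset.sum_nbij' (fun τ => Function.update τ Q none) (fun τ => Function.update τ Q o) ?_ ?_ ?_ ?_ ?_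
  · intro τ _
    simp
  · intro τ _
    simp
  · intro τ hτ
    have h1 : τ Q = o := (mem_filter.1 hτ).2
    simp [← h1]
  · intro τ hτ
    have h1 : τ Q = none := (mem_filter.1 hτ).2
    simp [← h1]
  · intro τ hτ
    have h1 : τ Q = o := (mem_filter.1 hτ).2
    simp [← h1]

/-- the product over the primes other than `Q` -/
private noncomputable def nal9_W {P : Finset ℕ} {ι : Type} [Fintype ι] [DecidableEq ι] (Q : {p : ℕ // p ∈ P})
    (σ τ : Col P ι) : ℝ :=
  ∏ p ∈ (univ : Finset {p : ℕ // p ∈ P}).erase Q, Amat (fun _ => -(1 / ((p : ℕ) : ℝ))) (σ p) (τ p)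

private lemma nal9_W_left {P : Finset ℕ} {ι : Type} [Fintype ι] [DecidableEq ι] (Q : {p : ℕ // p ∈ P})
    (σ τ : Col P ι) (o : Option ι) : nal9_W Q (Function.update σ Q o) τ = nal9_W Q σ τ := by
  rw [nal9_W, nal9_W]
  refine Finset.prod_congr rfl fun p hp => ?_
  rw [Function.update_of_ne (ne_of_mem_erase hp)]

private lemma nal9_prod {P : Finset ℕ} {ι : Type} [Fintype ι] [DecidableEq ι] (Q : {p : ℕ // p ∈ P})
    (σ τ : Col P ι) (o : Option ι) :
    (∏ p : {p : ℕ // p ∈ P}, Amat (fun _ => -(1 / ((p : ℕ) : ℝ))) (σ p) (Function.update τ Q o p)) =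
      Amat (fun _ => -(1 / ((Q : ℕ) : ℝ))) (σ Q) o * nal9_W Q σ τ := by
  rw [← Finset.mul_prod_erase univ _ (mem_univ Q), Function.update_self, nal9_W]
  congr 1
  refine Finset.prod_congr rfl fun p hp => ?_
  rw [Function.update_of_ne (ne_of_mem_erase hp)]

private lemma nal9_lam {P : Finset ℕ} {ι : Type} [Fintype ι] [DecidableEq ι] (Q : {p : ℕ // p ∈ P})
    (z : Col P ι → ℝ) (σ : Col P ι) :
    lam z σ = ∑ τ ∈ univ.filter (fun τ : Col P ι => τ Q = none), nal9_W Q σ τ *
      ∑ o : Option ι, Amat (fun _ => -(1 / ((Q : ℕ) : ℝ))) (σ Q) o * z (Function.update τ Q o) := by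
  rw [lam, nal9_split Q]
  refine Finset.sum_congr rfl fun τ _ => ?_
  rw [Finset.mul_sum]
  refine Finset.sum_congr rfl fun o _ => ?_
  rw [nal9_prod]
  ring

/-- the new function -/
private noncomputable def nal9_u {P : Finset ℕ} {ι : Type} [Fintype ι] [DecidableEq ι] (Q : {p : ℕ // p ∈ P})
    (l : ι) (z : Col P ι → ℝ) (τ : Col P ι) : ℝ :=
  if τ Q = some l then v9 Q l z τ else if τ Q = none then v9 Q l z τ / ((Q : ℕ) : ℝ) else 0

private lemma nal9_v {P : Finset ℕ} {ι : Type} [Fintype ι] [DecidableEq ι] (Q : {p : ℕ // p ∈ P})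
    (l : ι) (z : Col P ι → ℝ) (τ : Col P ι) (o : Option ι) :
    v9 Q l z (Function.update τ Q o) = v9 Q l z τ := by
  simp [v9]

private lemma nal9_uu {P : Finset ℕ} {ι : Type} [Fintype ι] [DecidableEq ι] (Q : {p : ℕ // p ∈ P})
    (l : ι) (z : Col P ι → ℝ) (τ : Col P ι) (o : Option ι) :
    nal9_u Q l z (Function.update τ Q o) =
      if o = some l then v9 Q l z τ else if o = none then v9 Q l z τ / ((Q : ℕ) : ℝ) else 0 := by
  rw [nal9_u, Function.update_self, nal9_v]

private lemma nal9_sum {ι : Type} [Fintype ι] [DecidableEq ι] (l : ι) (a b : ℝ) (F : Option ι → ℝ) :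
    ∑ o : Option ι, F o * (if o = some l then a else if o = none then b else 0) = F none * b + F (some l) * a := by
  rw [Fintype.sum_option]
  simp

private lemma nal9_lamu {P : Finset ℕ} {ι : Type} [Fintype ι] [DecidableEq ι] (Q : {p : ℕ // p ∈ P})
    (l : ι) (z : Col P ι → ℝ) (σ : Col P ι) :
    lam (nal9_u Q l z) σ = if σ Q = some l then
      lam z (Function.update σ Q none) + lam z (Function.update σ Q (some l)) else 0 := by
  rw [nal9_lam Q]
  have h1 : ∀ τ : Col P ι, ∑ o : Option ι, Amat (fun _ => -(1 / ((Q : ℕ) : ℝ))) (σ Q) o *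
      nal9_u Q l z (Function.update τ Q o) = if σ Q = some l then v9 Q l z τ else 0 := by
    intro τ
    simp only [nal9_uu]
    rw [nal9_sum]
    rcases h : σ Q with _ | j
    · simp only [Amat]
      rw [if_neg (by simp)]
      ring
    · by_cases hj : j = l
      · subst hj
        simp [Amat]
      · simp [Amat, hj]
  simp only [h1]
  split_ifs with h
  · rw [nal9_lam Q z (Function.update σ Q none), nal9_lam Q z (Function.update σ Q (some l)),
      ← Finset.sum_add_distrib]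
    refine Finset.sum_congr rfl fun τ _ => ?_
    rw [nal9_W_left, nal9_W_left, ← mul_add]
    congr 1
    rw [Function.update_self, Function.update_self, Fintype.sum_option, Fintype.sum_option, v9]
    simp only [Amat]
    have h2 : ∑ x : ι, -(1 / ((Q : ℕ) : ℝ)) * z (Function.update τ Q (some x)) =
        -(1 / ((Q : ℕ) : ℝ) * ∑ x : ι, z (Function.update τ Q (some x))) := by
      rw [← Finset.mul_sum]
      ring
    rw [h2]
    simp only [ite_mul, one_mul, zero_mul, Finset.sum_ite_eq, Finset.mem_univ, if_true]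
    ring
  · simp

private lemma nal9_fit {P : Finset ℕ} {ι : Type} [Fintype ι] [DecidableEq ι] (Q : {p : ℕ // p ∈ P})
    (h : ι → ℕ) (x : ℕ) (σ : Col P ι) (hσ : σ Q = none) (o : Option ι) :
    Fit h x (Function.update σ Q o) ↔ Fit h x σ ∧ ∀ i, o = some i → (Q : ℕ) ∣ x + h i := by
  constructor
  · intro h1
    refine ⟨fun p i hp => ?_, fun i hi => ?_⟩
    · by_cases hpQ : p = Q
      · subst hpQ
        rw [hσ] at hp
        exact absurd hp (by simp)
      · exact h1 p i (by rw [Function.update_of_ne hpQ]; exact hp)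
    · exact h1 Q i (by rw [Function.update_self]; exact hi)
  · rintro ⟨h1, h2⟩ p i hp
    by_cases hpQ : p = Q
    · subst hpQ
      rw [Function.update_self] at hp
      exact h2 i hp
    · rw [Function.update_of_ne hpQ] at hp
      exact h1 p i hp

open Classical in
private lemma nal9_FF {P : Finset ℕ} {ι : Type} [Fintype ι] [DecidableEq ι] (Q : {p : ℕ // p ∈ P})
    (h : ι → ℕ) (l : ι) (L : Col P ι → ℝ) (x : ℕ) (h1 : (Q : ℕ) ∣ x + h l)
    (h2 : ∀ j, j ≠ l → ¬ (Q : ℕ) ∣ x + h j) :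
    FF h L x = ∑ σ ∈ univ.filter (fun σ : Col P ι => σ Q = none),
      if Fit h x σ then L (Function.update σ Q none) + L (Function.update σ Q (some l)) else 0 := by
  rw [FF, Finset.sum_filter, nal9_split Q]
  refine Finset.sum_congr rfl fun σ hσ => ?_
  have hσ' : σ Q = none := (mem_filter.1 hσ).2
  simp only [nal9_fit Q h x σ hσ']
  rw [Fintype.sum_option]
  by_cases hf : Fit h x σ
  · rw [if_pos hf, if_pos ⟨hf, fun i hi => absurd hi (by simp)⟩]
    congr 1
    rw [Finset.sum_eq_single l]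
    · rw [if_pos]
      refine ⟨hf, fun i hi => ?_⟩
      rw [← Option.some.inj hi]
      exact h1
    · intro j _ hj
      rw [if_neg]
      rintro ⟨_, h4⟩
      exact h2 j hj (h4 j rfl)
    · intro hl
      exact absurd (mem_univ l) hl
  · rw [if_neg hf, if_neg (fun h3 => hf h3.1)]
    rw [Finset.sum_eq_zero, add_zero]
    intro j _
    rw [if_neg (fun h3 => hf h3.1)]

private lemma nal9_tot {P : Finset ℕ} {ι : Type} [Fintype ι] [DecidableEq ι] (Q : {p : ℕ // p ∈ P})
    (τ : Col P ι) (o : Option ι) :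
    tot (Function.update τ Q o) = (if o = none then 1 else (Q : ℕ)) * tot (Function.update τ Q none) := by
  rw [tot, tot, ← Finset.mul_prod_erase univ _ (mem_univ Q), ← Finset.mul_prod_erase univ _ (mem_univ Q)]
  rw [Function.update_self, Function.update_self, if_pos rfl, one_mul]
  congr 1
  refine Finset.prod_congr rfl fun p hp => ?_
  rw [Function.update_of_ne (ne_of_mem_erase hp), Function.update_of_ne (ne_of_mem_erase hp)]

theorem nal9 {P : Finset ℕ} {ι : Type} [Fintype ι] [DecidableEq ι] (hP : ∀ p ∈ P, p.Prime)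
    (Q : {p : ℕ // p ∈ P}) (hι : Fintype.card ι ≤ (Q : ℕ)) (l : ι) (z : Col P ι → ℝ) (hz : ∀ τ, |z τ| ≤ 1) (h : ι → ℕ) :
    ∃ u : Col P ι → ℝ,
      (∀ x : ℕ, (∀ j, j ≠ l → (Q : ℕ) ∣ x + h l → ¬ (Q : ℕ) ∣ x + h j) →
        FF h (lam u) x = if (Q : ℕ) ∣ x + h l then FF h (lam z) x else 0) ∧
      (∀ τ, |u τ| ≤ 3) ∧ (∀ τ, u τ ≠ 0 → ∃ ρ, z ρ ≠ 0 ∧ tot τ ≤ (Q : ℕ) * tot ρ) ∧
      ∑ τ : Col P ι, u τ ^ 2 / (tot τ : ℝ) ≤
        2 / ((Q : ℕ) : ℝ) * ∑ τ ∈ univ.filter (fun τ : Col P ι => τ Q = none), v9 Q l z τ ^ 2 / (tot τ : ℝ) := by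
  classical
  have hq0 : 0 < (Q : ℕ) := (hP Q Q.2).pos
  have hq0' : (0 : ℝ) < ((Q : ℕ) : ℝ) := by exact_mod_cast hq0
  have hq1 : (1 : ℝ) ≤ ((Q : ℕ) : ℝ) := by exact_mod_cast hq0
  have htpos : ∀ τ : Col P ι, 0 < tot τ := by
    intro τ
    rw [tot]
    refine Finset.prod_pos fun p _ => ?_
    split_ifs
    · exact one_pos
    · exact (hP p p.2).pos
  have hv : ∀ τ, |v9 Q l z τ| ≤ 3 := by
    intro τ
    have h1 := hz (Function.update τ Q none)
    have h2 := hz (Function.update τ Q (some l))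
    have h3 : |∑ j, z (Function.update τ Q (some j))| ≤ Fintype.card ι := by
      refine (Finset.abs_sum_le_sum_abs _ _).trans ?_
      refine (Finset.sum_le_sum fun j _ => hz _).trans ?_
      simp
    have h4 : |1 / ((Q : ℕ) : ℝ) * ∑ j, z (Function.update τ Q (some j))| ≤ 1 := by
      rw [abs_mul, abs_of_nonneg (by positivity : (0 : ℝ) ≤ 1 / ((Q : ℕ) : ℝ)), one_div, inv_mul_le_iff₀ hq0', mul_one]
      refine h3.trans ?_
      exact_mod_cast hι
    rw [v9]
    rw [abs_le] at h1 h2 h4 ⊢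
    constructor <;> linarith [h1.1, h1.2, h2.1, h2.2, h4.1, h4.2]
  have huv : ∀ τ, |nal9_u Q l z τ| ≤ |v9 Q l z τ| := by
    intro τ
    rw [nal9_u]
    split_ifs
    · exact le_rfl
    · rw [abs_div, abs_of_pos hq0']
      exact div_le_self (abs_nonneg _) hq1
    · simp
  refine ⟨nal9_u Q l z, ?_, fun τ => (huv τ).trans (hv τ), ?_, ?_⟩
  · intro x hx
    split_ifs with hd
    · rw [nal9_FF Q h l (lam (nal9_u Q l z)) x hd (fun j hj => hx j hj hd),
        nal9_FF Q h l (lam z) x hd (fun j hj => hx j hj hd)]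
      refine Finset.sum_congr rfl fun σ hσ => ?_
      have hσ' : σ Q = none := (mem_filter.1 hσ).2
      split_ifs with hf
      · rw [nal9_lamu, nal9_lamu, Function.update_self, Function.update_self, if_neg (by simp), if_pos rfl,
          Function.update_idem, Function.update_idem, zero_add]
      · rfl
    · rw [FF]
      refine Finset.sum_eq_zero fun σ hσ => ?_
      rw [nal9_lamu, if_neg]
      intro hl
      exact hd ((mem_filter.1 hσ).2 Q l hl)
  · intro τ hτ
    have hv0 : v9 Q l z τ ≠ 0 := by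
      intro h0
      apply hτ
      have := huv τ
      rw [h0, abs_zero] at this
      exact abs_eq_zero.1 (le_antisymm this (abs_nonneg _))
    have hex : ∃ o : Option ι, z (Function.update τ Q o) ≠ 0 := by
      by_contra hc
      push Not at hc
      apply hv0
      rw [v9]
      simp [hc]
    obtain ⟨o, ho⟩ := hex
    refine ⟨_, ho, ?_⟩
    have h1 := nal9_tot Q τ (τ Q)
    rw [Function.update_eq_self] at h1
    have h2 := nal9_tot Q τ o
    rw [h1, h2]
    have h3 : (if τ Q = none then 1 else (Q : ℕ)) ≤ (Q : ℕ) := by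
      split_ifs
      · exact hq0
      · exact le_rfl
    have h4 : 1 ≤ (if o = none then 1 else (Q : ℕ)) := by
      split_ifs
      · exact le_rfl
      · exact hq0
    calc (if τ Q = none then 1 else (Q : ℕ)) * tot (Function.update τ Q none)
        ≤ (Q : ℕ) * (1 * tot (Function.update τ Q none)) := by
          rw [one_mul]
          exact Nat.mul_le_mul_right _ h3
      _ ≤ _ := Nat.mul_le_mul_left _ (Nat.mul_le_mul_right _ h4)
  · rw [nal9_split Q, Finset.mul_sum]
    refine Finset.sum_le_sum fun τ hτ => ?_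
    have hτ' : τ Q = none := (mem_filter.1 hτ).2
    have hup : Function.update τ Q none = τ := by rw [← hτ', Function.update_eq_self]
    have ht0 : (0 : ℝ) < (tot τ : ℝ) := by exact_mod_cast htpos τ
    simp only [nal9_uu, nal9_tot Q τ _, hup]
    rw [Fintype.sum_option]
    have h5 : ∑ x : ι, (if some x = some l then v9 Q l z τ else if some x = none then v9 Q l z τ / ((Q : ℕ) : ℝ) else 0) ^ 2 /
        (((if some x = none then 1 else (Q : ℕ)) * tot τ : ℕ) : ℝ) =
        v9 Q l z τ ^ 2 / (((Q : ℕ) : ℝ) * (tot τ : ℝ)) := by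
      rw [Finset.sum_eq_single l]
      · simp
      · intro j _ hj
        simp [hj]
      · intro hl
        exact absurd (mem_univ l) hl
    rw [h5]
    simp only [if_true, one_mul]
    rw [if_neg (by simp)]
    have h6 : v9 Q l z τ ^ 2 / (((Q : ℕ) : ℝ) * (tot τ : ℝ)) = 1 / ((Q : ℕ) : ℝ) * (v9 Q l z τ ^ 2 / (tot τ : ℝ)) := by
      field_simp
    have h7 : (v9 Q l z τ / ((Q : ℕ) : ℝ)) ^ 2 / (tot τ : ℝ) ≤ 1 / ((Q : ℕ) : ℝ) * (v9 Q l z τ ^ 2 / (tot τ : ℝ)) := by
      have h8 : (v9 Q l z τ / ((Q : ℕ) : ℝ)) ^ 2 / (tot τ : ℝ) =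
          1 / ((Q : ℕ) : ℝ) * (1 / ((Q : ℕ) : ℝ)) * (v9 Q l z τ ^ 2 / (tot τ : ℝ)) := by
        field_simp
      rw [h8]
      refine mul_le_mul_of_nonneg_right ?_ (by positivity)
      have h9 : 1 / ((Q : ℕ) : ℝ) ≤ 1 := by
        rw [div_le_one hq0']
        exact hq1
      exact mul_le_of_le_one_right (by positivity) h9
    rw [h6]
    have h10 : 2 / ((Q : ℕ) : ℝ) * (v9 Q l z τ ^ 2 / (tot τ : ℝ)) =
        1 / ((Q : ℕ) : ℝ) * (v9 Q l z τ ^ 2 / (tot τ : ℝ)) + 1 / ((Q : ℕ) : ℝ) * (v9 Q l z τ ^ 2 / (tot τ : ℝ)) := by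
      ring
    rw [h10]
    linarith

end Pool.Agent.Lib.SH
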