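import Pool.Agent.Lib.SH.Nal9
import Pool.Agent.Lib.SH.Col9
import Pool.Agent.Lib.SH.Num8
import Pool.Agent.Lib.MT.S1main
import Pool.Agent.Lib.MT.Ratio

/-!
# SH-Nsq9 (90 minutes): the square sum of v9 for the Maynard-Tao variables

PROOF. `P = PP z R`, `g = gg J ℓ`, `zz g R τ = mu τ * yy g R τ`, `Q` the prime `q`, `τ Q = none`, `τ' = update τ Q (some l)`: `mu τ' = - mu τ`, so
`|v9 Q l (zz g R) τ| ≤ (yy τ - yy τ') + (k/q) yy τ` (`yy (update τ Q (some j)) ≤ yy τ`: `g` decreasing, `tot` larger).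
`yy τ - yy τ' ≤ ∏_{i ≠ l} g(prt i τ) (g (prt l τ) - g (q prt l τ)) + ∏_i g(prt i τ) 1[R/q < tot τ ≤ R]` (cases `q tot τ ≤ R`, `R/q < tot τ ≤ R`, `tot τ > R`).
`v9² ≤ 4 ∏_{i≠l} g² (g(r_l) - g(q r_l))² + 4 ∏ g² 1[..] + 2 (k/q)² yy²`.
First: `(g(r) - g(qr))² ≤ g(r) - g(qr) ≤ ∑_{j ≤ J} 1[exp(2^j ℓ)/q < r ≤ exp(2^j ℓ)]` (definition of `gg`: telescoping differences, coefficients `≤ 1`, `gg_le_one`), so by `col9a` its sum is
`≤ BB^(k-1) ∑_{j ≤ J} ∑_s 1/pr s [..] ≤ BB^(k-1) (J+1) C kap z log q` by `dsh9` with `y = exp(2^j ℓ)`, `Y₀ = z`.. : need `Y₀ < pr s`: `pr s > exp(ℓ)/q ≥ z` if `q ≤ X^θ₀`, `θ₀` small (`exp ℓ = R^(1/(16 C₁ J k))`, a fixed power of `X`).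
Second: `col9b` with `Y₀ = (R/q)^(1/k) ≥ z`. Third: `2 (k/q)² BB^k` (`S1_main`), `q ≥ z ≥ (log X)^1`..: `1/q² ≤ 1/(log X)^2 ≤ log q/log X` (`q > z ≥ log X - 1`, `B ≥ 1`).
`kap z log X ≤ C BB` (`BB_lower`/`DD_lower`: `BB ≥ (kap z/2) ℓ`, `ℓ ≥ c log X`), so everything is `≤ C BB^k log q/log X`.
-/

set_option autoImplicit false

open Finset

namespace Pool.Agent.Lib.SH

open Pool.Agent.Lib.MT Pool.Agent.Lib.SG

variable {P : Finset ℕ} {ι : Type} [Fintype ι] [DecidableEq ι]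

private theorem nsq9_split {M : Type} [CommMonoid M] (Q : {p : ℕ // p ∈ P}) (τ : Col P ι)
    (o : Option ι) (f : {p : ℕ // p ∈ P} → Option ι → M) :
    ∏ p, f p (Function.update τ Q o p) = f Q o * ∏ p ∈ univ.erase Q, f p (τ p) := by
  rw [← mul_prod_erase univ _ (mem_univ Q), Function.update_self]
  congr 1
  refine prod_congr rfl fun p hp => ?_
  rw [Function.update_of_ne (ne_of_mem_erase hp)]

private theorem nsq9_base {M : Type} [CommMonoid M] (Q : {p : ℕ // p ∈ P}) (τ : Col P ι)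
    (hτ : τ Q = none) (f : {p : ℕ // p ∈ P} → Option ι → M) :
    ∏ p, f p (τ p) = f Q none * ∏ p ∈ univ.erase Q, f p (τ p) := by
  rw [← mul_prod_erase univ _ (mem_univ Q), hτ]

private theorem nsq9_mu (Q : {p : ℕ // p ∈ P}) (τ : Col P ι) (hτ : τ Q = none) (j : ι) :
    MT.mu (Function.update τ Q (some j)) = -MT.mu τ := by
  have h1 := nsq9_split Q τ (some j) (fun _ o => if o = none then (1 : ℝ) else -1)
  have h2 := nsq9_base Q τ hτ (fun _ o => if o = none then (1 : ℝ) else -1)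
  unfold MT.mu
  simp only [if_true, reduceCtorEq, if_false] at h1 h2
  rw [h1, h2]
  ring

private theorem nsq9_tot (Q : {p : ℕ // p ∈ P}) (τ : Col P ι) (hτ : τ Q = none) (j : ι) :
    tot (Function.update τ Q (some j)) = (Q : ℕ) * tot τ := by
  have h1 := nsq9_split Q τ (some j) (fun p o => if o = none then 1 else (p : ℕ))
  have h2 := nsq9_base Q τ hτ (fun p o => if o = none then 1 else (p : ℕ))
  unfold tot
  simp only [if_true, reduceCtorEq, if_false] at h1 h2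
  rw [h1, h2, one_mul]

private theorem nsq9_prt (Q : {p : ℕ // p ∈ P}) (τ : Col P ι) (hτ : τ Q = none) (i j : ι) :
    prt i (Function.update τ Q (some j)) = (if j = i then (Q : ℕ) else 1) * prt i τ := by
  have h1 := nsq9_split Q τ (some j) (fun p o => if o = some i then (p : ℕ) else 1)
  have h2 := nsq9_base Q τ hτ (fun p o => if o = some i then (p : ℕ) else 1)
  unfold prt
  simp only [reduceCtorEq, if_false, Option.some.injEq] at h1 h2
  rw [h1, h2, one_mul]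

private theorem nsq9_yy_nonneg (g : ℕ → ℝ) (hg0 : ∀ n, 0 ≤ g n) (R : ℕ) (τ : Col P ι) :
    0 ≤ yy g R τ := by
  unfold yy
  split_ifs
  · exact prod_nonneg (fun i _ => hg0 _)
  · exact le_rfl

private theorem nsq9_yy_le (g : ℕ → ℝ) (hg0 : ∀ n, 0 ≤ g n) (hg2 : ∀ a b, a ≤ b → g b ≤ g a)
    (R : ℕ) (Q : {p : ℕ // p ∈ P}) (hQ : 1 ≤ (Q : ℕ)) (τ : Col P ι) (hτ : τ Q = none) (j : ι) :
    yy g R (Function.update τ Q (some j)) ≤ yy g R τ := by
  have ht := nsq9_tot Q τ hτ j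
  have ht1 : tot τ ≤ (Q : ℕ) * tot τ := Nat.le_mul_of_pos_left _ hQ
  unfold yy
  by_cases h1 : tot (Function.update τ Q (some j)) ≤ R
  · rw [if_pos h1, if_pos (by omega)]
    refine prod_le_prod (fun i _ => hg0 _) (fun i _ => hg2 _ _ ?_)
    rw [nsq9_prt Q τ hτ]
    split_ifs
    · exact Nat.le_mul_of_pos_left _ hQ
    · rw [one_mul]
  · rw [if_neg h1]
    split_ifs
    · exact prod_nonneg (fun i _ => hg0 _)
    · exact le_rfl

/-- first main term -/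
private noncomputable def nsq9_A (g : ℕ → ℝ) (Q : {p : ℕ // p ∈ P}) (l : ι) (τ : Col P ι) : ℝ :=
  ∏ i, if i = l then (g (prt i τ) - g ((Q : ℕ) * prt i τ)) ^ 2 else g (prt i τ) ^ 2

/-- second main term -/
private noncomputable def nsq9_B (g : ℕ → ℝ) (R : ℕ) (Q : {p : ℕ // p ∈ P}) (τ : Col P ι) : ℝ :=
  if (R : ℝ) / (Q : ℕ) < tot τ ∧ tot τ ≤ R then ∏ i, g (prt i τ) ^ 2 else 0

private theorem nsq9_A0 (g : ℕ → ℝ) (Q : {p : ℕ // p ∈ P}) (l : ι) (τ : Col P ι) :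
    0 ≤ nsq9_A g Q l τ := by
  unfold nsq9_A
  refine prod_nonneg fun i _ => ?_
  split_ifs <;> positivity

private theorem nsq9_B0 (g : ℕ → ℝ) (R : ℕ) (Q : {p : ℕ // p ∈ P}) (τ : Col P ι) :
    0 ≤ nsq9_B g R Q τ := by
  unfold nsq9_B
  split_ifs
  · exact prod_nonneg fun i _ => sq_nonneg _
  · exact le_rfl

private theorem nsq9_D (g : ℕ → ℝ) (R : ℕ) (Q : {p : ℕ // p ∈ P}) (hQ : 1 ≤ (Q : ℕ)) (l : ι)
    (τ : Col P ι) (hτ : τ Q = none) :
    (yy g R τ - yy g R (Function.update τ Q (some l))) ^ 2 ≤ nsq9_A g Q l τ + nsq9_B g R Q τ := by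
  have hA := nsq9_A0 g Q l τ
  have hB := nsq9_B0 g R Q τ
  have ht := nsq9_tot Q τ hτ l
  have ht1 : tot τ ≤ (Q : ℕ) * tot τ := Nat.le_mul_of_pos_left _ hQ
  have hQ0 : (0 : ℝ) < ((Q : ℕ) : ℝ) := by exact_mod_cast hQ
  by_cases h1 : tot τ ≤ R
  · by_cases h2 : (Q : ℕ) * tot τ ≤ R
    · have e1 : yy g R τ = ∏ i, g (prt i τ) := by
        unfold yy
        rw [if_pos h1]
      have e2 : yy g R (Function.update τ Q (some l)) =
          ∏ i, g (prt i (Function.update τ Q (some l))) := by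
        unfold yy
        rw [if_pos (by omega)]
      have e3 : (yy g R τ - yy g R (Function.update τ Q (some l))) ^ 2 = nsq9_A g Q l τ := by
        rw [e1, e2]
        unfold nsq9_A
        rw [← mul_prod_erase univ _ (mem_univ l), ← mul_prod_erase univ _ (mem_univ l),
          ← mul_prod_erase univ _ (mem_univ l), if_pos rfl]
        have e4 : ∏ i ∈ univ.erase l, g (prt i (Function.update τ Q (some l))) =
            ∏ i ∈ univ.erase l, g (prt i τ) := by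
          refine prod_congr rfl fun i hi => ?_
          rw [nsq9_prt Q τ hτ, if_neg (ne_of_mem_erase hi).symm, one_mul]
        have e5 : (∏ i ∈ univ.erase l, if i = l then (g (prt i τ) - g ((Q : ℕ) * prt i τ)) ^ 2
            else g (prt i τ) ^ 2) = (∏ i ∈ univ.erase l, g (prt i τ)) ^ 2 := by
          rw [← prod_pow]
          refine prod_congr rfl fun i hi => ?_
          rw [if_neg (ne_of_mem_erase hi)]
        rw [e4, e5, nsq9_prt Q τ hτ, if_pos rfl]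
        ring
      linarith
    · have e1 : yy g R τ = ∏ i, g (prt i τ) := by
        unfold yy
        rw [if_pos h1]
      have e2 : yy g R (Function.update τ Q (some l)) = 0 := by
        unfold yy
        rw [if_neg (by omega)]
      have e3 : nsq9_B g R Q τ = ∏ i, g (prt i τ) ^ 2 := by
        unfold nsq9_B
        refine if_pos ⟨?_, h1⟩
        rw [div_lt_iff₀ hQ0]
        have : R < (Q : ℕ) * tot τ := by omega
        have h3 : (R : ℝ) < ((Q : ℕ) : ℝ) * tot τ := by exact_mod_cast this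
        linarith
      rw [e1, e2, sub_zero, ← prod_pow, ← e3]
      linarith
  · have e1 : yy g R τ = 0 := by
      unfold yy
      rw [if_neg h1]
    have e2 : yy g R (Function.update τ Q (some l)) = 0 := by
      unfold yy
      rw [if_neg (by omega)]
    rw [e1, e2]
    linarith

private theorem nsq9_mu2 (ρ : Col P ι) : MT.mu ρ ^ 2 = 1 := by
  unfold MT.mu
  rw [← prod_pow]
  refine prod_eq_one (fun p _ => ?_)
  split_ifs <;> norm_num

private theorem nsq9_pt (g : ℕ → ℝ) (hg0 : ∀ n, 0 ≤ g n) (hg2 : ∀ a b, a ≤ b → g b ≤ g a)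
    (R : ℕ) (Q : {p : ℕ // p ∈ P}) (hQ : 1 ≤ (Q : ℕ)) (l : ι) (τ : Col P ι) (hτ : τ Q = none) :
    v9 Q l (zz g R) τ ^ 2 ≤ 2 * nsq9_A g Q l τ + 2 * nsq9_B g R Q τ +
      2 * (Fintype.card ι / ((Q : ℕ) : ℝ)) ^ 2 * zz g R τ ^ 2 := by
  have hQ0 : (0 : ℝ) < ((Q : ℕ) : ℝ) := by exact_mod_cast hQ
  have h0 : Function.update τ Q none = τ := by
    rw [← hτ, Function.update_eq_self]
  have hz : ∀ j, zz g R (Function.update τ Q (some j)) =
      -(MT.mu τ * yy g R (Function.update τ Q (some j))) := by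
    intro j
    unfold zz
    rw [nsq9_mu Q τ hτ]
    ring
  have h1 : v9 Q l (zz g R) τ = MT.mu τ * ((yy g R τ - yy g R (Function.update τ Q (some l))) +
      1 / ((Q : ℕ) : ℝ) * ∑ j, yy g R (Function.update τ Q (some j))) := by
    unfold v9
    rw [h0, hz, sum_congr rfl fun j _ => hz j, sum_neg_distrib, ← mul_sum]
    unfold zz
    ring
  have h2 : zz g R τ ^ 2 = yy g R τ ^ 2 := by
    unfold zz
    rw [mul_pow, nsq9_mu2, one_mul]
  rw [h1, mul_pow, nsq9_mu2, one_mul, h2]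
  have h3 := nsq9_D g R Q hQ l τ hτ
  have h4 : 1 / ((Q : ℕ) : ℝ) * ∑ j, yy g R (Function.update τ Q (some j)) ≤
      Fintype.card ι / ((Q : ℕ) : ℝ) * yy g R τ := by
    have h5 : ∑ j, yy g R (Function.update τ Q (some j)) ≤ Fintype.card ι * yy g R τ := by
      calc ∑ j, yy g R (Function.update τ Q (some j)) ≤ ∑ _j : ι, yy g R τ :=
            sum_le_sum fun j _ => nsq9_yy_le g hg0 hg2 R Q hQ τ hτ j
        _ = Fintype.card ι * yy g R τ := by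
            rw [sum_const, card_univ, nsmul_eq_mul]
    calc 1 / ((Q : ℕ) : ℝ) * ∑ j, yy g R (Function.update τ Q (some j)) ≤
          1 / ((Q : ℕ) : ℝ) * (Fintype.card ι * yy g R τ) :=
          mul_le_mul_of_nonneg_left h5 (by positivity)
      _ = Fintype.card ι / ((Q : ℕ) : ℝ) * yy g R τ := by ring
  have h5 : 0 ≤ 1 / ((Q : ℕ) : ℝ) * ∑ j, yy g R (Function.update τ Q (some j)) :=
    mul_nonneg (by positivity) (sum_nonneg fun j _ => nsq9_yy_nonneg g hg0 R _)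
  have h6 := pow_le_pow_left₀ h5 h4 2
  rw [mul_pow] at h6
  have h7 : ∀ a b : ℝ, (a + b) ^ 2 ≤ 2 * a ^ 2 + 2 * b ^ 2 := fun a b => by nlinarith [sq_nonneg (a - b)]
  have h8 := h7 (yy g R τ - yy g R (Function.update τ Q (some l)))
    (1 / ((Q : ℕ) : ℝ) * ∑ j, yy g R (Function.update τ Q (some j)))
  linarith

private theorem nsq9_gg (J : ℕ) (ℓ : ℝ) (q r : ℕ) (hq : 1 ≤ q) :
    gg J ℓ r - gg J ℓ (q * r) ≤ ∑ j ∈ range (J + 1),
      if Real.exp (2 ^ j * ℓ) / q < r ∧ (r : ℝ) ≤ Real.exp (2 ^ j * ℓ) then (1 : ℝ) else 0 := by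
  have hq0 : (0 : ℝ) < q := by exact_mod_cast hq
  have key : ∀ y c : ℝ, 0 ≤ c → c ≤ 1 →
      (if (r : ℝ) ≤ y then c else 0) - (if ((q * r : ℕ) : ℝ) ≤ y then c else 0) ≤
        if y / q < r ∧ (r : ℝ) ≤ y then (1 : ℝ) else 0 := by
    intro y c hc0 hc1
    by_cases h1 : (r : ℝ) ≤ y
    · by_cases h2 : ((q * r : ℕ) : ℝ) ≤ y
      · rw [if_pos h1, if_pos h2]
        split_ifs
        · linarith
        · linarith
      · have h3 : y / q < r := by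
          rw [div_lt_iff₀ hq0]
          push_cast at h2
          linarith
        rw [if_pos h1, if_neg h2, if_pos ⟨h3, h1⟩]
        linarith
    · rw [if_neg h1]
      have h2 : ¬ (y / q < r ∧ (r : ℝ) ≤ y) := fun h => h1 h.2
      rw [if_neg h2]
      split_ifs
      · linarith
      · linarith
  rw [sum_range_succ]
  unfold gg
  have h1 : ∑ j ∈ range J, (if (r : ℝ) ≤ Real.exp (2 ^ j * ℓ) then (1 / 2 : ℝ) ^ (j + 1) else 0) -
      ∑ j ∈ range J, (if ((q * r : ℕ) : ℝ) ≤ Real.exp (2 ^ j * ℓ) then (1 / 2 : ℝ) ^ (j + 1) else 0) ≤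
      ∑ j ∈ range J,
        if Real.exp (2 ^ j * ℓ) / q < r ∧ (r : ℝ) ≤ Real.exp (2 ^ j * ℓ) then (1 : ℝ) else 0 := by
    rw [← sum_sub_distrib]
    exact sum_le_sum fun j _ => key _ _ (by positivity) (pow_le_one₀ (by norm_num) (by norm_num))
  have h2 := key (Real.exp (2 ^ J * ℓ)) ((1 / 2 : ℝ) ^ J) (by positivity)
    (pow_le_one₀ (by norm_num) (by norm_num))
  linarith

private theorem nsq9_SA (g : ℕ → ℝ) (Q : {p : ℕ // p ∈ P}) (l : ι) :
    ∑ τ : Col P ι, nsq9_A g Q l τ / (tot τ : ℝ) ≤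
      (∑ s ∈ P.powerset, (g (MT.pr s) - g ((Q : ℕ) * MT.pr s)) ^ 2 / (MT.pr s : ℝ)) *
        BB P g ^ (Fintype.card ι - 1) := by
  have h1 := col9a (P := P) (ι := ι) (fun i s => (if i = l then
    (g (MT.pr s) - g ((Q : ℕ) * MT.pr s)) ^ 2 else g (MT.pr s) ^ 2) / (MT.pr s : ℝ))
    (fun i s => by split_ifs <;> positivity)
  have h2 : ∀ τ : Col P ι, nsq9_A g Q l τ / (tot τ : ℝ) = ∏ i, (if i = l then
      (g (MT.pr (part i τ)) - g ((Q : ℕ) * MT.pr (part i τ))) ^ 2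
      else g (MT.pr (part i τ)) ^ 2) / (MT.pr (part i τ) : ℝ) := by
    intro τ
    unfold nsq9_A
    rw [prod_div_distrib, tot_eq, Nat.cast_prod]
    congr 1
    · refine prod_congr rfl fun i _ => ?_
      rw [prt_eq]
    · refine prod_congr rfl fun i _ => ?_
      rw [prt_eq]
  rw [sum_congr rfl fun τ _ => h2 τ]
  refine h1.trans (le_of_eq ?_)
  rw [← mul_prod_erase univ _ (mem_univ l)]
  simp only [if_true]
  congr 1
  have h3 : ∀ i ∈ univ.erase l, ∑ s ∈ P.powerset, (if i = l then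
      (g (MT.pr s) - g ((Q : ℕ) * MT.pr s)) ^ 2 else g (MT.pr s) ^ 2) / (MT.pr s : ℝ) = BB P g := by
    intro i hi
    unfold BB
    refine sum_congr rfl fun s _ => ?_
    rw [if_neg (ne_of_mem_erase hi)]
  rw [prod_congr rfl h3, prod_const, card_erase_of_mem (mem_univ l), card_univ]

private theorem nsq9_SB (g : ℕ → ℝ) (R : ℕ) (Q : {p : ℕ // p ∈ P}) :
    ∑ τ : Col P ι, nsq9_B g R Q τ / (tot τ : ℝ) =
      ∑ ρ ∈ univ.filter (fun ρ : Col P ι => (R : ℝ) / (Q : ℕ) < tot ρ ∧ tot ρ ≤ R),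
        (∏ i, g (prt i ρ) ^ 2) / (tot ρ : ℝ) := by
  rw [sum_filter]
  refine sum_congr rfl fun τ _ => ?_
  unfold nsq9_B
  split_ifs
  · rfl
  · rw [zero_div]

/-- the square sum, in terms of the three sums -/
private theorem nsq9_sum (hP : ∀ p ∈ P, 1 ≤ p) (g : ℕ → ℝ) (hg0 : ∀ n, 0 ≤ g n)
    (hg2 : ∀ a b, a ≤ b → g b ≤ g a) (R : ℕ) (Q : {p : ℕ // p ∈ P}) (l : ι) :
    ∑ τ ∈ univ.filter (fun τ : Col P ι => τ Q = none), v9 Q l (zz g R) τ ^ 2 / (tot τ : ℝ) ≤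
      2 * ((∑ s ∈ P.powerset, (g (MT.pr s) - g ((Q : ℕ) * MT.pr s)) ^ 2 / (MT.pr s : ℝ)) *
        BB P g ^ (Fintype.card ι - 1)) +
      2 * (∑ ρ ∈ univ.filter (fun ρ : Col P ι => (R : ℝ) / (Q : ℕ) < tot ρ ∧ tot ρ ≤ R),
        (∏ i, g (prt i ρ) ^ 2) / (tot ρ : ℝ)) +
      2 * (Fintype.card ι / ((Q : ℕ) : ℝ)) ^ 2 * BB P g ^ Fintype.card ι := by
  have hQ := hP Q.1 Q.2
  have h1 : ∑ τ ∈ univ.filter (fun τ : Col P ι => τ Q = none),
      v9 Q l (zz g R) τ ^ 2 / (tot τ : ℝ) ≤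
      ∑ τ ∈ univ.filter (fun τ : Col P ι => τ Q = none), (2 * nsq9_A g Q l τ +
        2 * nsq9_B g R Q τ + 2 * (Fintype.card ι / ((Q : ℕ) : ℝ)) ^ 2 * zz g R τ ^ 2) /
          (tot τ : ℝ) := by
    refine sum_le_sum fun τ hτ => ?_
    exact div_le_div_of_nonneg_right (nsq9_pt g hg0 hg2 R Q hQ l τ (mem_filter.mp hτ).2)
      (Nat.cast_nonneg _)
  have h2 : ∑ τ ∈ univ.filter (fun τ : Col P ι => τ Q = none), (2 * nsq9_A g Q l τ +
        2 * nsq9_B g R Q τ + 2 * (Fintype.card ι / ((Q : ℕ) : ℝ)) ^ 2 * zz g R τ ^ 2) /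
          (tot τ : ℝ) ≤ ∑ τ : Col P ι, (2 * nsq9_A g Q l τ +
        2 * nsq9_B g R Q τ + 2 * (Fintype.card ι / ((Q : ℕ) : ℝ)) ^ 2 * zz g R τ ^ 2) /
          (tot τ : ℝ) := by
    refine sum_le_sum_of_subset_of_nonneg (filter_subset _ _) fun τ _ _ => ?_
    have hA := nsq9_A0 g Q l τ
    have hB := nsq9_B0 g R Q τ
    positivity
  have h3 : ∑ τ : Col P ι, (2 * nsq9_A g Q l τ +
        2 * nsq9_B g R Q τ + 2 * (Fintype.card ι / ((Q : ℕ) : ℝ)) ^ 2 * zz g R τ ^ 2) /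
          (tot τ : ℝ) = 2 * ∑ τ : Col P ι, nsq9_A g Q l τ / (tot τ : ℝ) +
          2 * ∑ τ : Col P ι, nsq9_B g R Q τ / (tot τ : ℝ) +
          2 * (Fintype.card ι / ((Q : ℕ) : ℝ)) ^ 2 * ∑ τ : Col P ι, zz g R τ ^ 2 / (tot τ : ℝ) := by
    rw [mul_sum, mul_sum, mul_sum, ← sum_add_distrib, ← sum_add_distrib]
    refine sum_congr rfl fun τ _ => ?_
    ring
  have h4 := nsq9_SA g Q l (P := P) (ι := ι)
  have h5 := nsq9_SB g R Q (P := P) (ι := ι)
  have h6 := S1_main (ι := ι) hP R g hg0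
  have h7 : 0 ≤ 2 * (Fintype.card ι / ((Q : ℕ) : ℝ)) ^ 2 := by positivity
  have h8 := mul_le_mul_of_nonneg_left h6 h7
  rw [h5] at h3
  linarith

/-- the sum of the squares of the differences -/
private theorem nsq9_dif (J : ℕ) (ℓ : ℝ) (hℓ : 0 ≤ ℓ) (z R q : ℕ) (hq : 1 ≤ q) (D : ℝ)
    (hz : (z : ℝ) ≤ Real.exp ℓ / q)
    (hD : ∀ y Y₀ : ℝ, (z : ℝ) ≤ Y₀ → ∑ s ∈ (PP z R).powerset.filter (fun s =>
      y / q < (MT.pr s : ℝ) ∧ (MT.pr s : ℝ) ≤ y ∧ Y₀ < (MT.pr s : ℝ)), 1 / (MT.pr s : ℝ) ≤ D) :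
    ∑ s ∈ (PP z R).powerset, (gg J ℓ (MT.pr s) - gg J ℓ (q * MT.pr s)) ^ 2 / (MT.pr s : ℝ) ≤
      (J + 1) * D := by
  have h1 : ∀ r : ℕ, (gg J ℓ r - gg J ℓ (q * r)) ^ 2 ≤ ∑ j ∈ range (J + 1),
      if Real.exp (2 ^ j * ℓ) / q < r ∧ (r : ℝ) ≤ Real.exp (2 ^ j * ℓ) then (1 : ℝ) else 0 := by
    intro r
    refine le_trans ?_ (nsq9_gg J ℓ q r hq)
    have h2 : 0 ≤ gg J ℓ r - gg J ℓ (q * r) :=
      sub_nonneg.mpr (gg_anti J ℓ hℓ _ _ (Nat.le_mul_of_pos_left _ hq))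
    have h3 : gg J ℓ r - gg J ℓ (q * r) ≤ 1 := by
      have := gg_le_one J ℓ r
      have := gg_nonneg J ℓ (q * r)
      linarith
    nlinarith
  calc ∑ s ∈ (PP z R).powerset, (gg J ℓ (MT.pr s) - gg J ℓ (q * MT.pr s)) ^ 2 / (MT.pr s : ℝ)
      ≤ ∑ s ∈ (PP z R).powerset, ∑ j ∈ range (J + 1),
        if Real.exp (2 ^ j * ℓ) / q < (MT.pr s : ℝ) ∧ (MT.pr s : ℝ) ≤ Real.exp (2 ^ j * ℓ) then
          1 / (MT.pr s : ℝ) else 0 := by
        refine sum_le_sum fun s _ => ?_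
        refine (div_le_div_of_nonneg_right (h1 _) (Nat.cast_nonneg _)).trans (le_of_eq ?_)
        rw [sum_div]
        refine sum_congr rfl fun j _ => ?_
        split_ifs
        · rfl
        · rw [zero_div]
    _ = ∑ j ∈ range (J + 1), ∑ s ∈ (PP z R).powerset,
        if Real.exp (2 ^ j * ℓ) / q < (MT.pr s : ℝ) ∧ (MT.pr s : ℝ) ≤ Real.exp (2 ^ j * ℓ) then
          1 / (MT.pr s : ℝ) else 0 := sum_comm
    _ ≤ ∑ _j ∈ range (J + 1), D := by
        refine sum_le_sum fun j _ => ?_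
        refine le_trans (le_of_eq ?_) (hD (Real.exp (2 ^ j * ℓ)) (Real.exp (2 ^ j * ℓ) / q) ?_)
        · rw [sum_filter]
          refine sum_congr rfl fun s _ => ?_
          by_cases h : Real.exp (2 ^ j * ℓ) / q < (MT.pr s : ℝ) ∧
              (MT.pr s : ℝ) ≤ Real.exp (2 ^ j * ℓ)
          · rw [if_pos h, if_pos ⟨h.1, h.2, h.1⟩]
          · rw [if_neg h, if_neg (fun h' => h ⟨h'.1, h'.2.1⟩)]
        · refine hz.trans (div_le_div_of_nonneg_right ?_ (Nat.cast_nonneg _))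
          refine Real.exp_le_exp.mpr (le_mul_of_one_le_left hℓ (one_le_pow₀ (by norm_num)))
    _ = (J + 1) * D := by
        rw [sum_const, card_range, nsmul_eq_mul]
        push_cast
        ring

theorem nsq9 (J k : ℕ) (C₁ : ℝ) (hJ : 1 ≤ J) (hk : 1 ≤ k) (hkJ : k = 2 ^ J) (hC : 1 ≤ C₁) : ∃ C θ₀ : ℝ, 0 < C ∧ 0 < θ₀ ∧
    ∀ B : ℕ, 1 ≤ B → ∃ X₀ : ℕ, ∀ X : ℕ, X₀ ≤ X → ∀ Q : {p : ℕ // p ∈ PP (zX B X) (RX X)},
    ((Q : ℕ) : ℝ) ≤ (X : ℝ) ^ θ₀ → ∀ l : Fin k,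
    ∑ τ ∈ univ.filter (fun τ : Col (PP (zX B X) (RX X)) (Fin k) => τ Q = none),
      v9 Q l (zz (gg J (lX C₁ J k X)) (RX X)) τ ^ 2 / (tot τ : ℝ) ≤
      C * bX C₁ J k B X ^ k * (Real.log (Q : ℕ) / Real.log X) := by
  have _ := hkJ
  obtain ⟨Cd, hCd, hd⟩ := dsh9
  obtain ⟨Cc, hCc, hc9⟩ := col9b
  have hJR : (1 : ℝ) ≤ J := by exact_mod_cast hJ
  have hkR : (1 : ℝ) ≤ k := by exact_mod_cast hk
  obtain ⟨M, hM⟩ : ∃ M : ℝ, M = 16 * C₁ * J * k := ⟨_, rfl⟩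
  have hM1 : 1 ≤ M := by
    rw [hM]
    have h1 : (1 : ℝ) ≤ 16 * C₁ := by linarith
    have h2 : (1 : ℝ) ≤ 16 * C₁ * J := one_le_mul_of_one_le_of_one_le h1 hJR
    exact one_le_mul_of_one_le_of_one_le h2 hkR
  have hM0 : 0 < M := by linarith
  refine ⟨2 * (J + 1) * Cd * (4000 * M) + 2 * k * Cc * (4000 * M) + 4 * k ^ 2, 1 / (4000 * M),
    by positivity, by positivity, fun B hB => ?_⟩
  obtain ⟨X₇, hnum⟩ := num8 C₁ hC J k B hJ hk
  obtain ⟨X₈, hX8⟩ := Filter.eventually_atTop.mp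
    (RNum6_pow 1 (1 / (4000 * M)) (by positivity) (B * k))
  refine ⟨max X₇ X₈, fun X hX Q hQ l => ?_⟩
  have hXX7 : X₇ ≤ X := le_trans (le_max_left _ _) hX
  have hXX8 : X₈ ≤ X := le_trans (le_max_right _ _) hX
  obtain ⟨⟨n1, n2, n3, n4⟩, ⟨n5, n6, n7⟩, ⟨n8, n9⟩, ⟨n10, n11⟩⟩ :=
    hnum X hXX7 (RX X) rfl (lX C₁ J k X) rfl
  have hpw := hX8 X hXX8
  rw [one_mul] at hpw
  obtain ⟨z, hz⟩ : ∃ z : ℕ, z = zX B X := ⟨_, rfl⟩
  obtain ⟨R, hR⟩ : ∃ R : ℕ, R = RX X := ⟨_, rfl⟩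
  obtain ⟨ℓ, hℓ⟩ : ∃ ℓ : ℝ, ℓ = lX C₁ J k X := ⟨_, rfl⟩
  obtain ⟨L, hL⟩ : ∃ L : ℝ, L = Real.log X := ⟨_, rfl⟩
  obtain ⟨q, hq⟩ : ∃ q : ℕ, q = (Q : ℕ) := ⟨_, rfl⟩
  have hzL : (z : ℝ) ≤ L ^ B := by
    rw [hz, hL]
    unfold zX
    exact Nat.floor_le (by positivity)
  have hzL' : L ^ B < z + 1 := by
    rw [hz, hL]
    unfold zX
    exact Nat.lt_floor_add_one _
  have hℓM : ℓ = Real.log R / M := by
    rw [hℓ, hR, hM]
    rfl
  have hbX : bX C₁ J k B X = BB (PP (zX B X) (RX X)) (gg J ℓ) := by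
    rw [hℓ]
    rfl
  have hQP : z < q ∧ q.Prime ∧ q ≤ R := by
    have h1 := Q.2
    unfold PP at h1
    rw [mem_filter, mem_range] at h1
    rw [hz, hq, hR]
    exact ⟨h1.2.2, h1.2.1, by omega⟩
  rw [← hL] at n7 n10 n9 hpw
  rw [← hℓ] at n8 n9
  rw [← hR] at n1 n2 n4 n5
  rw [← hq] at hQ
  have hX0 : (0 : ℝ) < X := by
    have h1 : 0 < X := by omega
    exact_mod_cast h1
  have hX1 : (1 : ℝ) ≤ X := by
    have h1 : 1 ≤ X := by omega
    exact_mod_cast h1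
  have hL0 : 0 < L := by linarith
  have hL1 : 1 ≤ L := by linarith
  have hlogR : L / 2000 ≤ Real.log R := by
    refine le_trans ?_ n5
    rw [hL]
    have h1 : Real.log X ≤ Real.log (3 * X) := Real.log_le_log hX0 (by linarith)
    linarith
  have hR0 : (0 : ℝ) < R := by
    have h1 : 0 < R := by omega
    exact_mod_cast h1
  have hlogR0 : 0 < Real.log R := by linarith [div_pos hL0 (by norm_num : (0 : ℝ) < 2000)]
  have hℓL : L / (2000 * M) ≤ ℓ := by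
    rw [hℓM, ← div_div]
    exact div_le_div_of_nonneg_right hlogR hM0.le
  have hℓ0 : 0 ≤ ℓ := le_trans (by positivity) hℓL
  have hexpR : Real.exp ℓ ≤ R := by
    rw [← Real.exp_log hR0, Real.exp_le_exp, hℓM]
    exact div_le_self hlogR0.le hM1
  have hX2 : (X : ℝ) ^ (1 / (4000 * M)) * (X : ℝ) ^ (1 / (4000 * M)) ≤ Real.exp ℓ := by
    rw [← Real.rpow_add hX0, Real.rpow_def_of_pos hX0, Real.exp_le_exp, ← hL]
    refine le_trans (le_of_eq ?_) hℓL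
    field_simp
    ring
  have hq2 : 2 ≤ q := hQP.2.1.two_le
  have hq0 : (0 : ℝ) < q := by
    have h1 : 0 < q := by omega
    exact_mod_cast h1
  have hX3 : 0 ≤ (X : ℝ) ^ (1 / (4000 * M)) := by positivity
  have hLBk : L ^ B ≤ L ^ (B * k) := pow_le_pow_right₀ hL1 (Nat.le_mul_of_pos_right _ hk)
  have hzq : (z : ℝ) ≤ Real.exp ℓ / q := by
    rw [le_div_iff₀ hq0]
    refine le_trans ?_ hX2
    exact mul_le_mul (hzL.trans (hLBk.trans hpw)) hQ hq0.le hX3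
  have hzk : (z : ℝ) ^ Fintype.card (Fin k) ≤ (R : ℝ) / q := by
    rw [le_div_iff₀ hq0, Fintype.card_fin]
    refine le_trans ?_ (hX2.trans hexpR)
    refine mul_le_mul ?_ hQ hq0.le hX3
    refine le_trans ?_ hpw
    rw [pow_mul]
    exact pow_le_pow_left₀ (Nat.cast_nonneg _) hzL k
  have hLB : L ≤ L ^ B := le_self_pow₀ hL1 (by omega)
  have hz2 : 2 ≤ z := by
    have h1 : (1 : ℝ) < z := by linarith
    have h2 : 1 < z := by exact_mod_cast h1
    omega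
  have hqL : L ≤ q := by
    have h1 : (z : ℝ) + 1 ≤ q := by exact_mod_cast hQP.1
    linarith
  have hκ0 : 0 < kap z := kap_pos z
  have hlq : 1 / 2 ≤ Real.log q := by
    have h1 : Real.log 2 ≤ Real.log q := Real.log_le_log (by norm_num) (by exact_mod_cast hq2)
    have h2 := Real.log_two_gt_d9
    linarith
  have hDl := DD_lower z R (Real.exp ℓ) (Real.one_le_exp hℓ0) hexpR
  rw [Real.log_exp] at hDl
  have hBBl := BB_lower J ℓ hℓ0 (PP z R) (kap z) hDl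
  have hBB1 := BB_one J ℓ hℓ0 (PP z R)
  obtain ⟨b, hb⟩ : ∃ b : ℝ, b = BB (PP z R) (gg J ℓ) := ⟨_, rfl⟩
  rw [← hb] at hBBl hBB1
  have hb0 : 0 < b := by linarith
  have hκb : kap z ≤ 4000 * M * (b / L) := by
    have h1 : kap z / 2 * (L / (2000 * M)) ≤ b :=
      (mul_le_mul_of_nonneg_left hℓL (by positivity)).trans hBBl
    have h2 : kap z / 2 * (L / (2000 * M)) = kap z * L / (4000 * M) := by
      field_simp
      ring
    rw [h2, div_le_iff₀ (by positivity)] at h1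
    rw [← mul_div_assoc, le_div_iff₀ hL0]
    linarith
  have hbk : b ^ k = b * b ^ (k - 1) := by
    rw [← pow_succ']
    congr 1
    omega
  have hP : ∀ p ∈ PP (zX B X) (RX X), 1 ≤ p := by
    intro p hp
    unfold PP at hp
    exact (mem_filter.mp hp).2.1.one_le
  have hsum := nsq9_sum (ι := Fin k) hP (gg J ℓ) (gg_nonneg J ℓ) (gg_anti J ℓ hℓ0) (RX X) Q l
  have hne : Nonempty (Fin k) := ⟨l⟩
  have h1 := nsq9_dif J ℓ hℓ0 z R q (by omega) (Cd * kap z * Real.log q) hzq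
    (fun y Y₀ hY => hd z R q hz2 hq2 y Y₀ hY)
  have h2 := hc9 (Fin k) z R q hz2 hq2 z le_rfl hzk (gg J ℓ) (gg_nonneg J ℓ) (gg_le_one J ℓ)
  rw [Fintype.card_fin] at hsum h2
  subst hz
  subst hR
  rw [← hb, ← hq] at hsum
  rw [← hb] at h2
  rw [hbX, ← hb, ← hℓ, ← hq, ← hL]
  obtain ⟨A, hA⟩ : ∃ A : ℝ, A = ∑ s ∈ (PP (zX B X) (RX X)).powerset,
    (gg J ℓ (MT.pr s) - gg J ℓ (q * MT.pr s)) ^ 2 / (MT.pr s : ℝ) := ⟨_, rfl⟩
  obtain ⟨S, hS⟩ : ∃ S : ℝ, S = ∑ ρ ∈ univ.filter (fun ρ : Col (PP (zX B X) (RX X)) (Fin k) =>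
    ((RX X : ℕ) : ℝ) / q < tot ρ ∧ tot ρ ≤ RX X), (∏ i, gg J ℓ (prt i ρ) ^ 2) / (tot ρ : ℝ) :=
    ⟨_, rfl⟩
  rw [← hA] at h1 hsum
  rw [← hS] at h2 hsum
  refine hsum.trans ?_
  have hlq0 : 0 < Real.log q := by linarith
  have hκ2 : kap (zX B X) * Real.log q * b ^ (k - 1) ≤ 4000 * M * (b ^ k * (Real.log q / L)) := by
    calc kap (zX B X) * Real.log q * b ^ (k - 1) ≤
          4000 * M * (b / L) * Real.log q * b ^ (k - 1) := by gcongr
      _ = 4000 * M * (b * b ^ (k - 1) * (Real.log q / L)) := by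
          field_simp
      _ = 4000 * M * (b ^ k * (Real.log q / L)) := by rw [← hbk]
  have t1 : A * b ^ (k - 1) ≤ (J + 1) * Cd * (4000 * M) * (b ^ k * (Real.log q / L)) := by
    calc A * b ^ (k - 1) ≤ (J + 1) * (Cd * kap (zX B X) * Real.log q) * b ^ (k - 1) := by gcongr
      _ = (J + 1) * Cd * (kap (zX B X) * Real.log q * b ^ (k - 1)) := by ring
      _ ≤ (J + 1) * Cd * (4000 * M * (b ^ k * (Real.log q / L))) := by gcongr
      _ = (J + 1) * Cd * (4000 * M) * (b ^ k * (Real.log q / L)) := by ring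
  have t2 : S ≤ k * Cc * (4000 * M) * (b ^ k * (Real.log q / L)) := by
    calc S ≤ k * (Cc * kap (zX B X) * Real.log q) * b ^ (k - 1) := h2
      _ = k * Cc * (kap (zX B X) * Real.log q * b ^ (k - 1)) := by ring
      _ ≤ k * Cc * (4000 * M * (b ^ k * (Real.log q / L))) := by gcongr
      _ = k * Cc * (4000 * M) * (b ^ k * (Real.log q / L)) := by ring
  have t3 : ((k : ℝ) / q) ^ 2 ≤ 2 * (k ^ 2 * (Real.log q / L)) := by
    have h3 : (1 : ℝ) / q ≤ 1 / L := one_div_le_one_div_of_le hL0 hqL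
    have h4 : (1 : ℝ) / q ≤ 1 := by
      rw [div_le_one hq0]
      linarith
    have h5 : (0 : ℝ) < 1 / q := by positivity
    calc ((k : ℝ) / q) ^ 2 = k ^ 2 * (1 / q * (1 / q)) := by
          rw [div_pow, one_div_mul_one_div, ← pow_two, mul_one_div]
      _ ≤ k ^ 2 * (1 / L * 1) := by gcongr
      _ = k ^ 2 * (1 / L) := by rw [mul_one]
      _ ≤ k ^ 2 * (2 * Real.log q / L) := by
          refine mul_le_mul_of_nonneg_left ?_ (by positivity)
          exact div_le_div_of_nonneg_right (by linarith) hL0.le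
      _ = 2 * (k ^ 2 * (Real.log q / L)) := by ring
  have t4 : ((k : ℝ) / q) ^ 2 * b ^ k ≤ 2 * (k ^ 2 * (Real.log q / L)) * b ^ k :=
    mul_le_mul_of_nonneg_right t3 (by positivity)
  calc 2 * (A * b ^ (k - 1)) + 2 * S + 2 * ((k : ℝ) / q) ^ 2 * b ^ k
      = 2 * (A * b ^ (k - 1)) + 2 * S + 2 * (((k : ℝ) / q) ^ 2 * b ^ k) := by ring
    _ ≤ 2 * ((J + 1) * Cd * (4000 * M) * (b ^ k * (Real.log q / L))) +
        2 * (k * Cc * (4000 * M) * (b ^ k * (Real.log q / L))) +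
        2 * (2 * (k ^ 2 * (Real.log q / L)) * b ^ k) := by linarith
    _ = (2 * (J + 1) * Cd * (4000 * M) + 2 * k * Cc * (4000 * M) + 4 * k ^ 2) * b ^ k *
        (Real.log q / L) := by ring

end Pool.Agent.Lib.SH
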