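import Pool.Agent.Lib.SH.Wts8
import Pool.Agent.Lib.SH.Bad8
import Pool.Agent.Lib.SG.Comb7
import Pool.Agent.Lib.SG.Sing7
import Pool.Agent.Lib.SG.Mumass7

/-!
# SH-One8: one scale, clusters of bounded length, exceptional set X/(log X)^A for every A (helper10)
-/

set_option autoImplicit false

open Finset

namespace Pool.Agent.Lib.SH

open Pool.Agent.Lib.MT Pool.Agent.Lib.SG

private theorem one8_sing (X H₀ : ℕ) (r : ℕ → ℝ) (E : Finset ℕ) (c₀ : ℝ)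
    (hs : ∀ s ∈ E, c₀ * X ≤ ∑ x ∈ Ioc X (2 * X), r x * (if x + H₀ ≤ s then r (s - (x + H₀)) else 0)) :
    c₀ * X * E.card ≤ ∑ x ∈ Ioc X (2 * X), r x * cor E r (x + H₀) := by
  have h1 : ∑ x ∈ Ioc X (2 * X), r x * cor E r (x + H₀) =
      ∑ s ∈ E, ∑ x ∈ Ioc X (2 * X), r x * (if x + H₀ ≤ s then r (s - (x + H₀)) else 0) := by
    rw [sum_comm]
    refine sum_congr rfl fun x _ => ?_
    unfold cor
    rw [mul_sum]
  rw [h1]
  calc c₀ * X * E.card = ∑ s ∈ E, c₀ * X := by rw [sum_const, nsmul_eq_mul]; ring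
    _ ≤ _ := sum_le_sum hs

private def one8_e0 (k : ℕ) (i : Fin k) : Fin (2 * k) := ⟨i, by omega⟩

private theorem one8_e0_inj (k : ℕ) : Function.Injective (one8_e0 k) := by
  intro i j hij
  unfold one8_e0 at hij
  rw [Fin.mk.injEq] at hij
  exact Fin.ext hij

/-- the final numbers -/
private theorem one8_num (c₀ N k K₁ L X G₁ : ℝ) (κ a A₀ c : ℕ) (hc₀ : 0 < c₀) (hN : 1 ≤ N) (hk : 1 ≤ k) (hK : 0 ≤ K₁)
    (hL : 1 ≤ L) (hX : 0 < X) (ha : a = c * κ + A₀ * (κ + 1) + 2)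
    (hG : G₁ = 2 * N * (40 * N * k ^ 3 / c₀) ^ κ * (k ^ 2 + K₁))
    (h1 : 4 * G₁ / c₀ ≤ L) (h2 : 12 * N * K₁ / c₀ ≤ L) (τ : ℝ) (hτ : τ = c₀ * (1 / L ^ A₀) / (8 * k ^ 2)) :
    2 * X * (N * (5 * N * k / τ) ^ κ * ((k ^ 2 + K₁) * X * L ^ (c * κ) / L ^ a)) +
      2 * k ^ 2 * τ * X ^ 2 + N * (K₁ * (3 * X * L * (X / L ^ a))) < c₀ * (1 / L ^ A₀) * X ^ 2 := by
  have hL0 : 0 < L := by linarith
  have hk0 : 0 < k := by linarith
  have hN0 : 0 < N := by linarith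
  have e1 : 5 * N * k / τ = (40 * N * k ^ 3 / c₀) * L ^ A₀ := by
    rw [hτ]
    field_simp
    ring
  have e2 : L ^ a = L ^ (c * κ) * (L ^ A₀) ^ κ * L ^ A₀ * L ^ 2 := by
    rw [ha, ← pow_mul, ← pow_add, ← pow_add, ← pow_add]
    congr 1
    ring
  have e3 : 2 * X * (N * (5 * N * k / τ) ^ κ * ((k ^ 2 + K₁) * X * L ^ (c * κ) / L ^ a)) =
      G₁ / L ^ 2 * ((1 / L ^ A₀) * X ^ 2) := by
    rw [e1, e2, hG, mul_pow]
    field_simp
  have e4 : 2 * k ^ 2 * τ * X ^ 2 = c₀ / 4 * ((1 / L ^ A₀) * X ^ 2) := by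
    rw [hτ]
    field_simp
    ring
  have hG0 : 0 ≤ G₁ := by
    rw [hG]
    positivity
  have f1 : G₁ / L ^ 2 ≤ c₀ / 4 := by
    rw [div_le_iff₀ (by positivity)]
    rw [div_le_iff₀ hc₀] at h1
    have : L * c₀ ≤ L ^ 2 * c₀ := by
      apply mul_le_mul_of_nonneg_right _ hc₀.le
      nlinarith
    linarith
  have hcκ : 1 ≤ L ^ (c * κ) * (L ^ A₀) ^ κ := by
    have g1 : 1 ≤ L ^ (c * κ) := one_le_pow₀ hL
    have g2 : 1 ≤ (L ^ A₀) ^ κ := one_le_pow₀ (one_le_pow₀ hL)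
    nlinarith
  have f2 : N * (K₁ * (3 * X * L * (X / L ^ a))) ≤ c₀ / 4 * ((1 / L ^ A₀) * X ^ 2) := by
    have g1 : X / L ^ a ≤ X / (L ^ A₀ * L ^ 2) := by
      apply div_le_div_of_nonneg_left hX.le (by positivity)
      rw [e2]
      have : 0 < L ^ A₀ * L ^ 2 := by positivity
      nlinarith
    have g2 : N * (K₁ * (3 * X * L * (X / L ^ a))) ≤ N * (K₁ * (3 * X * L * (X / (L ^ A₀ * L ^ 2)))) := by
      gcongr
    have g3 : N * (K₁ * (3 * X * L * (X / (L ^ A₀ * L ^ 2)))) = (3 * N * K₁ / L) * ((1 / L ^ A₀) * X ^ 2) := by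
      field_simp
    have g4 : 3 * N * K₁ / L ≤ c₀ / 4 := by
      rw [div_le_iff₀ hL0]
      rw [div_le_iff₀ hc₀] at h2
      linarith
    rw [g3] at g2
    refine g2.trans ?_
    gcongr
  rw [e3, e4]
  have f3 : G₁ / L ^ 2 * ((1 / L ^ A₀) * X ^ 2) ≤ c₀ / 4 * ((1 / L ^ A₀) * X ^ 2) := by
    gcongr
  have f4 : 0 < c₀ * (1 / L ^ A₀) * X ^ 2 := by positivity
  have f5 : c₀ / 4 * ((1 / L ^ A₀) * X ^ 2) = c₀ * (1 / L ^ A₀) * X ^ 2 / 4 := by ring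
  rw [f5] at f2 f3 ⊢
  linarith

open Classical in
theorem one8 (m : ℕ) (hm : 1 ≤ m) : ∃ H : ℕ, ∀ A₀ : ℕ, ∃ C X₀ : ℕ, ∀ X : ℕ, X₀ ≤ X →
    ∀ A B : Set ℕ, Hit m H (2 * X) A → Hit m H (2 * X) B →
    (((range (8 * X)).filter (fun s => Even s ∧ 2 * X + X / 8 ≤ s ∧ s + X / 8 ≤ 4 * X ∧
      (rep A B s : ℝ) < X / (Real.log X) ^ C)).card : ℝ) ≤ X / (Real.log X) ^ A₀ := by
  obtain ⟨k, c, hk, hc, hW⟩ := wts8 m hm
  obtain ⟨c₀, hc₀, hsing0⟩ := sing7 (2 * k) (by omega)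
  obtain ⟨Inj, hInjd⟩ : ∃ Inj : Finset (Fin k → Fin (2 * k)), Inj = univ.filter Function.Injective :=
    ⟨_, rfl⟩
  have hInj : ∀ e, e ∈ Inj ↔ Function.Injective e := fun e => by
    rw [hInjd, mem_filter]
    exact ⟨fun h => h.2, fun h => ⟨mem_univ _, h⟩⟩
  obtain ⟨N, hN⟩ : ∃ N : ℕ, N = Inj.card := ⟨_, rfl⟩
  have hN1 : 1 ≤ N := by
    rw [hN]
    exact card_pos.2 ⟨one8_e0 k, (hInj _).2 (one8_e0_inj k)⟩
  obtain ⟨F, hF⟩ : ∃ F : ℕ, F = (2 * (2 * k)).factorial := ⟨_, rfl⟩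
  obtain ⟨H, hH⟩ : ∃ H : ℕ, H = (2 * k) * F := ⟨_, rfl⟩
  obtain ⟨H₀, hH₀⟩ : ∃ H₀ : ℕ, H₀ = (2 * k + 1) * F := ⟨_, rfl⟩
  have hHH₀ : H ≤ H₀ := by
    rw [hH, hH₀]
    exact Nat.mul_le_mul_right _ (by omega)
  have hkR : (1 : ℝ) ≤ k := by exact_mod_cast hk
  have hmR : (1 : ℝ) ≤ m := by exact_mod_cast hm
  have hNR : (1 : ℝ) ≤ N := by exact_mod_cast hN1
  -- κ
  obtain ⟨κ, hκd⟩ : ∃ κ : ℝ, κ = 1 / (m + k * H) := ⟨_, rfl⟩
  have hmkH : (1 : ℝ) ≤ m + k * H := by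
    have : (0 : ℝ) ≤ k * H := by positivity
    linarith
  have hκ : 0 < κ := by
    rw [hκd]
    positivity
  have hκ1 : κ ≤ 1 := by
    rw [hκd]
    rw [div_le_one (by linarith)]
    exact hmkH
  have hκm : ((m : ℝ) + k * H) * κ ≤ 1 := by
    rw [hκd, mul_one_div_cancel (by linarith)]
  refine ⟨H, fun A₀ => ?_⟩
  obtain ⟨a, ha⟩ : ∃ a : ℕ, a = c * k + A₀ * (k + 1) + 2 := ⟨_, rfl⟩
  obtain ⟨B₁, hB, hwt0'⟩ := hW a
  obtain ⟨X₁, hwt0⟩ := hwt0' H κ hκ hκ1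
  obtain ⟨X₃, hsing⟩ := hsing0 B₁
  obtain ⟨X₄, hmu2⟩ := mu2 (2 * k) B₁
  obtain ⟨X₅, hmass7⟩ := mumass7 (2 * k) B₁
  obtain ⟨K₁, hK₁⟩ : ∃ K₁ : ℝ, K₁ = (k : ℝ) + m + k * H := ⟨_, rfl⟩
  have hK₁0 : 0 ≤ K₁ := by
    rw [hK₁]
    positivity
  obtain ⟨G₁, hG₁⟩ : ∃ G₁ : ℝ, G₁ = 2 * N * (40 * N * (k : ℝ) ^ 3 / c₀) ^ k * ((k : ℝ) ^ 2 + K₁) := ⟨_, rfl⟩
  have hG₁0 : 0 ≤ G₁ := by
    rw [hG₁]
    positivity
  obtain ⟨X₆, hlogX⟩ := Filter.eventually_atTop.1 (RNum6_log.eventually_ge_atTop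
    (9 + 4 * G₁ / c₀ + 12 * N * K₁ / c₀))
  refine ⟨2 * c + 2 * a, max (max X₁ (max X₃ X₄)) (max (max X₅ X₆) (H₀ + 1)),
    fun X hX A B hA hB' => ?_⟩
  simp only [max_le_iff] at hX
  obtain ⟨⟨hX1, hX3, hX4⟩, ⟨hX5, hX6⟩, hXH⟩ := hX
  have hlog := hlogX X hX6
  have hp1 : 0 ≤ 4 * G₁ / c₀ := by positivity
  have hp2 : 0 ≤ 12 * N * K₁ / c₀ := by positivity
  have hlog9 : 9 ≤ Real.log X := by linarith
  have hlog0 : 0 < Real.log X := by linarith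
  have hlog1 : 1 ≤ Real.log X := by linarith
  have hX1' : 1 ≤ X := by omega
  have hXR : (1 : ℝ) ≤ X := by exact_mod_cast hX1'
  have hX0 : (0 : ℝ) < X := by linarith
  have hHX : H ≤ X := by omega
  have hH₀X : H₀ ≤ X := by omega
  -- the parameters
  obtain ⟨ε, hεd⟩ : ∃ ε : ℝ, ε = 1 / (Real.log X) ^ A₀ := ⟨_, rfl⟩
  have hε : 0 < ε := by
    rw [hεd]
    positivity
  obtain ⟨τ, hτd⟩ : ∃ τ : ℝ, τ = c₀ * ε / (8 * k ^ 2) := ⟨_, rfl⟩
  have hτ : 0 < τ := by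
    rw [hτd]
    positivity
  -- z
  obtain ⟨z, hz⟩ : ∃ z : ℕ, z = ⌊(Real.log X) ^ B₁⌋₊ := ⟨_, rfl⟩
  have hzB : (z : ℝ) ≤ (Real.log X) ^ B₁ := by
    rw [hz]
    exact Nat.floor_le (by positivity)
  have hz2 : 2 ≤ z := by
    rw [hz]
    apply Nat.le_floor
    have a1 : Real.log X ≤ (Real.log X) ^ B₁ := by
      calc Real.log X = (Real.log X) ^ 1 := (pow_one _).symm
        _ ≤ _ := pow_le_pow_right₀ hlog1 (by omega)
    push_cast
    linarith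
  obtain ⟨Ω, hΩ⟩ : ∃ Ω : ℕ → Finset ℕ, Ω = Om (gt (2 * k)) := ⟨_, rfl⟩
  have hfacts : ∀ e : Fin k → Fin (2 * k), Function.Injective e →
      Nice (2 * k) Ω ∧ Cov Ω (fun i => gt (2 * k) (e i)) ∧
      Function.Injective (fun i => gt (2 * k) (e i)) ∧
      (∀ i, 1 ≤ gt (2 * k) (e i) ∧ gt (2 * k) (e i) ≤ H) := by
    intro e he
    obtain ⟨f1, f2, f3, f4, -⟩ := gt_facts (2 * k) k (by omega) e he
    rw [hΩ]
    refine ⟨f1, f2, f3, fun i => ⟨(f4 i).1, ?_⟩⟩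
    rw [hH, hF]
    exact (f4 i).2
  have hrev : ∀ j : Fin (2 * k), gt (2 * k) (Fin.rev j) + gt (2 * k) j = H₀ := by
    intro j
    have f5 := (gt_facts (2 * k) k (by omega) (one8_e0 k) (one8_e0_inj k)).2.2.2.2 j
    rw [hH₀, hF]
    exact f5
  have hNice : Nice (2 * k) Ω := (hfacts (one8_e0 k) (one8_e0_inj k)).1
  obtain ⟨h, hhd⟩ : ∃ h : (Fin k → Fin (2 * k)) → Fin k → ℕ, h = fun e i => gt (2 * k) (e i) := ⟨_, rfl⟩
  have hhx : ∀ e i, h e i = gt (2 * k) (e i) := fun e i => by rw [hhd]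
  have hhe : ∀ e, h e = fun i => gt (2 * k) (e i) := fun e => by rw [hhd]
  -- the presieved integers
  have hmu0 : ∀ x, 0 ≤ SG.mu Ω z X x := (hmu2 X z hX4 hz2 hzB Ω hNice).1
  have hmul2 := (hmu2 X z hX4 hz2 hzB Ω hNice).2
  have hmus : ∀ x, x ∉ Ioc X (2 * X) → SG.mu Ω z X x = 0 := by
    intro x hx
    unfold SG.mu
    rw [if_neg]
    exact fun hx' => hx ((filter_subset _ _) hx')
  have hmu1 : ∑ x ∈ Ioc X (2 * X), SG.mu Ω z X x ≤ 2 * X := by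
    have a1 := hmass7 X z hX5 hz2 hzB Ω hNice
    rw [abs_le] at a1
    have a2 : (X : ℝ) / Real.log X ≤ X := div_le_self hX0.le hlog1
    linarith [a1.2]
  -- the weights
  have hwt : ∀ e : Fin k → Fin (2 * k), ∃ (w : ℕ → ℝ) (v : Fin k → ℕ → ℝ) (u : ℕ → ℕ → ℝ) (M : ℝ)
      (M' : Fin k → ℝ) (M'' : ℕ → ℝ), e ∈ Inj → Wh m k H z X c a Ω (h e) w v u M M' M'' κ := by
    intro e
    by_cases he : e ∈ Inj
    · obtain ⟨f1, f2, f3, f4⟩ := hfacts e ((hInj e).1 he)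
      obtain ⟨w, v, u, M, M', M'', hw⟩ := hwt0 X hX1 (fun i => gt (2 * k) (e i)) f3 f4 Ω f1 f2
      refine ⟨w, v, u, M, M', M'', fun _ => ?_⟩
      rw [hhe, hz]
      exact hw
    · exact ⟨fun _ => 0, fun _ _ => 0, fun _ _ => 0, 0, fun _ => 0, fun _ => 0, fun h => absurd h he⟩
  choose w v u M M' M'' hWg using hwt
  have hws : ∀ e ∈ Inj, ∀ x, x ∉ Ioc X (2 * X) → w e x = 0 := fun e he x hx =>
    (hWg e he).ws x (fun hx' => hx ((filter_subset _ _) hx'))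
  have hhH : ∀ e ∈ Inj, ∀ i, 1 ≤ h e i ∧ h e i ≤ H := fun e he i => by
    rw [hhx]
    exact (hfacts e ((hInj e).1 he)).2.2.2 i
  have hhX : ∀ e ∈ Inj, ∀ i, h e i ≤ X := fun e he i => ((hhH e he i).2).trans hHX
  have hhinj : ∀ e ∈ Inj, Function.Injective (h e) := fun e he => by
    rw [hhe]
    exact (hfacts e ((hInj e).1 he)).2.2.1
  have hmassw : ∀ e ∈ Inj, ∑ x ∈ Ioc X (2 * X), w e x ≤ 5 * X := by
    intro e he
    have a1 := stp8_test X (w e) (SG.mu Ω z X) (fun _ => 1) (M e) 1 _ (fun D δ hD => by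
      simp only [mul_one, one_mul]
      exact wn_sum X D δ hD) (hWg e he).clw
    simp only [mul_one, one_mul] at a1
    have a2 := (abs_le.1 a1).2
    have a3 : (X : ℝ) / (Real.log X) ^ a ≤ X := div_le_self hX0.le (one_le_pow₀ hlog1)
    have a4 : M e * ∑ x ∈ Ioc X (2 * X), SG.mu Ω z X x ≤ 2 * (2 * X) := by
      apply mul_le_mul _ hmu1 (sum_nonneg fun x _ => hmu0 x) (by norm_num)
      linarith [(hWg e he).M1]
    linarith
  -- the weight W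
  obtain ⟨W, hWd⟩ : ∃ W : ℕ → ℝ, W = fun n => ∑ e ∈ Inj, am B (h e) (w e) n := ⟨_, rfl⟩
  have hWx : ∀ n, W n = ∑ e ∈ Inj, am B (h e) (w e) n := fun n => by rw [hWd]
  have hams := fun e (he : e ∈ Inj) (A : Set ℕ) => am_supp A (h e) (w e) X (hhX e he) (hws e he) (hWg e he).w0
  have hW0 : ∀ n, 0 ≤ W n := fun n => by
    rw [hWx]
    exact sum_nonneg fun e he => (hams e he B).2.1 n
  have hWs : ∀ n, n ∉ Ioc X (3 * X) → W n = 0 := fun n hn => by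
    rw [hWx]
    exact sum_eq_zero fun e he => (hams e he B).1 n hn
  have hWW : ∀ e ∈ Inj, ∀ n, am B (h e) (w e) n ≤ W n := fun e he n => by
    rw [hWx]
    exact single_le_sum (f := fun e => am B (h e) (w e) n) (fun e he => (hams e he B).2.1 n) he
  obtain ⟨U, hU⟩ : ∃ U : ℝ, U = 5 * N * k * X := ⟨_, rfl⟩
  have hU0 : 0 < U := by
    rw [hU]
    positivity
  have hWU : ∑ j ∈ Ioc X (3 * X), W j ≤ U := by
    have a1 : ∀ e ∈ Inj, ∑ j ∈ Ioc X (3 * X), am B (h e) (w e) j ≤ k * (5 * X) := by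
      intro e he
      refine ((hams e he B).2.2.2.1).trans ?_
      exact mul_le_mul_of_nonneg_left (hmassw e he) (by linarith)
    calc ∑ j ∈ Ioc X (3 * X), W j = ∑ e ∈ Inj, ∑ j ∈ Ioc X (3 * X), am B (h e) (w e) j := by
          rw [sum_comm]
          exact sum_congr rfl fun j _ => hWx j
      _ ≤ ∑ e ∈ Inj, k * (5 * (X : ℝ)) := sum_le_sum a1
      _ = U := by
          rw [sum_const, nsmul_eq_mul, hU, hN]
          ring
  have hW2 : ∑ j ∈ Ioc X (3 * X), (W j) ^ 2 ≤ N ^ 2 * k ^ 2 * X * (Real.log X) ^ c := by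
    have a1 : ∀ j, (W j) ^ 2 ≤ N * ∑ e ∈ Inj, (am B (h e) (w e) j) ^ 2 := by
      intro j
      rw [hWx, hN]
      exact sq_sum_le_card_mul_sum_sq
    have a2 : ∀ e ∈ Inj, ∑ j ∈ Ioc X (3 * X), (am B (h e) (w e) j) ^ 2 ≤ k ^ 2 * (X * (Real.log X) ^ c) := by
      intro e he
      refine ((hams e he B).2.2.2.2).trans ?_
      exact mul_le_mul_of_nonneg_left (hWg e he).l2 (by positivity)
    calc ∑ j ∈ Ioc X (3 * X), (W j) ^ 2 ≤ ∑ j ∈ Ioc X (3 * X), N * ∑ e ∈ Inj, (am B (h e) (w e) j) ^ 2 :=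
          sum_le_sum fun j _ => a1 j
      _ = N * ∑ e ∈ Inj, ∑ j ∈ Ioc X (3 * X), (am B (h e) (w e) j) ^ 2 := by
          rw [← mul_sum, sum_comm]
      _ ≤ N * ∑ e ∈ Inj, k ^ 2 * (X * (Real.log X) ^ c) := by
          apply mul_le_mul_of_nonneg_left _ (by linarith)
          exact sum_le_sum a2
      _ = N ^ 2 * k ^ 2 * X * (Real.log X) ^ c := by
          rw [sum_const, nsmul_eq_mul, ← hN]
          ring
  -- the exceptional set
  obtain ⟨E, hE⟩ : ∃ E : Finset ℕ, E = (range (8 * X)).filter (fun s => Even s ∧ 2 * X + X / 8 ≤ s ∧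
    s + X / 8 ≤ 4 * X ∧ (rep A B s : ℝ) < X / (Real.log X) ^ (2 * c + 2 * a)) := ⟨_, rfl⟩
  rw [← hE]
  have hEsub : E ⊆ range (8 * X) := by
    rw [hE]
    exact filter_subset _ _
  have hErep : ∀ s ∈ E, (rep A B s : ℝ) ≤ X / (Real.log X) ^ (2 * c + 2 * a) := by
    intro s hs
    rw [hE, mem_filter] at hs
    exact hs.2.2.2.2.le
  have hE8 : (E.card : ℝ) ≤ 8 * X := by
    have := card_le_card hEsub
    rw [card_range] at this
    exact_mod_cast this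
  by_contra hcon
  push Not at hcon
  have hcon' : ε * X < E.card := by
    refine lt_of_le_of_lt (le_of_eq ?_) hcon
    rw [hεd]
    ring
  -- the test function
  have hWn : Wn X (3 * N * k * X * (Real.log X) ^ c) (cor E W) := by
    refine wn_mono X _ _ ?_ _ (wn_cor X hX1' E hEsub W hWs _ hW2)
    have a1 : (E.card : ℝ) * (N ^ 2 * k ^ 2 * X * (Real.log X) ^ c) ≤ (3 * N * k * X * (Real.log X) ^ c) ^ 2 := by
      have a2 : (1 : ℝ) ≤ (Real.log X) ^ c := one_le_pow₀ hlog1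
      calc (E.card : ℝ) * (N ^ 2 * k ^ 2 * X * (Real.log X) ^ c) ≤
            8 * X * (N ^ 2 * k ^ 2 * X * (Real.log X) ^ c) := by gcongr
        _ = 8 * (N ^ 2 * k ^ 2 * X ^ 2) * ((Real.log X) ^ c * 1) := by ring
        _ ≤ 9 * (N ^ 2 * k ^ 2 * X ^ 2) * ((Real.log X) ^ c * (Real.log X) ^ c) := by
            gcongr
            norm_num
        _ = (3 * N * k * X * (Real.log X) ^ c) ^ 2 := by ring
    have a3 := Real.sqrt_le_sqrt a1
    rwa [Real.sqrt_sq (by positivity)] at a3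
  -- the bad part
  have hbadE : ∀ e ∈ Inj, ∑ x ∈ Ioc X (2 * X), SG.mu Ω z X x *
      ∏ i, (cor E W (x + gt (2 * k) (e i)) / U) ≤
      (k ^ 2 + K₁) * X * (Real.log X) ^ (c * k) / (Real.log X) ^ a := by
    intro e he
    have a1 := bad8 hm hk hX1' hHX hlog1 Ω (h e) (hhinj e he) (hhH e he) (w e) (v e) (u e) (M e) (M' e)
      (M'' e) κ hκ.le hκm (hWg e he) A hA hmu0 E W hW0 hWs U hU0 hWU _ (by positivity) hWn
    simp only [hhx] at a1
    refine a1.trans ?_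
    have a2 : ∑ n ∈ Ioc X (3 * X), am A (h e) (w e) n * cor E W n ≤
        N * (3 * k ^ 2 * X ^ 2 / (Real.log X) ^ a) := by
      have b1 : ∀ n, cor E W n = ∑ e' ∈ Inj, cor E (am B (h e') (w e')) n := by
        intro n
        unfold cor
        rw [sum_comm]
        refine sum_congr rfl fun s _ => ?_
        split_ifs
        · exact hWx _
        · rw [sum_const_zero]
      have b2 : ∑ n ∈ Ioc X (3 * X), am A (h e) (w e) n * cor E W n =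
          ∑ e' ∈ Inj, ∑ n ∈ Ioc X (3 * X), am A (h e) (w e) n * cor E (am B (h e') (w e')) n := by
        rw [sum_comm]
        refine sum_congr rfl fun n _ => ?_
        rw [b1, mul_sum]
      rw [b2]
      calc ∑ e' ∈ Inj, ∑ n ∈ Ioc X (3 * X), am A (h e) (w e) n * cor E (am B (h e') (w e')) n
          ≤ ∑ e' ∈ Inj, 3 * (k : ℝ) ^ 2 * X ^ 2 / (Real.log X) ^ a :=
            sum_le_sum fun e' he' => ups8 X c a hX1' hlog1 E hEsub A B hErep (h e) (h e') (hhX e he)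
              (hhX e' he') (w e) (w e') (hWg e he).w0 (hWg e' he').w0 (hws e he) (hws e' he')
              (hWg e he).l2 (hWg e' he').l2
        _ = N * (3 * k ^ 2 * X ^ 2 / (Real.log X) ^ a) := by rw [sum_const, nsmul_eq_mul, hN]
    have a3 : (k : ℝ) / U * ∑ n ∈ Ioc X (3 * X), am A (h e) (w e) n * cor E W n ≤
        k ^ 2 * X * (Real.log X) ^ (c * k) / (Real.log X) ^ a := by
      have c1 : (1 : ℝ) ≤ (Real.log X) ^ (c * k) := one_le_pow₀ hlog1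
      calc (k : ℝ) / U * ∑ n ∈ Ioc X (3 * X), am A (h e) (w e) n * cor E W n
          ≤ k / U * (N * (3 * k ^ 2 * X ^ 2 / (Real.log X) ^ a)) := by gcongr
        _ = (3 / 5) * (k ^ 2 * X * 1 / (Real.log X) ^ a) := by
            rw [hU]
            field_simp
        _ ≤ 1 * (k ^ 2 * X * (Real.log X) ^ (c * k) / (Real.log X) ^ a) := by
            gcongr
            norm_num
        _ = k ^ 2 * X * (Real.log X) ^ (c * k) / (Real.log X) ^ a := one_mul _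
    have a4 : (3 * N * k * X * (Real.log X) ^ c / U) ^ k ≤ (Real.log X) ^ (c * k) := by
      have c1 : 3 * N * k * X * (Real.log X) ^ c / U ≤ (Real.log X) ^ c := by
        rw [div_le_iff₀ hU0, hU]
        have : 0 ≤ N * k * X * (Real.log X) ^ c := by positivity
        nlinarith
      rw [pow_mul]
      exact pow_le_pow_left₀ (by positivity) c1 k
    have a5 : ((k : ℝ) + m + k * H) * ((3 * N * k * X * (Real.log X) ^ c / U) ^ k * (X / (Real.log X) ^ a)) ≤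
        K₁ * X * (Real.log X) ^ (c * k) / (Real.log X) ^ a := by
      rw [← hK₁]
      calc K₁ * ((3 * N * k * X * (Real.log X) ^ c / U) ^ k * (X / (Real.log X) ^ a)) ≤
            K₁ * ((Real.log X) ^ (c * k) * (X / (Real.log X) ^ a)) := by gcongr
        _ = _ := by ring
    have a6 : ((k : ℝ) ^ 2 + K₁) * X * (Real.log X) ^ (c * k) / (Real.log X) ^ a =
        k ^ 2 * X * (Real.log X) ^ (c * k) / (Real.log X) ^ a +
          K₁ * X * (Real.log X) ^ (c * k) / (Real.log X) ^ a := by ring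
    rw [a6]
    linarith
  -- the good part
  have hgoodE : ∀ e ∈ Inj, ∀ f : ℕ → ℝ, (∀ x, 0 ≤ f x ∧ f x ≤ SG.mu Ω z X x) →
      (∀ x, f x ≠ 0 → ∀ i, cor E W (x + gt (2 * k) (e i)) ≤ τ * X) →
      ∑ x ∈ Ioc X (2 * X), SG.mu Ω z X x * cor E f (x + H₀) ≤ k ^ 2 * τ * X * ∑ x ∈ Ioc X (2 * X), f x +
        K₁ * (3 * X * Real.log X * (X / (Real.log X) ^ a)) := by
    intro e he f hf hfτ
    obtain ⟨e', he'⟩ : ∃ e' : Fin k → Fin (2 * k), e' = fun i => Fin.rev (e i) := ⟨_, rfl⟩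
    have he'I : e' ∈ Inj := by
      rw [hInj, he']
      exact Fin.rev_injective.comp ((hInj e).1 he)
    rw [hK₁]
    exact goo8 hm hk hX1' hlog1 Ω (h e) (h e') H₀ (fun i => by
        rw [hhx, hhx, he']
        exact hrev (e i)) hH₀X (hhinj e' he'I) (hhH e' he'I) (w e') (v e') (u e') (M e') (M' e') (M'' e')
      κ hκ.le hκm (hWg e' he'I) B hB' hmu0 hmul2 f hf E hEsub W (hWW e' he'I) τ (fun x hx i => by
        rw [hhx]
        exact hfτ x hx i)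
  have hcomb := comb7 k X H₀ hX1' E (SG.mu Ω z X) hmu0 hmus hmu1 (cor E W)
    (fun n => (cor_le X E W hW0 hWs n).1) (gt (2 * k)) τ U _ _ hτ hU0 Inj
    (fun e he => (hInj e).2 he) hbadE hgoodE
  have hs := one8_sing X H₀ (SG.mu Ω z X) E c₀ (fun s hs => by
    rw [hE, mem_filter] at hs
    have a1 := hsing X z hX3 hz2 hzB s hs.2.1 hs.2.2.1 hs.2.2.2.1
    rw [← hF, ← hH₀, ← hΩ] at a1
    exact a1)
  have hUτ : U / (τ * X) = 5 * N * k / τ := by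
    rw [hU]
    field_simp
  rw [hUτ, ← hN] at hcomb
  have hle := hs.trans hcomb
  have hlt : c₀ * X * (ε * X) < c₀ * X * E.card := by
    apply mul_lt_mul_of_pos_left hcon'
    positivity
  have hfin := one8_num c₀ N k K₁ (Real.log X) X G₁ k a A₀ c hc₀ hNR hkR hK₁0 hlog1 hX0 ha hG₁
    (by linarith) (by linarith) τ (by rw [hτd, hεd])
  have hc1 : c₀ * (1 / (Real.log X) ^ A₀) * (X : ℝ) ^ 2 = c₀ * X * (ε * X) := by
    rw [hεd]
    ring
  rw [hc1] at hfin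
  linarith

end Pool.Agent.Lib.SH
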