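import Pool.Agent.Lib.SH.All9
import Pool.Agent.Lib.SH.Mid9

/-!
# SH-Pm9: prime midpoints (helper10)
-/

set_option autoImplicit false

open Finset

namespace Pool.Agent.Lib.SH

open Pool.Agent.Lib.MT Pool.Agent.Lib.SG

private theorem pm9_scale (X : ℝ) (hX : 0 < X) (ε : ℝ) (J : ℕ) (hJ : (2 / 3 : ℝ) ^ (J + 1) ≤ ε / 3) (n : ℝ)
    (hn : ε * X / 2 ≤ n) (hnX : n ≤ X) :
    ∃ j ≤ J, 11 / 10 * (X * (2 / 3 : ℝ) ^ (j + 1)) ≤ n ∧ n ≤ 19 / 10 * (X * (2 / 3 : ℝ) ^ (j + 1)) := by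
  classical
  have hex : ∃ j : ℕ, 11 / 10 * (X * (2 / 3 : ℝ) ^ (j + 1)) ≤ n := by
    refine ⟨J, ?_⟩
    have : X * (2 / 3 : ℝ) ^ (J + 1) ≤ X * (ε / 3) := mul_le_mul_of_nonneg_left hJ hX.le
    have h0 : 0 < X * (2 / 3 : ℝ) ^ (J + 1) := by positivity
    linarith
  have hJ' : 11 / 10 * (X * (2 / 3 : ℝ) ^ (J + 1)) ≤ n := by
    have : X * (2 / 3 : ℝ) ^ (J + 1) ≤ X * (ε / 3) := mul_le_mul_of_nonneg_left hJ hX.le
    have h0 : 0 < X * (2 / 3 : ℝ) ^ (J + 1) := by positivity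
    linarith
  refine ⟨Nat.find hex, Nat.find_min' hex hJ', Nat.find_spec hex, ?_⟩
  rcases Nat.eq_zero_or_pos (Nat.find hex) with h | h
  · rw [h]
    norm_num
    linarith
  · have h1 := Nat.find_min hex (Nat.sub_lt h one_pos)
    push Not at h1
    have h2 : Nat.find hex - 1 + 1 = Nat.find hex := Nat.sub_add_cancel h
    rw [h2] at h1
    rw [pow_succ]
    have h0 : 0 < X * (2 / 3 : ℝ) ^ (Nat.find hex) := by positivity
    linarith

private theorem pm9_Y (t : ℝ) (ht : 1000 ≤ t) (Y n : ℕ) (hY : Y = ⌊t⌋₊) (h1 : 11 / 10 * t ≤ n)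
    (h2 : (n : ℝ) ≤ 19 / 10 * t) :
    2 * n < 8 * Y ∧ 2 * Y + Y / 8 ≤ 2 * n ∧ 2 * n + Y / 8 ≤ 4 * Y := by
  have a1 : (Y : ℝ) ≤ t := by
    rw [hY]
    exact Nat.floor_le (by linarith)
  have a2 : t < Y + 1 := by
    rw [hY]
    exact Nat.lt_floor_add_one _
  have b1 : (22 * (Y : ℝ)) ≤ 20 * n := by linarith
  have b2 : (20 * (n : ℝ)) ≤ 38 * Y + 38 := by linarith
  have b3 : 22 * Y ≤ 20 * n := by exact_mod_cast b1
  have b4 : 20 * n ≤ 38 * Y + 38 := by exact_mod_cast b2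
  have b5 : (999 : ℝ) ≤ Y := by linarith
  have b6 : 999 ≤ Y := by exact_mod_cast b5
  omega

private theorem pm9_geom (n : ℕ) : ∑ j ∈ range n, (2 / 3 : ℝ) ^ (j + 1) ≤ 2 := by
  have h : ∑ j ∈ range n, (2 / 3 : ℝ) ^ (j + 1) = 2 - 2 * (2 / 3) ^ n := by
    induction n with
    | zero => simp
    | succ n ih =>
      rw [sum_range_succ, ih, pow_succ]
      ring
  rw [h]
  have : (0 : ℝ) < 2 * (2 / 3) ^ n := by positivity
  linarith

private theorem pm9_J (ε : ℝ) (hε : 0 < ε) (hε1 : ε ≤ 1) :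
    ∃ J : ℕ, (2 / 3 : ℝ) ^ (J + 1) ≤ ε / 3 ∧ 2 * ε / 9 ≤ (2 / 3 : ℝ) ^ (J + 1) := by
  classical
  have hex : ∃ J : ℕ, (2 / 3 : ℝ) ^ J ≤ ε / 3 := by
    obtain ⟨J, hJ⟩ := exists_pow_lt_of_lt_one (show 0 < ε / 3 by positivity) (show (2 / 3 : ℝ) < 1 by norm_num)
    exact ⟨J, hJ.le⟩
  have h0 : 0 < Nat.find hex := by
    rw [Nat.find_pos]
    rw [pow_zero]
    linarith
  have h1 := Nat.find_min hex (Nat.sub_lt h0 one_pos)
  push Not at h1
  refine ⟨Nat.find hex - 1, ?_, ?_⟩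
  · rw [Nat.sub_add_cancel h0]
    exact Nat.find_spec hex
  · rw [pow_succ]
    linarith

private theorem pm9_log (X Y : ℝ) (hX : 0 < X) (hY : Real.sqrt X ≤ Y) :
    Real.log X / 2 ≤ Real.log Y := by
  have hs0 : 0 < Real.sqrt X := Real.sqrt_pos.2 hX
  rw [← Real.log_sqrt hX.le]
  exact Real.log_le_log hs0 hY

/-- Chebyshev -/
private theorem pm9_cheb (X : ℕ) (hX : 1 ≤ X) (hL : 0 < Real.log X) :
    (((Ioc X (3 * X)).filter Nat.Prime).card : ℝ) ≤ 5 * X / Real.log X := by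
  have h1 := Chebyshev.theta_le_log4_mul_x (x := ((3 * X : ℕ) : ℝ)) (Nat.cast_nonneg _)
  rw [Chebyshev.theta_eq_sum_Icc, Nat.floor_natCast] at h1
  have hX0 : (0 : ℝ) < X := by exact_mod_cast hX
  have h2 : ∑ p ∈ (Ioc X (3 * X)).filter Nat.Prime, Real.log X ≤
      ∑ p ∈ (Icc 0 (3 * X)).filter Nat.Prime, Real.log p := by
    refine (sum_le_sum (g := fun p : ℕ => Real.log p) ?_).trans (sum_le_sum_of_subset_of_nonneg ?_ ?_)
    · intro p hp
      rw [mem_filter, mem_Ioc] at hp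
      exact Real.log_le_log hX0 (by exact_mod_cast hp.1.1.le)
    · intro p hp
      rw [mem_filter, mem_Ioc] at hp
      rw [mem_filter, mem_Icc]
      exact ⟨by omega, hp.2⟩
    · intro p hp _
      rw [mem_filter] at hp
      exact Real.log_nonneg (by exact_mod_cast hp.2.one_lt.le)
  rw [sum_const, nsmul_eq_mul] at h2
  rw [le_div_iff₀ hL]
  have h3 : Real.log 4 ≤ 3 / 2 := by
    have e1 : Real.log 4 = 2 * Real.log 2 := by
      rw [show (4 : ℝ) = 2 ^ 2 by norm_num, Real.log_pow]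
      norm_num
    rw [e1]
    have := Real.log_two_lt_d9
    linarith
  have h4 : Real.log 4 * ((3 * X : ℕ) : ℝ) ≤ 5 * X := by
    push_cast
    nlinarith
  linarith

private theorem pm9_miss (m H X Y : ℕ) (A : Set ℕ) (h : 2 * X ≤ Y) : (Mis m H X A).card ≤ (Miss m H Y A).card := by
  refine card_le_card fun x hx => ?_
  unfold Mis at hx
  unfold Miss
  have h1 := (@Finset.mem_filter _ _ (_) _ _).mp hx
  rw [mem_Ioc] at h1
  refine (@Finset.mem_filter _ _ (_) _ _).mpr ⟨?_, h1.2⟩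
  rw [mem_Icc]
  omega

open Classical in
/-- one scale -/
theorem pm9_one (m : ℕ) (hm : 1 ≤ m) : ∃ κ₀ : ℝ, 0 < κ₀ ∧ κ₀ ≤ 1 ∧ ∀ κ ε : ℝ, 0 < κ → 0 < ε →
    ∃ c η : ℝ, 0 < c ∧ 0 < η ∧
    ∃ X₀ : ℕ, ∀ X : ℕ, X₀ ≤ X → ∀ H : ℕ, (H : ℝ) ≤ κ₀ * Real.log X → κ * Real.log X ≤ H →
    ∀ A B : Set ℕ, ((Mis m H X A).card : ℝ) ≤ η * X → ((Mis m H X B).card : ℝ) ≤ η * X →
    (((range (4 * X)).filter (fun p => p.Prime ∧ 2 * X + X / 8 ≤ 2 * p ∧ 2 * p + X / 8 ≤ 4 * X ∧
      (rep A B (2 * p) : ℝ) < c * X / (Real.log X) ^ 2)).card : ℝ) ≤ ε * X / Real.log X := by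
  obtain ⟨κ₀, hκ₀, hκ₀1, D, hD, hbin⟩ := bin9r m hm
  obtain ⟨C, hC, X₂, hmid⟩ := mid9 D (by omega)
  refine ⟨κ₀, hκ₀, hκ₀1, fun κ ε hκ0 hε => ?_⟩
  obtain ⟨c, η, hc, hη, X₁, hb⟩ := hbin κ (C + 5) ε hκ0 (by linarith) hε
  obtain ⟨X₆, hlog⟩ := Filter.eventually_atTop.mp (RNum6_log.eventually_ge_atTop 9)
  refine ⟨c, η, hc, hη, X₁ + X₂ + X₆ + 100, fun X hX H hH1 hH2 A B hA hB => ?_⟩
  have hL := hlog X (by omega)
  have hX1 : 1 ≤ X := by omega
  have hXR : (1 : ℝ) ≤ X := by exact_mod_cast hX1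
  have hX0 : (0 : ℝ) < X := by linarith
  have hL0 : 0 < Real.log X := by linarith
  obtain ⟨P, hP⟩ : ∃ P : Finset ℕ, P = (range (4 * X)).filter (fun p => p.Prime ∧ 2 * X + X / 8 ≤ 2 * p ∧
    2 * p + X / 8 ≤ 4 * X) := ⟨_, rfl⟩
  have hPm : ∀ p ∈ P, p ∈ Ioc X (2 * X) ∧ p.Prime ∧ 2 * X + X / 8 ≤ 2 * p ∧ 2 * p + X / 8 ≤ 4 * X := by
    intro p hp
    rw [hP, mem_filter] at hp
    refine ⟨?_, hp.2⟩
    rw [mem_Ioc]
    omega
  have hinj : Function.Injective (fun p : ℕ => 2 * p) := fun a b hab => by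
    have : 2 * a = 2 * b := hab
    omega
  obtain ⟨T, hT⟩ : ∃ T : Finset ℕ, T = P.image (fun p => 2 * p) := ⟨_, rfl⟩
  have hTc : T.card = P.card := by
    rw [hT]
    exact card_image_of_injective _ hinj
  have hTs : ∀ f : ℕ → ℝ, ∑ s ∈ T, f s = ∑ p ∈ P, f (2 * p) := by
    intro f
    rw [hT, sum_image (fun a _ b _ hab => hinj hab)]
  have hfin := hb X (by omega) H hH1 hH2 A B hA hB T (Real.log X) (by linarith) le_rfl (by
      intro s hs
      rw [hT, mem_image] at hs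
      obtain ⟨p, hp, rfl⟩ := hs
      have h1 := hPm p hp
      exact ⟨even_two_mul p, h1.2.2⟩) (by
      rw [hTc]
      have h1 : P.card ≤ ((Ioc X (3 * X)).filter Nat.Prime).card := by
        refine card_le_card fun p hp => ?_
        have h1 := hPm p hp
        rw [mem_filter]
        refine ⟨?_, h1.2.1⟩
        have h2 := mem_Ioc.mp h1.1
        rw [mem_Ioc]
        omega
      have h2 : (P.card : ℝ) ≤ ((Ioc X (3 * X)).filter Nat.Prime).card := by exact_mod_cast h1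
      refine h2.trans ((pm9_cheb X hX1 hL0).trans ?_)
      gcongr
      linarith) (by
      intro n hn hnz
      have h1 := (hmid X (by omega) n hn hnz).1
      rw [hTs]
      have hκz := kap_pos (zX D X)
      calc ∑ p ∈ P, (if n ≤ 2 * p then rI (zX D X) X (2 * p - n) else 0) ≤
          ∑ p ∈ P, (if n < 2 * p ∧ Rg (zX D X) (2 * p - n) then (kap (zX D X))⁻¹ else 0) := by
            refine sum_le_sum fun p _ => ?_
            have h0 : (0 : ℝ) ≤ if n < 2 * p ∧ Rg (zX D X) (2 * p - n) then (kap (zX D X))⁻¹ else 0 := by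
              split_ifs
              · positivity
              · exact le_rfl
            by_cases c1 : n ≤ 2 * p
            · rw [if_pos c1]
              unfold rI
              by_cases c2 : 2 * p - n ∈ Ioc X (2 * X)
              · rw [if_pos c2]
                unfold rz
                by_cases c3 : ∀ q ∈ PP 0 (zX D X), ¬ q ∣ 2 * p - n
                · rw [if_pos c3, if_pos]
                  have c4 := mem_Ioc.mp c2
                  exact ⟨by omega, c3⟩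
                · rw [if_neg c3]
                  exact h0
              · rw [if_neg c2]
                exact h0
            · rw [if_neg c1]
              exact h0
        _ = (P.filter fun p => n < 2 * p ∧ Rg (zX D X) (2 * p - n)).card * (kap (zX D X))⁻¹ := by
            rw [← sum_filter, sum_const, nsmul_eq_mul]
        _ ≤ (C * kap (zX D X) * X / Real.log X) * (kap (zX D X))⁻¹ := by
            refine mul_le_mul_of_nonneg_right (le_trans ?_ h1) (by positivity)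
            have h3 : (P.filter fun p => n < 2 * p ∧ Rg (zX D X) (2 * p - n)).card ≤
                ((Ioc X (2 * X)).filter fun p => p.Prime ∧ n < 2 * p ∧ Rg (zX D X) (2 * p - n)).card := by
              refine card_le_card fun p hp => ?_
              rw [mem_filter] at hp ⊢
              have h4 := hPm p hp.1
              exact ⟨h4.1, h4.2.1, hp.2⟩
            exact_mod_cast h3
        _ = C * X / Real.log X := by field_simp
        _ ≤ _ := by
            gcongr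
            linarith) (by
      intro n hn hnz
      have h1 := (hmid X (by omega) n hn hnz).2
      have h2 : (T.filter fun s => n < s ∧ s - n ∈ Ioc X (3 * X) ∧ (s - n).Prime).card ≤
          ((Ioc X (2 * X)).filter fun p => p.Prime ∧ n < 2 * p ∧ X < 2 * p - n ∧ (2 * p - n).Prime).card := by
        have h3 : T.filter (fun s => n < s ∧ s - n ∈ Ioc X (3 * X) ∧ (s - n).Prime) ⊆
            ((Ioc X (2 * X)).filter fun p => p.Prime ∧ n < 2 * p ∧ X < 2 * p - n ∧ (2 * p - n).Prime).image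
              (fun p => 2 * p) := by
          intro s hs
          rw [mem_filter, hT, mem_image] at hs
          obtain ⟨⟨p, hp, rfl⟩, h4, h5, h6⟩ := hs
          have h7 := hPm p hp
          rw [mem_Ioc] at h5
          rw [mem_image]
          refine ⟨p, ?_, rfl⟩
          rw [mem_filter]
          exact ⟨h7.1, h7.2.1, h4, h5.1, h6⟩
        exact (card_le_card h3).trans card_image_le
      have h3 : ((T.filter fun s => n < s ∧ s - n ∈ Ioc X (3 * X) ∧ (s - n).Prime).card : ℝ) ≤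
          C * X / (Real.log X) ^ 2 := le_trans (by exact_mod_cast h2) h1
      refine h3.trans ?_
      rw [sq]
      gcongr
      linarith)
  refine le_trans ?_ hfin
  have h1 : ((range (4 * X)).filter (fun p => p.Prime ∧ 2 * X + X / 8 ≤ 2 * p ∧ 2 * p + X / 8 ≤ 4 * X ∧
      (rep A B (2 * p) : ℝ) < c * X / (Real.log X) ^ 2)).card ≤
      (T.filter fun s => (rep A B s : ℝ) < c * X / (Real.log X) ^ 2).card := by
    rw [← card_image_of_injective _ hinj]
    refine card_le_card fun s hs => ?_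
    rw [mem_image] at hs
    obtain ⟨p, hp, rfl⟩ := hs
    rw [mem_filter] at hp
    rw [mem_filter, hT, mem_image]
    refine ⟨⟨p, ?_, rfl⟩, hp.2.2.2.2⟩
    rw [hP, mem_filter]
    exact ⟨hp.1, hp.2.1, hp.2.2.1, hp.2.2.2.1⟩
  exact_mod_cast h1

private theorem pm9_pi : ∃ X₀ : ℕ, ∀ X : ℕ, X₀ ≤ X → 1 ≤ Real.log X ∧
    (((Icc 1 X).filter Nat.Prime).card : ℝ) * Real.log X ≤ 2 * X := by
  have h1 := Chebyshev.eventually_primeCounting_le (show (0 : ℝ) < 1 / 2 by norm_num)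
  obtain ⟨x₀, h2⟩ := Filter.eventually_atTop.mp h1
  obtain ⟨X₁, h3⟩ := Filter.eventually_atTop.mp (RNum6_log.eventually_ge_atTop 1)
  refine ⟨max ⌈x₀⌉₊ X₁, fun X hX => ?_⟩
  rw [max_le_iff] at hX
  have a1 := h3 X hX.2
  have a2 := h2 (X : ℝ) ((Nat.le_ceil x₀).trans (by exact_mod_cast hX.1))
  rw [Nat.floor_natCast] at a2
  have h6 : Real.log 4 ≤ 3 / 2 := by
    have e1 : Real.log 4 = 2 * Real.log 2 := by
      rw [show (4 : ℝ) = 2 ^ 2 by norm_num, Real.log_pow]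
      norm_num
    rw [e1]
    have := Real.log_two_lt_d9
    linarith
  refine ⟨a1, ?_⟩
  rw [le_div_iff₀ (by linarith)] at a2
  have h7 : ((Icc 1 X).filter Nat.Prime).card ≤ Nat.primeCounting X := by
    rw [Nat.primeCounting, Nat.primeCounting', Nat.count_eq_card_filter_range]
    refine card_le_card fun p hp => ?_
    rw [mem_filter, mem_Icc] at hp
    rw [mem_filter, mem_range]
    exact ⟨by omega, hp.2⟩
  have h8 : (((Icc 1 X).filter Nat.Prime).card : ℝ) * Real.log X ≤ (Nat.primeCounting X : ℝ) * Real.log X :=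
    mul_le_mul_of_nonneg_right (by exact_mod_cast h7) (by linarith)
  have h9 : (Real.log 4 + 1 / 2) * (X : ℝ) ≤ 2 * X := by
    apply mul_le_mul_of_nonneg_right _ (Nat.cast_nonneg _)
    linarith
  linarith

open Classical in
theorem pm9 (m : ℕ) (hm : 1 ≤ m) : ∃ κ₀ : ℝ, 0 < κ₀ ∧ ∀ κ ε : ℝ, 0 < κ → κ ≤ κ₀ → 0 < ε →
    ∃ c η : ℝ, 0 < c ∧ 0 < η ∧ ∃ X₀ : ℕ, ∀ X : ℕ, X₀ ≤ X → ∀ A B : Set ℕ, ((Miss m ⌊κ * Real.log X⌋₊ (2 * X) A).card : ℝ) ≤ η * X →
    ((Miss m ⌊κ * Real.log X⌋₊ (2 * X) B).card : ℝ) ≤ η * X →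
    (((Icc 1 X).filter (fun p => p.Prime ∧ (rep A B (2 * p) : ℝ) < c * X / (Real.log X) ^ 2)).card : ℝ) ≤
      ε * X / Real.log X := by
  obtain ⟨κ₀, hκ₀, hκ₀1, hb⟩ := pm9_one m hm
  refine ⟨κ₀ / 2, by positivity, fun κ ε₀ hκ0 hκκ hε₀ => ?_⟩
  obtain ⟨ε, hε⟩ : ∃ ε : ℝ, ε = min ε₀ 1 := ⟨_, rfl⟩
  have hε0 : 0 < ε := by
    rw [hε]
    exact lt_min hε₀ one_pos
  have hε1 : ε ≤ 1 := by
    rw [hε]
    exact min_le_right _ _
  have hεε : ε ≤ ε₀ := by
    rw [hε]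
    exact min_le_left _ _
  obtain ⟨J, hJ, hJ2⟩ := pm9_J (ε / 4) (by positivity) (by linarith)
  obtain ⟨δ, hδ⟩ : ∃ δ : ℝ, δ = (2 / 3 : ℝ) ^ (J + 1) := ⟨_, rfl⟩
  have hδ0 : 0 < δ := by
    rw [hδ]
    positivity
  have hδ1 : δ ≤ ε / 4 / 3 := by
    rw [hδ]
    exact hJ
  obtain ⟨c₁, η₁, hc₁, hη₁, X₁, h1⟩ := hb (κ / 2) (ε / 8) (by positivity) (by positivity)
  obtain ⟨X₅, hpi⟩ := pm9_pi
  obtain ⟨X₂, hlog⟩ := Filter.eventually_atTop.mp (RNum6_log.eventually_ge_atTop (18 + 4 / κ))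
  obtain ⟨X₃, hX₃⟩ : ∃ X₃ : ℕ, (2 * (X₁ + X₅ + 1001)) / δ ≤ (X₃ : ℝ) := exists_nat_ge _
  obtain ⟨X₄, hX₄⟩ : ∃ X₄ : ℕ, 4 / δ ^ 2 ≤ (X₄ : ℝ) := exists_nat_ge _
  refine ⟨c₁ * (δ / 2), η₁ * (δ / 2), by positivity, by positivity, X₂ + X₃ + X₄ + 3, fun X hX A B hA hB => ?_⟩
  have hL := hlog X (by omega)
  have h4κ : 0 < 4 / κ := by positivity
  have hXX : (3 : ℝ) ≤ X := by exact_mod_cast (show 3 ≤ X by omega)
  have hX0 : (0 : ℝ) < X := by linarith
  have hlog0 : 0 < Real.log X := by linarith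
  have hδX : 2 * ((X₁ : ℝ) + X₅ + 1001) ≤ δ * X := by
    rw [div_le_iff₀ hδ0] at hX₃
    have h2 : (X₃ : ℝ) ≤ X := by exact_mod_cast (show X₃ ≤ X by omega)
    nlinarith
  have hsq : Real.sqrt X ≤ δ / 2 * X := by
    have h2 : (X₄ : ℝ) ≤ X := by exact_mod_cast (show X₄ ≤ X by omega)
    have h3 : 4 / δ ^ 2 ≤ X := hX₄.trans h2
    rw [div_le_iff₀ (by positivity)] at h3
    rw [Real.sqrt_le_left (by positivity)]
    nlinarith
  obtain ⟨t, ht⟩ : ∃ t : ℕ → ℝ, t = fun j => X * (2 / 3 : ℝ) ^ (j + 1) := ⟨_, rfl⟩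
  have htj : ∀ j ≤ J, δ * X ≤ t j ∧ t j ≤ X := by
    intro j hj
    rw [ht, hδ]
    simp only
    constructor
    · rw [mul_comm]
      apply mul_le_mul_of_nonneg_left _ hX0.le
      exact pow_le_pow_of_le_one (by norm_num) (by norm_num) (by omega)
    · exact mul_le_of_le_one_right hX0.le (pow_le_one₀ (by norm_num) (by norm_num))
  obtain ⟨Y, hY⟩ : ∃ Y : ℕ → ℕ, Y = fun j => ⌊t j⌋₊ := ⟨_, rfl⟩
  have hYj : ∀ j ≤ J, (Y j : ℝ) ≤ t j ∧ t j < Y j + 1 := by
    intro j hj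
    have h0 : 0 ≤ t j := by
      have := (htj j hj).1
      have h0 : 0 < δ * X := by positivity
      linarith
    rw [hY]
    exact ⟨Nat.floor_le h0, Nat.lt_floor_add_one _⟩
  have hX₁0 : (0 : ℝ) ≤ X₁ := Nat.cast_nonneg _
  have hX₅0 : (0 : ℝ) ≤ X₅ := Nat.cast_nonneg _
  have hYd : ∀ j ≤ J, δ / 2 * X ≤ Y j := by
    intro j hj
    have a2 := (hYj j hj).2
    have a3 := (htj j hj).1
    have h1 : δ / 2 * X = δ * X / 2 := by ring
    linarith
  obtain ⟨E, hE⟩ : ∃ E : ℕ → Finset ℕ, E = fun j => (range (4 * Y j)).filter (fun p => p.Prime ∧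
      2 * Y j + Y j / 8 ≤ 2 * p ∧ 2 * p + Y j / 8 ≤ 4 * Y j ∧
      (rep A B (2 * p) : ℝ) < c₁ * Y j / (Real.log (Y j)) ^ 2) := ⟨_, rfl⟩
  have hYX : ∀ j ≤ J, Y j ≤ X := by
    intro j hj
    have : (Y j : ℝ) ≤ X := ((hYj j hj).1).trans (htj j hj).2
    exact_mod_cast this
  have hYl : ∀ j ≤ J, Real.log X / 2 ≤ Real.log (Y j) ∧ Real.log (Y j) ≤ Real.log X := by
    intro j hj
    have a1 := hYd j hj
    refine ⟨pm9_log X (Y j) hX0 (hsq.trans a1), Real.log_le_log ?_ (by exact_mod_cast hYX j hj)⟩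
    have : 0 < δ / 2 * X := by positivity
    linarith
  have hEj : ∀ j ≤ J, ((E j).card : ℝ) ≤ ε / 4 * t j / Real.log X := by
    intro j hj
    have a2' := (hYj j hj).2
    have a3' := (htj j hj).1
    have a1 : X₁ ≤ Y j := by
      have : (X₁ : ℝ) ≤ Y j := by linarith
      exact_mod_cast this
    have a2 : Y j ≤ X := hYX j hj
    have a4 := hYl j hj
    have f1 : ((⌊κ * Real.log X⌋₊ : ℕ) : ℝ) ≤ κ * Real.log X := Nat.floor_le (by positivity)
    have f2 := Nat.lt_floor_add_one (κ * Real.log X)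
    have f3 : 2 ≤ κ * Real.log X := by
      have : 4 / κ ≤ Real.log X := by linarith
      rw [div_le_iff₀ hκ0] at this
      linarith
    have f4 : κ * Real.log X ≤ κ₀ / 2 * Real.log X := mul_le_mul_of_nonneg_right hκκ hlog0.le
    have f5 : κ₀ * (Real.log X / 2) ≤ κ₀ * Real.log (Y j) := mul_le_mul_of_nonneg_left a4.1 hκ₀.le
    have f6 : κ / 2 * Real.log (Y j) ≤ κ / 2 * Real.log X := mul_le_mul_of_nonneg_left a4.2 (by positivity)
    have a3 := h1 (Y j) a1 ⌊κ * Real.log X⌋₊ (by linarith) (by linarith) A B (by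
      have e1 : ((Mis m ⌊κ * Real.log X⌋₊ (Y j) A).card : ℝ) ≤
          (Miss m ⌊κ * Real.log X⌋₊ (2 * X) A).card := by
        exact_mod_cast pm9_miss m _ (Y j) (2 * X) A (by omega)
      refine e1.trans (hA.trans ?_)
      rw [mul_assoc]
      exact mul_le_mul_of_nonneg_left (hYd j hj) hη₁.le) (by
      have e1 : ((Mis m ⌊κ * Real.log X⌋₊ (Y j) B).card : ℝ) ≤
          (Miss m ⌊κ * Real.log X⌋₊ (2 * X) B).card := by
        exact_mod_cast pm9_miss m _ (Y j) (2 * X) B (by omega)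
      refine e1.trans (hB.trans ?_)
      rw [mul_assoc]
      exact mul_le_mul_of_nonneg_left (hYd j hj) hη₁.le)
    rw [hE]
    refine a3.trans ?_
    have b1 := (hYj j hj).1
    have b2 : 0 ≤ t j := by
      have : (0 : ℝ) ≤ Y j := Nat.cast_nonneg _
      linarith
    calc ε / 8 * (Y j : ℝ) / Real.log (Y j) ≤ ε / 8 * t j / (Real.log X / 2) := by
          apply div_le_div₀ (by positivity) (by gcongr) (by positivity) a4.1
      _ = ε / 4 * t j / Real.log X := by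
          field_simp
          ring
  -- covering
  have hcov : (Icc 1 X).filter (fun p => p.Prime ∧ (rep A B (2 * p) : ℝ) < c₁ * (δ / 2) * X / (Real.log X) ^ 2) ⊆
      (Icc 1 ⌊ε / 4 * X / 2⌋₊).filter Nat.Prime ∪ (range (J + 1)).biUnion E := by
    intro n hn
    rw [mem_filter, mem_Icc] at hn
    obtain ⟨⟨hn1, hnX⟩, hnp, hrep⟩ := hn
    rw [mem_union]
    by_cases hc : (n : ℝ) ≤ ε / 4 * X / 2
    · left
      rw [mem_filter, mem_Icc]
      exact ⟨⟨hn1, Nat.le_floor hc⟩, hnp⟩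
    · right
      push Not at hc
      obtain ⟨j, hj, b1, b2⟩ := pm9_scale X hX0 (ε / 4) J hJ n hc.le (by exact_mod_cast hnX)
      rw [mem_biUnion]
      refine ⟨j, by rw [mem_range]; omega, ?_⟩
      have htd : t j = X * (2 / 3 : ℝ) ^ (j + 1) := by rw [ht]
      rw [← htd] at b1 b2
      have b3 : 1000 ≤ t j := by
        have a3 := (htj j hj).1
        linarith
      obtain ⟨c1, c2, c3⟩ := pm9_Y (t j) b3 (Y j) n (by rw [hY]) b1 b2
      rw [hE]
      simp only [mem_filter, mem_range]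
      refine ⟨by omega, hnp, c2, c3, ?_⟩
      refine hrep.trans_le ?_
      have d4 := hYl j hj
      have d5 : 0 < Real.log (Y j) := by linarith
      rw [mul_assoc]
      have d6 := hYd j hj
      apply div_le_div₀ (by positivity) (by gcongr) (by positivity)
      exact pow_le_pow_left₀ d5.le d4.2 2
  have hfin := card_le_card hcov
  have hfin2 : (((Icc 1 X).filter (fun p => p.Prime ∧
      (rep A B (2 * p) : ℝ) < c₁ * (δ / 2) * X / (Real.log X) ^ 2)).card : ℝ) ≤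
      (((Icc 1 ⌊ε / 4 * X / 2⌋₊).filter Nat.Prime).card : ℝ) + ∑ j ∈ range (J + 1), ((E j).card : ℝ) := by
    have e1 : ((Icc 1 ⌊ε / 4 * X / 2⌋₊).filter Nat.Prime ∪ (range (J + 1)).biUnion E).card ≤
        ((Icc 1 ⌊ε / 4 * X / 2⌋₊).filter Nat.Prime).card + ∑ j ∈ range (J + 1), (E j).card := by
      refine (card_union_le _ _).trans ?_
      apply Nat.add_le_add_left
      exact card_biUnion_le
    exact_mod_cast hfin.trans e1
  refine hfin2.trans ?_
  -- small primes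
  have f0 : δ * X ≤ ε / 4 * X / 3 := by
    calc δ * X ≤ ε / 4 / 3 * X := mul_le_mul_of_nonneg_right hδ1 hX0.le
      _ = _ := by ring
  obtain ⟨y, hy⟩ : ∃ y : ℕ, y = ⌊ε / 4 * X / 2⌋₊ := ⟨_, rfl⟩
  rw [← hy]
  have hy1 : (y : ℝ) ≤ ε / 4 * X / 2 := by
    rw [hy]
    exact Nat.floor_le (by positivity)
  have hy2 : ε / 4 * X / 2 < y + 1 := by
    rw [hy]
    exact Nat.lt_floor_add_one _
  have hy3 : δ / 2 * X ≤ y := by
    have h1 : δ / 2 * X = δ * X / 2 := by ring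
    linarith
  have f1 : (((Icc 1 y).filter Nat.Prime).card : ℝ) ≤ ε / 2 * X / Real.log X := by
    have g1 := hpi y (by
      have : (X₅ : ℝ) ≤ y := by
        have h1 : δ / 2 * X = δ * X / 2 := by ring
        linarith
      exact_mod_cast this)
    have g2 := pm9_log X y hX0 (hsq.trans hy3)
    rw [le_div_iff₀ hlog0]
    have g3 : (((Icc 1 y).filter Nat.Prime).card : ℝ) * (Real.log X / 2) ≤
        (((Icc 1 y).filter Nat.Prime).card : ℝ) * Real.log y := mul_le_mul_of_nonneg_left g2 (Nat.cast_nonneg _)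
    linarith [g1.2]
  have f2 : ∑ j ∈ range (J + 1), ((E j).card : ℝ) ≤ ∑ j ∈ range (J + 1), ε / 4 * t j / Real.log X :=
    sum_le_sum fun j hj => hEj j (by rw [mem_range] at hj; omega)
  have f3 : ∑ j ∈ range (J + 1), ε / 4 * t j / Real.log X ≤ ε / 2 * X / Real.log X := by
    calc ∑ j ∈ range (J + 1), ε / 4 * t j / Real.log X =
          ε / 4 * X / Real.log X * ∑ j ∈ range (J + 1), (2 / 3 : ℝ) ^ (j + 1) := by
          rw [mul_sum, ht]
          refine sum_congr rfl fun j _ => ?_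
          ring
      _ ≤ ε / 4 * X / Real.log X * 2 := mul_le_mul_of_nonneg_left (pm9_geom _) (by positivity)
      _ = _ := by ring
  have f4 : ε * X / Real.log X ≤ ε₀ * X / Real.log X := by gcongr
  have f5 : ε / 2 * X / Real.log X + ε / 2 * X / Real.log X = ε * X / Real.log X := by ring
  linarith

end Pool.Agent.Lib.SH
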