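import Pool.Agent.Lib.SH.Core9
import Pool.Agent.Lib.SH.Clp9
import Pool.Agent.Lib.SH.Wn2
import Pool.Agent.Lib.SH.DefP

/-!
# SH-Prin9: one scale, the principle for every set B (helper10)
-/

set_option autoImplicit false

open Finset

namespace Pool.Agent.Lib.SH

open Pool.Agent.Lib.MT Pool.Agent.Lib.SG

private theorem prin9_sum (E B : Finset ℕ) (X Y : ℕ) (A : Set ℕ) (S : Finset ℕ)
    (hS : ∀ n, n ∈ S ↔ n ∈ Ioc X Y ∧ n ∈ A ∧ n.Prime) : ∑ n ∈ S, cr E B n = prs E B X Y A := by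
  classical
  have h := cr_sum E B S (fun _ => 1)
  simp only [one_mul] at h
  rw [h]
  unfold prs
  refine sum_congr rfl fun N _ => sum_congr rfl fun b _ => ?_
  refine if_congr ?_ rfl rfl
  rw [hS]

/-- one scale, with a general normalisation -/
theorem prin9r (m K : ℕ) (hm : 1 ≤ m) : ∃ κ₀ : ℝ, 0 < κ₀ ∧ κ₀ ≤ 1 ∧ ∃ D : ℕ, 2 ≤ D ∧ ∀ κ δ : ℝ, 0 < κ → 0 < δ →
    ∃ c η : ℝ, 0 < c ∧ 0 < η ∧ ∃ X₀ : ℕ, ∀ X : ℕ, X₀ ≤ X → ∀ H : ℕ, (H : ℝ) ≤ κ₀ * Real.log X →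
    κ * Real.log X ≤ H → ∀ A : Set ℕ, ((Mis m H X A).card : ℝ) ≤ η * X → ∀ (E B : Finset ℕ) (M : ℝ), 0 < M →
    Real.sqrt (E.card * B.card) ≤ M * (Real.log X) ^ K →
    (∀ n ∈ Ioc X (3 * X), Rg (zX D X) n → cr E B n ≤ M) →
    δ * M * X ≤ Real.log X * prs E B X (2 * X) Set.univ →
    c * M * X ≤ Real.log X * prs E B X (3 * X) A := by
  classical
  obtain ⟨D₁, hD₁, hcore⟩ := core9 m K hm
  obtain ⟨D₂, hclp⟩ := clp9 (K + 1)
  obtain ⟨D, hD⟩ : ∃ D, D = D₁ + D₂ := ⟨_, rfl⟩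
  obtain ⟨κ₀, hκ₀, hκ₀1, hcore⟩ := hcore D (by omega)
  obtain ⟨X₁, hclp⟩ := hclp D (by omega)
  refine ⟨κ₀, hκ₀, hκ₀1, D, by omega, fun κ δ hκ hδ => ?_⟩
  obtain ⟨c, η, hc, hη, X₂, hco⟩ := hcore κ (δ / 48) hκ (by positivity)
  obtain ⟨X₃, hlog⟩ := Filter.eventually_atTop.mp (RNum6_log.eventually_ge_atTop (1 + 2 / δ))
  refine ⟨c, η, hc, hη, X₁ + X₂ + X₃ + 1, fun X hX H hH1 hH2 A hA E B M hM hEB hcr hsum => ?_⟩
  have hL := hlog X (by omega)
  have h2δ : 0 < 2 / δ := by positivity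
  have hX1 : 1 ≤ X := by omega
  have hXR : (1 : ℝ) ≤ X := by exact_mod_cast hX1
  have hX0 : (0 : ℝ) < X := by linarith
  have hL1 : 1 ≤ Real.log X := by linarith
  have hL0 : 0 < Real.log X := by linarith
  obtain ⟨φ, hφ⟩ : ∃ φ : ℕ → ℝ, φ = fun n => 1 / M * cr E B n := ⟨_, rfl⟩
  have hφx : ∀ n, φ n = 1 / M * cr E B n := fun n => by rw [hφ]
  have hφ0 : ∀ n, 0 ≤ φ n := fun n => by
    rw [hφx]
    exact mul_nonneg (by positivity) (cr_nonneg E B n)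
  have hφ1 : ∀ n ∈ Ioc X (3 * X), Rg (zX D X) n → φ n ≤ 1 := fun n hn hr => by
    rw [hφx, one_div_mul_eq_div, div_le_one hM]
    exact hcr n hn hr
  -- the test function
  have hφW : Wn X ((Real.log X) ^ K) φ := by
    obtain ⟨Z, hZ⟩ : ∃ Z : ℕ, Z = ∑ N ∈ E, N + ∑ b ∈ B, b := ⟨_, rfl⟩
    have hEM : ∀ N ∈ E, N ≤ Z := fun N hN => by
      have : N ≤ ∑ N ∈ E, N := single_le_sum (f := fun n : ℕ => n) (fun _ _ => Nat.zero_le _) hN
      omega
    have hBM : ∀ b ∈ B, b ≤ Z := fun b hb => by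
      have : b ≤ ∑ b ∈ B, b := single_le_sum (f := fun n : ℕ => n) (fun _ _ => Nat.zero_le _) hb
      omega
    rw [hφ]
    refine wn_mono X _ _ ?_ _ (wn_smul X _ (1 / M) (by positivity) _ (wn_cr X Z E B hEM hBM))
    calc 1 / M * Real.sqrt (E.card * B.card) ≤ 1 / M * (M * (Real.log X) ^ K) := by gcongr
      _ = (Real.log X) ^ K := by field_simp
  -- primes and rough numbers
  obtain ⟨G, hG, hcl⟩ := hclp X (by omega)
  obtain ⟨z, hz⟩ : ∃ z, z = zX D X := ⟨_, rfl⟩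
  rw [← hz] at hcl
  have hrz0 : ∀ n, 0 ≤ rz z n := fun n => by
    unfold rz
    split_ifs
    · exact (inv_pos.2 (kap_pos z)).le
    · exact le_rfl
  have hdiff : |∑ x ∈ Ioc X (2 * X), (BV.th x - G * rz z x) * φ x| ≤ X / Real.log X := by
    have a1 : ∀ α : ℝ, ‖ES (fun x => BV.th x - G * rz z x) X α‖ ≤ X / (Real.log X) ^ (K + 1) := by
      intro α
      have e1 : ES (fun x => BV.th x - G * rz z x) X α = ES BV.th X α - (G : ℂ) * ES (rz z) X α := by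
        unfold ES
        rw [mul_sum, ← sum_sub_distrib]
        refine sum_congr rfl fun x _ => ?_
        push_cast
        ring
      rw [e1]
      exact hcl α
    have a2 := hφW 0 _ _ (Nat.zero_le _) a1
    have a3 := wn_sum X _ _ a2
    refine a3.trans (le_of_eq ?_)
    rw [pow_succ]
    field_simp
  have hth : δ * X ≤ ∑ x ∈ Ioc X (2 * X), BV.th x * φ x := by
    have a1 : Real.log X * prs E B X (2 * X) Set.univ ≤ M * ∑ x ∈ Ioc X (2 * X), BV.th x * φ x := by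
      rw [← prin9_sum E B X (2 * X) Set.univ ((Ioc X (2 * X)).filter Nat.Prime) (fun n => by
        rw [mem_filter]
        exact ⟨fun h => ⟨h.1, Set.mem_univ _, h.2⟩, fun h => ⟨h.1, h.2.2⟩⟩), mul_sum, mul_sum, sum_filter]
      refine sum_le_sum fun x hx => ?_
      rw [mem_Ioc] at hx
      unfold BV.th
      split_ifs with hp
      · rw [hφx]
        have b1 : Real.log X ≤ Real.log x := Real.log_le_log hX0 (by exact_mod_cast hx.1.le)
        have b2 : M * (Real.log x * (1 / M * cr E B x)) = Real.log x * cr E B x := by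
          field_simp
        rw [b2]
        exact mul_le_mul_of_nonneg_right b1 (cr_nonneg E B x)
      · rw [zero_mul, mul_zero]
    have a2 := hsum.trans a1
    have a3 : M * (δ * X) ≤ M * ∑ x ∈ Ioc X (2 * X), BV.th x * φ x := by linarith
    exact le_of_mul_le_mul_left a3 hM
  have hrough : δ / 48 * X ≤ ∑ n ∈ Ioc X (2 * X), rz z n * φ n := by
    obtain ⟨S, hS⟩ : ∃ S : ℝ, S = ∑ n ∈ Ioc X (2 * X), rz z n * φ n := ⟨_, rfl⟩
    have hS0 : 0 ≤ S := by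
      rw [hS]
      exact sum_nonneg fun n _ => mul_nonneg (hrz0 n) (hφ0 n)
    have a1 : ∑ x ∈ Ioc X (2 * X), (BV.th x - G * rz z x) * φ x =
        ∑ x ∈ Ioc X (2 * X), BV.th x * φ x - G * S := by
      rw [hS, mul_sum, ← sum_sub_distrib]
      refine sum_congr rfl fun x _ => ?_
      ring
    rw [a1, abs_le] at hdiff
    have a2 : X / Real.log X ≤ δ / 2 * X := by
      rw [div_le_iff₀ hL0]
      have : 2 / δ ≤ Real.log X := by linarith
      rw [div_le_iff₀ hδ] at this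
      nlinarith
    have a3 : G * S ≤ 24 * S := mul_le_mul_of_nonneg_right hG hS0
    rw [← hS]
    linarith [hdiff.2]
  have hfin := hco X (by omega) H hH1 hH2 A hA φ hφ0 hφ1 hφW (by rw [← hz]; exact hrough)
  have e1 : ∑ n ∈ (Ioc X (3 * X)).filter (fun n => n ∈ A ∧ n.Prime), φ n =
      1 / M * prs E B X (3 * X) A := by
    rw [← prin9_sum E B X (3 * X) A ((Ioc X (3 * X)).filter (fun n => n ∈ A ∧ n.Prime)) (fun n => by
      rw [mem_filter]), mul_sum]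
    exact sum_congr rfl fun n _ => hφx n
  rw [e1, div_le_iff₀ hL0] at hfin
  calc c * M * X = M * (c * X) := by ring
    _ ≤ M * (1 / M * prs E B X (3 * X) A * Real.log X) := by gcongr
    _ = _ := by field_simp

theorem prin9 (m K : ℕ) (hm : 1 ≤ m) : ∃ κ₀ : ℝ, 0 < κ₀ ∧ κ₀ ≤ 1 ∧ ∀ κ δ : ℝ, 0 < κ → 0 < δ →
    ∃ c η : ℝ, 0 < c ∧ 0 < η ∧ ∃ X₀ : ℕ, ∀ X : ℕ, X₀ ≤ X → ∀ H : ℕ, (H : ℝ) ≤ κ₀ * Real.log X →
    κ * Real.log X ≤ H → ∀ A : Set ℕ, ((Mis m H X A).card : ℝ) ≤ η * X → ∀ E B : Finset ℕ, 0 < B.card →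
    (E.card : ℝ) ≤ B.card * (Real.log X) ^ K →
    δ * B.card * X ≤ Real.log X * prs E B X (2 * X) Set.univ →
    c * B.card * X ≤ Real.log X * prs E B X (3 * X) A := by
  obtain ⟨κ₀, hκ₀, hκ₀1, D, hD, h⟩ := prin9r m K hm
  refine ⟨κ₀, hκ₀, hκ₀1, fun κ δ hκ hδ => ?_⟩
  obtain ⟨c, η, hc, hη, X₁, h⟩ := h κ δ hκ hδ
  obtain ⟨X₂, hlog⟩ := Filter.eventually_atTop.mp (RNum6_log.eventually_ge_atTop 1)
  refine ⟨c, η, hc, hη, X₁ + X₂, fun X hX H hH1 hH2 A hA E B hB hE hsum => ?_⟩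
  have hL1 := hlog X (by omega)
  have hBR : (0 : ℝ) < B.card := by exact_mod_cast hB
  refine h X (by omega) H hH1 hH2 A hA E B B.card hBR ?_ (fun n _ _ => cr_le E B n) hsum
  have a1 : (E.card : ℝ) * B.card ≤ (B.card * (Real.log X) ^ K) ^ 2 := by
    have b1 : 1 ≤ (Real.log X) ^ K := one_le_pow₀ hL1
    calc (E.card : ℝ) * B.card ≤ (B.card * (Real.log X) ^ K) * B.card := by gcongr
      _ = B.card ^ 2 * ((Real.log X) ^ K * 1) := by ring
      _ ≤ B.card ^ 2 * ((Real.log X) ^ K * (Real.log X) ^ K) := by gcongr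
      _ = _ := by ring
  have a3 := Real.sqrt_le_sqrt a1
  have hL0 : 0 ≤ Real.log X := by linarith
  rwa [Real.sqrt_sq (by positivity)] at a3

end Pool.Agent.Lib.SH
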