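import Pool.Agent.Lib.SH.DefP

/-!
# SH-PrinAllA: all scales from one scale (helper10)
-/

set_option autoImplicit false

open Finset

namespace Pool.Agent.Lib.SH

open Pool.Agent.Lib.MT Pool.Agent.Lib.SG

open Classical in
/-- few pairs with a small difference -/
private theorem prinall_small (E B : Finset ℕ) (y : ℕ) :
    ∑ N ∈ E, ∑ b ∈ B, (if b ≤ N ∧ N - b ≤ y ∧ (N - b).Prime then (1 : ℝ) else 0) ≤
      B.card * ((Icc 1 y).filter Nat.Prime).card := by
  rw [sum_comm]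
  have h1 : ∀ b ∈ B, ∑ N ∈ E, (if b ≤ N ∧ N - b ≤ y ∧ (N - b).Prime then (1 : ℝ) else 0) ≤
      ((Icc 1 y).filter Nat.Prime).card := by
    intro b _
    rw [sum_boole]
    have h2 : (E.filter fun N => b ≤ N ∧ N - b ≤ y ∧ (N - b).Prime).card ≤ ((Icc 1 y).filter Nat.Prime).card := by
      refine card_le_card_of_injOn (fun N => N - b) ?_ ?_
      · intro N hN
        rw [mem_coe, mem_filter] at hN
        rw [mem_coe, mem_filter, mem_Icc]
        exact ⟨⟨hN.2.2.2.pos, hN.2.2.1⟩, hN.2.2.2⟩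
      · intro N hN N' hN' hNN
        rw [mem_coe, mem_filter] at hN hN'
        simp only at hNN
        omega
    exact_mod_cast h2
  refine (sum_le_sum h1).trans (le_of_eq ?_)
  rw [sum_const, nsmul_eq_mul]

open Classical in
theorem prin_all_of (m K : ℕ)
    (hprin9 : ∃ κ₀ : ℝ, 0 < κ₀ ∧ κ₀ ≤ 1 ∧ ∀ κ δ : ℝ, 0 < κ → 0 < δ →
    ∃ c η : ℝ, 0 < c ∧ 0 < η ∧ ∃ X₀ : ℕ, ∀ X : ℕ, X₀ ≤ X → ∀ H : ℕ, (H : ℝ) ≤ κ₀ * Real.log X →
    κ * Real.log X ≤ H → ∀ A : Set ℕ, ((Mis m H X A).card : ℝ) ≤ η * X → ∀ E B : Finset ℕ, 0 < B.card →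
    (E.card : ℝ) ≤ B.card * (Real.log X) ^ (K + 1) →
    δ * B.card * X ≤ Real.log X * prs E B X (2 * X) Set.univ →
    c * B.card * X ≤ Real.log X * prs E B X (3 * X) A) :
    ∃ κ₀ : ℝ, 0 < κ₀ ∧ ∀ κ δ ε : ℝ, 0 < κ → κ ≤ κ₀ → 0 < δ → 0 < ε →
    ∃ c η : ℝ, 0 < c ∧ 0 < η ∧ ∃ X₀ : ℕ, ∀ X : ℕ, X₀ ≤ X → ∀ A : Set ℕ,
    ((Miss m ⌊κ * Real.log X⌋₊ (2 * X) A).card : ℝ) ≤ η * X → ∀ B : Finset ℕ, X / (Real.log X) ^ K ≤ B.card →
    (((Icc 1 (2 * X)).filter (fun N => δ * B.card / Real.log X ≤ pr1 B Set.univ N ∧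
      (pr1 B A N : ℝ) < c * pr1 B Set.univ N)).card : ℝ) ≤ ε * X := by
  obtain ⟨κ₀, hκ₀, hκ₀1, hpr⟩ := hprin9
  refine ⟨κ₀ / 2, by positivity, fun κ δ ε hκ0 hκκ hδ hε => ?_⟩
  -- the scales
  obtain ⟨ε₁, hε₁⟩ : ∃ ε₁ : ℝ, ε₁ = min (ε * δ / 16) 1 := ⟨_, rfl⟩
  have hε₁0 : 0 < ε₁ := by
    rw [hε₁]
    exact lt_min (by positivity) one_pos
  have hε₁1 : ε₁ ≤ ε * δ / 16 := by
    rw [hε₁]
    exact min_le_left _ _
  obtain ⟨J, hJ⟩ := exists_pow_lt_of_lt_one (show 0 < ε₁ / 2 by positivity) (show (2 / 3 : ℝ) < 1 by norm_num)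
  obtain ⟨δ₀, hδ₀⟩ : ∃ δ₀ : ℝ, δ₀ = (2 / 3 : ℝ) ^ J := ⟨_, rfl⟩
  rw [← hδ₀] at hJ
  have hδ₀0 : 0 < δ₀ := by
    rw [hδ₀]
    positivity
  obtain ⟨δ', hδ'⟩ : ∃ δ' : ℝ, δ' = ε * δ / (8 * (J + 1)) := ⟨_, rfl⟩
  have hδ'0 : 0 < δ' := by
    rw [hδ']
    positivity
  obtain ⟨c₁, η₁, hc₁, hη₁, X₁, hone⟩ := hpr (κ / 2) δ' (by positivity) hδ'0
  obtain ⟨X₂, hpi⟩ := prinall_pi
  obtain ⟨X₃, hlog⟩ := Filter.eventually_atTop.mp
    (RNum6_log.eventually_ge_atTop (2 + 4 / κ + 2 * 2 ^ (K + 1)))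
  obtain ⟨X₄, hX₄⟩ : ∃ X₄ : ℕ, (2 * (X₁ + X₂ + 10)) / δ₀ ≤ (X₄ : ℝ) := exists_nat_ge _
  obtain ⟨X₅, hX₅⟩ : ∃ X₅ : ℕ, 4 / δ₀ ^ 2 ≤ (X₅ : ℝ) := exists_nat_ge _
  refine ⟨c₁ * δ₀ / 8, η₁ * (δ₀ / 2), by positivity, by positivity, X₂ + X₃ + X₄ + X₅ + 1,
    fun X hX A hA B hB => ?_⟩
  have hL := hlog X (by omega)
  have h4κ : 0 < 4 / κ := by positivity
  have h2K : (0 : ℝ) < 2 * 2 ^ (K + 1) := by positivity
  have hXX : (1 : ℝ) ≤ X := by exact_mod_cast (show 1 ≤ X by omega)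
  have hX0 : (0 : ℝ) < X := by linarith
  have hL0 : 0 < Real.log X := by linarith
  have hX₁0 : (0 : ℝ) ≤ X₁ := Nat.cast_nonneg _
  have hX₂0 : (0 : ℝ) ≤ X₂ := Nat.cast_nonneg _
  have hδX : 2 * ((X₁ : ℝ) + X₂ + 10) ≤ δ₀ * X := by
    rw [div_le_iff₀ hδ₀0] at hX₄
    have h2 : (X₄ : ℝ) ≤ X := by exact_mod_cast (show X₄ ≤ X by omega)
    nlinarith
  have hsq : Real.sqrt X ≤ δ₀ / 2 * X := by
    have h2 : (X₅ : ℝ) ≤ X := by exact_mod_cast (show X₅ ≤ X by omega)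
    have h3 : 4 / δ₀ ^ 2 ≤ X := hX₅.trans h2
    rw [div_le_iff₀ (by positivity)] at h3
    rw [Real.sqrt_le_left (by positivity)]
    nlinarith
  have hBc : (0 : ℝ) < B.card := lt_of_lt_of_le (by positivity) hB
  have hBn : 0 < B.card := by exact_mod_cast hBc
  obtain ⟨E, hE⟩ : ∃ E : Finset ℕ, E = (Icc 1 (2 * X)).filter (fun N => δ * B.card / Real.log X ≤ pr1 B Set.univ N ∧
      (pr1 B A N : ℝ) < c₁ * δ₀ / 8 * pr1 B Set.univ N) := ⟨_, rfl⟩
  rw [← hE]
  by_contra hcon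
  push Not at hcon
  have hE2 : (E.card : ℝ) ≤ 2 * X := by
    have h1 : E.card ≤ 2 * X := by
      rw [hE]
      refine (card_filter_le _ _).trans ?_
      rw [Nat.card_Icc, Nat.add_sub_cancel]
    exact_mod_cast h1
  have hEm : ∀ N ∈ E, N ≤ 2 * X ∧ δ * B.card / Real.log X ≤ pr1 B Set.univ N ∧
      (pr1 B A N : ℝ) < c₁ * δ₀ / 8 * pr1 B Set.univ N := by
    intro N hN
    rw [hE, mem_filter, mem_Icc] at hN
    exact ⟨hN.1.2, hN.2⟩
  obtain ⟨Y, hY⟩ : ∃ Y : ℕ → ℕ, Y = fun j => ⌊(X : ℝ) * (2 / 3 : ℝ) ^ j⌋₊ := ⟨_, rfl⟩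
  have hYx : ∀ j, Y j = ⌊(X : ℝ) * (2 / 3 : ℝ) ^ j⌋₊ := fun j => by rw [hY]
  have hYj : ∀ j ∈ range (J + 1), δ₀ / 2 * X ≤ Y j ∧ (Y j : ℝ) ≤ X := by
    intro j hj
    rw [mem_range] at hj
    rw [hYx]
    have h1 : δ₀ * X ≤ X * (2 / 3 : ℝ) ^ j := by
      rw [hδ₀, mul_comm]
      apply mul_le_mul_of_nonneg_left _ hX0.le
      exact pow_le_pow_of_le_one (by norm_num) (by norm_num) (by omega)
    have h2 : (X : ℝ) * (2 / 3 : ℝ) ^ j ≤ X :=
      mul_le_of_le_one_right hX0.le (pow_le_one₀ (by norm_num) (by norm_num))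
    have h3 : ((⌊(X : ℝ) * (2 / 3 : ℝ) ^ j⌋₊ : ℕ) : ℝ) ≤ X * (2 / 3 : ℝ) ^ j := Nat.floor_le (by positivity)
    have h4 := Nat.lt_floor_add_one ((X : ℝ) * (2 / 3 : ℝ) ^ j)
    have h5 : δ₀ / 2 * X = δ₀ * X / 2 := by ring
    constructor
    · linarith
    · linarith
  have hYl : ∀ j ∈ range (J + 1), Real.log X / 2 ≤ Real.log (Y j) ∧ Real.log (Y j) ≤ Real.log X := by
    intro j hj
    obtain ⟨a1, a2⟩ := hYj j hj
    have hs0 : 0 < Real.sqrt X := Real.sqrt_pos.2 hX0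
    refine ⟨?_, Real.log_le_log ?_ a2⟩
    · rw [← Real.log_sqrt hX0.le]
      exact Real.log_le_log hs0 (hsq.trans a1)
    · have : 0 < δ₀ / 2 * X := by positivity
      linarith
  -- an upper bound for all pairs
  have hupp : ∑ N ∈ E, (pr1 B Set.univ N : ℝ) ≤ 4 * B.card * X / Real.log X := by
    have g1 := (hpi (2 * X) (by omega)).2
    have g2 : Real.log X ≤ Real.log ((2 * X : ℕ) : ℝ) := by
      apply Real.log_le_log hX0
      push_cast
      linarith
    have g3 : (((Icc 1 (2 * X)).filter Nat.Prime).card : ℝ) * Real.log X ≤ 4 * X := by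
      refine (mul_le_mul_of_nonneg_left g2 (Nat.cast_nonneg _)).trans (g1.trans (le_of_eq ?_))
      push_cast
      ring
    have g4 : ∑ N ∈ E, (pr1 B Set.univ N : ℝ) ≤
        ∑ N ∈ E, ∑ b ∈ B, (if b ≤ N ∧ N - b ≤ 2 * X ∧ (N - b).Prime then (1 : ℝ) else 0) := by
      refine sum_le_sum fun N hN => ?_
      have hN2 := (hEm N hN).1
      unfold pr1
      rw [sum_boole]
      have g5 : (B.filter fun b => b ≤ N ∧ N - b ∈ (Set.univ : Set ℕ) ∧ (N - b).Prime).card ≤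
          (B.filter fun b => b ≤ N ∧ N - b ≤ 2 * X ∧ (N - b).Prime).card := by
        refine card_le_card fun b hb => ?_
        rw [mem_filter] at hb ⊢
        exact ⟨hb.1, hb.2.1, by omega, hb.2.2.2⟩
      have g6 : ((B.filter fun b => b ≤ N ∧ N - b ∈ (Set.univ : Set ℕ) ∧ (N - b).Prime).card : ℝ) ≤
          ((B.filter fun b => b ≤ N ∧ N - b ≤ 2 * X ∧ (N - b).Prime).card : ℝ) := by exact_mod_cast g5
      refine le_trans (le_of_eq ?_) g6
      congr!
    refine (g4.trans (prinall_small E B (2 * X))).trans ?_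
    rw [le_div_iff₀ hL0]
    calc (B.card : ℝ) * ((Icc 1 (2 * X)).filter Nat.Prime).card * Real.log X =
          B.card * (((Icc 1 (2 * X)).filter Nat.Prime).card * Real.log X) := by ring
      _ ≤ B.card * (4 * X) := by gcongr
      _ = _ := by ring
  -- the claim for one scale
  have hscale : ∀ j ∈ range (J + 1), Real.log (Y j) * prs E B (Y j) (2 * Y j) Set.univ < δ' * B.card * Y j := by
    intro j hj
    by_contra hc
    push Not at hc
    obtain ⟨a1, a2⟩ := hYj j hj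
    obtain ⟨b1, b2⟩ := hYl j hj
    have f1 : ((⌊κ * Real.log X⌋₊ : ℕ) : ℝ) ≤ κ * Real.log X := Nat.floor_le (by positivity)
    have f2 := Nat.lt_floor_add_one (κ * Real.log X)
    have f3 : 2 ≤ κ * Real.log X := by
      have : 4 / κ ≤ Real.log X := by linarith
      rw [div_le_iff₀ hκ0] at this
      linarith
    have f4 : κ * Real.log X ≤ κ₀ / 2 * Real.log X := mul_le_mul_of_nonneg_right hκκ hL0.le
    have f5 : κ₀ * (Real.log X / 2) ≤ κ₀ * Real.log (Y j) := mul_le_mul_of_nonneg_left b1 hκ₀.le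
    have f6 : κ / 2 * Real.log (Y j) ≤ κ / 2 * Real.log X := mul_le_mul_of_nonneg_left b2 (by positivity)
    have hXY : X₁ ≤ Y j := by
      have h5 : δ₀ / 2 * X = δ₀ * X / 2 := by ring
      have : (X₁ : ℝ) ≤ Y j := by linarith
      exact_mod_cast this
    have hYX : Y j ≤ X := by exact_mod_cast a2
    have hMis : ((Mis m ⌊κ * Real.log X⌋₊ (Y j) A).card : ℝ) ≤ η₁ * Y j := by
      have e1 : (Mis m ⌊κ * Real.log X⌋₊ (Y j) A).card ≤ (Miss m ⌊κ * Real.log X⌋₊ (2 * X) A).card := by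
        refine card_le_card fun x hx => ?_
        unfold Mis at hx
        unfold Miss
        have h1 := (@Finset.mem_filter _ _ (_) _ _).mp hx
        rw [mem_Ioc] at h1
        refine (@Finset.mem_filter _ _ (_) _ _).mpr ⟨?_, h1.2⟩
        rw [mem_Icc]
        omega
      have e2 : ((Mis m ⌊κ * Real.log X⌋₊ (Y j) A).card : ℝ) ≤
          (Miss m ⌊κ * Real.log X⌋₊ (2 * X) A).card := by exact_mod_cast e1
      refine e2.trans (hA.trans ?_)
      rw [mul_assoc]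
      exact mul_le_mul_of_nonneg_left a1 hη₁.le
    have hEB : (E.card : ℝ) ≤ B.card * (Real.log (Y j)) ^ (K + 1) := by
      have g1 : (X : ℝ) ≤ B.card * (Real.log X) ^ K := by
        rw [div_le_iff₀ (by positivity)] at hB
        exact hB
      have g2 : (Real.log X) ^ K ≤ 2 ^ K * (Real.log (Y j)) ^ K := by
        rw [← mul_pow]
        exact pow_le_pow_left₀ hL0.le (by linarith) K
      have g3 : 2 * 2 ^ K ≤ Real.log (Y j) := by
        have : (2 : ℝ) * 2 ^ (K + 1) ≤ Real.log X := by linarith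
        rw [pow_succ] at this
        linarith
      calc (E.card : ℝ) ≤ 2 * X := hE2
        _ ≤ 2 * (B.card * (2 ^ K * (Real.log (Y j)) ^ K)) := by
            have : (X : ℝ) ≤ B.card * (2 ^ K * (Real.log (Y j)) ^ K) := g1.trans (by gcongr)
            linarith
        _ = B.card * ((2 * 2 ^ K) * (Real.log (Y j)) ^ K) := by ring
        _ ≤ B.card * (Real.log (Y j) * (Real.log (Y j)) ^ K) := by
            have : 0 ≤ (Real.log (Y j)) ^ K := by
              have : 0 ≤ Real.log (Y j) := by linarith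
              positivity
            gcongr
        _ = _ := by ring
    have h1 := hone (Y j) hXY ⌊κ * Real.log X⌋₊ (by linarith) (by linarith) A hMis E B hBn hEB hc
    -- upper bound
    have h2 : prs E B (Y j) (3 * Y j) A ≤ ∑ N ∈ E, (pr1 B A N : ℝ) := by
      unfold prs pr1
      refine sum_le_sum fun N _ => ?_
      rw [sum_boole]
      have h3 : (B.filter fun b => b ≤ N ∧ N - b ∈ Ioc (Y j) (3 * Y j) ∧ N - b ∈ A ∧ (N - b).Prime).card ≤
          (B.filter fun b => b ≤ N ∧ N - b ∈ A ∧ (N - b).Prime).card := by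
        refine card_le_card fun b hb => ?_
        rw [mem_filter] at hb ⊢
        exact ⟨hb.1, hb.2.1, hb.2.2.2⟩
      exact_mod_cast h3
    have h3 : ∑ N ∈ E, (pr1 B A N : ℝ) < c₁ * δ₀ / 8 * ∑ N ∈ E, (pr1 B Set.univ N : ℝ) := by
      rw [mul_sum]
      refine sum_lt_sum_of_nonempty ?_ fun N hN => (hEm N hN).2.2
      rw [← card_pos]
      have : (0 : ℝ) < E.card := lt_trans (by positivity) hcon
      exact_mod_cast this
    have h4 : c₁ * δ₀ / 8 * ∑ N ∈ E, (pr1 B Set.univ N : ℝ) ≤ c₁ * δ₀ / 8 * (4 * B.card * X / Real.log X) :=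
      mul_le_mul_of_nonneg_left hupp (by positivity)
    have h5 : 0 ≤ prs E B (Y j) (3 * Y j) A := by
      unfold prs
      refine sum_nonneg fun N _ => sum_nonneg fun b _ => ?_
      split_ifs
      · exact zero_le_one
      · exact le_rfl
    have h6 : c₁ * B.card * Y j < c₁ * B.card * (δ₀ / 2 * X) := by
      calc c₁ * B.card * Y j ≤ Real.log (Y j) * prs E B (Y j) (3 * Y j) A := h1
        _ ≤ Real.log X * prs E B (Y j) (3 * Y j) A := mul_le_mul_of_nonneg_right b2 h5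
        _ < Real.log X * (c₁ * δ₀ / 8 * (4 * B.card * X / Real.log X)) := by
            apply mul_lt_mul_of_pos_left _ hL0
            linarith
        _ = c₁ * B.card * (δ₀ / 2 * X) := by
            field_simp
            ring
    have h7 : c₁ * B.card * (δ₀ / 2 * X) ≤ c₁ * B.card * Y j := mul_le_mul_of_nonneg_left a1 (by positivity)
    linarith
  -- small differences
  obtain ⟨y, hy⟩ : ∃ y : ℕ, y = ⌊ε₁ * X⌋₊ := ⟨_, rfl⟩
  have hy1 : (y : ℝ) ≤ ε₁ * X := by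
    rw [hy]
    exact Nat.floor_le (by positivity)
  have hy2 : ε₁ * X < y + 1 := by
    rw [hy]
    exact Nat.lt_floor_add_one _
  have hδε : δ₀ * X ≤ ε₁ / 2 * X := mul_le_mul_of_nonneg_right hJ.le hX0.le
  have hδy : δ₀ * X ≤ y := by
    have : ε₁ / 2 * X = ε₁ * X / 2 := by ring
    linarith
  have hlogy : Real.log X / 2 ≤ Real.log y := by
    rw [← Real.log_sqrt hX0.le]
    refine Real.log_le_log (Real.sqrt_pos.2 hX0) (hsq.trans ?_)
    have : 0 < δ₀ * X := by positivity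
    linarith
  have hpiy : (((Icc 1 y).filter Nat.Prime).card : ℝ) ≤ ε * δ * X / (4 * Real.log X) := by
    have g1 := (hpi y (by
      have : (X₂ : ℝ) ≤ y := by linarith
      exact_mod_cast this)).2
    rw [le_div_iff₀ (by positivity)]
    have g2 : (((Icc 1 y).filter Nat.Prime).card : ℝ) * (Real.log X / 2) ≤
        (((Icc 1 y).filter Nat.Prime).card : ℝ) * Real.log y := mul_le_mul_of_nonneg_left hlogy (Nat.cast_nonneg _)
    have g3 : ε₁ * X ≤ ε * δ / 16 * X := mul_le_mul_of_nonneg_right hε₁1 hX0.le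
    linarith
  -- total
  have htot : ε * X * (δ * B.card / Real.log X) < ∑ N ∈ E, (pr1 B Set.univ N : ℝ) := by
    calc ε * X * (δ * B.card / Real.log X) < E.card * (δ * B.card / Real.log X) := by
          apply mul_lt_mul_of_pos_right hcon
          positivity
      _ = ∑ N ∈ E, δ * B.card / Real.log X := by rw [sum_const, nsmul_eq_mul]
      _ ≤ _ := sum_le_sum fun N hN => (hEm N hN).2.1
  have hsplit : ∑ N ∈ E, (pr1 B Set.univ N : ℝ) ≤
      B.card * ((Icc 1 y).filter Nat.Prime).card + ∑ j ∈ range (J + 1), prs E B (Y j) (2 * Y j) Set.univ := by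
    refine le_trans ?_ (add_le_add (prinall_small E B y) le_rfl)
    have hcov : ∀ n : ℕ, y < n → n ≤ 2 * X → ∃ j ∈ range (J + 1), n ∈ Ioc (Y j) (2 * Y j) := by
      intro n hn hn2
      obtain ⟨j, hj, hjm⟩ := prinall_scale X y J n (by
        rw [← hδ₀]
        linarith) (by
        rw [← hδ₀]
        linarith) hn hn2
      rw [← hYx j] at hjm
      exact ⟨j, hj, hjm⟩
    have hcomm : ∑ j ∈ range (J + 1), prs E B (Y j) (2 * Y j) Set.univ =
        ∑ N ∈ E, ∑ b ∈ B, ∑ j ∈ range (J + 1), (if b ≤ N ∧ N - b ∈ Ioc (Y j) (2 * Y j) ∧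
          N - b ∈ (Set.univ : Set ℕ) ∧ (N - b).Prime then (1 : ℝ) else 0) := by
      unfold prs
      rw [sum_comm]
      refine sum_congr rfl fun N _ => ?_
      rw [sum_comm]
      refine sum_congr rfl fun b _ => sum_congr rfl fun j _ => ?_
      congr!
    rw [hcomm, ← sum_add_distrib]
    refine sum_le_sum fun N hN => ?_
    rw [← sum_add_distrib]
    have hcf : (pr1 B Set.univ N : ℝ) =
        ∑ b ∈ B, (if b ≤ N ∧ N - b ∈ (Set.univ : Set ℕ) ∧ (N - b).Prime then (1 : ℝ) else 0) := by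
      unfold pr1
      rw [sum_boole]
      congr!
    rw [hcf]
    exact sum_le_sum fun b _ => prinall_pt X y J N b Y hcov (hEm N hN).1
  have hscale2 : ∀ j ∈ range (J + 1), prs E B (Y j) (2 * Y j) Set.univ ≤ 2 * δ' * B.card * X / Real.log X := by
    intro j hj
    have a1 := hscale j hj
    obtain ⟨-, a2⟩ := hYj j hj
    obtain ⟨b1, b2⟩ := hYl j hj
    have h5 : 0 ≤ prs E B (Y j) (2 * Y j) Set.univ := by
      unfold prs
      refine sum_nonneg fun N _ => sum_nonneg fun b _ => ?_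
      split_ifs
      · exact zero_le_one
      · exact le_rfl
    rw [le_div_iff₀ hL0]
    have h6 : prs E B (Y j) (2 * Y j) Set.univ * (Real.log X / 2) ≤
        prs E B (Y j) (2 * Y j) Set.univ * Real.log (Y j) := mul_le_mul_of_nonneg_left b1 h5
    have h7 : δ' * B.card * Y j ≤ δ' * B.card * X := mul_le_mul_of_nonneg_left a2 (by positivity)
    linarith
  have hsum : ∑ j ∈ range (J + 1), prs E B (Y j) (2 * Y j) Set.univ ≤ ε * δ * X * B.card / (4 * Real.log X) := by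
    refine (sum_le_sum hscale2).trans (le_of_eq ?_)
    rw [sum_const, card_range, nsmul_eq_mul, hδ']
    push_cast
    field_simp
    ring
  have hsm : (B.card : ℝ) * ((Icc 1 y).filter Nat.Prime).card ≤ ε * δ * X * B.card / (4 * Real.log X) := by
    calc (B.card : ℝ) * ((Icc 1 y).filter Nat.Prime).card ≤ B.card * (ε * δ * X / (4 * Real.log X)) := by gcongr
      _ = _ := by ring
  have hlast : ε * X * (δ * B.card / Real.log X) = 4 * (ε * δ * X * B.card / (4 * Real.log X)) := by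
    field_simp
  have hpos : 0 < ε * δ * X * B.card / (4 * Real.log X) := by positivity
  linarith

end Pool.Agent.Lib.SH
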