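import Pool.Agent.Lib.SH.Prin9
import Pool.Agent.Lib.SH.All9
import Pool.Agent.Lib.SH.PrinAllA

/-!
# SH-PrinAll: the principle for every set B, all scales (helper10)
-/

set_option autoImplicit false

open Finset

namespace Pool.Agent.Lib.SH

open Pool.Agent.Lib.MT Pool.Agent.Lib.SG

open Classical in
theorem prin_all (m K : ℕ) (hm : 1 ≤ m) : ∃ κ₀ : ℝ, 0 < κ₀ ∧ ∀ κ δ ε : ℝ, 0 < κ → κ ≤ κ₀ → 0 < δ → 0 < ε →
    ∃ c η : ℝ, 0 < c ∧ 0 < η ∧ ∃ X₀ : ℕ, ∀ X : ℕ, X₀ ≤ X → ∀ A : Set ℕ,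
    ((Miss m ⌊κ * Real.log X⌋₊ (2 * X) A).card : ℝ) ≤ η * X → ∀ B : Finset ℕ, X / (Real.log X) ^ K ≤ B.card →
    (((Icc 1 (2 * X)).filter (fun N => δ * B.card / Real.log X ≤ pr1 B Set.univ N ∧
      (pr1 B A N : ℝ) < c * pr1 B Set.univ N)).card : ℝ) ≤ ε * X :=
  prin_all_of m K (prin9 m (K + 1) hm)

end Pool.Agent.Lib.SH
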