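import Pool.Agent.Lib.SH.Rat8
import Pool.Agent.Lib.SH.Def9

/-!
# SH-Rat9 (15 minutes): Rat8 in the notation of Def9

PROOF. `rat8 m hm` with `z := zX B X`, `R := RX X`, `ℓ := lX C₁ J k X`, `b := bX C₁ J k B X` (all by `rfl`). The hypotheses of rat8:
`16 k² + log X + 2 ≤ z`: `zX B X ≥ (log X)^B - 1 ≥ (log X)² - 1` for `B ≥ 2` and `log X` large (see the beginning of the proof of `wts8`
in SH/Wts8, `hzbig'`); `z ≤ (log X)^B`: `Nat.floor_le`. Threshold for `log X`: `RNum6_log` (see SH/Wts8).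
-/

set_option autoImplicit false

open Finset

namespace Pool.Agent.Lib.SH

open Pool.Agent.Lib.MT Pool.Agent.Lib.SG

private theorem rat9_log (c : ℝ) : ∃ X₀ : ℕ, ∀ X : ℕ, X₀ ≤ X → c ≤ Real.log X := by
  refine ⟨⌈Real.exp c⌉₊, fun X hX => ?_⟩
  have h1 : Real.exp c ≤ X := (Nat.le_ceil _).trans (by exact_mod_cast hX)
  rw [← Real.log_exp c]
  exact Real.log_le_log (Real.exp_pos c) h1

theorem rat9 (m : ℕ) (hm : 1 ≤ m) : ∃ (J k : ℕ) (C₁ : ℝ), RatP m J k C₁ := by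
  obtain ⟨J, k, C₁, hJ, hk, hkJ, hC, h⟩ := rat8 m hm
  refine ⟨J, k, C₁, hJ, hk, hkJ, hC, fun K B hB => ?_⟩
  obtain ⟨c, hc, X₀, h1⟩ := h K B
  obtain ⟨X₁, h2⟩ := rat9_log (16 * (k : ℝ) ^ 2 + 4)
  refine ⟨c, hc, max X₀ X₁, fun X hX => ?_⟩
  have hX0 : X₀ ≤ X := le_trans (le_max_left _ _) hX
  have hX1 : X₁ ≤ X := le_trans (le_max_right _ _) hX
  have hL := h2 X hX1
  have hk2 : (0 : ℝ) ≤ (k : ℝ) ^ 2 := by positivity
  have hL1 : 1 ≤ Real.log X := by linarith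
  have hL0 : 0 ≤ Real.log X := by linarith
  have hz1 : 16 * (k : ℝ) ^ 2 + Real.log X + 2 ≤ (zX B X : ℝ) := by
    have a1 : (Real.log X) ^ B < (zX B X : ℝ) + 1 := Nat.lt_floor_add_one _
    have a2 : (Real.log X) ^ 2 ≤ (Real.log X) ^ B := pow_le_pow_right₀ hL1 hB
    nlinarith
  have hz2 : (zX B X : ℝ) ≤ (Real.log X) ^ B := Nat.floor_le (by positivity)
  exact h1 X (zX B X) (RX X) hX0 hz1 hz2 rfl (lX C₁ J k X) rfl (bX C₁ J k B X) rfl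

end Pool.Agent.Lib.SH
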