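import Pool.Agent.Lib.SH.PrinAll
import Pool.Agent.Lib.MP_7b7e48_nt.LX.Lower

/-!
# One dense summand, the other one from a set which meets the clusters (T14)

`A` a set of primes of relative density at least `α`, `P` any set which at most `η X` of the windows
`(x, x + κ log X]` with at least `m` primes miss: at least `(g α - ε) X` of the `n ≤ X` have at least
`c X / (log X) ^ 2` representations `2 n = a + p` with `a ∈ A` and a prime `p ∈ P`, `p ≠ a`.
-/

set_option autoImplicit false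

open Finset

namespace Pool.Agent.Lib.SH

open Pool.Agent.Lib.MP_7b7e48_nt.LX Pool.Agent.Lib.SG

private theorem t14_pr (A : Finset ℕ) (P : Set ℕ) [DecidablePred (· ∈ P)] (n : ℕ) : pr1 A P (2 * n) ≤
    (A.filter fun a => a < 2 * n ∧ (2 * n - a).Prime ∧ 2 * n - a ≠ a ∧ 2 * n - a ∈ P).card + 1 := by
  classical
  unfold pr1
  rw [← card_singleton n]
  refine le_trans (card_le_card ?_) (card_union_le _ _)
  intro a ha
  obtain ⟨h1, h2, h3, h4⟩ := (@Finset.mem_filter _ _ (_) _ _).mp ha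
  rw [mem_union, mem_singleton]
  by_cases h : a = n
  · exact Or.inr h
  · refine Or.inl ((@Finset.mem_filter _ _ (_) _ _).mpr ⟨h1, ?_, h4, by omega, h3⟩)
    rcases Nat.lt_or_ge a (2 * n) with h5 | h5
    · exact h5
    · have : 2 * n - a = 0 := by omega
      rw [this] at h4
      exact absurd h4 Nat.not_prime_zero

private theorem t14_le (A : Finset ℕ) (n : ℕ) :
    (A.filter fun a => a < 2 * n ∧ (2 * n - a).Prime ∧ 2 * n - a ≠ a).card ≤ pr1 A Set.univ (2 * n) := by
  classical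
  unfold pr1
  refine card_le_card fun a ha => ?_
  obtain ⟨h1, h2, h3, h4⟩ := (@Finset.mem_filter _ _ (_) _ _).mp ha
  exact (@Finset.mem_filter _ _ (_) _ _).mpr ⟨h1, h2.le, Set.mem_univ _, h3⟩

open Classical in
/-- **One dense summand, the other one from a set which meets the clusters.** -/
theorem t14 (m : ℕ) (hm : 1 ≤ m) : ∃ κ₀ : ℝ, 0 < κ₀ ∧ ∀ κ α ε : ℝ, 0 < κ → κ ≤ κ₀ → 0 ≤ α → 0 < ε →
    ∃ δ c η : ℝ, 0 < δ ∧ δ ≤ 1 ∧ 0 < c ∧ 0 < η ∧ ∃ X₀ : ℕ, ∀ X : ℕ, X₀ ≤ X → ∀ P : Set ℕ,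
      ((Miss m ⌊κ * Real.log X⌋₊ (2 * X) P).card : ℝ) ≤ η * X → ∀ A : Finset ℕ,
      (∀ p ∈ A, p.Prime ∧ (p : ℝ) ≤ δ * X) → α * (Nat.primeCounting ⌊δ * X⌋₊ : ℝ) ≤ A.card →
      (gfun α - ε) * X ≤ (((Icc 1 X).filter (fun n => c * X / Real.log X ^ 2 ≤
        ((A.filter (fun a => a < 2 * n ∧ (2 * n - a).Prime ∧ 2 * n - a ≠ a ∧
          2 * n - a ∈ P)).card : ℝ))).card : ℝ) := by
  obtain ⟨κ₀, hκ₀, hpr⟩ := prin_all m 3 hm
  refine ⟨κ₀, hκ₀, fun κ α ε hκ0 hκκ hα hε => ?_⟩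
  obtain ⟨δ, hδ, hδ1, c₀, hc₀, X₁, hlow⟩ := main_lower hα (show 0 < ε / 2 by positivity)
  obtain ⟨c₁, η, hc₁, hη, X₂, hone⟩ := hpr κ (c₀ / 2) (ε / 2) hκ0 hκκ (by positivity) (by positivity)
  obtain ⟨X₃, hpi⟩ := prinall_pi
  obtain ⟨X₄, hX₄⟩ := Filter.eventually_atTop.mp
    ((RNum6_log.eventually_ge_atTop (1 + 2 / c₀)).and (RNum6_pow (2 / (c₁ * c₀)) 1 one_pos 2))
  refine ⟨δ, c₁ * c₀ / 2, η, hδ, hδ1, by positivity, hη, X₁ + X₂ + X₃ + X₄ + 1,
    fun X hX P hP A hA hcA => ?_⟩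
  have h1 := hlow X (by omega) A hA hcA
  have hXX : (1 : ℝ) ≤ X := by exact_mod_cast (show 1 ≤ X by omega)
  have hX0 : (0 : ℝ) < X := by linarith
  obtain ⟨hL1, hpiX⟩ := hpi X (by omega)
  obtain ⟨hL2, hpw⟩ := hX₄ X (by omega)
  have hL0 : 0 < Real.log X := by linarith
  have h2c : 0 < 2 / c₀ := by positivity
  rw [Real.rpow_one, div_mul_eq_mul_div, div_le_iff₀ (by positivity)] at hpw
  have hgood : (0 : ℝ) ≤ ((Icc 1 X).filter (fun n => c₁ * c₀ / 2 * X / Real.log X ^ 2 ≤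
        ((A.filter (fun a => a < 2 * n ∧ (2 * n - a).Prime ∧ 2 * n - a ≠ a ∧
          2 * n - a ∈ P)).card : ℝ))).card := Nat.cast_nonneg _
  by_cases hAc : (X : ℝ) / Real.log X ^ 3 ≤ A.card
  · have h2 := hone X (by omega) P hP A hAc
    -- the good `n` without the exceptional ones
    obtain ⟨G, hG⟩ : ∃ G : Finset ℕ, G = (Icc 1 X).filter (fun n => c₀ * X / Real.log X ^ 2 ≤
        ((A.filter (fun a => a < 2 * n ∧ (2 * n - a).Prime ∧ 2 * n - a ≠ a)).card : ℝ)) := ⟨_, rfl⟩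
    obtain ⟨E, hE⟩ : ∃ E : Finset ℕ, E = (Icc 1 (2 * X)).filter (fun N =>
        c₀ / 2 * A.card / Real.log X ≤ pr1 A Set.univ N ∧
        (pr1 A P N : ℝ) < c₁ * pr1 A Set.univ N) := ⟨_, rfl⟩
    rw [← hG] at h1
    rw [← hE] at h2
    have hsub : G ⊆ ((Icc 1 X).filter (fun n => c₁ * c₀ / 2 * X / Real.log X ^ 2 ≤
        ((A.filter (fun a => a < 2 * n ∧ (2 * n - a).Prime ∧ 2 * n - a ≠ a ∧
          2 * n - a ∈ P)).card : ℝ))) ∪ ((Icc 1 X).filter (fun n => 2 * n ∈ E)) := by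
      intro n hn
      rw [hG, mem_filter, mem_Icc] at hn
      rw [mem_union, mem_filter, mem_filter, mem_Icc]
      by_cases hnE : 2 * n ∈ E
      · exact Or.inr ⟨hn.1, hnE⟩
      · refine Or.inl ⟨hn.1, ?_⟩
        have a1 : c₀ * X / Real.log X ^ 2 ≤ pr1 A Set.univ (2 * n) :=
          hn.2.trans (by exact_mod_cast t14_le A n)
        have a2 : c₀ / 2 * A.card / Real.log X ≤ pr1 A Set.univ (2 * n) := by
          refine le_trans ?_ a1
          have a3 : (A.card : ℝ) ≤ ((Icc 1 X).filter Nat.Prime).card := by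
            refine Nat.cast_le.mpr (card_le_card fun p hp => ?_)
            rw [mem_filter, mem_Icc]
            refine ⟨⟨(hA p hp).1.one_le, ?_⟩, (hA p hp).1⟩
            have : (p : ℝ) ≤ X := (hA p hp).2.trans (by nlinarith)
            exact_mod_cast this
          rw [div_le_div_iff₀ hL0 (by positivity)]
          have a4 : (A.card : ℝ) * Real.log X ≤ 2 * X :=
            (mul_le_mul_of_nonneg_right a3 hL0.le).trans hpiX
          calc c₀ / 2 * A.card * Real.log X ^ 2 = c₀ / 2 * Real.log X * (A.card * Real.log X) := by ring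
            _ ≤ c₀ / 2 * Real.log X * (2 * X) := mul_le_mul_of_nonneg_left a4 (by positivity)
            _ = c₀ * X * Real.log X := by ring
        have a5 : c₁ * pr1 A Set.univ (2 * n) ≤ pr1 A P (2 * n) := by
          by_contra hcon
          push Not at hcon
          refine hnE ?_
          rw [hE, mem_filter, mem_Icc]
          exact ⟨⟨by omega, by omega⟩, a2, hcon⟩
        have a6 : (pr1 A P (2 * n) : ℝ) ≤ ((A.filter (fun a => a < 2 * n ∧ (2 * n - a).Prime ∧
            2 * n - a ≠ a ∧ 2 * n - a ∈ P)).card : ℝ) + 1 := by exact_mod_cast t14_pr A P n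
        have a7 : c₁ * (c₀ * X / Real.log X ^ 2) ≤ c₁ * pr1 A Set.univ (2 * n) :=
          mul_le_mul_of_nonneg_left a1 hc₁.le
        have a8 : 1 ≤ c₁ * c₀ / 2 * X / Real.log X ^ 2 := by
          rw [le_div_iff₀ (by positivity)]
          linarith
        have a9 : c₁ * (c₀ * X / Real.log X ^ 2) =
            c₁ * c₀ / 2 * X / Real.log X ^ 2 + c₁ * c₀ / 2 * X / Real.log X ^ 2 := by ring
        linarith
    have hE2 : (((Icc 1 X).filter (fun n => 2 * n ∈ E)).card : ℝ) ≤ E.card := by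
      refine Nat.cast_le.mpr ?_
      refine card_le_card_of_injOn (fun n => 2 * n) (fun n hn => ?_) (fun a _ b _ hab => ?_)
      · rw [mem_coe, mem_filter] at hn
        exact hn.2
      · have : 2 * a = 2 * b := hab
        omega
    have h3 := card_le_card hsub
    have h4 : (G.card : ℝ) ≤ (((Icc 1 X).filter (fun n => c₁ * c₀ / 2 * X / Real.log X ^ 2 ≤
        ((A.filter (fun a => a < 2 * n ∧ (2 * n - a).Prime ∧ 2 * n - a ≠ a ∧
          2 * n - a ∈ P)).card : ℝ))).card : ℝ) + ((Icc 1 X).filter (fun n => 2 * n ∈ E)).card := by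
      exact_mod_cast h3.trans (card_union_le _ _)
    have h5 : (gfun α - ε / 2) * X - ε / 2 * X = (gfun α - ε) * X := by ring
    linarith
  · push Not at hAc
    have h2 : ((Icc 1 X).filter (fun n => c₀ * X / Real.log X ^ 2 ≤
        ((A.filter (fun a => a < 2 * n ∧ (2 * n - a).Prime ∧ 2 * n - a ≠ a)).card : ℝ))).card = 0 := by
      rw [card_eq_zero, filter_eq_empty_iff]
      intro n _ hcon
      have b1 : ((A.filter (fun a => a < 2 * n ∧ (2 * n - a).Prime ∧ 2 * n - a ≠ a)).card : ℝ) ≤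
          A.card := Nat.cast_le.mpr (card_filter_le _ _)
      have b2 : c₀ * X / Real.log X ^ 2 < X / Real.log X ^ 3 := lt_of_le_of_lt (hcon.trans b1) hAc
      rw [div_lt_div_iff₀ (by positivity) (by positivity)] at b2
      have b3 : c₀ * Real.log X < 1 := by
        have b4 : c₀ * X * Real.log X ^ 3 = c₀ * Real.log X * (X * Real.log X ^ 2) := by ring
        have b5 : 0 < X * Real.log X ^ 2 := by positivity
        rw [b4] at b2
        by_contra hc
        push Not at hc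
        nlinarith
      have b6 : c₀ * (2 / c₀) = 2 := by field_simp
      nlinarith
    rw [h2, Nat.cast_zero] at h1
    have h5 : (gfun α - ε / 2) * X - ε / 2 * X = (gfun α - ε) * X := by ring
    have h6 : 0 < ε / 2 * X := by positivity
    linarith

end Pool.Agent.Lib.SH
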