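import Pool.Agent.Lib.SH.Rat8
import Pool.Agent.Lib.SH.Wts9A
import Pool.Agent.Lib.SG.Pclose7

/-!
# SH-Wts9: closeness and masses of the weights, uniformly for tuples with entries at most log X (the proof is in Wts9A)
-/

set_option autoImplicit false

open Finset

namespace Pool.Agent.Lib.SH

open Pool.Agent.Lib.MT Pool.Agent.Lib.SG

theorem wts9 (m J k : ℕ) (C₁ : ℝ) (hm : 1 ≤ m) (hR : RatP m J k C₁) : ∃ c : ℕ, ∀ K a : ℕ, ∃ B₀ : ℕ, 2 ≤ B₀ ∧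
    ∀ B : ℕ, B₀ ≤ B → ∃ X₀ : ℕ, ∀ X : ℕ, X₀ ≤ X → ∀ h : Fin k → ℕ, Function.Injective h →
    (∀ i, 1 ≤ h i ∧ (h i : ℝ) ≤ Real.log X) → ∀ Ω : ℕ → Finset ℕ, Nice K Ω → Cov Ω h →
    ∑ x ∈ Ioc X (2 * X), (wt C₁ J k B X Ω h x) ^ 2 ≤ X * (Real.log X) ^ c ∧
    ∑ x ∈ Ioc X (2 * X), wt C₁ J k B X Ω h x ≤ 2 * X ∧
    ∃ (M : ℝ) (M' : Fin k → ℝ), 0 ≤ M ∧ M ≤ 1 + 1 / (8 * (m + 1)) ∧ (∀ i, 0 ≤ M' i) ∧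
      (m : ℝ) + 1 - 1 / (8 * (m + 1)) ≤ ∑ i, M' i ∧
      (∀ α : ℝ, ‖ES (wt C₁ J k B X Ω h) X α - M * ES (SG.mu Ω (zX B X) X) X α‖ ≤ X / (Real.log X) ^ a) ∧
      ∀ i, ∀ α : ℝ, ‖ES (fun x => wt C₁ J k B X Ω h x * (BV.th (x + h i) / Real.log (3 * X))) X α -
        M' i * ES (SG.mu Ω (zX B X) X) X α‖ ≤ X / (Real.log X) ^ a :=
  wts9_of m J k C₁ hm hR pclose7

end Pool.Agent.Lib.SH
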